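import Pool.Agent.Lib.MP_9fe581_an.AP.C5

/-! # AP, A0: the minimal projections of `Ak c 1 D` -/

set_option autoImplicit false

open Finset MeasureTheory Filter Topology ProbabilityTheory
open scoped ComplexConjugate ENNReal InnerProductSpace

namespace Pool.Agent.Lib.MP_9fe581_an.AP

section A0

variable {X : Type} [MeasurableSpace X] {μ : Measure X} [IsProbabilityMeasure μ] {S : X → X} {D : SA X}
  {κ : Kernel X X} [IsMarkovKernel κ]

private theorem a0_inv (c : Ctx μ S D κ) {P : X × X → ℂ} (hP : Ker μ S κ (fun _ => 1) P) :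
    ∃ z : ℂ, act κ P (fun _ => 1) =ᵐ[μ] fun _ => z := by
  have hS := k3_pres c
  have hm : Measurable (act κ P fun _ => 1) := measurable_act hP.meas measurable_const
  have h1 : (act κ P fun _ => 1) ∘ S =ᵐ[μ] act κ P fun _ => 1 := by
    filter_upwards [c.fib.shift, Measure.ae_ae_of_ae_compProd hP.tw] with x hx htw
    show ∫ y, P (S x, y) * 1 ∂κ (S x) = ∫ y, P (x, y) * 1 ∂κ x
    rw [← hx, integral_map hS.measurable.aemeasurable]
    · refine integral_congr_ae ?_
      filter_upwards [htw] with y hy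
      rw [mul_one, mul_one, hy, one_mul]
    · exact ((hP.meas.comp (measurable_const.prodMk measurable_id)).mul measurable_const).aestronglyMeasurable
  obtain ⟨z, hz⟩ := c.sys.erg.ae_eq_const_of_ae_eq_comp_ae hm.aestronglyMeasurable h1
  exact ⟨z, hz⟩

private theorem a0_act (c : Ctx μ S D κ) {P : X × X → ℂ} {g : X → ℂ} (mg : Measurable g) (hg : Measurable[D.m] g) :
    act κ P g =ᵐ[μ] fun x => g x * act κ P (fun _ => 1) x := by
  filter_upwards [(c.fib.meas g mg).1 hg] with x hx
  show ∫ y, P (x, y) * g y ∂κ x = g x * ∫ y, P (x, y) * 1 ∂κ x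
  rw [← integral_const_mul]
  refine integral_congr_ae ?_
  filter_upwards [hx] with y hy
  rw [hy]
  ring

private theorem a0_em (c : Ctx μ S D κ) : Em μ S D D fun _ : X => (1 : ℂ) where
  fac := c.fac
  sub := fun _ h => h
  meas := measurable_const
  norm := fun _ => by simp
  ratio := @measurable_const _ _ _ D.m _

private theorem a0_const (c : Ctx μ S D κ) {P : Bv c} (hP : P ∈ Ak c (fun _ => 1) D) :
    ∃ z : ℂ, fn P =ᵐ[μ ⊗ₘ κ] fun _ => z := by
  have hk := fn_ker P
  obtain ⟨z, hz⟩ := a0_inv c hk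
  refine ⟨z, ?_⟩
  have hR : Ker μ S κ (fun _ => 1) fun w => fn P w - z := by
    refine ⟨hk.meas.sub measurable_const, hk.l2.sub (memLp_const z), ?_⟩
    filter_upwards [hk.tw] with w hw
    rw [hw, one_mul, one_mul]
  have hR1 : act κ (fun w => fn P w - z) (fun _ => 1) =ᵐ[μ] fun _ => 0 := by
    filter_upwards [hz, hk.row c k5_uni] with x hx hrow
    have hi : Integrable (fun y => fn P (x, y)) (κ x) :=
      ((memLp_two_iff_integrable_sq_norm
        (hk.meas.comp (measurable_const.prodMk measurable_id)).aestronglyMeasurable).2 hrow.1).integrable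
        (by norm_num)
    have hx' : ∫ y, fn P (x, y) * 1 ∂κ x = z := hx
    simp only [mul_one] at hx'
    show ∫ y, (fn P (x, y) - z) * 1 ∂κ x = 0
    simp only [mul_one]
    rw [integral_sub hi (integrable_const z), hx', integral_const]
    simp
  have hPm : Pm μ κ (fun _ => 1) D fun w => fn P w - z := by
    have h1 : Pm μ κ (fun _ => 1) D (fn P) := mem_Ak.1 hP
    have h2 : AEStronglyMeasurable[D.m.prod D.m] (fun _ : X × X => z) (μ ⊗ₘ κ) :=
      (@stronglyMeasurable_const (X × X) ℂ (D.m.prod D.m) _ z).aestronglyMeasurable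
    refine (h1.sub h2).congr (Eventually.of_forall fun w => ?_)
    simp
  have h0 := Pm_zero c (a0_em c) hR.meas hR.l2 hPm (by
    intro f g hf hg _ hg'
    have e1 : (fun x => (1 : ℂ) * f x) = f := funext fun x => one_mul _
    have e2 : (fun x => (1 : ℂ) * g x) = g := funext fun x => one_mul _
    rw [e1, e2, pair_act c k5_uni hR hf hg]
    have h3 : (fun x => act κ (fun w => fn P w - z) g x * conj (f x)) =ᵐ[μ] fun _ => 0 := by
      filter_upwards [a0_act c (P := fun w => fn P w - z) hg.meas hg', hR1] with x h4 h5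
      rw [h4, h5, mul_zero, zero_mul]
    rw [integral_congr_ae h3, integral_zero])
  filter_upwards [h0] with w hw
  have hw' : fn P w - z = 0 := hw
  exact sub_eq_zero.1 hw'

end A0

/-- **A0.** `D`-measurable kernels: a minimal projection `P` of `Ak c 1 D` is `1 ⊗ 1`. Proof: `u = P 1` is `D`-measurable and
`S`-invariant, so constant `z`; for `y` bounded `D`-measurable `P y = y P 1 = z y`; so the pairings of `P` and of `z (1 ⊗ 1)`
with `f ⊗ conj g`, `f`, `g` `D`-measurable, agree; `Pm_zero` with `e = 1`, `Y = D`; `P P = P ≠ 0` gives `z = 1`. -/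
theorem minP_triv {X : Type} [MeasurableSpace X] {μ : Measure X} [IsProbabilityMeasure μ] {S : X → X} {D : SA X}
    {κ : Kernel X X} [IsMarkovKernel κ] (c : Ctx μ S D κ) (Q : ℝ) : MinP c D Q := by
  intro P hP
  left
  obtain ⟨z, hz⟩ := a0_const c hP.mem
  have h1 : fn P =ᵐ[μ ⊗ₘ κ] comp κ (fun _ => z) fun _ => z := by
    have h2 := fn_mul P P
    rw [hP.idem] at h2
    exact h2.trans (comp_congr c (fn_ker P).meas measurable_const (fn_ker P).meas measurable_const hz hz)
  have h2 : ∀ w, comp κ (fun _ => z) (fun _ => z) w = z * z := by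
    intro w
    show ∫ _, z * z ∂κ w.1 = z * z
    rw [integral_const]
    simp
  have h3 : z = z * z := by
    have h4 : ∀ᵐ w ∂(μ ⊗ₘ κ), z = z * z := by
      filter_upwards [hz, h1] with w a b
      rw [← h2 w, ← b, a]
    obtain ⟨w, hw⟩ := h4.exists
    exact hw
  have h5 : z ≠ 0 := by
    intro h6
    apply hP.ne
    refine fn_ext ?_
    have h7 : fn (0 : Bv c) =ᵐ[μ ⊗ₘ κ] 0 := by
      filter_upwards [fn_smul (0 : ℂ) (0 : Bv c)] with z hz
      simpa using hz
    filter_upwards [hz, h7] with w a b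
    rw [a, b, h6]
    rfl
  have h6 : z = 1 := by
    have h7 : z * 1 = z * z := by rw [mul_one]; exact h3
    exact (mul_left_cancel₀ h5 h7).symm
  refine ⟨fun _ => 1, ⟨measurable_const, fun _ => by simp, @measurable_const _ _ _ D.m _⟩,
    @measurable_const _ _ _ D.m _, ?_⟩
  filter_upwards [hz] with w hw
  rw [hw, h6]
  simp [rc]

end Pool.Agent.Lib.MP_9fe581_an.AP
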