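import Pool.Agent.Lib.MP_9fe581_an.AP.K7

/-! # AP, C6: classes from multiplicative kernels -/

set_option autoImplicit false

open Finset MeasureTheory Filter Topology ProbabilityTheory
open scoped ComplexConjugate ENNReal InnerProductSpace

namespace Pool.Agent.Lib.MP_9fe581_an.AP

variable {X : Type} [MeasurableSpace X] {μ : Measure X} [IsProbabilityMeasure μ] {S : X → X} {D : SA X}
  {κ : Kernel X X} [IsMarkovKernel κ]

section C6aux

private theorem c6_one : Uni D fun _ : X => (1 : ℂ) := ⟨measurable_const, fun _ => by simp⟩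

/-- some bounded function is not killed -/
private theorem c6_exists (c : Ctx μ S D κ) {P : X × X → ℂ} (kk : Ker μ S κ (fun _ => 1) P)
    (h0 : ¬ P =ᵐ[μ ⊗ₘ κ] 0) : ∃ f : X → ℂ, Bd f ∧ ¬ act κ P f =ᵐ[μ] 0 := by
  by_contra hcon
  push Not at hcon
  refine h0 (c.fib.total (kk.l2.integrable (by norm_num)) fun f g hf hg => ?_)
  have hf' : Bd fun x => conj (f x) := by
    refine ⟨Complex.continuous_conj.measurable.comp hf.meas, ?_⟩
    obtain ⟨C, hC⟩ := hf.bdd
    exact ⟨C, fun x => by rw [RCLike.norm_conj]; exact hC x⟩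
  have h1 := pair_act c c6_one kk hf' hg
  have h2 : ∫ x, act κ P g x * conj (conj (f x)) ∂μ = 0 := by
    rw [integral_eq_zero_of_ae]
    filter_upwards [hcon g hg] with x hx
    rw [hx]
    simp
  rw [h2] at h1
  rw [← h1]
  refine integral_congr_ae (Eventually.of_forall fun z => ?_)
  show P z * (f z.1 * g z.2) = P z * conj (rc (fun x => conj (f x)) g z)
  unfold rc
  simp

/-- invariance of the action -/
private theorem c6_shift (c : Ctx μ S D κ) {P : X × X → ℂ} (kk : Ker μ S κ (fun _ => 1) P)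
    {f : X → ℂ} (mf : Measurable f) :
    act κ P (fun x => f (S x)) =ᵐ[μ] fun x => act κ P f (S x) := by
  have hS : MeasurePreserving S μ μ := k3_pres c
  have h1 := Measure.ae_ae_of_ae_compProd kk.tw
  filter_upwards [h1, c.fib.shift] with x hx hsh
  show ∫ y, P (x, y) * f (S y) ∂κ x = ∫ y, P (S x, y) * f y ∂κ (S x)
  have hm : Measurable fun y => P (S x, y) * f y := (kk.meas.comp measurable_prodMk_left).mul mf
  rw [← hsh, integral_map hS.measurable.aemeasurable hm.aestronglyMeasurable]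
  refine integral_congr_ae ?_
  filter_upwards [hx] with y hy
  have hy' : P (S x, S y) = 1 * P (x, y) := hy
  rw [hy', one_mul]

/-- on the fibres -/
private theorem c6_mul (c : Ctx μ S D κ) {P : X × X → ℂ} (mP : Measurable P)
    (h : ∀ᵐ x ∂μ, ∀ᵐ w ∂((κ x).prod ((κ x).prod (κ x))),
      P (w.1, w.2.1) * P (w.2.1, w.2.2) = P (w.1, w.2.2))
    {F f : ℕ → X → ℂ} (mf : ∀ n, Measurable (f n)) (hF : ∀ n, F n = act κ P (f n)) :
    ∀ᵐ z ∂(μ ⊗ₘ κ), ∀ n, F n z.1 = P z * F n z.2 := by
  have mF : ∀ n, Measurable (F n) := fun n => by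
    rw [hF]
    exact measurable_act mP (mf n)
  refine c.fib.ae2' ?_ ?_
  · have : {z : X × X | ∀ n, F n z.1 = P z * F n z.2} =
        ⋂ n, {z : X × X | F n z.1 = P z * F n z.2} := by
      ext z
      simp
    rw [this]
    exact MeasurableSet.iInter fun n => measurableSet_eq_fun ((mF n).comp measurable_fst)
      (mP.mul ((mF n).comp measurable_snd))
  · have hact : ∀ᵐ x ∂μ, ∀ n, ∀ᵐ z ∂κ x, act κ P (f n) z = ∫ y, P (z, y) * f n y ∂κ x :=
      ae_all_iff.2 fun n => act_fib c P (f n)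
    filter_upwards [h, hact] with x hx hax
    have h1 : ∀ᵐ u ∂((κ x).prod (κ x)).prod (κ x),
        P (u.1.1, u.1.2) * P (u.1.2, u.2) = P (u.1.1, u.2) :=
      (measurePreserving_prodAssoc (κ x) (κ x) (κ x)).quasiMeasurePreserving.ae hx
    have h2 := Measure.ae_ae_of_ae_prod h1
    have h3 : ∀ᵐ z ∂(κ x).prod (κ x), ∀ n, act κ P (f n) z.1 = ∫ y, P (z.1, y) * f n y ∂κ x :=
      ae_all_iff.2 fun n => Measure.quasiMeasurePreserving_fst.ae (hax n)
    have h4 : ∀ᵐ z ∂(κ x).prod (κ x), ∀ n, act κ P (f n) z.2 = ∫ y, P (z.2, y) * f n y ∂κ x :=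
      ae_all_iff.2 fun n => Measure.quasiMeasurePreserving_snd.ae (hax n)
    filter_upwards [h2, h3, h4] with z e2 e3 e4 n
    rw [hF, e3 n, e4 n, ← integral_const_mul]
    refine integral_congr_ae ?_
    filter_upwards [e2] with y hy
    have hy' : P z * P (z.2, y) = P (z.1, y) := hy
    rw [← mul_assoc, hy']

/-- almost every point is seen by some iterate -/
private theorem c6_seen (c : Ctx μ S D κ) {F : ℕ → X → ℂ} (mF : ∀ n, Measurable (F n))
    (hs : ∀ n, (fun x => F n (S x)) =ᵐ[μ] F (n + 1)) (h0 : ¬ F 0 =ᵐ[μ] 0) :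
    ∀ᵐ x ∂μ, ∃ n, F n x ≠ 0 := by
  have hB : MeasurableSet {x | ∀ n, F n x = 0} := by
    have : {x | ∀ n, F n x = 0} = ⋂ n, {x | F n x = 0} := by
      ext x
      simp
    rw [this]
    exact MeasurableSet.iInter fun n => measurableSet_eq_fun (mF n) measurable_const
  have hle : {x | ∀ n, F n x = 0} ≤ᵐ[μ] S ⁻¹' {x | ∀ n, F n x = 0} := by
    filter_upwards [ae_all_iff.2 hs] with x hx
    intro h1 n
    have h1' : ∀ n, F n x = 0 := h1
    show F n (S x) = 0
    rw [hx n, h1' (n + 1)]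
  rcases c.sys.erg.ae_empty_or_univ_of_ae_le_preimage hB.nullMeasurableSet hle with h | h
  · have h1 := h.mem_iff
    filter_upwards [h1] with x hx
    by_contra hcon
    push Not at hcon
    have : x ∈ (∅ : Set X) := hx.1 hcon
    exact this
  · exfalso
    refine h0 ?_
    filter_upwards [h.mem_iff] with x hx
    exact (hx.2 (Set.mem_univ x)) 0

end C6aux

/-- **C6.** a kernel with `P(x, y) P(y, z) = P(x, z)` on the fibres is `v ⊗ conj v` for a class `v` -/
theorem cls_of_mul (c : Ctx μ S D κ) {e : X → ℂ} {Y : SA X} (hY : Em μ S D Y e) {P : Bv c} (hP : (hst c).Proj P)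
    (hm : P ∈ Ak c e Y) (hu : ∀ᵐ z ∂(μ ⊗ₘ κ), ‖fn P z‖ = 1)
    (h : ∀ᵐ x ∂μ, ∀ᵐ w ∂((κ x).prod ((κ x).prod (κ x))), fn P (w.1, w.2.1) * fn P (w.2.1, w.2.2) = fn P (w.1, w.2.2)) :
    ∃ v : X → ℂ, Cls S D v ∧ (Measurable[Y.m] fun x => conj (e x) * v x) ∧ fn P =ᵐ[μ ⊗ₘ κ] rc v v := by
  classical
  have kk := fn_ker P
  generalize hp : fn P = p at *
  have hmY : Pm μ κ e Y p := hp ▸ mem_Ak.1 hm
  have hS : MeasurePreserving S μ μ := k3_pres c
  have h0 : ¬ p =ᵐ[μ ⊗ₘ κ] 0 := by
    intro h0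
    have h1 : ∀ᵐ z ∂(μ ⊗ₘ κ), False := by
      filter_upwards [h0, hu] with z h1 h2
      rw [h1] at h2
      simp at h2
    have h2 : (μ ⊗ₘ κ) = 0 := by
      have := ae_iff.1 h1
      simpa using this
    exact (IsProbabilityMeasure.ne_zero (μ ⊗ₘ κ)) h2
  obtain ⟨f0, hf0, hf1⟩ := c6_exists c kk h0
  obtain ⟨f, hfd⟩ : ∃ f : ℕ → X → ℂ, f = fun n x => f0 (S^[n] x) := ⟨_, rfl⟩
  have hfB : ∀ n, Bd (f n) := fun n => by
    rw [hfd]
    refine ⟨hf0.meas.comp (hS.measurable.iterate n), ?_⟩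
    obtain ⟨C, hC⟩ := hf0.bdd
    exact ⟨C, fun x => hC _⟩
  obtain ⟨F, hFd⟩ : ∃ F : ℕ → X → ℂ, ∀ n, F n = act κ p (f n) := ⟨fun n => act κ p (f n), fun _ => rfl⟩
  have mF : ∀ n, Measurable (F n) := fun n => by
    rw [hFd]
    exact measurable_act kk.meas (hfB n).meas
  have hFs : ∀ n, (fun x => F n (S x)) =ᵐ[μ] F (n + 1) := fun n => by
    have h1 := c6_shift c kk (hfB n).meas
    have h2 : (fun x => f n (S x)) = f (n + 1) := by
      rw [hfd]
      rfl
    rw [h2] at h1
    rw [hFd, hFd]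
    exact h1.symm
  have hF0 : ¬ F 0 =ᵐ[μ] 0 := by
    rw [hFd]
    have : f 0 = f0 := by
      rw [hfd]
      rfl
    rw [this]
    exact hf1
  have hseen := c6_seen c mF hFs hF0
  have hmul := c6_mul c kk.meas h (fun n => (hfB n).meas) hFd
  have hG : ∀ n, Measurable[Y.m] fun x => conj (e x) * F n x := fun n => by
    rw [hFd]
    exact Pm_act c hY c6_one kk hmY (hfB n)
  have hee : ∀ x, conj (e x) * e x = 1 := fun x => by
    rw [← Complex.normSq_eq_conj_mul_self, Complex.normSq_eq_norm_sq, hY.norm x]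
    simp
  have hG0 : ∀ n x, conj (e x) * F n x = 0 ↔ F n x = 0 := fun n x => by
    have : conj (e x) ≠ 0 := by
      intro h
      have := hee x
      rw [h, zero_mul] at this
      exact zero_ne_one this
    simp [this]
  have hGn : ∀ n x, ‖conj (e x) * F n x‖ = ‖F n x‖ := fun n x => by
    rw [norm_mul, RCLike.norm_conj, hY.norm x, one_mul]
  have hex : ∀ x, ∃ n, F n x ≠ 0 ∨ ∀ m, F m x = 0 := fun x => by
    by_cases h1 : ∃ n, F n x ≠ 0
    · obtain ⟨n, hn⟩ := h1
      exact ⟨n, Or.inl hn⟩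
    · push Not at h1
      exact ⟨0, Or.inr h1⟩
  obtain ⟨g, hg⟩ : ∃ g : ℕ → X → ℂ, g = fun n x => if F n x = 0 then e x else F n x / (‖F n x‖ : ℂ) :=
    ⟨_, rfl⟩
  obtain ⟨v, hv⟩ : ∃ v : X → ℂ, v = fun x => g (Nat.find (hex x)) x := ⟨_, rfl⟩
  have mg : ∀ n, Measurable (g n) := fun n => by
    rw [hg]
    refine Measurable.ite (measurableSet_eq_fun (mF n) measurable_const) hY.meas ?_
    exact (mF n).div (Complex.measurable_ofReal.comp (mF n).norm)
  have mv : Measurable v := by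
    rw [hv]
    refine Measurable.find (p := fun n x => F n x ≠ 0 ∨ ∀ m, F m x = 0) mg (fun n => ?_) hex
    have e1 : {x | F n x ≠ 0 ∨ ∀ m, F m x = 0} = {x | F n x = 0}ᶜ ∪ ⋂ m, {x | F m x = 0} := by
      ext x
      simp
    rw [e1]
    exact (measurableSet_eq_fun (mF n) measurable_const).compl.union
      (MeasurableSet.iInter fun m => measurableSet_eq_fun (mF m) measurable_const)
  have hgn : ∀ n x, ‖g n x‖ = 1 := fun n x => by
    rw [hg]
    show ‖if F n x = 0 then e x else F n x / (‖F n x‖ : ℂ)‖ = 1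
    split_ifs with h1
    · exact hY.norm x
    · rw [norm_div, Complex.norm_real, norm_norm, div_self (norm_ne_zero_iff.2 h1)]
  have hvn : ∀ x, ‖v x‖ = 1 := fun x => by
    rw [hv]
    exact hgn _ _
  have hvY : Measurable[Y.m] fun x => conj (e x) * v x := by
    have e0 : (fun x => conj (e x) * v x) = fun x => (fun n x => conj (e x) * g n x) (Nat.find (hex x)) x := by
      rw [hv]
    rw [e0]
    refine @Measurable.find X ℂ _ Y.m (fun n x => conj (e x) * g n x)
      (fun n x => F n x ≠ 0 ∨ ∀ m, F m x = 0) _ (fun n => ?_) (fun n => ?_) hex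
    · have e1 : (fun x => conj (e x) * g n x) = fun x => if conj (e x) * F n x = 0 then 1 else
          conj (e x) * F n x / (‖conj (e x) * F n x‖ : ℂ) := by
        funext x
        rw [hg]
        show conj (e x) * (if F n x = 0 then e x else F n x / (‖F n x‖ : ℂ)) = _
        rw [hGn]
        by_cases h1 : F n x = 0
        · rw [if_pos h1, if_pos ((hG0 n x).2 h1), hee]
        · rw [if_neg h1, if_neg (fun h2 => h1 ((hG0 n x).1 h2)), mul_div_assoc]
      rw [e1]
      refine Measurable.ite (measurableSet_eq_fun (hG n) measurable_const)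
        measurable_const ?_
      have hd : Measurable fun w : ℂ => w / (‖w‖ : ℂ) :=
        measurable_id.div (Complex.measurable_ofReal.comp measurable_norm)
      exact hd.comp (hG n)
    · have e1 : {x | F n x ≠ 0 ∨ ∀ m, F m x = 0} = {x | conj (e x) * F n x = 0}ᶜ ∪
          ⋂ m, {x | conj (e x) * F m x = 0} := by
        ext x
        simp only [Set.mem_ofPred_eq, Set.mem_union, Set.mem_compl_iff, Set.mem_iInter, hG0]
      rw [e1]
      exact MeasurableSet.union (MeasurableSet.compl (measurableSet_eq_fun (hG n) measurable_const))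
        (MeasurableSet.iInter fun m => measurableSet_eq_fun (hG m) measurable_const)
  have hvp : ∀ᵐ z ∂(μ ⊗ₘ κ), v z.1 = p z * v z.2 := by
    filter_upwards [hmul, hu, c.fib.snd.quasiMeasurePreserving.ae hseen] with z h1 h2 h3
    have hp0 : p z ≠ 0 := by
      intro h4
      rw [h4] at h2
      simp at h2
    have h4 : ∀ n, F n z.1 = 0 ↔ F n z.2 = 0 := fun n => by
      rw [h1 n]
      simp [hp0]
    have h5 : Nat.find (hex z.1) = Nat.find (hex z.2) := by
      refine Nat.find_congr' ?_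
      intro n
      rw [ne_eq, ne_eq, h4 n]
      simp only [h4]
    rw [hv]
    show g (Nat.find (hex z.1)) z.1 = p z * g (Nat.find (hex z.2)) z.2
    rw [h5]
    have h6 := Nat.find_spec (hex z.2)
    generalize Nat.find (hex z.2) = N at h6 ⊢
    have h7 : F N z.2 ≠ 0 := by
      rcases h6 with h6 | h6
      · exact h6
      · obtain ⟨n, hn⟩ := h3
        exact absurd (h6 n) hn
    have h8 : F N z.1 ≠ 0 := fun h => h7 ((h4 N).1 h)
    rw [hg]
    show (if F N z.1 = 0 then e z.1 else F N z.1 / (‖F N z.1‖ : ℂ)) =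
      p z * if F N z.2 = 0 then e z.2 else F N z.2 / (‖F N z.2‖ : ℂ)
    rw [if_neg h8, if_neg h7]
    have h9 : ‖F N z.1‖ = ‖F N z.2‖ := by
      rw [h1 N, norm_mul, h2, one_mul]
    rw [h9, h1 N, mul_div_assoc]
  have hvv : ∀ x, v x * conj (v x) = 1 := fun x => by
    rw [Complex.mul_conj, Complex.normSq_eq_norm_sq, hvn x]
    simp
  refine ⟨v, ⟨mv, hvn, ?_⟩, hvY, ?_⟩
  · have mr : Measurable fun x => v (S x) * conj (v x) :=
      (mv.comp hS.measurable).mul (Complex.continuous_conj.measurable.comp mv)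
    refine (c.fib.meas _ mr).2 ?_
    have h1 : ∀ᵐ z ∂(μ ⊗ₘ κ), v (S z.1) = p (S z.1, S z.2) * v (S z.2) :=
      c.pres.quasiMeasurePreserving.ae hvp
    have h2 : ∀ᵐ z ∂(μ ⊗ₘ κ), v (S z.2) * conj (v z.2) = v (S z.1) * conj (v z.1) := by
      filter_upwards [h1, hvp, kk.tw, hu] with z e1 e2 e3 e4
      have hpp : p z * conj (p z) = 1 := by
        rw [Complex.mul_conj, Complex.normSq_eq_norm_sq, e4]
        simp
      rw [e1, e2, e3, map_mul]
      linear_combination (-(v (S z.2) * conj (v z.2))) * hpp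
    exact Measure.ae_ae_of_ae_compProd h2
  · filter_upwards [hvp] with z hz
    unfold rc
    rw [hz, mul_assoc, hvv, mul_one]

end Pool.Agent.Lib.MP_9fe581_an.AP
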