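import Pool.Agent.Lib.MP_9fe581_an.AP.F0

/-! # AP, F0s: helper lemmas for F1, F2, F3 (inner products of functions, Bessel, columns) -/

set_option autoImplicit false

open Finset MeasureTheory Filter Topology
open scoped ComplexConjugate

namespace Pool.Agent.Lib.MP_9fe581_an.AP

theorem fs_inner {Y : Type} [MeasurableSpace Y] {m : Measure Y} {f g : Y → ℂ} (hf : MemLp f 2 m)
    (hg : MemLp g 2 m) : inner ℂ (hf.toLp f) (hg.toLp g) = ∫ y, g y * conj (f y) ∂m := by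
  rw [L2.inner_def]
  refine integral_congr_ae ?_
  filter_upwards [hf.coeFn_toLp, hg.coeFn_toLp] with y h1 h2
  rw [h1, h2]
  rfl

theorem fs_mul_int {Y : Type} [MeasurableSpace Y] {m : Measure Y} {f g : Y → ℂ} (hf : MemLp f 2 m)
    (hg : MemLp g 2 m) : Integrable (fun y => g y * conj (f y)) m := by
  have h1 : MemLp (fun y => conj (f y)) 2 m := hf.star
  exact hg.integrable_mul h1

theorem fs_mul_int' {Y : Type} [MeasurableSpace Y] {m : Measure Y} {f g : Y → ℂ} (hf : MemLp f 2 m)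
    (hg : MemLp g 2 m) : Integrable (fun y => g y * f y) m :=
  hg.integrable_mul hf

theorem fs_sq {Y : Type} [MeasurableSpace Y] {m : Measure Y} {f : Y → ℂ} (hf : MemLp f 2 m) :
    Integrable (fun y => ‖f y‖ ^ 2) m := by
  have h : MemLp f ((2 : ℕ) : ENNReal) m := by exact_mod_cast hf
  exact h.integrable_norm_pow (by norm_num)

theorem fs_mul_self {Y : Type} [MeasurableSpace Y] {m : Measure Y} (f : Y → ℂ) :
    ∫ y, f y * conj (f y) ∂m = ((∫ y, ‖f y‖ ^ 2 ∂m : ℝ) : ℂ) := by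
  rw [← integral_complex_ofReal]
  refine integral_congr_ae (ae_of_all _ fun y => ?_)
  show f y * conj (f y) = ((‖f y‖ ^ 2 : ℝ) : ℂ)
  rw [Complex.mul_conj, Complex.normSq_eq_norm_sq]

theorem fs_norm {Y : Type} [MeasurableSpace Y] {m : Measure Y} {f : Y → ℂ} (hf : MemLp f 2 m) :
    ‖hf.toLp f‖ ^ 2 = ∫ y, ‖f y‖ ^ 2 ∂m := by
  have h1 := inner_self_eq_norm_sq_to_K (𝕜 := ℂ) (hf.toLp f)
  rw [fs_inner hf hf, fs_mul_self] at h1
  have h2 : ((∫ y, ‖f y‖ ^ 2 ∂m : ℝ) : ℂ) = ((‖hf.toLp f‖ ^ 2 : ℝ) : ℂ) := by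
    rw [h1]
    push_cast
    rfl
  exact_mod_cast h2.symm

/-- Bessel -/
theorem fs_bessel {Y : Type} [MeasurableSpace Y] {m : Measure Y} {n : ℕ} {v : Fin n → Y → ℂ} {R : Y → ℂ}
    (hv : ∀ j, MemLp (v j) 2 m) (hR : MemLp R 2 m)
    (ho : ∀ i j, ∫ y, v i y * conj (v j y) ∂m = if i = j then 1 else 0) :
    ∑ j, ‖∫ y, v j y * conj (R y) ∂m‖ ^ 2 ≤ ∫ y, ‖R y‖ ^ 2 ∂m := by
  classical
  have hon : Orthonormal ℂ (fun j => (hv j).toLp (v j)) := by
    rw [orthonormal_iff_ite]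
    intro i j
    rw [fs_inner (hv i) (hv j), ho j i]
    simp only [eq_comm]
  have h1 := hon.sum_inner_products_le (hR.toLp R) (s := Finset.univ)
  rw [fs_norm hR] at h1
  refine le_trans (le_of_eq ?_) h1
  refine Finset.sum_congr rfl fun j _ => ?_
  rw [← fs_inner hR (hv j), norm_inner_symm]

variable {X : Type} [MeasurableSpace X]

variable {ν : Measure X} [IsProbabilityMeasure ν]

theorem fs_swap {p : X × X → Prop} (h : ∀ᵐ z ∂ν.prod ν, p z) : ∀ᵐ z ∂ν.prod ν, p (z.2, z.1) := by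
  have h1 : Measure.QuasiMeasurePreserving (Prod.swap : X × X → X × X) (ν.prod ν) (ν.prod ν) :=
    ⟨measurable_swap, by rw [Measure.prod_swap]⟩
  exact h1.ae h

/-- the rows and columns of a projection kernel -/
theorem PK.fs_col {t : ℝ} {P : X × X → ℂ} (hP : PK ν t P) :
    ∀ᵐ x ∂ν, (∀ᵐ y ∂ν, P (y, x) = conj (P (x, y))) ∧ MemLp (fun y => P (x, y)) 2 ν ∧
      MemLp (fun y => P (y, x)) 2 ν ∧ ∫ y, ‖P (x, y)‖ ^ 2 ∂ν = t ∧ ∫ y, ‖P (y, x)‖ ^ 2 ∂ν = t := by
  filter_upwards [hP.row, Measure.ae_ae_of_ae_prod hP.herm] with x h1 h2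
  have h3 : ∀ᵐ y ∂ν, ‖P (y, x)‖ ^ 2 = ‖P (x, y)‖ ^ 2 := by
    filter_upwards [h2] with y hy
    have hy' : P (y, x) = conj (P (x, y)) := hy
    rw [hy', RCLike.norm_conj]
  have m1 : Measurable fun y => P (x, y) := hP.meas.comp measurable_prodMk_left
  have m2 : Measurable fun y => P (y, x) := hP.meas.comp measurable_prodMk_right
  refine ⟨h2, ?_, ?_, h1.2, ?_⟩
  · exact (memLp_two_iff_integrable_sq_norm m1.aestronglyMeasurable).2 h1.1
  · refine (memLp_two_iff_integrable_sq_norm m2.aestronglyMeasurable).2 ?_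
    exact h1.1.congr (h3.mono fun y hy => hy.symm)
  · rw [integral_congr_ae h3]
    exact h1.2

end Pool.Agent.Lib.MP_9fe581_an.AP
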