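import Pool.Agent.Lib.MP_9fe581_an.AP.F0
import Pool.Agent.Lib.MP_9fe581_an.AP.F0s

/-! # AP, F0p: the spectral form of a projection kernel -/

set_option autoImplicit false
set_option linter.unusedSectionVars false

open Finset MeasureTheory Filter Topology
open scoped ComplexConjugate

namespace Pool.Agent.Lib.MP_9fe581_an.AP

variable {X : Type} [MeasurableSpace X]

variable {ν : Measure X} [IsProbabilityMeasure ν]

open Classical in
/-- the column of `x` -/
private noncomputable def col (ν : Measure X) (P : X × X → ℂ) (x : X) : Lp ℂ 2 ν :=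
  if h : MemLp (fun y => P (y, x)) 2 ν then h.toLp _ else 0

/-- the functions with `P f = f` -/
private def Vp (ν : Measure X) (P : X × X → ℂ) (f : Lp ℂ 2 ν) : Prop :=
  ∀ᵐ x ∂ν, inner ℂ (col ν P x) f = f x

private theorem vp_add {P : X × X → ℂ} {f g : Lp ℂ 2 ν} (hf : Vp ν P f) (hg : Vp ν P g) :
    Vp ν P (f + g) := by
  filter_upwards [hf, hg, Lp.coeFn_add f g] with x h1 h2 h3
  rw [inner_add_right, h1, h2, h3]
  rfl

private theorem vp_smul {P : X × X → ℂ} {f : Lp ℂ 2 ν} (hf : Vp ν P f) (c : ℂ) :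
    Vp ν P (c • f) := by
  filter_upwards [hf, Lp.coeFn_smul c f] with x h1 h3
  rw [inner_smul_right, h1, h3]
  rfl

private theorem vp_zero {P : X × X → ℂ} : Vp ν P (0 : Lp ℂ 2 ν) := by
  filter_upwards [Lp.coeFn_zero ℂ 2 ν] with x h3
  rw [inner_zero_right, h3]
  rfl

private theorem vp_sum {P : X × X → ℂ} {n : ℕ} {f : Fin n → Lp ℂ 2 ν} (hf : ∀ i, Vp ν P (f i))
    (s : Finset (Fin n)) : Vp ν P (∑ i ∈ s, f i) := by
  classical
  induction s using Finset.induction_on with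
  | empty => simpa using vp_zero
  | insert a s ha ih =>
    rw [Finset.sum_insert ha]
    exact vp_add (hf a) ih

private theorem col_norm {t : ℝ} {P : X × X → ℂ} (hP : PK ν t P) : ∀ᵐ x ∂ν, ‖col ν P x‖ ^ 2 = t := by
  filter_upwards [hP.fs_col] with x hx
  obtain ⟨-, -, h3, -, h5⟩ := hx
  unfold col
  rw [dif_pos h3, fs_norm h3, h5]

private theorem f_norm (f : Lp ℂ 2 ν) : ‖f‖ ^ 2 = ∫ x, ‖f x‖ ^ 2 ∂ν := by
  have h := fs_norm (Lp.memLp f)
  rwa [Lp.toLp_coeFn] at h

private theorem vp_bessel {t : ℝ} {P : X × X → ℂ} (hP : PK ν t P) {n : ℕ} {f : Fin n → Lp ℂ 2 ν}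
    (ho : Orthonormal ℂ f) (hf : ∀ i, Vp ν P (f i)) : (n : ℝ) ≤ t := by
  have h1 : ∀ᵐ x ∂ν, ∑ i, ‖f i x‖ ^ 2 ≤ t := by
    filter_upwards [col_norm hP, ae_all_iff.2 hf] with x h2 h3
    rw [← h2]
    refine le_trans (le_of_eq ?_) (ho.sum_inner_products_le (col ν P x) (s := Finset.univ))
    refine Finset.sum_congr rfl fun i _ => ?_
    rw [← h3 i, norm_inner_symm]
  have hint : ∀ i, Integrable (fun x => ‖f i x‖ ^ 2) ν := fun i => fs_sq (Lp.memLp (f i))
  have h5 : ∫ x, ∑ i, ‖f i x‖ ^ 2 ∂ν ≤ ∫ _x, t ∂ν :=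
    integral_mono_ae (integrable_finsetSum _ fun i _ => hint i) (integrable_const _) h1
  rw [integral_finsetSum _ (fun i _ => hint i)] at h5
  have h6 : ∀ i ∈ (Finset.univ : Finset (Fin n)), ∫ x, ‖f i x‖ ^ 2 ∂ν = 1 := by
    intro i _
    rw [← f_norm, ho.1 i, one_pow]
  rw [Finset.sum_congr rfl h6, Finset.sum_const, Finset.card_univ, Fintype.card_fin, nsmul_eq_mul,
    mul_one, integral_const, probReal_univ, one_smul] at h5
  exact h5

/-- the inner product with a column -/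
private theorem col_inner {t : ℝ} {P : X × X → ℂ} (hP : PK ν t P) :
    ∀ᵐ x ∂ν, Vp ν P (col ν P x) := by
  have h1 : ∀ᵐ z ∂ν.prod ν, ∫ y, P (z.2, y) * P (y, z.1) ∂ν = P (z.2, z.1) := by
    have := fs_swap hP.idem
    exact this
  filter_upwards [hP.fs_col, Measure.ae_ae_of_ae_prod h1] with x hx h2
  obtain ⟨-, -, h3, -, -⟩ := hx
  have e1 : col ν P x = h3.toLp _ := dif_pos h3
  unfold Vp
  rw [e1]
  filter_upwards [hP.fs_col, h2, h3.coeFn_toLp] with z hz h4 h5
  obtain ⟨k1, -, k3, -, -⟩ := hz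
  have e2 : col ν P z = k3.toLp _ := dif_pos k3
  rw [e2, fs_inner k3 h3, h5]
  have h4' : ∫ y, P (z, y) * P (y, x) ∂ν = P (z, x) := h4
  rw [← h4']
  refine integral_congr_ae ?_
  filter_upwards [k1] with y hy
  have hy' : P (y, z) = conj (P (z, y)) := hy
  show P (y, x) * conj (P (y, z)) = P (z, y) * P (y, x)
  rw [hy', Complex.conj_conj]
  ring

/-- **the spectral form** -/
theorem PK.spec {t : ℝ} {P : X × X → ℂ} (hP : PK ν t P) :
    ∃ (r : ℕ) (φ : Fin r → X → ℂ), t = r ∧ (∀ i, Measurable (φ i)) ∧ (∀ i, MemLp (φ i) 2 ν) ∧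
      (∀ i j, ∫ x, φ i x * conj (φ j x) ∂ν = if i = j then 1 else 0) ∧
      (∀ᵐ x ∂ν, ∑ i, ‖φ i x‖ ^ 2 = t) ∧
      ∀ᵐ z ∂ν.prod ν, P z = ∑ i, φ i z.1 * conj (φ i z.2) := by
  classical
  let S : ℕ → Prop := fun n => ∃ f : Fin n → Lp ℂ 2 ν, Orthonormal ℂ f ∧ ∀ i, Vp ν P (f i)
  have hS0 : S 0 := ⟨fun i => i.elim0, ⟨fun i => i.elim0, fun i => i.elim0⟩, fun i => i.elim0⟩
  obtain ⟨r, ⟨f, ho, hf⟩, hmax⟩ : ∃ r, S r ∧ ¬ S (r + 1) := by
    by_contra hcon
    have h1 : ∀ n, S n := by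
      intro n
      induction n with
      | zero => exact hS0
      | succ n ih =>
        by_contra h
        exact hcon ⟨n, ih, h⟩
    obtain ⟨f, ho, hf⟩ := h1 (⌊t⌋₊ + 1)
    have h2 := vp_bessel hP ho hf
    have h3 := Nat.lt_floor_add_one t
    push_cast at h2
    linarith
  -- the expansion
  have hexp : ∀ g : Lp ℂ 2 ν, Vp ν P g → g = ∑ i, (inner ℂ (f i) g : ℂ) • f i := by
    intro g hg
    by_contra hne
    set u : Lp ℂ 2 ν := g - ∑ i, (inner ℂ (f i) g : ℂ) • f i with hu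
    have hu0 : u ≠ 0 := fun h => hne (sub_eq_zero.1 h)
    have hun : (0 : ℝ) < ‖u‖ := norm_pos_iff.2 hu0
    have huV : Vp ν P u := by
      rw [hu, sub_eq_add_neg, ← neg_one_smul ℂ]
      exact vp_add hg (vp_smul (vp_sum (fun i => vp_smul (hf i) _) _) _)
    have horth : ∀ j, inner ℂ (f j) u = 0 := by
      intro j
      rw [hu, inner_sub_right, inner_sum]
      simp only [inner_smul_right]
      have h2 := orthonormal_iff_ite.1 ho
      rw [Finset.sum_eq_single j]
      · rw [h2 j j, if_pos rfl, mul_one, sub_self]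
      · intro i _ hij
        rw [h2 j i, if_neg hij.symm, mul_zero]
      · intro h
        exact absurd (Finset.mem_univ j) h
    apply hmax
    set v : Lp ℂ 2 ν := (((‖u‖⁻¹ : ℝ) : ℂ)) • u with hv
    have hvv : inner ℂ v v = (1 : ℂ) := by
      rw [hv, inner_smul_left, inner_smul_right, inner_self_eq_norm_sq_to_K, Complex.conj_ofReal]
      have : (((‖u‖⁻¹ : ℝ) : ℂ)) * ((((‖u‖⁻¹ : ℝ) : ℂ)) * (((‖u‖ : ℝ) : ℂ)) ^ 2) = 1 := by
        have h9 : ((‖u‖ : ℝ) : ℂ) ≠ 0 := by exact_mod_cast hun.ne'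
        push_cast
        field_simp
      exact this
    have hfv : ∀ j, inner ℂ (f j) v = (0 : ℂ) := fun j => by
      rw [hv, inner_smul_right, horth j, mul_zero]
    have hvf : ∀ j, inner ℂ v (f j) = (0 : ℂ) := fun j => by
      rw [← inner_conj_symm, hfv j, map_zero]
    refine ⟨Fin.cons v f, ?_, ?_⟩
    · rw [orthonormal_iff_ite]
      have h2 := orthonormal_iff_ite.1 ho
      intro i j
      refine Fin.cases ?_ (fun i => ?_) i
      · refine Fin.cases ?_ (fun j => ?_) j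
        · rw [Fin.cons_zero, hvv, if_pos rfl]
        · rw [Fin.cons_zero, Fin.cons_succ, hvf j, if_neg (Fin.succ_ne_zero j).symm]
      · refine Fin.cases ?_ (fun j => ?_) j
        · rw [Fin.cons_zero, Fin.cons_succ, hfv i, if_neg (Fin.succ_ne_zero i)]
        · rw [Fin.cons_succ, Fin.cons_succ, h2 i j]
          simp only [Fin.succ_inj]
    · intro i
      refine Fin.cases ?_ (fun i => ?_) i
      · rw [Fin.cons_zero]
        exact vp_smul huV _
      · rw [Fin.cons_succ]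
        exact hf i
  -- the columns
  have hcol : ∀ᵐ x ∂ν, col ν P x = ∑ i, conj (f i x) • f i := by
    filter_upwards [col_inner hP, ae_all_iff.2 hf] with x h1 h2
    refine (hexp _ h1).trans (Finset.sum_congr rfl fun i _ => ?_)
    rw [← inner_conj_symm, h2 i]
  have hsq : ∀ᵐ x ∂ν, ∑ i, ‖f i x‖ ^ 2 = t := by
    filter_upwards [hcol, col_norm hP, ae_all_iff.2 hf] with x h1 h2 h3
    have h4 : ((‖col ν P x‖ ^ 2 : ℝ) : ℂ) = ((∑ i, ‖f i x‖ ^ 2 : ℝ) : ℂ) := by
      have h5 := inner_self_eq_norm_sq_to_K (𝕜 := ℂ) (col ν P x)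
      have h6 : inner ℂ (col ν P x) (col ν P x) = inner ℂ (col ν P x) (∑ i, conj (f i x) • f i) :=
        congrArg (fun w => inner ℂ (col ν P x) w) h1
      rw [h5, inner_sum] at h6
      have h7 : ∀ i ∈ (Finset.univ : Finset (Fin r)), inner ℂ (col ν P x) (conj (f i x) • f i) =
          ((‖f i x‖ ^ 2 : ℝ) : ℂ) := by
        intro i _
        rw [inner_smul_right, h3 i, mul_comm, Complex.mul_conj, Complex.normSq_eq_norm_sq]
      rw [Finset.sum_congr rfl h7] at h6
      push_cast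
      push_cast at h6
      exact h6
    rw [← h2]
    exact_mod_cast h4.symm
  have hint : ∀ i, Integrable (fun x => ‖f i x‖ ^ 2) ν := fun i => fs_sq (Lp.memLp (f i))
  refine ⟨r, fun i => f i, ?_, fun i => (Lp.stronglyMeasurable (f i)).measurable,
    fun i => Lp.memLp (f i), ?_, hsq, ?_⟩
  · have h5 : ∫ x, ∑ i, ‖f i x‖ ^ 2 ∂ν = ∫ _x, t ∂ν := integral_congr_ae hsq
    rw [integral_finsetSum _ (fun i _ => hint i)] at h5
    have h6 : ∀ i ∈ (Finset.univ : Finset (Fin r)), ∫ x, ‖f i x‖ ^ 2 ∂ν = 1 := by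
      intro i _
      rw [← f_norm, ho.1 i, one_pow]
    rw [Finset.sum_congr rfl h6, Finset.sum_const, Finset.card_univ, Fintype.card_fin, nsmul_eq_mul,
      mul_one, integral_const, probReal_univ, one_smul] at h5
    exact h5.symm
  · intro i j
    have h2 := orthonormal_iff_ite.1 ho j i
    have h3 := fs_inner (Lp.memLp (f j)) (Lp.memLp (f i))
    rw [Lp.toLp_coeFn, Lp.toLp_coeFn] at h3
    rw [← h3, h2]
    simp only [eq_comm]
  · have hm : MeasurableSet {z : X × X | P (z.2, z.1) = ∑ i, f i z.2 * conj (f i z.1)} := by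
      refine measurableSet_eq_fun (hP.meas.comp measurable_swap) ?_
      refine Finset.measurable_sum _ fun i _ => ?_
      have m1 := (Lp.stronglyMeasurable (f i)).measurable
      exact (m1.comp measurable_snd).mul (Complex.continuous_conj.measurable.comp (m1.comp measurable_fst))
    have h1 : ∀ᵐ z ∂ν.prod ν, P (z.2, z.1) = ∑ i, f i z.2 * conj (f i z.1) := by
      rw [Measure.ae_prod_iff_ae_ae hm]
      filter_upwards [hcol, hP.fs_col] with x h2 h3
      obtain ⟨-, -, h4, -, -⟩ := h3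
      have e1 : col ν P x = h4.toLp _ := dif_pos h4
      rw [e1] at h2
      have h5 : ∀ᵐ y ∂ν, (∑ i, conj (f i x) • f i : Lp ℂ 2 ν) y = ∑ i, conj (f i x) * f i y := by
        have h6 : ∀ s : Finset (Fin r), ∀ᵐ y ∂ν, (∑ i ∈ s, conj (f i x) • f i : Lp ℂ 2 ν) y =
            ∑ i ∈ s, conj (f i x) * f i y := by
          intro s
          induction s using Finset.induction_on with
          | empty =>
            filter_upwards [Lp.coeFn_zero ℂ 2 ν] with y hy
            rw [Finset.sum_empty, Finset.sum_empty, hy]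
            rfl
          | insert a s ha ih =>
            rw [Finset.sum_insert ha]
            filter_upwards [ih, Lp.coeFn_add (conj (f a x) • f a) (∑ i ∈ s, conj (f i x) • f i),
              Lp.coeFn_smul (conj (f a x)) (f a)] with y k1 k2 k3
            rw [k2, Pi.add_apply, k1, k3, Finset.sum_insert ha]
            rfl
        exact h6 Finset.univ
      filter_upwards [h4.coeFn_toLp, h5] with y k1 k2
      show P (y, x) = ∑ i, f i y * conj (f i x)
      rw [← k1, h2, k2]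
      exact Finset.sum_congr rfl fun i _ => mul_comm _ _
    exact fs_swap h1

/-- the spectral form of `|P|²` -/
theorem spec_sq {r : ℕ} {t : ℝ} {P : X × X → ℂ} {φ : Fin r → X → ℂ} (hm : ∀ i, Measurable (φ i))
    (hsq : ∀ᵐ x ∂ν, ∑ i, ‖φ i x‖ ^ 2 = t)
    (hP : ∀ᵐ z ∂ν.prod ν, P z = ∑ i, φ i z.1 * conj (φ i z.2)) :
    (∀ q : Fin r × Fin r, MemLp (fun x => φ q.1 x * conj (φ q.2 x)) 2 ν) ∧
      ∀ᵐ z ∂ν.prod ν, ((‖P z‖ ^ 2 : ℝ) : ℂ) =
        ∑ q : Fin r × Fin r, (φ q.1 z.1 * conj (φ q.2 z.1)) * conj (φ q.1 z.2 * conj (φ q.2 z.2)) := by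
  refine ⟨fun q => ?_, ?_⟩
  · refine MemLp.of_bound (C := t) ?_ ?_
    · exact ((hm q.1).mul (Complex.continuous_conj.measurable.comp (hm q.2))).aestronglyMeasurable
    · filter_upwards [hsq] with x hx
      have h1 : ∀ i, ‖φ i x‖ ^ 2 ≤ t := fun i => by
        rw [← hx]
        exact Finset.single_le_sum (f := fun i => ‖φ i x‖ ^ 2) (fun _ _ => sq_nonneg _) (Finset.mem_univ i)
      rw [norm_mul, RCLike.norm_conj]
      nlinarith [h1 q.1, h1 q.2, sq_nonneg (‖φ q.1 x‖ - ‖φ q.2 x‖)]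
  · filter_upwards [hP] with z hz
    rw [← Complex.normSq_eq_norm_sq, ← Complex.mul_conj, hz, map_sum, Finset.sum_mul_sum,
      Fintype.sum_prod_type]
    refine Finset.sum_congr rfl fun i _ => Finset.sum_congr rfl fun j _ => ?_
    simp only [map_mul, Complex.conj_conj]
    ring

end Pool.Agent.Lib.MP_9fe581_an.AP
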