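import Pool.Agent.Lib.MP_9fe581_an.AP.F0
import Pool.Agent.Lib.MP_9fe581_an.AP.F0p

/-! # AP, kernels over one probability space -/

set_option autoImplicit false

open Finset MeasureTheory Filter Topology
open scoped ComplexConjugate

namespace Pool.Agent.Lib.MP_9fe581_an.AP

variable {X : Type} [MeasurableSpace X]

variable {ν : Measure X} [IsProbabilityMeasure ν]

/-- **F3, rank one.** `|P|² = t` a.e.: `t = 1` and `P(x, y) P(y, z) = P(x, z)`.
Proof: `Ψ` as in F2. For `g` with `∫ g = 0`: `∫∫ |∫ Ψ(x; z, z') conj g(x) dx|² = ⟨|P|² g, g⟩ = t |∫ g|² = 0`; so `Ψ(x; z, z')` is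
orthogonal to all `(g - ∫ g) ⊗ h(z, z')`, hence a.e. independent of `x`: `P(x, z) conj P(x, z') = ∫ P(x, z) conj P(x, z') dx = P(z', z)`.
Absolute values: `t = √t`, so `t = 1` (`t > 0`). -/
theorem PK.rank_one {t : ℝ} (ht : 0 < t) {P : X × X → ℂ} (hP : PK ν t P)
    (h : ∀ᵐ z ∂ν.prod ν, ‖P z‖ ^ 2 = t) :
    t = 1 ∧ ∀ᵐ w ∂(ν.prod (ν.prod ν)), P (w.1, w.2.1) * P (w.2.1, w.2.2) = P (w.1, w.2.2) := by
  classical
  obtain ⟨r, φ, htr, hm, hL, ho, hsq, hPφ⟩ := hP.spec
  obtain ⟨hψL, hψ⟩ := spec_sq hm hsq hPφ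
  -- the products are constant
  have key : ∀ q : Fin r × Fin r, ∀ᵐ x ∂ν, φ q.1 x * conj (φ q.2 x) = if q.1 = q.2 then 1 else 0 := by
    intro q
    set c : ℂ := if q.1 = q.2 then 1 else 0 with hc
    set g : X → ℂ := fun x => φ q.1 x * conj (φ q.2 x) - c with hg
    have hgL : MemLp g 2 ν := (hψL q).sub (memLp_const c)
    have hg1 : Integrable g ν := hgL.integrable one_le_two
    have hg0 : ∫ x, g x ∂ν = 0 := by
      rw [hg, integral_sub ((hψL q).integrable one_le_two) (integrable_const c), ho q.1 q.2,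
        integral_const, probReal_univ, one_smul, sub_self]
    have hgc0 : ∫ x, conj (g x) ∂ν = 0 := by
      rw [integral_conj, hg0, map_zero]
    -- the two computations of the double integral
    have e1 : ∫ z, ((‖P z‖ ^ 2 : ℝ) : ℂ) * (conj (g z.1) * g z.2) ∂ν.prod ν = 0 := by
      have e2 : ∫ z, ((‖P z‖ ^ 2 : ℝ) : ℂ) * (conj (g z.1) * g z.2) ∂ν.prod ν =
          ∫ z, (t : ℂ) * (conj (g z.1) * g z.2) ∂ν.prod ν := by
        refine integral_congr_ae ?_
        filter_upwards [h] with z hz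
        rw [hz]
      rw [e2, integral_const_mul, integral_prod_mul (fun x => conj (g x)) g, hg0, mul_zero, mul_zero]
    have hI : ∀ q' : Fin r × Fin r, Integrable (fun x => (φ q'.1 x * conj (φ q'.2 x)) * conj (g x)) ν :=
      fun q' => fs_mul_int hgL (hψL q')
    have hI' : ∀ q' : Fin r × Fin r, Integrable (fun x => conj (φ q'.1 x * conj (φ q'.2 x)) * g x) ν := by
      intro q'
      have := fs_mul_int (hψL q') hgL
      refine this.congr (ae_of_all _ fun x => ?_)
      show g x * conj (φ q'.1 x * conj (φ q'.2 x)) = _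
      ring
    have e3 : ∫ z, ((‖P z‖ ^ 2 : ℝ) : ℂ) * (conj (g z.1) * g z.2) ∂ν.prod ν =
        ∑ q' : Fin r × Fin r, (∫ x, (φ q'.1 x * conj (φ q'.2 x)) * conj (g x) ∂ν) *
          ∫ x, conj (φ q'.1 x * conj (φ q'.2 x)) * g x ∂ν := by
      have e4 : ∫ z, ((‖P z‖ ^ 2 : ℝ) : ℂ) * (conj (g z.1) * g z.2) ∂ν.prod ν =
          ∫ z, ∑ q' : Fin r × Fin r, ((φ q'.1 z.1 * conj (φ q'.2 z.1)) * conj (g z.1)) *
            (conj (φ q'.1 z.2 * conj (φ q'.2 z.2)) * g z.2) ∂ν.prod ν := by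
        refine integral_congr_ae ?_
        filter_upwards [hψ] with z hz
        rw [hz, Finset.sum_mul]
        exact Finset.sum_congr rfl fun q' _ => by ring
      rw [e4, integral_finsetSum _ fun q' _ => (hI q').mul_prod (hI' q')]
      refine Finset.sum_congr rfl fun q' _ => ?_
      exact integral_prod_mul (fun x => (φ q'.1 x * conj (φ q'.2 x)) * conj (g x))
        (fun x => conj (φ q'.1 x * conj (φ q'.2 x)) * g x)
    have e5 : ∀ q' : Fin r × Fin r, (∫ x, (φ q'.1 x * conj (φ q'.2 x)) * conj (g x) ∂ν) *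
          ∫ x, conj (φ q'.1 x * conj (φ q'.2 x)) * g x ∂ν =
        ((‖∫ x, (φ q'.1 x * conj (φ q'.2 x)) * conj (g x) ∂ν‖ ^ 2 : ℝ) : ℂ) := by
      intro q'
      have e6 : ∫ x, conj (φ q'.1 x * conj (φ q'.2 x)) * g x ∂ν =
          conj (∫ x, (φ q'.1 x * conj (φ q'.2 x)) * conj (g x) ∂ν) := by
        rw [← integral_conj]
        refine integral_congr_ae (ae_of_all _ fun x => ?_)
        simp only [map_mul, Complex.conj_conj]
      rw [e6, Complex.mul_conj, Complex.normSq_eq_norm_sq]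
    rw [e1, Finset.sum_congr rfl fun q' _ => e5 q', ← Complex.ofReal_sum] at e3
    have e7 : ∑ q' : Fin r × Fin r, ‖∫ x, (φ q'.1 x * conj (φ q'.2 x)) * conj (g x) ∂ν‖ ^ 2 = 0 := by
      exact_mod_cast e3.symm
    have e8 := (Finset.sum_eq_zero_iff_of_nonneg (fun _ _ => sq_nonneg _)).1 e7 q (Finset.mem_univ q)
    have e9 : ∫ x, (φ q.1 x * conj (φ q.2 x)) * conj (g x) ∂ν = 0 := by
      have := pow_eq_zero_iff (two_ne_zero) |>.1 e8
      exact norm_eq_zero.1 this
    have e10 : ∫ x, g x * conj (g x) ∂ν = 0 := by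
      have e11 : ∫ x, g x * conj (g x) ∂ν =
          ∫ x, ((φ q.1 x * conj (φ q.2 x)) * conj (g x) - c * conj (g x)) ∂ν := by
        refine integral_congr_ae (ae_of_all _ fun x => ?_)
        show (φ q.1 x * conj (φ q.2 x) - c) * conj (g x) = _
        ring
      have hgc : Integrable (fun x => conj (g x)) ν := by
        have := hgL.star.integrable one_le_two
        exact this
      rw [e11, integral_sub (hI q) (hgc.const_mul c), e9, integral_const_mul, hgc0, mul_zero, sub_self]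
    rw [fs_mul_self] at e10
    have e12 : ∫ x, ‖g x‖ ^ 2 ∂ν = 0 := by exact_mod_cast e10
    rw [integral_eq_zero_iff_of_nonneg (fun _ => sq_nonneg _) (fs_sq hgL)] at e12
    filter_upwards [e12] with x hx
    have : ‖g x‖ ^ 2 = 0 := hx
    have h0 : g x = 0 := norm_eq_zero.1 (pow_eq_zero_iff (two_ne_zero) |>.1 this)
    exact sub_eq_zero.1 h0
  have hr : r = 1 := by
    have hr0 : 0 < r := by
      rcases Nat.eq_zero_or_pos r with h0 | h0
      · subst h0
        rw [htr] at ht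
        simp at ht
      · exact h0
    by_contra hr1
    have hr2 : 1 < r := by omega
    have k1 := key (⟨0, hr0⟩, ⟨0, hr0⟩)
    have k2 := key (⟨1, hr2⟩, ⟨1, hr2⟩)
    have k3 := key (⟨0, hr0⟩, ⟨1, hr2⟩)
    obtain ⟨x, h1, h2, h3⟩ := (k1.and (k2.and k3)).exists
    simp only [if_true] at h1 h2
    rw [if_neg (by
      intro h
      have := congrArg Fin.val h
      simp at this)] at h3
    have h4 : φ ⟨0, hr0⟩ x ≠ 0 := by
      intro h
      rw [h, zero_mul] at h1
      exact zero_ne_one h1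
    have h5 : φ ⟨1, hr2⟩ x ≠ 0 := by
      intro h
      rw [h, zero_mul] at h2
      exact zero_ne_one h2
    rcases mul_eq_zero.1 h3 with h6 | h6
    · exact h4 h6
    · exact h5 ((map_eq_zero _).1 h6)
  subst hr
  have ht1 : t = 1 := by rw [htr]; simp
  refine ⟨ht1, ?_⟩
  have hP1 : ∀ᵐ z ∂ν.prod ν, P z = φ 0 z.1 * conj (φ 0 z.2) := by
    filter_upwards [hPφ] with z hz
    rw [hz]
    simp
  have k0 : ∀ᵐ x ∂ν, φ 0 x * conj (φ 0 x) = 1 := by
    have := key (0, 0)
    simpa using this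
  have q1 : Measure.QuasiMeasurePreserving (fun w : X × (X × X) => (w.1, w.2.1))
      (ν.prod (ν.prod ν)) (ν.prod ν) :=
    ((MeasurePreserving.id ν).prod (measurePreserving_fst (μ := ν) (ν := ν))).quasiMeasurePreserving
  have q2 : Measure.QuasiMeasurePreserving (fun w : X × (X × X) => w.2)
      (ν.prod (ν.prod ν)) (ν.prod ν) := Measure.quasiMeasurePreserving_snd
  have q3 : Measure.QuasiMeasurePreserving (fun w : X × (X × X) => (w.1, w.2.2))
      (ν.prod (ν.prod ν)) (ν.prod ν) :=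
    ((MeasurePreserving.id ν).prod (measurePreserving_snd (μ := ν) (ν := ν))).quasiMeasurePreserving
  have q4 : Measure.QuasiMeasurePreserving (fun w : X × (X × X) => w.2.1)
      (ν.prod (ν.prod ν)) ν := Measure.quasiMeasurePreserving_fst.comp q2
  filter_upwards [q1.ae hP1, q2.ae hP1, q3.ae hP1, q4.ae k0] with w h1 h2 h3 h4
  have h2' : P (w.2.1, w.2.2) = φ 0 w.2.1 * conj (φ 0 w.2.2) := h2
  rw [h1, h2', h3]
  linear_combination (φ 0 w.1 * conj (φ 0 w.2.2)) * h4

end Pool.Agent.Lib.MP_9fe581_an.AP
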