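import Pool.Agent.Lib.MP_9fe581_an.AP.HDefs

/-!
# AP, part H: Hilbert *-algebras (abstract), the spectral lemma
-/

set_option autoImplicit false

open scoped ComplexConjugate InnerProductSpace
open Filter Topology

namespace Pool.Agent.Lib.MP_9fe581_an.AP

section
variable {E : Type} [NormedAddCommGroup E] [InnerProductSpace ℂ E]

namespace HStar

variable (S : HStar E)

theorem star_zero : S.star 0 = 0 := by
  have := S.star_smul 0 0
  simpa using this

theorem star_neg (P : E) : S.star (-P) = -S.star P := by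
  have := S.star_smul (-1) P
  simpa using this

theorem star_sub (P Q : E) : S.star (P - Q) = S.star P - S.star Q := by
  rw [sub_eq_add_neg, S.star_add, S.star_neg, ← sub_eq_add_neg]

theorem mul_sub (P Q R : E) : S.mul P (Q - R) = S.mul P Q - S.mul P R := map_sub _ _ _

theorem sub_mul (P Q R : E) : S.mul (P - Q) R = S.mul P R - S.mul Q R := by
  rw [map_sub, LinearMap.sub_apply]

theorem mul_add (P Q R : E) : S.mul P (Q + R) = S.mul P Q + S.mul P R := map_add _ _ _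

theorem add_mul (P Q R : E) : S.mul (P + Q) R = S.mul P R + S.mul Q R := by
  rw [map_add, LinearMap.add_apply]

theorem mul_smul (z : ℂ) (P Q : E) : S.mul P (z • Q) = z • S.mul P Q := map_smul _ _ _

theorem smul_mul (z : ℂ) (P Q : E) : S.mul (z • P) Q = z • S.mul P Q := by
  rw [map_smul, LinearMap.smul_apply]

theorem mul_zero (P : E) : S.mul P 0 = 0 := map_zero _

theorem zero_mul (P : E) : S.mul 0 P = 0 := by rw [map_zero, LinearMap.zero_apply]

/-- the adjoint of the inner product under the involution -/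
theorem inner_star (P Q : E) : ⟪S.star P, S.star Q⟫_ℂ = ⟪Q, P⟫_ℂ := by
  have key : ∀ P Q : E, (⟪S.star P, S.star Q⟫_ℂ).re = (⟪Q, P⟫_ℂ).re := by
    intro P Q
    have h1 : ‖S.star (P + Q)‖ ^ 2 = ‖P + Q‖ ^ 2 := by rw [S.norm_star]
    rw [S.star_add] at h1
    have h2 := @norm_add_sq ℂ E _ _ _ (S.star P) (S.star Q)
    have h3 := @norm_add_sq ℂ E _ _ _ P Q
    rw [h2, h3, S.norm_star, S.norm_star] at h1
    have h4 : RCLike.re ⟪P, Q⟫_ℂ = RCLike.re ⟪Q, P⟫_ℂ := inner_re_symm P Q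
    have h5 : RCLike.re ⟪S.star P, S.star Q⟫_ℂ = RCLike.re ⟪P, Q⟫_ℂ := by linarith
    rw [h4] at h5
    simpa using h5
  apply Complex.ext
  · exact key P Q
  · have h := key P (Complex.I • Q)
    rw [S.star_smul, inner_smul_right, inner_smul_left] at h
    simpa using h

theorem inner_right (P Q R : E) : ⟪S.mul P Q, R⟫_ℂ = ⟪P, S.mul R (S.star Q)⟫_ℂ := by
  have h1 : S.star (S.mul R (S.star Q)) = S.mul Q (S.star R) := by rw [S.star_mul, S.star_star]
  rw [← S.inner_star R (S.mul P Q), S.star_mul, ← S.inner_star (S.mul R (S.star Q)) P, h1]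
  rw [← inner_conj_symm, S.inner_mul, S.star_star, inner_conj_symm]

theorem norm_sub_star (P Q : E) : ‖S.star P - S.star Q‖ = ‖P - Q‖ := by
  rw [← S.star_sub, S.norm_star]

theorem continuous_star : Continuous S.star := by
  apply LipschitzWith.continuous (K := 1)
  apply LipschitzWith.of_dist_le_mul
  intro x y
  rw [dist_eq_norm, dist_eq_norm, S.norm_sub_star]
  simp

/-- continuity of the product -/
theorem tendsto_mul {ι : Type*} {l : Filter ι} {a b : ι → E} {x y : E} (ha : Tendsto a l (𝓝 x))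
    (hb : Tendsto b l (𝓝 y)) : Tendsto (fun i => S.mul (a i) (b i)) l (𝓝 (S.mul x y)) := by
  rw [tendsto_iff_norm_sub_tendsto_zero] at ha hb ⊢
  have hbd : ∀ i, ‖S.mul (a i) (b i) - S.mul x y‖ ≤
      ‖a i - x‖ * ‖b i - y‖ + ‖a i - x‖ * ‖y‖ + ‖x‖ * ‖b i - y‖ := by
    intro i
    have e : S.mul (a i) (b i) - S.mul x y =
        S.mul (a i - x) (b i - y) + S.mul (a i - x) y + S.mul x (b i - y) := by
      simp only [S.sub_mul, S.mul_sub]; abel
    rw [e]
    refine (norm_add_le _ _).trans (add_le_add ((norm_add_le _ _).trans (add_le_add ?_ ?_)) ?_)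
    · exact S.norm_mul _ _
    · exact S.norm_mul _ _
    · exact S.norm_mul _ _
  refine squeeze_zero (fun i => norm_nonneg _) hbd ?_
  have h := ((ha.mul hb).add (ha.mul_const ‖y‖)).add (hb.const_mul ‖x‖)
  simpa using h

/-! ### powers and the operator norm -/

/-- `pw K m = K ^ (m+1)` -/
def pw (K : E) : ℕ → E
  | 0 => K
  | m + 1 => S.mul K (pw K m)

theorem pw_succ (K : E) (m : ℕ) : S.pw K (m + 1) = S.mul K (S.pw K m) := rfl

theorem pw_add (K : E) (m n : ℕ) : S.mul (S.pw K m) (S.pw K n) = S.pw K (m + n + 1) := by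
  induction m with
  | zero => simp [pw]
  | succ m ih =>
    have e : m + 1 + n + 1 = (m + n + 1) + 1 := by ring
    rw [e, S.pw_succ K (m + n + 1), ← ih, S.pw_succ, S.assoc]

theorem pw_comm (K : E) (m : ℕ) : S.mul (S.pw K m) K = S.mul K (S.pw K m) := by
  have h1 := S.pw_add K m 0
  have h2 := S.pw_add K 0 m
  simp only [pw] at h1 h2
  rw [h1, h2]

theorem star_pw {K : E} (hK : S.star K = K) (m : ℕ) : S.star (S.pw K m) = S.pw K m := by
  induction m with
  | zero => exact hK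
  | succ m ih => rw [pw, S.star_mul, ih, hK, S.pw_comm]

/-- the norm of the left multiplication by `K` -/
noncomputable def op (K : E) : ℝ := sSup {x | ∃ Q : E, ‖Q‖ ≤ 1 ∧ x = ‖S.mul K Q‖}

theorem op_bdd (K : E) : BddAbove {x | ∃ Q : E, ‖Q‖ ≤ 1 ∧ x = ‖S.mul K Q‖} := by
  refine ⟨‖K‖, ?_⟩
  rintro x ⟨Q, hQ, rfl⟩
  calc ‖S.mul K Q‖ ≤ ‖K‖ * ‖Q‖ := S.norm_mul _ _
    _ ≤ ‖K‖ * 1 := by gcongr
    _ = ‖K‖ := mul_one _

theorem op_nonneg (K : E) : 0 ≤ S.op K := by
  apply le_csSup (S.op_bdd K)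
  exact ⟨0, by simp, by simp⟩

theorem norm_mul_le_op (K Q : E) : ‖S.mul K Q‖ ≤ S.op K * ‖Q‖ := by
  rcases eq_or_ne Q 0 with rfl | hQ
  · simp
  have hq : 0 < ‖Q‖ := norm_pos_iff.2 hQ
  have h1 : ‖S.mul K (((‖Q‖⁻¹ : ℝ) : ℂ) • Q)‖ ≤ S.op K := by
    apply le_csSup (S.op_bdd K)
    refine ⟨_, ?_, rfl⟩
    rw [norm_smul]
    simp [hq.ne']
  rw [S.mul_smul, norm_smul] at h1
  have h2 : ‖((‖Q‖⁻¹ : ℝ) : ℂ)‖ = ‖Q‖⁻¹ := by
    rw [Complex.norm_real, Real.norm_of_nonneg (by positivity)]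
  rw [h2] at h1
  calc ‖S.mul K Q‖ = (‖Q‖⁻¹ * ‖S.mul K Q‖) * ‖Q‖ := by field_simp
    _ ≤ S.op K * ‖Q‖ := by gcongr

theorem op_le {K : E} {c : ℝ} (hc : 0 ≤ c) (h : ∀ Q, ‖S.mul K Q‖ ≤ c * ‖Q‖) : S.op K ≤ c := by
  apply Real.sSup_le _ hc
  rintro x ⟨Q, hQ, rfl⟩
  calc ‖S.mul K Q‖ ≤ c * ‖Q‖ := h Q
    _ ≤ c * 1 := by gcongr
    _ = c := mul_one _

theorem op_le_norm (K : E) : S.op K ≤ ‖K‖ := S.op_le (norm_nonneg _) (S.norm_mul K)

theorem op_mul_le (K L : E) : S.op (S.mul K L) ≤ S.op K * S.op L := by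
  apply S.op_le (mul_nonneg (S.op_nonneg _) (S.op_nonneg _))
  intro Q
  rw [S.assoc]
  calc _ ≤ S.op K * ‖S.mul L Q‖ := S.norm_mul_le_op _ _
    _ ≤ S.op K * (S.op L * ‖Q‖) := by
        gcongr
        · exact S.op_nonneg K
        · exact S.norm_mul_le_op _ _
    _ = _ := by ring

theorem op_smul (c : ℂ) (K : E) : S.op (c • K) = ‖c‖ * S.op K := by
  have hle : ∀ (c : ℂ) (K : E), S.op (c • K) ≤ ‖c‖ * S.op K := by
    intro c K
    apply S.op_le (mul_nonneg (norm_nonneg _) (S.op_nonneg _))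
    intro Q
    rw [S.smul_mul, norm_smul, mul_assoc]
    gcongr
    exact S.norm_mul_le_op _ _
  rcases eq_or_ne c 0 with rfl | hc
  · apply le_antisymm (hle 0 K)
    simpa using S.op_nonneg _
  apply le_antisymm (hle c K)
  have h1 := hle c⁻¹ (c • K)
  rw [smul_smul, inv_mul_cancel₀ hc, one_smul, norm_inv] at h1
  have : 0 < ‖c‖ := norm_pos_iff.2 hc
  calc ‖c‖ * S.op K ≤ ‖c‖ * (‖c‖⁻¹ * S.op (c • K)) := by gcongr
    _ = S.op (c • K) := by field_simp

/-- `C*`-identity -/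
theorem op_sq {K : E} (hK : S.star K = K) : S.op K ^ 2 ≤ S.op (S.mul K K) := by
  have h : S.op K ≤ Real.sqrt (S.op (S.mul K K)) := by
    apply S.op_le (Real.sqrt_nonneg _)
    intro Q
    have h1 : ‖S.mul K Q‖ ^ 2 ≤ S.op (S.mul K K) * ‖Q‖ ^ 2 := by
      have e : ((‖S.mul K Q‖ ^ 2 : ℝ) : ℂ) = ⟪Q, S.mul (S.mul K K) Q⟫_ℂ := by
        have := S.inner_mul K Q (S.mul K Q)
        rw [hK, inner_self_eq_norm_sq_to_K] at this
        rw [S.assoc, ← this]
        norm_cast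
      have h2 : ‖S.mul K Q‖ ^ 2 ≤ ‖⟪Q, S.mul (S.mul K K) Q⟫_ℂ‖ := by
        rw [← e, Complex.norm_real]
        exact le_abs_self _
      calc _ ≤ ‖⟪Q, S.mul (S.mul K K) Q⟫_ℂ‖ := h2
        _ ≤ ‖Q‖ * ‖S.mul (S.mul K K) Q‖ := norm_inner_le_norm _ _
        _ ≤ ‖Q‖ * (S.op (S.mul K K) * ‖Q‖) := by gcongr; exact S.norm_mul_le_op _ _
        _ = _ := by ring
    have h3 : (Real.sqrt (S.op (S.mul K K)) * ‖Q‖) ^ 2 = S.op (S.mul K K) * ‖Q‖ ^ 2 := by
      rw [mul_pow, Real.sq_sqrt (S.op_nonneg _)]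
    rw [← h3] at h1
    exact (le_abs_self _).trans (abs_le_of_sq_le_sq h1 (by positivity))
  calc S.op K ^ 2 ≤ Real.sqrt (S.op (S.mul K K)) ^ 2 := by
        gcongr
        exact S.op_nonneg K
    _ = _ := Real.sq_sqrt (S.op_nonneg _)

/-! ### powers of a self-adjoint element with `op = 1` -/

theorem op_pw_le {T : E} (h1 : S.op T ≤ 1) (m : ℕ) : S.op (S.pw T m) ≤ 1 := by
  induction m with
  | zero => exact h1
  | succ m ih =>
    rw [S.pw_succ]
    calc _ ≤ S.op T * S.op (S.pw T m) := S.op_mul_le _ _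
      _ ≤ 1 * 1 := mul_le_mul h1 ih (S.op_nonneg _) zero_le_one
      _ = 1 := one_mul _

theorem one_le_op_pw {T : E} (hT : S.star T = T) (h1 : S.op T = 1) (m : ℕ) :
    1 ≤ S.op (S.pw T m) := by
  have h2 : ∀ k : ℕ, 1 ≤ S.op (S.pw T (2 ^ k - 1)) := by
    intro k
    induction k with
    | zero => simpa [pw] using h1.ge
    | succ k ih =>
      have e : 2 ^ (k + 1) - 1 = (2 ^ k - 1) + (2 ^ k - 1) + 1 := by
        have : 1 ≤ 2 ^ k := Nat.one_le_two_pow
        rw [pow_succ]; omega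
      rw [e, ← S.pw_add]
      refine le_trans ?_ (S.op_sq (S.star_pw hT _))
      nlinarith
  obtain ⟨k, hk⟩ : ∃ k : ℕ, m + 1 < 2 ^ k := ⟨m + 1, Nat.lt_two_pow_self⟩
  have e : 2 ^ k - 1 = m + (2 ^ k - m - 2) + 1 := by omega
  have h3 := h2 k
  rw [e, ← S.pw_add] at h3
  calc (1 : ℝ) ≤ _ := h3
    _ ≤ S.op (S.pw T m) * S.op (S.pw T (2 ^ k - m - 2)) := S.op_mul_le _ _
    _ ≤ S.op (S.pw T m) * 1 := by
        gcongr
        · exact S.op_nonneg _
        · exact S.op_pw_le h1.le _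
    _ = _ := mul_one _

theorem inner_pw_shift {T : E} (hT : S.star T = T) (j m n : ℕ) :
    ⟪S.pw T (m + j), S.pw T n⟫_ℂ = ⟪S.pw T m, S.pw T (n + j)⟫_ℂ := by
  induction j generalizing n with
  | zero => rfl
  | succ j ih =>
    rw [← add_assoc, S.pw_succ, S.inner_mul, hT, ← S.pw_succ, ih]
    congr 2
    omega

theorem norm_pw_anti {T : E} (h1 : S.op T ≤ 1) : Antitone fun m => ‖S.pw T m‖ ^ 2 := by
  apply antitone_nat_of_succ_le
  intro m
  have : ‖S.pw T (m + 1)‖ ≤ ‖S.pw T m‖ := by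
    rw [S.pw_succ]
    calc _ ≤ S.op T * ‖S.pw T m‖ := S.norm_mul_le_op _ _
      _ ≤ 1 * ‖S.pw T m‖ := by gcongr
      _ = _ := one_mul _
  gcongr

theorem norm_pw_sub {T : E} (hT : S.star T = T) {i j : ℕ} (hij : i ≤ j) :
    ‖S.pw T (2 * i + 1) - S.pw T (2 * j + 1)‖ ^ 2 =
      ‖S.pw T (2 * i + 1)‖ ^ 2 + ‖S.pw T (2 * j + 1)‖ ^ 2 - 2 * ‖S.pw T (i + j + 1)‖ ^ 2 := by
  have h := @norm_sub_sq ℂ E _ _ _ (S.pw T (2 * i + 1)) (S.pw T (2 * j + 1))
  have e : ⟪S.pw T (2 * i + 1), S.pw T (2 * j + 1)⟫_ℂ =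
      ((‖S.pw T (i + j + 1)‖ ^ 2 : ℝ) : ℂ) := by
    have e1 : 2 * j + 1 = (i + j + 1) + (j - i) := by omega
    have e2 : i + j + 1 = 2 * i + 1 + (j - i) := by omega
    rw [e1, ← S.inner_pw_shift hT, ← e2, inner_self_eq_norm_sq_to_K]
    norm_cast
  rw [e] at h
  have h2 : RCLike.re (((‖S.pw T (i + j + 1)‖ ^ 2 : ℝ) : ℂ)) = ‖S.pw T (i + j + 1)‖ ^ 2 :=
    Complex.ofReal_re _
  rw [h2] at h
  rw [h]
  ring

/-- the even powers converge to a projection -/
theorem exists_lim [CompleteSpace E] {T : E} (hT : S.star T = T) (h1 : S.op T = 1) :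
    ∃ P : E, Tendsto (fun i => S.pw T (2 * i + 1)) atTop (𝓝 P) ∧ 1 ≤ ‖P‖ := by
  set a : ℕ → ℝ := fun m => ‖S.pw T m‖ ^ 2 with ha
  have hanti : Antitone a := S.norm_pw_anti h1.le
  have hge : ∀ m, 1 ≤ ‖S.pw T m‖ := fun m => (S.one_le_op_pw hT h1 m).trans (S.op_le_norm _)
  have hbdd : BddBelow (Set.range a) := ⟨0, by rintro _ ⟨m, rfl⟩; positivity⟩
  have hlim : Tendsto a atTop (𝓝 (⨅ m, a m)) := tendsto_atTop_ciInf hanti hbdd
  have hinf : ∀ m, ⨅ m, a m ≤ a m := fun m => ciInf_le hbdd m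
  have hC : CauchySeq fun i => S.pw T (2 * i + 1) := by
    rw [Metric.cauchySeq_iff]
    intro ε hε
    have h2 : ∀ᶠ m in atTop, a m < (⨅ m, a m) + ε ^ 2 / 2 :=
      hlim.eventually_lt_const (by linarith [sq_pos_of_pos hε])
    obtain ⟨M, hM⟩ := eventually_atTop.1 h2
    refine ⟨M, ?_⟩
    have key : ∀ i j, M ≤ i → i ≤ j → dist (S.pw T (2 * i + 1)) (S.pw T (2 * j + 1)) < ε := by
      intro i j hi hij
      rw [dist_eq_norm]
      have h3 := S.norm_pw_sub hT hij
      have h4 : a (2 * i + 1) < (⨅ m, a m) + ε ^ 2 / 2 := hM _ (by omega)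
      have h5 : a (2 * j + 1) < (⨅ m, a m) + ε ^ 2 / 2 := hM _ (by omega)
      have h6 := hinf (i + j + 1)
      have h7 : ‖S.pw T (2 * i + 1) - S.pw T (2 * j + 1)‖ ^ 2 < ε ^ 2 := by
        rw [h3]
        simp only [ha] at h4 h5 h6
        linarith
      exact lt_of_pow_lt_pow_left₀ 2 hε.le h7
    intro i hi j hj
    rcases le_total i j with h | h
    · exact key i j hi h
    · rw [dist_comm]; exact key j i hj h
  obtain ⟨P, hP⟩ := cauchySeq_tendsto_of_complete hC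
  exact ⟨P, hP, ge_of_tendsto' hP.norm fun i => hge _⟩

theorem top_aux [CompleteSpace E] {T : E} (hT : S.star T = T) (h1 : S.op T = 1) :
    ∃ P : E, S.Proj P ∧ S.mul T (S.mul T P) = P ∧ S.mul P T = S.mul T P ∧
      ∀ Q, S.mul Q T = T → S.mul Q P = P := by
  obtain ⟨P, hE, hE1⟩ := S.exists_lim hT h1
  have hsub : Tendsto (fun i => S.pw T (2 * (2 * i + 1) + 1)) atTop (𝓝 P) :=
    hE.comp (tendsto_atTop_mono (fun i => by omega : ∀ i : ℕ, i ≤ 2 * i + 1) tendsto_id)
  refine ⟨P, ⟨?_, ?_, ?_⟩, ?_, ?_, ?_⟩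
  · intro h0
    rw [h0, norm_zero] at hE1
    linarith
  · have h2 := S.tendsto_mul hE hE
    have h3 : (fun i => S.mul (S.pw T (2 * i + 1)) (S.pw T (2 * i + 1))) =
        fun i => S.pw T (2 * (2 * i + 1) + 1) := by
      funext i
      rw [S.pw_add]
      congr 1
      omega
    rw [h3] at h2
    exact tendsto_nhds_unique h2 hsub
  · have h2 : Tendsto (fun i => S.star (S.pw T (2 * i + 1))) atTop (𝓝 (S.star P)) :=
      (S.continuous_star.tendsto P).comp hE
    simp only [S.star_pw hT] at h2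
    exact tendsto_nhds_unique h2 hE
  · have h2 := S.tendsto_mul (tendsto_const_nhds (x := T))
      (S.tendsto_mul (tendsto_const_nhds (x := T)) hE)
    have h3 : (fun i => S.mul T (S.mul T (S.pw T (2 * i + 1)))) =
        fun i => S.pw T (2 * (i + 1) + 1) := by
      funext i
      rw [← S.pw_succ, ← S.pw_succ]
      congr 1
    rw [h3] at h2
    exact tendsto_nhds_unique h2 (hE.comp (tendsto_add_atTop_nat 1))
  · have h2 := S.tendsto_mul hE (tendsto_const_nhds (x := T))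
    have h3 := S.tendsto_mul (tendsto_const_nhds (x := T)) hE
    have h4 : (fun i => S.mul (S.pw T (2 * i + 1)) T) = fun i => S.mul T (S.pw T (2 * i + 1)) := by
      funext i
      exact S.pw_comm T _
    rw [h4] at h2
    exact tendsto_nhds_unique h2 h3
  · intro Q hQ
    have h2 := S.tendsto_mul (tendsto_const_nhds (x := Q)) hE
    have h3 : (fun i => S.mul Q (S.pw T (2 * i + 1))) = fun i => S.pw T (2 * i + 1) := by
      funext i
      rw [S.pw_succ, ← S.assoc, hQ]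
    rw [h3] at h2
    exact tendsto_nhds_unique h2 hE

theorem op_pos {K : E} (hK : S.star K = K) (h0 : K ≠ 0) : 0 < S.op K := by
  rcases (S.op_nonneg K).lt_or_eq with h | h
  · exact h
  · exfalso
    apply h0
    apply S.proper
    rw [hK]
    have := S.norm_mul_le_op K K
    rw [← h, MulZeroClass.zero_mul] at this
    exact norm_le_zero_iff.1 this

/-- half of the top projection -/
theorem half_proj {T P : E} (hT : S.star T = T) (hP : S.mul P P = P) (hPs : S.star P = P)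
    (hTT : S.mul T (S.mul T P) = P) (hc : S.mul P T = S.mul T P) (e : ℝ) (he : e * e = 1) :
    S.mul ((1 / 2 : ℂ) • (P + (e : ℂ) • S.mul T P)) ((1 / 2 : ℂ) • (P + (e : ℂ) • S.mul T P)) =
      (1 / 2 : ℂ) • (P + (e : ℂ) • S.mul T P) ∧
    S.star ((1 / 2 : ℂ) • (P + (e : ℂ) • S.mul T P)) = (1 / 2 : ℂ) • (P + (e : ℂ) • S.mul T P) ∧
    S.mul T ((1 / 2 : ℂ) • (P + (e : ℂ) • S.mul T P)) =
      (e : ℂ) • ((1 / 2 : ℂ) • (P + (e : ℂ) • S.mul T P)) := by
  have hec : (e : ℂ) * e = 1 := by exact_mod_cast he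
  have h1 : S.mul P (S.mul T P) = S.mul T P := by rw [← S.assoc, hc, S.assoc, hP]
  have h2 : S.mul (S.mul T P) P = S.mul T P := by rw [S.assoc, hP]
  have h3 : S.mul (S.mul T P) (S.mul T P) = P := by
    rw [S.assoc, h1, hTT]
  refine ⟨?_, ?_, ?_⟩
  · simp only [S.smul_mul, S.mul_smul, S.add_mul, S.mul_add, hP, h1, h2, h3, smul_add, smul_smul]
    match_scalars
    · linear_combination (1 / 4 : ℂ) * hec
    · ring
  · have hh : (starRingEnd ℂ) (1 / 2 : ℂ) = 1 / 2 := by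
      rw [map_div₀, map_one, Complex.conj_ofNat]
    rw [S.star_smul, S.star_add, S.star_smul, S.star_mul, hPs, hT, hc, Complex.conj_ofReal, hh]
  · rw [S.mul_smul, S.mul_add, S.mul_smul, hTT, smul_comm, smul_add (e : ℂ), smul_smul (e : ℂ), hec,
      one_smul, add_comm]

/-- the top eigenprojection of a self-adjoint element -/
theorem exists_top [CompleteSpace E] {a : E} (hs : S.star a = a) (h0 : a ≠ 0) :
    ∃ (P : E) (c : ℝ), S.Proj P ∧ c ≠ 0 ∧ |c| = S.op a ∧ S.mul a P = (c : ℂ) • P ∧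
      S.mul P a = (c : ℂ) • P ∧ ∀ Q, S.mul Q a = a → S.mul Q P = P := by
  have hl := S.op_pos hs h0
  set l := S.op a with hldef
  set T : E := ((l⁻¹ : ℝ) : ℂ) • a with hTdef
  have hlc : (l : ℂ) ≠ 0 := by exact_mod_cast hl.ne'
  have hKT : a = (l : ℂ) • T := by
    rw [hTdef, smul_smul]
    push_cast
    rw [mul_inv_cancel₀ hlc, one_smul]
  have hT : S.star T = T := by
    rw [hTdef, S.star_smul, hs, Complex.conj_ofReal]
  have h1 : S.op T = 1 := by
    rw [hTdef, S.op_smul, Complex.norm_real, Real.norm_of_nonneg (by positivity), ← hldef]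
    field_simp
  obtain ⟨P0, hP0, hTT, hcomm, hQ⟩ := S.top_aux hT h1
  -- one of the two halves is nonzero
  have hex : ∃ e : ℝ, e * e = 1 ∧ (1 / 2 : ℂ) • (P0 + (e : ℂ) • S.mul T P0) ≠ 0 := by
    by_contra hcon
    push Not at hcon
    have ha := hcon 1 (by norm_num)
    have hb := hcon (-1) (by norm_num)
    have : P0 = 0 := by
      have hsum : P0 = (1 / 2 : ℂ) • (P0 + ((1 : ℝ) : ℂ) • S.mul T P0) +
          (1 / 2 : ℂ) • (P0 + ((-1 : ℝ) : ℂ) • S.mul T P0) := by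
        push_cast
        match_scalars
        · norm_num
        · norm_num
      rw [ha, hb, add_zero] at hsum
      exact hsum
    exact hP0.ne this
  obtain ⟨e, he, hne⟩ := hex
  obtain ⟨g1, g2, g3⟩ := S.half_proj hT hP0.idem hP0.star hTT hcomm e he
  set P : E := (1 / 2 : ℂ) • (P0 + (e : ℂ) • S.mul T P0) with hPdef
  have g4 : S.mul P T = (e : ℂ) • P := by
    have := congrArg S.star g3
    rw [S.star_mul, hT, g2, S.star_smul, g2, Complex.conj_ofReal] at this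
    exact this
  have habs : |e| = 1 := by
    have : |e| * |e| = 1 := by rw [← abs_mul, he, abs_one]
    nlinarith [abs_nonneg e]
  have he0 : e ≠ 0 := by
    rintro rfl
    simp at he
  refine ⟨P, l * e, ⟨hne, g1, g2⟩, mul_ne_zero hl.ne' he0, ?_, ?_, ?_, ?_⟩
  · rw [abs_mul, habs, mul_one, abs_of_pos hl]
  · rw [hKT, S.smul_mul, g3, smul_smul]
    push_cast
    rfl
  · rw [hKT, S.mul_smul, g4, smul_smul]
    push_cast
    rfl
  · intro Q hQa
    have hQT : S.mul Q T = T := by rw [hTdef, S.mul_smul, hQa]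
    have hQP0 := hQ Q hQT
    rw [hPdef, S.mul_smul, S.mul_add, S.mul_smul, hQP0]
    have : S.mul Q (S.mul T P0) = S.mul T P0 := by rw [← S.assoc, hQT]
    rw [this]

/-! ### (H1), order of projections -/

theorem one_le_of_idem {P : E} (h : S.mul P P = P) (h0 : P ≠ 0) : 1 ≤ ‖P‖ := by
  have h1 := S.norm_mul P P
  rw [h] at h1
  have h2 : 0 < ‖P‖ := norm_pos_iff.2 h0
  nlinarith

theorem norm_sq_split {P K : E} (hP : S.Proj P) :
    ‖K‖ ^ 2 = ‖S.mul K P‖ ^ 2 + ‖K - S.mul K P‖ ^ 2 := by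
  have h1 : ⟪S.mul K P, K - S.mul K P⟫_ℂ = 0 := by
    rw [inner_sub_right, S.inner_right K P K, S.inner_right K P (S.mul K P), hP.star, S.assoc,
      hP.idem, sub_self]
  have h2 := @norm_add_sq ℂ E _ _ _ (S.mul K P) (K - S.mul K P)
  rw [h1] at h2
  have h3 : S.mul K P + (K - S.mul K P) = K := by abel
  rw [h3] at h2
  simpa using h2

theorem le_right {P Q : E} (hP : S.star P = P) (hQ : S.star Q = Q) (h : S.mul P Q = Q) :
    S.mul Q P = Q := by
  have := congrArg S.star h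
  rwa [S.star_mul, hP, hQ] at this

theorem sub_idem {P Q : E} (hP : S.Proj P) (hQ : S.Proj Q) (h : S.mul P Q = Q) :
    S.mul (P - Q) (P - Q) = P - Q := by
  have h' := S.le_right hP.star hQ.star h
  rw [S.sub_mul, S.mul_sub, S.mul_sub, hP.idem, hQ.idem, h, h']
  abel

theorem norm_sq_sub {P Q : E} (hQ : S.Proj Q) (h : S.mul P Q = Q) :
    ‖P‖ ^ 2 = ‖Q‖ ^ 2 + ‖P - Q‖ ^ 2 := by
  have := S.norm_sq_split (K := P) hQ
  rwa [h] at this

/-- order-minimal projection -/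
structure OMin (P : E) : Prop extends S.Proj P where
  omin : ∀ Q, S.Proj Q → S.mul P Q = Q → Q = P

theorem exists_omin {P : E} (hP : S.Proj P) : ∃ Q, S.OMin Q ∧ S.mul P Q = Q := by
  have key : ∀ n : ℕ, ∀ P : E, S.Proj P → ‖P‖ ^ 2 ≤ n → ∃ Q, S.OMin Q ∧ S.mul P Q = Q := by
    intro n
    induction n with
    | zero =>
      intro P hP hn
      have h1 := S.one_le_of_idem hP.idem hP.ne
      simp only [Nat.cast_zero] at hn
      nlinarith
    | succ n ih =>
      intro P hP hn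
      by_cases hm : ∀ Q, S.Proj Q → S.mul P Q = Q → Q = P
      · exact ⟨P, ⟨hP, hm⟩, hP.idem⟩
      · push Not at hm
        obtain ⟨Q, hQ, hPQ, hQP⟩ := hm
        have h1 := S.norm_sq_sub hQ hPQ
        have h2 : P - Q ≠ 0 := sub_ne_zero.2 (Ne.symm hQP)
        have h3 := S.one_le_of_idem (S.sub_idem hP hQ hPQ) h2
        have h4 : ‖Q‖ ^ 2 ≤ n := by
          push_cast at hn
          nlinarith
        obtain ⟨F, hF, hQF⟩ := ih Q hQ h4
        refine ⟨F, hF, ?_⟩
        rw [← hQF, ← S.assoc, hPQ]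
  obtain ⟨n, hn⟩ := exists_nat_ge (‖P‖ ^ 2)
  exact key n P hP hn

theorem OMin.sa [CompleteSpace E] {P : E} (hP : S.OMin P) {y : E} (hy : S.star y = y)
    (hPy : S.mul P y = y) : ∃ z : ℂ, y = z • P := by
  rcases eq_or_ne y 0 with rfl | h0
  · exact ⟨0, by simp⟩
  obtain ⟨Q, c, hQ, hc, hc1, hyQ, hQy, hmin⟩ := S.exists_top hy h0
  have hQP := hP.omin Q hQ (hmin P hPy)
  refine ⟨c, ?_⟩
  rw [hQP] at hQy
  rw [← hQy, hPy]

theorem OMin.schur [CompleteSpace E] {P : E} (hP : S.OMin P) (x : E) :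
    ∃ z : ℂ, S.mul (S.mul P x) P = z • P := by
  set y := S.mul (S.mul P x) P with hy
  have hPy : S.mul P y = y := by rw [hy, ← S.assoc, ← S.assoc, hP.idem]
  have hyP : S.mul y P = y := by rw [hy, S.assoc, hP.idem]
  have hPys : S.mul P (S.star y) = S.star y := by
    have := congrArg S.star hyP
    rwa [S.star_mul, hP.star] at this
  obtain ⟨z1, hz1⟩ := OMin.sa S hP (y := y + S.star y)
    (by rw [S.star_add, S.star_star, add_comm]) (by rw [S.mul_add, hPy, hPys])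
  obtain ⟨z2, hz2⟩ := OMin.sa S hP (y := Complex.I • (y - S.star y))
    (by rw [S.star_smul, S.star_sub, S.star_star, Complex.conj_I, neg_smul, ← smul_neg, neg_sub])
    (by rw [S.mul_smul, S.mul_sub, hPy, hPys])
  refine ⟨(1 / 2) * z1 - (Complex.I / 2) * z2, ?_⟩
  have e : y = (1 / 2 : ℂ) • (y + S.star y) - (Complex.I / 2) • (Complex.I • (y - S.star y)) := by
    match_scalars
    · linear_combination (1 / 2 : ℂ) * Complex.I_mul_I
    · linear_combination (-(1 / 2) : ℂ) * Complex.I_mul_I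
  rw [e, hz1, hz2, smul_smul, smul_smul, sub_smul]

/-- restriction to a closed subalgebra -/
noncomputable def restr {A : Submodule ℂ E} (hA : S.Sub A) : HStar A where
  mul := LinearMap.mk₂ ℂ (fun a b => ⟨S.mul a b, hA.mul a a.2 b b.2⟩)
    (fun a b c => Subtype.ext (by simp))
    (fun z a b => Subtype.ext (by simp))
    (fun a b c => Subtype.ext (by simp))
    (fun z a b => Subtype.ext (by simp))
  star a := ⟨S.star a, hA.star a a.2⟩
  star_add a b := Subtype.ext (S.star_add _ _)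
  star_smul z a := Subtype.ext (S.star_smul _ _)
  star_star a := Subtype.ext (S.star_star _)
  star_mul a b := Subtype.ext (S.star_mul _ _)
  assoc a b c := Subtype.ext (S.assoc _ _ _)
  norm_mul a b := S.norm_mul _ _
  norm_star a := S.norm_star _
  inner_mul a b c := S.inner_mul _ _ _
  proper a h := Subtype.ext (S.proper _ (congrArg Subtype.val h))

end HStar

variable [CompleteSpace E]

omit [CompleteSpace E] in
theorem HStar.Proj.restr {S : HStar E} {A : Submodule ℂ E} (hA : S.Sub A) {P : A}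
    (h : (S.restr hA).Proj P) : S.Proj (P : E) :=
  ⟨fun h0 => h.ne (Subtype.ext h0), congrArg Subtype.val h.idem, congrArg Subtype.val h.star⟩

theorem HStar.OMin.min {S : HStar E} {A : Submodule ℂ E} (hA : S.Sub A) {P : A}
    (h : (S.restr hA).OMin P) : S.Min A (P : E) := by
  have : CompleteSpace A := hA.closed.completeSpace_coe
  refine ⟨HStar.Proj.restr hA h.toProj, P.2, ?_⟩
  intro x hx
  obtain ⟨z, hz⟩ := HStar.OMin.schur (S.restr hA) h ⟨x, hx⟩
  exact ⟨z, congrArg Subtype.val hz⟩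

omit [CompleteSpace E] in
/-- the norm of a projection is `≥ 1` -/
theorem HStar.Proj.one_le {S : HStar E} {P : E} (h : S.Proj P) : 1 ≤ ‖P‖ :=
  S.one_le_of_idem h.idem h.ne

/-- **H2, H3**: a self-adjoint element `a ≠ 0` of a closed `*`-subalgebra `A` has an eigenvalue `c` with
`|c| = ‖b ↦ a b‖` and a minimal projection `P` with `a P = c P` -/
theorem HStar.spectral (S : HStar E) {A : Submodule ℂ E} (hA : S.Sub A) {a : E} (ha : a ∈ A) (hs : S.star a = a)
    (h0 : a ≠ 0) : ∃ (P : E) (c : ℝ), S.Min A P ∧ c ≠ 0 ∧ S.mul a P = (c : ℂ) • P ∧ S.mul P a = (c : ℂ) • P ∧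
      (∀ b ∈ A, ‖S.mul a b‖ ≤ |c| * ‖b‖) := by
  have : CompleteSpace A := hA.closed.completeSpace_coe
  set a' : A := ⟨a, ha⟩ with ha'
  obtain ⟨P, c, hP, hc, hc1, h1, h2, -⟩ := (S.restr hA).exists_top (a := a') (Subtype.ext hs)
    (fun h => h0 (congrArg Subtype.val h))
  obtain ⟨Q, hQ, hPQ⟩ := (S.restr hA).exists_omin hP
  have hQP := (S.restr hA).le_right hP.star hQ.star hPQ
  refine ⟨Q, c, HStar.OMin.min hA hQ, hc, ?_, ?_, ?_⟩
  · have : (S.restr hA).mul a' Q = (c : ℂ) • Q := by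
      rw [← hPQ, ← (S.restr hA).assoc, h1, (S.restr hA).smul_mul]
    exact congrArg Subtype.val this
  · have : (S.restr hA).mul Q a' = (c : ℂ) • Q := by
      rw [← hQP, (S.restr hA).assoc, h2, (S.restr hA).mul_smul]
    exact congrArg Subtype.val this
  · intro b hb
    have := (S.restr hA).norm_mul_le_op a' ⟨b, hb⟩
    rw [← hc1] at this
    exact this

omit [CompleteSpace E] in
/-- **H4**: `P`, `e` minimal projections (of possibly different subalgebras) with `P e P = c P`, `e P e = c' e`,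
`c ≠ 0`: the same norm -/
theorem HStar.equiv (S : HStar E) {P e : E} (hP : S.Proj P) (he : S.Proj e) {c c' : ℂ} (hc : c ≠ 0)
    (h1 : S.mul (S.mul P e) P = c • P) (h2 : S.mul (S.mul e P) e = c' • e) : ‖P‖ = ‖e‖ := by
  have h3 : c • S.mul P e = c' • S.mul P e := by
    have e1 : S.mul (S.mul (S.mul P e) P) e = c • S.mul P e := by rw [h1, S.smul_mul]
    have e2 : S.mul (S.mul (S.mul P e) P) e = c' • S.mul P e := by
      rw [S.assoc (S.mul P e) P e, S.assoc P e (S.mul P e), ← S.assoc e P e, h2, S.mul_smul]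
    rw [← e1, e2]
  have h4 : S.mul P e ≠ 0 := by
    intro h
    rw [h, S.zero_mul] at h1
    rcases smul_eq_zero.1 h1.symm with h | h
    · exact hc h
    · exact hP.ne h
  have h5 : c = c' := by
    rw [← sub_eq_zero, ← sub_smul] at h3
    rcases smul_eq_zero.1 h3 with h | h
    · exact sub_eq_zero.1 h
    · exact absurd h h4
  have h6 : ⟪P, e⟫_ℂ = c * (‖P‖ ^ 2 : ℝ) := by
    have a1 : ⟪P, S.mul (S.mul P e) P⟫_ℂ = ⟪P, e⟫_ℂ := by
      have b1 := S.inner_right P P (S.mul P e)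
      rw [hP.star, hP.idem] at b1
      rw [← b1]
      have b2 := S.inner_mul P P e
      rw [hP.star, hP.idem] at b2
      exact b2.symm
    rw [← a1, h1, inner_smul_right, inner_self_eq_norm_sq_to_K]
    norm_cast
  have h7 : ⟪e, P⟫_ℂ = c' * (‖e‖ ^ 2 : ℝ) := by
    have a1 : ⟪e, S.mul (S.mul e P) e⟫_ℂ = ⟪e, P⟫_ℂ := by
      have b1 := S.inner_right e e (S.mul e P)
      rw [he.star, he.idem] at b1
      rw [← b1]
      have b2 := S.inner_mul e e P
      rw [he.star, he.idem] at b2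
      exact b2.symm
    rw [← a1, h2, inner_smul_right, inner_self_eq_norm_sq_to_K]
    norm_cast
  have h8 : ‖c‖ * ‖P‖ ^ 2 = ‖c‖ * ‖e‖ ^ 2 := by
    have a1 : ‖⟪P, e⟫_ℂ‖ = ‖⟪e, P⟫_ℂ‖ := norm_inner_symm _ _
    rw [h6, h7, ← h5, _root_.norm_mul, _root_.norm_mul, Complex.norm_real, Complex.norm_real,
      Real.norm_of_nonneg (by positivity), Real.norm_of_nonneg (by positivity)] at a1
    exact a1
  have h9 : 0 < ‖c‖ := norm_pos_iff.2 hc
  have h10 : ‖P‖ ^ 2 = ‖e‖ ^ 2 := mul_left_cancel₀ h9.ne' h8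
  exact (sq_eq_sq₀ (norm_nonneg _) (norm_nonneg _)).1 h10

omit [CompleteSpace E] in
/-- **H5**: for projections `P e P = 0` iff `P e = 0` iff `P`, `e` are orthogonal vectors -/
theorem HStar.orth_iff (S : HStar E) {P e : E} (hP : S.Proj P) (he : S.Proj e) :
    ⟪P, e⟫_ℂ = 0 ↔ S.mul P e = 0 := by
  have h1 : ⟪S.mul P e, S.mul P e⟫_ℂ = ⟪e, P⟫_ℂ := by
    rw [S.inner_mul, hP.star, ← S.assoc, hP.idem]
    have := S.inner_right e e P
    rw [he.star, he.idem] at this
    exact this.symm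
  constructor
  · intro h
    have h2 : ⟪e, P⟫_ℂ = 0 := inner_eq_zero_symm.1 h
    rw [h2] at h1
    exact inner_self_eq_zero.1 h1
  · intro h
    rw [h, inner_zero_left] at h1
    exact inner_eq_zero_symm.1 h1.symm

omit [CompleteSpace E] in
/-- **H6**: `P x P = z P` with `z ‖P‖² = ⟪P, x⟫` -/
theorem HStar.coef (S : HStar E) {P x : E} (hP : S.Proj P) {z : ℂ} (h : S.mul (S.mul P x) P = z • P) :
    z * (‖P‖ ^ 2 : ℝ) = ⟪P, x⟫_ℂ := by
  have a1 : ⟪P, S.mul (S.mul P x) P⟫_ℂ = ⟪P, x⟫_ℂ := by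
    have b1 := S.inner_right P P (S.mul P x)
    rw [hP.star, hP.idem] at b1
    rw [← b1]
    have b2 := S.inner_mul P P x
    rw [hP.star, hP.idem] at b2
    exact b2.symm
  rw [← a1, h, inner_smul_right, inner_self_eq_norm_sq_to_K]
  norm_cast

/-- **H7**: a projection of norm `< √2` in a closed `*`-subalgebra `A` is minimal in `A` -/
theorem HStar.min_of_lt (S : HStar E) {A : Submodule ℂ E} (hA : S.Sub A) {P : E} (hP : S.Proj P) (hm : P ∈ A)
    (h : ‖P‖ ^ 2 < 2) : S.Min A P := by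
  have hP' : (S.restr hA).Proj (⟨P, hm⟩ : A) :=
    ⟨fun h0 => hP.ne (congrArg Subtype.val h0), Subtype.ext hP.idem, Subtype.ext hP.star⟩
  obtain ⟨Q, hQ, hPQ⟩ := (S.restr hA).exists_omin hP'
  have h1 := (S.restr hA).norm_sq_sub hQ.toProj hPQ
  have h2 : (⟨P, hm⟩ : A) = Q := by
    by_contra hne
    have h3 := (S.restr hA).one_le_of_idem ((S.restr hA).sub_idem hP' hQ.toProj hPQ)
      (sub_ne_zero.2 hne)
    have h4 := (S.restr hA).one_le_of_idem hQ.idem hQ.ne
    have h5 : ‖(⟨P, hm⟩ : A)‖ ^ 2 = ‖P‖ ^ 2 := rfl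
    rw [h5] at h1
    nlinarith
  have := HStar.OMin.min hA hQ
  rw [← h2] at this
  exact this

end

end Pool.Agent.Lib.MP_9fe581_an.AP
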