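import Pool.Agent.Lib.MP_9fe581_an.AP.C5
import Pool.Agent.Lib.MP_9fe581_an.AP.C6
import Pool.Agent.Lib.MP_9fe581_an.AP.F3
import Pool.Agent.Lib.MP_9fe581_an.AP.HSpec

/-! # AP, C7: the core lemma -/

set_option autoImplicit false

open Finset MeasureTheory Filter Topology ProbabilityTheory
open scoped ComplexConjugate ENNReal InnerProductSpace

namespace Pool.Agent.Lib.MP_9fe581_an.AP

variable {X : Type} [MeasurableSpace X] {μ : Measure X} [IsProbabilityMeasure μ] {S : X → X} {D : SA X}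
  {κ : Kernel X X} [IsMarkovKernel κ]

/-- **C7, the core lemma.** -/
theorem core_min (c : Ctx μ S D κ) {e : X → ℂ} {Y : SA X} (hY : Em μ S D Y e) {Q : ℝ} (hQ : MinP c Y Q) {N : ℕ}
    (hN : TorP S D Y N) {P : Bv c} (hP : (hst c).Min (Ak c e Y) P) (h1 : ‖P‖ ^ 4 < Q) (h2 : ‖P‖ ^ 4 < N) :
    ∃ v : X → ℂ, Cls S D v ∧ (Measurable[Y.m] fun x => conj (e x) * v x) ∧ fn P =ᵐ[μ ⊗ₘ κ] rc v v := by
  have hsq := sq_const c hY hQ hN hP h1 h2
  have hn : 0 < ‖P‖ := norm_pos_iff.2 hP.ne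
  have ht : 0 < ‖P‖ ^ 2 := by positivity
  have hall : ∀ᵐ x ∂μ, ‖P‖ ^ 2 = 1 ∧ ∀ᵐ w ∂((κ x).prod ((κ x).prod (κ x))),
      fn P (w.1, w.2.1) * fn P (w.2.1, w.2.2) = fn P (w.1, w.2.2) := by
    filter_upwards [proj_fib c hP.toProj, c.fib.ae2 hsq] with x e1 e2
    exact e1.rank_one ht e2
  obtain ⟨x, hx⟩ := hall.exists
  refine cls_of_mul c hY hP.toProj hP.mem ?_ (hall.mono fun x hx => hx.2)
  filter_upwards [hsq] with z hz
  rw [hx.1] at hz
  have h3 := norm_nonneg (fn P z)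
  nlinarith

private theorem c7_uni {D : SA X} : Uni D fun _ => (1 : ℂ) := ⟨measurable_const, fun _ => norm_one⟩

private theorem c7_conj {F G : X × X → ℂ} {ρ : Measure (X × X)} :
    conj (∫ z, F z * conj (G z) ∂ρ) = ∫ z, G z * conj (F z) ∂ρ := by
  rw [← integral_conj]
  refine integral_congr_ae (Eventually.of_forall fun z => ?_)
  show conj (F z * conj (G z)) = G z * conj (F z)
  rw [map_mul, Complex.conj_conj, mul_comm]

/-- **C8.** the core lemma in terms of energies -/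
theorem core_energy (c : Ctx μ S D κ) {e : X → ℂ} {Y : SA X} (hY : Em μ S D Y e) {Q : ℝ} (hQ : MinP c Y Q) {N : ℕ}
    (hN : TorP S D Y N) {η : ℝ} (hη : 0 < η) (h1 : 1 / η ^ 2 < Q) (h2 : 1 / η ^ 2 < N) {f : X → ℂ} (hf : Bd f)
    (hfY : Measurable[Y.m] fun x => conj (e x) * f x) (hf1 : nsq μ f ≤ 1)
    (hv : ∀ v : X → ℂ, Cls S D v → (Measurable[Y.m] fun x => conj (e x) * v x) →
      nsq μ (ce μ D fun x => f x * conj (v x)) < η) :
    ∃ L ≤ η, Tendsto (energy μ S D f) atTop (𝓝 L) := by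
  obtain ⟨K, hK1, hK2, hK3, hK4⟩ := exists_energy c hf
  refine ⟨‖K‖ ^ 2, ?_, hK4⟩
  by_contra hlt
  rw [not_le] at hlt
  have hK0 : K ≠ 0 := by
    rintro rfl
    rw [norm_zero] at hlt
    norm_num at hlt
    linarith
  have hKn : 0 < ‖K‖ := norm_pos_iff.2 hK0
  have hKA : K ∈ Ak c e Y := hK2 e Y hY hfY
  obtain ⟨P, r, hP, hr, e1, e2, e3⟩ := (hst c).spectral (sub_Ak c hY) hKA hK3 hK0
  have mK : Measurable (fn K) := (fn_ker K).meas
  -- the pairing of `K` with itself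
  have hA : ((‖K‖ ^ 2 : ℝ) : ℂ) = ∫ x, act κ (fn K) f x * conj (f x) ∂μ := by
    have e0 : ⟪K, K⟫_ℂ = ((‖K‖ ^ 2 : ℝ) : ℂ) := by
      have e00 := inner_self_eq_norm_sq_to_K (𝕜 := ℂ) K
      rw [e00]
      push_cast
      rfl
    rw [← pair_act c c7_uni (fn_ker K) hf hf, ← c7_conj, ← hK1 K, e0, Complex.conj_ofReal]
  have hnf : ∫ x, ‖conj (f x)‖ ^ 2 ∂μ = nsq μ f := by
    unfold nsq
    refine integral_congr_ae (Eventually.of_forall fun x => ?_)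
    show ‖conj (f x)‖ ^ 2 = ‖f x‖ ^ 2
    rw [RCLike.norm_conj]
  have hfi : Integrable (fun x => ‖conj (f x)‖ ^ 2) μ := by
    obtain ⟨C, hC⟩ := hf.bdd
    refine Integrable.of_bound ((Complex.continuous_conj.measurable.comp hf.meas).norm.pow_const 2).aestronglyMeasurable
      (C ^ 2) (Eventually.of_forall fun x => ?_)
    rw [Real.norm_of_nonneg (by positivity), RCLike.norm_conj]
    exact pow_le_pow_left₀ (norm_nonneg _) (hC x) 2
  have hB : ‖K‖ ^ 2 ≤ Real.sqrt (nsq μ (act κ (fn K) f)) := by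
    have e4 : ‖K‖ ^ 2 = ‖∫ x, act κ (fn K) f x * conj (f x) ∂μ‖ := by
      rw [← hA, Complex.norm_real, Real.norm_of_nonneg (by positivity)]
    rw [e4]
    refine (k3_cs (measurable_act mK hf.meas) (Complex.continuous_conj.measurable.comp hf.meas)
      ((memLp_two_iff_integrable_sq_norm (measurable_act mK hf.meas).aestronglyMeasurable).1
        (act_l2 c c7_uni (fn_ker K) hf)) hfi).trans ?_
    have e10 : ∫ y, ‖(⇑(starRingEnd ℂ) ∘ f) y‖ ^ 2 ∂μ = nsq μ f := hnf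
    rw [e10]
    refine (mul_le_mul_of_nonneg_left (Real.sqrt_le_one.2 hf1) (Real.sqrt_nonneg _)).trans (le_of_eq ?_)
    rw [mul_one]
    rfl
  have hB2 : (‖K‖ ^ 2) ^ 2 ≤ nsq μ (act κ (fn K) f) := by
    have e5 : 0 ≤ nsq μ (act κ (fn K) f) := integral_nonneg fun _ => by positivity
    calc (‖K‖ ^ 2) ^ 2 ≤ Real.sqrt (nsq μ (act κ (fn K) f)) ^ 2 := pow_le_pow_left₀ (by positivity) hB 2
      _ = _ := Real.sq_sqrt e5
  have hC : nsq μ (act κ (fn K) f) ≤ |r| * ‖K‖ * ‖K‖ := by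
    have e6 : comp κ (st (fn K)) (fn K) =ᵐ[μ ⊗ₘ κ] fn ((hst c).mul K K) := by
      have e7 : st (fn K) =ᵐ[μ ⊗ₘ κ] fn K := by
        have := fn_star K
        rw [hK3] at this
        exact this.symm
      exact (comp_congr c (k4_mst mK) mK mK mK e7 (ae_eq_refl _)).trans (fn_mul K K).symm
    have e8 : ((nsq μ (act κ (fn K) f) : ℝ) : ℂ) = conj ⟪(hst c).mul K K, K⟫_ℂ := by
      rw [act_sq c c7_uni (fn_ker K) hf, hK1, c7_conj]
      exact integral_congr_ae (e6.mono fun z hz => by show _ * _ = _ * _; rw [hz])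
    have e9 : nsq μ (act κ (fn K) f) = ‖⟪(hst c).mul K K, K⟫_ℂ‖ := by
      have e11 : 0 ≤ nsq μ (act κ (fn K) f) := integral_nonneg fun _ => by positivity
      rw [← RCLike.norm_conj, ← e8, Complex.norm_real, Real.norm_of_nonneg e11]
    rw [e9]
    exact (norm_inner_le_norm _ _).trans (mul_le_mul_of_nonneg_right (e3 K hKA) (norm_nonneg _))
  have hD : ‖K‖ ^ 2 ≤ |r| := by
    have : (‖K‖ ^ 2) * ‖K‖ ^ 2 ≤ |r| * ‖K‖ ^ 2 := by nlinarith
    exact le_of_mul_le_mul_right this (by positivity)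
  -- the pairing of `P` with `K`
  have hE : ⟪P, K⟫_ℂ = ((r * ‖P‖ ^ 2 : ℝ) : ℂ) := by
    rw [← congrArg (fun x => ⟪x, K⟫_ℂ) hP.idem, (hst c).inner_mul, hP.star, e2, inner_smul_right, inner_self_eq_norm_sq_to_K]
    push_cast
    rfl
  obtain ⟨g1, g2⟩ := proj_act c hP.toProj hf
  have hF : r * ‖P‖ ^ 2 = nsq μ (act κ (fn P) f) := by
    have : ((r * ‖P‖ ^ 2 : ℝ) : ℂ) = ((nsq μ (act κ (fn P) f) : ℝ) : ℂ) := by rw [← hE, hK1 P, g1]
    exact_mod_cast this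
  have hP1 : 1 ≤ ‖P‖ := hP.toProj.one_le
  have hs0 : 0 ≤ nsq μ (act κ (fn P) f) := integral_nonneg fun _ => by positivity
  have hr0 : 0 < r := by
    rcases lt_or_gt_of_ne hr with h | h
    · exfalso
      have : 1 ≤ ‖P‖ ^ 2 := one_le_pow₀ hP1
      nlinarith
    · exact h
  rw [abs_of_pos hr0] at hD
  have hrη : η < r := hlt.trans_le hD
  have hPP : ‖P‖ ^ 2 ≤ 1 / η := by
    rw [le_div_iff₀ hη]
    nlinarith [sq_nonneg ‖P‖]
  have hP4 : ‖P‖ ^ 4 ≤ 1 / η ^ 2 := by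
    calc ‖P‖ ^ 4 = (‖P‖ ^ 2) ^ 2 := by ring
      _ ≤ (1 / η) ^ 2 := pow_le_pow_left₀ (by positivity) hPP 2
      _ = 1 / η ^ 2 := by rw [div_pow, one_pow]
  obtain ⟨v, v1, v2, v3⟩ := core_min c hY hQ hN hP (hP4.trans_lt h1) (hP4.trans_lt h2)
  have h5 := hv v v1 v2
  rw [← cls_act c v1.meas v1.norm v3 hf, ← hF] at h5
  have : 1 ≤ ‖P‖ ^ 2 := one_le_pow₀ hP1
  nlinarith

end Pool.Agent.Lib.MP_9fe581_an.AP
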