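import Pool.Agent.Lib.MP_9fe581_an.AP.B5
import Pool.Agent.Lib.MP_9fe581_an.AP.C7
import Pool.Agent.Lib.MP_9fe581_an.AP.HSpec

/-! # AP, B6: the minimal projections at the next level -/

set_option autoImplicit false

open Finset MeasureTheory Filter Topology ProbabilityTheory
open scoped ComplexConjugate ENNReal InnerProductSpace

namespace Pool.Agent.Lib.MP_9fe581_an.AP

variable {X : Type} [MeasurableSpace X] {μ : Measure X} [IsProbabilityMeasure μ] {S : X → X} {D D' Y Y' : SA X}
  {SS EE : Set (X → ℂ)} {κ κ' : Kernel X X} [IsMarkovKernel κ] [IsMarkovKernel κ']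

/-- the projections at the base level are classes or large -/
def Big (c : Ctx μ S D κ) (Y : SA X) (EE : Set (X → ℂ)) (Q : ℝ) : Prop :=
  ∀ e ∈ EE, ∀ p : Bv c, (hst c).Min (Ak c e Y) p →
    (∃ v : X → ℂ, Cls S D v ∧ (Measurable[Y.m] fun x => conj (e x) * v x) ∧ fn p =ᵐ[μ ⊗ₘ κ] rc v v) ∨ Q ≤ ‖p‖ ^ 2

/-! ### auxiliary facts -/

theorem b6_prod_mono {A B : SA X} (h : A.m ≤ B.m) : A.m.prod A.m ≤ B.m.prod B.m :=
  sup_le_sup (MeasurableSpace.comap_mono h) (MeasurableSpace.comap_mono h)

theorem b6_em1 (b : BD μ S D D' Y Y' SS EE) : Em μ S D' Y' (fun _ => 1) :=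
  ⟨b.fY', b.DY', measurable_const, fun _ => by simp, by
    have : (fun x : X => (1 : ℂ) * conj (1 : ℂ)) = fun _ => 1 := by funext x; simp
    rw [this]
    exact measurable_const⟩

theorem b6_bd_mul {f g : X → ℂ} (hf : Bd f) (hg : Bd g) : Bd fun x => f x * g x := by
  obtain ⟨C, hC⟩ := hf.bdd
  obtain ⟨C', hC'⟩ := hg.bdd
  refine ⟨hf.meas.mul hg.meas, C * C', fun x => ?_⟩
  rw [norm_mul]
  exact mul_le_mul (hC x) (hC' x) (norm_nonneg _) ((norm_nonneg _).trans (hC x))

theorem b6_bd_conj {f : X → ℂ} (hf : Bd f) : Bd fun x => conj (f x) := by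
  obtain ⟨C, hC⟩ := hf.bdd
  exact ⟨Complex.continuous_conj.measurable.comp hf.meas, C, fun x => by rw [RCLike.norm_conj]; exact hC x⟩

theorem b6_bd_uni {v : X → ℂ} (mv : Measurable v) (hv : ∀ x, ‖v x‖ = 1) : Bd v :=
  ⟨mv, 1, fun x => (hv x).le⟩

theorem b6_bd_int {f : X → ℂ} (hf : Bd f) : Integrable f μ := by
  obtain ⟨C, hC⟩ := hf.bdd
  exact Integrable.of_bound hf.meas.aestronglyMeasurable C (Eventually.of_forall hC)

theorem b6_uu {v : X → ℂ} (hv : ∀ x, ‖v x‖ = 1) (x : X) : v x * conj (v x) = 1 := by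
  rw [Complex.mul_conj, Complex.normSq_eq_norm_sq, hv x]
  simp

theorem b6_uni1 {D : SA X} : Uni D fun _ => 1 := ⟨measurable_const, fun _ => by simp⟩

/-- the pairing with the adjoint -/
theorem b6_st (c : Ctx μ S D κ) (M : Bv c) (a g : X → ℂ) :
    ∫ z, fn ((hst c).star M) z * conj (rc a g z) ∂(μ ⊗ₘ κ) =
      conj (∫ z, fn M z * conj (rc g a z) ∂(μ ⊗ₘ κ)) := by
  have h1 : ∫ z, fn ((hst c).star M) z * conj (rc a g z) ∂(μ ⊗ₘ κ) =
      ∫ z, st (fn M) z * conj (rc a g z) ∂(μ ⊗ₘ κ) := by
    refine integral_congr_ae ?_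
    filter_upwards [fn_star M] with z hz
    rw [hz]
  have h2 : ∫ z, st (fn M) z * conj (rc a g z) ∂(μ ⊗ₘ κ) =
      ∫ z, (fun w : X × X => conj (fn M w * conj (rc g a w))) (Prod.swap z) ∂(μ ⊗ₘ κ) := by
    refine integral_congr_ae (Eventually.of_forall fun z => ?_)
    show conj (fn M (z.2, z.1)) * conj (a z.1 * conj (g z.2)) =
      conj (fn M (z.2, z.1) * conj (g z.2 * conj (a z.1)))
    simp only [map_mul, Complex.conj_conj]
    ring
  have h3 := c.fib.swap.integral_comp (MeasurableEquiv.prodComm (α := X) (β := X)).measurableEmbedding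
    (fun w : X × X => conj (fn M w * conj (rc g a w)))
  rw [h1, h2, h3]
  exact integral_conj

theorem b6_symm (c : Ctx μ S D κ) {P : Bv c} (hP : (hst c).star P = P) (a g : X → ℂ) :
    ∫ z, fn P z * conj (rc a g z) ∂(μ ⊗ₘ κ) = conj (∫ z, fn P z * conj (rc g a z) ∂(μ ⊗ₘ κ)) := by
  have := b6_st c P a g
  rwa [hP] at this

/-- conditional expectation zero -/
theorem b6_ce_zero {Y : SA X} (hY : Y.m ≤ (inferInstance : MeasurableSpace X)) {f : X → ℂ} (hf : Bd f)
    (h : ∀ y : X → ℂ, Bd y → Measurable[Y.m] y → ∫ x, f x * conj (y x) ∂μ = 0) : ce μ Y f =ᵐ[μ] 0 := by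
  classical
  refine (ae_eq_condExp_of_forall_setIntegral_eq hY (b6_bd_int hf) (fun s _ _ => ?_) (fun s hs _ => ?_) ?_).symm
  · exact integrableOn_zero
  · have h1 : Measurable[Y.m] (s.indicator fun _ : X => (1 : ℂ)) := measurable_const.indicator hs
    have h2 : Bd (s.indicator fun _ : X => (1 : ℂ)) := by
      refine ⟨h1.mono hY le_rfl, 1, fun x => ?_⟩
      by_cases hx : x ∈ s
      · simp [hx]
      · simp [hx]
    have h3 := h _ h2 h1
    have h4 : ∫ x in s, f x ∂μ = 0 := by
      rw [← integral_indicator (hY s hs), ← h3]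
      refine integral_congr_ae (Eventually.of_forall fun x => ?_)
      by_cases hx : x ∈ s
      · simp [hx]
      · simp [hx]
    rw [h4]
    simp
  · exact aestronglyMeasurable_zero

/-- kernels of the form `e ⊗ conj e · (Y ⊗ Y)` are `Y' ⊗ Y'`-measurable if `e` is -/
theorem b6_pm_one {Y Y' : SA X} {ν : Measure (X × X)} (hYY : Y.m ≤ Y'.m) {e : X → ℂ} (me : Measurable[Y'.m] e)
    (he : ∀ x, ‖e x‖ = 1) {P : X × X → ℂ}
    (hP : AEStronglyMeasurable[Y.m.prod Y.m] (fun z => conj (e z.1) * P z * e z.2) ν) :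
    AEStronglyMeasurable[Y'.m.prod Y'.m] (fun z => conj (1 : ℂ) * P z * 1) ν := by
  have h1 : AEStronglyMeasurable[Y'.m.prod Y'.m] (fun z => conj (e z.1) * P z * e z.2) ν :=
    hP.mono (b6_prod_mono hYY)
  have m1 : Measurable[Y'.m.prod Y'.m] fun z : X × X => e z.1 :=
    me.comp (@measurable_fst X X Y'.m Y'.m)
  have m2 : Measurable[Y'.m.prod Y'.m] fun z : X × X => conj (e z.2) :=
    Complex.continuous_conj.measurable.comp (me.comp (@measurable_snd X X Y'.m Y'.m))
  have h2 : AEStronglyMeasurable[Y'.m.prod Y'.m]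
      (fun z => e z.1 * (conj (e z.1) * P z * e z.2) * conj (e z.2)) ν :=
    (m1.stronglyMeasurable.aestronglyMeasurable.mul h1).mul m2.stronglyMeasurable.aestronglyMeasurable
  refine h2.congr (Eventually.of_forall fun z => ?_)
  have e1 := b6_uu he z.1
  have e2 := b6_uu he z.2
  show e z.1 * (conj (e z.1) * P z * e z.2) * conj (e z.2) = conj (1 : ℂ) * P z * 1
  have : e z.1 * (conj (e z.1) * P z * e z.2) * conj (e z.2) =
      (e z.1 * conj (e z.1)) * P z * (e z.2 * conj (e z.2)) := by ring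
  rw [this, e1, e2, map_one]

/-- the action of a class kernel -/
theorem b6_act_rc (c : Ctx μ S D κ) {P : X × X → ℂ} {v : X → ℂ} (mv : Bd v) (hP : P =ᵐ[μ ⊗ₘ κ] rc v v)
    {f : X → ℂ} (hf : Bd f) :
    act κ P f =ᵐ[μ] fun x => v x * ce μ D (fun w => conj (v w) * f w) x := by
  have hint : Integrable (fun w => conj (v w) * f w) μ := b6_bd_int (b6_bd_mul (b6_bd_conj mv) hf)
  filter_upwards [Measure.ae_ae_of_ae_compProd hP, c.fib.cexp _ hint] with x h1 h2
  rw [h2, ← integral_const_mul]
  refine integral_congr_ae ?_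
  filter_upwards [h1] with y hy
  rw [hy]
  show v x * conj (v y) * f y = v x * (conj (v y) * f y)
  ring

/-- the action on functions with the same cocycle -/
theorem b6_equiv (c : Ctx μ S D κ) (P : Bv c) {v : X → ℂ} (hv : Cls S D v) :
    ∃ t : ℂ, act κ (fn P) v =ᵐ[μ] fun x => t * v x := by
  have hS := c.sys.erg.toMeasurePreserving
  have hPk := fn_ker P
  set w := act κ (fn P) v with hw
  have mw : Measurable w := measurable_act hPk.meas hv.meas
  have mr : Measurable fun x => v (S x) * conj (v x) := hv.ratio.mono c.fac.le le_rfl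
  have hr := (c.fib.meas _ mr).1 hv.ratio
  have h1 : ∀ᵐ x ∂μ, w (S x) = v (S x) * conj (v x) * w x := by
    filter_upwards [c.fib.shift, Measure.ae_ae_of_ae_compProd hPk.tw, hr] with x hx htw hrx
    show ∫ y, fn P (S x, y) * v y ∂κ (S x) = v (S x) * conj (v x) * ∫ y, fn P (x, y) * v y ∂κ x
    have hPm : Measurable fun y => fn P (S x, y) * v y := (hPk.meas.comp measurable_prodMk_left).mul hv.meas
    rw [← hx, integral_map hS.measurable.aemeasurable hPm.aestronglyMeasurable, ← integral_const_mul]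
    refine integral_congr_ae ?_
    filter_upwards [htw, hrx] with y hy hry
    have hy' : fn P (S x, S y) = 1 * fn P (x, y) := hy
    have e1 : v (S y) = v (S y) * conj (v y) * v y := by
      rw [mul_assoc, mul_comm (conj (v y)), b6_uu hv.norm, mul_one]
    show fn P (S x, S y) * v (S y) = v (S x) * conj (v x) * (fn P (x, y) * v y)
    rw [hy', e1, hry]
    ring
  have hinv : (fun x => w x * conj (v x)) ∘ S =ᵐ[μ] fun x => w x * conj (v x) := by
    filter_upwards [h1] with x hx
    show w (S x) * conj (v (S x)) = w x * conj (v x)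
    rw [hx]
    have e1 := b6_uu hv.norm (S x)
    calc v (S x) * conj (v x) * w x * conj (v (S x)) = (v (S x) * conj (v (S x))) * (w x * conj (v x)) := by ring
      _ = _ := by rw [e1, one_mul]
  have mwv : Measurable fun x => w x * conj (v x) := mw.mul (Complex.continuous_conj.measurable.comp hv.meas)
  obtain ⟨t, ht⟩ := c.sys.erg.ae_eq_const_of_ae_eq_comp_ae mwv.aestronglyMeasurable hinv
  refine ⟨t, ?_⟩
  filter_upwards [ht] with x hx
  have hx' : w x * conj (v x) = t := hx
  rw [← hx', mul_assoc, mul_comm (conj (v x)), b6_uu hv.norm, mul_one]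

/-- a projection that kills all `e L^∞(Y)` is zero -/
theorem b6_exists (b : BD μ S D D' Y Y' SS EE) (c' : Ctx μ S D' κ') {P : Bv c'}
    (hP : (hst c').Min (Ak c' (fun _ => 1) Y') P) : ∃ e ∈ EE, ∃ y : X → ℂ, Bd y ∧ Measurable[Y.m] y ∧
      ¬ act κ' (fn P) (fun x => e x * y x) =ᵐ[μ] 0 := by
  classical
  by_contra hcon
  push Not at hcon
  apply hP.ne
  have hPk := fn_ker P
  have h0 : fn P =ᵐ[μ ⊗ₘ κ'] 0 := by
    refine Pm_zero c' (b6_em1 b) hPk.meas hPk.l2 (mem_Ak.1 hP.mem) ?_
    intro f g hf hg mf mg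
    have hf1 : (fun x => (1 : ℂ) * f x) = f := by funext x; ring
    have hg1 : (fun x => (1 : ℂ) * g x) = g := by funext x; ring
    rw [hf1, hg1, pair_act c' b6_uni1 hPk hf hg]
    -- the function `u = P g`
    set u := act κ' (fn P) g with hu
    have mu : Measurable[Y'.m] u := by
      have := Pm_act c' (b6_em1 b) b6_uni1 hPk (mem_Ak.1 hP.mem) hg
      have e : (fun x => conj (1 : ℂ) * act κ' (fn P) g x) = u := by
        funext x
        rw [map_one, one_mul]
      rwa [e] at this
    obtain ⟨B, hB⟩ := k4_actb c' b6_uni1 hPk hg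
    have hBs : MeasurableSet[Y'.m] {x | ‖u x‖ ≤ B} := by
      have h1 : Measurable[Y'.m] fun x => ‖u x‖ := measurable_norm.comp mu
      exact h1 measurableSet_Iic
    set u' : X → ℂ := {x | ‖u x‖ ≤ B}.indicator u with hu'
    have mu' : Measurable[Y'.m] u' := mu.indicator hBs
    have hBd : Bd u' := by
      refine ⟨mu'.mono b.fY'.le le_rfl, max B 0, fun x => ?_⟩
      by_cases hx : ‖u x‖ ≤ B
      · rw [hu', Set.indicator_of_mem (show x ∈ {x | ‖u x‖ ≤ B} from hx)]
        exact hx.trans (le_max_left _ _)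
      · rw [hu', Set.indicator_of_notMem (show x ∉ {x | ‖u x‖ ≤ B} from hx), norm_zero]
        exact le_max_right _ _
    have huu : u' =ᵐ[μ] u := by
      filter_upwards [hB] with x hx
      rw [hu', Set.indicator_of_mem (show x ∈ {x | ‖u x‖ ≤ B} from hx)]
    have hz : u' =ᵐ[μ] 0 := by
      refine b.etot u' hBd mu' fun e he => ?_
      have hem := b.em he
      have hBe : Bd e := b6_bd_uni hem.meas hem.norm
      refine b6_ce_zero b.fY.le (b6_bd_mul hBd (b6_bd_conj hBe)) fun y hy my => ?_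
      have h1 : ∫ x, u' x * conj (e x) * conj (y x) ∂μ = ∫ x, act κ' (fn P) g x * conj (e x * y x) ∂μ := by
        refine integral_congr_ae ?_
        filter_upwards [huu] with x hx
        rw [hx, map_mul]
        show u x * conj (e x) * conj (y x) = u x * (conj (e x) * conj (y x))
        ring
      have hey : Bd fun x => e x * y x := b6_bd_mul hBe hy
      rw [h1, ← pair_act c' b6_uni1 hPk hey hg, b6_symm c' hP.star, pair_act c' b6_uni1 hPk hg hey]
      have h2 : ∫ x, act κ' (fn P) (fun x => e x * y x) x * conj (g x) ∂μ = 0 := by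
        rw [← integral_zero X ℂ (μ := μ)]
        refine integral_congr_ae ?_
        filter_upwards [hcon e he y hy my] with x hx
        rw [hx]
        simp
      rw [h2, map_zero]
    have h3 : ∫ x, u x * conj (f x) ∂μ = 0 := by
      rw [← integral_zero X ℂ (μ := μ)]
      refine integral_congr_ae ?_
      filter_upwards [hz, huu] with x hx hx'
      rw [← hx', hx]
      simp
    exact h3
  refine fn_ext (h0.trans ?_)
  have := fn_smul (0 : ℂ) (0 : Bv c')
  filter_upwards [this] with z hz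
  simpa using hz.symm

/-- **B6a.** a minimal projection over `D'` meets the extension of a minimal projection over `D` -/
theorem exists_meet (b : BD μ S D D' Y Y' SS EE) (c : Ctx μ S D κ) (c' : Ctx μ S D' κ') {P : Bv c'}
    (hP : (hst c').Min (Ak c' (fun _ => 1) Y') P) : ∃ e ∈ EE, ∃ (p : Bv c) (p' : Bv c'),
      (hst c).Min (Ak c e Y) p ∧ Shp Y e p p' ∧ ⟪p', P⟫_ℂ ≠ 0 ∧ ‖P‖ = ‖p‖ := by
  obtain ⟨e, he, y, hy, my, hne⟩ := b6_exists b c' hP
  have hem := b.em he
  have hBe : Bd e := b6_bd_uni hem.meas hem.norm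
  have hPk := fn_ker P
  -- compression
  obtain ⟨m, hm1, hm2, hm3⟩ := exists_cmp b c c' he b.one P
  have hm1' : Ker μ S κ (fun _ => 1) m := by
    have e1 : (fun x : X => conj ((fun _ : X => (1 : ℂ)) (S x) * conj ((fun _ : X => (1 : ℂ)) x))) =
        fun _ => 1 := by
      funext x
      simp
    rwa [e1] at hm1
  obtain ⟨M, hM⟩ := exists_fn c hm1'
  have hMA : M ∈ Ak c e Y := by
    refine mem_Ak.2 (hm2.congr ?_)
    filter_upwards [hM] with z hz
    rw [hz]
  have hMp : ∀ f g : X → ℂ, Bd f → Bd g → Measurable[Y.m] f → Measurable[Y.m] g →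
      ∫ z, fn M z * conj (rc (fun x => e x * g x) (fun x => e x * f x) z) ∂(μ ⊗ₘ κ) =
        ∫ z, fn P z * conj (rc (fun x => e x * g x) (fun x => e x * f x) z) ∂(μ ⊗ₘ κ') := by
    intro f g hf hg mf mg
    have h1 : ∫ z, fn M z * conj (rc (fun x => e x * g x) (fun x => e x * f x) z) ∂(μ ⊗ₘ κ) =
        ∫ z, m z * conj (rc (fun x => e x * g x) (fun x => e x * f x) z) ∂(μ ⊗ₘ κ) := by
      refine integral_congr_ae ?_
      filter_upwards [hM] with z hz
      rw [hz]
    rw [h1, hm3 f g hf hg mf mg]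
    refine integral_congr_ae (Eventually.of_forall fun z => ?_)
    show conj (1 : ℂ) * fn P z * conj (rc (fun x => e x * g x) (fun x => e x * f x) z) = _
    rw [map_one, one_mul]
  -- self-adjoint
  have hMs : (hst c).star M = M := by
    have hsA : (hst c).star M ∈ Ak c e Y := (sub_Ak c hem).star M hMA
    have hdA : (hst c).star M - M ∈ Ak c e Y := Submodule.sub_mem _ hsA hMA
    have hk := fn_ker ((hst c).star M - M)
    have hz : fn ((hst c).star M - M) =ᵐ[μ ⊗ₘ κ] 0 := by
      refine Pm_zero c hem hk.meas hk.l2 (mem_Ak.1 hdA) ?_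
      intro f g hf hg mf mg
      have hR := bc_rc (μ := μ) (κ := κ) (b6_bd_mul hBe hf) (b6_bd_mul hBe hg)
      have i1 : Integrable (fun z => fn ((hst c).star M) z *
          conj (rc (fun x => e x * f x) (fun x => e x * g x) z)) (μ ⊗ₘ κ) :=
        (fn_ker ((hst c).star M)).l2.integrable_mul hR.l2.star
      have i2 : Integrable (fun z => fn M z *
          conj (rc (fun x => e x * f x) (fun x => e x * g x) z)) (μ ⊗ₘ κ) :=
        (fn_ker M).l2.integrable_mul hR.l2.star
      have h1 : ∫ z, fn ((hst c).star M - M) z * conj (rc (fun x => e x * f x) (fun x => e x * g x) z) ∂(μ ⊗ₘ κ) =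
          ∫ z, (fn ((hst c).star M) z * conj (rc (fun x => e x * f x) (fun x => e x * g x) z) -
            fn M z * conj (rc (fun x => e x * f x) (fun x => e x * g x) z)) ∂(μ ⊗ₘ κ) := by
        refine integral_congr_ae ?_
        filter_upwards [fn_sub ((hst c).star M) M] with z hz
        rw [hz]
        ring
      rw [h1, integral_sub i1 i2, b6_st, hMp f g hf hg mf mg, hMp g f hg hf mg mf,
        b6_symm c' hP.star, Complex.conj_conj, sub_self]
    refine sub_eq_zero.1 (fn_ext (hz.trans ?_))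
    have := fn_smul (0 : ℂ) (0 : Bv c)
    filter_upwards [this] with z hz
    simpa using hz.symm
  have hM0 : M ≠ 0 := by
    intro h0
    apply hne
    have hey : Bd fun x => e x * y x := b6_bd_mul hBe hy
    have h1 := hMp y y hy hy my my
    have h2 : ∫ z, fn M z * conj (rc (fun x => e x * y x) (fun x => e x * y x) z) ∂(μ ⊗ₘ κ) = 0 := by
      rw [← integral_zero (X × X) ℂ (μ := μ ⊗ₘ κ)]
      refine integral_congr_ae ?_
      have := fn_smul (0 : ℂ) (0 : Bv c)
      filter_upwards [this] with z hz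
      have hz' : fn M z = 0 := by
        rw [h0]
        simpa using hz
      rw [hz']
      simp
    rw [h2] at h1
    have h3 := (proj_act c' hP.toProj hey).1
    have h4 : ∫ z, rc (fun x => e x * y x) (fun x => e x * y x) z * conj (fn P z) ∂(μ ⊗ₘ κ') =
        conj (∫ z, fn P z * conj (rc (fun x => e x * y x) (fun x => e x * y x) z) ∂(μ ⊗ₘ κ')) := by
      rw [← integral_conj]
      refine integral_congr_ae (Eventually.of_forall fun z => ?_)
      simp only [map_mul, Complex.conj_conj]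
      ring
    rw [h4, ← h1, map_zero] at h3
    have h5 : nsq μ (act κ' (fn P) fun x => e x * y x) = 0 := by exact_mod_cast h3.symm
    have h6 := act_l2 c' b6_uni1 hPk hey
    have h7 : Integrable (fun x => ‖act κ' (fn P) (fun x => e x * y x) x‖ ^ 2) μ :=
      (memLp_two_iff_integrable_sq_norm h6.1).1 h6
    have h8 := (integral_eq_zero_iff_of_nonneg (fun x => by positivity) h7).1 h5
    filter_upwards [h8] with x hx
    have : ‖act κ' (fn P) (fun x => e x * y x) x‖ ^ 2 = 0 := hx
    exact norm_eq_zero.1 (pow_eq_zero_iff (by norm_num) |>.1 this)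
  obtain ⟨p, t, hp, ht, hMp1, hMp2, -⟩ := (hst c).spectral (sub_Ak c hem) hMA hMs hM0
  have hpn : p ≠ 0 := hp.ne
  have hpM : ⟪p, M⟫_ℂ ≠ 0 := by
    have h1 : ⟪(hst c).mul p p, M⟫_ℂ = ⟪p, (hst c).mul ((hst c).star p) M⟫_ℂ := (hst c).inner_mul p p M
    rw [hp.idem, hp.star, hMp2, inner_smul_right] at h1
    rw [h1]
    exact mul_ne_zero (by exact_mod_cast ht) (inner_self_ne_zero.2 hpn)
  obtain ⟨p', hs⟩ := exists_shp b c c' he hp.mem
  have hin : ⟪p', P⟫_ℂ = ⟪p, M⟫_ℂ := Shp.inner b he hs P hMA hMp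
  have hne' : ⟪p', P⟫_ℂ ≠ 0 := by rw [hin]; exact hpM
  refine ⟨e, he, p, p', hp, hs, hne', ?_⟩
  have hp'P := Shp.proj b he hs hp.toProj
  have hp'A : p' ∈ Ak c' (fun _ => 1) Y' :=
    mem_Ak.2 (b6_pm_one (fun s h => b.YY s h) (b.emeas e he) (b.enorm e he) hs.pm')
  obtain ⟨z, hz⟩ := hP.min p' hp'A
  obtain ⟨z', hz'⟩ := Shp.min b he hs hp P
  have hz0 : z ≠ 0 := by
    intro h0
    have h1 := (hst c').coef hP.toProj hz
    rw [h0, zero_mul] at h1
    apply hne'
    have h9 : ⟪p', P⟫_ℂ = conj ⟪P, p'⟫_ℂ := (inner_conj_symm (𝕜 := ℂ) p' P).symm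
    rw [h9, ← h1, map_zero]
  rw [(hst c').equiv hP.toProj hp'P hz0 hz hz', hs.norm]

/-- **B6b.** if `p` is a class `v` then `P = v ⊗ conj v` -/
theorem meet_cls (b : BD μ S D D' Y Y' SS EE) {c : Ctx μ S D κ} {c' : Ctx μ S D' κ'} {P : Bv c'}
    (hP : (hst c').Min (Ak c' (fun _ => 1) Y') P) {e : X → ℂ} (he : e ∈ EE) {p : Bv c} {p' : Bv c'}
    (h : Shp Y e p p') (hne : ⟪p', P⟫_ℂ ≠ 0) {v : X → ℂ} (hv : Cls S D v)
    (hvY : Measurable[Y.m] fun x => conj (e x) * v x) (hp : fn p =ᵐ[μ ⊗ₘ κ] rc v v) :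
    fn P =ᵐ[μ ⊗ₘ κ'] rc v v := by
  have hem := b.em he
  have hBe : Bd e := b6_bd_uni hem.meas hem.norm
  have hBv : Bd v := b6_bd_uni hv.meas hv.norm
  have hv' : Cls S D' v := ⟨hv.meas, hv.norm, hv.ratio.mono (fun s hs => b.DD s hs) le_rfl⟩
  obtain ⟨V, hV, hVP, hV1⟩ := exists_cls c' hv'
  -- `p' = V`
  have hYYD : Y.m ≤ (YD μ Y D').m := by
    intro s hs
    have hs0 : MeasurableSet s := b.fY.le s hs
    refine MeasurableSpace.measurableSet_inf.2 ⟨hs0, ?_⟩
    have h1 : MeasurableSet[Y.m ⊔ D'.m] s := (le_sup_left : Y.m ≤ Y.m ⊔ D'.m) s hs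
    exact ⟨s, h1, Filter.EventuallyEq.rfl⟩
  have hmYD := b.emt he
  have hpV : p' = V := by
    have hK := fn_ker (p' - V)
    have hz : fn (p' - V) =ᵐ[μ ⊗ₘ κ'] 0 := by
      refine b.kill c' he b6_uni1 hK ?_ ?_
      · have hp'A : p' ∈ Ak c' e (YD μ Y D') := mem_Ak.2 (h.pm'.mono (b6_prod_mono hYYD))
        have hVA : V ∈ Ak c' e (YD μ Y D') := by
          have h1 := Pm_rc c' hmYD hBv hBv (hvY.mono hYYD le_rfl) (hvY.mono hYYD le_rfl)
          refine mem_Ak.2 (h1.congr ?_)
          filter_upwards [hV] with z hz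
          rw [hz]
        exact mem_Ak.1 (Submodule.sub_mem _ hp'A hVA)
      · intro y hy my
        have hey : Bd fun x => e x * y x := b6_bd_mul hBe hy
        have a1 := Shp.act b he h hy my
        have a2 := b6_act_rc c hBv hp hey
        have a3 := b6_act_rc c' hBv hV hey
        have a4 : ce μ D' (fun w => conj (v w) * (e w * y w)) =ᵐ[μ] ce μ D (fun w => conj (v w) * (e w * y w)) := by
          refine b.ri (b6_bd_mul (b6_bd_conj hBv) hey) ?_
          have m1 : Measurable[Y.m] fun x => conj (conj (e x) * v x) * y x :=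
            (Complex.continuous_conj.measurable.comp hvY).mul my
          have e1 : (fun x => conj (conj (e x) * v x) * y x) = fun w => conj (v w) * (e w * y w) := by
            funext w
            simp only [map_mul, Complex.conj_conj]
            ring
          rwa [e1] at m1
        have hrow := (fn_ker p').row c' b6_uni1
        have hrow' := (fn_ker V).row c' b6_uni1
        obtain ⟨C, hC⟩ := hey.bdd
        have hi : ∀ x : X, Integrable (fun w => ‖e w * y w‖ ^ 2) (κ' x) := fun x =>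
          Integrable.of_bound (hey.meas.norm.pow_const 2).aestronglyMeasurable (C ^ 2) (Eventually.of_forall fun z => by
            rw [Real.norm_of_nonneg (by positivity)]; exact pow_le_pow_left₀ (norm_nonneg _) (hC z) 2)
        filter_upwards [Measure.ae_ae_of_ae_compProd (fn_sub p' V), a1, a2, a3, a4, hrow, hrow'] with x b1 b2 b3 b4 b5 b6 b7
        have h1 : act κ' (fn (p' - V)) (fun x => e x * y x) x =
            act κ' (fn p') (fun x => e x * y x) x - act κ' (fn V) (fun x => e x * y x) x := by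
          show ∫ w, fn (p' - V) (x, w) * (e w * y w) ∂κ' x =
            ∫ w, fn p' (x, w) * (e w * y w) ∂κ' x - ∫ w, fn V (x, w) * (e w * y w) ∂κ' x
          have j1 : Integrable (fun w => fn p' (x, w) * (e w * y w)) (κ' x) :=
            k4_int2 ((fn_ker p').meas.comp measurable_prodMk_left) hey.meas b6.1 (hi x)
          have j2 : Integrable (fun w => fn V (x, w) * (e w * y w)) (κ' x) :=
            k4_int2 ((fn_ker V).meas.comp measurable_prodMk_left) hey.meas b7.1 (hi x)
          rw [← integral_sub j1 j2]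
          refine integral_congr_ae ?_
          filter_upwards [b1] with w hw
          rw [hw]
          ring
        rw [h1, b2, b3, b4, b5, sub_self]
        rfl
    refine sub_eq_zero.1 (fn_ext (hz.trans ?_))
    have := fn_smul (0 : ℂ) (0 : Bv c')
    filter_upwards [this] with z hz
    simpa using hz.symm
  subst hpV
  -- `P p' = t p'`
  obtain ⟨t, ht⟩ := b6_equiv c' P hv'
  have hmul : (hst c').mul P p' = t • p' := by
    refine fn_ext ?_
    have h1 := comp_congr c' (fn_ker P).meas (fn_ker P).meas (fn_ker p').meas (bc_rc (μ := μ) (κ := κ') hBv hBv).meas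
      (Filter.EventuallyEq.rfl (f := fn P)) hV
    have h2 := c'.fib.fst.quasiMeasurePreserving.ae ht
    filter_upwards [fn_mul P p', h1, h2, fn_smul t p', hV] with z z1 z2 z3 z4 z5
    rw [z1, z2, z4, z5]
    have e1 : comp κ' (fn P) (rc v v) z = act κ' (fn P) v z.1 * conj (v z.2) := by
      show ∫ y, fn P (z.1, y) * (v y * conj (v z.2)) ∂κ' z.1 = (∫ y, fn P (z.1, y) * v y ∂κ' z.1) * conj (v z.2)
      rw [← integral_mul_const]
      refine integral_congr_ae (Eventually.of_forall fun y => ?_)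
      exact (mul_assoc _ _ _).symm
    rw [e1, z3]
    show t * v z.1 * conj (v z.2) = t * (v z.1 * conj (v z.2))
    ring
  have hPi := hP.idem
  have ht0 : t ≠ 0 := by
    intro h0
    apply hne
    have h1 : (hst c').mul P p' = 0 := by rw [hmul, h0, zero_smul]
    have h2 := ((hst c').orth_iff hP.toProj hVP).2 h1
    have h9 : ⟪p', P⟫_ℂ = conj ⟪P, p'⟫_ℂ := (inner_conj_symm (𝕜 := ℂ) p' P).symm
    rw [h9, h2, map_zero]
  have hmul1 : (hst c').mul P p' = p' := by
    have h1 : (hst c').mul P ((hst c').mul P p') = (hst c').mul P p' := by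
      rw [← (hst c').assoc, hPi]
    rw [hmul, (hst c').mul_smul, hmul] at h1
    have h2 : t • p' = p' := smul_right_injective _ ht0 h1
    rw [hmul, h2]
  have hmul2 : (hst c').mul p' P = p' := (hst c').le_right hP.star hVP.star hmul1
  have hp'A : p' ∈ Ak c' (fun _ => 1) Y' :=
    mem_Ak.2 (b6_pm_one (fun s h => b.YY s h) (b.emeas e he) (b.enorm e he) h.pm')
  obtain ⟨z, hz⟩ := hP.min p' hp'A
  rw [hmul1, hmul2] at hz
  have hz1 : z = 1 := by
    have h1 := hVP.idem
    rw [hz, (hst c').smul_mul, (hst c').mul_smul, hPi, smul_smul] at h1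
    have h2 : (z * z - z) • P = 0 := by rw [sub_smul, h1, sub_self]
    rcases smul_eq_zero.1 h2 with h3 | h3
    · have h4 : z * (z - 1) = 0 := by rw [← h3]; ring
      rcases mul_eq_zero.1 h4 with h5 | h5
      · exfalso
        apply hVP.ne
        rw [hz, h5, zero_smul]
      · exact sub_eq_zero.1 h5
    · exact absurd h3 hP.ne
  rw [hz1, one_smul] at hz
  rw [← hz]
  exact hV

/-- **B6.** the minimal projections at the next level -/
theorem minP_next (b : BD μ S D D' Y Y' SS EE) (c : Ctx μ S D κ) (c' : Ctx μ S D' κ') {Q : ℝ} (hQ : Big c Y EE Q) :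
    MinP c' Y' Q := by
  intro P hP
  obtain ⟨e, he, p, p', hp, hs, hne, hn⟩ := exists_meet b c c' hP
  rcases hQ e he p hp with ⟨v, hv, hvY, hpv⟩ | hbig
  · left
    refine ⟨v, ⟨hv.meas, hv.norm, hv.ratio.mono (fun s hs => b.DD s hs) le_rfl⟩, ?_,
      meet_cls b hP he hs hne hv hvY hpv⟩
    have m1 : Measurable[Y'.m] fun x => e x * (conj (e x) * v x) :=
      (b.emeas e he).mul (hvY.mono (fun s h => b.YY s h) le_rfl)
    have e1 : (fun x => e x * (conj (e x) * v x)) = v := by
      funext x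
      rw [← mul_assoc, b6_uu (b.enorm e he), one_mul]
    rwa [e1] at m1
  · right
    rw [hn]
    exact hbig

/-- **B7.** the classes at the next level are pure modulo `D'` -/
theorem pur_next (b : BD μ S D D' Y Y' SS EE) (c : Ctx μ S D κ) (c' : Ctx μ S D' κ') {Q : ℝ} (h1 : 1 < Q)
    (hQ : Big c Y EE Q) {v : X → ℂ} (hv : Cls S D' v) (hvY : Measurable[Y'.m] v) :
    ∃ e ∈ EE, ∃ w : X → ℂ, Cls S D w ∧ (Measurable[Y.m] fun x => conj (e x) * w x) ∧
      Measurable[D'.m] fun x => v x * conj (w x) := by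
  obtain ⟨P, hPv, hPP, hP1⟩ := exists_cls c' hv
  have hBv : Bd v := b6_bd_uni hv.meas hv.norm
  have hPA : P ∈ Ak c' (fun _ => 1) Y' := by
    have m1 : Measurable[Y'.m] fun x => conj (1 : ℂ) * v x := by
      have e1 : (fun x => conj (1 : ℂ) * v x) = v := by funext x; rw [map_one, one_mul]
      rw [e1]
      exact hvY
    have h2 := Pm_rc c' (b6_em1 b) hBv hBv m1 m1
    refine mem_Ak.2 (h2.congr ?_)
    filter_upwards [hPv] with z hz
    rw [hz]
  have hPm : (hst c').Min (Ak c' (fun _ => 1) Y') P :=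
    (hst c').min_of_lt (sub_Ak c' (b6_em1 b)) hPP hPA (by rw [hP1]; norm_num)
  obtain ⟨e, he, p, p', hp, hs, hne, hn⟩ := exists_meet b c c' hPm
  rcases hQ e he p hp with ⟨w, hw, hwY, hpw⟩ | hbig
  · refine ⟨e, he, w, hw, hwY, ?_⟩
    have h2 := meet_cls b hPm he hs hne hw hwY hpw
    have mvw : Measurable fun x => v x * conj (w x) :=
      hv.meas.mul (Complex.continuous_conj.measurable.comp hw.meas)
    rw [c'.fib.meas _ mvw]
    filter_upwards [Measure.ae_ae_of_ae_compProd (hPv.symm.trans h2)] with x hx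
    filter_upwards [hx] with y hy
    have hy' : v x * conj (v y) = w x * conj (w y) := hy
    -- `v(y) conj w(y) = v(x) conj w(x)`
    have e1 := b6_uu hv.norm y
    have e2 := b6_uu hw.norm x
    calc v y * conj (w y) = v y * conj (w y) * (w x * conj (w x)) := by rw [e2, mul_one]
      _ = v y * (w x * conj (w y)) * conj (w x) := by ring
      _ = v y * (v x * conj (v y)) * conj (w x) := by rw [hy']
      _ = (v y * conj (v y)) * (v x * conj (w x)) := by ring
      _ = v x * conj (w x) := by rw [e1, one_mul]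
  · exfalso
    rw [← hn, hP1] at hbig
    linarith

end Pool.Agent.Lib.MP_9fe581_an.AP
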