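import Pool.Agent.Lib.MP_9fe581_an.AP.J1
import Pool.Agent.Lib.MP_9fe581_an.AH.Bilin

/-!
# AP, J2: the bound of the second factor for pure modes
-/

set_option autoImplicit false
set_option linter.unusedSectionVars false
set_option warn.classDefReducibility false

open Finset MeasureTheory Filter Topology ProbabilityTheory
open scoped ComplexConjugate

namespace Pool.Agent.Lib.MP_9fe581_an.AP

open HT (TX mX ch)
open AH (BM)

variable {κ : Type} [Fintype κ] {W : Tow κ} {p q : ℕ} {lam : Measure (TX κ × TX κ)}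

theorem Bd.sub {X : Type} [MeasurableSpace X] {f g : X → ℂ} (hf : Bd f) (hg : Bd g) : Bd fun x => f x - g x := by
  obtain ⟨C, hC⟩ := hf.bdd
  obtain ⟨C', hC'⟩ := hg.bdd
  exact ⟨hf.meas.sub hg.meas, C + C', fun x => (norm_sub_le _ _).trans (add_le_add (hC x) (hC' x))⟩

theorem Bd.mul {X : Type} [MeasurableSpace X] {f g : X → ℂ} (hf : Bd f) (hg : Bd g) : Bd fun x => f x * g x := by
  obtain ⟨C, hC⟩ := hf.bdd
  obtain ⟨C', hC'⟩ := hg.bdd
  refine ⟨hf.meas.mul hg.meas, C * C', fun x => ?_⟩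
  rw [norm_mul]
  exact mul_le_mul (hC x) (hC' x) (norm_nonneg _) ((norm_nonneg _).trans (hC x))

theorem Bd.conj {X : Type} [MeasurableSpace X] {f : X → ℂ} (hf : Bd f) : Bd fun x => conj (f x) := by
  obtain ⟨C, hC⟩ := hf.bdd
  exact ⟨Complex.continuous_conj.measurable.comp hf.meas, C, fun x => by rw [RCLike.norm_conj]; exact hC x⟩

theorem Bd.comp {X : Type} [MeasurableSpace X] {f : X → ℂ} (hf : Bd f) {S : X → X} (hS : Measurable S) : Bd fun x => f (S x) := by
  obtain ⟨C, hC⟩ := hf.bdd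
  exact ⟨hf.meas.comp hS, C, fun x => hC _⟩

/-- the correlation of a function in a mode is of lower level -/
theorem Tow.Mode_corr {h : ℕ} {m : κ →₀ ℤ} (hm : W.On h m) {f : TX κ → ℂ} (hM : W.Mode h m f) (n : ℕ) :
    Measurable[(W.Y h).m] fun x => f (W.T^[n] x) * conj (f x) := by
  classical
  have hF := (Tow.Y_fac W h).iter n
  have hSm : @Measurable _ _ (W.Y h).m (W.Y h).m W.T^[n] := by
    rw [measurable_iff_comap_le, hF.inv]
  have h1 : Measurable[(W.Y h).m] fun x => conj (ch m (W.T^[n] x)) * f (W.T^[n] x) := hM.comp hSm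
  have h2 : Measurable[(W.Y h).m] fun x => conj (conj (ch m x) * f x) := Complex.continuous_conj.measurable.comp hM
  have h3 : Measurable[(W.Y h).m] fun x => ch m (W.T^[n] x - x) :=
    Tow.Y_of_low W ((HT.ch_cont m).measurable.comp (((Tow.T_meas W).iterate n).sub measurable_id)) (AH.chpsn_low W.ah hm n)
  have e : (fun x => f (W.T^[n] x) * conj (f x)) = fun x => (conj (ch m (W.T^[n] x)) * f (W.T^[n] x)) *
      conj (conj (ch m x) * f x) * ch m (W.T^[n] x - x) := by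
    funext x
    have e1 : ch m (W.T^[n] x - x) = ch m (W.T^[n] x) * conj (ch m x) := by
      have h5 := HT.ch_add_right m (W.T^[n] x - x) x
      rw [sub_add_cancel] at h5
      rw [h5, mul_assoc, AH.unim_mul _ (HT.ch_norm _ _), mul_one]
    rw [e1]
    simp only [map_mul, Complex.conj_conj]
    calc f (W.T^[n] x) * conj (f x) = f (W.T^[n] x) * conj (f x) * (ch m (W.T^[n] x) * conj (ch m (W.T^[n] x))) *
          (ch m x * conj (ch m x)) := by rw [AH.unim_mul _ (HT.ch_norm _ _), AH.unim_mul _ (HT.ch_norm _ _), mul_one, mul_one]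
      _ = _ := by ring
  rw [e]
  exact (h1.mul h2).mul h3

/-- the average of the norms of the correlations -/
theorem avg_corr {X : Type} [MeasurableSpace X] {μ : Measure X} [IsProbabilityMeasure μ] {S : X → X} (hS : Ergodic S μ) {f : X → ℂ}
    (hf : Bd f) : Tendsto (fun R : ℕ => (1 / (R : ℝ)) * ∑ r ∈ range R, nsq μ fun x => f (S^[r] x) * conj (f x)) atTop
      (𝓝 (nsq μ f ^ 2)) := by
  have hB : BM μ fun x => ((‖f x‖ ^ 2 : ℝ) : ℂ) := by
    obtain ⟨C, hC⟩ := hf.bdd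
    refine AH.BM.of_bdd (Complex.measurable_ofReal.comp (hf.meas.norm.pow_const 2)) (C := C ^ 2) fun x => ?_
    rw [Complex.norm_real, Real.norm_of_nonneg (by positivity)]
    exact pow_le_pow_left₀ (norm_nonneg _) (hC x) 2
  have h1 := AH.erg_bilin hS hB hB
  have h2 := (Complex.continuous_re.tendsto _).comp h1
  have e1 : ∫ x, ((‖f x‖ ^ 2 : ℝ) : ℂ) ∂μ = ((nsq μ f : ℝ) : ℂ) := integral_ofReal
  rw [e1, Complex.conj_ofReal, ← Complex.ofReal_mul, Complex.ofReal_re, ← pow_two] at h2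
  refine h2.congr fun R => ?_
  show ((1 / (R : ℂ)) * ∑ r ∈ range R, ∫ x, ((‖f (S^[r] x)‖ ^ 2 : ℝ) : ℂ) * conj ((‖f x‖ ^ 2 : ℝ) : ℂ) ∂μ).re = _
  have e2 : ∀ r : ℕ, ∫ x, ((‖f (S^[r] x)‖ ^ 2 : ℝ) : ℂ) * conj ((‖f x‖ ^ 2 : ℝ) : ℂ) ∂μ =
      ((nsq μ (fun x => f (S^[r] x) * conj (f x)) : ℝ) : ℂ) := by
    intro r
    have e3 : ∫ x, ((‖f (S^[r] x) * conj (f x)‖ ^ 2 : ℝ) : ℂ) ∂μ = ((nsq μ (fun x => f (S^[r] x) * conj (f x)) : ℝ) : ℂ) :=
      integral_ofReal
    rw [← e3]
    refine integral_congr_ae (Eventually.of_forall fun x => ?_)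
    dsimp only
    rw [Complex.conj_ofReal, ← Complex.ofReal_mul, norm_mul, RCLike.norm_conj, mul_pow]
  simp only [e2]
  rw [← Complex.ofReal_sum, ← Complex.ofReal_natCast, ← Complex.ofReal_one, ← Complex.ofReal_div, ← Complex.ofReal_mul,
    Complex.ofReal_re]

theorem Esq_eq (D : SA (TX κ)) (f : TX κ → ℂ) : Esq D f = nsq (mX κ) (ce (mX κ) D f) := rfl

/-- the energy inequality for functions without large classes -/
theorem Tow.rem_bound (hW : W.ND) {h : ℕ} {δ : ℝ} (hδ : 0 < δ) (hJ : W.PJ p q lam) (hD : Fac (mX κ) W.T (W.D p q lam h))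
    {f : TX κ → ℂ} (hf : Bd f) {m : κ →₀ ℤ} (hm : W.On h m) (hM : W.Mode h m f) (h1 : nsq (mX κ) f ≤ 1)
    (hB : ∀ g : TX κ → ℂ, Bd g → Measurable[(W.Y h).m] g → Jsq lam g ≤ Esq (W.D p q lam h) g + δ * nsq (mX κ) g)
    {L : ℝ} (hL : L ≤ δ) (hE : Tendsto (energy (mX κ) W.T^[p] (W.D p q lam h) f) atTop (𝓝 L)) :
    Jsq lam f ^ 2 ≤ 4 * δ := by
  have hpr := hJ.prob
  have hS : Sys (mX κ) W.T^[p] := Tow.sys hW hJ.pp.pos
  have hSp : MeasurePreserving W.T^[p] (mX κ) (mX κ) := hS.erg.toMeasurePreserving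
  rw [hJ.jsq_eq hW hf.bm]
  refine AH.energy (S := W.T^[p]) (S' := W.T^[q]) ((Tow.T_meas W).iterate q) hJ.erg hSp (hJ.fst hW) hf.bm (4 * δ) ?_
  have hG : ∀ r, Bd fun x => f ((W.T^[p])^[r] x) * conj (f x) := fun r =>
    (hf.comp ((hSp.iterate r).measurable)).mul hf.conj
  have hGY : ∀ r, Measurable[(W.Y h).m] fun x => f ((W.T^[p])^[r] x) * conj (f x) := by
    intro r
    rw [← Function.iterate_mul]
    exact Tow.Mode_corr hm hM (p * r)
  have hterm : ∀ r : ℕ, ∫ z, ‖AH.J lam (fun x => f ((W.T^[p])^[r] x) * conj (f x)) z‖ ^ 2 ∂lam ≤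
      nsq (mX κ) (ce (mX κ) (W.D p q lam h) fun y => f y * conj (f ((W.T^[p])^[r] y))) +
        δ * nsq (mX κ) fun x => f ((W.T^[p])^[r] x) * conj (f x) := by
    intro r
    rw [← hJ.jsq_eq hW (hG r).bm]
    refine (hB _ (hG r) (hGY r)).trans (le_of_eq ?_)
    congr 1
    rw [Esq_eq]
    have e : (fun x => f ((W.T^[p])^[r] x) * conj (f x)) = fun x => conj (f x * conj (f ((W.T^[p])^[r] x))) := by
      funext x
      rw [map_mul, Complex.conj_conj, mul_comm]
    rw [e]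
    have hb2 : BM (mX κ) fun x => f x * conj (f ((W.T^[p])^[r] x)) := (hf.mul (hf.comp ((hSp.iterate r).measurable)).conj).bm
    rw [nsq_congr (ce_conj hD.le' hb2.integrable)]
    unfold nsq
    refine integral_congr_ae (Eventually.of_forall fun x => ?_)
    dsimp only
    rw [RCLike.norm_conj]
  have h2 := avg_corr hS.erg hf
  have hn0 := nsq_nonneg (μ := mX κ) f
  have hsq : nsq (mX κ) f ^ 2 < 2 := by nlinarith
  have hLδ : L < 2 * δ := by linarith
  filter_upwards [h2.eventually (gt_mem_nhds hsq), hE.eventually (gt_mem_nhds hLδ)] with R a b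
  have hR0 : (0 : ℝ) ≤ 1 / (R : ℝ) := by positivity
  calc (1 / (R : ℝ)) * ∑ r ∈ range R, ∫ z, ‖AH.J lam (fun x => f ((W.T^[p])^[r] x) * conj (f x)) z‖ ^ 2 ∂lam
      ≤ (1 / (R : ℝ)) * ∑ r ∈ range R, (nsq (mX κ) (ce (mX κ) (W.D p q lam h) fun y => f y * conj (f ((W.T^[p])^[r] y))) +
        δ * nsq (mX κ) fun x => f ((W.T^[p])^[r] x) * conj (f x)) :=
        mul_le_mul_of_nonneg_left (sum_le_sum fun r _ => hterm r) hR0
    _ = energy (mX κ) W.T^[p] (W.D p q lam h) f R + δ * ((1 / (R : ℝ)) * ∑ r ∈ range R,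
        nsq (mX κ) fun x => f ((W.T^[p])^[r] x) * conj (f x)) := by
        unfold energy
        rw [sum_add_distrib, mul_add, ← mul_sum]
        ring
    _ ≤ 2 * δ + δ * 2 := add_le_add b.le (mul_le_mul_of_nonneg_left a.le hδ.le)
    _ = 4 * δ := by ring

theorem Jsq_smul [IsProbabilityMeasure lam] (c : ℂ) (f : TX κ → ℂ) : Jsq lam (fun x => c * f x) = ‖c‖ ^ 2 * Jsq lam f := by
  unfold Jsq
  rw [← nsq_smul]
  exact nsq_congr (ce_smul c fun z : TX κ × TX κ => f z.1)

theorem Esq_smul (D : SA (TX κ)) (c : ℂ) (f : TX κ → ℂ) : Esq D (fun x => c * f x) = ‖c‖ ^ 2 * Esq D f := by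
  unfold Esq
  rw [← nsq_smul]
  exact nsq_congr (ce_smul c f)

/-- the bound for a function of norm `≤ 1` in a mode -/
theorem Tow.mode_one (hW : W.ND) {h : ℕ} {θ : ℝ} (hθ : 0 < θ) (hJ : W.PJ p q lam) (hDP : W.DP p q lam)
    {f : TX κ → ℂ} (hf : Bd f) {m : κ →₀ ℤ} (hm : W.On h m) (hM : W.Mode h m f) (h1 : nsq (mX κ) f ≤ 1)
    (hB : ∀ g : TX κ → ℂ, Bd g → Measurable[(W.Y h).m] g → Jsq lam g ≤ Esq (W.D p q lam h) g + θ ^ 2 / 4 * nsq (mX κ) g)
    (hC : ∀ f : TX κ → ℂ, Bd f → W.Mode h m f → nsq (mX κ) f ≤ 1 →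
      (∀ v, Cls W.T^[p] (W.D p q lam h) v → W.Mode h m v → Esq (W.D p q lam h) (fun x => f x * conj (v x)) < θ ^ 2 / 4) →
      ∃ L ≤ θ ^ 2 / 4, Tendsto (energy (mX κ) W.T^[p] (W.D p q lam h) f) atTop (𝓝 L)) :
    Real.sqrt (Jsq lam f) ≤ Real.sqrt θ + Real.sqrt (Esq (W.D p q lam (h + 1)) f) := by
  classical
  have hpr := hJ.prob
  have hS : Sys (mX κ) W.T^[p] := Tow.sys hW hJ.pp.pos
  have hD := hDP.fac h
  have hDp := hD.iter p
  obtain ⟨n, v, g, hF, hvM, hrem⟩ := peel hS hDp hf (W.Mode h m) (η := θ ^ 2 / 4) (by positivity)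
  set rem : TX κ → ℂ := fun x => f x - fpart v g univ x with hremd
  have hremB : Bd rem := hf.sub (fpart_bd hF univ)
  have hremM : W.Mode h m rem := by
    have e : (fun x => conj (ch m x) * rem x) = fun x => conj (ch m x) * f x - ∑ i, (conj (ch m x) * v i x) * g i x := by
      funext x
      rw [hremd]; dsimp only [fpart]
      rw [mul_sub, mul_sum]
      congr 1
      exact sum_congr rfl fun i _ => by ring
    show Measurable[(W.Y h).m] fun x => conj (ch m x) * rem x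
    rw [e]
    refine Measurable.sub hM (Finset.measurable_sum _ fun i _ => ?_)
    have hgY : Measurable[(W.Y h).m] (g i) := fun t ht => hDP.low h _ (hF.gm i ht)
    exact Measurable.mul (hvM i) hgY
  have hsplit := nsq_split hS hDp hf hF univ
  have hrem1 : nsq (mX κ) rem ≤ 1 := by
    have : 0 ≤ ∑ i, nsq (mX κ) (g i) := sum_nonneg fun i _ => nsq_nonneg _
    linarith
  obtain ⟨L, hL, hE⟩ := hC rem hremB hremM hrem1 fun w hw hwM => hrem w hw hwM
  have hJrem : Jsq lam rem ≤ θ := by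
    have h2 := Tow.rem_bound hW (by positivity) hJ hD hremB hm hremM hrem1 hB hL hE
    have h3 : Jsq lam rem ^ 2 ≤ θ ^ 2 := by linarith
    exact le_of_sq_le_sq h3 hθ.le
  -- hidden and other classes
  set H : Finset (Fin n) := univ.filter fun i => Measurable[(hid lam (W.D p q lam h)).m] fun z : TX κ × TX κ => v i z.1 with hH
  have hcomp : ∀ {u : TX κ → ℂ}, Bd u → BM lam fun z : TX κ × TX κ => u z.1 := fun hu => hu.bm.comp (hJ.fst hW)
  have hzero : ce lam (sec lam) (fun z : TX κ × TX κ => fpart v g Hᶜ z.1) =ᵐ[lam] 0 := by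
    have e : (fun z : TX κ × TX κ => fpart v g Hᶜ z.1) = fun z => ∑ i ∈ Hᶜ, v i z.1 * g i z.1 := rfl
    rw [e]
    refine (ce_sum Hᶜ fun i _ => (hcomp ⟨(hF.cls i).meas, 1, fun x => ((hF.cls i).norm x).le⟩).mul (hcomp (hF.gb i))).trans ?_
    have h2 : ∀ᵐ z ∂lam, ∀ i ∈ Hᶜ, ce lam (sec lam) (fun z : TX κ × TX κ => v i z.1 * g i z.1) z = 0 := by
      refine (Finset.eventually_all _).2 fun i hi => ?_
      have hi' : ¬ Measurable[(hid lam (W.D p q lam h)).m] fun z : TX κ × TX κ => v i z.1 := by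
        intro h3
        rw [mem_compl, hH, mem_filter] at hi
        exact hi ⟨mem_univ i, h3⟩
      exact hJ.class_zero hD (hF.cls i) hi' (hF.gm i) (hF.gb i)
    filter_upwards [h2] with z hz
    rw [sum_eq_zero hz]; rfl
  have hdec : ∀ x, f x = (rem x + fpart v g H x) + fpart v g Hᶜ x := by
    intro x
    have e : fpart v g univ x = fpart v g H x + fpart v g Hᶜ x := (sum_add_sum_compl H fun i => v i x * g i x).symm
    rw [hremd]; dsimp only
    rw [e]; ring
  have hJ1 : Real.sqrt (Jsq lam f) ≤ nrm lam (ce lam (sec lam) fun z : TX κ × TX κ => rem z.1) +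
      nrm lam (ce lam (sec lam) fun z : TX κ × TX κ => fpart v g H z.1) := by
    have e : (fun z : TX κ × TX κ => f z.1) = fun z => (rem z.1 + fpart v g H z.1) + fpart v g Hᶜ z.1 := funext fun z => hdec z.1
    have e2 : ce lam (sec lam) (fun z : TX κ × TX κ => f z.1) =ᵐ[lam] fun z =>
        ce lam (sec lam) (fun z : TX κ × TX κ => rem z.1) z + ce lam (sec lam) (fun z : TX κ × TX κ => fpart v g H z.1) z := by
      rw [e]
      have a1 := ce_add (D := sec lam) ((hcomp hremB).add (hcomp (fpart_bd hF H))) (hcomp (fpart_bd hF Hᶜ))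
      have a2 := ce_add (D := sec lam) (hcomp hremB) (hcomp (fpart_bd hF H))
      filter_upwards [a1, a2, hzero] with z b1 b2 b3
      rw [b1, b2, b3]; simp
    show nrm lam (ce lam (sec lam) fun z : TX κ × TX κ => f z.1) ≤ _
    rw [nrm_congr e2]
    exact nrm_add (ce_bm (hcomp hremB)) (ce_bm (hcomp (fpart_bd hF H)))
  have hJ2 : nrm lam (ce lam (sec lam) fun z : TX κ × TX κ => rem z.1) ≤ Real.sqrt θ := Real.sqrt_le_sqrt hJrem
  have hJ3 : nrm lam (ce lam (sec lam) fun z : TX κ × TX κ => fpart v g H z.1) ≤ Real.sqrt (Esq (W.D p q lam (h + 1)) f) := by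
    refine (ce_nrm_le sec_le (hcomp (fpart_bd hF H))).trans ?_
    refine Real.sqrt_le_sqrt ?_
    rw [hJ.nsq_fst hW (fpart_bd hF H).bm, nsq_fpart hS hDp hF H]
    -- Bessel for the hidden classes
    set e := H.equivFin with he
    have h3 := hDP.bessel h m hm f hf hM H.card (fun k => v (e.symm k).1) (fun k => ?_) (fun k => hvM _) (fun k l hkl => ?_)
    · refine le_trans (le_of_eq ?_) h3
      have h4 : ∀ i, nsq (mX κ) (g i) = Esq (W.D p q lam h) fun x => f x * conj (v i x) := fun i => nsq_congr (hF.gae i)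
      rw [← sum_coe_sort H, ← Equiv.sum_comp e.symm]
      exact sum_congr rfl fun k _ => h4 _
    · have h5 := (mem_filter.1 (e.symm k).2).2
      refine ⟨hF.cls _, Tow.Mode_Y hm (hvM _), 1, fun h6 => ?_, ?_⟩
      · exact hJ.qp.one_lt.ne' (Nat.dvd_one.1 h6)
      · simpa using h5
    · refine hF.ineq _ _ fun h6 => hkl ?_
      exact e.symm.injective (Subtype.ext h6)
  linarith

/-- **pure modes** -/
theorem Tow.jb_mode (hW : W.ND) (hDP : ∀ p q lam, W.PJ p q lam → W.DP p q lam) {h : ℕ} (hC : W.Core h) (hB : W.JB h)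
    (ε : ℝ) (hε : 0 < ε) : ∃ q0 : ℕ, ∀ p q lam, W.PJ p q lam → q0 ≤ q → ∀ m, W.On h m → ∀ f, Bd f → W.Mode h m f →
      Jsq lam f ≤ Esq (W.D p q lam (h + 1)) f + ε * nsq (mX κ) f := by
  set ε' := min ε 1 with hε'
  have hε'0 : 0 < ε' := lt_min hε one_pos
  set θ : ℝ := (ε' / 4) ^ 2 with hθd
  have hθ : 0 < θ := by positivity
  obtain ⟨q1, hq1⟩ := hC (θ ^ 2 / 4) (by positivity)
  obtain ⟨q2, hq2⟩ := hB (θ ^ 2 / 4) (by positivity)
  refine ⟨max q1 q2, fun p q lam hJ hq m hm f hf hM => ?_⟩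
  have hpr := hJ.prob
  have hJ0 : 0 ≤ Jsq lam f := nsq_nonneg _
  have hE0 : 0 ≤ Esq (W.D p q lam (h + 1)) f := nsq_nonneg _
  have hn0 := nsq_nonneg (μ := mX κ) f
  by_cases h0 : nsq (mX κ) f = 0
  · -- `f = 0`
    have h1 : Jsq lam f ≤ nsq (mX κ) f := by
      have := ce_nsq_le (D := sec lam) sec_le (hf.bm.comp (hJ.fst hW))
      rw [hJ.nsq_fst hW hf.bm] at this
      exact this
    rw [h0] at h1 ⊢
    linarith
  · have hn : 0 < nsq (mX κ) f := lt_of_le_of_ne hn0 (Ne.symm h0)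
    set c : ℂ := ((1 / nrm (mX κ) f : ℝ) : ℂ) with hc
    have hnr : 0 < nrm (mX κ) f := Real.sqrt_pos.2 hn
    have hcn : ‖c‖ ^ 2 = 1 / nsq (mX κ) f := by
      rw [hc, Complex.norm_real, Real.norm_of_nonneg (by positivity), div_pow, one_pow, nrm_sq]
    have hcf : Bd fun x => c * f x := by
      obtain ⟨C, hC⟩ := hf.bdd
      exact ⟨hf.meas.const_mul c, ‖c‖ * C, fun x => by rw [norm_mul]; exact mul_le_mul_of_nonneg_left (hC x) (norm_nonneg _)⟩
    have hcM : W.Mode h m fun x => c * f x := by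
      have e : (fun x => conj (ch m x) * (c * f x)) = fun x => c * (conj (ch m x) * f x) := by funext x; ring
      show Measurable[(W.Y h).m] fun x => conj (ch m x) * (c * f x)
      rw [e]
      exact Measurable.const_mul hM c
    have hc1 : nsq (mX κ) (fun x => c * f x) = 1 := by
      rw [nsq_smul, hcn]; field_simp
    have key := Tow.mode_one hW hθ hJ (hDP p q lam hJ) hcf hm hcM hc1.le
      (fun g hg hgY => hq2 p q lam hJ ((le_max_right _ _).trans hq) g hg hgY)
      (fun f' a b d e => hq1 p q lam hJ ((le_max_left _ _).trans hq) m hm f' a b d e)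
    have hsθ : Real.sqrt θ = ε' / 4 := Real.sqrt_sq (by positivity)
    rw [hsθ, Jsq_smul, Esq_smul, hcn] at key
    set a := Jsq lam f with ha
    set b := Esq (W.D p q lam (h + 1)) f with hb
    set N := nsq (mX κ) f with hN
    -- `b ≤ N`
    have hbN : b ≤ N := ce_nsq_le (hDP p q lam hJ |>.fac (h + 1)).le' hf.bm
    have hx1 : (0 : ℝ) ≤ 1 / N * a := by positivity
    have hx2 : (0 : ℝ) ≤ 1 / N * b := by positivity
    have hy2 : Real.sqrt (1 / N * b) ≤ 1 := by
      refine Real.sqrt_le_iff.2 ⟨zero_le_one, ?_⟩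
      rw [one_pow, one_div, inv_mul_le_iff₀ hn, mul_one]
      exact hbN
    have hy0 := Real.sqrt_nonneg (1 / N * b)
    have h5 : 1 / N * a ≤ 1 / N * b + ε' := by
      have e1 := Real.sq_sqrt hx1
      have e2 := Real.sq_sqrt hx2
      have h6 : Real.sqrt (1 / N * a) ^ 2 ≤ (ε' / 4 + Real.sqrt (1 / N * b)) ^ 2 :=
        pow_le_pow_left₀ (Real.sqrt_nonneg _) key 2
      have h7 : ε' ≤ 1 := min_le_right _ _
      nlinarith
    have h8 : ε' ≤ ε := min_le_left _ _
    have h9 : a ≤ b + ε' * N := by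
      have : N * (1 / N * a) ≤ N * (1 / N * b + ε') := mul_le_mul_of_nonneg_left h5 hn.le
      have e3 : N * (1 / N * a) = a := by field_simp
      have e4 : N * (1 / N * b + ε') = b + ε' * N := by field_simp
      rw [e3, e4] at this
      exact this
    have h10 : ε' * N ≤ ε * N := mul_le_mul_of_nonneg_right h8 hn.le
    linarith

end Pool.Agent.Lib.MP_9fe581_an.AP
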