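import Mathlib

/-!
# AP: facts about the conditional measures
-/

set_option autoImplicit false

open Finset MeasureTheory Filter Topology ProbabilityTheory
open scoped ComplexConjugate ENNReal

namespace Pool.Agent.Lib.MP_9fe581_an.AP

section KD

variable {X : Type} {m m0 : MeasurableSpace X} [StandardBorelSpace X] {μ : Measure X} [IsProbabilityMeasure μ]

/-- measurability of the inner integral -/
theorem kd_inner {F : X → X → ℝ≥0∞} (hF : @Measurable (X × X) ℝ≥0∞ (m.prod m0) _ fun z => F z.1 z.2) :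
    Measurable[m] fun x => ∫⁻ y, F x y ∂(condExpKernel μ m x) :=
  @Measurable.lintegral_kernel_prod_right' X X m m0 (condExpKernel μ m) _ _ hF

/-- the disintegration in diagonal form -/
theorem kd_diag (hm : m ≤ m0) {F : X → X → ℝ≥0∞} (hF : @Measurable (X × X) ℝ≥0∞ (m.prod m0) _ fun z => F z.1 z.2) :
    ∫⁻ x, ∫⁻ y, F x y ∂(condExpKernel μ m x) ∂μ = ∫⁻ x, F x x ∂μ := by
  have h1 := compProd_trim_condExpKernel (μ := μ) hm
  have h2 : ∫⁻ z, F z.1 z.2 ∂((μ.trim hm) ⊗ₘ condExpKernel μ m) = ∫⁻ x, ∫⁻ y, F x y ∂(condExpKernel μ m x) ∂(μ.trim hm) :=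
    @Measure.lintegral_compProd X X m m0 (μ.trim hm) (condExpKernel μ m) _ _ _ hF
  rw [h1] at h2
  have hd : @Measurable X (X × X) m0 (m.prod m0) Function.diag :=
    @Measurable.prodMk X m0 X X m m0 id id (measurable_id'' hm) measurable_id
  have h3 : ∫⁻ z, F z.1 z.2 ∂(@Measure.map X (X × X) m0 (m.prod m0) Function.diag μ) = ∫⁻ x, F x x ∂μ :=
    @lintegral_map X (X × X) m0 (m.prod m0) μ _ _ hF hd
  rw [← h3, h2]
  exact (lintegral_trim hm (kd_inner hF)).symm

/-- a measurable relation that holds on the diagonal holds almost surely -/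
theorem kd_ae (hm : m ≤ m0) {P : X → X → Prop} (hP : @MeasurableSet (X × X) (m.prod m0) {z | P z.1 z.2})
    (h : ∀ x, P x x) : ∀ᵐ x ∂μ, ∀ᵐ y ∂(condExpKernel μ m x), P x y := by
  classical
  have hF : @Measurable (X × X) ℝ≥0∞ (m.prod m0) _ fun z => ({z | ¬ P z.1 z.2} : Set (X × X)).indicator (fun _ => (1 : ℝ≥0∞)) z :=
    @Measurable.indicator (X × X) ℝ≥0∞ _ _ (m.prod m0) _ _ measurable_const
      (@MeasurableSet.compl (X × X) _ (m.prod m0) hP)
  have h1 := kd_diag (μ := μ) hm (F := fun x y => ({z | ¬ P z.1 z.2} : Set (X × X)).indicator (fun _ => (1 : ℝ≥0∞)) (x, y)) hF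
  have h2 : ∀ x, ({z | ¬ P z.1 z.2} : Set (X × X)).indicator (fun _ => (1 : ℝ≥0∞)) (x, x) = 0 := fun x => by
    simp [h x]
  simp only [h2, lintegral_zero] at h1
  have h3 := (lintegral_eq_zero_iff ((kd_inner (μ := μ) hF).mono hm le_rfl)).1 h1
  filter_upwards [h3] with x hx
  have hsec : Measurable fun y => ({z | ¬ P z.1 z.2} : Set (X × X)).indicator (fun _ => (1 : ℝ≥0∞)) (x, y) :=
    hF.comp (@measurable_prodMk_left X X m m0 x)
  have h4 := (lintegral_eq_zero_iff hsec).1 hx
  filter_upwards [h4] with y hy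
  by_contra hcon
  simp [hcon] at hy

/-- (k1) `D`-measurable functions are constant on the fibres -/
theorem kd_const (hm : m ≤ m0) {E : Type} [MeasurableSpace E] [MeasurableEq E] {g : X → E} (hg : Measurable[m] g) :
    ∀ᵐ x ∂μ, ∀ᵐ y ∂(condExpKernel μ m x), g y = g x := by
  refine kd_ae hm (P := fun x y => g y = g x) ?_ fun x => rfl
  have h1 : @Measurable (X × X) E (m.prod m0) _ fun z => g z.1 := hg.comp (@measurable_fst X X m m0)
  have h2 : @Measurable (X × X) E (m.prod m0) _ fun z => g z.2 :=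
    (hg.mono hm le_rfl).comp (@measurable_snd X X m m0)
  exact @measurableSet_eq_fun (X × X) E (m.prod m0) _ _ _ _ h2 h1

/-- two probability measures with the same distribution function of the embedding in the line -/
theorem kd_ext {μ1 μ2 : Measure X} [IsProbabilityMeasure μ1] [IsProbabilityMeasure μ2]
    (h : ∀ q : ℚ, μ1 (embeddingReal X ⁻¹' Set.Iic (q : ℝ)) = μ2 (embeddingReal X ⁻¹' Set.Iic (q : ℝ))) : μ1 = μ2 := by
  have he := measurableEmbedding_embeddingReal X
  have h1 : μ1.map (embeddingReal X) = μ2.map (embeddingReal X) := by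
    have p1 : IsProbabilityMeasure (μ1.map (embeddingReal X)) := Measure.isProbabilityMeasure_map he.measurable.aemeasurable
    have p2 : IsProbabilityMeasure (μ2.map (embeddingReal X)) := Measure.isProbabilityMeasure_map he.measurable.aemeasurable
    refine ext_of_generate_finite _ (BorelSpace.measurable_eq.trans Real.borel_eq_generateFrom_Iic_rat)
      Real.isPiSystem_Iic_rat ?_ (by simp)
    intro s hs
    simp only [Set.mem_iUnion, Set.mem_singleton_iff] at hs
    obtain ⟨q, rfl⟩ := hs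
    rw [Measure.map_apply he.measurable measurableSet_Iic, Measure.map_apply he.measurable measurableSet_Iic]
    exact h q
  rw [← he.comap_map μ1, h1, he.comap_map]

/-- (k2) the conditional measure is constant on the fibres -/
theorem kd_kernel (hm : m ≤ m0) : ∀ᵐ x ∂μ, ∀ᵐ y ∂(condExpKernel μ m x), condExpKernel μ m y = condExpKernel μ m x := by
  have h1 : ∀ q : ℚ, ∀ᵐ x ∂μ, ∀ᵐ y ∂(condExpKernel μ m x),
      condExpKernel μ m y (embeddingReal X ⁻¹' Set.Iic (q : ℝ)) = condExpKernel μ m x (embeddingReal X ⁻¹' Set.Iic (q : ℝ)) :=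
    fun q => kd_const hm (measurable_condExpKernel ((measurableEmbedding_embeddingReal X).measurable measurableSet_Iic))
  filter_upwards [ae_all_iff.2 h1] with x hx
  filter_upwards [ae_all_iff.2 hx] with y hy
  exact kd_ext hy

/-- conditional expectation and an invariant map -/
theorem kd_ce_comp {E : Type} [NormedAddCommGroup E] [NormedSpace ℝ E] [CompleteSpace E] (hm : m ≤ m0) {S : X → X}
    (hS : MeasurePreserving S μ μ) (hinv : m.comap S = m) {f : X → E} (hf : Integrable f μ) : μ[fun x => f (S x) | m] =ᵐ[μ] fun x => (μ[f | m]) (S x) := by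
  have hSm : @Measurable X X m m S := by
    rw [measurable_iff_comap_le, hinv]
  have hfS : Integrable (fun x => f (S x)) μ := hS.integrable_comp_of_integrable hf
  have hgS : Integrable (fun x => (μ[f | m]) (S x)) μ := hS.integrable_comp_of_integrable integrable_condExp
  refine (ae_eq_condExp_of_forall_setIntegral_eq hm hfS (fun s _ _ => hgS.integrableOn) ?_ ?_).symm
  · intro s hs _
    have hs' : MeasurableSet[m.comap S] s := by rw [hinv]; exact hs
    obtain ⟨t, ht, rfl⟩ := hs'
    have ht0 : MeasurableSet[m0] t := hm t ht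
    have e1 : ∫ x in S ⁻¹' t, (μ[f | m]) (S x) ∂μ = ∫ y in t, (μ[f | m]) y ∂μ := by
      have h1 := setIntegral_map (μ := μ) (f := μ[f | m]) ht0 (by rw [hS.map_eq]; exact integrable_condExp.aestronglyMeasurable)
        hS.measurable.aemeasurable
      rw [hS.map_eq] at h1
      exact h1.symm
    have e2 : ∫ x in S ⁻¹' t, f (S x) ∂μ = ∫ y in t, f y ∂μ := by
      have h1 := setIntegral_map (μ := μ) (f := f) ht0 (by rw [hS.map_eq]; exact hf.aestronglyMeasurable)
        hS.measurable.aemeasurable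
      rw [hS.map_eq] at h1
      exact h1.symm
    rw [e1, e2, setIntegral_condExp hm hf ht]
  · exact (stronglyMeasurable_condExp.comp_measurable hSm).aestronglyMeasurable

/-- (k4) equivariance of the conditional measures -/
theorem kd_equiv (hm : m ≤ m0) {S : X → X} (hS : MeasurePreserving S μ μ) (hinv : m.comap S = m) :
    ∀ᵐ x ∂μ, condExpKernel μ m (S x) = (condExpKernel μ m x).map S := by
  have h1 : ∀ q : ℚ, ∀ᵐ x ∂μ, condExpKernel μ m (S x) (embeddingReal X ⁻¹' Set.Iic (q : ℝ)) =
      (condExpKernel μ m x).map S (embeddingReal X ⁻¹' Set.Iic (q : ℝ)) := by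
    intro q
    have hsm : MeasurableSet (embeddingReal X ⁻¹' Set.Iic (q : ℝ)) :=
      (measurableEmbedding_embeddingReal X).measurable measurableSet_Iic
    have hc1 := hS.quasiMeasurePreserving.ae (condExpKernel_ae_eq_condExp (μ := μ) hm hsm)
    have hc2 := (condExpKernel_ae_eq_condExp (μ := μ) hm (hS.measurable hsm))
    have hc3 : μ[(S ⁻¹' (embeddingReal X ⁻¹' Set.Iic (q : ℝ))).indicator fun _ => (1 : ℝ) | m] =ᵐ[μ] fun x =>
        (μ[(embeddingReal X ⁻¹' Set.Iic (q : ℝ)).indicator fun _ => (1 : ℝ) | m]) (S x) :=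
      kd_ce_comp hm hS hinv (f := (embeddingReal X ⁻¹' Set.Iic (q : ℝ)).indicator fun _ => (1 : ℝ))
        ((integrable_const (1 : ℝ)).indicator hsm)
    filter_upwards [hc1, hc2, hc3] with x h1 h2 h3
    rw [Measure.map_apply hS.measurable hsm, ← measureReal_eq_measureReal_iff]
    exact h1.trans (h3.symm.trans h2.symm)
  filter_upwards [ae_all_iff.2 h1] with x hx
  have : IsProbabilityMeasure ((condExpKernel μ m x).map S) :=
    Measure.isProbabilityMeasure_map hS.measurable.aemeasurable
  exact kd_ext hx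

theorem compProd_prob {A B : Type} {mA : MeasurableSpace A} {mB : MeasurableSpace B} (ν : Measure A) [IsProbabilityMeasure ν]
    (k : Kernel A B) [IsMarkovKernel k] : IsProbabilityMeasure (ν ⊗ₘ k) := inferInstance

/-- the conditional measures as a kernel for the full σ-algebra -/
noncomputable def kf (μ : Measure X) [IsProbabilityMeasure μ] (m : MeasurableSpace X) (hm : m ≤ m0) :
    @Kernel X X m0 m0 :=
  @Kernel.comap X X m m0 X m0 (@condExpKernel X m0 _ μ _ m) id (measurable_id'' hm)

theorem kf_apply (hm : m ≤ m0) (x : X) : kf μ m hm x = condExpKernel μ m x := rfl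

instance kf_markov (hm : m ≤ m0) : IsMarkovKernel (kf μ m hm) :=
  ⟨fun x => by rw [kf_apply]; infer_instance⟩

/-- the relative product -/
noncomputable def rp (μ : Measure X) [IsProbabilityMeasure μ] (m : MeasurableSpace X) (hm : m ≤ m0) :
    @Measure (X × X) (m0.prod m0) :=
  @Measure.compProd X X m0 m0 μ (kf μ m hm)

instance rp_prob (hm : m ≤ m0) : @IsProbabilityMeasure (X × X) (m0.prod m0) (rp μ m hm) := by
  unfold rp
  exact compProd_prob μ (kf μ m hm)

theorem rp_lint (hm : m ≤ m0) {F : X → X → ℝ≥0∞} (hF : @Measurable (X × X) ℝ≥0∞ (m0.prod m0) _ fun z => F z.1 z.2) :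
    @lintegral (X × X) (m0.prod m0) (rp μ m hm) (fun z => F z.1 z.2) = ∫⁻ x, ∫⁻ y, F x y ∂(condExpKernel μ m x) ∂μ := by
  unfold rp
  rw [@Measure.lintegral_compProd X X m0 m0 μ (kf μ m hm) _ _ _ hF]
  rfl

/-- (k3) -/
theorem rp_lint3 (hm : m ≤ m0) {F : X → X → ℝ≥0∞} (hF : @Measurable (X × X) ℝ≥0∞ (m0.prod m0) _ fun z => F z.1 z.2) :
    @lintegral (X × X) (m0.prod m0) (rp μ m hm) (fun z => F z.1 z.2) =
      ∫⁻ x, ∫⁻ y, ∫⁻ y', F y y' ∂(condExpKernel μ m x) ∂(condExpKernel μ m x) ∂μ := by
  rw [rp_lint hm hF]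
  symm
  have hG : @Measurable (X × X) ℝ≥0∞ (m.prod m0) _ fun z => ∫⁻ y', F z.2 y' ∂(condExpKernel μ m z.1) := by
    have h1 : @Measurable ((X × X) × X) ℝ≥0∞ ((m.prod m0).prod m0) _ fun w => F w.1.2 w.2 := by
      have h21 : @Measurable ((X × X) × X) X ((m.prod m0).prod m0) m0 fun w => w.1.2 :=
        @Measurable.comp ((X × X) × X) (X × X) X ((m.prod m0).prod m0) (m.prod m0) m0 Prod.snd Prod.fst
          (@measurable_snd X X m m0) (@measurable_fst (X × X) X (m.prod m0) m0)
      have h22 : @Measurable ((X × X) × X) X ((m.prod m0).prod m0) m0 fun w => w.2 :=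
        @measurable_snd (X × X) X (m.prod m0) m0
      have h2 : @Measurable ((X × X) × X) (X × X) ((m.prod m0).prod m0) (m0.prod m0) fun w => (w.1.2, w.2) :=
        @Measurable.prodMk ((X × X) × X) ((m.prod m0).prod m0) X X m0 m0 (fun w => w.1.2) (fun w => w.2) h21 h22
      exact hF.comp h2
    have h3 := @Measurable.lintegral_kernel_prod_right' (X × X) X (m.prod m0) m0
      (@Kernel.comap X X m m0 (X × X) (m.prod m0) (@condExpKernel X m0 _ μ _ m) Prod.fst (@measurable_fst X X m m0)) _ _ h1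
    exact h3
  exact kd_diag (μ := μ) hm (F := fun x y => ∫⁻ y', F y y' ∂(condExpKernel μ m x)) hG

end KD

end Pool.Agent.Lib.MP_9fe581_an.AP
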