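import Pool.Agent.Lib.MP_9fe581_an.AP.KDefs
import Pool.Agent.Lib.MP_9fe581_an.AP.KD

/-! # AP, K1: existence of the fibre measures -/

set_option autoImplicit false

open Finset MeasureTheory Filter Topology ProbabilityTheory
open scoped ComplexConjugate

namespace Pool.Agent.Lib.MP_9fe581_an.AP

/-- a measurable function that is constant on the fibres is measurable modulo null sets -/
theorem k1_meas {X : Type} {m m0 : MeasurableSpace X} [StandardBorelSpace X] {μ : Measure X} [IsProbabilityMeasure μ]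
    (hm : m ≤ m0) (hnull : ∀ s, MeasurableSet[m0] s → μ s = 0 → MeasurableSet[m] s) {g : X → ℂ} (hg : Measurable[m0] g)
    (h : ∀ᵐ x ∂μ, ∀ᵐ y ∂(condExpKernel μ m x), g y = g x) : Measurable[m] g := by
  classical
  intro t ht
  have hs : MeasurableSet[m0] (g ⁻¹' t) := hg ht
  have hs' : MeasurableSet[m] {x | condExpKernel μ m x (g ⁻¹' t) = 1} :=
    (measurable_condExpKernel (m := m) (μ := μ) hs) (measurableSet_singleton 1)
  have hae : ∀ᵐ x ∂μ, (x ∈ g ⁻¹' t ↔ x ∈ {x | condExpKernel μ m x (g ⁻¹' t) = 1}) := by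
    filter_upwards [h] with x hx
    constructor
    · intro hxt
      show condExpKernel μ m x (g ⁻¹' t) = 1
      have h1 : ∀ᵐ y ∂(condExpKernel μ m x), y ∈ g ⁻¹' t := by
        filter_upwards [hx] with y hy
        show g y ∈ t
        rw [hy]; exact hxt
      exact (prob_compl_eq_zero_iff hs).1 h1
    · intro h1
      by_contra hxt
      have h2 : ∀ᵐ y ∂(condExpKernel μ m x), y ∉ g ⁻¹' t := by
        filter_upwards [hx] with y hy
        show g y ∉ t
        rw [hy]; exact hxt
      have h3 : condExpKernel μ m x (g ⁻¹' t) = 0 := by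
        have := measure_eq_zero_iff_ae_notMem.2 h2
        exact this
      have h4 : condExpKernel μ m x (g ⁻¹' t) = 1 := h1
      rw [h3] at h4
      exact zero_ne_one h4
  have n1 : MeasurableSet[m] (g ⁻¹' t \ {x | condExpKernel μ m x (g ⁻¹' t) = 1}) := by
    refine hnull _ (hs.diff (hm _ hs')) ?_
    rw [measure_eq_zero_iff_ae_notMem]
    filter_upwards [hae] with x hx h1
    exact h1.2 (hx.1 h1.1)
  have n2 : MeasurableSet[m] ({x | condExpKernel μ m x (g ⁻¹' t) = 1} \ g ⁻¹' t) := by
    refine hnull _ ((hm _ hs').diff hs) ?_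
    rw [measure_eq_zero_iff_ae_notMem]
    filter_upwards [hae] with x hx h1
    exact h1.2 (hx.2 h1.1)
  have e : g ⁻¹' t = ({x | condExpKernel μ m x (g ⁻¹' t) = 1} \ ({x | condExpKernel μ m x (g ⁻¹' t) = 1} \ g ⁻¹' t)) ∪
      (g ⁻¹' t \ {x | condExpKernel μ m x (g ⁻¹' t) = 1}) := by
    ext x
    simp only [Set.mem_union, Set.mem_sdiff, Set.mem_ofPred_eq, not_and, not_not]
    tauto
  rw [e]
  exact MeasurableSet.union (MeasurableSet.diff hs' n2) n1

theorem k1_bind {X : Type} {m m0 : MeasurableSpace X} [StandardBorelSpace X] {μ : Measure X} [IsProbabilityMeasure μ]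
    (hm : m ≤ m0) : @Measure.bind X X m0 m0 μ (kf μ m hm) = μ := by
  refine @Measure.ext X m0 _ _ fun s hs => ?_
  rw [Measure.bind_apply hs ((@Kernel.measurable X X m0 m0 (kf μ m hm)).aemeasurable)]
  have hF : @Measurable (X × X) ENNReal (m.prod m0) _ fun z => s.indicator (fun _ => (1 : ENNReal)) z.2 :=
    (measurable_const.indicator hs).comp (@measurable_snd X X m m0)
  have h1 := kd_diag (μ := μ) hm (F := fun _ y => s.indicator (fun _ => (1 : ENNReal)) y) hF
  rw [lintegral_indicator_const hs, one_mul] at h1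
  rw [← h1]
  refine lintegral_congr fun x => ?_
  rw [lintegral_indicator_const hs, one_mul, kf_apply]

variable {X : Type} [MeasurableSpace X]

/-- **K1.** `κ = condExpKernel μ D` (as a kernel for the ambient σ-algebra). `fib`: for a countable generating algebra `A_i` the
functions `κ(·, A_i)` are `D`-measurable, so `∫ |κ(y, A_i) - κ(x, A_i)|² κ(x, dy) = 0` a.e.; `shift`: `E(f ∘ S | D) = E(f | D) ∘ S`
as `S⁻¹ D = D`, for countably many `f`; `meas`: `∫ |g(y) - g(x)| κ(x, dy) = 0` for `D`-measurable `g` (bounded first), conversely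
`g = E(g | D)` a.e. and `D` contains the null sets. -/
theorem exists_fib [StandardBorelSpace X] (μ : Measure X) [IsProbabilityMeasure μ] {S : X → X}
    (hS : MeasurePreserving S μ μ) {D : SA X} (hD : Fac μ S D) :
    ∃ κ : Kernel X X, IsMarkovKernel κ ∧ Fib μ S D κ := by
  refine ⟨kf μ D.m hD.le, kf_markov hD.le, ?_, k1_bind hD.le, ?_, ?_, ?_⟩
  · exact kd_kernel hD.le
  · filter_upwards [kd_equiv (μ := μ) hD.le hS hD.inv] with x hx
    exact hx.symm
  · intro f hf
    exact condExp_ae_eq_integral_condExpKernel hD.le hf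
  · intro g hg
    exact ⟨fun h => kd_const hD.le h, fun h => k1_meas hD.le hD.null hg h⟩

end Pool.Agent.Lib.MP_9fe581_an.AP
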