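import Pool.Agent.Lib.MP_9fe581_an.AP.DStub
import Pool.Agent.Lib.MP_9fe581_an.AP.A0
import Pool.Agent.Lib.MP_9fe581_an.AP.B6
import Pool.Agent.Lib.MP_9fe581_an.AP.K1
import Pool.Agent.Lib.MP_9fe581_an.AP.J2

/-! # AP, A: the induction over the levels, the core at every level -/

set_option autoImplicit false

open Finset MeasureTheory Filter Topology ProbabilityTheory
open scoped ComplexConjugate ENNReal InnerProductSpace

namespace Pool.Agent.Lib.MP_9fe581_an.AP

open HT (TX mX ch)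

variable {κ : Type} [Fintype κ] {W : Tow κ} {p q : ℕ} {lam : Measure (TX κ × TX κ)}

/-- the characters of a level -/
def Tow.EE (W : Tow κ) (h : ℕ) : Set (TX κ → ℂ) := {e | ∃ m : κ →₀ ℤ, W.On h m ∧ e = ch m}

/-- the lower bound for the traces -/
noncomputable def Qt (q : ℕ) : ℕ → ℝ
  | 0 => q
  | h + 1 => Real.sqrt (Qt q h)

theorem Qt_one {q : ℕ} (hq : 1 < q) (h : ℕ) : 1 < Qt q h := by
  induction h with
  | zero =>
    show (1 : ℝ) < (q : ℝ)
    exact_mod_cast hq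
  | succ h ih => exact Real.lt_sqrt_of_sq_lt (by simpa using ih)

theorem Qt_le {q : ℕ} (hq : 1 < q) (h : ℕ) : Qt q h ≤ q := by
  induction h with
  | zero => exact le_rfl
  | succ h ih =>
    have h1 := Qt_one hq h
    refine (Real.sqrt_le_sqrt (show Qt q h ≤ Qt q h ^ 2 by nlinarith)).trans ?_
    rw [Real.sqrt_sq (by linarith)]
    exact ih

theorem Qt_tendsto (h : ℕ) : Tendsto (fun q : ℕ => Qt q h) atTop atTop := by
  induction h with
  | zero => exact tendsto_natCast_atTop_atTop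
  | succ h ih => exact Real.tendsto_sqrt_atTop.comp ih

private theorem a1_gen_le {h : ℕ} (hle : (W.D p q lam h).m ≤ MeasurableSpace.pi) :
    ((W.D p q lam h).m ⊔ ⨆ v : W.SS p q lam h (W.D p q lam h), MeasurableSpace.comap v.1 inferInstance) ≤
      MeasurableSpace.pi :=
  sup_le hle (iSup_le fun v => v.2.1.meas.comap_le)

private theorem a1_le {h : ℕ} (hle : (W.D p q lam h).m ≤ MeasurableSpace.pi) :
    ((W.D p q lam h).m ⊔ ⨆ v : W.SS p q lam h (W.D p q lam h), MeasurableSpace.comap v.1 inferInstance) ≤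
      (W.D p q lam (h + 1)).m := by
  have := le_cpl (μ := mX κ) (D := ⟨(W.D p q lam h).m ⊔ ⨆ v : W.SS p q lam h (W.D p q lam h),
    MeasurableSpace.comap v.1 inferInstance⟩) (a1_gen_le hle)
  exact this

private theorem a1_mem {h : ℕ} (hle : (W.D p q lam h).m ≤ MeasurableSpace.pi) {v : TX κ → ℂ}
    (hv : v ∈ W.SS p q lam h (W.D p q lam h)) : Measurable[(W.D p q lam (h + 1)).m] v := by
  rw [measurable_iff_comap_le]
  refine le_trans ?_ (a1_le hle)
  refine le_sup_of_le_right ?_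
  exact le_iSup (fun v : W.SS p q lam h (W.D p q lam h) => MeasurableSpace.comap v.1 inferInstance) ⟨v, hv⟩

private theorem a1_ch_nsmul (m : κ →₀ ℤ) (n : ℕ) (x : TX κ) : ch (n • m) x = ch m x ^ n := by
  classical
  induction n with
  | zero => rw [zero_smul, pow_zero, HT.ch_zero]
  | succ n ih => rw [succ_nsmul, HT.ch_add, ih, pow_succ]

private theorem a1_pow {h : ℕ} {m : κ →₀ ℤ} (hm : W.On h m) (hm0 : m ≠ 0) {v : TX κ → ℂ} (hv : Measurable v)
    (hn : ∀ x, ‖v x‖ = 1) (hM : W.Mode h m v) (n : ℕ) (hn0 : 0 < n) : ce (mX κ) (W.Y h) (fun x => v x ^ n) =ᵐ[mX κ] 0 := by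
  classical
  have e : (fun x => v x ^ n) = fun x => ch (n • m) x * (conj (ch m x) * v x) ^ n := by
    funext x
    rw [a1_ch_nsmul, ← mul_pow, ← mul_assoc, AH.unim_mul _ (HT.ch_norm _ _), one_mul]
  rw [e]
  have hb1 : AH.BM (mX κ) (ch (n • m)) := AH.BM.of_bdd (HT.ch_cont _).measurable (C := 1) fun x => (HT.ch_norm _ x).le
  have hmG : Measurable fun x => (conj (ch m x) * v x) ^ n :=
    ((Complex.continuous_conj.measurable.comp (HT.ch_cont m).measurable).mul hv).pow_const n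
  have hb2 : AH.BM (mX κ) fun x => (conj (ch m x) * v x) ^ n := AH.BM.of_bdd hmG (C := 1) fun x => by
    rw [norm_pow, norm_mul, RCLike.norm_conj, HT.ch_norm, hn, one_mul, one_pow]
  have hM' : Measurable[(W.Y h).m] fun x => (conj (ch m x) * v x) ^ n := hM.pow_const n
  refine (ce_pull (Tow.Y_le W h) hb1 hb2 hM').trans ?_
  have hOn : W.On h (n • m) := fun i hi => hm i fun h0 => hi (by rw [Finsupp.smul_apply, h0, smul_zero])
  have hne : n • m ≠ 0 := fun h0 => hm0 ((smul_eq_zero.1 h0).resolve_left hn0.ne')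
  filter_upwards [Tow.ce_ch hOn hne] with x hx
  rw [hx]
  simp

theorem Tow.bd (hW : W.ND) (hJ : W.PJ p q lam) {h : ℕ} (hL : W.Lv p q lam h) :
    BD (mX κ) W.T^[p] (W.D p q lam h) (W.D p q lam (h + 1)) (W.Y h) (W.Y (h + 1))
      (W.SS p q lam h (W.D p q lam h)) (W.EE h) := by
  classical
  have hS : Sys (mX κ) W.T^[p] := Tow.sys hW hJ.pp.pos
  have fD : Fac (mX κ) W.T^[p] (W.D p q lam h) := hL.fac.iter p
  have fD' : Fac (mX κ) W.T^[p] (W.D p q lam (h + 1)) := (Tow.lv_fac hW hJ hL).iter p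
  have fY : Fac (mX κ) W.T^[p] (W.Y h) := (Tow.Y_fac W h).iter p
  have fY' : Fac (mX κ) W.T^[p] (W.Y (h + 1)) := (Tow.Y_fac W (h + 1)).iter p
  refine
    { fD := fD, fD' := fD', fY := fY, fY' := fY', DY := Tow.low W p q lam h, DD := fun s hs => ?_
      DY' := Tow.low W p q lam (h + 1), YY := fun s hs => Tow.Y_mono W (Nat.le_succ h) s hs
      one := ?_, cls := fun v hv => hv.1, mem := fun v hv => a1_mem fD.le' hv, dich := ?_, tot := ?_
      emeas := ?_, enorm := ?_, eratio := ?_, etot := ?_ }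
  · exact a1_le fD.le' s ((le_sup_left : (W.D p q lam h).m ≤ _) s hs)
  · refine ⟨⟨measurable_const, fun _ => norm_one, ?_⟩, measurable_const, 1, ?_, ?_⟩
    · exact measurable_const
    · exact fun h1 => hJ.qp.one_lt.ne' (Nat.dvd_one.1 h1)
    · simp only [one_pow]
      exact measurable_const
  · intro v hv
    obtain ⟨m, hm, hM⟩ := Tow.pure hW hJ hL hv.1 hv.2.1
    by_cases hm0 : m = 0
    · refine Or.inl (hL.sat v hv.1 ?_ hv.2.2)
      rw [hm0] at hM
      have e : (fun x => conj (ch (0 : κ →₀ ℤ) x) * v x) = v := by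
        funext x
        rw [HT.ch_zero, map_one, one_mul]
      have hM' : Measurable[(W.Y h).m] fun x => conj (ch (0 : κ →₀ ℤ) x) * v x := hM
      rw [e] at hM'
      exact hM'
    · exact Or.inr fun n hn => a1_pow hm hm0 hv.1.meas hv.1.norm hM n hn
  · intro d hd hD h0
    have h1 := Tow.lv_dens hW hJ hL hd h0
    have h2 : ce (mX κ) (W.D p q lam (h + 1)) d = d :=
      condExp_of_stronglyMeasurable fD'.le' hD.stronglyMeasurable (by
        obtain ⟨C, hC⟩ := hd.bdd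
        exact Integrable.of_bound hd.meas.aestronglyMeasurable C (Eventually.of_forall hC))
    rw [h2] at h1
    exact h1
  · rintro e ⟨m, hm, rfl⟩
    exact Tow.ch_Y hm
  · rintro e ⟨m, hm, rfl⟩ x
    exact HT.ch_norm m x
  · rintro e ⟨m, hm, rfl⟩
    refine Tow.Mode_corr hm ?_ p
    have e1 : (fun x => conj (ch m x) * ch m x) = fun _ => (1 : ℂ) := by
      funext x
      rw [mul_comm]
      exact AH.unim_mul _ (HT.ch_norm _ _)
    show Measurable[(W.Y h).m] fun x => conj (ch m x) * ch m x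
    rw [e1]
    exact measurable_const
  · intro f hf hY h0
    exact Tow.mode_zero hf hY fun m hm => h0 _ ⟨m, hm, rfl⟩

private theorem a1_tor (hJ : W.PJ p q lam) {h : ℕ} (hL : W.Lv p q lam h) :
    TorP W.T^[p] (W.D p q lam h) (W.Y h) q := by
  intro v hv hvY n hn hnq hvn
  exact hL.sat v hv hvY ⟨n, fun hd => absurd (Nat.le_of_dvd hn hd) (by omega), hid_fst hL.fac.le' hvn⟩

theorem Tow.lv_min (hW : W.ND) (hJ : W.PJ p q lam) (h : ℕ) :
    W.Lv p q lam h ∧ ∀ (k : Kernel (TX κ) (TX κ)) [IsMarkovKernel k] (c : Ctx (mX κ) W.T^[p] (W.D p q lam h) k),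
      MinP c (W.Y h) (Qt q h) := by
  have hq : 1 < q := hJ.qp.one_lt
  have hS : Sys (mX κ) W.T^[p] := Tow.sys hW hJ.pp.pos
  induction h with
  | zero =>
    refine ⟨Tow.lv_zero hW hJ, fun k _ c => ?_⟩
    have hY : W.Y 0 = W.D p q lam 0 := by
      show cpl (mX κ) (W.Y0 0) = cpl (mX κ) ⟨⊥⟩
      have : W.Y0 0 = ⟨⊥⟩ := by
        unfold Tow.Y0
        congr 1
        rw [iSup_eq_bot]
        exact fun i => absurd i.2 (Nat.not_lt_zero _)
      rw [this]
    rw [hY]
    exact minP_triv c _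
  | succ h ih =>
    obtain ⟨hL, hM⟩ := ih
    have b := Tow.bd hW hJ hL
    obtain ⟨k, hk, hF⟩ := exists_fib (mX κ) hS.erg.toMeasurePreserving b.fD
    have c : Ctx (mX κ) W.T^[p] (W.D p q lam h) k := ⟨hS, b.fD, hF⟩
    have tor := a1_tor hJ hL
    have big : Big c (W.Y h) (W.EE h) (Qt q (h + 1)) := by
      intro e he P hP
      by_cases h4 : ‖P‖ ^ 4 < Qt q h
      · exact Or.inl (core_min c (b.em he) (hM k c) tor hP h4 (h4.trans_le (Qt_le hq h)))
      · refine Or.inr ?_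
        rw [not_lt] at h4
        refine (Real.sqrt_le_sqrt h4).trans ?_
        rw [show ‖P‖ ^ 4 = (‖P‖ ^ 2) ^ 2 by ring, Real.sqrt_sq (by positivity)]
    obtain ⟨k', hk', hF'⟩ := exists_fib (mX κ) hS.erg.toMeasurePreserving b.fD'
    have c' : Ctx (mX κ) W.T^[p] (W.D p q lam (h + 1)) k' := ⟨hS, b.fD', hF'⟩
    have pur : W.Pur p q lam h := by
      intro v hv hvY
      obtain ⟨e, ⟨m, hm, rfl⟩, w, hw, hwY, hvw⟩ := pur_next b c c' (Qt_one hq (h + 1)) big hv hvY
      exact ⟨m, hm, w, hw, hwY, hvw⟩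
    exact ⟨Tow.lv_step hW hJ hL pur, fun k'' _ c'' => minP_next b c c'' big⟩

theorem Tow.dp (hW : W.ND) (hJ : W.PJ p q lam) : W.DP p q lam := Tow.dp_of hW hJ fun h => (Tow.lv_min hW hJ h).1

theorem Tow.core (W : Tow κ) (hW : W.ND) (h : ℕ) : W.Core h := by
  intro η hη
  obtain ⟨q0, hq0⟩ := ((Qt_tendsto h).eventually_gt_atTop (1 / η ^ 2)).exists_forall_of_atTop
  refine ⟨q0, fun p q lam hJ hq m hm f hf hM hf1 hv => ?_⟩
  have hq1 : 1 < q := hJ.qp.one_lt
  have hS : Sys (mX κ) W.T^[p] := Tow.sys hW hJ.pp.pos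
  obtain ⟨hL, hMin⟩ := Tow.lv_min hW hJ h
  have b := Tow.bd hW hJ hL
  obtain ⟨k, hk, hF⟩ := exists_fib (mX κ) hS.erg.toMeasurePreserving b.fD
  have c : Ctx (mX κ) W.T^[p] (W.D p q lam h) k := ⟨hS, b.fD, hF⟩
  have tor := a1_tor hJ hL
  exact core_energy c (b.em ⟨m, hm, rfl⟩) (hMin k c) tor hη (hq0 q hq) ((hq0 q hq).trans_le (Qt_le hq1 h)) hf hM hf1
    hv

end Pool.Agent.Lib.MP_9fe581_an.AP
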