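import Pool.Agent.Lib.MP_9fe581_an.AP.N1

/-!
# AP, G1: conditional expectations over factors, the dichotomy for classes
-/

set_option autoImplicit false
set_option linter.unusedSectionVars false
set_option warn.classDefReducibility false

open Finset MeasureTheory Filter Topology ProbabilityTheory
open scoped ComplexConjugate

namespace Pool.Agent.Lib.MP_9fe581_an.AP

open AH (BM)

section General

variable {X : Type} [mX0 : MeasurableSpace X] {μ : Measure X}

theorem Fac.le' {S : X → X} {D : SA X} (hD : Fac μ S D) : D.m ≤ mX0 := fun s hs => hD.le s hs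

theorem Fac.iter {S : X → X} {D : SA X} (hD : Fac μ S D) (n : ℕ) : Fac μ S^[n] D := by
  refine ⟨hD.le, hD.null, ?_⟩
  induction n with
  | zero => exact MeasurableSpace.comap_id
  | succ n ih =>
    have e : S^[n + 1] = S^[n] ∘ S := Function.iterate_succ S n
    rw [e, ← MeasurableSpace.comap_comp, ih, hD.inv]

/-- a Borel function almost everywhere equal to a `D`-measurable one is `D`-measurable -/
theorem Fac.meas_of_ae {S : X → X} {D : SA X} (hD : Fac μ S D) {f g : X → ℂ} (hf : Measurable f) (hg : Measurable[D.m] g)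
    (h : f =ᵐ[μ] g) : Measurable[D.m] f := by
  intro t ht
  have hgb : Measurable g := hg.mono hD.le' le_rfl
  set N : Set X := {x | f x ≠ g x} with hN
  have hNm : MeasurableSet N := (measurableSet_eq_fun hf hgb).compl
  have hN0 : μ N = 0 := h
  have e : f ⁻¹' t = (g ⁻¹' t ∩ Nᶜ) ∪ (f ⁻¹' t ∩ N) := by
    ext x
    by_cases hx : f x = g x
    · simp [hN, hx]
    · simp [hN, hx]
  rw [e]
  refine @MeasurableSet.union _ D.m _ _ ?_ ?_
  · exact @MeasurableSet.inter _ D.m _ _ (hg ht) (@MeasurableSet.compl _ _ D.m (hD.null N hNm hN0))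
  · exact hD.null _ ((hf ht).inter hNm) (measure_mono_null Set.inter_subset_right hN0)

theorem Fac.meas_iff {S : X → X} {D : SA X} (hD : Fac μ S D) {f : X → ℂ} (hf : Measurable f) :
    Measurable[D.m] f ↔ AEStronglyMeasurable[D.m] f μ := by
  refine ⟨fun h => h.stronglyMeasurable.aestronglyMeasurable, fun h => ?_⟩
  exact hD.meas_of_ae hf h.stronglyMeasurable_mk.measurable h.ae_eq_mk

variable [IsProbabilityMeasure μ]

/-- `E(f ∘ S | D) = E(f | D) ∘ S` -/
theorem Fac.ce_comp {S : X → X} {D : SA X} (hD : Fac μ S D) (hS : MeasurePreserving S μ μ) {f : X → ℂ} (hf : Integrable f μ) :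
    ce μ D (fun x => f (S x)) =ᵐ[μ] fun x => ce μ D f (S x) := by
  have hcomp : ∀ {g : X → ℂ}, Integrable g μ → Integrable (fun x => g (S x)) μ := fun hg => hS.integrable_comp_of_integrable hg
  have hSm : @Measurable _ _ D.m D.m S := by
    rw [measurable_iff_comap_le, hD.inv]
  refine (ae_eq_condExp_of_forall_setIntegral_eq hD.le' (hcomp hf) (fun s _ _ => (hcomp integrable_condExp).integrableOn)
    (fun s hs _ => ?_) ?_).symm
  · rw [← hD.inv] at hs
    obtain ⟨t, ht, rfl⟩ := hs
    have htb : MeasurableSet t := hD.le' t ht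
    have key : ∀ g : X → ℂ, Integrable g μ → ∫ x in S ⁻¹' t, g (S x) ∂μ = ∫ y in t, g y ∂μ := by
      intro g hg
      have h1 := setIntegral_map (μ := μ) (g := S) (f := g) htb (by rw [hS.map_eq]; exact hg.1) hS.measurable.aemeasurable
      rw [hS.map_eq] at h1
      exact h1.symm
    rw [key _ hf]
    show ∫ x in S ⁻¹' t, (μ[f | D.m]) (S x) ∂μ = _
    rw [key _ integrable_condExp, setIntegral_condExp hD.le' hf ht]
  · exact (stronglyMeasurable_condExp.comp_measurable hSm).aestronglyMeasurable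

/-- bounded representatives of conditional expectations -/
theorem ce_rep {D : SA X} (hD : D.m ≤ mX0) {f : X → ℂ} (hf : BM μ f) :
    ∃ g : X → ℂ, Measurable[D.m] g ∧ Bd g ∧ g =ᵐ[μ] ce μ D f := by
  obtain ⟨-, C, hC⟩ := (AH.BM.condExp (m := D.m) hf)
  have h1 : @StronglyMeasurable _ _ _ D.m (μ[f | D.m]) := stronglyMeasurable_condExp
  have h2 : Measurable[D.m] (μ[f | D.m]) := h1.measurable
  refine ⟨fun x => if ‖(μ[f | D.m]) x‖ ≤ C then (μ[f | D.m]) x else 0, ?_, ⟨?_, |C|, fun x => ?_⟩, ?_⟩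
  · have h5 : Measurable[D.m] fun x => ‖(μ[f | D.m]) x‖ := measurable_norm.comp h2
    have h4 : MeasurableSet[D.m] {x | ‖(μ[f | D.m]) x‖ ≤ C} := h5 measurableSet_Iic
    exact Measurable.ite h4 h2 (@measurable_const _ _ _ D.m _)
  · have h3 : Measurable (μ[f | D.m]) := h2.mono hD le_rfl
    exact Measurable.ite (measurableSet_le h3.norm measurable_const) h3 measurable_const
  · split_ifs with h
    · exact h.trans (le_abs_self C)
    · rw [norm_zero]; exact abs_nonneg C
  · filter_upwards [hC] with x hx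
    rw [if_pos hx]; rfl

/-- conjugation commutes with conditional expectations -/
theorem ce_conj {D : SA X} (hD : D.m ≤ mX0) {f : X → ℂ} (hf : Integrable f μ) :
    ce μ D (fun x => conj (f x)) =ᵐ[μ] fun x => conj (ce μ D f x) := by
  have hconj : ∀ {g : X → ℂ}, Integrable g μ → Integrable (fun x => conj (g x)) μ := fun hg =>
    (Complex.conjCLE : ℂ →L[ℝ] ℂ).integrable_comp hg
  refine (ae_eq_condExp_of_forall_setIntegral_eq hD (hconj hf) (fun s _ _ => (hconj integrable_condExp).integrableOn)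
    (fun s hs _ => ?_) ?_).symm
  · show ∫ x in s, conj ((μ[f | D.m]) x) ∂μ = _
    rw [integral_conj, integral_conj, setIntegral_condExp hD hf hs]
  · exact (Complex.continuous_conj.comp_stronglyMeasurable stronglyMeasurable_condExp).aestronglyMeasurable

/-- **the dichotomy**: a class over `A` is `A`-measurable or has no conditional expectation -/
theorem dich {S : X → X} {A : SA X} (hS : Sys μ S) (hA : Fac μ S A) {v : X → ℂ} (hv : Cls S A v)
    (hne : ¬ ce μ A v =ᵐ[μ] 0) : Measurable[A.m] v := by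
  have hSp : MeasurePreserving S μ μ := hS.erg.toMeasurePreserving
  have hvB : BM μ v := AH.BM.of_bdd hv.meas (C := 1) fun x => (hv.norm x).le
  have hrB : BM μ fun x => v (S x) * conj (v x) := (hvB.comp hSp).mul hvB.conj
  set g : X → ℂ := ce μ A v with hg
  have hgB : BM μ g := AH.BM.condExp (m := A.m) hvB
  have hgm : AEStronglyMeasurable[A.m] g μ := AH.ce_meas v
  -- `g ∘ S = r g`
  have h1 : ∀ᵐ x ∂μ, g (S x) = g x * (v (S x) * conj (v x)) := by
    have e1 := hA.ce_comp hSp hvB.integrable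
    have e2 : ce μ A (fun x => v (S x)) =ᵐ[μ] fun x => g x * (v (S x) * conj (v x)) := by
      have e3 := AH.ce_mul (m := A.m) hA.le' hvB hrB hv.ratio.stronglyMeasurable.aestronglyMeasurable
      have e4 : (fun x => v x * (v (S x) * conj (v x))) = fun x => v (S x) := by
        funext x
        calc v x * (v (S x) * conj (v x)) = v (S x) * (v x * conj (v x)) := by ring
          _ = v (S x) := by rw [AH.unim_mul _ (hv.norm x), mul_one]
      rw [e4] at e3
      exact e3
    filter_upwards [e1, e2] with x a b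
    have a' : ce μ A (fun x => v (S x)) x = g (S x) := a
    rw [← a', b]
  have hru : ∀ x, ‖v (S x) * conj (v x)‖ = 1 := fun x => by rw [norm_mul, RCLike.norm_conj, hv.norm, hv.norm, one_mul]
  -- `|g|` is constant
  obtain ⟨c, hc⟩ := hS.erg.ae_eq_const_of_ae_eq_comp_ae (g := fun x => ‖g x‖) hgB.1.norm (by
    filter_upwards [h1] with x hx
    show ‖g (S x)‖ = ‖g x‖
    rw [hx, norm_mul, hru, mul_one])
  have hc0 : c ≠ 0 := by
    intro h0
    refine hne ?_
    filter_upwards [hc] with x hx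
    have hx' : ‖g x‖ = c := hx
    rw [h0] at hx'
    exact norm_eq_zero.1 hx'
  -- `v conj g` is constant
  obtain ⟨k, hk⟩ := hS.erg.ae_eq_const_of_ae_eq_comp_ae (g := fun x => v x * conj (g x)) (hvB.mul hgB.conj).1 (by
    filter_upwards [h1] with x hx
    show v (S x) * conj (g (S x)) = v x * conj (g x)
    rw [hx]
    simp only [map_mul, Complex.conj_conj]
    calc v (S x) * (conj (g x) * (conj (v (S x)) * v x)) = (v (S x) * conj (v (S x))) * (v x * conj (g x)) := by ring
      _ = v x * conj (g x) := by rw [AH.unim_mul _ (hv.norm _), one_mul])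
  have h3 : v =ᵐ[μ] fun x => k * g x * ((c : ℂ) ^ 2)⁻¹ := by
    filter_upwards [hc, hk] with x a b
    have a' : ‖g x‖ = c := a
    have b' : v x * conj (g x) = k := b
    have e : conj (g x) * g x = (c : ℂ) ^ 2 := by
      rw [mul_comm, Complex.mul_conj, Complex.normSq_eq_norm_sq, a']; push_cast; ring
    have hc0' : (c : ℂ) ^ 2 ≠ 0 := pow_ne_zero 2 (by exact_mod_cast hc0)
    rw [← b', mul_assoc (v x), e, mul_assoc, mul_inv_cancel₀ hc0', mul_one]
  refine hA.meas_of_ae hv.meas (g := fun x => k * hgm.mk g x * ((c : ℂ) ^ 2)⁻¹) ?_ ?_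
  · have := hgm.stronglyMeasurable_mk.measurable
    exact (this.const_mul k).mul_const _
  · filter_upwards [h3, hgm.ae_eq_mk] with x a b
    rw [a, b]

omit [IsProbabilityMeasure μ] in
theorem Cls.mul_conj {S : X → X} {D : SA X} {v w : X → ℂ} (hv : Cls S D v) (hw : Cls S D w) :
    Cls S D fun x => v x * conj (w x) := by
  refine ⟨hv.meas.mul (Complex.continuous_conj.measurable.comp hw.meas), fun x => ?_, ?_⟩
  · rw [norm_mul, RCLike.norm_conj, hv.norm, hw.norm, one_mul]
  · have e : (fun x => v (S x) * conj (w (S x)) * conj (v x * conj (w x))) =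
        fun x => (v (S x) * conj (v x)) * conj (w (S x) * conj (w x)) := by
      funext x
      simp only [map_mul, Complex.conj_conj]
      ring
    rw [e]
    exact hv.ratio.mul (Complex.continuous_conj.measurable.comp hw.ratio)

/-- inequivalent classes are orthogonal over `D` -/
theorem ce_ineq {S : X → X} {D : SA X} (hS : Sys μ S) (hD : Fac μ S D) {v w : X → ℂ} (hv : Cls S D v) (hw : Cls S D w)
    (h : ¬ Measurable[D.m] fun x => v x * conj (w x)) : ce μ D (fun x => v x * conj (w x)) =ᵐ[μ] 0 := by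
  by_contra h0
  exact h (dich hS hD (hv.mul_conj hw) h0)

/-! ### the norm -/

/-- the norm -/
noncomputable def nrm (μ : Measure X) (f : X → ℂ) : ℝ := Real.sqrt (nsq μ f)

omit [IsProbabilityMeasure μ] in
theorem nsq_nonneg (f : X → ℂ) : 0 ≤ nsq μ f := integral_nonneg fun _ => by positivity

omit [IsProbabilityMeasure μ] in
theorem nrm_nonneg (f : X → ℂ) : 0 ≤ nrm μ f := Real.sqrt_nonneg _

omit [IsProbabilityMeasure μ] in
theorem nrm_sq (f : X → ℂ) : nrm μ f ^ 2 = nsq μ f := Real.sq_sqrt (nsq_nonneg f)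

omit [IsProbabilityMeasure μ] in
theorem nsq_congr {f g : X → ℂ} (h : f =ᵐ[μ] g) : nsq μ f = nsq μ g :=
  integral_congr_ae (by filter_upwards [h] with x hx; rw [hx])

omit [IsProbabilityMeasure μ] in
theorem nrm_congr {f g : X → ℂ} (h : f =ᵐ[μ] g) : nrm μ f = nrm μ g := by
  unfold nrm; rw [nsq_congr h]

theorem nsq_ofReal (f : X → ℂ) : ((nsq μ f : ℝ) : ℂ) = ∫ x, f x * conj (f x) ∂μ := (AH.int_mul_conj_self f).symm

theorem nrm_cs {f g : X → ℂ} (hf : BM μ f) (hg : BM μ g) : ‖∫ x, f x * conj (g x) ∂μ‖ ≤ nrm μ f * nrm μ g := AH.bm_cs hf hg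

/-- the square of the norm of a sum -/
theorem nsq_add {f g : X → ℂ} (hf : BM μ f) (hg : BM μ g) :
    nsq μ (fun x => f x + g x) = nsq μ f + nsq μ g + 2 * (∫ x, f x * conj (g x) ∂μ).re := by
  have e : ((nsq μ (fun x => f x + g x) : ℝ) : ℂ) = ((nsq μ f : ℝ) : ℂ) + ((nsq μ g : ℝ) : ℂ) +
      ((∫ x, f x * conj (g x) ∂μ) + conj (∫ x, f x * conj (g x) ∂μ)) := by
    rw [nsq_ofReal, nsq_ofReal, nsq_ofReal, ← integral_conj, ← integral_add (hf.mul hf.conj).integrable (hg.mul hg.conj).integrable,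
      ← integral_add (hf.mul hg.conj).integrable (hf.mul hg.conj).conj.integrable, ← integral_add
        (((hf.mul hf.conj)).add (hg.mul hg.conj)).integrable (((hf.mul hg.conj)).add (hf.mul hg.conj).conj).integrable]
    refine integral_congr_ae (Eventually.of_forall fun x => ?_)
    dsimp only
    simp only [map_mul, map_add, Complex.conj_conj]
    ring
  have h2 := congrArg Complex.re e
  rw [Complex.add_conj] at h2
  simp only [Complex.add_re, Complex.ofReal_re] at h2
  rw [h2]

theorem nrm_add {f g : X → ℂ} (hf : BM μ f) (hg : BM μ g) : nrm μ (fun x => f x + g x) ≤ nrm μ f + nrm μ g := by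
  refine Real.sqrt_le_iff.2 ⟨add_nonneg (nrm_nonneg _) (nrm_nonneg _), ?_⟩
  rw [nsq_add hf hg, ← nrm_sq f, ← nrm_sq g]
  have h1 := (Complex.re_le_norm (∫ x, f x * conj (g x) ∂μ)).trans (nrm_cs hf hg)
  nlinarith [nrm_nonneg (μ := μ) f, nrm_nonneg (μ := μ) g]

theorem nsq_smul (c : ℂ) (f : X → ℂ) : nsq μ (fun x => c * f x) = ‖c‖ ^ 2 * nsq μ f := by
  unfold nsq
  rw [← integral_const_mul]
  refine integral_congr_ae (Eventually.of_forall fun x => ?_)
  dsimp only
  rw [norm_mul, mul_pow]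

theorem nrm_smul (c : ℂ) (f : X → ℂ) : nrm μ (fun x => c * f x) = ‖c‖ * nrm μ f := by
  unfold nrm
  rw [nsq_smul, Real.sqrt_mul (by positivity), Real.sqrt_sq (norm_nonneg _)]

theorem Bd.bm {f : X → ℂ} (hf : Bd f) : BM μ f := by
  obtain ⟨C, hC⟩ := hf.bdd
  exact AH.BM.of_bdd hf.meas hC

theorem ce_bm {D : SA X} {f : X → ℂ} (hf : BM μ f) : BM μ (ce μ D f) := AH.BM.condExp (m := D.m) hf

theorem ce_nsq_le {D : SA X} (hD : D.m ≤ mX0) {f : X → ℂ} (hf : BM μ f) : nsq μ (ce μ D f) ≤ nsq μ f := AH.ce_norm hD hf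

theorem ce_nrm_le {D : SA X} (hD : D.m ≤ mX0) {f : X → ℂ} (hf : BM μ f) : nrm μ (ce μ D f) ≤ nrm μ f :=
  Real.sqrt_le_sqrt (ce_nsq_le hD hf)

theorem ce_add {D : SA X} {f g : X → ℂ} (hf : BM μ f) (hg : BM μ g) :
    ce μ D (fun x => f x + g x) =ᵐ[μ] fun x => ce μ D f x + ce μ D g x := condExp_add hf.integrable hg.integrable D.m

theorem ce_sub {D : SA X} {f g : X → ℂ} (hf : BM μ f) (hg : BM μ g) :
    ce μ D (fun x => f x - g x) =ᵐ[μ] fun x => ce μ D f x - ce μ D g x := condExp_sub hf.integrable hg.integrable D.m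

theorem ce_smul {D : SA X} (c : ℂ) (f : X → ℂ) : ce μ D (fun x => c * f x) =ᵐ[μ] fun x => c * ce μ D f x :=
  condExp_smul c f D.m

theorem ce_congr {D : SA X} {f g : X → ℂ} (h : f =ᵐ[μ] g) : ce μ D f =ᵐ[μ] ce μ D g := condExp_congr_ae h

theorem ce_zero {D : SA X} : ce μ D (fun _ => (0 : ℂ)) =ᵐ[μ] 0 := by
  have := ce_smul (μ := μ) (D := D) 0 (fun _ => (1 : ℂ))
  simp only [zero_mul] at this
  exact this

theorem ce_sum {D : SA X} {ι : Type} (s : Finset ι) {f : ι → X → ℂ} (hf : ∀ i ∈ s, BM μ (f i)) :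
    ce μ D (fun x => ∑ i ∈ s, f i x) =ᵐ[μ] fun x => ∑ i ∈ s, ce μ D (f i) x := by
  classical
  induction s using Finset.induction_on with
  | empty => simp only [sum_empty]; exact ce_zero
  | insert a s ha ih =>
    have h1 := ce_add (D := D) (hf a (mem_insert_self a s)) (AH.BM.sum s fun i hi => hf i (mem_insert_of_mem hi))
    have h2 := ih fun i hi => hf i (mem_insert_of_mem hi)
    simp only [sum_insert ha]
    filter_upwards [h1, h2] with x a b
    rw [a, b]

/-- pull out a `D`-measurable factor -/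
theorem ce_pull {D : SA X} (hD : D.m ≤ mX0) {f g : X → ℂ} (hf : BM μ f) (hg : BM μ g) (hgm : Measurable[D.m] g) :
    ce μ D (fun x => f x * g x) =ᵐ[μ] fun x => ce μ D f x * g x :=
  AH.ce_mul hD hf hg hgm.stronglyMeasurable.aestronglyMeasurable

theorem ce_int' {D : SA X} (hD : D.m ≤ mX0) {f g : X → ℂ} (hf : BM μ f) (hg : BM μ g) (hgm : Measurable[D.m] g) :
    ∫ x, f x * conj (g x) ∂μ = ∫ x, ce μ D f x * conj (g x) ∂μ :=
  AH.ce_int hD hf hg hgm.stronglyMeasurable.aestronglyMeasurable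

end General

end Pool.Agent.Lib.MP_9fe581_an.AP
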