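import Pool.Agent.Lib.MP_9fe581_an.AP.K7
import Pool.Agent.Lib.MP_9fe581_an.AP.G1

/-! # AP, B: from kernels over `D` to kernels over `D' = D(classes)` (base change) -/

set_option autoImplicit false

open Finset MeasureTheory Filter Topology ProbabilityTheory
open scoped ComplexConjugate ENNReal InnerProductSpace

namespace Pool.Agent.Lib.MP_9fe581_an.AP

variable {X : Type} [MeasurableSpace X]

/-- the data of one step: `D ≤ Y`, `D' = D(SS) ≤ Y'`, `Y' = Y(EE)` -/
structure BD (μ : Measure X) (S : X → X) (D D' Y Y' : SA X) (SS EE : Set (X → ℂ)) : Prop where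
  fD : Fac μ S D
  fD' : Fac μ S D'
  fY : Fac μ S Y
  fY' : Fac μ S Y'
  DY : ∀ s, MeasurableSet[D.m] s → MeasurableSet[Y.m] s
  DD : ∀ s, MeasurableSet[D.m] s → MeasurableSet[D'.m] s
  DY' : ∀ s, MeasurableSet[D'.m] s → MeasurableSet[Y'.m] s
  YY : ∀ s, MeasurableSet[Y.m] s → MeasurableSet[Y'.m] s
  one : (fun _ => 1) ∈ SS
  cls : ∀ v ∈ SS, Cls S D v
  mem : ∀ v ∈ SS, Measurable[D'.m] v
  dich : ∀ v ∈ SS, Measurable[D.m] v ∨ ∀ n : ℕ, 0 < n → ce μ Y (fun x => v x ^ n) =ᵐ[μ] 0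
  tot : ∀ d : X → ℂ, Bd d → Measurable[D'.m] d →
    (∀ v ∈ SS, ce μ D (fun x => d x * conj (v x)) =ᵐ[μ] 0) → d =ᵐ[μ] 0
  emeas : ∀ e ∈ EE, Measurable[Y'.m] e
  enorm : ∀ e ∈ EE, ∀ x, ‖e x‖ = 1
  eratio : ∀ e ∈ EE, Measurable[Y.m] fun x => e (S x) * conj (e x)
  etot : ∀ f : X → ℂ, Bd f → Measurable[Y'.m] f →
    (∀ e ∈ EE, ce μ Y (fun x => f x * conj (e x)) =ᵐ[μ] 0) → f =ᵐ[μ] 0

variable {μ : Measure X} [IsProbabilityMeasure μ] {S : X → X} {D D' Y Y' : SA X} {SS EE : Set (X → ℂ)}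
  {κ κ' : Kernel X X} [IsMarkovKernel κ] [IsMarkovKernel κ']

theorem BD.em (b : BD μ S D D' Y Y' SS EE) {e : X → ℂ} (he : e ∈ EE) : Em μ S D Y e :=
  ⟨b.fY, b.DY, fun s hs => b.fY'.le _ (b.emeas e he hs), b.enorm e he, b.eratio e he⟩

theorem b1_cm {D : SA X} {f : X → ℂ} (hf : Measurable[D.m] f) : Measurable[D.m] fun x => conj (f x) :=
  Complex.continuous_conj.measurable.comp hf

theorem b1_tower {D D' : SA X} (h : D.m ≤ D'.m) (hD' : D'.m ≤ ‹MeasurableSpace X›) {f : X → ℂ} :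
    ce μ D (ce μ D' f) =ᵐ[μ] ce μ D f := condExp_condExp_of_le h hD'

theorem b1_int {D : SA X} (hD : D.m ≤ ‹MeasurableSpace X›) {f g : X → ℂ} (hf : AH.BM μ f) (hg : AH.BM μ g)
    (hgm : AEStronglyMeasurable[D.m] g μ) : ∫ x, f x * g x ∂μ = ∫ x, ce μ D f x * g x ∂μ := by
  have h := AH.ce_int hD hf hg.conj (Complex.continuous_conj.comp_aestronglyMeasurable hgm)
  simp only [Complex.conj_conj] at h
  exact h

theorem b1_ind {D : SA X} (hD : D.m ≤ ‹MeasurableSpace X›) {s : Set X} (hs : MeasurableSet[D.m] s) :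
    Bd (s.indicator fun _ => (1 : ℂ)) ∧ Measurable[D.m] (s.indicator fun _ => (1 : ℂ)) := by
  refine ⟨⟨measurable_const.indicator (hD s hs), 1, fun x => ?_⟩, ?_⟩
  · by_cases hx : x ∈ s
    · rw [Set.indicator_of_mem hx, norm_one]
    · rw [Set.indicator_of_notMem hx, norm_zero]; exact zero_le_one
  · exact @Measurable.indicator X ℂ _ _ D.m _ _ (@measurable_const _ _ _ D.m _) hs

/-- **B1.** `D'` and `Y` are relatively independent over `D`: test `d = E(f|D') - E(f|D)` with `tot`: for `v ∈ SS` with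
`E(v|Y) = 0`: `E(E(f|D') conj v | D) = E(f conj v | D) = E(f E(conj v|Y) | D) = 0` -/
theorem BD.ri (b : BD μ S D D' Y Y' SS EE) {f : X → ℂ} (hf : Bd f) (hY : Measurable[Y.m] f) :
    ce μ D' f =ᵐ[μ] ce μ D f := by
  have hDD : D.m ≤ D'.m := fun s hs => b.DD s hs
  have hDY : D.m ≤ Y.m := fun s hs => b.DY s hs
  have hDl := b.fD.le'
  have hDl' := b.fD'.le'
  have hYl := b.fY.le'
  obtain ⟨g, hgm, hgB, hg⟩ := ce_rep (μ := μ) hDl hf.bm
  obtain ⟨g', hgm', hgB', hg'⟩ := ce_rep (μ := μ) hDl' hf.bm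
  have hd : Bd (fun x => g' x - g x) := by
    obtain ⟨C, hC⟩ := hgB.bdd
    obtain ⟨C', hC'⟩ := hgB'.bdd
    exact ⟨hgB'.meas.sub hgB.meas, C' + C, fun x => (norm_sub_le _ _).trans (add_le_add (hC' x) (hC x))⟩
  have h1 : (fun x => g' x - g x) =ᵐ[μ] 0 := by
    refine b.tot _ hd (hgm'.sub (hgm.mono hDD le_rfl)) fun v hv => ?_
    have hvc := b.cls v hv
    have hvB : AH.BM μ v := AH.BM.of_bdd hvc.meas (C := 1) fun x => (hvc.norm x).le
    rcases b.dich v hv with hm | hn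
    · have e1 : ce μ D (fun x => (g' x - g x) * conj (v x)) =ᵐ[μ]
          fun x => ce μ D (fun x => g' x - g x) x * conj (v x) :=
        ce_pull hDl (hgB'.bm.sub hgB.bm) hvB.conj (b1_cm hm)
      have e2 : ce μ D (fun x => g' x - g x) =ᵐ[μ] fun x => ce μ D g' x - ce μ D g x := ce_sub hgB'.bm hgB.bm
      have e3 : ce μ D g' =ᵐ[μ] ce μ D f := (ce_congr hg').trans (b1_tower hDD hDl')
      have e4 : ce μ D g =ᵐ[μ] ce μ D f := (ce_congr hg).trans (b1_tower le_rfl hDl)
      filter_upwards [e1, e2, e3, e4] with x h1 h2 h3 h4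
      rw [h1, h2, h3, h4, sub_self, zero_mul, Pi.zero_apply]
    · have hy : ce μ Y v =ᵐ[μ] 0 := by
        have := hn 1 one_pos
        simpa only [pow_one] using this
      have hyc : ce μ Y (fun x => conj (v x)) =ᵐ[μ] 0 := by
        filter_upwards [ce_conj hYl hvB.integrable, hy] with x h1 h2
        rw [h1, h2, Pi.zero_apply, map_zero]
      have e1 : ce μ D (fun x => g' x * conj (v x)) =ᵐ[μ] ce μ D (fun x => f x * conj (v x)) := by
        have a1 : (fun x => g' x * conj (v x)) =ᵐ[μ] ce μ D' (fun x => f x * conj (v x)) := by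
          filter_upwards [ce_pull hDl' hf.bm hvB.conj (b1_cm (b.mem v hv)), hg'] with x h1 h2
          rw [h1, h2]
        exact (ce_congr a1).trans (b1_tower hDD hDl')
      have e2 : ce μ D (fun x => f x * conj (v x)) =ᵐ[μ] 0 := by
        have a1 : ce μ Y (fun x => f x * conj (v x)) =ᵐ[μ] fun _ => 0 := by
          have a2 := ce_pull hYl hvB.conj hf.bm hY
          have a3 : (fun x => f x * conj (v x)) = fun x => conj (v x) * f x := by
            funext x; exact mul_comm _ _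
          rw [a3]
          filter_upwards [a2, hyc] with x h1 h2
          rw [h1, h2, Pi.zero_apply, zero_mul]
        exact (b1_tower hDY hYl).symm.trans ((ce_congr a1).trans ce_zero)
      have e3 : ce μ D (fun x => g x * conj (v x)) =ᵐ[μ] 0 := by
        have a1 : (fun x => g x * conj (v x)) = fun x => conj (v x) * g x := by
          funext x; exact mul_comm _ _
        have a2 : ce μ D (fun x => conj (v x)) =ᵐ[μ] 0 := by
          have a4 : ce μ Y (fun x => conj (v x)) =ᵐ[μ] fun _ => 0 := hyc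
          exact (b1_tower hDY hYl).symm.trans ((ce_congr a4).trans ce_zero)
        rw [a1]
        filter_upwards [ce_pull hDl hvB.conj hgB.bm hgm, a2] with x h1 h2
        rw [h1, h2, Pi.zero_apply, zero_mul]
      have e4 : (fun x => (g' x - g x) * conj (v x)) = fun x => g' x * conj (v x) - g x * conj (v x) := by
        funext x; exact sub_mul _ _ _
      rw [e4]
      filter_upwards [ce_sub (μ := μ) (D := D) (hgB'.bm.mul hvB.conj) (hgB.bm.mul hvB.conj), e1, e2, e3]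
        with x h1 h2 h3 h4
      rw [h1, h2, h3, h4, Pi.zero_apply, sub_zero]
  filter_upwards [h1, hg, hg'] with x h2 h3 h4
  rw [← h3, ← h4]
  exact sub_eq_zero.1 h2

theorem BD.ri' (b : BD μ S D D' Y Y' SS EE) {d : X → ℂ} (hd : Bd d) (hD : Measurable[D'.m] d) :
    ce μ Y d =ᵐ[μ] ce μ D d := by
  have hDl := b.fD.le'
  have hDl' := b.fD'.le'
  have hYl := b.fY.le'
  have hDY : D.m ≤ Y.m := fun s hs => b.DY s hs
  refine (ae_eq_condExp_of_forall_setIntegral_eq hYl hd.bm.integrable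
    (fun s _ _ => integrable_condExp.integrableOn) (fun s hs _ => ?_) ?_).symm
  · obtain ⟨hf, hfY⟩ := b1_ind hYl hs
    set f : X → ℂ := s.indicator fun _ => (1 : ℂ) with hfd
    have hsb : MeasurableSet s := hYl s hs
    have key : ∀ F : X → ℂ, ∫ x in s, F x ∂μ = ∫ x, f x * F x ∂μ := by
      intro F
      rw [← integral_indicator hsb]
      refine integral_congr_ae (Eventually.of_forall fun x => ?_)
      show s.indicator F x = f x * F x
      by_cases hx : x ∈ s
      · rw [hfd, Set.indicator_of_mem hx, Set.indicator_of_mem hx, one_mul]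
      · rw [hfd, Set.indicator_of_notMem hx, Set.indicator_of_notMem hx, zero_mul]
    have hmD : AEStronglyMeasurable[D.m] (ce μ D d) μ := AH.ce_meas d
    have hmf : AEStronglyMeasurable[D.m] (ce μ D f) μ := AH.ce_meas f
    have e1 : ∫ x, f x * d x ∂μ = ∫ x, ce μ D' f x * d x ∂μ :=
      b1_int hDl' hf.bm hd.bm hD.stronglyMeasurable.aestronglyMeasurable
    have e2 : ∫ x, ce μ D' f x * d x ∂μ = ∫ x, ce μ D f x * d x ∂μ := by
      refine integral_congr_ae ?_
      filter_upwards [b.ri hf hfY] with x hx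
      rw [hx]
    have e3 : ∫ x, d x * ce μ D f x ∂μ = ∫ x, ce μ D d x * ce μ D f x ∂μ :=
      b1_int hDl hd.bm (ce_bm hf.bm) hmf
    have e4 : ∫ x, f x * ce μ D d x ∂μ = ∫ x, ce μ D f x * ce μ D d x ∂μ :=
      b1_int hDl hf.bm (ce_bm hd.bm) hmD
    have e5 : ∫ x, d x * ce μ D f x ∂μ = ∫ x, ce μ D f x * d x ∂μ :=
      integral_congr_ae (Eventually.of_forall fun x => mul_comm _ _)
    have e6 : ∫ x, ce μ D d x * ce μ D f x ∂μ = ∫ x, ce μ D f x * ce μ D d x ∂μ :=
      integral_congr_ae (Eventually.of_forall fun x => mul_comm _ _)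
    rw [key, key]
    show ∫ x, f x * ce μ D d x ∂μ = _
    rw [e4, ← e6, ← e3, e5, ← e2, ← e1]
  · exact (stronglyMeasurable_condExp.mono hDY).aestronglyMeasurable

/-- the two relative products agree on `Y ⊗ Y` (rectangles, `ri`, π-λ) -/
theorem BD.agree (b : BD μ S D D' Y Y' SS EE) (c : Ctx μ S D κ) (c' : Ctx μ S D' κ') (s : Set (X × X))
    (hs : MeasurableSet[Y.m.prod Y.m] s) : (μ ⊗ₘ κ) s = (μ ⊗ₘ κ') s := by
  have hYl := b.fY.le'
  have hle : Y.m.prod Y.m ≤ Prod.instMeasurableSpace := sup_le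
    ((MeasurableSpace.comap_mono hYl).trans le_sup_left) ((MeasurableSpace.comap_mono hYl).trans le_sup_right)
  have hrect : ∀ (D₀ : SA X) (κ₀ : Kernel X X) [IsMarkovKernel κ₀], Ctx μ S D₀ κ₀ → ∀ s t : Set X,
      MeasurableSet[Y.m] s → MeasurableSet[Y.m] t → ((μ ⊗ₘ κ₀).real (s ×ˢ t) : ℂ) =
        ∫ x, ce μ D₀ (s.indicator fun _ => (1 : ℂ)) x * ce μ D₀ (t.indicator fun _ => (1 : ℂ)) x ∂μ := by
    intro D₀ κ₀ _ c₀ s t hs ht
    rw [← c₀.fib.rect c₀.fac.le (b1_ind hYl hs).1 (b1_ind hYl ht).1]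
    have hst : MeasurableSet (s ×ˢ t) := (hYl s hs).prod (hYl t ht)
    have e1 : (fun z : X × X => (s.indicator (fun _ => (1 : ℂ)) z.1) * t.indicator (fun _ => (1 : ℂ)) z.2) =
        (s ×ˢ t).indicator fun _ => (1 : ℂ) := by
      funext z
      by_cases h1 : z.1 ∈ s
      · by_cases h2 : z.2 ∈ t
        · rw [Set.indicator_of_mem h1, Set.indicator_of_mem h2, Set.indicator_of_mem (Set.mk_mem_prod h1 h2), one_mul]
        · rw [Set.indicator_of_notMem h2, mul_zero, Set.indicator_of_notMem fun h => h2 h.2]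
      · rw [Set.indicator_of_notMem h1, zero_mul, Set.indicator_of_notMem fun h => h1 h.1]
    rw [e1, integral_indicator hst, setIntegral_const, Complex.real_smul, mul_one]
  refine MeasurableSpace.induction_on_inter (m := Y.m.prod Y.m) (C := fun s _ => (μ ⊗ₘ κ) s = (μ ⊗ₘ κ') s)
    (@generateFrom_prod X X Y.m Y.m).symm (@isPiSystem_prod X X Y.m Y.m) ?_ ?_ ?_ ?_ s hs
  · rw [measure_empty, measure_empty]
  · rintro _ ⟨s, hs, t, ht, rfl⟩
    have e1 := hrect D κ c s t hs ht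
    have e2 := hrect D' κ' c' s t hs ht
    have e3 : ((μ ⊗ₘ κ).real (s ×ˢ t) : ℂ) = ((μ ⊗ₘ κ').real (s ×ˢ t) : ℂ) := by
      rw [e1, e2]
      refine integral_congr_ae ?_
      filter_upwards [b.ri (b1_ind hYl hs).1 (b1_ind hYl hs).2, b.ri (b1_ind hYl ht).1 (b1_ind hYl ht).2]
        with x h1 h2
      rw [h1, h2]
    have e4 := Complex.ofReal_injective e3
    exact (ENNReal.toReal_eq_toReal_iff' (measure_ne_top _ _) (measure_ne_top _ _)).1 e4
  · intro t ht h
    rw [measure_compl (hle t ht) (measure_ne_top _ _), measure_compl (hle t ht) (measure_ne_top _ _), h,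
      measure_univ, measure_univ]
  · intro f hd hf h
    rw [measure_iUnion hd fun i => hle _ (hf i), measure_iUnion hd fun i => hle _ (hf i)]
    exact tsum_congr h

theorem BD.agree_int (b : BD μ S D D' Y Y' SS EE) (c : Ctx μ S D κ) (c' : Ctx μ S D' κ') {G : X × X → ℂ}
    (hG : StronglyMeasurable[Y.m.prod Y.m] G) : ∫ z, G z ∂(μ ⊗ₘ κ) = ∫ z, G z ∂(μ ⊗ₘ κ') := by
  have hYl := b.fY.le'
  have hle : Y.m.prod Y.m ≤ Prod.instMeasurableSpace := sup_le
    ((MeasurableSpace.comap_mono hYl).trans le_sup_left) ((MeasurableSpace.comap_mono hYl).trans le_sup_right)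
  have h : (μ ⊗ₘ κ).trim hle = (μ ⊗ₘ κ').trim hle :=
    @Measure.ext _ (Y.m.prod Y.m) _ _ fun s hs => by
      rw [trim_measurableSet_eq hle hs, trim_measurableSet_eq hle hs]
      exact b.agree c c' s hs
  rw [integral_trim hle hG, integral_trim hle hG, h]

end Pool.Agent.Lib.MP_9fe581_an.AP
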