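import Pool.Agent.Lib.MP_9fe581_an.AP.B1
import Pool.Agent.Lib.MP_9fe581_an.AP.G1

/-! # AP, B2: `Y ∨ D'` -/

set_option autoImplicit false

open Finset MeasureTheory Filter Topology ProbabilityTheory
open scoped ComplexConjugate ENNReal InnerProductSpace

namespace Pool.Agent.Lib.MP_9fe581_an.AP

variable {X : Type} [MeasurableSpace X] {μ : Measure X} [IsProbabilityMeasure μ] {S : X → X} {D D' Y Y' : SA X}
  {SS EE : Set (X → ℂ)} {κ κ' : Kernel X X} [IsMarkovKernel κ] [IsMarkovKernel κ']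

/-- `Y ∨ D'` -/
noncomputable def YD (μ : Measure X) (Y D' : SA X) : SA X := cpl μ ⟨Y.m ⊔ D'.m⟩

omit [IsProbabilityMeasure μ] in
private theorem b2_le (b : BD μ S D D' Y Y' SS EE) : Y.m ⊔ D'.m ≤ ‹MeasurableSpace X› :=
  sup_le (fun s hs => b.fY.le s hs) (fun s hs => b.fD'.le s hs)

omit [IsProbabilityMeasure μ] in
private theorem b2_YD (b : BD μ S D D' Y Y' SS EE) : (YD μ Y D').m = Y.m ⊔ D'.m := by
  refine le_antisymm (fun s hs => ?_) (le_cpl (D := ⟨Y.m ⊔ D'.m⟩) (b2_le b))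
  obtain ⟨h1, t, ht, hst⟩ := cpl_iff.1 hs
  have h2 : MeasurableSet t := b2_le b t ht
  have n1 : μ (t \ s) = 0 := (ae_eq_set.1 hst).2
  have n2 : μ (s \ t) = 0 := (ae_eq_set.1 hst).1
  have m1 : MeasurableSet[Y.m ⊔ D'.m] (t \ s) :=
    (le_sup_left : Y.m ≤ Y.m ⊔ D'.m) _ (b.fY.null _ (h2.diff h1) n1)
  have m2 : MeasurableSet[Y.m ⊔ D'.m] (s \ t) :=
    (le_sup_left : Y.m ≤ Y.m ⊔ D'.m) _ (b.fY.null _ (h1.diff h2) n2)
  have e : s = (t \ (t \ s)) ∪ (s \ t) := by
    ext x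
    simp only [Set.mem_union, Set.mem_sdiff]
    tauto
  rw [e]
  exact @MeasurableSet.union _ (Y.m ⊔ D'.m) _ _ (@MeasurableSet.diff _ (Y.m ⊔ D'.m) _ _ ht m1) m2

theorem BD.fYD (b : BD μ S D D' Y Y' SS EE) : Fac μ S (YD μ Y D') := by
  refine ⟨fun s hs => cpl_le _ s hs, fun s hs h0 => cpl_null hs h0, ?_⟩
  rw [b2_YD b, MeasurableSpace.comap_sup, b.fY.inv, b.fD'.inv]

theorem BD.emt (b : BD μ S D D' Y Y' SS EE) {e : X → ℂ} (he : e ∈ EE) : Em μ S D' (YD μ Y D') e := by
  refine ⟨b.fYD, fun s hs => ?_, fun s hs => b.fY'.le _ (b.emeas e he hs), b.enorm e he, ?_⟩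
  · rw [b2_YD b]
    exact (le_sup_right : D'.m ≤ Y.m ⊔ D'.m) _ hs
  · rw [b2_YD b]
    exact (b.eratio e he).mono (le_sup_left : Y.m ≤ Y.m ⊔ D'.m) le_rfl

omit [MeasurableSpace X] in
private theorem b2_gen (Y D' : SA X) : Y.m ⊔ D'.m = MeasurableSpace.generateFrom
    {w | ∃ s t, MeasurableSet[Y.m] s ∧ MeasurableSet[D'.m] t ∧ w = s ∩ t} := by
  refine le_antisymm (sup_le (fun s hs => ?_) (fun t ht => ?_)) (MeasurableSpace.generateFrom_le ?_)
  · exact MeasurableSpace.measurableSet_generateFrom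
      ⟨s, Set.univ, hs, @MeasurableSet.univ _ D'.m, by rw [Set.inter_univ]⟩
  · exact MeasurableSpace.measurableSet_generateFrom
      ⟨Set.univ, t, @MeasurableSet.univ _ Y.m, ht, by rw [Set.univ_inter]⟩
  · rintro w ⟨s, t, hs, ht, rfl⟩
    exact @MeasurableSet.inter _ (Y.m ⊔ D'.m) _ _ ((le_sup_left : Y.m ≤ Y.m ⊔ D'.m) _ hs)
      ((le_sup_right : D'.m ≤ Y.m ⊔ D'.m) _ ht)

omit [IsProbabilityMeasure μ] in
private theorem b2_pi {Z : Type} [MeasurableSpace Z] {ν : Measure Z} {q : Z → X} (hq : Measurable q)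
    (b : BD μ S D D' Y Y' SS EE) {w : Z → ℂ} (hw : Integrable w ν)
    (h : ∀ s t, MeasurableSet[Y.m] s → MeasurableSet[D'.m] t → ∫ z in q ⁻¹' (s ∩ t), w z ∂ν = 0)
    (W : Set X) (hW : MeasurableSet[Y.m ⊔ D'.m] W) : ∫ z in q ⁻¹' W, w z ∂ν = 0 := by
  have hle := b2_le b
  have huniv : ∫ z, w z ∂ν = 0 := by
    have := h Set.univ Set.univ (@MeasurableSet.univ _ Y.m) (@MeasurableSet.univ _ D'.m)
    rwa [Set.univ_inter, Set.preimage_univ, setIntegral_univ] at this
  refine MeasurableSpace.induction_on_inter (m := Y.m ⊔ D'.m)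
    (C := fun W _ => ∫ z in q ⁻¹' W, w z ∂ν = 0) (b2_gen Y D') ?_ ?_ ?_ ?_ ?_ W hW
  · rintro _ ⟨s, t, hs, ht, rfl⟩ _ ⟨s', t', hs', ht', rfl⟩ _
    exact ⟨s ∩ s', t ∩ t', @MeasurableSet.inter _ Y.m _ _ hs hs',
      @MeasurableSet.inter _ D'.m _ _ ht ht', by
        ext x
        simp only [Set.mem_inter_iff]
        tauto⟩
  · simp
  · rintro _ ⟨s, t, hs, ht, rfl⟩
    exact h s t hs ht
  · intro s hs h1
    have h2 := integral_add_compl (hq (hle s hs)) hw
    rw [h1, zero_add, huniv] at h2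
    exact h2
  · intro f hd hf h1
    show ∫ z in q ⁻¹' (⋃ i, f i), w z ∂ν = 0
    rw [Set.preimage_iUnion, integral_iUnion (fun i => hq (hle _ (hf i)))
      (fun i j hij => (hd hij).preimage q) hw.integrableOn]
    simp [h1]

private theorem b2_int {Z : Type} [mZ : MeasurableSpace Z] {ν : Measure Z} [IsFiniteMeasure ν]
    {q : Z → X} (hq : Measurable q) (b : BD μ S D D' Y Y' SS EE) {w : Z → ℂ} (hw : Integrable w ν)
    (h : ∀ s t, MeasurableSet[Y.m] s → MeasurableSet[D'.m] t → ∫ z in q ⁻¹' (s ∩ t), w z ∂ν = 0)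
    {g : X → ℂ} (hg : Bd g) (hgm : Measurable[(YD μ Y D').m] g) : ∫ z, w z * g (q z) ∂ν = 0 := by
  have hle := b2_le b
  have hG : (Y.m ⊔ D'.m).comap q ≤ mZ := by
    rintro _ ⟨W, hW, rfl⟩
    exact hq (hle W hW)
  have h0 : ν[w | (Y.m ⊔ D'.m).comap q] =ᵐ[ν] 0 := by
    refine (ae_eq_condExp_of_forall_setIntegral_eq hG hw (fun _ _ _ => integrableOn_zero) ?_
      aestronglyMeasurable_const).symm
    rintro _ ⟨W, hW, rfl⟩ _
    rw [b2_pi hq b hw h W hW]
    simp
  have hgq : StronglyMeasurable[(Y.m ⊔ D'.m).comap q] (fun z => g (q z)) := by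
    rw [b2_YD b] at hgm
    exact (hgm.comp (comap_measurable q)).stronglyMeasurable
  obtain ⟨C, hC⟩ := hg.bdd
  have hi : Integrable (fun z => w z * g (q z)) ν :=
    hw.mul_bdd (hg.meas.comp hq).aestronglyMeasurable (Eventually.of_forall fun z => hC _)
  have h1 : ν[fun z => w z * g (q z) | (Y.m ⊔ D'.m).comap q] =ᵐ[ν]
      fun z => (ν[w | (Y.m ⊔ D'.m).comap q]) z * g (q z) :=
    condExp_bilin_of_aestronglyMeasurable_right (ContinuousLinearMap.mul ℝ ℂ) hgq.aestronglyMeasurable hi hw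
  rw [← integral_condExp hG, integral_congr_ae h1]
  refine (integral_congr_ae (g := fun _ => (0 : ℂ)) ?_).trans (integral_zero _ _)
  filter_upwards [h0] with z hz
  rw [hz]
  simp

private theorem b2_bd {D : SA X} (hD : ∀ s, MeasurableSet[D.m] s → MeasurableSet s) {s : Set X}
    (hs : MeasurableSet[D.m] s) : Bd (s.indicator fun _ => (1 : ℂ)) ∧
      Measurable[D.m] (s.indicator fun _ => (1 : ℂ)) := by
  refine ⟨⟨measurable_const.indicator (hD s hs), 1, fun x => ?_⟩,
    @Measurable.indicator X ℂ _ _ D.m _ _ (@measurable_const _ _ _ D.m _) hs⟩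
  by_cases hx : x ∈ s
  · simp [hx]
  · simp [hx]

/-- **B2.** products `y d` are total in `L²(Y ∨ D')`, and products `y v` as well (`tot`), for bounded functions -/
theorem BD.total (b : BD μ S D D' Y Y' SS EE) {u : X → ℂ} (hu : ∃ B : ℝ, ∀ᵐ x ∂μ, ‖u x‖ ≤ B)
    (hu' : Measurable[(YD μ Y D').m] u)
    (h0 : ∀ v ∈ SS, ∀ y : X → ℂ, Bd y → Measurable[Y.m] y → ∫ x, u x * conj (v x) * conj (y x) ∂μ = 0) :
    u =ᵐ[μ] 0 := by
  obtain ⟨B, hB⟩ := hu
  have mu : Measurable u := hu'.mono (cpl_le _) le_rfl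
  have bu : AH.BM μ u := ⟨mu.aestronglyMeasurable, B, hB⟩
  have hD' : D'.m ≤ ‹MeasurableSpace X› := fun s hs => b.fD'.le s hs
  have hD : D.m ≤ ‹MeasurableSpace X› := fun s hs => b.fD.le s hs
  have key : ∀ s t, MeasurableSet[Y.m] s → MeasurableSet[D'.m] t → ∫ x in s ∩ t, u x ∂μ = 0 := by
    intro s t hs ht
    obtain ⟨by', my⟩ := b2_bd b.fY.le hs
    obtain ⟨bt, mt⟩ := b2_bd b.fD'.le ht
    set y : X → ℂ := s.indicator fun _ => (1 : ℂ) with hy
    set d : X → ℂ := t.indicator fun _ => (1 : ℂ) with hd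
    have buy : AH.BM μ (fun x => u x * conj (y x)) := bu.mul by'.bm.conj
    obtain ⟨g, mg, bg, hg⟩ := ce_rep (D := D') hD' buy
    have hg0 : g =ᵐ[μ] 0 := by
      refine b.tot g bg mg fun v hv => ?_
      have bv : AH.BM μ v := AH.BM.of_bdd (b.cls v hv).meas (C := 1) fun x => ((b.cls v hv).norm x).le
      refine (ae_eq_condExp_of_forall_setIntegral_eq hD (bg.bm.mul bv.conj).integrable
        (fun _ _ _ => integrableOn_zero) (fun r hr _ => ?_) aestronglyMeasurable_const).symm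
      obtain ⟨br, mr⟩ := b2_bd b.fD.le hr
      have h1 : ∫ x in r, g x * conj (v x) ∂μ =
          ∫ x, g x * conj (v x * r.indicator (fun _ => (1 : ℂ)) x) ∂μ := by
        rw [← integral_indicator (hD r hr)]
        refine integral_congr_ae (Eventually.of_forall fun x => ?_)
        by_cases hx : x ∈ r
        · simp [hx]
        · simp [hx]
      have mvr : Measurable[D'.m] (fun x => v x * r.indicator (fun _ => (1 : ℂ)) x) :=
        (b.mem v hv).mul (mr.mono (fun s hs => b.DD s hs) le_rfl)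
      have h2 : ∫ x, g x * conj (v x * r.indicator (fun _ => (1 : ℂ)) x) ∂μ =
          ∫ x, (u x * conj (y x)) * conj (v x * r.indicator (fun _ => (1 : ℂ)) x) ∂μ := by
        rw [ce_int' hD' buy (bv.mul br.bm) mvr]
        refine integral_congr_ae ?_
        filter_upwards [hg] with x hx
        rw [hx]
      have h3 := h0 v hv (fun x => y x * r.indicator (fun _ => (1 : ℂ)) x)
        ⟨by'.meas.mul br.meas, by
          obtain ⟨C, hC⟩ := by'.bdd
          obtain ⟨C', hC'⟩ := br.bdd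
          exact ⟨C * C', fun x => by
            rw [norm_mul]
            exact mul_le_mul (hC x) (hC' x) (norm_nonneg _) ((norm_nonneg _).trans (hC x))⟩⟩
        (my.mul (mr.mono (fun s hs => b.DY s hs) le_rfl))
      rw [h1, h2]
      simp only [integral_zero]
      rw [← h3]
      refine integral_congr_ae (Eventually.of_forall fun x => ?_)
      simp only [map_mul]
      ring
    have h4 : ∫ x, (u x * conj (y x)) * conj (d x) ∂μ = 0 := by
      rw [ce_int' hD' buy bt.bm mt]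
      refine (integral_congr_ae (g := fun _ => (0 : ℂ)) ?_).trans (integral_zero _ _)
      filter_upwards [hg, hg0] with x hx hx0
      rw [← hx, hx0]
      simp
    rw [← h4, ← integral_indicator ((b.fY.le s hs).inter (b.fD'.le t ht))]
    refine integral_congr_ae (Eventually.of_forall fun x => ?_)
    by_cases hx : x ∈ s
    · by_cases hx' : x ∈ t
      · simp [hy, hd, hx, hx']
      · simp [hy, hd, hx, hx']
    · simp [hy, hd, hx]
  have mset : MeasurableSet[(YD μ Y D').m] {x | ‖u x‖ ≤ B} := (measurable_norm.comp hu') measurableSet_Iic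
  have hbd : Bd ({x | ‖u x‖ ≤ B}.indicator fun x => conj (u x)) := by
    refine ⟨(Complex.continuous_conj.measurable.comp mu).indicator (cpl_le _ _ mset), |B|, fun x => ?_⟩
    by_cases hx : x ∈ {x | ‖u x‖ ≤ B}
    · rw [Set.indicator_of_mem hx, RCLike.norm_conj]
      exact le_trans hx (le_abs_self B)
    · rw [Set.indicator_of_notMem hx, norm_zero]
      exact abs_nonneg B
  have h5 := b2_int (q := id) measurable_id b bu.integrable key hbd
    (@Measurable.indicator X ℂ _ _ (YD μ Y D').m _ _ (Complex.continuous_conj.measurable.comp hu') mset)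
  have h6 : ∫ x, u x * conj (u x) ∂μ = 0 := by
    rw [← h5]
    refine integral_congr_ae ?_
    filter_upwards [hB] with x hx
    show u x * conj (u x) = u x * {x | ‖u x‖ ≤ B}.indicator (fun x => conj (u x)) x
    rw [Set.indicator_of_mem (show x ∈ {x | ‖u x‖ ≤ B} from hx)]
  rw [AH.int_mul_conj_self] at h6
  have h7 : ∫ x, ‖u x‖ ^ 2 ∂μ = 0 := by exact_mod_cast h6
  have h8 := (integral_eq_zero_iff_of_nonneg (fun x => by positivity) bu.int_sq).1 h7
  filter_upwards [h8] with x hx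
  have : ‖u x‖ ^ 2 = 0 := hx
  exact norm_eq_zero.1 (pow_eq_zero_iff (two_ne_zero)|>.1 this)

/-- a kernel over `D'` of the form `e ⊗ conj e · (Y ∨ D') ⊗ (Y ∨ D')` that kills `e L^∞(Y)` is zero -/
theorem BD.kill (b : BD μ S D D' Y Y' SS EE) (c' : Ctx μ S D' κ') {e : X → ℂ} (he : e ∈ EE) {a : X → ℂ}
    (ha : Uni D' a) {K : X × X → ℂ} (hK : Ker μ S κ' a K) (mK : Pm μ κ' e (YD μ Y D') K)
    (h0 : ∀ y : X → ℂ, Bd y → Measurable[Y.m] y → act κ' K (fun x => e x * y x) =ᵐ[μ] 0) :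
    K =ᵐ[μ ⊗ₘ κ'] 0 := by
  have hE := b.emt he
  refine Pm_zero c' hE hK.meas hK.l2 mK fun f g hf hg _ mg => ?_
  have hef : ∀ {φ : X → ℂ}, Bd φ → Bd (fun x => e x * φ x) := by
    intro φ hφ
    obtain ⟨C, hC⟩ := hφ.bdd
    exact ⟨hE.meas.mul hφ.meas, C, fun x => by rw [norm_mul, hE.norm, one_mul]; exact hC x⟩
  have hbe : Bd (fun _ : X => (1 : ℂ)) := ⟨measurable_const, 1, fun x => by simp⟩
  have hR : Bc μ κ' (rc (fun x => e x * f x) (fun x => e x * 1)) := bc_rc (hef hf) (hef hbe)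
  have hw : Integrable (fun z => K z * conj (rc (fun x => e x * f x) (fun x => e x * 1) z)) (μ ⊗ₘ κ') :=
    hK.l2.integrable_mul hR.l2.star
  have h1 := b2_int (q := Prod.snd) measurable_snd b hw (fun s t hs ht => ?_) hg mg
  · rw [← h1]
    refine integral_congr_ae (Eventually.of_forall fun z => ?_)
    simp only [rc, map_mul, Complex.conj_conj, map_one]
    ring
  · obtain ⟨bs, ms⟩ := b2_bd b.fY.le hs
    obtain ⟨bt, mt⟩ := b2_bd b.fD'.le ht
    have h2 := pair_act c' ha hK (hef (φ := fun x => f x * t.indicator (fun _ => (1 : ℂ)) x) (by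
      obtain ⟨C, hC⟩ := hf.bdd
      obtain ⟨C', hC'⟩ := bt.bdd
      exact ⟨hf.meas.mul bt.meas, C * C', fun x => by
        rw [norm_mul]
        exact mul_le_mul (hC x) (hC' x) (norm_nonneg _) ((norm_nonneg _).trans (hC x))⟩)) (hef bs)
    have h3 : ∫ x, act κ' K (fun x => e x * s.indicator (fun _ => (1 : ℂ)) x) x *
        conj (e x * (f x * t.indicator (fun _ => (1 : ℂ)) x)) ∂μ = 0 := by
      refine (integral_congr_ae (g := fun _ => (0 : ℂ)) ?_).trans (integral_zero _ _)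
      filter_upwards [h0 _ bs ms] with x hx
      rw [hx]
      simp
    rw [h3] at h2
    rw [← h2, ← integral_indicator (measurable_snd ((b.fY.le s hs).inter (b.fD'.le t ht)))]
    refine integral_congr_ae ?_
    filter_upwards [c'.fib.const bt.meas mt] with z hz
    simp only [rc, map_mul, Complex.conj_conj, map_one]
    rw [hz]
    by_cases hx : z.2 ∈ s
    · by_cases hx' : z.2 ∈ t
      · simp [hx, hx']
      · simp [hx, hx']
    · simp [hx]

end Pool.Agent.Lib.MP_9fe581_an.AP
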