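import Pool.Agent.Lib.MP_9fe581_an.AP.B2

/-! # AP, B3, B4: compression and extension of kernels -/

set_option autoImplicit false

open Finset MeasureTheory Filter Topology ProbabilityTheory
open scoped ComplexConjugate ENNReal InnerProductSpace

namespace Pool.Agent.Lib.MP_9fe581_an.AP

variable {X : Type} [MeasurableSpace X] {μ : Measure X} [IsProbabilityMeasure μ] {S : X → X} {D D' Y Y' : SA X}
  {SS EE : Set (X → ℂ)} {κ κ' : Kernel X X} [IsMarkovKernel κ] [IsMarkovKernel κ']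

/-! ### auxiliary facts -/

omit [MeasurableSpace X] in
theorem b3_c1 {e : X → ℂ} (h : ∀ x, ‖e x‖ = 1) (x : X) : conj (e x) * e x = 1 := by
  rw [mul_comm, Complex.mul_conj, Complex.normSq_eq_norm_sq, h]; norm_num

theorem b3_pull {Ω : Type} {m m0 : MeasurableSpace Ω} {ν : Measure Ω} [IsProbabilityMeasure ν] (hm : m ≤ m0)
    {F k : Ω → ℂ} (hF : Integrable F ν) (hk : AEStronglyMeasurable[m] k ν)
    (hFk : Integrable (fun z => F z * k z) ν) : ∫ z, F z * k z ∂ν = ∫ z, (ν[F | m]) z * k z ∂ν := by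
  have h := condExp_bilin_of_aestronglyMeasurable_right (ContinuousLinearMap.mul ℝ ℂ) hk hFk hF
  rw [← integral_condExp hm]
  exact integral_congr_ae h

omit [IsProbabilityMeasure μ] in
theorem b3_lp {ν : Measure (X × X)} {e : X → ℂ} (me : Measurable e) (he : ∀ x, ‖e x‖ = 1) {G : X × X → ℂ}
    (hG : MemLp G 2 ν) : MemLp (fun z => e z.1 * G z * conj (e z.2)) 2 ν := by
  refine hG.of_le ?_ ?_
  · exact ((me.comp measurable_fst).aestronglyMeasurable.mul hG.1).mul
      (Complex.continuous_conj.measurable.comp (me.comp measurable_snd)).aestronglyMeasurable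
  · exact Eventually.of_forall fun z => by
      rw [norm_mul, norm_mul, he, RCLike.norm_conj, he, one_mul, mul_one]

omit [IsProbabilityMeasure μ] in
theorem b3_lp' {ν : Measure (X × X)} {e : X → ℂ} (me : Measurable e) (he : ∀ x, ‖e x‖ = 1) {G : X × X → ℂ}
    (hG : MemLp G 2 ν) : MemLp (fun z => conj (e z.1) * G z * e z.2) 2 ν := by
  refine hG.of_le ?_ ?_
  · exact ((Complex.continuous_conj.measurable.comp (me.comp measurable_fst)).aestronglyMeasurable.mul hG.1).mul
      (me.comp measurable_snd).aestronglyMeasurable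
  · exact Eventually.of_forall fun z => by
      rw [norm_mul, norm_mul, he, RCLike.norm_conj, he, one_mul, mul_one]

theorem b3_le (b : BD μ S D D' Y Y' SS EE) : Y.m.prod Y.m ≤ (Prod.instMeasurableSpace : MeasurableSpace (X × X)) :=
  k6b_prod b.fY.le' b.fY.le'

theorem b3_trimeq {Ω : Type} {m m0 : MeasurableSpace Ω} {ν ν' : @Measure Ω m0} (hm : m ≤ m0)
    (h : ∀ s, MeasurableSet[m] s → ν s = ν' s) : ν.trim hm = ν'.trim hm :=
  @Measure.ext Ω m _ _ fun s hs => by
    rw [trim_measurableSet_eq hm hs, trim_measurableSet_eq hm hs]; exact h s hs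

theorem b3_intgen {Ω : Type} {m m0 : MeasurableSpace Ω} {ν ν' : @Measure Ω m0} (hm : m ≤ m0)
    (h : ∀ s, MeasurableSet[m] s → ν s = ν' s) {G : Ω → ℂ} (hG : StronglyMeasurable[m] G) :
    ∫ z, G z ∂ν = ∫ z, G z ∂ν' := by
  rw [integral_trim hm hG, integral_trim hm hG, b3_trimeq hm h]

/-- the two products agree on `X ⊗ Y` -/
theorem b3_agree (b : BD μ S D D' Y Y' SS EE) (c : Ctx μ S D κ) (c' : Ctx μ S D' κ') (s : Set (X × X))
    (hs : MeasurableSet[(‹MeasurableSpace X›).prod Y.m] s) : (μ ⊗ₘ κ) s = (μ ⊗ₘ κ') s := by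
  have hYl := b.fY.le'
  have hle : (‹MeasurableSpace X›).prod Y.m ≤ Prod.instMeasurableSpace := k6b_prod le_rfl hYl
  have hind : ∀ s : Set X, MeasurableSet s → Bd (s.indicator fun _ => (1 : ℂ)) := fun s hs =>
    ⟨measurable_const.indicator hs, 1, fun x => by
      by_cases hx : x ∈ s
      · rw [Set.indicator_of_mem hx, norm_one]
      · rw [Set.indicator_of_notMem hx, norm_zero]; exact zero_le_one⟩
  have hrect : ∀ (D₀ : SA X) (κ₀ : Kernel X X) [IsMarkovKernel κ₀], Ctx μ S D₀ κ₀ → ∀ s t : Set X,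
      MeasurableSet s → MeasurableSet[Y.m] t → ((μ ⊗ₘ κ₀).real (s ×ˢ t) : ℂ) =
        ∫ x, (s.indicator fun _ => (1 : ℂ)) x * ce μ D₀ (t.indicator fun _ => (1 : ℂ)) x ∂μ := by
    intro D₀ κ₀ _ c₀ s t hs ht
    have hst : MeasurableSet (s ×ˢ t) := hs.prod (hYl t ht)
    have e1 : (fun z : X × X => (s.indicator (fun _ => (1 : ℂ)) z.1) * t.indicator (fun _ => (1 : ℂ)) z.2) =
        (s ×ˢ t).indicator fun _ => (1 : ℂ) := by
      funext z
      by_cases h1 : z.1 ∈ s
      · by_cases h2 : z.2 ∈ t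
        · rw [Set.indicator_of_mem h1, Set.indicator_of_mem h2, Set.indicator_of_mem (Set.mk_mem_prod h1 h2), one_mul]
        · rw [Set.indicator_of_notMem h2, mul_zero, Set.indicator_of_notMem fun h => h2 h.2]
      · rw [Set.indicator_of_notMem h1, zero_mul, Set.indicator_of_notMem fun h => h1 h.1]
    have e2 : ∫ x, (s.indicator fun _ => (1 : ℂ)) x * ce μ D₀ (t.indicator fun _ => (1 : ℂ)) x ∂μ =
        ∫ x, ce μ D₀ (s.indicator fun _ => (1 : ℂ)) x * ce μ D₀ (t.indicator fun _ => (1 : ℂ)) x ∂μ :=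
      b1_int c₀.fac.le' (hind s hs).bm (ce_bm (hind t (hYl t ht)).bm) (AH.ce_meas _)
    rw [e2, ← c₀.fib.rect c₀.fac.le (hind s hs) (hind t (hYl t ht)), e1, integral_indicator hst,
      setIntegral_const, Complex.real_smul, mul_one]
  refine MeasurableSpace.induction_on_inter (m := (‹MeasurableSpace X›).prod Y.m)
    (C := fun s _ => (μ ⊗ₘ κ) s = (μ ⊗ₘ κ') s)
    (@generateFrom_prod X X _ Y.m).symm (@isPiSystem_prod X X _ Y.m) ?_ ?_ ?_ ?_ s hs
  · rw [measure_empty, measure_empty]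
  · rintro _ ⟨s, hs, t, ht, rfl⟩
    have e3 : ((μ ⊗ₘ κ).real (s ×ˢ t) : ℂ) = ((μ ⊗ₘ κ').real (s ×ˢ t) : ℂ) := by
      rw [hrect D κ c s t hs ht, hrect D' κ' c' s t hs ht]
      refine integral_congr_ae ?_
      filter_upwards [b.ri (b1_ind hYl ht).1 (b1_ind hYl ht).2] with x h1
      rw [h1]
    have e4 := Complex.ofReal_injective e3
    exact (ENNReal.toReal_eq_toReal_iff' (measure_ne_top _ _) (measure_ne_top _ _)).1 e4
  · intro t ht h
    rw [measure_compl (hle t ht) (measure_ne_top _ _), measure_compl (hle t ht) (measure_ne_top _ _), h,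
      measure_univ, measure_univ]
  · intro f hd hf h
    rw [measure_iUnion hd fun i => hle _ (hf i), measure_iUnion hd fun i => hle _ (hf i)]
    exact tsum_congr h

theorem b3_agree_int (b : BD μ S D D' Y Y' SS EE) (c : Ctx μ S D κ) (c' : Ctx μ S D' κ') {G : X × X → ℂ}
    (hG : StronglyMeasurable[(‹MeasurableSpace X›).prod Y.m] G) :
    ∫ z, G z ∂(μ ⊗ₘ κ) = ∫ z, G z ∂(μ ⊗ₘ κ') := by
  have hle : (‹MeasurableSpace X›).prod Y.m ≤ Prod.instMeasurableSpace := k6b_prod le_rfl b.fY.le'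
  exact b3_intgen hle (b3_agree b c c') hG

theorem b3_ae (b : BD μ S D D' Y Y' SS EE) (c : Ctx μ S D κ) (c' : Ctx μ S D' κ') {A : X × X → Prop}
    (hA : MeasurableSet[Y.m.prod Y.m] {z | A z}) : (∀ᵐ z ∂(μ ⊗ₘ κ), A z) ↔ ∀ᵐ z ∂(μ ⊗ₘ κ'), A z := by
  have e : {z : X × X | ¬ A z} = {z | A z}ᶜ := rfl
  rw [ae_iff, ae_iff, e, b.agree c c' _ (@MeasurableSet.compl _ _ (Y.m.prod Y.m) hA)]

theorem b3_eLp (b : BD μ S D D' Y Y' SS EE) (c : Ctx μ S D κ) (c' : Ctx μ S D' κ') {G : X × X → ℂ}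
    (hG : StronglyMeasurable[Y.m.prod Y.m] G) : eLpNorm G 2 (μ ⊗ₘ κ) = eLpNorm G 2 (μ ⊗ₘ κ') := by
  have hle := b3_le b
  have h : (μ ⊗ₘ κ).trim hle = (μ ⊗ₘ κ').trim hle :=
    @Measure.ext _ (Y.m.prod Y.m) _ _ fun s hs => by
      rw [trim_measurableSet_eq hle hs, trim_measurableSet_eq hle hs]
      exact b.agree c c' s hs
  rw [← eLpNorm_trim hle hG, ← eLpNorm_trim hle hG, h]

theorem b3_memLp (b : BD μ S D D' Y Y' SS EE) (c : Ctx μ S D κ) (c' : Ctx μ S D' κ') {G : X × X → ℂ}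
    (hG : StronglyMeasurable[Y.m.prod Y.m] G) : MemLp G 2 (μ ⊗ₘ κ) ↔ MemLp G 2 (μ ⊗ₘ κ') := by
  have hm : StronglyMeasurable G := hG.mono (b3_le b)
  refine ⟨fun h => ⟨hm.aestronglyMeasurable, ?_⟩, fun h => ⟨hm.aestronglyMeasurable, ?_⟩⟩
  · rw [← b3_eLp b c c' hG]; exact h.2
  · rw [b3_eLp b c c' hG]; exact h.2

omit [MeasurableSpace X] in
theorem b3_comap {Y : SA X} {S : X → X} (h : Y.m.comap S = Y.m) :
    (Y.m.prod Y.m).comap (Prod.map S S) = Y.m.prod Y.m := by
  have e1 : (Y.m.comap Prod.fst).comap (Prod.map S S) = (Y.m.comap S).comap (Prod.fst : X × X → X) := by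
    rw [MeasurableSpace.comap_comp, MeasurableSpace.comap_comp]; rfl
  have e2 : (Y.m.comap Prod.snd).comap (Prod.map S S) = (Y.m.comap S).comap (Prod.snd : X × X → X) := by
    rw [MeasurableSpace.comap_comp, MeasurableSpace.comap_comp]; rfl
  show (Y.m.comap Prod.fst ⊔ Y.m.comap Prod.snd).comap (Prod.map S S) = Y.m.comap Prod.fst ⊔ Y.m.comap Prod.snd
  rw [MeasurableSpace.comap_sup, e1, e2, h]

theorem b3_cecomp {Ω : Type} {m m0 : MeasurableSpace Ω} {ν : Measure Ω} [IsProbabilityMeasure ν] (hm : m ≤ m0)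
    {T : Ω → Ω} (hT : MeasurePreserving T ν ν) (hinv : m.comap T = m) {f : Ω → ℂ} (hf : Integrable f ν) :
    ν[fun x => f (T x) | m] =ᵐ[ν] fun x => (ν[f | m]) (T x) := by
  have hcomp : ∀ {g : Ω → ℂ}, Integrable g ν → Integrable (fun x => g (T x)) ν := fun hg => hT.integrable_comp_of_integrable hg
  have hSm : @Measurable _ _ m m T := by
    rw [measurable_iff_comap_le, hinv]
  refine (ae_eq_condExp_of_forall_setIntegral_eq hm (hcomp hf) (fun s _ _ => (hcomp integrable_condExp).integrableOn)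
    (fun s hs _ => ?_) ?_).symm
  · rw [← hinv] at hs
    obtain ⟨t, ht, rfl⟩ := hs
    have htb : MeasurableSet t := hm t ht
    have key : ∀ g : Ω → ℂ, Integrable g ν → ∫ x in T ⁻¹' t, g (T x) ∂ν = ∫ y in t, g y ∂ν := by
      intro g hg
      have h1 := setIntegral_map (μ := ν) (g := T) (f := g) htb (by rw [hT.map_eq]; exact hg.1) hT.measurable.aemeasurable
      rw [hT.map_eq] at h1
      exact h1.symm
    rw [key _ hf, key _ integrable_condExp, setIntegral_condExp hm hf ht]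
  · exact (stronglyMeasurable_condExp.comp_measurable hSm).aestronglyMeasurable

omit [MeasurableSpace X] in
theorem b3_pairH {e : X → ℂ} (P : X × X → ℂ) (f g : X → ℂ) (z : X × X) :
    P z * conj (rc (fun x => e x * g x) (fun x => e x * f x) z) =
      (conj (e z.1) * P z * e z.2) * (conj (g z.1) * f z.2) := by
  simp only [rc, map_mul, Complex.conj_conj]
  ring

omit [MeasurableSpace X] in
theorem b3_un {e : X → ℂ} (he : ∀ x, ‖e x‖ = 1) (a : ℂ) (z : X × X) :
    conj (e z.1) * (e z.1 * a * conj (e z.2)) * e z.2 = a := by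
  have h1 := b3_c1 he z.1
  have h2 := b3_c1 he z.2
  calc conj (e z.1) * (e z.1 * a * conj (e z.2)) * e z.2 =
        (conj (e z.1) * e z.1) * a * (conj (e z.2) * e z.2) := by ring
    _ = a := by rw [h1, h2, one_mul, mul_one]

theorem b3_k {Y : SA X} {f g : X → ℂ} (mf : Measurable[Y.m] f) (mg : Measurable[Y.m] g) :
    StronglyMeasurable[Y.m.prod Y.m] fun z : X × X => conj (g z.1) * f z.2 := by
  have hm : @Measurable (X × X) ℂ (Y.m.prod Y.m) _ fun z : X × X => conj (g z.1) * f z.2 :=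
    (Complex.continuous_conj.measurable.comp (mg.comp (@measurable_fst X X Y.m Y.m))).mul
      (mf.comp (@measurable_snd X X Y.m Y.m))
  exact hm.stronglyMeasurable

theorem b3_kb {ν : Measure (X × X)} {f g : X → ℂ} (hf : Bd f) (hg : Bd g) :
    AH.BM ν fun z : X × X => conj (g z.1) * f z.2 := by
  obtain ⟨C, hC⟩ := hf.bdd
  obtain ⟨C', hC'⟩ := hg.bdd
  refine AH.BM.of_bdd ((Complex.continuous_conj.measurable.comp (hg.meas.comp measurable_fst)).mul
    (hf.meas.comp measurable_snd)) (C := |C'| * |C|) fun z => ?_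
  show ‖conj (g z.1) * f z.2‖ ≤ _
  rw [norm_mul, RCLike.norm_conj]
  exact mul_le_mul ((hC' _).trans (le_abs_self _)) ((hC _).trans (le_abs_self _)) (norm_nonneg _) (abs_nonneg _)

theorem b3_mulb {Ω : Type} {m0 : MeasurableSpace Ω} {ν : Measure Ω} [IsProbabilityMeasure ν] {F k : Ω → ℂ}
    (hF : Integrable F ν) (hk : AH.BM ν k) : Integrable (fun z => F z * k z) ν := by
  obtain ⟨h1, C, h2⟩ := hk
  exact hF.mul_bdd h1 h2

/-- a version of the pairing -/
theorem b3_pairG {ν : Measure (X × X)} {e : X → ℂ} (he : ∀ x, ‖e x‖ = 1) {P G : X × X → ℂ}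
    (h : P =ᵐ[ν] fun z => e z.1 * G z * conj (e z.2)) (f g : X → ℂ) :
    ∫ z, P z * conj (rc (fun x => e x * g x) (fun x => e x * f x) z) ∂ν = ∫ z, G z * (conj (g z.1) * f z.2) ∂ν := by
  refine integral_congr_ae ?_
  filter_upwards [h] with z hz
  rw [b3_pairH, hz, b3_un he]

/-- the pairing of a kernel over `D'` in terms of its conditional expectation on `Y ⊗ Y`, over `D` -/
theorem b3_pairE (b : BD μ S D D' Y Y' SS EE) (c : Ctx μ S D κ) (c' : Ctx μ S D' κ') {e : X → ℂ} (he : e ∈ EE)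
    {P : X × X → ℂ} (hP : MemLp P 2 (μ ⊗ₘ κ')) {f g : X → ℂ} (hf : Bd f) (hg : Bd g) (mf : Measurable[Y.m] f)
    (mg : Measurable[Y.m] g) :
    ∫ z, P z * conj (rc (fun x => e x * g x) (fun x => e x * f x) z) ∂(μ ⊗ₘ κ') =
      ∫ z, ((μ ⊗ₘ κ')[fun z => conj (e z.1) * P z * e z.2 | Y.m.prod Y.m]) z * (conj (g z.1) * f z.2) ∂(μ ⊗ₘ κ) := by
  have hem := b.em he
  have hH := (b3_lp' hem.meas hem.norm hP).integrable (by norm_num)
  have hk := b3_kb (ν := μ ⊗ₘ κ') hf hg
  have hkm := b3_k (X := X) mf mg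
  have e1 : ∫ z, P z * conj (rc (fun x => e x * g x) (fun x => e x * f x) z) ∂(μ ⊗ₘ κ') =
      ∫ z, (conj (e z.1) * P z * e z.2) * (conj (g z.1) * f z.2) ∂(μ ⊗ₘ κ') :=
    integral_congr_ae (Eventually.of_forall fun z => b3_pairH P f g z)
  rw [e1, b3_pull (b3_le b) hH hkm.aestronglyMeasurable (b3_mulb hH hk)]
  exact (b.agree_int c c' (stronglyMeasurable_condExp.mul hkm)).symm

/-- the condition of invariance in terms of the version -/
theorem b3_inv (b : BD μ S D D' Y Y' SS EE) {e : X → ℂ} (he : e ∈ EE) {G : X × X → ℂ}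
    (hG : StronglyMeasurable[Y.m.prod Y.m] G) {a : X → ℂ} (ha : Measurable[Y.m] a) :
    MeasurableSet[Y.m.prod Y.m] {z : X × X | (e (S z.1) * conj (e z.1)) * conj (e (S z.2) * conj (e z.2)) *
      G (Prod.map S S z) = a z.1 * G z} := by
  have hem := b.em he
  have hSm : @Measurable _ _ (Y.m.prod Y.m) (Y.m.prod Y.m) (Prod.map S S) := by
    rw [measurable_iff_comap_le, b3_comap hem.fac.inv]
  have h1 : @Measurable (X × X) ℂ (Y.m.prod Y.m) _ fun z : X × X => e (S z.1) * conj (e z.1) :=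
    hem.ratio.comp (@measurable_fst X X Y.m Y.m)
  have h2 : @Measurable (X × X) ℂ (Y.m.prod Y.m) _ fun z : X × X => conj (e (S z.2) * conj (e z.2)) :=
    Complex.continuous_conj.measurable.comp (hem.ratio.comp (@measurable_snd X X Y.m Y.m))
  have h3 : @Measurable (X × X) ℂ (Y.m.prod Y.m) _ fun z : X × X => G (Prod.map S S z) := hG.measurable.comp hSm
  have h4 : @Measurable (X × X) ℂ (Y.m.prod Y.m) _ fun z : X × X => a z.1 * G z :=
    (ha.comp (@measurable_fst X X Y.m Y.m)).mul hG.measurable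
  exact @measurableSet_eq_fun (X × X) ℂ (Y.m.prod Y.m) _ _ _ _ ((h1.mul h2).mul h3) h4

omit [MeasurableSpace X] in
theorem b3_tw {e : X → ℂ} (he : ∀ x, ‖e x‖ = 1) {G : X × X → ℂ} {t : ℂ} {z : X × X}
    (h : (e (S z.1) * conj (e z.1)) * conj (e (S z.2) * conj (e z.2)) * G (Prod.map S S z) = t * G z) :
    e (S z.1) * G (Prod.map S S z) * conj (e (S z.2)) = t * (e z.1 * G z * conj (e z.2)) := by
  have h1 := b3_c1 he z.1
  have h2 := b3_c1 he z.2
  rw [map_mul, Complex.conj_conj] at h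
  calc e (S z.1) * G (Prod.map S S z) * conj (e (S z.2)) =
        ((e (S z.1) * conj (e z.1)) * (conj (e (S z.2)) * e z.2) * G (Prod.map S S z)) * (e z.1 * conj (e z.2)) := by
        have : (e (S z.1) * conj (e z.1)) * (conj (e (S z.2)) * e z.2) * G (Prod.map S S z) * (e z.1 * conj (e z.2)) =
          e (S z.1) * G (Prod.map S S z) * conj (e (S z.2)) * (conj (e z.1) * e z.1) * (conj (e z.2) * e z.2) := by ring
        rw [this, h1, h2, mul_one, mul_one]
    _ = t * (e z.1 * G z * conj (e z.2)) := by rw [h]; ring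

omit [MeasurableSpace X] in
theorem b3_tw' {e : X → ℂ} (he : ∀ x, ‖e x‖ = 1) {G : X × X → ℂ} {t : ℂ} {z : X × X}
    (h : e (S z.1) * G (Prod.map S S z) * conj (e (S z.2)) = t * (e z.1 * G z * conj (e z.2))) :
    (e (S z.1) * conj (e z.1)) * conj (e (S z.2) * conj (e z.2)) * G (Prod.map S S z) = t * G z := by
  have h1 := b3_c1 he z.1
  have h2 := b3_c1 he z.2
  rw [map_mul, Complex.conj_conj]
  calc (e (S z.1) * conj (e z.1)) * (conj (e (S z.2)) * e z.2) * G (Prod.map S S z) =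
        (e (S z.1) * G (Prod.map S S z) * conj (e (S z.2))) * (conj (e z.1) * e z.2) := by ring
    _ = t * G z * (conj (e z.1) * e z.1) * (conj (e z.2) * e z.2) := by rw [h]; ring
    _ = t * G z := by rw [h1, h2, mul_one, mul_one]

/-- **B3, compression.** `m = e ⊗ conj e · E_{ρ'}(conj e ⊗ e · conj v N | Y ⊗ Y)` -/
theorem exists_cmp (b : BD μ S D D' Y Y' SS EE) (c : Ctx μ S D κ) (c' : Ctx μ S D' κ') {e : X → ℂ} (he : e ∈ EE)
    {v : X → ℂ} (hv : v ∈ SS) (N : Bv c') :
    ∃ m : X × X → ℂ, Ker μ S κ (fun x => conj (v (S x) * conj (v x))) m ∧ Pm μ κ e Y m ∧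
      ∀ f g : X → ℂ, Bd f → Bd g → Measurable[Y.m] f → Measurable[Y.m] g →
        ∫ z, m z * conj (rc (fun x => e x * g x) (fun x => e x * f x) z) ∂(μ ⊗ₘ κ) =
          ∫ z, conj (v z.1) * fn N z * conj (rc (fun x => e x * g x) (fun x => e x * f x) z) ∂(μ ⊗ₘ κ') := by
  have hem := b.em he
  have hvc := b.cls v hv
  have hN := fn_ker N
  have hmv : Measurable fun z : X × X => conj (v z.1) :=
    Complex.continuous_conj.measurable.comp (hvc.meas.comp measurable_fst)
  -- the twisted kernel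
  set P : X × X → ℂ := fun z => conj (v z.1) * fn N z with hPd
  have hP : MemLp P 2 (μ ⊗ₘ κ') := by
    refine hN.l2.of_le (hmv.mul hN.meas).aestronglyMeasurable (Eventually.of_forall fun z => ?_)
    rw [hPd]
    dsimp only
    rw [norm_mul, RCLike.norm_conj, hvc.norm, one_mul]
  have hH2 := b3_lp' hem.meas hem.norm hP
  have hHi := hH2.integrable (by norm_num)
  set H : X × X → ℂ := fun z => conj (e z.1) * P z * e z.2 with hHd
  set G : X × X → ℂ := (μ ⊗ₘ κ')[H | Y.m.prod Y.m] with hGd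
  have hGm : StronglyMeasurable[Y.m.prod Y.m] G := stronglyMeasurable_condExp
  have hG2' : MemLp G 2 (μ ⊗ₘ κ') := hH2.condExp (by norm_num)
  have hG2 : MemLp G 2 (μ ⊗ₘ κ) := (b3_memLp b c c' hGm).2 hG2'
  have ha : Measurable[Y.m] fun x => conj (v (S x) * conj (v x)) :=
    b1_cm (hvc.ratio.mono (fun s hs => b.DY s hs) le_rfl)
  -- invariance over `D'`
  have hinv' : ∀ᵐ z ∂(μ ⊗ₘ κ'), (e (S z.1) * conj (e z.1)) * conj (e (S z.2) * conj (e z.2)) *
      G (Prod.map S S z) = conj (v (S z.1) * conj (v z.1)) * G z := by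
    have e1 := b3_cecomp (b3_le b) c'.pres (b3_comap hem.fac.inv) hHi
    set w : X × X → ℂ := fun z => conj (e (S z.1) * conj (e z.1)) * (e (S z.2) * conj (e z.2)) *
      conj (v (S z.1) * conj (v z.1)) with hw
    have hwm : @Measurable (X × X) ℂ (Y.m.prod Y.m) _ w :=
      ((Complex.continuous_conj.measurable.comp (hem.ratio.comp (@measurable_fst X X Y.m Y.m))).mul
        (hem.ratio.comp (@measurable_snd X X Y.m Y.m))).mul (ha.comp (@measurable_fst X X Y.m Y.m))
    have hwn : ∀ z, ‖w z‖ = 1 := by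
      intro z
      rw [hw]
      dsimp only
      rw [norm_mul, norm_mul, RCLike.norm_conj, RCLike.norm_conj, norm_mul, norm_mul, norm_mul,
        RCLike.norm_conj, RCLike.norm_conj, RCLike.norm_conj, hem.norm, hem.norm, hem.norm, hem.norm, hvc.norm,
        hvc.norm]
      norm_num
    have hwb : AH.BM (μ ⊗ₘ κ') w := AH.BM.of_bdd (hwm.mono (b3_le b) le_rfl) (C := 1) fun z => (hwn z).le
    have e2 : (fun z => H (Prod.map S S z)) =ᵐ[μ ⊗ₘ κ'] fun z => H z * w z := by
      filter_upwards [hN.tw] with z hz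
      have hz' : fn N (S z.1, S z.2) = fn N z := by rw [hz, one_mul]
      show conj (e (S z.1)) * (conj (v (S z.1)) * fn N (S z.1, S z.2)) * e (S z.2) =
        (conj (e z.1) * (conj (v z.1) * fn N z) * e z.2) * (conj (e (S z.1) * conj (e z.1)) *
          (e (S z.2) * conj (e z.2)) * conj (v (S z.1) * conj (v z.1)))
      have h1 := b3_c1 hem.norm z.1
      have h2 := b3_c1 hem.norm z.2
      have h3 := b3_c1 hvc.norm z.1
      rw [hz']
      simp only [map_mul, Complex.conj_conj]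
      have : (conj (e z.1) * (conj (v z.1) * fn N z) * e z.2) * (conj (e (S z.1)) * e z.1 *
          (e (S z.2) * conj (e z.2)) * (conj (v (S z.1)) * v z.1)) =
          conj (e (S z.1)) * (conj (v (S z.1)) * fn N z) * e (S z.2) * (conj (e z.1) * e z.1) *
            (conj (e z.2) * e z.2) * (conj (v z.1) * v z.1) := by ring
      rw [this, h1, h2, h3, mul_one, mul_one, mul_one]
    have e3 : (μ ⊗ₘ κ')[fun z => H z * w z | Y.m.prod Y.m] =ᵐ[μ ⊗ₘ κ'] fun z => G z * w z :=
      condExp_bilin_of_aestronglyMeasurable_right (ContinuousLinearMap.mul ℝ ℂ)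
        hwm.stronglyMeasurable.aestronglyMeasurable (b3_mulb hHi hwb) hHi
    have e4 : (μ ⊗ₘ κ')[fun z => H (Prod.map S S z) | Y.m.prod Y.m] =ᵐ[μ ⊗ₘ κ'] fun z => G z * w z :=
      (condExp_congr_ae e2).trans e3
    filter_upwards [e1, e4] with z h1 h2
    have h3 : G (Prod.map S S z) = G z * w z := by rw [← h2, h1]
    rw [h3, hw]
    have k1 := b3_c1 hem.norm z.1
    have k2 := b3_c1 hem.norm z.2
    have k3 := b3_c1 hem.norm (S z.1)
    have k4 := b3_c1 hem.norm (S z.2)
    simp only [map_mul, Complex.conj_conj]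
    have : e (S z.1) * conj (e z.1) * (conj (e (S z.2)) * e z.2) * (G z * (conj (e (S z.1)) * e z.1 *
        (e (S z.2) * conj (e z.2)) * (conj (v (S z.1)) * v z.1))) =
        (conj (v (S z.1)) * v z.1) * G z * (conj (e z.1) * e z.1) * (conj (e z.2) * e z.2) *
          (conj (e (S z.1)) * e (S z.1)) * (conj (e (S z.2)) * e (S z.2)) := by ring
    rw [this, k1, k2, k3, k4, mul_one, mul_one, mul_one, mul_one]
  have hinv := (b3_ae b c c' (b3_inv b he hGm ha)).2 hinv'
  refine ⟨fun z => e z.1 * G z * conj (e z.2), ⟨k6b_mver hem (k6b_sm hem hGm), b3_lp hem.meas hem.norm hG2, ?_⟩,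
    k6b_mk hem hGm (EventuallyEq.refl _ _), ?_⟩
  · filter_upwards [hinv] with z hz
    exact b3_tw hem.norm hz
  · intro f g hf hg mf mg
    rw [b3_pairG hem.norm (EventuallyEq.refl _ _) f g]
    exact (b3_pairE b c c' he hP hf hg mf mg).symm

/-- `p'` is the extension of `p` -/
structure Shp {c : Ctx μ S D κ} {c' : Ctx μ S D' κ'} (Y : SA X) (e : X → ℂ) (p : Bv c) (p' : Bv c') : Prop where
  pm : Pm μ κ e Y (fn p)
  pm' : Pm μ κ' e Y (fn p')
  norm : ‖p'‖ = ‖p‖
  pair : ∀ f g : X → ℂ, Bd f → Bd g → Measurable[Y.m] f → Measurable[Y.m] g →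
    ∫ z, fn p' z * conj (rc (fun x => e x * g x) (fun x => e x * f x) z) ∂(μ ⊗ₘ κ') =
      ∫ z, fn p z * conj (rc (fun x => e x * g x) (fun x => e x * f x) z) ∂(μ ⊗ₘ κ)

/-- **B4, extension.** the same `Y ⊗ Y`-measurable `G` -/
theorem exists_shp (b : BD μ S D D' Y Y' SS EE) (c : Ctx μ S D κ) (c' : Ctx μ S D' κ') {e : X → ℂ} (he : e ∈ EE)
    {p : Bv c} (hp : p ∈ Ak c e Y) : ∃ p' : Bv c', Shp Y e p p' := by
  have hem := b.em he
  obtain ⟨G, hGm, hpG⟩ := k6b_ver hem hp
  have hk := fn_ker p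
  have hG2 : MemLp G 2 (μ ⊗ₘ κ) := by
    refine hk.l2.of_le (hGm.mono (b3_le b)).aestronglyMeasurable ?_
    filter_upwards [hpG] with z hz
    rw [hz, norm_mul, norm_mul, hem.norm, RCLike.norm_conj, hem.norm, one_mul, mul_one]
  have hG2' : MemLp G 2 (μ ⊗ₘ κ') := (b3_memLp b c c' hGm).1 hG2
  have h1m : Measurable[Y.m] fun _ : X => (1 : ℂ) := @measurable_const _ _ _ Y.m _
  have hinv : ∀ᵐ z ∂(μ ⊗ₘ κ), (e (S z.1) * conj (e z.1)) * conj (e (S z.2) * conj (e z.2)) *
      G (Prod.map S S z) = (fun _ : X => (1 : ℂ)) z.1 * G z := by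
    filter_upwards [hpG, c.pres.quasiMeasurePreserving.ae hpG, hk.tw] with z h1 h2 h3
    refine b3_tw' hem.norm ?_
    have h4 : fn p (Prod.map S S z) = e (S z.1) * G (Prod.map S S z) * conj (e (S z.2)) := h2
    have h5 : fn p (Prod.map S S z) = 1 * fn p z := h3
    rw [← h4, h5, h1]
  have hinv' := (b3_ae b c c' (b3_inv b he hGm h1m)).1 hinv
  have hK : Ker μ S κ' (fun _ => 1) fun z => e z.1 * G z * conj (e z.2) := by
    refine ⟨k6b_mver hem (k6b_sm hem hGm), b3_lp hem.meas hem.norm hG2', ?_⟩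
    filter_upwards [hinv'] with z hz
    exact b3_tw hem.norm hz
  obtain ⟨p', hp'⟩ := exists_fn c' hK
  refine ⟨p', ⟨hp, k6b_mk (κ := κ') hem hGm hp', ?_, ?_⟩⟩
  · have e1 : ‖p'‖ ^ 2 = ‖p‖ ^ 2 := by
      rw [norm_fn, norm_fn]
      have hsq : ∀ ν : Measure (X × X), ∀ P : X × X → ℂ, (P =ᵐ[ν] fun z => e z.1 * G z * conj (e z.2)) →
          ((∫ z, ‖P z‖ ^ 2 ∂ν : ℝ) : ℂ) = ∫ z, G z * conj (G z) ∂ν := by
        intro ν P h
        rw [← integral_complex_ofReal]
        refine integral_congr_ae ?_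
        filter_upwards [h] with z hz
        rw [hz, norm_mul, norm_mul, hem.norm, RCLike.norm_conj, hem.norm, one_mul, mul_one, Complex.mul_conj,
          Complex.normSq_eq_norm_sq]
      have e2 := hsq (μ ⊗ₘ κ') (fn p') hp'
      have e3 := hsq (μ ⊗ₘ κ) (fn p) hpG
      have hGG : StronglyMeasurable[Y.m.prod Y.m] fun z => G z * conj (G z) :=
        (hGm.measurable.mul (Complex.continuous_conj.measurable.comp hGm.measurable)).stronglyMeasurable
      have e4 := b.agree_int c c' hGG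
      exact Complex.ofReal_injective (e2.trans (e4.symm.trans e3.symm))
    exact (pow_left_inj₀ (norm_nonneg _) (norm_nonneg _) two_ne_zero).1 e1
  · intro f g hf hg mf mg
    rw [b3_pairG hem.norm hp' f g, b3_pairG hem.norm hpG f g]
    exact (b.agree_int c c' (hGm.mul (b3_k mf mg))).symm

theorem b3_rcb {ν : Measure (X × X)} {e : X → ℂ} (hem : Em μ S D Y e) {f g : X → ℂ} (hf : Bd f) (hg : Bd g) :
    AH.BM ν fun z => conj (rc (fun x => e x * f x) (fun x => e x * g x) z) := by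
  have hb : ∀ f : X → ℂ, Bd f → Bd fun x => e x * f x := by
    intro f hf
    obtain ⟨C, hC⟩ := hf.bdd
    exact ⟨hem.meas.mul hf.meas, C, fun x => by rw [norm_mul, hem.norm, one_mul]; exact hC x⟩
  exact (k7_rc_bm (hb f hf) (hb g hg)).conj

theorem b3_eb {e : X → ℂ} (hem : Em μ S D Y e) {f : X → ℂ} (hf : Bd f) : Bd fun x => e x * f x := by
  obtain ⟨C, hC⟩ := hf.bdd
  exact ⟨hem.meas.mul hf.meas, C, fun x => by rw [norm_mul, hem.norm, one_mul]; exact hC x⟩

/-- a common version -/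
theorem b3_ver (b : BD μ S D D' Y Y' SS EE) {c : Ctx μ S D κ} {c' : Ctx μ S D' κ'} {e : X → ℂ} (he : e ∈ EE)
    {p : Bv c} {p' : Bv c'} (h : Shp Y e p p') : ∃ G : X × X → ℂ, StronglyMeasurable[Y.m.prod Y.m] G ∧
      MemLp G 2 (μ ⊗ₘ κ) ∧ (fn p' =ᵐ[μ ⊗ₘ κ'] fun z => e z.1 * G z * conj (e z.2)) ∧
      fn p =ᵐ[μ ⊗ₘ κ] fun z => e z.1 * G z * conj (e z.2) := by
  have hem := b.em he
  obtain ⟨G, hGm, hpG⟩ := k6b_ver (κ := κ') hem h.pm'
  have hk := fn_ker p
  have hk' := fn_ker p'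
  have hG2' : MemLp G 2 (μ ⊗ₘ κ') := by
    refine hk'.l2.of_le (hGm.mono (b3_le b)).aestronglyMeasurable ?_
    filter_upwards [hpG] with z hz
    rw [hz, norm_mul, norm_mul, hem.norm, RCLike.norm_conj, hem.norm, one_mul, mul_one]
  have hG2 : MemLp G 2 (μ ⊗ₘ κ) := (b3_memLp b c c' hGm).2 hG2'
  have hQ := b3_lp hem.meas hem.norm hG2
  have mQ : Measurable fun z : X × X => e z.1 * G z * conj (e z.2) := k6b_mver hem (k6b_sm hem hGm)
  have hQm : Pm μ κ e Y fun z => e z.1 * G z * conj (e z.2) := k6b_mk hem hGm (EventuallyEq.refl _ _)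
  refine ⟨G, hGm, hG2, hpG, ?_⟩
  have h0 := Pm_zero c hem (P := fun z => fn p z - e z.1 * G z * conj (e z.2)) (hk.meas.sub mQ) (hk.l2.sub hQ) ?_ ?_
  · filter_upwards [h0] with z hz
    exact sub_eq_zero.1 hz
  · refine (AEStronglyMeasurable.sub h.pm hQm).congr (Eventually.of_forall fun z => ?_)
    show conj (e z.1) * fn p z * e z.2 - conj (e z.1) * (e z.1 * G z * conj (e z.2)) * e z.2 =
      conj (e z.1) * (fn p z - e z.1 * G z * conj (e z.2)) * e z.2
    ring
  · intro f g hf hg mf mg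
    have hb := b3_rcb (ν := μ ⊗ₘ κ) hem hf hg
    have i1 := b3_mulb (hk.l2.integrable (by norm_num)) hb
    have i2 := b3_mulb (hQ.integrable (by norm_num)) hb
    have e1 : ∫ z, (fn p z - e z.1 * G z * conj (e z.2)) *
        conj (rc (fun x => e x * f x) (fun x => e x * g x) z) ∂(μ ⊗ₘ κ) =
        ∫ z, fn p z * conj (rc (fun x => e x * f x) (fun x => e x * g x) z) ∂(μ ⊗ₘ κ) -
        ∫ z, e z.1 * G z * conj (e z.2) * conj (rc (fun x => e x * f x) (fun x => e x * g x) z) ∂(μ ⊗ₘ κ) := by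
      rw [← integral_sub i1 i2]
      exact integral_congr_ae (Eventually.of_forall fun z => sub_mul _ _ _)
    have e2 : ∫ z, G z * (conj (f z.1) * g z.2) ∂(μ ⊗ₘ κ) = ∫ z, G z * (conj (f z.1) * g z.2) ∂(μ ⊗ₘ κ') :=
      b.agree_int c c' (hGm.mul (b3_k mg mf))
    rw [e1, ← h.pair g f hg hf mg mf, b3_pairG hem.norm hpG g f, b3_pairG hem.norm (EventuallyEq.refl _ _) g f,
      e2, sub_self]

/-- the actions agree on `e L^∞(Y)` -/
theorem Shp.act (b : BD μ S D D' Y Y' SS EE) {c : Ctx μ S D κ} {c' : Ctx μ S D' κ'} {e : X → ℂ} (he : e ∈ EE)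
    {p : Bv c} {p' : Bv c'} (h : Shp Y e p p') {f : X → ℂ} (hf : Bd f) (hY : Measurable[Y.m] f) :
    AP.act κ' (fn p') (fun x => e x * f x) =ᵐ[μ] AP.act κ (fn p) (fun x => e x * f x) := by
  have hem := b.em he
  obtain ⟨G, hGm, hG2, hpG', hpG⟩ := b3_ver b he h
  have hef := b3_eb hem hf
  have l1 := act_l2 c' k5_uni (fn_ker p') hef
  have l2 := act_l2 c k5_uni (fn_ker p) hef
  refine Integrable.ae_eq_of_forall_setIntegral_eq _ _ (l1.integrable (by norm_num)) (l2.integrable (by norm_num))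
    fun s hs _ => ?_
  have hind : Bd (s.indicator fun _ => (1 : ℂ)) :=
    ⟨measurable_const.indicator hs, 1, fun x => by
      by_cases hx : x ∈ s
      · rw [Set.indicator_of_mem hx, norm_one]
      · rw [Set.indicator_of_notMem hx, norm_zero]; exact zero_le_one⟩
  have hci : ∀ x, conj (s.indicator (fun _ => (1 : ℂ)) x) = s.indicator (fun _ => (1 : ℂ)) x := by
    intro x
    by_cases hx : x ∈ s
    · rw [Set.indicator_of_mem hx, map_one]
    · rw [Set.indicator_of_notMem hx, map_zero]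
  have key : ∀ F : X → ℂ, ∫ x in s, F x ∂μ = ∫ x, F x * conj (s.indicator (fun _ => (1 : ℂ)) x) ∂μ := by
    intro F
    rw [← integral_indicator hs]
    refine integral_congr_ae (Eventually.of_forall fun x => ?_)
    dsimp only
    rw [hci]
    by_cases hx : x ∈ s
    · rw [Set.indicator_of_mem hx, Set.indicator_of_mem hx, mul_one]
    · rw [Set.indicator_of_notMem hx, Set.indicator_of_notMem hx, mul_zero]
  rw [key, key, ← pair_act c' k5_uni (fn_ker p') hind hef, ← pair_act c k5_uni (fn_ker p) hind hef]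
  set W : X × X → ℂ := fun z => e z.1 * G z * f z.2 * s.indicator (fun _ => (1 : ℂ)) z.1 with hW
  have hWm : StronglyMeasurable[(‹MeasurableSpace X›).prod Y.m] W := by
    have h1 : @Measurable (X × X) ℂ ((‹MeasurableSpace X›).prod Y.m) _ fun z : X × X => e z.1 :=
      hem.meas.comp (@measurable_fst X X _ Y.m)
    have h2 : @Measurable (X × X) ℂ ((‹MeasurableSpace X›).prod Y.m) _ G :=
      hGm.measurable.mono (k6b_prod b.fY.le' le_rfl) le_rfl
    have h3 : @Measurable (X × X) ℂ ((‹MeasurableSpace X›).prod Y.m) _ fun z : X × X => f z.2 :=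
      hY.comp (@measurable_snd X X _ Y.m)
    have h4 : @Measurable (X × X) ℂ ((‹MeasurableSpace X›).prod Y.m) _
        fun z : X × X => s.indicator (fun _ => (1 : ℂ)) z.1 := hind.meas.comp (@measurable_fst X X _ Y.m)
    exact (((h1.mul h2).mul h3).mul h4).stronglyMeasurable
  have hpt : ∀ z : X × X, (e z.1 * G z * conj (e z.2)) *
      conj (rc (s.indicator fun _ => (1 : ℂ)) (fun x => e x * f x) z) = W z := by
    intro z
    have h2 := b3_c1 hem.norm z.2
    simp only [rc, map_mul, Complex.conj_conj, hci, hW]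
    have : e z.1 * G z * conj (e z.2) * (s.indicator (fun _ => (1 : ℂ)) z.1 * (e z.2 * f z.2)) =
      e z.1 * G z * f z.2 * s.indicator (fun _ => (1 : ℂ)) z.1 * (conj (e z.2) * e z.2) := by ring
    rw [this, h2, mul_one]
  have e1 : ∫ z, fn p' z * conj (rc (s.indicator fun _ => (1 : ℂ)) (fun x => e x * f x) z) ∂(μ ⊗ₘ κ') =
      ∫ z, W z ∂(μ ⊗ₘ κ') := by
    refine integral_congr_ae ?_
    filter_upwards [hpG'] with z hz
    rw [hz]; exact hpt z
  have e2 : ∫ z, fn p z * conj (rc (s.indicator fun _ => (1 : ℂ)) (fun x => e x * f x) z) ∂(μ ⊗ₘ κ) =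
      ∫ z, W z ∂(μ ⊗ₘ κ) := by
    refine integral_congr_ae ?_
    filter_upwards [hpG] with z hz
    rw [hz]; exact hpt z
  rw [e1, e2]
  exact (b3_agree_int b c c' hWm).symm

/-- the pairing of `p'` with `N` is the pairing of `p` with the compression of `N` (`v = 1`) -/
theorem Shp.inner (b : BD μ S D D' Y Y' SS EE) {c : Ctx μ S D κ} {c' : Ctx μ S D' κ'} {e : X → ℂ} (he : e ∈ EE)
    {p : Bv c} {p' : Bv c'} (h : Shp Y e p p') (N : Bv c') {m : Bv c} (hm : m ∈ Ak c e Y)
    (hN : ∀ f g : X → ℂ, Bd f → Bd g → Measurable[Y.m] f → Measurable[Y.m] g →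
      ∫ z, fn m z * conj (rc (fun x => e x * g x) (fun x => e x * f x) z) ∂(μ ⊗ₘ κ) =
        ∫ z, fn N z * conj (rc (fun x => e x * g x) (fun x => e x * f x) z) ∂(μ ⊗ₘ κ')) :
    ⟪p', N⟫_ℂ = ⟪p, m⟫_ℂ := by
  have hem := b.em he
  obtain ⟨G, hGm, hG2, hpG', hpG⟩ := b3_ver b he h
  have hG2' : MemLp G 2 (μ ⊗ₘ κ') := (b3_memLp b c c' hGm).1 hG2
  have hkN := fn_ker N
  have hkm := fn_ker m
  have hH2 := b3_lp' hem.meas hem.norm hkN.l2
  have hHi := hH2.integrable (by norm_num)
  set H : X × X → ℂ := fun z => conj (e z.1) * fn N z * e z.2 with hHd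
  set E : X × X → ℂ := (μ ⊗ₘ κ')[H | Y.m.prod Y.m] with hEd
  have hEm : StronglyMeasurable[Y.m.prod Y.m] E := stronglyMeasurable_condExp
  have hE2' : MemLp E 2 (μ ⊗ₘ κ') := hH2.condExp (by norm_num)
  have hE2 : MemLp E 2 (μ ⊗ₘ κ) := (b3_memLp b c c' hEm).2 hE2'
  have hQ := b3_lp hem.meas hem.norm hE2
  have mQ : Measurable fun z : X × X => e z.1 * E z * conj (e z.2) := k6b_mver hem (k6b_sm hem hEm)
  have hQm : Pm μ κ e Y fun z => e z.1 * E z * conj (e z.2) := k6b_mk hem hEm (EventuallyEq.refl _ _)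
  have hmE : fn m =ᵐ[μ ⊗ₘ κ] fun z => e z.1 * E z * conj (e z.2) := by
    have h0 := Pm_zero c hem (P := fun z => fn m z - e z.1 * E z * conj (e z.2)) (hkm.meas.sub mQ)
      (hkm.l2.sub hQ) ?_ ?_
    · filter_upwards [h0] with z hz
      exact sub_eq_zero.1 hz
    · refine (AEStronglyMeasurable.sub hm hQm).congr (Eventually.of_forall fun z => ?_)
      show conj (e z.1) * fn m z * e z.2 - conj (e z.1) * (e z.1 * E z * conj (e z.2)) * e z.2 =
        conj (e z.1) * (fn m z - e z.1 * E z * conj (e z.2)) * e z.2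
      ring
    · intro f g hf hg mf mg
      have hb := b3_rcb (ν := μ ⊗ₘ κ) hem hf hg
      have i1 := b3_mulb (hkm.l2.integrable (by norm_num)) hb
      have i2 := b3_mulb (hQ.integrable (by norm_num)) hb
      have e1 : ∫ z, (fn m z - e z.1 * E z * conj (e z.2)) *
          conj (rc (fun x => e x * f x) (fun x => e x * g x) z) ∂(μ ⊗ₘ κ) =
          ∫ z, fn m z * conj (rc (fun x => e x * f x) (fun x => e x * g x) z) ∂(μ ⊗ₘ κ) -
          ∫ z, e z.1 * E z * conj (e z.2) * conj (rc (fun x => e x * f x) (fun x => e x * g x) z) ∂(μ ⊗ₘ κ) := by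
        rw [← integral_sub i1 i2]
        exact integral_congr_ae (Eventually.of_forall fun z => sub_mul _ _ _)
      rw [e1, hN g f hg hf mg mf, b3_pairE b c c' he hkN.l2 hg hf mg mf,
        b3_pairG hem.norm (EventuallyEq.refl _ _) g f, sub_self]
  have hGc : StronglyMeasurable[Y.m.prod Y.m] fun z => conj (G z) :=
    (Complex.continuous_conj.measurable.comp hGm.measurable).stronglyMeasurable
  rw [inner_fn, inner_fn]
  have e1 : ∫ z, fn N z * conj (fn p' z) ∂(μ ⊗ₘ κ') = ∫ z, H z * conj (G z) ∂(μ ⊗ₘ κ') := by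
    refine integral_congr_ae ?_
    filter_upwards [hpG'] with z hz
    rw [hz, hHd]
    simp only [map_mul, Complex.conj_conj]
    ring
  have e2 : ∫ z, fn m z * conj (fn p z) ∂(μ ⊗ₘ κ) = ∫ z, E z * conj (G z) ∂(μ ⊗ₘ κ) := by
    refine integral_congr_ae ?_
    filter_upwards [hpG, hmE] with z hz hz'
    have h1 := b3_c1 hem.norm z.1
    have h2 := b3_c1 hem.norm z.2
    rw [hz, hz']
    simp only [map_mul, Complex.conj_conj]
    have : e z.1 * E z * conj (e z.2) * (conj (e z.1) * conj (G z) * e z.2) =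
      E z * conj (G z) * (conj (e z.1) * e z.1) * (conj (e z.2) * e z.2) := by ring
    rw [this, h1, h2, mul_one, mul_one]
  have i3 : Integrable (fun z => H z * conj (G z)) (μ ⊗ₘ κ') := hH2.integrable_mul hG2'.star
  rw [e1, e2, b3_pull (b3_le b) hHi hGc.aestronglyMeasurable i3]
  exact (b.agree_int c c' (hEm.mul hGc)).symm

theorem b3_act_congr (c : Ctx μ S D κ) {P P' : X × X → ℂ} {f f' : X → ℂ} (hP : P =ᵐ[μ ⊗ₘ κ] P') (hf : f =ᵐ[μ] f') :
    AP.act κ P f =ᵐ[μ] AP.act κ P' f' := by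
  filter_upwards [Measure.ae_ae_of_ae_compProd hP, c.fib.ae hf] with x h1 h2
  refine integral_congr_ae ?_
  filter_upwards [h1, h2] with y h3 h4
  rw [h3, h4]

/-- `(P Q) f = P (Q f)` -/
theorem b3_act_comp (c : Ctx μ S D κ) {a b : X → ℂ} (ha : Uni D a) (hb : Uni D b) {P Q : X × X → ℂ}
    (hP : Ker μ S κ a P) (hQ : Ker μ S κ b Q) {f : X → ℂ} (hf : Bd f) :
    AP.act κ (comp κ P Q) f =ᵐ[μ] AP.act κ P (AP.act κ Q f) := by
  obtain ⟨C, hC⟩ := hf.bdd
  filter_upwards [hP.row c ha, hQ.l2f c hb, c.fib.fib] with x h1 h2 h3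
  have hi : Integrable (fun y => ‖f y‖ ^ 2) (κ x) :=
    Integrable.of_bound (hf.meas.norm.pow_const 2).aestronglyMeasurable (C ^ 2) (Eventually.of_forall fun z => by
      rw [Real.norm_of_nonneg (by positivity)]; exact pow_le_pow_left₀ (norm_nonneg _) (hC z) 2)
  have h4 := k4_assoc (f := fun y => P (x, y)) (g := f) h2.1 (hP.meas.comp measurable_prodMk_left) hf.meas h1.1 hi
  show ∫ z, (∫ y, P (x, y) * Q (y, z) ∂κ x) * f z ∂κ x = ∫ y, P (x, y) * (∫ z, Q (y, z) * f z ∂κ y) ∂κ x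
  rw [h4]
  refine integral_congr_ae ?_
  filter_upwards [h3] with y hy
  rw [hy]

/-- the extension of a projection is a projection -/
theorem Shp.proj (b : BD μ S D D' Y Y' SS EE) {c : Ctx μ S D κ} {c' : Ctx μ S D' κ'} {e : X → ℂ} (he : e ∈ EE)
    {p : Bv c} {p' : Bv c'} (h : Shp Y e p p') (hp : (hst c).Proj p) : (hst c').Proj p' := by
  have hem := b.em he
  obtain ⟨G, hGm, hG2, hpG', hpG⟩ := b3_ver b he h
  have mG : Measurable G := k6b_sm hem hGm
  refine ⟨?_, ?_, ?_⟩
  · intro h0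
    have h1 := h.norm
    rw [h0, norm_zero] at h1
    exact hp.ne (norm_eq_zero.1 h1.symm)
  · -- idempotent
    have hk' := fn_ker p'
    have hk := fn_ker p
    have hmulp : comp κ (fn p) (fn p) =ᵐ[μ ⊗ₘ κ] fn p := by
      have h1 := fn_mul p p
      rw [hp.idem] at h1
      exact h1.symm
    have hcomp' : Ker μ S κ' (fun _ => 1) (comp κ' (fn p') (fn p')) := k5_comp p' p'
    have hK : Ker μ S κ' (fun _ => 1) fun z => comp κ' (fn p') (fn p') z - fn p' z := by
      refine ⟨hcomp'.meas.sub hk'.meas, hcomp'.l2.sub hk'.l2, ?_⟩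
      filter_upwards [hcomp'.tw, hk'.tw] with z h1 h2
      rw [h1, h2]; ring
    have hem' := b.emt he
    have hYle : Y.m ≤ (YD μ Y D').m :=
      le_inf b.fY.le' ((le_sup_left (a := Y.m) (b := D'.m)).trans le_eventuallyMeasurableSpace)
    have hpm' : Pm μ κ' e (YD μ Y D') (fn p') :=
      k6b_mk hem' (hGm.mono (k6b_prod hYle hYle)) hpG'
    have hpmc : Pm μ κ' e (YD μ Y D') (comp κ' (fn p') (fn p')) := Pm_comp c' hem' k5_uni k5_uni hk' hk' hpm' hpm'
    have hpmK : Pm μ κ' e (YD μ Y D') fun z => comp κ' (fn p') (fn p') z - fn p' z := by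
      refine (AEStronglyMeasurable.sub hpmc hpm').congr (Eventually.of_forall fun z => ?_)
      show conj (e z.1) * comp κ' (fn p') (fn p') z * e z.2 - conj (e z.1) * fn p' z * e z.2 =
        conj (e z.1) * (comp κ' (fn p') (fn p') z - fn p' z) * e z.2
      ring
    have h0 := b.kill c' he k5_uni hK hpmK ?_
    · refine fn_ext ((fn_mul p' p').trans ?_)
      filter_upwards [h0] with z hz
      exact sub_eq_zero.1 hz
    · intro y hy my
      have hey := b3_eb hem hy
      -- `act κ (fn p) (e y) = e w`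
      obtain ⟨B, hB⟩ := k4_actb c k5_uni hk hey
      have mA : Measurable (AP.act κ (fn p) fun x => e x * y x) := measurable_act hk.meas hey.meas
      have mAY : Measurable[Y.m] fun x => conj (e x) * AP.act κ (fn p) (fun x => e x * y x) x :=
        Pm_act c hem k5_uni hk h.pm hey
      have hBM : AH.BM μ fun x => conj (e x) * AP.act κ (fn p) (fun x => e x * y x) x := by
        refine ⟨((Complex.continuous_conj.measurable.comp hem.meas).mul mA).aestronglyMeasurable, B, ?_⟩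
        filter_upwards [hB] with x hx
        rw [norm_mul, RCLike.norm_conj, hem.norm, one_mul]; exact hx
      obtain ⟨w, mw, hwB, hw⟩ := ce_rep (μ := μ) hem.fac.le' hBM
      have hw2 : w =ᵐ[μ] fun x => conj (e x) * AP.act κ (fn p) (fun x => e x * y x) x := by
        refine hw.trans ?_
        have := condExp_of_stronglyMeasurable (μ := μ) hem.fac.le' mAY.stronglyMeasurable hBM.integrable
        show μ[_ | Y.m] =ᵐ[μ] _
        rw [this]
      have hew : AP.act κ (fn p) (fun x => e x * y x) =ᵐ[μ] fun x => e x * w x := by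
        filter_upwards [hw2] with x hx
        have h1 := b3_c1 hem.norm x
        rw [hx, ← mul_assoc, mul_comm (e x), h1, one_mul]
      have a1 := h.act b he hy my
      have a2 := h.act b he hwB mw
      have b1 := b3_act_comp c' k5_uni k5_uni hk' hk' hey
      have b2 := b3_act_congr c' (EventuallyEq.refl _ (fn p')) (a1.trans hew)
      have b3 := b3_act_comp c k5_uni k5_uni hk hk hey
      have b4 := b3_act_congr c (EventuallyEq.refl _ (fn p)) hew
      have b5 := b3_act_congr c hmulp (EventuallyEq.refl _ fun x => e x * y x)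
      have hsub : AP.act κ' (fun z => comp κ' (fn p') (fn p') z - fn p' z) (fun x => e x * y x) =ᵐ[μ]
          fun x => AP.act κ' (comp κ' (fn p') (fn p')) (fun x => e x * y x) x -
            AP.act κ' (fn p') (fun x => e x * y x) x := by
        obtain ⟨C, hC⟩ := hey.bdd
        filter_upwards [hcomp'.row c' k5_uni, hk'.row c' k5_uni] with x h1 h2
        have hi : Integrable (fun y' => ‖(fun x => e x * y x) y'‖ ^ 2) (κ' x) :=
          Integrable.of_bound (hey.meas.norm.pow_const 2).aestronglyMeasurable (C ^ 2) (Eventually.of_forall fun z => by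
            rw [Real.norm_of_nonneg (by positivity)]; exact pow_le_pow_left₀ (norm_nonneg _) (hC z) 2)
        show ∫ z, (comp κ' (fn p') (fn p') (x, z) - fn p' (x, z)) * (e z * y z) ∂κ' x =
          ∫ z, comp κ' (fn p') (fn p') (x, z) * (e z * y z) ∂κ' x - ∫ z, fn p' (x, z) * (e z * y z) ∂κ' x
        have i1 : Integrable (fun z => comp κ' (fn p') (fn p') (x, z) * (e z * y z)) (κ' x) :=
          k4_int2 (hcomp'.meas.comp measurable_prodMk_left) hey.meas h1.1 hi
        have i2 : Integrable (fun z => fn p' (x, z) * (e z * y z)) (κ' x) :=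
          k4_int2 (hk'.meas.comp measurable_prodMk_left) hey.meas h2.1 hi
        rw [← integral_sub i1 i2]
        exact integral_congr_ae (Eventually.of_forall fun z => sub_mul _ _ _)
      filter_upwards [hsub, a1, a2, b1, b2, b3, b4, b5] with x q1 q2 q3 q4 q5 q6 q7 q8
      have q9 : AP.act κ (fn p) (AP.act κ (fn p) fun x => e x * y x) x = AP.act κ (fn p) (fun x => e x * y x) x := by
        rw [← q6, q8]
      show AP.act κ' (fun z => comp κ' (fn p') (fn p') z - fn p' z) (fun x => e x * y x) x = 0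
      rw [q1, q4, q5, q3, ← q7, q9, q2, sub_self]
  · -- selfadjoint
    have hsw : @Measurable _ _ (Y.m.prod Y.m) (Y.m.prod Y.m) (Prod.swap : X × X → X × X) :=
      @measurable_swap X X Y.m Y.m
    have hA : MeasurableSet[Y.m.prod Y.m] {z : X × X | conj (G (Prod.swap z)) = G z} :=
      @measurableSet_eq_fun (X × X) ℂ (Y.m.prod Y.m) _ _ _ _
        (Complex.continuous_conj.measurable.comp (hGm.measurable.comp hsw)) hGm.measurable
    have hst : st (fn p) =ᵐ[μ ⊗ₘ κ] fn p := by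
      have h1 := fn_star p
      rw [hp.star] at h1
      exact h1.symm
    have h1 : ∀ᵐ z ∂(μ ⊗ₘ κ), conj (G (Prod.swap z)) = G z := by
      filter_upwards [hst, hpG, c.fib.swap.quasiMeasurePreserving.ae hpG] with z h1 h2 h3
      have h4 : fn p (z.2, z.1) = e z.2 * G (Prod.swap z) * conj (e z.1) := h3
      have h5 : conj (fn p (z.2, z.1)) = fn p z := h1
      rw [h4, h2] at h5
      simp only [map_mul, Complex.conj_conj] at h5
      have k1 := b3_c1 hem.norm z.1
      have k2 := b3_c1 hem.norm z.2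
      have : conj (e z.1) * (conj (e z.2) * conj (G (Prod.swap z)) * e z.1) * e z.2 =
          conj (G (Prod.swap z)) * (conj (e z.1) * e z.1) * (conj (e z.2) * e z.2) := by ring
      rw [k1, k2, mul_one, mul_one] at this
      rw [← this, h5, b3_un hem.norm]
    have h2 := (b3_ae b c c' hA).1 h1
    refine fn_ext ((fn_star p').trans ?_)
    filter_upwards [h2, hpG', c'.fib.swap.quasiMeasurePreserving.ae hpG'] with z h3 h4 h5
    have h6 : fn p' (z.2, z.1) = e z.2 * G (Prod.swap z) * conj (e z.1) := h5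
    show conj (fn p' (z.2, z.1)) = fn p' z
    rw [h6, h4]
    simp only [map_mul, Complex.conj_conj]
    rw [h3]; ring

end Pool.Agent.Lib.MP_9fe581_an.AP
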