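import Pool.Agent.Lib.MP_9fe581_an.AP.F0
import Pool.Agent.Lib.MP_9fe581_an.AP.F0s

/-! # AP, kernels over one probability space -/

set_option autoImplicit false

open Finset MeasureTheory Filter Topology
open scoped ComplexConjugate

namespace Pool.Agent.Lib.MP_9fe581_an.AP

variable {X : Type} [MeasurableSpace X]

variable {ν : Measure X} [IsProbabilityMeasure ν]

/-- **F1, Bessel.** At most `t²` orthogonal kernels `U_j = P U_j = U_j P` of norm² `t`.
Proof: for a.e. `(y, y')`: `U_j(y, y') = ∫∫ P(y, z) U_j(z, z') P(z', y') = ⟨U_j, R⟩`, `R(z, z') = P(z, y) P(y', z')`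
(so `conj R = P(y, z) P(z', y')`), `‖R‖² = t²`; Bessel for the orthonormal `U_j / √t`: `∑_j |U_j(y, y')|² ≤ t · t²`; integrate:
`n t ≤ t³`. -/
theorem PK.bessel {t : ℝ} (ht : 0 < t) {P : X × X → ℂ} (hP : PK ν t P) {n : ℕ} (U : Fin n → X × X → ℂ)
    (mU : ∀ j, Measurable (U j)) (hU : ∀ j, MemLp (U j) 2 (ν.prod ν))
    (h1 : ∀ j, ∀ᵐ z ∂ν.prod ν, ∫ y, P (z.1, y) * U j (y, z.2) ∂ν = U j z)
    (h2 : ∀ j, ∀ᵐ z ∂ν.prod ν, ∫ y, U j (z.1, y) * P (y, z.2) ∂ν = U j z)
    (ho : ∀ i j, i ≠ j → ∫ z, U i z * conj (U j z) ∂ν.prod ν = 0)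
    (hn : ∀ j, ∫ z, ‖U j z‖ ^ 2 ∂ν.prod ν = t) : (n : ℝ) ≤ t ^ 2 := by
  -- the bound at one point
  have hst : (0 : ℝ) < Real.sqrt t := Real.sqrt_pos.2 ht
  have hst2 : Real.sqrt t ^ 2 = t := Real.sq_sqrt ht.le
  set c : ℂ := (((Real.sqrt t)⁻¹ : ℝ) : ℂ) with hc
  have hcc : c * conj c = ((t⁻¹ : ℝ) : ℂ) := by
    rw [hc, Complex.conj_ofReal, ← Complex.ofReal_mul, ← mul_inv, Real.mul_self_sqrt ht.le]
  have hcn : ‖c‖ ^ 2 = t⁻¹ := by
    rw [hc, Complex.norm_real, Real.norm_eq_abs, sq_abs, inv_pow, hst2]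
  have hv : ∀ j, MemLp (fun z => c * U j z) 2 (ν.prod ν) := fun j => (hU j).const_mul c
  have hvo : ∀ i j, ∫ z, (c * U i z) * conj (c * U j z) ∂ν.prod ν = if i = j then 1 else 0 := by
    intro i j
    have e1 : ∀ z, (c * U i z) * conj (c * U j z) = ((t⁻¹ : ℝ) : ℂ) * (U i z * conj (U j z)) := by
      intro z
      rw [map_mul, ← hcc]
      ring
    simp only [e1]
    rw [integral_const_mul]
    by_cases hij : i = j
    · subst hij
      rw [if_pos rfl, fs_mul_self, hn, ← Complex.ofReal_mul, inv_mul_cancel₀ ht.ne', Complex.ofReal_one]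
    · rw [if_neg hij, ho i j hij, mul_zero]
  have key : ∀ᵐ p ∂ν.prod ν, ∑ j, ‖U j p‖ ^ 2 ≤ t * t ^ 2 := by
    have a1 := Measure.quasiMeasurePreserving_fst (μ := ν) (ν := ν) |>.ae hP.fs_col
    have a2 := Measure.quasiMeasurePreserving_snd (μ := ν) (ν := ν) |>.ae hP.fs_col
    have a3 : ∀ᵐ p ∂ν.prod ν, ∀ j, ∀ᵐ z' ∂ν, ∫ y, P (p.1, y) * U j (y, z') ∂ν = U j (p.1, z') := by
      rw [ae_all_iff]
      intro j
      exact Measure.quasiMeasurePreserving_fst (μ := ν) (ν := ν) |>.ae (Measure.ae_ae_of_ae_prod (h1 j))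
    have a4 : ∀ᵐ p ∂ν.prod ν, ∀ j, ∫ y, U j (p.1, y) * P (y, p.2) ∂ν = U j p := by
      rw [ae_all_iff]
      exact h2
    filter_upwards [a1, a2, a3, a4] with p b1 b2 b3 b4
    obtain ⟨-, r1, -, r2, -⟩ := b1
    obtain ⟨-, -, s1, -, s2⟩ := b2
    set R : X × X → ℂ := fun z => conj (P (p.1, z.1) * P (z.2, p.2)) with hR
    have mR : Measurable R := by
      have m1 : Measurable fun z : X × X => P (p.1, z.1) :=
        hP.meas.comp (measurable_prodMk_left.comp measurable_fst)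
      have m2 : Measurable fun z : X × X => P (z.2, p.2) :=
        hP.meas.comp (measurable_prodMk_right.comp measurable_snd)
      exact Complex.continuous_conj.measurable.comp (m1.mul m2)
    have hnR : ∀ z, ‖R z‖ ^ 2 = ‖P (p.1, z.1)‖ ^ 2 * ‖P (z.2, p.2)‖ ^ 2 := by
      intro z
      rw [hR]
      simp only
      rw [RCLike.norm_conj, norm_mul, mul_pow]
    have hR2 : MemLp R 2 (ν.prod ν) := by
      rw [memLp_two_iff_integrable_sq_norm mR.aestronglyMeasurable]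
      simp only [hnR]
      exact (fs_sq r1).mul_prod (fs_sq s1)
    have hRn : ∫ z, ‖R z‖ ^ 2 ∂ν.prod ν = t ^ 2 := by
      simp only [hnR]
      rw [integral_prod_mul (fun y => ‖P (p.1, y)‖ ^ 2) (fun y => ‖P (y, p.2)‖ ^ 2), r2, s2, sq]
    have hUR : ∀ j, ∫ z, U j z * conj (R z) ∂ν.prod ν = U j p := by
      intro j
      rw [integral_prod_symm _ (fs_mul_int hR2 (hU j))]
      rw [← b4 j]
      refine integral_congr_ae ?_
      filter_upwards [b3 j] with z' hz'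
      rw [← hz', ← integral_mul_const]
      refine integral_congr_ae (ae_of_all _ fun y => ?_)
      show U j (y, z') * conj (conj (P (p.1, y) * P (z', p.2))) =
        P (p.1, y) * U j (y, z') * P (z', p.2)
      rw [Complex.conj_conj]
      ring
    have hb := fs_bessel hv hR2 hvo
    rw [hRn] at hb
    have e2 : ∀ j, ‖∫ z, c * U j z * conj (R z) ∂ν.prod ν‖ ^ 2 = t⁻¹ * ‖U j p‖ ^ 2 := by
      intro j
      have e3 : ∀ z, c * U j z * conj (R z) = c * (U j z * conj (R z)) := fun z => by ring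
      simp only [e3]
      rw [integral_const_mul, hUR j, norm_mul, mul_pow, hcn]
    rw [Finset.sum_congr rfl fun j _ => e2 j, ← Finset.mul_sum] at hb
    rw [inv_mul_le_iff₀ ht] at hb
    exact hb
  have hint : ∀ j, Integrable (fun p => ‖U j p‖ ^ 2) (ν.prod ν) := fun j => fs_sq (hU j)
  have h5 : ∫ p, ∑ j, ‖U j p‖ ^ 2 ∂ν.prod ν ≤ ∫ _p, t * t ^ 2 ∂ν.prod ν :=
    integral_mono_ae (integrable_finsetSum _ fun j _ => hint j) (integrable_const _) key
  rw [integral_finsetSum _ (fun j _ => hint j), Finset.sum_congr rfl fun j _ => hn j,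
    Finset.sum_const, Finset.card_univ, Fintype.card_fin, nsmul_eq_mul, integral_const] at h5
  rw [probReal_univ, one_smul] at h5
  have h6 : t * (n : ℝ) ≤ t * t ^ 2 := by linarith
  exact le_of_mul_le_mul_left h6 ht

end Pool.Agent.Lib.MP_9fe581_an.AP
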