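import Pool.Agent.Lib.MP_9fe581_an.AP.C2
import Pool.Agent.Lib.MP_9fe581_an.AP.F1

/-! # AP, C3: the twist lemma -/

set_option autoImplicit false

open Finset MeasureTheory Filter Topology ProbabilityTheory
open scoped ComplexConjugate ENNReal InnerProductSpace

namespace Pool.Agent.Lib.MP_9fe581_an.AP

variable {X : Type} [MeasurableSpace X] {μ : Measure X} [IsProbabilityMeasure μ] {S : X → X} {D : SA X}
  {κ : Kernel X X} [IsMarkovKernel κ]

/-- the pairing on the fibres is measurable -/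
theorem c3_meas {F : X × X → ℂ} (hF : Measurable F) :
    Measurable fun x => ∫ z, F z ∂(κ x).prod (κ x) := by
  have h1 : StronglyMeasurable fun w : X × (X × X) => F w.2 := (hF.comp measurable_snd).stronglyMeasurable
  have h2 := (h1.integral_kernel_prod_right' (κ := κ ×ₖ κ)).measurable
  have e : (fun x => ∫ z, F z ∂(κ x).prod (κ x)) = fun x => ∫ z, F (x, z).2 ∂(κ ×ₖ κ) x := by
    funext x
    rw [Kernel.prod_apply]
  rw [e]
  exact h2

/-- the pairing of two twisted kernels vanishes on almost every fibre, if the twist of the pairing is not a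
coboundary over `D` -/
theorem c3_orth (c : Ctx μ S D κ) {a b : X → ℂ} (ha : Uni D a) (hb : Uni D b) {U V : X × X → ℂ}
    (hU : Ker μ S κ a U) (hV : Ker μ S κ b V)
    (hno : ¬ ∃ d : X → ℂ, Uni D d ∧ ∀ᵐ x ∂μ, d (S x) = a x * conj (b x) * d x) :
    ∀ᵐ x ∂μ, ∫ z, U z * conj (V z) ∂(κ x).prod (κ x) = 0 := by
  have hS := k3_pres c
  have mF : Measurable fun z => U z * conj (V z) :=
    hU.meas.mul (Complex.continuous_conj.measurable.comp hV.meas)
  set τ : X → ℂ := fun x => ∫ z, U z * conj (V z) ∂(κ x).prod (κ x) with hτ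
  have hm : Measurable τ := c3_meas mF
  have hfib : ∀ᵐ x ∂μ, ∀ᵐ y ∂κ x, τ y = τ x := by
    filter_upwards [c.fib.fib] with x hx
    filter_upwards [hx] with y hy
    show ∫ z, U z * conj (V z) ∂(κ y).prod (κ y) = ∫ z, U z * conj (V z) ∂(κ x).prod (κ x)
    rw [hy]
  have htw : ∀ᵐ x ∂μ, τ (S x) = a x * conj (b x) * τ x := by
    filter_upwards [c.fib.shift, c.fib.ae2 hU.tw, c.fib.ae2 hV.tw, k3_uc c ha, k3_uc c hb] with x h1 h2 h3 h4 h5
    show ∫ z, U z * conj (V z) ∂(κ (S x)).prod (κ (S x)) =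
      a x * conj (b x) * ∫ z, U z * conj (V z) ∂(κ x).prod (κ x)
    rw [← h1, Measure.map_prod_map (κ x) (κ x) hS.measurable hS.measurable,
      integral_map (hS.measurable.prodMap hS.measurable).aemeasurable mF.aestronglyMeasurable,
      ← integral_const_mul]
    refine integral_congr_ae ?_
    filter_upwards [h2, h3, Measure.quasiMeasurePreserving_fst.ae h4, Measure.quasiMeasurePreserving_fst.ae h5]
      with z e2 e3 e4 e5
    have e2' : U (Prod.map S S z) = a z.1 * U z := e2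
    have e3' : V (Prod.map S S z) = b z.1 * V z := e3
    show U (Prod.map S S z) * conj (V (Prod.map S S z)) = a x * conj (b x) * (U z * conj (V z))
    rw [e2', e3', e4, e5, map_mul]
    ring
  have hnorm : (fun x => ‖τ x‖) ∘ S =ᵐ[μ] fun x => ‖τ x‖ := by
    filter_upwards [htw] with x hx
    show ‖τ (S x)‖ = ‖τ x‖
    rw [hx, norm_mul, norm_mul, ha.norm, RCLike.norm_conj, hb.norm, one_mul, one_mul]
  obtain ⟨t, ht⟩ := c.sys.erg.ae_eq_const_of_ae_eq_comp_ae hm.norm.aestronglyMeasurable hnorm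
  by_cases h0 : t = 0
  · filter_upwards [ht] with x hx
    have hx' : ‖τ x‖ = t := hx
    rw [h0] at hx'
    exact norm_eq_zero.1 hx'
  · exfalso
    refine hno ⟨fun x => if τ x = 0 then 1 else τ x * ((‖τ x‖⁻¹ : ℝ) : ℂ), ⟨?_, ?_⟩, ?_⟩
    · have hdm : Measurable fun x => if τ x = 0 then (1 : ℂ) else τ x * ((‖τ x‖⁻¹ : ℝ) : ℂ) :=
        Measurable.ite (hm (measurableSet_singleton 0)) measurable_const
          (hm.mul (Complex.measurable_ofReal.comp hm.norm.inv))
      refine (c.fib.meas _ hdm).2 ?_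
      filter_upwards [hfib] with x hx
      filter_upwards [hx] with y hy
      rw [hy]
    · intro x
      show ‖if τ x = 0 then (1 : ℂ) else τ x * ((‖τ x‖⁻¹ : ℝ) : ℂ)‖ = 1
      by_cases hx : τ x = 0
      · rw [if_pos hx, norm_one]
      · rw [if_neg hx, norm_mul, Complex.norm_real, Real.norm_of_nonneg (by positivity),
          mul_inv_cancel₀ (norm_ne_zero_iff.2 hx)]
    · filter_upwards [ht, htw, hnorm] with x h1 h2 h3
      have h1' : ‖τ x‖ = t := h1
      have h3' : ‖τ (S x)‖ = ‖τ x‖ := h3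
      have n1 : τ x ≠ 0 := by
        intro h
        rw [h, norm_zero] at h1'
        exact h0 h1'.symm
      have n2 : τ (S x) ≠ 0 := by
        intro h
        rw [h, norm_zero] at h3'
        rw [← h3'] at h1'
        exact h0 h1'.symm
      show (if τ (S x) = 0 then (1 : ℂ) else τ (S x) * ((‖τ (S x)‖⁻¹ : ℝ) : ℂ)) =
        a x * conj (b x) * (if τ x = 0 then (1 : ℂ) else τ x * ((‖τ x‖⁻¹ : ℝ) : ℂ))
      rw [if_neg n1, if_neg n2, h3', h2]
      ring

theorem c3_pow {a : X → ℂ} (ha : Uni D a) (j : ℕ) : Uni D fun x => a x ^ j :=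
  ⟨ha.meas.pow_const j, fun x => by rw [norm_pow, ha.norm, one_pow]⟩

theorem c3_conj {z : ℂ} (hz : ‖z‖ = 1) : z * conj z = 1 := by
  rw [Complex.mul_conj, Complex.normSq_eq_norm_sq, hz]
  norm_num

/-- **C3, twist lemma.** If moreover no `D`-measurable unimodular `d` has `d ∘ S = a^n d`, `0 < n < N`, and `‖P‖⁴ < N`:
contradiction (`U_0, …, U_{N-1}` are orthogonal on the fibres: `τ(x) = ∫∫ U_i conj U_j dκ_x dκ_x` has
`τ ∘ S = a^(i-j) τ`, `|τ|` is constant; F1) -/
theorem twist (c : Ctx μ S D κ) {e : X → ℂ} {Y : SA X} (hY : Em μ S D Y e) {P : Bv c}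
    (hP : (hst c).Min (Ak c e Y) P) {a : X → ℂ} (ha : Uni D a) {M : X × X → ℂ} (hM : Ker μ S κ a M)
    (h1 : comp κ (fn P) M =ᵐ[μ ⊗ₘ κ] M) (h2 : comp κ M (fn P) =ᵐ[μ ⊗ₘ κ] M) {N : ℕ} (hN : ‖P‖ ^ 4 < N)
    (hd : ∀ n, 0 < n → n < N → ¬ ∃ d : X → ℂ, Uni D d ∧ ∀ᵐ x ∂μ, d (S x) = a x ^ n * d x) :
    M =ᵐ[μ ⊗ₘ κ] 0 := by
  by_contra h0
  obtain ⟨U, hU⟩ := twist_pow c hY hP ha hM h1 h2 h0
  have hlt : ∀ i j : ℕ, j < i → i < N → ∀ᵐ x ∂μ, ∫ z, U i z * conj (U j z) ∂(κ x).prod (κ x) = 0 := by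
    intro i j hji hiN
    refine c3_orth c (c3_pow ha i) (c3_pow ha j) (hU i).1 (hU j).1 ?_
    rintro ⟨d, hd1, hd2⟩
    refine hd (i - j) (by omega) (by omega) ⟨d, hd1, ?_⟩
    filter_upwards [hd2] with x hx
    rw [hx]
    have e1 : a x ^ i = a x ^ (i - j) * a x ^ j := by
      rw [← pow_add]
      congr 1
      omega
    rw [e1, map_pow]
    have e2 : a x ^ j * conj (a x) ^ j = 1 := by
      rw [← mul_pow, c3_conj (ha.norm x), one_pow]
    calc a x ^ (i - j) * a x ^ j * conj (a x) ^ j * d x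
        = a x ^ (i - j) * (a x ^ j * conj (a x) ^ j) * d x := by ring
      _ = a x ^ (i - j) * d x := by rw [e2, mul_one]
  have horth : ∀ᵐ x ∂μ, ∀ i j : Fin N, i ≠ j →
      ∫ z, U i z * conj (U j z) ∂(κ x).prod (κ x) = 0 := by
    rw [ae_all_iff]
    intro i
    rw [ae_all_iff]
    intro j
    rcases lt_trichotomy (i : ℕ) (j : ℕ) with h | h | h
    · filter_upwards [hlt j i h j.2] with x hx _
      have e : ∫ z, U i z * conj (U j z) ∂(κ x).prod (κ x) =
          conj (∫ z, U j z * conj (U i z) ∂(κ x).prod (κ x)) := by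
        rw [← integral_conj]
        refine integral_congr_ae (Eventually.of_forall fun z => ?_)
        show U i z * conj (U j z) = conj (U j z * conj (U i z))
        rw [map_mul, Complex.conj_conj, mul_comm]
      rw [e, hx, map_zero]
    · exact Eventually.of_forall fun x hij => absurd (Fin.ext h) hij
    · filter_upwards [hlt i j h i.2] with x hx _
      exact hx
  have ht : 0 < ‖P‖ ^ 2 := by
    have := norm_pos_iff.2 hP.ne
    positivity
  have hl2 : ∀ᵐ x ∂μ, ∀ j : Fin N, MemLp (U j) 2 ((κ x).prod (κ x)) ∧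
      ∫ z, ‖U j z‖ ^ 2 ∂(κ x).prod (κ x) = ‖P‖ ^ 2 := by
    rw [ae_all_iff]
    intro j
    have h3 := (hU j).1.l2f c (c3_pow ha j)
    rw [(hU j).2.2.2] at h3
    exact h3
  have hl : ∀ᵐ x ∂μ, ∀ j : Fin N, ∀ᵐ z ∂(κ x).prod (κ x),
      ∫ y, fn P (z.1, y) * U j (y, z.2) ∂κ x = U j z := by
    rw [ae_all_iff]
    intro j
    filter_upwards [comp_fib c (fn P) (U j), c.fib.ae2 (hU j).2.1] with x h3 h4
    filter_upwards [h3, h4] with z h5 h6
    rw [← h5, h6]
  have hr : ∀ᵐ x ∂μ, ∀ j : Fin N, ∀ᵐ z ∂(κ x).prod (κ x),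
      ∫ y, U j (z.1, y) * fn P (y, z.2) ∂κ x = U j z := by
    rw [ae_all_iff]
    intro j
    filter_upwards [comp_fib c (U j) (fn P), c.fib.ae2 (hU j).2.2.1] with x h3 h4
    filter_upwards [h3, h4] with z h5 h6
    rw [← h5, h6]
  obtain ⟨x, x1, x2, x3, x4, x5⟩ :=
    ((proj_fib c hP.toProj).and (horth.and (hl2.and (hl.and hr)))).exists
  have hb := PK.bessel ht x1 (fun j : Fin N => U j) (fun j => (hU j).1.meas) (fun j => (x3 j).1) x4 x5 x2
    (fun j => (x3 j).2)
  have h6 : (‖P‖ ^ 2) ^ 2 = ‖P‖ ^ 4 := by ring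
  rw [h6] at hb
  exact absurd hN (not_lt.2 hb)

theorem c3_one : Uni D (fun _ : X => (1 : ℂ)) := ⟨measurable_const, fun _ => norm_one⟩

/-- **C4.** `⟨|P|², v ⊗ conj v⟩ = 0` for a class `v` over `D` with `v, v², …, v^(N-1)` not `D`-measurable -/
theorem twist_cls (c : Ctx μ S D κ) {e : X → ℂ} {Y : SA X} (hY : Em μ S D Y e) {P : Bv c}
    (hP : (hst c).Min (Ak c e Y) P) {v : X → ℂ} (hv : Cls S D v) {N : ℕ} (hN : ‖P‖ ^ 4 < N)
    (hd : ∀ n, 0 < n → n < N → ¬ Measurable[D.m] fun x => v x ^ n) :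
    ∫ z, ((‖fn P z‖ ^ 2 : ℝ) : ℂ) * conj (rc v v z) ∂(μ ⊗ₘ κ) = 0 := by
  have hbd : Bd v := ⟨hv.meas, 1, fun x => (hv.norm x).le⟩
  have ha : Uni D fun x => v (S x) * conj (v x) :=
    ⟨hv.ratio, fun x => by rw [norm_mul, RCLike.norm_conj, hv.norm, hv.norm, one_mul]⟩
  have hM := sand_ker (P := P) c hv
  have hK := fn_ker P
  set Q : X × X → ℂ := fun z => v z.1 * fn P z with hQ
  have mQ : Measurable Q := (hv.meas.comp measurable_fst).mul hK.meas
  have kQ : Ker μ S κ (fun x => v (S x) * conj (v x)) Q := by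
    refine ⟨mQ, ?_, ?_⟩
    · refine hK.l2.mono mQ.aestronglyMeasurable (Eventually.of_forall fun z => ?_)
      show ‖v z.1 * fn P z‖ ≤ ‖fn P z‖
      rw [norm_mul, hv.norm, one_mul]
    · filter_upwards [hK.tw] with z hz
      show v (S z.1) * fn P (S z.1, S z.2) = v (S z.1) * conj (v z.1) * (v z.1 * fn P z)
      rw [hz]
      have := c3_conj (hv.norm z.1)
      calc v (S z.1) * (1 * fn P z) = v (S z.1) * (v z.1 * conj (v z.1)) * fn P z := by rw [this]; ring
        _ = _ := by ring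
  have hsand : sand κ (fn P) v = comp κ (fn P) Q := by
    funext z
    show ∫ y, fn P (z.1, y) * v y * fn P (y, z.2) ∂κ z.1 = ∫ y, fn P (z.1, y) * (v y * fn P (y, z.2)) ∂κ z.1
    refine integral_congr_ae (Eventually.of_forall fun y => ?_)
    exact mul_assoc _ _ _
  have hPP : comp κ (fn P) (fn P) =ᵐ[μ ⊗ₘ κ] fn P := by
    have := fn_mul P P
    rw [hP.idem] at this
    exact this.symm
  have hQP : comp κ Q (fn P) =ᵐ[μ ⊗ₘ κ] Q := by
    filter_upwards [hPP] with z hz
    have e1 : comp κ Q (fn P) z = v z.1 * comp κ (fn P) (fn P) z := by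
      show ∫ y, v z.1 * fn P (z.1, y) * fn P (y, z.2) ∂κ z.1 = v z.1 * ∫ y, fn P (z.1, y) * fn P (y, z.2) ∂κ z.1
      rw [← integral_const_mul]
      refine integral_congr_ae (Eventually.of_forall fun y => ?_)
      exact mul_assoc _ _ _
    rw [e1, hz]
  have mP := hK.meas
  have h1 : comp κ (fn P) (sand κ (fn P) v) =ᵐ[μ ⊗ₘ κ] sand κ (fn P) v := by
    rw [hsand]
    refine (comp_assoc c c3_one c3_one ha hK hK kQ).symm.trans ?_
    exact comp_congr c (measurable_comp mP mP) mP mQ mQ hPP (ae_eq_refl _)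
  have h2 : comp κ (sand κ (fn P) v) (fn P) =ᵐ[μ ⊗ₘ κ] sand κ (fn P) v := by
    rw [hsand]
    refine (comp_assoc c c3_one ha c3_one hK kQ hK).trans ?_
    exact comp_congr c mP mP (measurable_comp mQ mP) mQ (ae_eq_refl _) hQP
  have hz := twist c hY hP ha hM h1 h2 hN (by
    rintro n hn0 hnN ⟨d, hd1, hd2⟩
    refine hd n hn0 hnN ?_
    have hdm := k3_um c hd1
    have hvn : Measurable fun x => v x ^ n := hv.meas.pow_const n
    have hw : Measurable fun x => v x ^ n * conj (d x) :=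
      hvn.mul (Complex.continuous_conj.measurable.comp hdm)
    have hinv : (fun x => v x ^ n * conj (d x)) ∘ S =ᵐ[μ] fun x => v x ^ n * conj (d x) := by
      filter_upwards [hd2] with x hx
      show v (S x) ^ n * conj (d (S x)) = v x ^ n * conj (d x)
      rw [hx, map_mul, map_pow, map_mul, Complex.conj_conj, mul_pow]
      have e1 : v (S x) ^ n * conj (v (S x)) ^ n = 1 := by
        rw [← mul_pow, c3_conj (hv.norm _), one_pow]
      calc v (S x) ^ n * (conj (v (S x)) ^ n * v x ^ n * conj (d x))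
          = (v (S x) ^ n * conj (v (S x)) ^ n) * (v x ^ n * conj (d x)) := by ring
        _ = _ := by rw [e1, one_mul]
    obtain ⟨w, hw'⟩ := c.sys.erg.ae_eq_const_of_ae_eq_comp_ae hw.aestronglyMeasurable hinv
    have hvd : ∀ᵐ x ∂μ, v x ^ n = w * d x := by
      filter_upwards [hw'] with x hx
      have hx' : v x ^ n * conj (d x) = w := hx
      rw [← hx', mul_assoc, mul_comm (conj (d x)), c3_conj (hd1.norm x), mul_one]
    refine (c.fib.meas _ hvn).2 ?_
    filter_upwards [hvd, c.fib.ae hvd, k3_uc c hd1] with x e1 e2 e3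
    filter_upwards [e2, e3] with y f2 f3
    rw [f2, f3, e1])
  have hks : ksq μ κ (sand κ (fn P) v) = 0 := by
    unfold ksq
    have : (fun z => ‖sand κ (fn P) v z‖ ^ 2) =ᵐ[μ ⊗ₘ κ] fun _ => (0 : ℝ) := by
      filter_upwards [hz] with z hz'
      rw [hz']
      simp
    rw [integral_congr_ae this, integral_zero]
  have hs := sand_sq c hP.toProj hbd
  rw [hks] at hs
  rw [← hs]
  exact Complex.ofReal_zero

end Pool.Agent.Lib.MP_9fe581_an.AP
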