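import Pool.Agent.Lib.MP_9fe581_an.AP.B3
import Pool.Agent.Lib.MP_9fe581_an.AP.C3

/-! # AP, B5: extensions of minimal projections are minimal -/

set_option autoImplicit false
set_option linter.unusedSectionVars false

open Finset MeasureTheory Filter Topology ProbabilityTheory
open scoped ComplexConjugate ENNReal InnerProductSpace

namespace Pool.Agent.Lib.MP_9fe581_an.AP

section Gen

variable {X : Type} [MeasurableSpace X] {μ : Measure X} [IsProbabilityMeasure μ] {S : X → X} {D : SA X}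
  {κ : Kernel X X} [IsMarkovKernel κ] {a b : X → ℂ} {P Q N : X × X → ℂ} {u w u' w' : X → ℂ}

/-- the pairing with `P Q`, left factor -/
theorem b5_left (c : Ctx μ S D κ) (ha : Uni D a) (hb : Uni D b) (hP : Ker μ S κ a P)
    (hQ : Ker μ S κ b Q) (hu : Bd u) (hw : Bd w) :
    ∫ z, comp κ P Q z * conj (rc u w z) ∂(μ ⊗ₘ κ) = ∫ z, Q z * conj (rc (act κ (st P) u) w z) ∂(μ ⊗ₘ κ) := by
  rw [k4_inner c ha hb hP hQ (bc_rc hu hw)]
  refine integral_congr_ae (Eventually.of_forall fun z => ?_)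
  have h1 : comp κ (st P) (rc u w) z = rc (act κ (st P) u) w z := by
    show ∫ y, st P (z.1, y) * (u y * conj (w z.2)) ∂κ z.1 = (∫ y, st P (z.1, y) * u y ∂κ z.1) * conj (w z.2)
    rw [← integral_mul_const]
    exact integral_congr_ae (Eventually.of_forall fun y => (mul_assoc _ _ _).symm)
  show Q z * conj (comp κ (st P) (rc u w) z) = _
  rw [h1]

/-- the adjoint kernel and the pairing -/
theorem b5_swap (c : Ctx μ S D κ) (R : X × X → ℂ) (u w : X → ℂ) :
    ∫ z, st R z * conj (rc w u z) ∂(μ ⊗ₘ κ) = conj (∫ z, R z * conj (rc u w z) ∂(μ ⊗ₘ κ)) := by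
  rw [← integral_conj]
  have h1 := c.fib.swap.integral_comp (MeasurableEquiv.prodComm (α := X) (β := X)).measurableEmbedding
    (fun z : X × X => conj (R z * conj (rc u w z)))
  rw [← h1]
  refine integral_congr_ae (Eventually.of_forall fun z => ?_)
  show conj (R (z.2, z.1)) * conj (w z.1 * conj (u z.2)) = conj (R (z.2, z.1) * conj (u z.2 * conj (w z.1)))
  simp only [map_mul, Complex.conj_conj]
  ring

theorem b5_stst (P : X × X → ℂ) : st (st P) = P := by
  funext z
  show conj (conj (P (z.1, z.2))) = P z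
  rw [Complex.conj_conj]

/-- the pairing with `P Q`, right factor -/
theorem b5_right (c : Ctx μ S D κ) (ha : Uni D a) (hb : Uni D b) (hP : Ker μ S κ a P)
    (hQ : Ker μ S κ b Q) (hu : Bd u) (hw : Bd w) :
    ∫ z, comp κ P Q z * conj (rc u w z) ∂(μ ⊗ₘ κ) = ∫ z, P z * conj (rc u (act κ Q w) z) ∂(μ ⊗ₘ κ) := by
  have ha' : Uni D fun x => conj (a x) :=
    ⟨Complex.continuous_conj.measurable.comp ha.meas, fun x => by rw [RCLike.norm_conj, ha.norm]⟩
  have hb' : Uni D fun x => conj (b x) :=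
    ⟨Complex.continuous_conj.measurable.comp hb.meas, fun x => by rw [RCLike.norm_conj, hb.norm]⟩
  have h1 := b5_swap c (comp κ P Q) u w
  have h2 : ∫ z, st (comp κ P Q) z * conj (rc w u z) ∂(μ ⊗ₘ κ) =
      ∫ z, comp κ (st Q) (st P) z * conj (rc w u z) ∂(μ ⊗ₘ κ) := by
    refine integral_congr_ae ?_
    filter_upwards [st_comp c hP.meas hQ.meas] with z hz
    rw [hz]
  have h3 := b5_left c hb' ha' (hQ.stk c hb) (hP.stk c ha) hw hu
  rw [b5_stst] at h3
  have h4 := b5_swap c P u (act κ Q w)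
  rw [h2, h3, h4] at h1
  have h5 := congrArg conj h1
  rw [Complex.conj_conj, Complex.conj_conj] at h5
  exact h5.symm

theorem b5_act_congr (h : P =ᵐ[μ ⊗ₘ κ] Q) (u : X → ℂ) : act κ P u =ᵐ[μ] act κ Q u := by
  filter_upwards [Measure.ae_ae_of_ae_compProd h] with x hx
  refine integral_congr_ae ?_
  filter_upwards [hx] with y hy
  rw [hy]

theorem b5_rc_congr (c : Ctx μ S D κ) (N : X × X → ℂ) (hu : u =ᵐ[μ] u') (hw : w =ᵐ[μ] w') :
    ∫ z, N z * conj (rc u w z) ∂(μ ⊗ₘ κ) = ∫ z, N z * conj (rc u' w' z) ∂(μ ⊗ₘ κ) := by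
  refine integral_congr_ae ?_
  filter_upwards [c.fib.fst.quasiMeasurePreserving.ae hu, c.fib.snd.quasiMeasurePreserving.ae hw] with z h1 h2
  show N z * conj (u z.1 * conj (w z.2)) = N z * conj (u' z.1 * conj (w' z.2))
  rw [h1, h2]

/-- `D`-measurable functions commute with the kernels -/
theorem b5_comm (c : Ctx μ S D κ) {v : X → ℂ} (mv : Measurable v) (hv : Measurable[D.m] v) (P : X × X → ℂ) (u : X → ℂ) :
    act κ P (fun x => v x * u x) =ᵐ[μ] fun x => v x * act κ P u x := by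
  filter_upwards [(c.fib.meas v mv).1 hv] with x hx
  show ∫ y, P (x, y) * (v y * u y) ∂κ x = v x * ∫ y, P (x, y) * u y ∂κ x
  rw [← integral_const_mul]
  refine integral_congr_ae ?_
  filter_upwards [hx] with y hy
  rw [hy]
  ring

/-- truncation -/
theorem b5_trunc {Y : SA X} (hY : ∀ s, MeasurableSet[Y.m] s → MeasurableSet s) {g : X → ℂ} (hg : Measurable[Y.m] g)
    (hB : ∃ B : ℝ, ∀ᵐ x ∂μ, ‖g x‖ ≤ B) : ∃ f : X → ℂ, Bd f ∧ Measurable[Y.m] f ∧ g =ᵐ[μ] f := by
  obtain ⟨B, hB⟩ := hB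
  have hs : MeasurableSet[Y.m] {x | ‖g x‖ ≤ B} := by
    have h1 : Measurable[Y.m] fun x => ‖g x‖ := measurable_norm.comp hg
    exact h1 measurableSet_Iic
  classical
  have hf : Measurable[Y.m] fun x => if ‖g x‖ ≤ B then g x else 0 := by
    refine Measurable.ite hs hg ?_
    exact @measurable_const _ _ _ Y.m _
  refine ⟨_, ⟨hf.mono hY le_rfl, max B 0, fun x => ?_⟩, hf, ?_⟩
  · split_ifs with h
    · exact h.trans (le_max_left _ _)
    · simp
  · filter_upwards [hB] with x hx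
    rw [if_pos hx]

theorem b5_bd {e f : X → ℂ} (me : Measurable e) (ne : ∀ x, ‖e x‖ = 1) (hf : Bd f) : Bd fun x => e x * f x := by
  obtain ⟨C, hC⟩ := hf.bdd
  refine ⟨me.mul hf.meas, C, fun x => ?_⟩
  rw [norm_mul, ne, one_mul]
  exact hC x

theorem b5_sub {Y : SA X} {e : X → ℂ} (hP : Pm μ κ e Y P) (hQ : Pm μ κ e Y Q) :
    Pm μ κ e Y fun z => P z - Q z := by
  refine (AEStronglyMeasurable.sub hP hQ).congr (Eventually.of_forall fun z => ?_)
  show conj (e z.1) * P z * e z.2 - conj (e z.1) * Q z * e z.2 = conj (e z.1) * (P z - Q z) * e z.2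
  ring

/-- two kernels of the form `e ⊗ conj e · G` with the same pairings -/
theorem b5_eq (c : Ctx μ S D κ) {Y : SA X} {e : X → ℂ} (hY : Em μ S D Y e) (mP : Measurable P) (lP : MemLp P 2 (μ ⊗ₘ κ))
    (mQ : Measurable Q) (lQ : MemLp Q 2 (μ ⊗ₘ κ)) (hP : Pm μ κ e Y P) (hQ : Pm μ κ e Y Q)
    (h : ∀ f g : X → ℂ, Bd f → Bd g → Measurable[Y.m] f → Measurable[Y.m] g →
      ∫ z, P z * conj (rc (fun x => e x * f x) (fun x => e x * g x) z) ∂(μ ⊗ₘ κ) =
        ∫ z, Q z * conj (rc (fun x => e x * f x) (fun x => e x * g x) z) ∂(μ ⊗ₘ κ)) : P =ᵐ[μ ⊗ₘ κ] Q := by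
  have h1 : (fun z => P z - Q z) =ᵐ[μ ⊗ₘ κ] 0 := by
    refine Pm_zero c hY (mP.sub mQ) (lP.sub lQ) (b5_sub hP hQ) ?_
    intro f g hf hg hf' hg'
    have hR := bc_rc (μ := μ) (κ := κ) (b5_bd hY.meas hY.norm hf) (b5_bd hY.meas hY.norm hg)
    have i1 : Integrable (fun z => P z * conj (rc (fun x => e x * f x) (fun x => e x * g x) z)) (μ ⊗ₘ κ) :=
      lP.integrable_mul hR.l2.star
    have i2 : Integrable (fun z => Q z * conj (rc (fun x => e x * f x) (fun x => e x * g x) z)) (μ ⊗ₘ κ) :=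
      lQ.integrable_mul hR.l2.star
    have h2 := h f g hf hg hf' hg'
    calc ∫ z, (P z - Q z) * conj (rc (fun x => e x * f x) (fun x => e x * g x) z) ∂(μ ⊗ₘ κ)
        = ∫ z, (P z * conj (rc (fun x => e x * f x) (fun x => e x * g x) z) -
            Q z * conj (rc (fun x => e x * f x) (fun x => e x * g x) z)) ∂(μ ⊗ₘ κ) := by
          refine integral_congr_ae (Eventually.of_forall fun z => ?_)
          exact sub_mul _ _ _
      _ = 0 := by
          rw [integral_sub i1 i2, h2, sub_self]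
  filter_upwards [h1] with z hz
  exact sub_eq_zero.1 hz

end Gen

variable {X : Type} [MeasurableSpace X] {μ : Measure X} [IsProbabilityMeasure μ] {S : X → X} {D D' Y Y' : SA X}
  {SS EE : Set (X → ℂ)} {κ κ' : Kernel X X} [IsMarkovKernel κ] [IsMarkovKernel κ']

theorem b5_stproj {c : Ctx μ S D κ} {p : Bv c} (hp : (hst c).Proj p) : fn p =ᵐ[μ ⊗ₘ κ] st (fn p) := by
  have h1 := fn_star p
  rw [hp.star] at h1
  exact h1

theorem b5_good (b : BD μ S D D' Y Y' SS EE) {c : Ctx μ S D κ} {c' : Ctx μ S D' κ'} {e : X → ℂ} (he : e ∈ EE)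
    {p : Bv c} {p' : Bv c'} (h : Shp Y e p p') {f : X → ℂ} (hf : Bd f) (hY : Measurable[Y.m] f) :
    ∃ f2 : X → ℂ, Bd f2 ∧ Measurable[Y.m] f2 ∧ act κ (fn p) (fun x => e x * f x) =ᵐ[μ] (fun x => e x * f2 x) ∧
      act κ' (fn p') (fun x => e x * f x) =ᵐ[μ] fun x => e x * f2 x := by
  have hE := b.em he
  have hef : Bd fun x => e x * f x := b5_bd hE.meas hE.norm hf
  have h1 := Pm_act c hE k5_uni (fn_ker p) h.pm hef
  obtain ⟨B, hB⟩ := k4_actb c k5_uni (fn_ker p) hef
  obtain ⟨f2, h2, h3, h4⟩ := b5_trunc (μ := μ) b.fY.le h1 ⟨B, by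
    filter_upwards [hB] with x hx
    rw [norm_mul, RCLike.norm_conj, hE.norm, one_mul]
    exact hx⟩
  have h5 : act κ (fn p) (fun x => e x * f x) =ᵐ[μ] fun x => e x * f2 x := by
    filter_upwards [h4] with x hx
    rw [← hx, ← mul_assoc, Complex.mul_conj, Complex.normSq_eq_norm_sq, hE.norm]
    simp
  exact ⟨f2, h2, h3, h5, (h.act b he hf hY).trans h5⟩

/-- `conj v (x) N(x, y)` paired -/
theorem b5_v (N : X × X → ℂ) (v u w : X → ℂ) :
    ∫ z, conj (v z.1) * N z * conj (rc u w z) ∂(μ ⊗ₘ κ) = ∫ z, N z * conj (rc (fun x => v x * u x) w z) ∂(μ ⊗ₘ κ) := by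
  refine integral_congr_ae (Eventually.of_forall fun z => ?_)
  show conj (v z.1) * N z * conj (u z.1 * conj (w z.2)) = N z * conj (v z.1 * u z.1 * conj (w z.2))
  simp only [map_mul, Complex.conj_conj]
  ring


/-- the compression of `N = p' N` is absorbed by `p` -/
theorem b5_absL (b : BD μ S D D' Y Y' SS EE) {c : Ctx μ S D κ} {c' : Ctx μ S D' κ'} {e : X → ℂ} (he : e ∈ EE)
    {v : X → ℂ} (hv : v ∈ SS) {p : Bv c} {p' : Bv c'} (h : Shp Y e p p') (hp : (hst c).Proj p)
    (hp' : (hst c').Proj p') {N : Bv c'} (hN : (hst c').mul p' N = N) {m : X × X → ℂ}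
    (hm : Ker μ S κ (fun x => conj (v (S x) * conj (v x))) m) (mm : Pm μ κ e Y m)
    (hc : ∀ f g : X → ℂ, Bd f → Bd g → Measurable[Y.m] f → Measurable[Y.m] g →
        ∫ z, m z * conj (rc (fun x => e x * g x) (fun x => e x * f x) z) ∂(μ ⊗ₘ κ) =
          ∫ z, conj (v z.1) * fn N z * conj (rc (fun x => e x * g x) (fun x => e x * f x) z) ∂(μ ⊗ₘ κ')) :
    comp κ (fn p) m =ᵐ[μ ⊗ₘ κ] m := by
  have hE := b.em he
  have hvc := b.cls v hv
  have ha : Uni D fun x => conj (v (S x) * conj (v x)) :=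
    ⟨Complex.continuous_conj.measurable.comp hvc.ratio, fun x => by
      rw [RCLike.norm_conj, norm_mul, RCLike.norm_conj, hvc.norm, hvc.norm, one_mul]⟩
  have hk := (fn_ker p).compk c k5_uni ha hm
  refine b5_eq c hE hk.meas hk.l2 hm.meas hm.l2 (Pm_comp c hE k5_uni ha (fn_ker p) hm h.pm mm) mm ?_
  intro g f hg hf hg' hf'
  obtain ⟨g2, h1, h2, h3, h4⟩ := b5_good b he h hg hg'
  have hef := b5_bd hE.meas hE.norm hf
  have heg := b5_bd hE.meas hE.norm hg
  have hveg : Bd fun x => v x * (e x * g x) := b5_bd hvc.meas hvc.norm heg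
  rw [b5_left c k5_uni ha (fn_ker p) hm heg hef]
  have e1 : act κ (st (fn p)) (fun x => e x * g x) =ᵐ[μ] fun x => e x * g2 x :=
    (b5_act_congr (b5_stproj hp) _).symm.trans h3
  rw [b5_rc_congr c m e1 (ae_eq_refl _), hc f g2 hf h1 hf' h2, hc f g hf hg hf' hg', b5_v, b5_v]
  have e2 : fn N =ᵐ[μ ⊗ₘ κ'] comp κ' (fn p') (fn N) := by
    have := fn_mul p' N
    rw [hN] at this
    exact this
  have e3 : ∫ z, fn N z * conj (rc (fun x => v x * (e x * g x)) (fun x => e x * f x) z) ∂(μ ⊗ₘ κ') =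
      ∫ z, comp κ' (fn p') (fn N) z * conj (rc (fun x => v x * (e x * g x)) (fun x => e x * f x) z) ∂(μ ⊗ₘ κ') := by
    refine integral_congr_ae ?_
    filter_upwards [e2] with z hz
    rw [← hz]
  rw [e3, b5_left c' k5_uni k5_uni (fn_ker p') (fn_ker N) hveg hef]
  refine b5_rc_congr c' _ ?_ (ae_eq_refl _)
  refine (b5_comm c' hvc.meas (b.mem v hv) _ _).symm.symm.trans ?_ |>.symm
  have e4 : act κ' (st (fn p')) (fun x => e x * g x) =ᵐ[μ] fun x => e x * g2 x :=
    (b5_act_congr (b5_stproj hp') _).symm.trans h4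
  filter_upwards [e4] with x hx
  rw [hx]

/-- the compression of `N = N p'` is absorbed by `p` -/
theorem b5_absR (b : BD μ S D D' Y Y' SS EE) {c : Ctx μ S D κ} {c' : Ctx μ S D' κ'} {e : X → ℂ} (he : e ∈ EE)
    {v : X → ℂ} (hv : v ∈ SS) {p : Bv c} {p' : Bv c'} (h : Shp Y e p p')
    {N : Bv c'} (hN : (hst c').mul N p' = N) {m : X × X → ℂ}
    (hm : Ker μ S κ (fun x => conj (v (S x) * conj (v x))) m) (mm : Pm μ κ e Y m)
    (hc : ∀ f g : X → ℂ, Bd f → Bd g → Measurable[Y.m] f → Measurable[Y.m] g →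
        ∫ z, m z * conj (rc (fun x => e x * g x) (fun x => e x * f x) z) ∂(μ ⊗ₘ κ) =
          ∫ z, conj (v z.1) * fn N z * conj (rc (fun x => e x * g x) (fun x => e x * f x) z) ∂(μ ⊗ₘ κ')) :
    comp κ m (fn p) =ᵐ[μ ⊗ₘ κ] m := by
  have hE := b.em he
  have hvc := b.cls v hv
  have ha : Uni D fun x => conj (v (S x) * conj (v x)) :=
    ⟨Complex.continuous_conj.measurable.comp hvc.ratio, fun x => by
      rw [RCLike.norm_conj, norm_mul, RCLike.norm_conj, hvc.norm, hvc.norm, one_mul]⟩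
  have hk := hm.compk c ha k5_uni (fn_ker p)
  refine b5_eq c hE hk.meas hk.l2 hm.meas hm.l2 (Pm_comp c hE ha k5_uni hm (fn_ker p) mm h.pm) mm ?_
  intro g f hg hf hg' hf'
  obtain ⟨f2, h1, h2, h3, h4⟩ := b5_good b he h hf hf'
  have hef := b5_bd hE.meas hE.norm hf
  have heg := b5_bd hE.meas hE.norm hg
  have hveg : Bd fun x => v x * (e x * g x) := b5_bd hvc.meas hvc.norm heg
  rw [b5_right c ha k5_uni hm (fn_ker p) heg hef]
  rw [b5_rc_congr c m (ae_eq_refl _) h3, hc f2 g h1 hg h2 hg', hc f g hf hg hf' hg', b5_v, b5_v]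
  have e2 : fn N =ᵐ[μ ⊗ₘ κ'] comp κ' (fn N) (fn p') := by
    have := fn_mul N p'
    rw [hN] at this
    exact this
  have e3 : ∫ z, fn N z * conj (rc (fun x => v x * (e x * g x)) (fun x => e x * f x) z) ∂(μ ⊗ₘ κ') =
      ∫ z, comp κ' (fn N) (fn p') z * conj (rc (fun x => v x * (e x * g x)) (fun x => e x * f x) z) ∂(μ ⊗ₘ κ') := by
    refine integral_congr_ae ?_
    filter_upwards [e2] with z hz
    rw [← hz]
  rw [e3, b5_right c' k5_uni k5_uni (fn_ker N) (fn_ker p') hveg hef]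
  exact b5_rc_congr c' _ (ae_eq_refl _) h4.symm

/-- a class with `E(v^n | Y) = 0` for all `n > 0` : no `D`-measurable unimodular solution -/
theorem b5_nosol (b : BD μ S D D' Y Y' SS EE) (c : Ctx μ S D κ) {v : X → ℂ} (hv : v ∈ SS)
    (h0 : ∀ n : ℕ, 0 < n → ce μ Y (fun x => v x ^ n) =ᵐ[μ] 0) (n : ℕ) (hn : 0 < n) :
    ¬ ∃ d : X → ℂ, Uni D d ∧ ∀ᵐ x ∂μ, d (S x) = (conj (v (S x) * conj (v x))) ^ n * d x := by
  rintro ⟨d, hd, h1⟩
  have hvc := b.cls v hv
  have hdm : Measurable d := hd.meas.mono b.fD.le le_rfl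
  have hdY : Measurable[Y.m] d := hd.meas.mono b.DY le_rfl
  have hinv : (fun x => v x ^ n * d x) ∘ S =ᵐ[μ] fun x => v x ^ n * d x := by
    filter_upwards [h1] with x hx
    show v (S x) ^ n * d (S x) = v x ^ n * d x
    rw [hx, map_mul, Complex.conj_conj, mul_pow, ← mul_assoc, ← mul_assoc, ← mul_pow, Complex.mul_conj,
      Complex.normSq_eq_norm_sq, hvc.norm]
    simp
  have hw : Measurable fun x => v x ^ n * d x := (hvc.meas.pow_const n).mul hdm
  obtain ⟨t, ht⟩ := c.sys.erg.ae_eq_const_of_ae_eq_comp_ae hw.aestronglyMeasurable hinv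
  have h2 : (fun x => v x ^ n) =ᵐ[μ] fun x => t * conj (d x) := by
    filter_upwards [ht] with x hx
    have hx' : v x ^ n * d x = t := hx
    rw [← hx', mul_assoc, Complex.mul_conj, Complex.normSq_eq_norm_sq, hd.norm]
    simp
  have h3 : ce μ Y (fun x => v x ^ n) =ᵐ[μ] fun x => t * conj (d x) := by
    refine (condExp_congr_ae h2).trans ?_
    have hm : Measurable[Y.m] fun x => t * conj (d x) :=
      Measurable.mul (@measurable_const _ _ _ Y.m _) (Complex.continuous_conj.measurable.comp hdY)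
    have hi : Integrable (fun x => t * conj (d x)) μ :=
      Integrable.of_bound (hm.mono b.fY.le le_rfl).aestronglyMeasurable ‖t‖ (Eventually.of_forall fun x => by
        rw [norm_mul, RCLike.norm_conj, hd.norm, mul_one])
    rw [condExp_of_stronglyMeasurable (b.fY.le) hm.stronglyMeasurable hi]
  have h4 : ∀ᵐ x ∂μ, False := by
    filter_upwards [h0 n hn, h3, h2] with x a1 a2 a3
    have a4 : v x ^ n = 0 := by rw [a3, ← a2, a1]; rfl
    have a5 : ‖v x ^ n‖ = 1 := by rw [norm_pow, hvc.norm, one_pow]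
    rw [a4, norm_zero] at a5
    exact zero_ne_one a5
  rw [ae_iff] at h4
  simp at h4

theorem b5_YD : ∀ s, MeasurableSet[Y.m] s → MeasurableSet s → MeasurableSet[(YD μ Y D').m] s := by
  intro s hs hs'
  refine MeasurableSpace.measurableSet_inf.2 ⟨hs', ?_⟩
  have h1 : MeasurableSet[Y.m ⊔ D'.m] s := (le_sup_left : Y.m ≤ Y.m ⊔ D'.m) s hs
  exact @le_eventuallyMeasurableSpace X (Y.m ⊔ D'.m) (ae μ) _ s h1

/-- **B5.** the extension of a minimal projection is minimal in the whole algebra -/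
theorem Shp.min (b : BD μ S D D' Y Y' SS EE) {c : Ctx μ S D κ} {c' : Ctx μ S D' κ'} {e : X → ℂ} (he : e ∈ EE)
    {p : Bv c} {p' : Bv c'} (h : Shp Y e p p') (hp : (hst c).Min (Ak c e Y) p) (M : Bv c') :
    ∃ z : ℂ, (hst c').mul ((hst c').mul p' M) p' = z • p' := by
  have hE := b.em he
  have hE' := b.emt he
  have hpr : (hst c).Proj p := hp.toProj
  have hpr' : (hst c').Proj p' := h.proj b he hpr
  set K : Bv c' := (hst c').mul ((hst c').mul p' M) p' with hK
  have hKl : (hst c').mul p' K = K := by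
    rw [hK, ← (hst c').assoc, ← (hst c').assoc, hpr'.idem]
  have hKr : (hst c').mul K p' = K := by
    rw [hK, (hst c').assoc, hpr'.idem]
  obtain ⟨m1, k1, k2, k3⟩ := exists_cmp b c c' he b.one K
  have a1 := b5_absL b he b.one h hpr hpr' hKl k1 k2 k3
  have a2 := b5_absR b he b.one h hKr k1 k2 k3
  have k1' : Ker μ S κ (fun _ => 1) m1 := k5_one (fun x => by simp) k1
  obtain ⟨m, hm⟩ := exists_fn c k1'
  have hmA : m ∈ Ak c e Y := by
    rw [mem_Ak]
    refine AEStronglyMeasurable.congr k2 ?_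
    filter_upwards [hm] with z hz
    rw [hz]
  obtain ⟨z, hz⟩ := hp.min m hmA
  have hmz : m = z • p := by
    have e1 : (hst c).mul p m = m := by
      refine fn_ext ?_
      refine (fn_mul p m).trans ?_
      refine (comp_congr c (k5_m p) (k5_m p) (k5_m m) k1'.meas (ae_eq_refl _) hm).trans ?_
      exact a1.trans hm.symm
    have e2 : (hst c).mul m p = m := by
      refine fn_ext ?_
      refine (fn_mul m p).trans ?_
      refine (comp_congr c (k5_m m) k1'.meas (k5_m p) (k5_m p) hm (ae_eq_refl _)).trans ?_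
      exact a2.trans hm.symm
    rw [e1, e2] at hz
    exact hz
  refine ⟨z, ?_⟩
  set K0 : Bv c' := K - z • p' with hK0
  have h0l : (hst c').mul p' K0 = K0 := by
    rw [hK0, map_sub, map_smul, hKl, hpr'.idem]
  have h0r : (hst c').mul K0 p' = K0 := by
    rw [hK0, map_sub, map_smul, LinearMap.sub_apply, LinearMap.smul_apply, hKr, hpr'.idem]
  have hK0f : fn K0 =ᵐ[μ ⊗ₘ κ'] fun w => fn K w - z * fn p' w := by
    filter_upwards [fn_sub K (z • p'), fn_smul z p'] with w w1 w2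
    rw [w1, w2]
  -- the pairings of `K0` with `v = 1`
  have hone : ∀ f g : X → ℂ, Bd f → Bd g → Measurable[Y.m] f → Measurable[Y.m] g →
      ∫ w, fn K0 w * conj (rc (fun x => e x * g x) (fun x => e x * f x) w) ∂(μ ⊗ₘ κ') = 0 := by
    intro f g hf hg hf' hg'
    have hR := bc_rc (μ := μ) (κ := κ') (b5_bd hE.meas hE.norm hg) (b5_bd hE.meas hE.norm hf)
    have i1 : Integrable (fun w => fn K w * conj (rc (fun x => e x * g x) (fun x => e x * f x) w)) (μ ⊗ₘ κ') :=
      (fn_ker K).l2.integrable_mul hR.l2.star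
    have i2 : Integrable (fun w => z * (fn p' w * conj (rc (fun x => e x * g x) (fun x => e x * f x) w))) (μ ⊗ₘ κ') :=
      ((fn_ker p').l2.integrable_mul hR.l2.star).const_mul z
    have q1 := k3 f g hf hg hf' hg'
    have q2 : ∫ w, conj ((fun _ : X => (1 : ℂ)) w.1) * fn K w *
        conj (rc (fun x => e x * g x) (fun x => e x * f x) w) ∂(μ ⊗ₘ κ') =
        ∫ w, fn K w * conj (rc (fun x => e x * g x) (fun x => e x * f x) w) ∂(μ ⊗ₘ κ') := by
      refine integral_congr_ae (Eventually.of_forall fun w => ?_)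
      simp
    have q3 : ∫ w, m1 w * conj (rc (fun x => e x * g x) (fun x => e x * f x) w) ∂(μ ⊗ₘ κ) =
        z * ∫ w, fn p w * conj (rc (fun x => e x * g x) (fun x => e x * f x) w) ∂(μ ⊗ₘ κ) := by
      rw [← integral_const_mul]
      refine integral_congr_ae ?_
      have : fn m =ᵐ[μ ⊗ₘ κ] fun w => z * fn p w := by
        rw [hmz]
        exact fn_smul z p
      filter_upwards [hm, this] with w w1 w2
      rw [← w1, w2, mul_assoc]
    have q4 : ∫ w, fn K0 w * conj (rc (fun x => e x * g x) (fun x => e x * f x) w) ∂(μ ⊗ₘ κ') =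
        ∫ w, (fn K w * conj (rc (fun x => e x * g x) (fun x => e x * f x) w) -
          z * (fn p' w * conj (rc (fun x => e x * g x) (fun x => e x * f x) w))) ∂(μ ⊗ₘ κ') := by
      refine integral_congr_ae ?_
      filter_upwards [hK0f] with w hw
      rw [hw]
      ring
    rw [q4, integral_sub i1 i2, integral_const_mul, ← q2, ← q1, q3, h.pair f g hf hg hf' hg', sub_self]
  -- all pairings
  have hall : ∀ v ∈ SS, ∀ f g : X → ℂ, Bd f → Bd g → Measurable[Y.m] f → Measurable[Y.m] g →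
      ∫ w, conj (v w.1) * fn K0 w * conj (rc (fun x => e x * g x) (fun x => e x * f x) w) ∂(μ ⊗ₘ κ') = 0 := by
    intro v hv f g hf hg hf' hg'
    rcases b.dich v hv with hvD | hv0
    · rw [b5_v]
      have hvY : Measurable[Y.m] v := hvD.mono b.DY le_rfl
      have q1 := hone f (fun x => v x * g x) hf (b5_bd (b.cls v hv).meas (b.cls v hv).norm hg) hf' (hvY.mul hg')
      have q2 : (fun x => v x * (e x * g x)) = fun x => e x * (v x * g x) := by
        funext x
        ring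
      rw [q2]
      exact q1
    · obtain ⟨mv, r1, r2, r3⟩ := exists_cmp b c c' he hv K0
      have b1 := b5_absL b he hv h hpr hpr' h0l r1 r2 r3
      have b2 := b5_absR b he hv h h0r r1 r2 r3
      have hvc := b.cls v hv
      have ha : Uni D fun x => conj (v (S x) * conj (v x)) :=
        ⟨Complex.continuous_conj.measurable.comp hvc.ratio, fun x => by
          rw [RCLike.norm_conj, norm_mul, RCLike.norm_conj, hvc.norm, hvc.norm, one_mul]⟩
      obtain ⟨n, hn⟩ := exists_nat_gt (‖p‖ ^ 4)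
      have b3 := twist c hE hp ha r1 b1 b2 hn fun j hj _ => b5_nosol b c hv hv0 j hj
      rw [← r3 f g hf hg hf' hg']
      have b4 : ∫ w, mv w * conj (rc (fun x => e x * g x) (fun x => e x * f x) w) ∂(μ ⊗ₘ κ) =
          ∫ _, (0 : ℂ) ∂(μ ⊗ₘ κ) := by
        refine integral_congr_ae ?_
        filter_upwards [b3] with w hw
        rw [hw]
        simp
      rw [b4, integral_zero]
  -- `K0` is of the form `e ⊗ conj e · (Y ∨ D') ⊗ (Y ∨ D')`
  have hle : Y.m.prod Y.m ≤ (YD μ Y D').m.prod (YD μ Y D').m := by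
    have h1 : Y.m ≤ (YD μ Y D').m := fun s hs => b5_YD s hs (b.fY.le s hs)
    exact sup_le_sup (MeasurableSpace.comap_mono h1) (MeasurableSpace.comap_mono h1)
  have hp'Y : Pm μ κ' e (YD μ Y D') (fn p') := AEStronglyMeasurable.mono hle h.pm'
  have hKY : Pm μ κ' e (YD μ Y D') (fn K) := by
    have s1 := Pm_comp3 c' hE' k5_uni k5_uni k5_uni (fn_ker p') (fn_ker M) (fn_ker p') hp'Y hp'Y
    refine AEStronglyMeasurable.congr s1 ?_
    have s2 : fn K =ᵐ[μ ⊗ₘ κ'] comp κ' (comp κ' (fn p') (fn M)) (fn p') := by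
      refine (fn_mul _ _).trans ?_
      exact comp_congr c' (k5_m _) (k5_comp p' M).meas (k5_m _) (k5_m _) (fn_mul _ _) (ae_eq_refl _)
    filter_upwards [s2] with w hw
    rw [hw]
  have hK0Y : Pm μ κ' e (YD μ Y D') (fn K0) := by
    have s1 : Pm μ κ' e (YD μ Y D') (fun w => z * fn p' w) := by
      refine (AEStronglyMeasurable.const_mul hp'Y z).congr (Eventually.of_forall fun w => ?_)
      show z * (conj (e w.1) * fn p' w * e w.2) = conj (e w.1) * (z * fn p' w) * e w.2
      ring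
    refine AEStronglyMeasurable.congr (b5_sub hKY s1) ?_
    filter_upwards [hK0f] with w hw
    rw [hw]
  have hact : ∀ f : X → ℂ, Bd f → Measurable[Y.m] f → AP.act κ' (fn K0) (fun x => e x * f x) =ᵐ[μ] 0 := by
    intro f hf hf'
    have hef := b5_bd hE.meas hE.norm hf
    have t1 := Pm_act c' hE' k5_uni (fn_ker K0) hK0Y hef
    have t3 : ∃ B : ℝ, ∀ᵐ x ∂μ, ‖conj (e x) * AP.act κ' (fn K0) (fun x => e x * f x) x‖ ≤ B := by
      obtain ⟨B, hB⟩ := k4_actb c' k5_uni (fn_ker K0) hef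
      refine ⟨B, hB.mono fun x hx => ?_⟩
      rw [norm_mul, RCLike.norm_conj, hE.norm, one_mul]
      exact hx
    have t4 := b.total t3 t1 (by
      intro v hv y hy hy'
      have hvey : Bd fun x => v x * (e x * y x) :=
        b5_bd (b.cls v hv).meas (b.cls v hv).norm (b5_bd hE.meas hE.norm hy)
      have t5 := hall v hv f y hf hy hf' hy'
      rw [b5_v, pair_act c' k5_uni (fn_ker K0) hvey hef] at t5
      rw [← t5]
      refine integral_congr_ae (Eventually.of_forall fun x => ?_)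
      show conj (e x) * AP.act κ' (fn K0) (fun x => e x * f x) x * conj (v x) * conj (y x) =
        AP.act κ' (fn K0) (fun x => e x * f x) x * conj (v x * (e x * y x))
      simp only [map_mul]
      ring)
    filter_upwards [t4] with x hx
    have hx' : conj (e x) * AP.act κ' (fn K0) (fun x => e x * f x) x = 0 := hx
    rcases mul_eq_zero.1 hx' with h1 | h1
    · have h2 : ‖conj (e x)‖ = 1 := by rw [RCLike.norm_conj, hE.norm]
      rw [h1, norm_zero] at h2
      exact absurd h2 zero_ne_one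
    · exact h1
  have hzero := b.kill c' he k5_uni (fn_ker K0) hK0Y hact
  have hK00 : K0 = 0 := by
    refine fn_ext ?_
    refine hzero.trans ?_
    have h1 := fn_smul (0 : ℂ) (0 : Bv c')
    filter_upwards [h1] with w hw
    rw [zero_smul] at hw
    rw [hw]
    simp
  exact sub_eq_zero.1 hK00

end Pool.Agent.Lib.MP_9fe581_an.AP
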