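import Mathlib

/-! # AP, F0: kernels over one probability space

`P : X × X → ℂ` hermitian, idempotent, with rows of norm² `t`. -/

set_option autoImplicit false

open Finset MeasureTheory Filter Topology
open scoped ComplexConjugate

namespace Pool.Agent.Lib.MP_9fe581_an.AP

variable {X : Type} [MeasurableSpace X]

/-- a projection kernel on the probability space `ν` with rows of norm² `t` -/
structure PK (ν : Measure X) (t : ℝ) (P : X × X → ℂ) : Prop where
  meas : Measurable P
  l2 : MemLp P 2 (ν.prod ν)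
  herm : ∀ᵐ z ∂ν.prod ν, P (z.2, z.1) = conj (P z)
  idem : ∀ᵐ z ∂ν.prod ν, ∫ y, P (z.1, y) * P (y, z.2) ∂ν = P z
  row : ∀ᵐ x ∂ν, Integrable (fun y => ‖P (x, y)‖ ^ 2) ν ∧ ∫ y, ‖P (x, y)‖ ^ 2 ∂ν = t

end Pool.Agent.Lib.MP_9fe581_an.AP
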