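import Pool.Agent.Lib.MP_9fe581_an.AP.K7
import Pool.Agent.Lib.MP_9fe581_an.AP.F0

/-! # AP, C1: projections on the fibres, the kernels `P g P` -/

set_option autoImplicit false

open Finset MeasureTheory Filter Topology ProbabilityTheory
open scoped ComplexConjugate ENNReal InnerProductSpace

namespace Pool.Agent.Lib.MP_9fe581_an.AP

section One

variable {X : Type} [MeasurableSpace X] {ν : Measure X} [IsProbabilityMeasure ν] {t : ℝ} {P : X × X → ℂ}

theorem c1_swap : MeasurePreserving Prod.swap (ν.prod ν) (ν.prod ν) := ⟨measurable_swap, Measure.prod_swap⟩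

/-- a property of almost all pairs, by rows and by columns -/
theorem c1_rc {A : X × X → Prop} (h : ∀ᵐ z ∂ν.prod ν, A z) :
    (∀ᵐ a ∂ν, ∀ᵐ b ∂ν, A (a, b)) ∧ ∀ᵐ b ∂ν, ∀ᵐ a ∂ν, A (a, b) :=
  ⟨Measure.ae_ae_of_ae_prod h, Measure.ae_ae_of_ae_prod (c1_swap.quasiMeasurePreserving.ae h)⟩

/-- the columns -/
theorem c1_col (h : PK ν t P) : ∀ᵐ b ∂ν, Integrable (fun y => ‖P (y, b)‖ ^ 2) ν ∧ ∫ y, ‖P (y, b)‖ ^ 2 ∂ν = t := by
  filter_upwards [h.row, (c1_rc h.herm).1] with b hb hh
  have e : (fun y => ‖P (y, b)‖ ^ 2) =ᵐ[ν] fun y => ‖P (b, y)‖ ^ 2 := by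
    filter_upwards [hh] with y hy
    have hy' : P (y, b) = conj (P (b, y)) := hy
    rw [hy', RCLike.norm_conj]
  exact ⟨hb.1.congr e.symm, (integral_congr_ae e).trans hb.2⟩

/-- the kernel `P g P` on one probability space -/
noncomputable def c1_s (ν : Measure X) (P : X × X → ℂ) (g : X → ℂ) (z : X × X) : ℂ :=
  ∫ y, P (z.1, y) * g y * P (y, z.2) ∂ν

theorem c1_meas (h : PK ν t P) {g : X → ℂ} (hg : Bd g) : Measurable (c1_s ν P g) := by
  have h1 : Measurable fun w : (X × X) × X => P (w.1.1, w.2) * g w.2 * P (w.2, w.1.2) :=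
    ((h.meas.comp ((measurable_fst.comp measurable_fst).prodMk measurable_snd)).mul
      (hg.meas.comp measurable_snd)).mul
      (h.meas.comp (measurable_snd.prodMk (measurable_snd.comp measurable_fst)))
  exact (h1.stronglyMeasurable.integral_prod_right (ν := ν)).measurable

omit [IsProbabilityMeasure ν] in
theorem c1_sqg {f g : X → ℂ} (mf : Measurable f) (hf : Integrable (fun y => ‖f y‖ ^ 2) ν) (hg : Bd g) :
    Integrable (fun y => ‖f y * g y‖ ^ 2) ν := by
  obtain ⟨C, hC⟩ := hg.bdd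
  refine (hf.mul_const (C ^ 2)).mono' ((mf.mul hg.meas).norm.pow_const 2).aestronglyMeasurable
    (Eventually.of_forall fun y => ?_)
  rw [Real.norm_of_nonneg (by positivity), norm_mul, mul_pow]
  exact mul_le_mul_of_nonneg_left (pow_le_pow_left₀ (norm_nonneg _) (hC y) 2) (by positivity)

theorem c1_bound (h : PK ν t P) {g : X → ℂ} (hg : Bd g) {C : ℝ} (hC : ∀ x, ‖g x‖ ≤ C) :
    ∀ᵐ z ∂ν.prod ν, ‖c1_s ν P g z‖ ≤ C * t := by
  have hC0 : 0 ≤ C := by
    obtain ⟨x⟩ : Nonempty X := by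
      by_contra hne
      rw [not_nonempty_iff] at hne
      have := (inferInstance : IsProbabilityMeasure ν).measure_univ
      rw [Set.univ_eq_empty_iff.2 hne, measure_empty] at this
      exact zero_ne_one this
    exact (norm_nonneg _).trans (hC x)
  filter_upwards [Measure.quasiMeasurePreserving_fst.ae h.row, Measure.quasiMeasurePreserving_snd.ae (c1_col h)]
    with z h1 h2
  have mf : Measurable fun y => P (z.1, y) := h.meas.comp measurable_prodMk_left
  have mk : Measurable fun y => P (y, z.2) := h.meas.comp measurable_prodMk_right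
  have i1 := c1_sqg mf h1.1 hg
  have k := k3_cs (mf.mul hg.meas) mk i1 h2.1
  have t0 : 0 ≤ t := by rw [← h1.2]; exact integral_nonneg fun y => by positivity
  have b1 : ∫ y, ‖P (z.1, y) * g y‖ ^ 2 ∂ν ≤ C ^ 2 * t := by
    rw [← h1.2, ← integral_const_mul]
    refine integral_mono i1 (h1.1.const_mul _) fun y => ?_
    show ‖P (z.1, y) * g y‖ ^ 2 ≤ C ^ 2 * ‖P (z.1, y)‖ ^ 2
    rw [norm_mul, mul_pow, mul_comm]
    exact mul_le_mul_of_nonneg_right (pow_le_pow_left₀ (norm_nonneg _) (hC y) 2) (by positivity)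
  refine k.trans ?_
  rw [h2.2]
  calc Real.sqrt (∫ y, ‖P (z.1, y) * g y‖ ^ 2 ∂ν) * Real.sqrt t ≤ Real.sqrt (C ^ 2 * t) * Real.sqrt t :=
        mul_le_mul_of_nonneg_right (Real.sqrt_le_sqrt b1) (Real.sqrt_nonneg _)
    _ = C * t := by
        rw [Real.sqrt_mul (by positivity), Real.sqrt_sq hC0, mul_assoc, Real.mul_self_sqrt t0]

/-- **C1**, on one probability space -/
theorem c1_one (h : PK ν t P) {g : X → ℂ} (hg : Bd g) :
    ∫ z, ((‖c1_s ν P g z‖ ^ 2 : ℝ) : ℂ) ∂ν.prod ν = ∫ z, ((‖P z‖ ^ 2 : ℝ) : ℂ) * conj (rc g g z) ∂ν.prod ν := by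
  obtain ⟨C, hC⟩ := hg.bdd
  have ms := c1_meas h hg
  have bs := c1_bound h hg hC
  have is1 : Integrable (fun z => ((‖c1_s ν P g z‖ ^ 2 : ℝ) : ℂ)) (ν.prod ν) := by
    refine Integrable.of_bound (Complex.measurable_ofReal.comp (ms.norm.pow_const 2)).aestronglyMeasurable
      ((C * t) ^ 2) ?_
    filter_upwards [bs] with z hz
    rw [Complex.norm_real, Real.norm_of_nonneg (by positivity)]
    exact pow_le_pow_left₀ (norm_nonneg _) hz 2
  have ls : MemLp (c1_s ν P g) 2 (ν.prod ν) := MemLp.of_bound ms.aestronglyMeasurable _ bs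
  obtain ⟨bs1, bs2⟩ := c1_rc bs
  obtain ⟨hr1, hr2⟩ := c1_rc h.herm
  obtain ⟨hi1, hi2⟩ := c1_rc h.idem
  have msq : ∀ b, Measurable fun a => c1_s ν P g (a, b) := fun b => ms.comp measurable_prodMk_right
  -- the inner integral
  have step1 : ∀ᵐ b ∂ν, ∫ a, ((‖c1_s ν P g (a, b)‖ ^ 2 : ℝ) : ℂ) ∂ν =
      ∫ y, g y * P (y, b) * conj (c1_s ν P g (y, b)) ∂ν := by
    filter_upwards [c1_col h, bs2, hr1] with b hb hbs hrb
    have mh : Measurable fun y => P (y, b) * g y := (h.meas.comp measurable_prodMk_right).mul hg.meas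
    have ih : Integrable (fun y => ‖P (y, b) * g y‖ ^ 2) ν := c1_sqg (h.meas.comp measurable_prodMk_right) hb.1 hg
    have isb : Integrable (fun a => ‖c1_s ν P g (a, b)‖ ^ 2) ν := by
      refine Integrable.of_bound ((msq b).norm.pow_const 2).aestronglyMeasurable ((C * t) ^ 2) ?_
      filter_upwards [hbs] with a ha
      rw [Real.norm_of_nonneg (by positivity)]
      exact pow_le_pow_left₀ (norm_nonneg _) ha 2
    have es : ∀ a, c1_s ν P g (a, b) = ∫ y, P (a, y) * (P (y, b) * g y) ∂ν := by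
      intro a
      refine integral_congr_ae (Eventually.of_forall fun y => ?_)
      show P (a, y) * g y * P (y, b) = P (a, y) * (P (y, b) * g y)
      ring
    calc ∫ a, ((‖c1_s ν P g (a, b)‖ ^ 2 : ℝ) : ℂ) ∂ν
        = ∫ a, (∫ y, P (a, y) * (P (y, b) * g y) ∂ν) * conj (c1_s ν P g (a, b)) ∂ν := by
          refine integral_congr_ae (Eventually.of_forall fun a => ?_)
          show ((‖c1_s ν P g (a, b)‖ ^ 2 : ℝ) : ℂ) = _ * _
          rw [← es a, Complex.mul_conj, Complex.normSq_eq_norm_sq]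
      _ = ∫ y, (P (y, b) * g y) * conj (∫ w, st P (y, w) * c1_s ν P g (w, b) ∂ν) ∂ν :=
          k4_adj h.l2 mh (msq b) ih isb
      _ = ∫ y, g y * P (y, b) * conj (c1_s ν P g (y, b)) ∂ν := by
          refine integral_congr_ae ?_
          filter_upwards [hr1, hi1, h.row] with y hy hiy hry
          have e1 : ∫ w, st P (y, w) * c1_s ν P g (w, b) ∂ν = c1_s ν P g (y, b) := by
            calc ∫ w, st P (y, w) * c1_s ν P g (w, b) ∂ν
                = ∫ w, P (y, w) * ∫ u, P (w, u) * (P (u, b) * g u) ∂ν ∂ν := by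
                  refine integral_congr_ae ?_
                  filter_upwards [hy] with w hw
                  have hw' : P (w, y) = conj (P (y, w)) := hw
                  show conj (P (w, y)) * c1_s ν P g (w, b) = _
                  rw [hw', Complex.conj_conj, es w]
              _ = ∫ u, (∫ w, P (y, w) * P (w, u) ∂ν) * (P (u, b) * g u) ∂ν :=
                  (k4_assoc h.l2 (h.meas.comp measurable_prodMk_left) mh hry.1 ih).symm
              _ = c1_s ν P g (y, b) := by
                  rw [es y]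
                  refine integral_congr_ae ?_
                  filter_upwards [hiy] with u hu
                  have hu' : ∫ w, P (y, w) * P (w, u) ∂ν = P (y, u) := hu
                  rw [hu']
          show P (y, b) * g y * conj (∫ w, st P (y, w) * c1_s ν P g (w, b) ∂ν) = _
          rw [e1]
          ring
  -- the outer integral
  have step2 : ∀ᵐ y ∂ν, ∫ b, g y * P (y, b) * conj (c1_s ν P g (y, b)) ∂ν =
      ∫ u, ((‖P (y, u)‖ ^ 2 : ℝ) : ℂ) * rc g g (y, u) ∂ν := by
    filter_upwards [hr1, hr2, hi2, h.row] with y hy hy2 hiy hry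
    have mP : Measurable fun b => P (y, b) := h.meas.comp measurable_prodMk_left
    have mPc : Measurable fun b => conj (P (y, b)) := Complex.continuous_conj.measurable.comp mP
    have mf : Measurable fun u => P (y, u) * g u := mP.mul hg.meas
    have iff1 : Integrable (fun u => ‖P (y, u) * g u‖ ^ 2) ν := c1_sqg mP hry.1 hg
    have ipc : Integrable (fun u => ‖conj (P (y, u))‖ ^ 2) ν := by simpa using hry.1
    have k := k4_assoc (Q := P) h.l2 mf mPc iff1 ipc
    have e1 : ∫ b, (∫ w, P (y, w) * g w * P (w, b) ∂ν) * conj (P (y, b)) ∂ν =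
        ∫ w, ((‖P (y, w)‖ ^ 2 : ℝ) : ℂ) * g w ∂ν := by
      refine k.trans ?_
      refine integral_congr_ae ?_
      filter_upwards [hiy, hy] with u hu hyu
      have hu' : ∫ b, P (u, b) * P (b, y) ∂ν = P (u, y) := hu
      have e2 : ∫ b, P (u, b) * conj (P (y, b)) ∂ν = P (u, y) := by
        rw [← hu']
        refine integral_congr_ae ?_
        filter_upwards [hy] with b hb
        have hb' : P (b, y) = conj (P (y, b)) := hb
        show P (u, b) * conj (P (y, b)) = P (u, b) * P (b, y)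
        rw [hb']
      have hyu' : P (u, y) = conj (P (y, u)) := hyu
      show P (y, u) * g u * ∫ b, P (u, b) * conj (P (y, b)) ∂ν = _
      rw [e2, hyu', ← Complex.normSq_eq_norm_sq, ← Complex.mul_conj]
      ring
    calc ∫ b, g y * P (y, b) * conj (c1_s ν P g (y, b)) ∂ν
        = g y * conj (∫ b, (∫ w, P (y, w) * g w * P (w, b) ∂ν) * conj (P (y, b)) ∂ν) := by
          rw [← integral_conj, ← integral_const_mul]
          refine integral_congr_ae (Eventually.of_forall fun b => ?_)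
          show g y * P (y, b) * conj (c1_s ν P g (y, b)) = g y * conj (c1_s ν P g (y, b) * conj (P (y, b)))
          rw [map_mul, Complex.conj_conj]
          ring
      _ = g y * conj (∫ w, ((‖P (y, w)‖ ^ 2 : ℝ) : ℂ) * g w ∂ν) := by rw [e1]
      _ = ∫ u, ((‖P (y, u)‖ ^ 2 : ℝ) : ℂ) * rc g g (y, u) ∂ν := by
          rw [← integral_conj, ← integral_const_mul]
          refine integral_congr_ae (Eventually.of_forall fun u => ?_)
          show g y * conj (((‖P (y, u)‖ ^ 2 : ℝ) : ℂ) * g u) = ((‖P (y, u)‖ ^ 2 : ℝ) : ℂ) * (g y * conj (g u))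
          rw [map_mul, Complex.conj_ofReal]
          ring
  -- integrability of the middle term and of the right-hand side
  have im : Integrable (fun z : X × X => g z.1 * P z * conj (c1_s ν P g z)) (ν.prod ν) := by
    have h1 : Integrable (fun z => P z * conj (c1_s ν P g z)) (ν.prod ν) := h.l2.integrable_mul ls.star
    refine (h1.bdd_mul (c := C) (hg.meas.comp measurable_fst).aestronglyMeasurable
      (Eventually.of_forall fun z => hC _)).congr (Eventually.of_forall fun z => ?_)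
    show g z.1 * (P z * conj (c1_s ν P g z)) = g z.1 * P z * conj (c1_s ν P g z)
    ring
  have iP : Integrable (fun z => ‖P z‖ ^ 2) (ν.prod ν) :=
    (memLp_two_iff_integrable_sq_norm h.meas.aestronglyMeasurable).1 h.l2
  have mrc : Measurable (rc g g) :=
    (hg.meas.comp measurable_fst).mul (Complex.continuous_conj.measurable.comp (hg.meas.comp measurable_snd))
  have brc : ∀ z, ‖rc g g z‖ ≤ C * C := fun z => by
    show ‖g z.1 * conj (g z.2)‖ ≤ _
    rw [norm_mul, RCLike.norm_conj]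
    exact mul_le_mul (hC _) (hC _) (norm_nonneg _) ((norm_nonneg _).trans (hC z.1))
  have iR : Integrable (fun z => ((‖P z‖ ^ 2 : ℝ) : ℂ) * rc g g z) (ν.prod ν) := by
    refine (iP.ofReal.mul_bdd (c := C * C) mrc.aestronglyMeasurable (Eventually.of_forall brc))
  have main : ∫ z, ((‖c1_s ν P g z‖ ^ 2 : ℝ) : ℂ) ∂ν.prod ν = ∫ z, ((‖P z‖ ^ 2 : ℝ) : ℂ) * rc g g z ∂ν.prod ν := by
    calc ∫ z, ((‖c1_s ν P g z‖ ^ 2 : ℝ) : ℂ) ∂ν.prod ν
        = ∫ b, ∫ a, ((‖c1_s ν P g (a, b)‖ ^ 2 : ℝ) : ℂ) ∂ν ∂ν := integral_prod_symm _ is1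
      _ = ∫ b, ∫ y, g y * P (y, b) * conj (c1_s ν P g (y, b)) ∂ν ∂ν := integral_congr_ae step1
      _ = ∫ z, g z.1 * P z * conj (c1_s ν P g z) ∂ν.prod ν := (integral_prod_symm _ im).symm
      _ = ∫ y, ∫ b, g y * P (y, b) * conj (c1_s ν P g (y, b)) ∂ν ∂ν := integral_prod _ im
      _ = ∫ y, ∫ u, ((‖P (y, u)‖ ^ 2 : ℝ) : ℂ) * rc g g (y, u) ∂ν ∂ν := integral_congr_ae step2
      _ = _ := (integral_prod _ iR).symm
  have hreal : conj (∫ z, ((‖c1_s ν P g z‖ ^ 2 : ℝ) : ℂ) ∂ν.prod ν) =
      ∫ z, ((‖c1_s ν P g z‖ ^ 2 : ℝ) : ℂ) ∂ν.prod ν := by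
    rw [integral_complex_ofReal, Complex.conj_ofReal]
  rw [← hreal, main, ← integral_conj]
  refine integral_congr_ae (Eventually.of_forall fun z => ?_)
  show conj (((‖P z‖ ^ 2 : ℝ) : ℂ) * rc g g z) = _
  rw [map_mul, Complex.conj_ofReal]

end One

variable {X : Type} [MeasurableSpace X] {μ : Measure X} [IsProbabilityMeasure μ] {S : X → X} {D : SA X}
  {κ : Kernel X X} [IsMarkovKernel κ]

omit [IsProbabilityMeasure μ] [IsMarkovKernel κ] in
theorem c1_uni1 (_c : Ctx μ S D κ) : Uni D (fun _ : X => (1 : ℂ)) :=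
  ⟨@measurable_const _ _ _ D.m _, fun _ => norm_one⟩

/-- a projection of `Bv c` is a projection kernel on almost every fibre -/
theorem proj_fib (c : Ctx μ S D κ) {P : Bv c} (hP : (hst c).Proj P) :
    ∀ᵐ x ∂μ, PK (κ x) (‖P‖ ^ 2) (fn P) := by
  have hk := fn_ker P
  have hu := c1_uni1 c
  have h1 : st (fn P) =ᵐ[μ ⊗ₘ κ] fn P := by
    have := fn_star P
    rw [hP.star] at this
    exact this.symm
  have h2 : comp κ (fn P) (fn P) =ᵐ[μ ⊗ₘ κ] fn P := by
    have := fn_mul P P
    rw [hP.idem] at this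
    exact this.symm
  rw [norm_fn]
  filter_upwards [hk.l2f c hu, c.fib.ae2 h1, c.fib.ae2 h2, comp_fib c (fn P) (fn P), hk.rowf c hu]
    with x a1 a2 a3 a4 a5
  refine ⟨hk.meas, a1.1, ?_, ?_, a5⟩
  · filter_upwards [a2] with z hz
    have hz' : conj (fn P (z.2, z.1)) = fn P z := hz
    rw [← hz', Complex.conj_conj]
  · filter_upwards [a3, a4] with z h3 h4
    rw [← h4]
    exact h3

/-- the kernel `P g P` -/
noncomputable def sand (κ : Kernel X X) (P : X × X → ℂ) (g : X → ℂ) (z : X × X) : ℂ :=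
  ∫ y, P (z.1, y) * g y * P (y, z.2) ∂κ z.1

theorem c1_msand {P : X × X → ℂ} (mP : Measurable P) {g : X → ℂ} (mg : Measurable g) :
    Measurable (sand κ P g) := by
  have h1 : Measurable fun w : (X × X) × X => P (w.1.1, w.2) * g w.2 * P (w.2, w.1.2) :=
    ((mP.comp ((measurable_fst.comp measurable_fst).prodMk measurable_snd)).mul
      (mg.comp measurable_snd)).mul
      (mP.comp (measurable_snd.prodMk (measurable_snd.comp measurable_fst)))
  have h2 := h1.stronglyMeasurable.integral_kernel_prod_right' (κ := κ.comap Prod.fst measurable_fst)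
  exact h2.measurable

omit [IsProbabilityMeasure μ] [IsMarkovKernel κ] in
theorem c1_sandf (c : Ctx μ S D κ) (P : X × X → ℂ) (g : X → ℂ) :
    ∀ᵐ x ∂μ, ∀ᵐ z ∂(κ x).prod (κ x), sand κ P g z = c1_s (κ x) P g z := by
  filter_upwards [c.fib.fib] with x hx
  filter_upwards [Measure.quasiMeasurePreserving_fst.ae hx] with z hz
  unfold sand c1_s
  rw [hz]

/-- **C1.** `‖P g P‖² = ∫ |P|² conj g(x) g(y)` for a projection `P` -/
theorem sand_sq (c : Ctx μ S D κ) {P : Bv c} (hP : (hst c).Proj P) {g : X → ℂ} (hg : Bd g) :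
    ((ksq μ κ (sand κ (fn P) g) : ℝ) : ℂ) =
      ∫ z, ((‖fn P z‖ ^ 2 : ℝ) : ℂ) * conj (rc g g z) ∂(μ ⊗ₘ κ) := by
  have hk := fn_ker P
  obtain ⟨C, hC⟩ := hg.bdd
  have ms := c1_msand (κ := κ) hk.meas hg.meas
  have bs : ∀ᵐ z ∂(μ ⊗ₘ κ), ‖sand κ (fn P) g z‖ ≤ C * ‖P‖ ^ 2 := by
    refine c.fib.ae2' (measurableSet_le ms.norm measurable_const) ?_
    filter_upwards [c1_sandf c (fn P) g, proj_fib c hP] with x h1 h2
    filter_upwards [h1, c1_bound h2 hg hC] with z e1 e2
    rw [e1]; exact e2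
  have i1 : Integrable (fun z => ((‖sand κ (fn P) g z‖ ^ 2 : ℝ) : ℂ)) (μ ⊗ₘ κ) := by
    refine Integrable.of_bound (Complex.measurable_ofReal.comp (ms.norm.pow_const 2)).aestronglyMeasurable
      ((C * ‖P‖ ^ 2) ^ 2) ?_
    filter_upwards [bs] with z hz
    rw [Complex.norm_real, Real.norm_of_nonneg (by positivity)]
    exact pow_le_pow_left₀ (norm_nonneg _) hz 2
  have iP : Integrable (fun z => ‖fn P z‖ ^ 2) (μ ⊗ₘ κ) :=
    (memLp_two_iff_integrable_sq_norm hk.meas.aestronglyMeasurable).1 hk.l2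
  have mrc : Measurable fun z => conj (rc g g z) := Complex.continuous_conj.measurable.comp
    ((hg.meas.comp measurable_fst).mul (Complex.continuous_conj.measurable.comp (hg.meas.comp measurable_snd)))
  have brc : ∀ z, ‖conj (rc g g z)‖ ≤ C * C := fun z => by
    rw [RCLike.norm_conj]
    show ‖g z.1 * conj (g z.2)‖ ≤ _
    rw [norm_mul, RCLike.norm_conj]
    exact mul_le_mul (hC _) (hC _) (norm_nonneg _) ((norm_nonneg _).trans (hC z.1))
  have i2 : Integrable (fun z => ((‖fn P z‖ ^ 2 : ℝ) : ℂ) * conj (rc g g z)) (μ ⊗ₘ κ) :=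
    iP.ofReal.mul_bdd (c := C * C) mrc.aestronglyMeasurable (Eventually.of_forall brc)
  unfold ksq
  rw [← integral_complex_ofReal, c.fib.int i1, c.fib.int i2]
  refine integral_congr_ae ?_
  filter_upwards [c1_sandf c (fn P) g, proj_fib c hP] with x h1 h2
  rw [← c1_one h2 hg]
  refine integral_congr_ae ?_
  filter_upwards [h1] with z hz
  rw [hz]

theorem sand_ker (c : Ctx μ S D κ) {P : Bv c} {v : X → ℂ} (hv : Cls S D v) :
    Ker μ S κ (fun x => v (S x) * conj (v x)) (sand κ (fn P) v) := by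
  have hk := fn_ker P
  have hu := c1_uni1 c
  have hS := k3_pres c
  have hr : Uni D fun x => v (S x) * conj (v x) :=
    ⟨hv.ratio, fun x => by rw [norm_mul, RCLike.norm_conj, hv.norm, hv.norm, one_mul]⟩
  have hR : Ker μ S κ (fun x => v (S x) * conj (v x)) (fun z => fn P z * v z.2) := by
    refine ⟨hk.meas.mul (hv.meas.comp measurable_snd), ?_, ?_⟩
    · refine hk.l2.mono (hk.meas.mul (hv.meas.comp measurable_snd)).aestronglyMeasurable
        (Eventually.of_forall fun z => ?_)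
      rw [norm_mul, hv.norm, mul_one]
    · filter_upwards [hk.tw, c.fib.const (k3_um c hr) hr.meas] with z hz hc
      have hz' : fn P (S z.1, S z.2) = 1 * fn P z := hz
      have hc' : v (S z.1) * conj (v z.1) = v (S z.2) * conj (v z.2) := hc
      have hvv : conj (v z.2) * v z.2 = 1 := by
        rw [mul_comm, Complex.mul_conj, Complex.normSq_eq_norm_sq, hv.norm]; simp
      show fn P (S z.1, S z.2) * v (S z.2) = v (S z.1) * conj (v z.1) * (fn P z * v z.2)
      rw [hc', hz', one_mul]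
      linear_combination (-(fn P z) * v (S z.2)) * hvv
  have h3 := hR.compk c hr hu hk
  have e : comp κ (fun z => fn P z * v z.2) (fn P) = sand κ (fn P) v := rfl
  rw [e] at h3
  have e2 : (fun x => v (S x) * conj (v x) * 1) = fun x => v (S x) * conj (v x) := by
    funext x; rw [mul_one]
  rw [e2] at h3
  exact h3

end Pool.Agent.Lib.MP_9fe581_an.AP
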