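import Pool.Agent.Lib.MP_9fe581_an.AP.C1

/-! # AP, C2: the algebra of the twist -/

set_option autoImplicit false

open Finset MeasureTheory Filter Topology ProbabilityTheory
open scoped ComplexConjugate ENNReal InnerProductSpace

namespace Pool.Agent.Lib.MP_9fe581_an.AP

variable {X : Type} [MeasurableSpace X] {μ : Measure X} [IsProbabilityMeasure μ] {S : X → X} {D : SA X}
  {κ : Kernel X X} [IsMarkovKernel κ]

private theorem c2_one : Uni D fun _ : X => (1 : ℂ) := ⟨measurable_const, fun _ => by simp⟩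

private theorem c2_conj {a : X → ℂ} (ha : Uni D a) : Uni D fun x => conj (a x) :=
  ⟨Complex.continuous_conj.measurable.comp ha.meas, fun x => by rw [RCLike.norm_conj]; exact ha.norm x⟩

private theorem c2_pow {a : X → ℂ} (ha : Uni D a) (j : ℕ) : Uni D fun x => a x ^ j :=
  ⟨ha.meas.pow_const j, fun x => by rw [norm_pow, ha.norm x, one_pow]⟩

private theorem c2_ksq {P : X × X → ℂ} : ((ksq μ κ P : ℝ) : ℂ) = ∫ z, P z * conj (P z) ∂(μ ⊗ₘ κ) := by
  unfold ksq
  rw [← integral_complex_ofReal]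
  refine integral_congr_ae (Eventually.of_forall fun z => ?_)
  show ((‖P z‖ ^ 2 : ℝ) : ℂ) = P z * conj (P z)
  rw [Complex.mul_conj, Complex.normSq_eq_norm_sq]

/-- `M* M = l P` -/
private theorem c2_mm (c : Ctx μ S D κ) {e : X → ℂ} {Y : SA X} (hY : Em μ S D Y e) {P : Bv c}
    (hP : (hst c).Min (Ak c e Y) P) {a : X → ℂ} (ha : Uni D a) {M : X × X → ℂ} (hM : Ker μ S κ a M)
    (h2 : comp κ M (fn P) =ᵐ[μ ⊗ₘ κ] M) (h0 : ¬ M =ᵐ[μ ⊗ₘ κ] 0) :
    ∃ l : ℝ, 0 < l ∧ comp κ (st M) M =ᵐ[μ ⊗ₘ κ] fun z => (l : ℂ) * fn P z := by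
  have kP := fn_ker P
  have hmY : Pm μ κ e Y (fn P) := mem_Ak.1 hP.mem
  have hMs := hM.stk c ha
  have hac := c2_conj ha
  have kQ0 := hMs.compk c hac ha hM
  have e1 : (fun x => conj (a x) * a x) = fun _ => (1 : ℂ) := by
    funext x
    rw [← Complex.normSq_eq_conj_mul_self, Complex.normSq_eq_norm_sq, ha.norm x]
    simp
  rw [e1] at kQ0
  obtain ⟨Q, hQ⟩ := exists_fn c kQ0
  have kQ := fn_ker Q
  have mP := kP.meas
  have msP : st (fn P) =ᵐ[μ ⊗ₘ κ] fn P := by
    have h3 := fn_star P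
    rw [hP.star] at h3
    exact h3.symm
  -- `P M* = M*`
  have hPs : comp κ (fn P) (st M) =ᵐ[μ ⊗ₘ κ] st M := by
    have h3 := st_comp c hM.meas mP
    have h4 : st (comp κ M (fn P)) =ᵐ[μ ⊗ₘ κ] st M := by
      have h5 := c.fib.swap.quasiMeasurePreserving.ae h2
      filter_upwards [h5] with z hz
      show conj (comp κ M (fn P) (z.2, z.1)) = conj (M (z.2, z.1))
      have hz' : comp κ M (fn P) (z.2, z.1) = M (z.2, z.1) := hz
      rw [hz']
    have h5 := comp_congr c (k4_mst mP) mP (k4_mst hM.meas) (k4_mst hM.meas) msP (ae_eq_refl (st M))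
    exact h5.symm.trans (h3.symm.trans h4)
  -- `P Q P = Q`
  have h3 : comp κ (comp κ (fn P) (fn Q)) (fn P) =ᵐ[μ ⊗ₘ κ] fn Q := by
    have a1 : comp κ (fn P) (fn Q) =ᵐ[μ ⊗ₘ κ] fn Q := by
      have b1 := comp_congr c mP mP kQ.meas kQ0.meas (ae_eq_refl _) hQ
      have b2 := comp_assoc c c2_one hac ha kP hMs hM
      have b3 := comp_congr c (measurable_comp mP hMs.meas) hMs.meas hM.meas hM.meas hPs (ae_eq_refl M)
      exact b1.trans (b2.symm.trans (b3.trans hQ.symm))
    have a2 : comp κ (fn Q) (fn P) =ᵐ[μ ⊗ₘ κ] fn Q := by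
      have b1 := comp_congr c kQ.meas kQ0.meas mP mP hQ (ae_eq_refl (fn P))
      have b2 := comp_assoc c hac ha c2_one hMs hM kP
      have b3 := comp_congr c hMs.meas hMs.meas (measurable_comp hM.meas mP) hM.meas (ae_eq_refl (st M)) h2
      exact b1.trans (b2.trans (b3.trans hQ.symm))
    have a3 := comp_congr c (measurable_comp mP kQ.meas) kQ.meas mP mP a1 (ae_eq_refl (fn P))
    exact a3.trans a2
  have h4 : Q ∈ Ak c e Y := by
    have h5 := Pm_comp3 c hY c2_one c2_one c2_one kP kQ kP hmY hmY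
    refine mem_Ak.2 ?_
    have h6 := c.fib
    exact AEStronglyMeasurable.congr h5 (by
      filter_upwards [h3] with z hz
      rw [hz])
  obtain ⟨t, ht⟩ := hP.min Q h4
  have h5 : fn Q =ᵐ[μ ⊗ₘ κ] fun z => t * fn P z := by
    have b1 := fn_mul ((hst c).mul P Q) P
    have b2 := comp_congr c (fn_ker _).meas (measurable_comp mP kQ.meas) mP mP (fn_mul P Q) (ae_eq_refl (fn P))
    rw [ht] at b1
    exact h3.symm.trans (b2.symm.trans (b1.symm.trans (fn_smul t P)))
  have kPpos : 0 < ksq μ κ (fn P) := by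
    rw [← norm_fn]
    have : ‖P‖ ≠ 0 := norm_ne_zero_iff.2 hP.ne
    positivity
  have kMpos : 0 < ksq μ κ M := by
    have b0 : 0 ≤ ksq μ κ M := integral_nonneg fun z => by positivity
    rcases b0.lt_or_eq with b1 | b1
    · exact b1
    · exfalso
      refine h0 ?_
      have b2 : Integrable (fun z => ‖M z‖ ^ 2) (μ ⊗ₘ κ) :=
        (memLp_two_iff_integrable_sq_norm hM.meas.aestronglyMeasurable).1 hM.l2
      have b3 := (integral_eq_zero_iff_of_nonneg (fun z => by positivity) b2).1 b1.symm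
      filter_upwards [b3] with z hz
      have hz' : ‖M z‖ ^ 2 = 0 := hz
      have : ‖M z‖ = 0 := by simpa using hz'
      simpa using this
  -- the trace
  have h6 : (t : ℂ) * (ksq μ κ (fn P) : ℂ) = (ksq μ κ M : ℂ) := by
    have b1 := inner_comp c hac ha c2_one hMs hM kP
    have b2 : st (st M) = M := by
      funext z
      show conj (conj (M (z.1, z.2))) = M z
      simp
    rw [b2] at b1
    have b3 : ∫ z, M z * conj (comp κ M (fn P) z) ∂(μ ⊗ₘ κ) = (ksq μ κ M : ℂ) := by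
      rw [c2_ksq]
      refine integral_congr_ae ?_
      filter_upwards [h2] with z hz
      rw [hz]
    have b4 : ∫ z, comp κ (st M) M z * conj (fn P z) ∂(μ ⊗ₘ κ) = t * (ksq μ κ (fn P) : ℂ) := by
      rw [c2_ksq, ← integral_const_mul]
      refine integral_congr_ae ?_
      filter_upwards [hQ, h5] with z hz hz'
      rw [← hz, hz', mul_assoc]
    rw [← b4, b1, b3]
  refine ⟨ksq μ κ M / ksq μ κ (fn P), by positivity, ?_⟩
  have h7 : t = ((ksq μ κ M / ksq μ κ (fn P) : ℝ) : ℂ) := by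
    push_cast
    rw [eq_div_iff (by exact_mod_cast kPpos.ne')]
    exact h6
  rw [← h7]
  exact hQ.symm.trans h5

/-- **C2, algebra of the twist.** `P` minimal in a hereditary subalgebra, `M ≠ 0` a kernel twisted by `a` with `P M P = M`:
`M M* = M* M = l P`, `l > 0`, so for `U = M / √l` the powers `U^j` (`j ≥ 0`, `U^0 = P`) are twisted by `a^j`, satisfy
`P U^j = U^j = U^j P` and have norm² `‖P‖²` -/
theorem twist_pow (c : Ctx μ S D κ) {e : X → ℂ} {Y : SA X} (hY : Em μ S D Y e) {P : Bv c}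
    (hP : (hst c).Min (Ak c e Y) P) {a : X → ℂ} (ha : Uni D a) {M : X × X → ℂ} (hM : Ker μ S κ a M)
    (h1 : comp κ (fn P) M =ᵐ[μ ⊗ₘ κ] M) (h2 : comp κ M (fn P) =ᵐ[μ ⊗ₘ κ] M) (h0 : ¬ M =ᵐ[μ ⊗ₘ κ] 0) :
    ∃ U : ℕ → X × X → ℂ, ∀ j, Ker μ S κ (fun x => a x ^ j) (U j) ∧ comp κ (fn P) (U j) =ᵐ[μ ⊗ₘ κ] U j ∧
      comp κ (U j) (fn P) =ᵐ[μ ⊗ₘ κ] U j ∧ ksq μ κ (U j) = ‖P‖ ^ 2 := by
  obtain ⟨l, hl, hmm⟩ := c2_mm c hY hP ha hM h2 h0
  have kP := fn_ker P
  have mP := kP.meas
  obtain ⟨t, ht, htl⟩ : ∃ t : ℝ, 0 < t ∧ t ^ 2 * l = 1 := by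
    refine ⟨1 / Real.sqrt l, by positivity, ?_⟩
    rw [div_pow, one_pow, Real.sq_sqrt hl.le]
    field_simp
  -- `V = t M`
  obtain ⟨V, hV⟩ : ∃ V : X × X → ℂ, V = fun z => (t : ℂ) * M z := ⟨_, rfl⟩
  have kV : Ker μ S κ a V := by
    rw [hV]
    refine ⟨measurable_const.mul hM.meas, hM.l2.const_mul _, ?_⟩
    filter_upwards [hM.tw] with z hz
    rw [hz]
    ring
  have hV1 : comp κ (fn P) V =ᵐ[μ ⊗ₘ κ] V := by
    filter_upwards [h1] with z hz
    rw [hV, comp_smul_right, hz]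
  have hV2 : comp κ V (fn P) =ᵐ[μ ⊗ₘ κ] V := by
    filter_upwards [h2] with z hz
    rw [hV, comp_smul_left, hz]
  have hVV : comp κ (st V) V =ᵐ[μ ⊗ₘ κ] fn P := by
    have e1 : st V = fun z => (t : ℂ) * st M z := by
      rw [hV]
      funext z
      show conj ((t : ℂ) * M (z.2, z.1)) = t * conj (M (z.2, z.1))
      rw [map_mul, Complex.conj_ofReal]
    filter_upwards [hmm] with z hz
    rw [e1, comp_smul_left, hV, comp_smul_right, hz]
    have : (t : ℂ) ^ 2 * (l : ℂ) = 1 := by exact_mod_cast htl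
    linear_combination (fn P z) * this
  have hac := c2_conj ha
  have kVs := kV.stk c ha
  obtain ⟨U, hU0, hU⟩ : ∃ U : ℕ → X × X → ℂ, U 0 = fn P ∧ ∀ j, U (j + 1) = comp κ V (U j) :=
    ⟨fun j => Nat.rec (fn P) (fun _ W => comp κ V W) j, rfl, fun _ => rfl⟩
  refine ⟨U, fun j => ?_⟩
  induction j with
  | zero =>
    rw [hU0]
    have hid : comp κ (fn P) (fn P) =ᵐ[μ ⊗ₘ κ] fn P := by
      have h3 := fn_mul P P
      rw [hP.idem] at h3
      exact h3.symm
    refine ⟨?_, hid, hid, (norm_fn P).symm⟩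
    simp only [pow_zero]
    exact kP
  | succ j ih =>
    obtain ⟨i1, i2, i3, i4⟩ := ih
    have haj := c2_pow ha j
    rw [hU]
    have kU := kV.compk c ha haj i1
    refine ⟨?_, ?_, ?_, ?_⟩
    · have e1 : (fun x => a x ^ (j + 1)) = fun x => a x * a x ^ j := by
        funext x
        rw [pow_succ']
      rw [e1]
      exact kU
    · have b1 := comp_assoc c c2_one ha haj kP kV i1
      have b2 := comp_congr c (measurable_comp mP kV.meas) kV.meas i1.meas i1.meas hV1 (ae_eq_refl (U j))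
      exact b1.symm.trans b2
    · have b1 := comp_assoc c ha haj c2_one kV i1 kP
      have b2 := comp_congr c kV.meas kV.meas (measurable_comp i1.meas mP) i1.meas (ae_eq_refl V) i3
      exact b1.trans b2
    · have b1 := inner_comp c ha haj (c2_pow ha (j + 1)) kV i1 (R := comp κ V (U j)) (by
        have e1 : (fun x => a x ^ (j + 1)) = fun x => a x * a x ^ j := by
          funext x
          rw [pow_succ']
        rw [e1]
        exact kU)
      have b2 : comp κ (st V) (comp κ V (U j)) =ᵐ[μ ⊗ₘ κ] U j := by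
        have d1 := comp_assoc c hac ha haj kVs kV i1
        have d2 := comp_congr c (measurable_comp kVs.meas kV.meas) mP i1.meas i1.meas hVV (ae_eq_refl (U j))
        exact d1.symm.trans (d2.trans i2)
      have b3 : ∫ z, U j z * conj (comp κ (st V) (comp κ V (U j)) z) ∂(μ ⊗ₘ κ) =
          ∫ z, U j z * conj (U j z) ∂(μ ⊗ₘ κ) := by
        refine integral_congr_ae ?_
        filter_upwards [b2] with z hz
        rw [hz]
      rw [b3, ← c2_ksq, ← c2_ksq] at b1
      rw [← i4]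
      exact_mod_cast b1

end Pool.Agent.Lib.MP_9fe581_an.AP
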