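import Pool.Agent.Lib.MP_9fe581_an.AP.F0
import Pool.Agent.Lib.MP_9fe581_an.AP.F0p

/-! # AP, kernels over one probability space -/

set_option autoImplicit false

open Finset MeasureTheory Filter Topology
open scoped ComplexConjugate

namespace Pool.Agent.Lib.MP_9fe581_an.AP

variable {X : Type} [MeasurableSpace X]

variable {ν : Measure X} [IsProbabilityMeasure ν]

/-- a matrix with `M Mᴴ = l` has at least as many columns as rows -/
private theorem f2_mat {s n : ℕ} {κ : Type} [Fintype κ] (hκ : Fintype.card κ = n) {l : ℂ} (hl : l ≠ 0)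
    (M : Matrix (Fin s) κ ℂ) (h : ∀ a b, ∑ q, M a q * conj (M b q) = if a = b then l else 0) : s ≤ n := by
  classical
  have h1 : M * M.conjTranspose = l • (1 : Matrix (Fin s) (Fin s) ℂ) := by
    ext a b
    rw [Matrix.mul_apply, Matrix.smul_apply, Matrix.one_apply, smul_eq_mul]
    have := h a b
    simp only [Matrix.conjTranspose_apply]
    refine Eq.trans ?_ (this.trans ?_)
    · rfl
    · split_ifs <;> simp
  have hu : IsUnit (M * M.conjTranspose) := by
    rw [h1]
    exact (isUnit_one).smul (Units.mk0 l hl)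
  have h2 := Matrix.rank_of_isUnit _ hu
  have h3 := Matrix.rank_mul_le_left M M.conjTranspose
  have h4 := Matrix.rank_le_card_width M
  rw [Fintype.card_fin] at h2
  omega

/-- **F2, embedding.** `e` a projection kernel with `e |P|² e = l e`, `l ≠ 0`: `‖e‖² ≤ t²`.
Proof: `|P|²(x, x') = ∫∫ Ψ(x; z, z') conj Ψ(x'; z, z')`, `Ψ(x; z, z') = P(x, z) conj P(x, z')`. For a.e. `(z, z')` put
`h(u) = P(z, u) P(u, z')`; `h = ∫∫ conj Ψ(u; w, w') r(w, w')`, `r(w, w') = P(z, w) P(w', z')`, `‖r‖² = t²`; so `‖e conj h‖² ≤ l t²`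
(`a = e Ψ r`: `‖a‖² ≤ ‖r‖ ‖Ψ* a‖`, `‖Ψ* a‖² = ⟨|P|² a, a⟩ = l ‖a‖²`), and `∫∫ ‖e conj h‖² dz dz' = ⟨|P|², e⟩ = l ‖e‖²`. -/
theorem PK.embed {t s l : ℝ} (ht : 0 < t) {P e : X × X → ℂ} (hP : PK ν t P) (he : PK ν s e) (hl : l ≠ 0)
    (h : ∀ᵐ z ∂ν.prod ν, ∫ y, (∫ u, e (z.1, u) * ((‖P (u, y)‖ ^ 2 : ℝ) : ℂ) ∂ν) * e (y, z.2) ∂ν = l * e z) :
    s ≤ t ^ 2 := by
  classical
  obtain ⟨r, φ, htr, hm, hL, ho, hsq, hPφ⟩ := hP.spec
  obtain ⟨m, ε, hsm, hm', hL', ho', -, heε⟩ := he.spec
  obtain ⟨hψL, hψ⟩ := spec_sq hm hsq hPφ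
  set ψ : Fin r × Fin r → X → ℂ := fun q x => φ q.1 x * conj (φ q.2 x) with hψd
  have hψL' : ∀ q, MemLp (ψ q) 2 ν := hψL
  let M : Matrix (Fin m) (Fin r × Fin r) ℂ := fun a q => ∫ u, ψ q u * conj (ε a u) ∂ν
  have hM : ∀ a q, M a q = ∫ u, ψ q u * conj (ε a u) ∂ν := fun _ _ => rfl
  have hI : ∀ a q, Integrable (fun u => ψ q u * conj (ε a u)) ν := fun a q =>
    fs_mul_int (hL' a) (hψL' q)
  have hMc : ∀ a q, ∫ u, ε a u * conj (ψ q u) ∂ν = conj (M a q) := by
    intro a q
    rw [hM, ← integral_conj]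
    refine integral_congr_ae (ae_of_all _ fun u => ?_)
    simp only [map_mul, Complex.conj_conj]
    ring
  have hIc : ∀ a q, Integrable (fun u => ε a u * conj (ψ q u)) ν := fun a q =>
    fs_mul_int (hψL' q) (hL' a)
  -- the inner integral
  have e1 : ∀ᵐ x ∂ν, ∀ᵐ y ∂ν, ∫ u, e (x, u) * ((‖P (u, y)‖ ^ 2 : ℝ) : ℂ) ∂ν =
      ∑ a, ∑ q, ε a x * M a q * conj (ψ q y) := by
    have hψs : ∀ᵐ y ∂ν, ∀ᵐ u ∂ν, ((‖P (u, y)‖ ^ 2 : ℝ) : ℂ) = ∑ q, ψ q u * conj (ψ q y) :=
      Measure.ae_ae_of_ae_prod (fs_swap hψ)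
    filter_upwards [Measure.ae_ae_of_ae_prod heε] with x hx
    filter_upwards [hψs] with y hy
    have e2 : ∫ u, e (x, u) * ((‖P (u, y)‖ ^ 2 : ℝ) : ℂ) ∂ν =
        ∫ u, ∑ a, ∑ q, (ε a x * conj (ψ q y)) * (ψ q u * conj (ε a u)) ∂ν := by
      refine integral_congr_ae ?_
      filter_upwards [hx, hy] with u h1 h2
      rw [h1, h2, Finset.sum_mul]
      refine Finset.sum_congr rfl fun a _ => ?_
      rw [Finset.mul_sum]
      refine Finset.sum_congr rfl fun q _ => ?_
      show ε a x * conj (ε a u) * (ψ q u * conj (ψ q y)) = _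
      ring
    rw [e2, integral_finsetSum _ fun a _ => integrable_finsetSum _ fun q _ => (hI a q).const_mul _]
    refine Finset.sum_congr rfl fun a _ => ?_
    rw [integral_finsetSum _ fun q _ => (hI a q).const_mul _]
    refine Finset.sum_congr rfl fun q _ => ?_
    rw [integral_const_mul, ← hM]
    ring
  let N : Fin m → Fin m → ℂ := fun a b => ∑ q, M a q * conj (M b q)
  -- the outer integral
  have e3 : ∀ᵐ z ∂ν.prod ν, ∑ a, ∑ b, N a b * (ε a z.1 * conj (ε b z.2)) =
      ∑ a, (l : ℂ) * (ε a z.1 * conj (ε a z.2)) := by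
    have a1 := Measure.quasiMeasurePreserving_fst (μ := ν) (ν := ν) |>.ae e1
    have a2 : ∀ᵐ z ∂ν.prod ν, ∀ᵐ y ∂ν, e (y, z.2) = ∑ b, ε b y * conj (ε b z.2) :=
      Measure.quasiMeasurePreserving_snd (μ := ν) (ν := ν) |>.ae
        (Measure.ae_ae_of_ae_prod (fs_swap heε))
    filter_upwards [h, heε, a1, a2] with z h1 h2 h3 h4
    have e4 : ∫ y, (∫ u, e (z.1, u) * ((‖P (u, y)‖ ^ 2 : ℝ) : ℂ) ∂ν) * e (y, z.2) ∂ν =
        ∫ y, ∑ a, ∑ q, ∑ b, (ε a z.1 * M a q * conj (ε b z.2)) * (ε b y * conj (ψ q y)) ∂ν := by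
      refine integral_congr_ae ?_
      filter_upwards [h3, h4] with y k1 k2
      rw [k1, k2, Finset.sum_mul]
      refine Finset.sum_congr rfl fun a _ => ?_
      rw [Finset.sum_mul]
      refine Finset.sum_congr rfl fun q _ => ?_
      rw [Finset.mul_sum]
      refine Finset.sum_congr rfl fun b _ => ?_
      ring
    rw [e4, h2, integral_finsetSum _ fun a _ => integrable_finsetSum _ fun q _ =>
      integrable_finsetSum _ fun b _ => (hIc b q).const_mul _] at h1
    have e5 : ∀ a ∈ (Finset.univ : Finset (Fin m)), ∫ y, ∑ q, ∑ b,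
        (ε a z.1 * M a q * conj (ε b z.2)) * (ε b y * conj (ψ q y)) ∂ν =
        ∑ b, N a b * (ε a z.1 * conj (ε b z.2)) := by
      intro a _
      rw [integral_finsetSum _ fun q _ => integrable_finsetSum _ fun b _ => (hIc b q).const_mul _]
      have e6 : ∀ q ∈ (Finset.univ : Finset (Fin r × Fin r)), ∫ y, ∑ b,
          (ε a z.1 * M a q * conj (ε b z.2)) * (ε b y * conj (ψ q y)) ∂ν =
          ∑ b, (M a q * conj (M b q)) * (ε a z.1 * conj (ε b z.2)) := by
        intro q _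
        rw [integral_finsetSum _ fun b _ => (hIc b q).const_mul _]
        refine Finset.sum_congr rfl fun b _ => ?_
        rw [integral_const_mul, hMc]
        ring
      rw [Finset.sum_congr rfl e6, Finset.sum_comm]
      refine Finset.sum_congr rfl fun b _ => ?_
      rw [← Finset.sum_mul]
    rw [Finset.sum_congr rfl e5] at h1
    rw [h1, Finset.mul_sum]
  -- the coefficients
  have hεI : ∀ a b, Integrable (fun x => ε a x * conj (ε b x)) ν := fun a b => fs_mul_int (hL' b) (hL' a)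
  have hεI' : ∀ a b, Integrable (fun x => conj (ε a x) * ε b x) ν := fun a b => by
    refine (hεI b a).congr (ae_of_all _ fun x => ?_)
    ring
  have hco : ∀ a b a0 b0, ∫ z, (ε a z.1 * conj (ε b z.2)) * (conj (ε a0 z.1) * ε b0 z.2) ∂ν.prod ν =
      (if a = a0 then 1 else 0) * (if b0 = b then 1 else 0) := by
    intro a b a0 b0
    have e7 : ∀ z : X × X, (ε a z.1 * conj (ε b z.2)) * (conj (ε a0 z.1) * ε b0 z.2) =
        (ε a z.1 * conj (ε a0 z.1)) * (ε b0 z.2 * conj (ε b z.2)) := fun z => by ring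
    simp only [e7]
    rw [integral_prod_mul (fun x => ε a x * conj (ε a0 x)) (fun x => ε b0 x * conj (ε b x)), ho', ho']
  have hcoI : ∀ a b a0 b0, Integrable (fun z : X × X => (ε a z.1 * conj (ε b z.2)) *
      (conj (ε a0 z.1) * ε b0 z.2)) (ν.prod ν) := by
    intro a b a0 b0
    have := (hεI a a0).mul_prod (hεI b0 b)
    refine this.congr (ae_of_all _ fun z => ?_)
    ring
  have hN : ∀ a0 b0, N a0 b0 = if a0 = b0 then (l : ℂ) else 0 := by
    intro a0 b0
    have e8 : ∫ z, (∑ a, ∑ b, N a b * (ε a z.1 * conj (ε b z.2))) * (conj (ε a0 z.1) * ε b0 z.2) ∂ν.prod ν =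
        ∫ z, (∑ a, (l : ℂ) * (ε a z.1 * conj (ε a z.2))) * (conj (ε a0 z.1) * ε b0 z.2) ∂ν.prod ν := by
      refine integral_congr_ae ?_
      filter_upwards [e3] with z hz
      rw [hz]
    have e9 : ∫ z, (∑ a, ∑ b, N a b * (ε a z.1 * conj (ε b z.2))) * (conj (ε a0 z.1) * ε b0 z.2) ∂ν.prod ν =
        N a0 b0 := by
      have e10 : ∀ z : X × X, (∑ a, ∑ b, N a b * (ε a z.1 * conj (ε b z.2))) * (conj (ε a0 z.1) * ε b0 z.2) =
          ∑ a, ∑ b, N a b * ((ε a z.1 * conj (ε b z.2)) * (conj (ε a0 z.1) * ε b0 z.2)) := by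
        intro z
        rw [Finset.sum_mul]
        refine Finset.sum_congr rfl fun a _ => ?_
        rw [Finset.sum_mul]
        exact Finset.sum_congr rfl fun b _ => by ring
      simp only [e10]
      rw [integral_finsetSum _ fun a _ => integrable_finsetSum _ fun b _ => (hcoI a b a0 b0).const_mul _]
      rw [Finset.sum_eq_single a0]
      · rw [integral_finsetSum _ fun b _ => (hcoI a0 b a0 b0).const_mul _, Finset.sum_eq_single b0]
        · rw [integral_const_mul, hco, if_pos rfl, if_pos rfl, one_mul, mul_one]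
        · intro b _ hb
          rw [integral_const_mul, hco, if_neg (fun h : b0 = b => hb h.symm), mul_zero, mul_zero]
        · intro h
          exact absurd (Finset.mem_univ _) h
      · intro a _ ha
        rw [integral_finsetSum _ fun b _ => (hcoI a b a0 b0).const_mul _]
        refine Finset.sum_eq_zero fun b _ => ?_
        rw [integral_const_mul, hco, if_neg ha, zero_mul, mul_zero]
      · intro h
        exact absurd (Finset.mem_univ _) h
    have e11 : ∫ z, (∑ a, (l : ℂ) * (ε a z.1 * conj (ε a z.2))) * (conj (ε a0 z.1) * ε b0 z.2) ∂ν.prod ν =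
        if a0 = b0 then (l : ℂ) else 0 := by
      have e10 : ∀ z : X × X, (∑ a, (l : ℂ) * (ε a z.1 * conj (ε a z.2))) * (conj (ε a0 z.1) * ε b0 z.2) =
          ∑ a, (l : ℂ) * ((ε a z.1 * conj (ε a z.2)) * (conj (ε a0 z.1) * ε b0 z.2)) := by
        intro z
        rw [Finset.sum_mul]
        exact Finset.sum_congr rfl fun a _ => by ring
      simp only [e10]
      rw [integral_finsetSum _ fun a _ => (hcoI a a a0 b0).const_mul _, Finset.sum_eq_single a0]
      · rw [integral_const_mul, hco, if_pos rfl, one_mul]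
        simp only [eq_comm, mul_ite, mul_one, mul_zero]
      · intro a _ ha
        rw [integral_const_mul, hco, if_neg ha, zero_mul, mul_zero]
      · intro h
        exact absurd (Finset.mem_univ _) h
    rw [← e9, e8, e11]
  have hlc : (l : ℂ) ≠ 0 := by exact_mod_cast hl
  have h9 : m ≤ r * r := f2_mat (by simp) hlc M hN
  rw [hsm, htr, sq]
  exact_mod_cast h9

end Pool.Agent.Lib.MP_9fe581_an.AP
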