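import Pool.Agent.Lib.MP_9fe581_an.AP.C3
import Pool.Agent.Lib.MP_9fe581_an.AP.F2

/-! # AP, C5: `|P|²` is constant -/

set_option autoImplicit false

open Finset MeasureTheory Filter Topology ProbabilityTheory
open scoped ComplexConjugate ENNReal InnerProductSpace

namespace Pool.Agent.Lib.MP_9fe581_an.AP

variable {X : Type} [MeasurableSpace X] {μ : Measure X} [IsProbabilityMeasure μ] {S : X → X} {D : SA X}
  {κ : Kernel X X} [IsMarkovKernel κ]

/-- the minimal projections of mode 0 are classes or have norm² `≥ Q` -/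
def MinP (c : Ctx μ S D κ) (Y : SA X) (Q : ℝ) : Prop :=
  ∀ P : Bv c, (hst c).Min (Ak c (fun _ => 1) Y) P →
    (∃ v : X → ℂ, Cls S D v ∧ Measurable[Y.m] v ∧ fn P =ᵐ[μ ⊗ₘ κ] rc v v) ∨ Q ≤ ‖P‖ ^ 2

/-- powers of classes of mode 0 -/
def TorP (S : X → X) (D Y : SA X) (N : ℕ) : Prop :=
  ∀ v : X → ℂ, Cls S D v → Measurable[Y.m] v → ∀ n, 0 < n → n < N → (Measurable[D.m] fun x => v x ^ n) →
    Measurable[D.m] v

/-- the kernel `|P|²` -/
private noncomputable def c5_a {c : Ctx μ S D κ} (P : Bv c) (z : X × X) : ℂ := ((‖fn P z‖ ^ 2 : ℝ) : ℂ)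

private theorem c5_meas {c : Ctx μ S D κ} (P : Bv c) : Measurable (c5_a P) :=
  Complex.measurable_ofReal.comp ((fn_ker P).meas.norm.pow_const 2)

private theorem c5_ker {c : Ctx μ S D κ} {P : Bv c} (hP : (hst c).Proj P) : Ker μ S κ (fun _ => 1) (c5_a P) := by
  have h1 : fn P =ᵐ[μ ⊗ₘ κ] comp κ (fn P) (fn P) := by
    have := fn_mul P P
    rwa [hP.idem] at this
  refine ⟨c5_meas P, MemLp.of_bound (c5_meas P).aestronglyMeasurable ((Real.sqrt (ksq μ κ (fn P)) *
    Real.sqrt (ksq μ κ (fn P))) ^ 2) ?_, ?_⟩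
  · filter_upwards [h1, comp_le c c3_one c3_one (fn_ker P) (fn_ker P)] with z e1 e2
    unfold c5_a
    rw [Complex.norm_real, Real.norm_of_nonneg (by positivity)]
    rw [← e1] at e2
    exact pow_le_pow_left₀ (norm_nonneg _) e2 2
  · filter_upwards [(fn_ker P).tw] with z hz
    unfold c5_a
    rw [hz]
    simp

private theorem c5_em {e : X → ℂ} {Y : SA X} (hY : Em μ S D Y e) : Em μ S D Y fun _ => 1 :=
  ⟨hY.fac, hY.sub, measurable_const, fun _ => norm_one, measurable_const⟩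

/-- the unit -/
private theorem c5_unit (c : Ctx μ S D κ) {e : X → ℂ} {Y : SA X} (hY : Em μ S D Y e) :
    ∃ I : Bv c, fn I =ᵐ[μ ⊗ₘ κ] (fun _ => 1) ∧ (hst c).Proj I ∧ I ∈ Ak c (fun _ => 1) Y := by
  have h1 : Cls S D fun _ : X => (1 : ℂ) := ⟨measurable_const, fun _ => norm_one, by
    simp only [map_one, mul_one]
    exact measurable_const⟩
  obtain ⟨I, e1, e2, -⟩ := exists_cls c h1
  have e3 : rc (fun _ : X => (1 : ℂ)) (fun _ => 1) = fun _ => 1 := by
    funext z
    simp [rc]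
  refine ⟨I, by rwa [e3] at e1, e2, ?_⟩
  rw [mem_Ak]
  have h2 : Pm μ κ (fun _ => 1) Y (rc (fun _ : X => (1 : ℂ)) fun _ => 1) :=
    Pm_rc c (c5_em hY) ⟨measurable_const, 1, fun _ => by simp⟩ ⟨measurable_const, 1, fun _ => by simp⟩
      (by simp only [map_one, mul_one]; exact measurable_const)
      (by simp only [map_one, mul_one]; exact measurable_const)
  refine AEStronglyMeasurable.congr h2 ?_
  filter_upwards [e1] with z hz
  rw [hz]

/-- **C5.** `|P|²` is constant -/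
theorem sq_const (c : Ctx μ S D κ) {e : X → ℂ} {Y : SA X} (hY : Em μ S D Y e) {Q : ℝ} (hQ : MinP c Y Q) {N : ℕ}
    (hN : TorP S D Y N) {P : Bv c} (hP : (hst c).Min (Ak c e Y) P) (h1 : ‖P‖ ^ 4 < Q) (h2 : ‖P‖ ^ 4 < N) :
    ∀ᵐ z ∂(μ ⊗ₘ κ), ‖fn P z‖ ^ 2 = ‖P‖ ^ 2 := by
  have hpr := hP.toProj
  obtain ⟨A, hA⟩ := exists_fn c (c5_ker hpr)
  obtain ⟨I, hI, hI1, hI2⟩ := c5_unit c hY
  obtain ⟨t, ht⟩ : ∃ t : ℝ, t = ‖P‖ ^ 2 := ⟨_, rfl⟩
  have hn : 0 < ‖P‖ := norm_pos_iff.2 hP.ne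
  have ht0 : 0 < t := by rw [ht]; positivity
  have mA : Measurable (fn A) := (fn_ker A).meas
  have mI : Measurable (fn I) := (fn_ker I).meas
  -- `A` is in the algebra
  have hAA : A ∈ Ak c (fun _ => 1) Y := by
    rw [mem_Ak]
    have h3 : Pm μ κ e Y (fn P) := mem_Ak.1 hP.mem
    have h4 : AEStronglyMeasurable[Y.m.prod Y.m]
        (fun z => ((‖conj (e z.1) * fn P z * e z.2‖ ^ 2 : ℝ) : ℂ)) (μ ⊗ₘ κ) :=
      Complex.continuous_ofReal.comp_aestronglyMeasurable
        ((continuous_pow 2).comp_aestronglyMeasurable (continuous_norm.comp_aestronglyMeasurable h3))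
    refine h4.congr ?_
    filter_upwards [hA] with z hz
    rw [hz]
    unfold c5_a
    rw [norm_mul, norm_mul, RCLike.norm_conj, hY.norm, hY.norm]
    simp
  -- `A` is hermitian
  have hAs : (hst c).star A = A := by
    refine fn_ext ((fn_star A).trans ?_)
    refine (k5_sc c hA).trans (EventuallyEq.trans ?_ hA.symm)
    have h3 : st (fn P) =ᵐ[μ ⊗ₘ κ] fn P := by
      have := fn_star P
      rw [hpr.star] at this
      exact this.symm
    filter_upwards [h3] with z hz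
    show conj (c5_a P (z.2, z.1)) = c5_a P z
    unfold c5_a
    rw [Complex.conj_ofReal, ← hz]
    unfold st
    rw [RCLike.norm_conj]
  -- `A I = t I`
  have hAI : (hst c).mul A I = (t : ℂ) • I := by
    refine fn_ext ((fn_mul A I).trans ?_)
    refine (comp_congr c mA (c5_meas P) mI measurable_const hA hI).trans ?_
    have h3 := c.fib.fst.quasiMeasurePreserving.ae ((fn_ker P).row c c3_one)
    filter_upwards [h3, fn_smul (t : ℂ) I, hI] with z e1 e2 e3
    rw [e2, e3]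
    unfold comp c5_a
    simp only [mul_one]
    rw [integral_complex_ofReal, e1.2, ← norm_fn, ht]
  obtain ⟨b, hb⟩ : ∃ b, b = A - (t : ℂ) • I := ⟨_, rfl⟩
  have hbs : (hst c).star b = b := by
    rw [hb, (hst c).star_sub, (hst c).star_smul, hAs, hI1.star, Complex.conj_ofReal]
  have hbA : b ∈ Ak c (fun _ => 1) Y := by
    rw [hb]
    exact Submodule.sub_mem _ hAA (Submodule.smul_mem _ _ hI2)
  have hbI : (hst c).mul b I = 0 := by
    rw [hb, (hst c).sub_mul, (hst c).smul_mul, hAI, hI1.idem, sub_self]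
  by_cases h0 : b = 0
  · have h3 : A = (t : ℂ) • I := by rw [← sub_eq_zero, ← hb, h0]
    have h4 := fn_smul (t : ℂ) I
    rw [← h3] at h4
    filter_upwards [hA, hI, h4] with z e1 e2 e3
    rw [e3, e2, mul_one] at e1
    rw [← ht]
    unfold c5_a at e1
    exact_mod_cast e1.symm
  exfalso
  obtain ⟨E, r, hE, hr, g1, g2, -⟩ := (hst c).spectral (sub_Ak c (c5_em hY)) hbA hbs h0
  have hrc : (r : ℂ) ≠ 0 := by exact_mod_cast hr
  -- `E I = 0`
  have hEI : (hst c).mul E I = 0 := by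
    have h3 : (r : ℂ) • (hst c).mul E I = 0 := by
      rw [← (hst c).smul_mul, ← g2, (hst c).assoc, hbI, (hst c).mul_zero]
    exact (smul_eq_zero.1 h3).resolve_left hrc
  have hEA : (hst c).mul E A = (r : ℂ) • E := by
    have h3 : A = b + (t : ℂ) • I := by rw [hb]; abel
    rw [h3, (hst c).mul_add, (hst c).mul_smul, g2, hEI, smul_zero, add_zero]
  have hEAE : (hst c).mul ((hst c).mul E A) E = (r : ℂ) • E := by
    rw [hEA, (hst c).smul_mul, hE.idem]
  have hEn : 0 < ‖E‖ := norm_pos_iff.2 hE.ne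
  rcases hQ E hE with ⟨v, v1, v2, v3⟩ | hQE
  · by_cases hv : Measurable[D.m] v
    · -- `E = I`
      have h3 : E = I := by
        refine fn_ext (v3.trans (EventuallyEq.trans ?_ hI.symm))
        filter_upwards [c.fib.const v1.meas hv] with z hz
        show v z.1 * conj (v z.2) = 1
        rw [hz]
        exact c3_conj (v1.norm _)
      rw [h3, hI1.idem] at hEI
      exact hI1.ne hEI
    · have h3 := twist_cls c hY hP v1 h2 fun n n0 n1 hm => hv (hN v v1 v2 n n0 n1 hm)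
      have h4 := (hst c).coef hE.toProj hEAE
      have h5 : ⟪E, A⟫_ℂ = 0 := by
        rw [inner_fn, ← h3]
        refine integral_congr_ae ?_
        filter_upwards [hA, v3] with z e1 e2
        rw [e1, e2]
        rfl
      rw [h5] at h4
      have h6 : ((‖E‖ ^ 2 : ℝ) : ℂ) ≠ 0 := by
        have : (‖E‖ ^ 2 : ℝ) ≠ 0 := by positivity
        exact_mod_cast this
      exact (mul_ne_zero hrc h6) h4
  · -- the embedding on a fibre
    have mE : Measurable (fn E) := (fn_ker E).meas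
    have k1 : comp κ (comp κ (fn E) (c5_a P)) (fn E) =ᵐ[μ ⊗ₘ κ] fun z => (r : ℂ) * fn E z := by
      have a1 := fn_mul ((hst c).mul E A) E
      rw [hEAE] at a1
      have a2 : fn ((hst c).mul E A) =ᵐ[μ ⊗ₘ κ] comp κ (fn E) (c5_a P) :=
        (fn_mul E A).trans (comp_congr c mE mE mA (c5_meas P) (ae_eq_refl _) hA)
      have a3 := comp_congr c (fn_ker ((hst c).mul E A)).meas (measurable_comp mE (c5_meas P)) mE mE a2 (ae_eq_refl _)
      exact (a3.symm.trans a1.symm).trans (fn_smul (r : ℂ) E)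
    have k2 : ∀ᵐ x ∂μ, ‖E‖ ^ 2 ≤ (‖P‖ ^ 2) ^ 2 := by
      filter_upwards [proj_fib c hpr, proj_fib c hE.toProj, c.fib.ae2 k1, comp_fib c (comp κ (fn E) (c5_a P)) (fn E),
        k4_rcf c (fn E) (c5_a P)] with x f1 f2 f3 f4 f5
      refine f1.embed (l := r) (by positivity) f2 hr ?_
      have f6 : ∀ᵐ z ∂(κ x).prod (κ x), ∀ᵐ y ∂κ x, comp κ (fn E) (c5_a P) (z.1, y) =
          ∫ w, fn E (z.1, w) * c5_a P (w, y) ∂κ x :=
        Measure.quasiMeasurePreserving_fst.ae f5.1
      filter_upwards [f3, f4, f6] with z g3 g4 g6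
      rw [← g3, g4]
      refine integral_congr_ae ?_
      filter_upwards [g6] with y hy
      rw [hy]
      rfl
    obtain ⟨x, hx⟩ := k2.exists
    have : (‖P‖ ^ 2) ^ 2 = ‖P‖ ^ 4 := by ring
    linarith

end Pool.Agent.Lib.MP_9fe581_an.AP
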