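import Pool.Agent.Lib.MP_9fe581_an.AP.G1
import Pool.Agent.Lib.MP_9fe581_an.FT.Dens

/-!
# AP, D1: the σ-algebra generated by a group of unimodular functions
-/

set_option autoImplicit false
set_option linter.unusedSectionVars false
set_option warn.classDefReducibility false

open Finset MeasureTheory Filter Topology ProbabilityTheory
open scoped ComplexConjugate

namespace Pool.Agent.Lib.MP_9fe581_an.AP

/-- the unit circle -/
abbrev D1K : Type := Metric.sphere (0 : ℂ) 1

/-- the monomials on the circle -/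
def d1A : Submonoid C(D1K, ℂ) where
  carrier := {f | ∃ a b : ℕ, ∀ z : D1K, f z = (z : ℂ) ^ a * conj (z : ℂ) ^ b}
  one_mem' := ⟨0, 0, fun z => by simp⟩
  mul_mem' := by
    rintro f g ⟨a, b, hf⟩ ⟨c, d, hg⟩
    refine ⟨a + c, b + d, fun z => ?_⟩
    rw [ContinuousMap.mul_apply, hf, hg, pow_add, pow_add]
    ring

theorem d1A_star : ∀ f ∈ d1A, star f ∈ d1A := by
  rintro f ⟨a, b, hf⟩
  refine ⟨b, a, fun z => ?_⟩
  rw [ContinuousMap.star_apply, hf]
  show conj _ = _
  rw [map_mul, map_pow, map_pow, Complex.conj_conj, mul_comm]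

theorem d1A_sep : ∀ x y : D1K, x ≠ y → ∃ f ∈ d1A, f x ≠ f y := by
  intro x y hxy
  refine ⟨⟨fun z => (z : ℂ), continuous_subtype_val⟩, ⟨1, 0, fun z => by simp⟩, ?_⟩
  intro h
  exact hxy (Subtype.ext h)

section General

variable {X : Type} [mX0 : MeasurableSpace X] {μ : Measure X} [IsProbabilityMeasure μ]

private theorem d1_form {ρ : X → ℝ} (hρ : Integrable ρ μ) (h0 : ∀ x, 0 ≤ ρ x) {w' : X → D1K} (hw' : Measurable w')
    {f : D1K → ℂ} (hf : Measurable f) :
    ∫ z, f z ∂((μ.withDensity fun x => ENNReal.ofReal (ρ x)).map w') = ∫ x, (ρ x : ℂ) * f (w' x) ∂μ := by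
  rw [integral_map hw'.aemeasurable hf.aestronglyMeasurable,
    integral_withDensity_eq_integral_toReal_smul₀ hρ.aemeasurable.ennreal_ofReal
      (Eventually.of_forall fun x => ENNReal.ofReal_lt_top)]
  refine integral_congr_ae (Eventually.of_forall fun x => ?_)
  dsimp only
  rw [ENNReal.toReal_ofReal (h0 x), Complex.real_smul]

private theorem d1_int {ρ : X → ℝ} (hρ : Integrable ρ μ) {g : X → ℂ} (hg : Measurable g) {C : ℝ} (hC : ∀ x, ‖g x‖ ≤ C) :
    Integrable (fun x => (ρ x : ℂ) * g x) μ :=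
  hρ.ofReal.mul_bdd (c := C) hg.aestronglyMeasurable (Eventually.of_forall hC)

/-- a real function orthogonal to all monomials in `w` is orthogonal to the functions of `w` -/
theorem d1_real {ψ : X → ℝ} (hψ : Integrable ψ μ) {w : X → ℂ} (hw : Measurable w) (hw1 : ∀ x, ‖w x‖ = 1)
    (h : ∀ a b : ℕ, ∫ x, (ψ x : ℂ) * (w x ^ a * conj (w x) ^ b) ∂μ = 0) {K : Set ℂ} (hK : MeasurableSet K) :
    ∫ x in w ⁻¹' K, ψ x ∂μ = 0 := by
  classical
  set w' : X → D1K := fun x => ⟨w x, by rw [mem_sphere_zero_iff_norm]; exact hw1 x⟩ with hw'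
  have hw'm : Measurable w' := hw.subtype_mk
  set ρ1 : X → ℝ := fun x => max (ψ x) 0 with hρ1
  set ρ2 : X → ℝ := fun x => max (-ψ x) 0 with hρ2
  have i1 : Integrable ρ1 μ := hψ.pos_part
  have i2 : Integrable ρ2 μ := hψ.neg_part
  have p1 : ∀ x, 0 ≤ ρ1 x := fun x => le_max_right _ _
  have p2 : ∀ x, 0 ≤ ρ2 x := fun x => le_max_right _ _
  have hd : ∀ x, ρ1 x - ρ2 x = ψ x := by
    intro x
    rcases le_total 0 (ψ x) with h1 | h1
    · rw [hρ1, hρ2]
      dsimp only
      rw [max_eq_left h1, max_eq_right (by linarith)]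
      ring
    · rw [hρ1, hρ2]
      dsimp only
      rw [max_eq_right h1, max_eq_left (by linarith)]
      ring
  have f1 : IsFiniteMeasure (μ.withDensity fun x => ENNReal.ofReal (ρ1 x)) := isFiniteMeasure_withDensity_ofReal i1.2
  have f2 : IsFiniteMeasure (μ.withDensity fun x => ENNReal.ofReal (ρ2 x)) := isFiniteMeasure_withDensity_ofReal i2.2
  have key : ∀ g : X → ℂ, Measurable g → ∀ C : ℝ, (∀ x, ‖g x‖ ≤ C) →
      (∫ x, (ρ1 x : ℂ) * g x ∂μ) - ∫ x, (ρ2 x : ℂ) * g x ∂μ = ∫ x, (ψ x : ℂ) * g x ∂μ := by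
    intro g hg C hC
    rw [← integral_sub (d1_int i1 hg hC) (d1_int i2 hg hC)]
    refine integral_congr_ae (Eventually.of_forall fun x => ?_)
    dsimp only
    rw [← sub_mul, ← hd x]
    push_cast
    ring
  have hP : (μ.withDensity fun x => ENNReal.ofReal (ρ1 x)).map w' = (μ.withDensity fun x => ENNReal.ofReal (ρ2 x)).map w' := by
    refine FT.meas_ext d1A d1A_star d1A_sep _ _ fun f hf => ?_
    obtain ⟨a, b, hab⟩ := hf
    rw [d1_form i1 p1 hw'm f.continuous.measurable, d1_form i2 p2 hw'm f.continuous.measurable, ← sub_eq_zero,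
      key (fun x => f (w' x)) (f.continuous.measurable.comp hw'm) ‖f‖ (fun x => f.norm_coe_le_norm _)]
    refine Eq.trans (integral_congr_ae (Eventually.of_forall fun x => ?_)) (h a b)
    dsimp only
    rw [hab]
  have hKm : Measurable fun z : D1K => K.indicator (fun _ => (1 : ℂ)) (z : ℂ) :=
    (measurable_const.indicator hK).comp measurable_subtype_coe
  have e1 := d1_form i1 p1 hw'm hKm
  have e2 := d1_form i2 p2 hw'm hKm
  rw [hP, e2] at e1
  have e3 := key (fun x => K.indicator (fun _ => (1 : ℂ)) (w x)) ((measurable_const.indicator hK).comp hw) 1 (fun x => by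
    rw [Set.indicator_apply]; split_ifs <;> simp)
  have e4 : ∫ x, (ψ x : ℂ) * K.indicator (fun _ => (1 : ℂ)) (w x) ∂μ = 0 := by
    rw [← e3]
    have e5 : ∫ x, (ρ1 x : ℂ) * K.indicator (fun _ => (1 : ℂ)) (w x) ∂μ =
        ∫ x, (ρ2 x : ℂ) * K.indicator (fun _ => (1 : ℂ)) (w x) ∂μ := e1.symm
    rw [e5, sub_self]
  have e6 : ((∫ x in w ⁻¹' K, ψ x ∂μ : ℝ) : ℂ) = 0 := by
    rw [← e4, ← integral_complex_ofReal, ← integral_indicator (hw hK)]
    refine integral_congr_ae (Eventually.of_forall fun x => ?_)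
    dsimp only
    by_cases hx : w x ∈ K
    · rw [Set.indicator_of_mem (show x ∈ w ⁻¹' K from hx), Set.indicator_of_mem hx, mul_one]
    · rw [Set.indicator_of_notMem (show x ∉ w ⁻¹' K from hx), Set.indicator_of_notMem hx, mul_zero]
  exact_mod_cast e6

/-- the same for complex functions -/
theorem d1_cx {φ : X → ℂ} (hφ : Integrable φ μ) {w : X → ℂ} (hw : Measurable w) (hw1 : ∀ x, ‖w x‖ = 1)
    (h : ∀ a b : ℕ, ∫ x, φ x * (w x ^ a * conj (w x) ^ b) ∂μ = 0) {K : Set ℂ} (hK : MeasurableSet K) :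
    ∫ x in w ⁻¹' K, φ x ∂μ = 0 := by
  have hm : ∀ a b : ℕ, Measurable fun x => w x ^ a * conj (w x) ^ b := fun a b =>
    (hw.pow_const a).mul ((Complex.continuous_conj.measurable.comp hw).pow_const b)
  have hb : ∀ (a b : ℕ) (x : X), ‖w x ^ a * conj (w x) ^ b‖ ≤ 1 := fun a b x => by
    rw [norm_mul, norm_pow, norm_pow, RCLike.norm_conj, hw1]; simp
  have hi : ∀ a b : ℕ, Integrable (fun x => φ x * (w x ^ a * conj (w x) ^ b)) μ := fun a b =>
    hφ.mul_bdd (c := 1) (hm a b).aestronglyMeasurable (Eventually.of_forall (hb a b))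
  have hconj : ∀ {g : X → ℂ}, Integrable g μ → Integrable (fun x => conj (g x)) μ := fun hg =>
    (Complex.conjCLE : ℂ →L[ℝ] ℂ).integrable_comp hg
  have h2 : ∀ a b : ℕ, ∫ x, conj (φ x) * (w x ^ a * conj (w x) ^ b) ∂μ = 0 := by
    intro a b
    have e := congrArg conj (h b a)
    rw [← integral_conj, map_zero] at e
    rw [← e]
    refine integral_congr_ae (Eventually.of_forall fun x => ?_)
    simp only [map_mul, map_pow, Complex.conj_conj]
    ring
  have hi2 : ∀ a b : ℕ, Integrable (fun x => conj (φ x) * (w x ^ a * conj (w x) ^ b)) μ := fun a b =>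
    (hconj hφ).mul_bdd (c := 1) (hm a b).aestronglyMeasurable (Eventually.of_forall (hb a b))
  have hre : ∫ x in w ⁻¹' K, (φ x).re ∂μ = 0 := by
    refine d1_real hφ.re hw hw1 (fun a b => ?_) hK
    have e : ∫ x, ((RCLike.re (φ x) : ℝ) : ℂ) * (w x ^ a * conj (w x) ^ b) ∂μ =
        (1 / 2 : ℂ) * ((∫ x, φ x * (w x ^ a * conj (w x) ^ b) ∂μ) + ∫ x, conj (φ x) * (w x ^ a * conj (w x) ^ b) ∂μ) := by
      rw [← integral_add (hi a b) (hi2 a b), ← integral_const_mul]
      refine integral_congr_ae (Eventually.of_forall fun x => ?_)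
      dsimp only
      rw [← add_mul, Complex.add_conj]
      simp only [RCLike.re_to_complex]
      push_cast
      ring
    rw [h, h2, add_zero, mul_zero] at e
    exact e
  have him : ∫ x in w ⁻¹' K, (φ x).im ∂μ = 0 := by
    refine d1_real hφ.im hw hw1 (fun a b => ?_) hK
    have e : ∫ x, ((RCLike.im (φ x) : ℝ) : ℂ) * (w x ^ a * conj (w x) ^ b) ∂μ =
        (1 / (2 * Complex.I) : ℂ) * ((∫ x, φ x * (w x ^ a * conj (w x) ^ b) ∂μ) -
          ∫ x, conj (φ x) * (w x ^ a * conj (w x) ^ b) ∂μ) := by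
      rw [← integral_sub (hi a b) (hi2 a b), ← integral_const_mul]
      refine integral_congr_ae (Eventually.of_forall fun x => ?_)
      dsimp only
      rw [← sub_mul, Complex.sub_conj]
      simp only [RCLike.im_to_complex]
      push_cast
      field_simp
    rw [h, h2, sub_zero, mul_zero] at e
    exact e
  have hfin := integral_re_add_im (μ := μ.restrict (w ⁻¹' K)) (f := φ) hφ.integrableOn
  simp only [RCLike.re_to_complex, RCLike.im_to_complex] at hfin
  rw [hre, him] at hfin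
  rw [← hfin]
  simp

/-- **density**: if `E(F v | A) = 0` for all `v` in a group `G` of unimodular functions, then `F` has integral `0` over the sets of the
σ-algebra generated by `A` and `G` -/
theorem dens_raw {A : SA X} (hA : A.m ≤ mX0) {G : Set (X → ℂ)} (hGm : ∀ v ∈ G, Measurable v) (hG1 : ∀ v ∈ G, ∀ x, ‖v x‖ = 1)
    (h1 : (fun _ => (1 : ℂ)) ∈ G) (hmul : ∀ v ∈ G, ∀ w ∈ G, (fun x => v x * w x) ∈ G)
    (hconj : ∀ v ∈ G, (fun x => conj (v x)) ∈ G) {F : X → ℂ} (hF : Integrable F μ)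
    (h : ∀ v ∈ G, ∀ t, MeasurableSet[A.m] t → ∫ x in t, F x * v x ∂μ = 0) (s : Set X)
    (hs : MeasurableSet[A.m ⊔ ⨆ v : G, MeasurableSpace.comap v.1 inferInstance] s) : ∫ x in s, F x ∂μ = 0 := by
  classical
  obtain ⟨B, hB⟩ : ∃ B : SA X, B.m = A.m ⊔ ⨆ v : G, MeasurableSpace.comap v.1 inferInstance := ⟨⟨_⟩, rfl⟩
  rw [← hB] at hs
  have hBle : B.m ≤ mX0 := hB.trans_le <| sup_le hA (iSup_le fun v => (hGm v.1 v.2).comap_le)
  -- monomials
  have hmono : ∀ w ∈ G, ∀ a b : ℕ, (fun x => w x ^ a * conj (w x) ^ b) ∈ G := by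
    intro w hw a b
    have hp : ∀ u ∈ G, ∀ n : ℕ, (fun x => u x ^ n) ∈ G := by
      intro u hu n
      induction n with
      | zero => simpa using h1
      | succ n ih =>
        have := hmul _ ih _ hu
        simpa only [pow_succ] using this
    exact hmul _ (hp w hw a) _ (hp _ (hconj w hw) b)
  have hint : ∀ v ∈ G, Integrable (fun x => F x * v x) μ := fun v hv =>
    hF.mul_bdd (c := 1) (hGm v hv).aestronglyMeasurable (Eventually.of_forall fun x => (hG1 v hv x).le)
  -- the good sets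
  set C : Set X → Prop := fun s => MeasurableSet s ∧ ∀ v ∈ G, ∀ t, MeasurableSet[A.m] t → ∫ x in s ∩ t, F x * v x ∂μ = 0 with hC
  have hCA : ∀ s u, C s → MeasurableSet[A.m] u → C (u ∩ s) := by
    rintro s u ⟨hs1, hs2⟩ hu
    refine ⟨(hA u hu).inter hs1, fun v hv t ht => ?_⟩
    have e : u ∩ s ∩ t = s ∩ (u ∩ t) := by
      ext x; simp only [Set.mem_inter_iff]; tauto
    rw [e]
    exact hs2 v hv _ (@MeasurableSet.inter _ A.m _ _ hu ht)
  have hCG : ∀ s w K, C s → w ∈ G → MeasurableSet K → C (w ⁻¹' K ∩ s) := by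
    rintro s w K ⟨hs1, hs2⟩ hw hK
    refine ⟨((hGm w hw) hK).inter hs1, fun v hv t ht => ?_⟩
    have ht' : MeasurableSet t := hA t ht
    have e : w ⁻¹' K ∩ s ∩ t = w ⁻¹' K ∩ (s ∩ t) := Set.inter_assoc _ _ _
    have e2 := d1_cx (μ := μ) (φ := (s ∩ t).indicator fun x => F x * v x) ((hint v hv).indicator (hs1.inter ht'))
      (hGm w hw) (hG1 w hw) (fun a b => ?_) hK
    · rw [e]
      rw [setIntegral_indicator (hs1.inter ht')] at e2
      exact e2
    · rw [← hs2 _ (hmul v hv _ (hmono w hw a b)) t ht, ← integral_indicator (hs1.inter ht')]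
      refine integral_congr_ae (Eventually.of_forall fun x => ?_)
      dsimp only
      by_cases hx : x ∈ s ∩ t
      · rw [Set.indicator_of_mem hx, Set.indicator_of_mem hx]; ring
      · rw [Set.indicator_of_notMem hx, Set.indicator_of_notMem hx, zero_mul]
  -- the π-system
  set mm : Option G → MeasurableSpace X := fun o => o.elim A.m fun v => MeasurableSpace.comap v.1 inferInstance with hmm
  have hgen : MeasurableSpace.generateFrom (piiUnionInter (fun n => {s | MeasurableSet[mm n] s}) Set.univ) = B.m := by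
    refine (generateFrom_piiUnionInter_measurableSet mm Set.univ).trans ?_
    simp only [Set.mem_univ, iSup_pos]
    rw [iSup_option, hB]
    rfl
  have hpi : IsPiSystem (piiUnionInter (fun n => {s | MeasurableSet[mm n] s}) Set.univ) :=
    isPiSystem_piiUnionInter _ (fun n => @MeasurableSpace.isPiSystem_measurableSet _ (mm n)) _
  have hbase : ∀ s ∈ piiUnionInter (fun n => {s | MeasurableSet[mm n] s}) Set.univ, C s := by
    rintro s ⟨t, -, f, hf, rfl⟩
    induction t using Finset.induction_on with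
    | empty =>
      simp only [Finset.notMem_empty, Set.iInter_of_empty, Set.iInter_univ]
      exact ⟨MeasurableSet.univ, fun v hv t ht => by rw [Set.univ_inter]; exact h v hv t ht⟩
    | insert a t ha ih =>
      rw [Finset.set_biInter_insert]
      have ih' := ih fun n hn => hf n (Finset.mem_insert_of_mem hn)
      have hfa := hf a (Finset.mem_insert_self a t)
      cases a with
      | none => exact hCA _ _ ih' hfa
      | some v =>
        obtain ⟨K, hK, hKe⟩ : MeasurableSet[MeasurableSpace.comap v.1 inferInstance] (f (some v)) := hfa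
        rw [← hKe]
        exact hCG _ _ _ ih' v.2 hK
  have hall : ∫ x, F x ∂μ = 0 := by
    have := h _ h1 Set.univ (@MeasurableSet.univ _ A.m)
    simpa using this
  refine MeasurableSpace.induction_on_inter (m := B.m) (C := fun s _ => ∫ x in s, F x ∂μ = 0) hgen.symm hpi ?_ ?_ ?_ ?_ s hs
  · simp
  · intro t ht
    have := (hbase t ht).2 _ h1 Set.univ (@MeasurableSet.univ _ A.m)
    simpa using this
  · intro t ht ih
    have := integral_add_compl (μ := μ) (hBle t ht) hF
    rw [ih, zero_add] at this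
    rw [this, hall]
  · intro f hd hf ih
    rw [integral_iUnion (fun i => hBle _ (hf i)) hd hF.integrableOn]
    simp [ih]

/-- the same for the completed σ-algebra, with conditional expectations -/
theorem dens_ce {A : SA X} (hA : A.m ≤ mX0) {G : Set (X → ℂ)} (hGm : ∀ v ∈ G, Measurable v) (hG1 : ∀ v ∈ G, ∀ x, ‖v x‖ = 1)
    (h1 : (fun _ => (1 : ℂ)) ∈ G) (hmul : ∀ v ∈ G, ∀ w ∈ G, (fun x => v x * w x) ∈ G)
    (hconj : ∀ v ∈ G, (fun x => conj (v x)) ∈ G) {F : X → ℂ} (hF : Integrable F μ)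
    (h : ∀ v ∈ G, ce μ A (fun x => F x * v x) =ᵐ[μ] 0) {B : SA X}
    (hB : B.m ≤ (cpl μ ⟨A.m ⊔ ⨆ v : G, MeasurableSpace.comap v.1 inferInstance⟩).m) : ce μ B F =ᵐ[μ] 0 := by
  have hBle : B.m ≤ mX0 := hB.trans (cpl_le _)
  refine (ae_eq_condExp_of_forall_setIntegral_eq hBle hF (fun s _ _ => (integrable_zero _ _ _).integrableOn) (fun s hs _ => ?_)
    (show StronglyMeasurable[B.m] (0 : X → ℂ) from stronglyMeasurable_zero).aestronglyMeasurable).symm
  obtain ⟨-, t, ht, hst⟩ := cpl_iff.1 (hB s hs)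
  rw [setIntegral_congr_set (f := F) hst]
  rw [dens_raw hA hGm hG1 h1 hmul hconj hF (fun v hv u hu => ?_) t ht]
  · simp
  · have hint : Integrable (fun x => F x * v x) μ :=
      hF.mul_bdd (c := 1) (hGm v hv).aestronglyMeasurable (Eventually.of_forall fun x => (hG1 v hv x).le)
    rw [← setIntegral_condExp hA hint hu]
    have e : μ[fun x => F x * v x | A.m] =ᵐ[μ] 0 := h v hv
    rw [setIntegral_congr_ae (hA u hu) (e.mono fun x hx _ => hx)]
    simp

end General

end Pool.Agent.Lib.MP_9fe581_an.AP
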