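import Pool.Agent.Lib.MP_9fe581_an.AP.J1
import Pool.Agent.Lib.MP_9fe581_an.AP.D1

/-!
# AP, D2: the factors `D_h`
-/

set_option autoImplicit false
set_option linter.unusedSectionVars false
set_option warn.classDefReducibility false

open Finset MeasureTheory Filter Topology ProbabilityTheory
open scoped ComplexConjugate

namespace Pool.Agent.Lib.MP_9fe581_an.AP

open HT (TX mX ch)
open AH (BM)

variable {κ : Type} [Fintype κ]

/-- saturation at level `h` -/
def Tow.Sat (W : Tow κ) (p q : ℕ) (lam : Measure (TX κ × TX κ)) (h : ℕ) : Prop :=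
  ∀ v, Cls W.T^[p] (W.D p q lam h) v → Measurable[(W.Y h).m] v →
    (∃ m : ℕ, ¬ q ∣ m ∧ Measurable[(hid lam (W.D p q lam h)).m] fun z : TX κ × TX κ => v z.1 ^ m) →
    Measurable[(W.D p q lam h).m] v

/-- `T` fixes the classes -/
def Tow.Triv (W : Tow κ) (p q : ℕ) (lam : Measure (TX κ × TX κ)) (h : ℕ) : Prop :=
  ∀ v, Cls W.T^[p] (W.D p q lam h) v → Measurable[(W.Y h).m] v →
    Measurable[(W.D p q lam h).m] fun x => v (W.T x) * conj (v x)

/-- classes over `D_(h+1)` are classes over `D_h` -/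
def Tow.Pur (W : Tow κ) (p q : ℕ) (lam : Measure (TX κ × TX κ)) (h : ℕ) : Prop :=
  ∀ v, Cls W.T^[p] (W.D p q lam (h+1)) v → Measurable[(W.Y (h+1)).m] v →
    ∃ m, W.On h m ∧ ∃ v1, Cls W.T^[p] (W.D p q lam h) v1 ∧ W.Mode h m v1 ∧
      Measurable[(W.D p q lam (h+1)).m] fun x => v x * conj (v1 x)

structure Tow.Lv (W : Tow κ) (p q : ℕ) (lam : Measure (TX κ × TX κ)) (h : ℕ) : Prop where
  fac : Fac (mX κ) W.T (W.D p q lam h)
  sat : W.Sat p q lam h
  triv : W.Triv p q lam h

variable {W : Tow κ} {p q : ℕ} {lam : Measure (TX κ × TX κ)}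

/-! ### measurability -/

/-- `D_(h+1)` before completion -/
noncomputable def Tow.D0 (W : Tow κ) (p q : ℕ) (lam : Measure (TX κ × TX κ)) (h : ℕ) : SA (TX κ) :=
  ⟨(W.D p q lam h).m ⊔ ⨆ v : W.SS p q lam h (W.D p q lam h), MeasurableSpace.comap v.1 inferInstance⟩

theorem Tow.D_succ (h : ℕ) : W.D p q lam (h + 1) = cpl (mX κ) (W.D0 p q lam h) := rfl

theorem Tow.D_le (h : ℕ) : (W.D p q lam h).m ≤ MeasurableSpace.pi := by
  cases h with
  | zero => exact cpl_le _
  | succ h => exact cpl_le _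

theorem Tow.D_null (h : ℕ) {s : Set (TX κ)} (hs : MeasurableSet s) (h0 : mX κ s = 0) : MeasurableSet[(W.D p q lam h).m] s := by
  cases h with
  | zero => exact cpl_null hs h0
  | succ h => exact cpl_null hs h0

theorem Tow.D0_le (h : ℕ) : (W.D0 p q lam h).m ≤ MeasurableSpace.pi :=
  sup_le (Tow.D_le h) (iSup_le fun v => v.2.1.meas.comap_le)

theorem Tow.low (W : Tow κ) (p q : ℕ) (lam : Measure (TX κ × TX κ)) (h : ℕ) (s : Set (TX κ))
    (hs : MeasurableSet[(W.D p q lam h).m] s) : MeasurableSet[(W.Y h).m] s := by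
  induction h generalizing s with
  | zero => exact cpl_mono bot_le s hs
  | succ h ih =>
    have h1 : (W.D0 p q lam h).m ≤ (W.Y (h + 1)).m := by
      refine sup_le (fun s hs => Tow.Y_mono W (Nat.le_succ h) s (ih s hs)) (iSup_le fun v => ?_)
      exact measurable_iff_comap_le.1 v.2.2.1
    have h2 : MeasurableSet[(cpl (mX κ) (W.Y (h + 1))).m] s := cpl_mono (μ := mX κ) h1 s hs
    have h3 : (cpl (mX κ) (W.Y (h + 1))).m = (W.Y (h + 1)).m := cpl_cpl _
    exact h3.le s h2

theorem Tow.low' (h : ℕ) : (W.D p q lam h).m ≤ (W.Y h).m := fun s hs => Tow.low W p q lam h s hs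

theorem Tow.D_mono (h : ℕ) : (W.D p q lam h).m ≤ (W.D p q lam (h + 1)).m := fun s hs =>
  le_cpl (Tow.D0_le h) s ((le_sup_left : (W.D p q lam h).m ≤ (W.D0 p q lam h).m) s hs)

theorem Tow.D_mem {h : ℕ} {v : TX κ → ℂ} (hv : v ∈ W.SS p q lam h (W.D p q lam h)) :
    Measurable[(W.D p q lam (h + 1)).m] v := by
  rw [measurable_iff_comap_le]
  refine le_trans ?_ (le_cpl (Tow.D0_le h))
  refine le_trans ?_ le_sup_right
  exact le_iSup (fun v : W.SS p q lam h (W.D p q lam h) => MeasurableSpace.comap v.1 inferInstance) ⟨v, hv⟩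

theorem Tow.hid_mono {D D' : SA (TX κ)} (h : D.m ≤ D'.m) : (hid lam D).m ≤ (hid lam D').m :=
  cpl_mono (D := hid0 D) (D' := hid0 D') (sup_le_sup_right (MeasurableSpace.comap_mono h) _)

/-! ### the group -/

theorem Cls.one (S : TX κ → TX κ) (D : SA (TX κ)) : Cls S D fun _ => (1 : ℂ) :=
  ⟨measurable_const, fun x => by simp, @measurable_const _ _ _ D.m _⟩

theorem Cls.mul {X : Type} [MeasurableSpace X] {S : X → X} {D : SA X} {v w : X → ℂ} (hv : Cls S D v) (hw : Cls S D w) :
    Cls S D fun x => v x * w x := by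
  refine ⟨hv.meas.mul hw.meas, fun x => by rw [norm_mul, hv.norm, hw.norm, one_mul], ?_⟩
  have e : (fun x => v (S x) * w (S x) * conj (v x * w x)) = fun x => (v (S x) * conj (v x)) * (w (S x) * conj (w x)) := by
    funext x
    rw [map_mul]
    ring
  rw [e]
  exact hv.ratio.mul hw.ratio

theorem Cls.conj' {X : Type} [MeasurableSpace X] {S : X → X} {D : SA X} {v : X → ℂ} (hv : Cls S D v) :
    Cls S D fun x => conj (v x) := by
  refine ⟨Complex.continuous_conj.measurable.comp hv.meas, fun x => by rw [RCLike.norm_conj, hv.norm], ?_⟩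
  have e : (fun x => conj (v (S x)) * conj (conj (v x))) = fun x => conj (v (S x) * conj (v x)) := by
    funext x
    rw [map_mul]
  rw [e]
  exact Complex.continuous_conj.measurable.comp hv.ratio

theorem Cls.mono {X : Type} [MeasurableSpace X] {S : X → X} {D D' : SA X} (h : D.m ≤ D'.m) {v : X → ℂ} (hv : Cls S D v) :
    Cls S D' v := ⟨hv.meas, hv.norm, hv.ratio.mono h le_rfl⟩

theorem Tow.ss_one (hq : q.Prime) (h : ℕ) : (fun _ => (1 : ℂ)) ∈ W.SS p q lam h (W.D p q lam h) := by
  refine ⟨Cls.one _ _, @measurable_const _ _ _ (W.Y (h + 1)).m _, 1, fun h1 => hq.one_lt.ne' (Nat.dvd_one.1 h1), ?_⟩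
  simp only [one_pow]
  exact @measurable_const _ _ _ (hid lam _).m _

theorem Tow.ss_mul (hq : q.Prime) (h : ℕ) {v w : TX κ → ℂ} (hv : v ∈ W.SS p q lam h (W.D p q lam h))
    (hw : w ∈ W.SS p q lam h (W.D p q lam h)) : (fun x => v x * w x) ∈ W.SS p q lam h (W.D p q lam h) := by
  obtain ⟨v1, v2, m, v3, v4⟩ := hv
  obtain ⟨w1, w2, n, w3, w4⟩ := hw
  refine ⟨v1.mul w1, v2.mul w2, m * n, fun h1 => (hq.dvd_mul.1 h1).elim v3 w3, ?_⟩
  have e : (fun z : TX κ × TX κ => (v z.1 * w z.1) ^ (m * n)) = fun z => (v z.1 ^ m) ^ n * (w z.1 ^ n) ^ m := by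
    funext z
    rw [mul_pow, ← pow_mul, ← pow_mul, mul_comm n m]
  rw [e]
  exact (v4.pow_const n).mul (w4.pow_const m)

theorem Tow.ss_conj (h : ℕ) {v : TX κ → ℂ} (hv : v ∈ W.SS p q lam h (W.D p q lam h)) :
    (fun x => conj (v x)) ∈ W.SS p q lam h (W.D p q lam h) := by
  obtain ⟨v1, v2, m, v3, v4⟩ := hv
  refine ⟨v1.conj', Complex.continuous_conj.measurable.comp v2, m, v3, ?_⟩
  have e : (fun z : TX κ × TX κ => conj (v z.1) ^ m) = fun z => conj (v z.1 ^ m) := by
    funext z
    rw [map_pow]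
  rw [e]
  exact Complex.continuous_conj.measurable.comp v4

/-! ### pure modes -/

theorem Tow.pure' (hW : W.ND) (hp : 0 < p) {h : ℕ} {v : TX κ → ℂ}
    (hv : Cls W.T^[p] (W.D p q lam h) v) (hY : Measurable[(W.Y (h + 1)).m] v) : ∃ m, W.On h m ∧ W.Mode h m v := by
  have hS := Tow.sys hW hp
  have hF : Fac (mX κ) W.T^[p] (W.Y h) := (Tow.Y_fac W h).iter p
  by_contra hno
  push Not at hno
  have h0 : v =ᵐ[mX κ] 0 := by
    refine Tow.mode_zero ⟨hv.meas, 1, fun x => (hv.norm x).le⟩ hY fun m hm => ?_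
    have hcc : Cls W.T^[p] (W.Y h) fun x => v x * conj (ch m x) := by
      refine Cls.mul_conj (hv.mono (Tow.low' h)) ⟨(FT.continuous_ec.comp (FT.continuous_pr m)).measurable, fun x => FT.norm_ec _, ?_⟩
      -- the ratio of the character
      have hr : ∀ n : ℕ, Measurable[(W.Y h).m] fun x => ch m (W.T^[n] x) * conj (ch m x) := by
        intro n
        induction n with
        | zero =>
          have e : (fun x => ch m (W.T^[0] x) * conj (ch m x)) = fun _ => (1 : ℂ) := by
            funext x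
            exact AH.unim_mul _ (FT.norm_ec _)
          rw [e]
          exact @measurable_const _ _ _ (W.Y h).m _
        | succ n ih =>
          have e : (fun x => ch m (W.T^[n + 1] x) * conj (ch m x)) =
              fun x => (ch m (W.T^[n] (W.T x)) * conj (ch m (W.T x))) * FT.ec (W.coc m x) := by
            funext x
            rw [Function.iterate_succ_apply]
            rw [Tow.ch_T W m x, map_mul]
            have h1 : conj (FT.ec (W.coc m x)) * FT.ec (W.coc m x) = 1 := by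
              rw [mul_comm]
              exact AH.unim_mul _ (FT.norm_ec _)
            calc ch m (W.T^[n] (W.T x)) * conj (ch m x) =
                ch m (W.T^[n] (W.T x)) * conj (ch m x) * (conj (FT.ec (W.coc m x)) * FT.ec (W.coc m x)) := by rw [h1, mul_one]
              _ = _ := by ring
          rw [e]
          have hT : @Measurable _ _ (W.Y h).m (W.Y h).m W.T := by
            rw [measurable_iff_comap_le, (Tow.Y_fac W h).inv]
          exact (ih.comp hT).mul (FT.continuous_ec.measurable.comp (Tow.coc_Y hm))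
      exact hr p
    by_contra hne
    refine hno m hm ?_
    have h1 := dich hS hF hcc hne
    have e : (fun x => conj (ch m x) * v x) = fun x => v x * conj (ch m x) := by
      funext x
      rw [mul_comm]
    show Measurable[(W.Y h).m] fun x => conj (ch m x) * v x
    rw [e]
    exact h1
  obtain ⟨x, hx⟩ := h0.exists
  have h1 := hv.norm x
  rw [hx] at h1
  simp at h1

/-! ### `T` fixes the classes (c5), the factors are `T`-invariant -/

theorem fac_meas {X : Type} [MeasurableSpace X] {μ : Measure X} {S : X → X} {D : SA X} (hD : Fac μ S D) :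
    @Measurable _ _ D.m D.m S := by
  rw [measurable_iff_comap_le, hD.inv]

theorem Tow.triv_up (hW : W.ND) (hJ : W.PJ p q lam) {h : ℕ} (hL : W.Lv p q lam h) {v : TX κ → ℂ}
    (hv : Cls W.T^[p] (W.D p q lam h) v) (hY : Measurable[(W.Y (h + 1)).m] v) :
    Measurable[(W.D p q lam h).m] fun x => v (W.T x) * conj (v x) := by
  obtain ⟨m, hm, hM⟩ := Tow.pure' hW hJ.pp.pos hv hY
  have hTD : @Measurable _ _ (W.D p q lam h).m (W.D p q lam h).m W.T := fac_meas hL.fac
  have hTY : @Measurable _ _ (W.Y h).m (W.Y h).m W.T := fac_meas (Tow.Y_fac W h)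
  have hcc : ∀ x, v x * conj (v x) = 1 := fun x => AH.unim_mul _ (hv.norm x)
  obtain ⟨w, hw⟩ : ∃ w : TX κ → ℂ, w = fun x => v (W.T x) * conj (v x) := ⟨_, rfl⟩
  rw [← hw]
  have hwx : ∀ x, w x = v (W.T x) * conj (v x) := fun x => by rw [hw]
  have hw1 : ∀ x, ‖w x‖ = 1 := fun x => by rw [hwx, norm_mul, RCLike.norm_conj, hv.norm, hv.norm, one_mul]
  have hwc : ∀ x, w x * conj (w x) = 1 := fun x => AH.unim_mul _ (hw1 x)
  have hwm : Measurable w := by
    rw [hw]
    exact (hv.meas.comp (Tow.T_meas W)).mul (Complex.continuous_conj.measurable.comp hv.meas)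
  have hwY : Measurable[(W.Y h).m] w := by
    have hF : Measurable[(W.Y h).m] fun x => conj (ch m x) * v x := hM
    have e : w = fun x => (conj (ch m (W.T x)) * v (W.T x)) * conj (conj (ch m x) * v x) * FT.ec (W.coc m x) := by
      funext x
      have h1 : ch m x * conj (ch m x) = 1 := AH.unim_mul _ (FT.norm_ec _)
      have h2 : FT.ec (W.coc m x) * conj (FT.ec (W.coc m x)) = 1 := AH.unim_mul _ (FT.norm_ec _)
      rw [hwx, Tow.ch_T W m x]
      simp only [map_mul, Complex.conj_conj]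
      calc v (W.T x) * conj (v x) = v (W.T x) * conj (v x) * (ch m x * conj (ch m x)) *
            (FT.ec (W.coc m x) * conj (FT.ec (W.coc m x))) := by rw [h1, h2, mul_one, mul_one]
        _ = _ := by ring
    rw [e]
    exact ((hF.comp hTY).mul (Complex.continuous_conj.measurable.comp hF)).mul (FT.continuous_ec.measurable.comp (Tow.coc_Y hm))
  have hcls : Cls W.T^[p] (W.D p q lam h) w := by
    refine ⟨hwm, hw1, ?_⟩
    have e : (fun x => w (W.T^[p] x) * conj (w x)) =
        fun x => (v (W.T^[p] (W.T x)) * conj (v (W.T x))) * conj (v (W.T^[p] x) * conj (v x)) := by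
      funext x
      have h1 : W.T (W.T^[p] x) = W.T^[p] (W.T x) := by
        rw [← Function.iterate_succ_apply, Function.iterate_succ_apply']
      rw [hwx, hwx, h1]
      simp only [map_mul, Complex.conj_conj]
      ring
    rw [e]
    exact (hv.ratio.comp hTD).mul (Complex.continuous_conj.measurable.comp hv.ratio)
  have hr := hL.triv w hcls hwY
  have hj : ∀ j : ℕ, Measurable[(W.D p q lam h).m] fun x => w (W.T^[j] x) * conj (w x) := by
    intro j
    induction j with
    | zero =>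
      have e : (fun x => w (W.T^[0] x) * conj (w x)) = fun _ => (1 : ℂ) := funext hwc
      rw [e]
      exact @measurable_const _ _ _ (W.D p q lam h).m _
    | succ j ih =>
      have e : (fun x => w (W.T^[j + 1] x) * conj (w x)) =
          fun x => (w (W.T^[j] (W.T x)) * conj (w (W.T x))) * (w (W.T x) * conj (w x)) := by
        funext x
        rw [Function.iterate_succ_apply]
        calc w (W.T^[j] (W.T x)) * conj (w x) = w (W.T^[j] (W.T x)) * conj (w x) * (w (W.T x) * conj (w (W.T x))) := by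
              rw [hwc, mul_one]
          _ = _ := by ring
      rw [e]
      exact (ih.comp hTD).mul hr
  have tele : ∀ (n : ℕ) (x : TX κ), v (W.T^[n] x) * conj (v x) = ∏ j ∈ range n, w (W.T^[j] x) := by
    intro n x
    induction n with
    | zero => simpa using hcc x
    | succ n ih =>
      rw [prod_range_succ, ← ih, hwx, Function.iterate_succ_apply']
      calc v (W.T (W.T^[n] x)) * conj (v x) = v (W.T (W.T^[n] x)) * conj (v x) * (v (W.T^[n] x) * conj (v (W.T^[n] x))) := by
            rw [hcc, mul_one]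
        _ = _ := by ring
  have hpow : Measurable[(W.D p q lam h).m] fun x => w x ^ p := by
    have e : (fun x => w x ^ p) = fun x => (v (W.T^[p] x) * conj (v x)) * conj (∏ j ∈ range p, (w (W.T^[j] x) * conj (w x))) := by
      funext x
      rw [prod_mul_distrib, prod_const, card_range, ← tele p x]
      simp only [map_mul, map_pow, Complex.conj_conj]
      have h1 := hcc x
      have h2 := hcc (W.T^[p] x)
      calc w x ^ p = (v x * conj (v x)) * (v (W.T^[p] x) * conj (v (W.T^[p] x))) * w x ^ p := by rw [h1, h2]; ring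
        _ = _ := by ring
    rw [e]
    exact hv.ratio.mul (Complex.continuous_conj.measurable.comp (Finset.measurable_prod _ fun j _ => hj j))
  refine hL.sat w hcls hwY ⟨p, fun h1 => ?_, ?_⟩
  · exact hJ.ne ((Nat.prime_dvd_prime_iff_eq hJ.qp hJ.pp).1 h1).symm
  · exact hid_fst (Tow.D_le h) hpow

theorem Tow.lv_fac (hW : W.ND) (hJ : W.PJ p q lam) {h : ℕ} (hL : W.Lv p q lam h) :
    Fac (mX κ) W.T (W.D p q lam (h + 1)) := by
  have hTD : @Measurable _ _ (W.D p q lam h).m (W.D p q lam h).m W.T := fac_meas hL.fac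
  have hRD : @Measurable _ _ (W.D p q lam h).m (W.D p q lam h).m W.R := by
    rw [measurable_iff_comap_le, fac_inv hL.fac (Tow.T_R W)]
  have hle : (W.D p q lam h).m ≤ (W.D p q lam (h + 1)).m := Tow.D_mono h
  refine cpl_fac (D := W.D0 p q lam h) (Tow.T_pres W) (Tow.R_pres W) (Tow.T_R W) (Tow.R_T W) ?_ ?_
  · have key : (W.D0 p q lam h).m ≤ (W.D p q lam (h + 1)).m.map W.T := by
      refine sup_le (fun s hs => hle _ (hTD hs)) (iSup_le fun v => ?_)
      rintro _ ⟨K, hK, rfl⟩
      have hv : v.1 ∈ W.SS p q lam h (W.D p q lam h) := v.2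
      have e : (fun x => v.1 (W.T x)) = fun x => (v.1 (W.T x) * conj (v.1 x)) * v.1 x := by
        funext x
        calc v.1 (W.T x) = v.1 (W.T x) * (v.1 x * conj (v.1 x)) := by rw [AH.unim_mul _ (hv.1.norm x), mul_one]
          _ = _ := by ring
      have h1 : Measurable[(W.D p q lam (h + 1)).m] fun x => v.1 (W.T x) := by
        rw [e]
        exact ((Tow.triv_up hW hJ hL hv.1 hv.2.1).mono hle le_rfl).mul (Tow.D_mem hv)
      exact h1 hK
    exact fun s hs => key s hs
  · have key : (W.D0 p q lam h).m ≤ (W.D p q lam (h + 1)).m.map W.R := by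
      refine sup_le (fun s hs => hle _ (hRD hs)) (iSup_le fun v => ?_)
      rintro _ ⟨K, hK, rfl⟩
      have hv : v.1 ∈ W.SS p q lam h (W.D p q lam h) := v.2
      have h0 := (Tow.triv_up hW hJ hL hv.1 hv.2.1).comp hRD
      have e : (fun x => v.1 (W.R x)) = fun x => conj (v.1 (W.T (W.R x)) * conj (v.1 (W.R x))) * v.1 x := by
        funext x
        rw [Tow.T_R, map_mul, Complex.conj_conj]
        calc v.1 (W.R x) = v.1 (W.R x) * (v.1 x * conj (v.1 x)) := by rw [AH.unim_mul _ (hv.1.norm x), mul_one]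
          _ = _ := by ring
      have h1 : Measurable[(W.D p q lam (h + 1)).m] fun x => v.1 (W.R x) := by
        rw [e]
        exact (Complex.continuous_conj.measurable.comp (h0.mono hle le_rfl)).mul (Tow.D_mem hv)
      exact h1 hK
    exact fun s hs => key s hs

theorem Tow.Y_zero_le : (W.Y 0).m ≤ (W.D p q lam 0).m := by
  refine cpl_mono (D := W.Y0 0) (D' := ⟨⊥⟩) (iSup_le fun i => ?_)
  exact absurd i.2 (Nat.not_lt_zero _)

theorem Tow.lv_zero (_hW : W.ND) (_hJ : W.PJ p q lam) : W.Lv p q lam 0 := by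
  have hbot : ∀ (S : TX κ → TX κ) (s : Set (TX κ)), MeasurableSet[(⊥ : MeasurableSpace (TX κ))] s →
      MeasurableSet[(cpl (mX κ) ⟨⊥⟩).m] (S ⁻¹' s) := by
    intro S s hs
    rcases MeasurableSpace.measurableSet_bot_iff.1 hs with rfl | rfl
    · rw [Set.preimage_empty]
      exact @MeasurableSet.empty _ (cpl (mX κ) ⟨⊥⟩).m
    · rw [Set.preimage_univ]
      exact @MeasurableSet.univ _ (cpl (mX κ) ⟨⊥⟩).m
  refine ⟨?_, fun v _ hY _ => hY.mono Tow.Y_zero_le le_rfl, fun v _ hY => ?_⟩
  · exact cpl_fac (D := ⟨⊥⟩) (Tow.T_pres W) (Tow.R_pres W) (Tow.T_R W) (Tow.R_T W) (hbot _) (hbot _)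
  · have h1 : Measurable[(W.Y 0).m] fun x => v (W.T x) * conj (v x) :=
      (hY.comp (fac_meas (Tow.Y_fac W 0))).mul (Complex.continuous_conj.measurable.comp hY)
    exact h1.mono Tow.Y_zero_le le_rfl

/-! ### density -/

theorem Tow.lv_dens' (hq : q.Prime) {h : ℕ} {f : TX κ → ℂ} (hf : Integrable f (mX κ))
    (h0 : ∀ v ∈ W.SS p q lam h (W.D p q lam h), ce (mX κ) (W.D p q lam h) (fun x => f x * conj (v x)) =ᵐ[mX κ] 0) :
    ce (mX κ) (W.D p q lam (h + 1)) f =ᵐ[mX κ] 0 := by
  refine dens_ce (A := W.D p q lam h) (G := W.SS p q lam h (W.D p q lam h)) (Tow.D_le h) (fun v hv => hv.1.meas)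
    (fun v hv => hv.1.norm) (Tow.ss_one hq h) (fun v hv w hw => Tow.ss_mul hq h hv hw) (fun v hv => Tow.ss_conj h hv) hf
    (fun v hv => ?_) le_rfl
  have h1 := h0 _ (Tow.ss_conj h hv)
  simpa only [Complex.conj_conj] using h1

theorem Tow.lv_dens (_hW : W.ND) (hJ : W.PJ p q lam) {h : ℕ} (_hL : W.Lv p q lam h) {f : TX κ → ℂ} (hf : Bd f)
    (h0 : ∀ v ∈ W.SS p q lam h (W.D p q lam h), ce (mX κ) (W.D p q lam h) (fun x => f x * conj (v x)) =ᵐ[mX κ] 0) :
    ce (mX κ) (W.D p q lam (h + 1)) f =ᵐ[mX κ] 0 := Tow.lv_dens' hJ.qp hf.bm.integrable h0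

theorem Tow.pure (hW : W.ND) (hJ : W.PJ p q lam) {h : ℕ} (_hL : W.Lv p q lam h) {v : TX κ → ℂ}
    (hv : Cls W.T^[p] (W.D p q lam h) v) (hY : Measurable[(W.Y (h + 1)).m] v) : ∃ m, W.On h m ∧ W.Mode h m v :=
  Tow.pure' hW hJ.pp.pos hv hY

/-- the classes of `S_h` on the first factor -/
def Tow.SF (W : Tow κ) (p q : ℕ) (lam : Measure (TX κ × TX κ)) (h : ℕ) : Set (TX κ × TX κ → ℂ) :=
  {g | ∃ c ∈ W.SS p q lam h (W.D p q lam h), g = fun z => c z.1}

/-- `D_(h+1) ∨ Y'` is generated by `D_h ∨ Y'` and the classes -/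
theorem Tow.hid_gen (hW : W.ND) (hJ : W.PJ p q lam) (h : ℕ) : (hid lam (W.D p q lam (h + 1))).m ≤
    (cpl lam ⟨(hid lam (W.D p q lam h)).m ⊔ ⨆ g : W.SF p q lam h, MeasurableSpace.comap g.1 inferInstance⟩).m := by
  set E : SA (TX κ × TX κ) := ⟨(hid lam (W.D p q lam h)).m ⊔ ⨆ g : W.SF p q lam h, MeasurableSpace.comap g.1 inferInstance⟩
    with hE
  have hEle : E.m ≤ (inferInstance : MeasurableSpace (TX κ × TX κ)) := by
    refine sup_le (cpl_le _) (iSup_le fun g => ?_)
    obtain ⟨c, hc, hg⟩ := g.2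
    rw [hg]
    exact (hc.1.meas.comp measurable_fst).comap_le
  have h1 : (hid0 (W.D p q lam (h + 1))).m ≤ (cpl lam E).m := by
    refine sup_le ?_ ?_
    · rintro _ ⟨s, hs, rfl⟩
      obtain ⟨a, t, ht, hst⟩ := cpl_iff.1 (show MeasurableSet[(cpl (mX κ) (W.D0 p q lam h)).m] s from hs)
      have h2 : MeasurableSet[E.m] (Prod.fst ⁻¹' t) := by
        have h3 : (W.D0 p q lam h).m.comap Prod.fst ≤ E.m := by
          show ((W.D p q lam h).m ⊔ ⨆ v : W.SS p q lam h (W.D p q lam h), MeasurableSpace.comap v.1 inferInstance).comap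
            Prod.fst ≤ E.m
          rw [MeasurableSpace.comap_sup, MeasurableSpace.comap_iSup]
          refine sup_le ?_ (iSup_le fun v => ?_)
          · refine le_trans ?_ (le_sup_left : (hid lam (W.D p q lam h)).m ≤ E.m)
            exact le_trans le_sup_left (le_cpl (hid0_le (Tow.D_le h)))
          · rw [MeasurableSpace.comap_comp]
            refine le_trans ?_ (le_sup_right : (⨆ g : W.SF p q lam h, MeasurableSpace.comap g.1 inferInstance) ≤ E.m)
            exact le_iSup (fun g : W.SF p q lam h => MeasurableSpace.comap g.1 inferInstance)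
              ⟨fun z => v.1 z.1, v.1, v.2, rfl⟩
        exact h3 _ ⟨t, ht, rfl⟩
      exact cpl_iff.2 ⟨measurable_fst a, _, h2, (hJ.fst hW).quasiMeasurePreserving.preimage_ae_eq hst⟩
    · refine le_trans ?_ (le_cpl hEle)
      refine le_trans ?_ (le_sup_left : (hid lam (W.D p q lam h)).m ≤ E.m)
      exact le_trans le_sup_right (le_cpl (hid0_le (Tow.D_le h)))
  have h2 := cpl_mono (μ := lam) (D := hid0 (W.D p q lam (h + 1))) (D' := cpl lam E) h1
  rw [cpl_cpl] at h2
  exact h2

theorem Cls.pow {X : Type} [MeasurableSpace X] {S : X → X} {D : SA X} {v : X → ℂ} (hv : Cls S D v) (n : ℕ) :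
    Cls S D fun x => v x ^ n := by
  refine ⟨hv.meas.pow_const n, fun x => by rw [norm_pow, hv.norm, one_pow], ?_⟩
  have e : (fun x => v (S x) ^ n * conj (v x ^ n)) = fun x => (v (S x) * conj (v x)) ^ n := by
    funext x
    rw [map_pow, mul_pow]
  rw [e]
  exact hv.ratio.pow_const n

theorem Tow.cls_fst {D : SA (TX κ)} (hD : D.m ≤ MeasurableSpace.pi) {v : TX κ → ℂ} (hv : Cls W.T^[p] D v) :
    Cls (Prod.map W.T^[p] W.T^[q]) (hid lam D) fun z : TX κ × TX κ => v z.1 :=
  ⟨hv.meas.comp measurable_fst, fun z => hv.norm z.1, hid_fst hD hv.ratio⟩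

/-- (c3) -/
theorem Tow.sat_up (hW : W.ND) (hJ : W.PJ p q lam) {h : ℕ} (hL : W.Lv p q lam h) (hP : W.Pur p q lam h) :
    W.Sat p q lam (h + 1) := by
  rintro v hv hY ⟨n, hn, hvn⟩
  have hpr := hJ.prob
  obtain ⟨m, hm, v1, hv1, hM, hd⟩ := hP v hv hY
  obtain ⟨u, hu⟩ : ∃ u : TX κ × TX κ → ℂ, u = fun z => v1 z.1 ^ n := ⟨_, rfl⟩
  have huc : Cls (Prod.map W.T^[p] W.T^[q]) (hid lam (W.D p q lam h)) u := by
    rw [hu]
    exact (Tow.cls_fst (q := q) (lam := lam) (Tow.D_le h) hv1).pow n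
  have hum : Measurable[(hid lam (W.D p q lam (h + 1))).m] u := by
    have h1 : Measurable[(hid lam (W.D p q lam (h + 1))).m] fun z : TX κ × TX κ => v z.1 * conj (v1 z.1) :=
      hid_fst (Tow.D_le (h + 1)) hd
    have e : u = fun z => v z.1 ^ n * conj ((v z.1 * conj (v1 z.1)) ^ n) := by
      funext z
      rw [hu]
      dsimp only
      rw [map_pow, map_mul, Complex.conj_conj, ← mul_pow]
      congr 1
      calc v1 z.1 = (v z.1 * conj (v z.1)) * v1 z.1 := by rw [AH.unim_mul _ (hv.norm z.1), one_mul]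
        _ = _ := by ring
    rw [e]
    exact hvn.mul (Complex.continuous_conj.measurable.comp (h1.pow_const n))
  obtain ⟨c, hc, hne⟩ : ∃ c ∈ W.SS p q lam h (W.D p q lam h),
      ¬ ce lam (hid lam (W.D p q lam h)) (fun z => u z * conj (c z.1)) =ᵐ[lam] 0 := by
    by_contra hno
    push Not at hno
    have h1 : ce lam (hid lam (W.D p q lam (h + 1))) u =ᵐ[lam] 0 := by
      refine dens_ce (A := hid lam (W.D p q lam h)) (G := W.SF p q lam h) (cpl_le _) ?_ ?_ ?_ ?_ ?_
        huc.bm.integrable ?_ (Tow.hid_gen hW hJ h)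
      · rintro _ ⟨c, hc, rfl⟩
        exact hc.1.meas.comp measurable_fst
      · rintro _ ⟨c, hc, rfl⟩ z
        exact hc.1.norm z.1
      · exact ⟨_, Tow.ss_one hJ.qp h, rfl⟩
      · rintro _ ⟨c, hc, rfl⟩ _ ⟨c', hc', rfl⟩
        exact ⟨_, Tow.ss_mul hJ.qp h hc hc', rfl⟩
      · rintro _ ⟨c, hc, rfl⟩
        exact ⟨_, Tow.ss_conj h hc, rfl⟩
      · rintro _ ⟨c, hc, rfl⟩
        have h2 := hno _ (Tow.ss_conj h hc)
        simpa only [Complex.conj_conj] using h2
    have h2 : ce lam (hid lam (W.D p q lam (h + 1))) u = u :=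
      condExp_of_stronglyMeasurable (cpl_le _) hum.stronglyMeasurable huc.bm.integrable
    rw [h2] at h1
    obtain ⟨z, hz⟩ := h1.exists
    have h3 := huc.norm z
    rw [hz] at h3
    simp at h3
  have hcF := Tow.cls_fst (q := q) (lam := lam) (Tow.D_le h) hc.1
  have h1 : Measurable[(hid lam (W.D p q lam h)).m] fun z => u z * conj (c z.1) :=
    dich hJ.sysU (hJ.hid_fac hL.fac) (huc.mul_conj hcF) hne
  obtain ⟨n', hn', hcn⟩ := hc.2.2
  have hmem : v1 ∈ W.SS p q lam h (W.D p q lam h) := by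
    refine ⟨hv1, Tow.Mode_Y hm hM, n * n', fun h2 => (hJ.qp.dvd_mul.1 h2).elim hn hn', ?_⟩
    have e : (fun z : TX κ × TX κ => v1 z.1 ^ (n * n')) = fun z => (u z * conj (c z.1)) ^ n' * c z.1 ^ n' := by
      funext z
      rw [← mul_pow, pow_mul]
      congr 1
      have h2 : u z = v1 z.1 ^ n := by rw [hu]
      rw [h2]
      calc v1 z.1 ^ n = v1 z.1 ^ n * (c z.1 * conj (c z.1)) := by rw [AH.unim_mul _ (hc.1.norm z.1), mul_one]
        _ = _ := by ring
    rw [e]
    exact (h1.pow_const n').mul hcn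
  have h3 := Tow.D_mem hmem
  have e : v = fun x => (v x * conj (v1 x)) * v1 x := by
    funext x
    calc v x = v x * (v1 x * conj (v1 x)) := by rw [AH.unim_mul _ (hv1.norm x), mul_one]
      _ = _ := by ring
  rw [e]
  exact hd.mul h3

theorem Tow.lv_step (hW : W.ND) (hJ : W.PJ p q lam) {h : ℕ} (hL : W.Lv p q lam h) (hP : W.Pur p q lam h) :
    W.Lv p q lam (h + 1) := by
  have hF := Tow.lv_fac hW hJ hL
  refine ⟨hF, Tow.sat_up hW hJ hL hP, fun v hv hY => ?_⟩
  obtain ⟨m, hm, v1, hv1, hM, hd⟩ := hP v hv hY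
  have h1 := (Tow.triv_up hW hJ hL hv1 (Tow.Mode_Y hm hM)).mono (Tow.D_mono (lam := lam) (p := p) (q := q) h) le_rfl
  have e : (fun x => v (W.T x) * conj (v x)) = fun x => ((v (W.T x) * conj (v1 (W.T x))) * conj (v x * conj (v1 x))) *
      (v1 (W.T x) * conj (v1 x)) := by
    funext x
    simp only [map_mul, Complex.conj_conj]
    calc v (W.T x) * conj (v x) = v (W.T x) * conj (v x) * (v1 x * conj (v1 x)) * (v1 (W.T x) * conj (v1 (W.T x))) := by
          rw [AH.unim_mul _ (hv1.norm x), AH.unim_mul _ (hv1.norm _), mul_one, mul_one]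
      _ = _ := by ring
  rw [e]
  exact ((hd.comp (fac_meas hF)).mul (Complex.continuous_conj.measurable.comp hd)).mul h1

end Pool.Agent.Lib.MP_9fe581_an.AP
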