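import Pool.Agent.Lib.MP_9fe581_an.AP.D2

/-!
# AP, D3: what part D provides
-/

set_option autoImplicit false
set_option linter.unusedSectionVars false
set_option warn.classDefReducibility false

open Finset MeasureTheory Filter Topology ProbabilityTheory
open scoped ComplexConjugate

namespace Pool.Agent.Lib.MP_9fe581_an.AP

open HT (TX mX ch)
open AH (BM)

variable {κ : Type} [Fintype κ] {W : Tow κ} {p q : ℕ} {lam : Measure (TX κ × TX κ)}

/-- the tower property -/
theorem ce_tower {X : Type} [mX0 : MeasurableSpace X] {μ : Measure X} [IsProbabilityMeasure μ] {D D' : SA X} (h : D.m ≤ D'.m)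
    (hD' : D'.m ≤ mX0) (f : X → ℂ) : ce μ D (ce μ D' f) =ᵐ[μ] ce μ D f := condExp_condExp_of_le h hD'

/-- `D_(h+1)` and `Y_h` are relatively independent over `D_h` -/
theorem Tow.ri (hW : W.ND) (hJ : W.PJ p q lam) {h : ℕ} (hL : W.Lv p q lam h) {f : TX κ → ℂ} (hf : Bd f)
    (hY : Measurable[(W.Y h).m] f) : ce (mX κ) (W.D p q lam (h + 1)) f =ᵐ[mX κ] ce (mX κ) (W.D p q lam h) f := by
  have hS := Tow.sys hW hJ.pp.pos
  have hFY : Fac (mX κ) W.T^[p] (W.Y h) := (Tow.Y_fac W h).iter p
  obtain ⟨g, g1, g2, g3⟩ := ce_rep (μ := mX κ) (D := W.D p q lam h) (Tow.D_le h) hf.bm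
  have hgY : Measurable[(W.Y h).m] g := g1.mono (Tow.low' h) le_rfl
  have hfg : BM (mX κ) fun x => f x - g x := hf.bm.sub g2.bm
  have h0 : ce (mX κ) (W.D p q lam h) (fun x => f x - g x) =ᵐ[mX κ] 0 := by
    have h1 := ce_sub (μ := mX κ) (D := W.D p q lam h) hf.bm g2.bm
    have h2 : ce (mX κ) (W.D p q lam h) g = g := condExp_of_stronglyMeasurable (Tow.D_le h) g1.stronglyMeasurable g2.bm.integrable
    filter_upwards [h1, g3] with x a b
    rw [a, h2, b, sub_self]
    rfl
  have key : ce (mX κ) (W.D p q lam (h + 1)) (fun x => f x - g x) =ᵐ[mX κ] 0 := by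
    refine Tow.lv_dens' hJ.qp hfg.integrable fun v hv => ?_
    by_cases hvY : Measurable[(W.Y h).m] v
    · have hvD := hL.sat v hv.1 hvY hv.2.2
      refine (ce_pull (Tow.D_le h) hfg hv.1.bm.conj (Complex.continuous_conj.measurable.comp hvD)).trans ?_
      filter_upwards [h0] with x hx
      rw [hx]
      simp
    · have h1 : ce (mX κ) (W.Y h) v =ᵐ[mX κ] 0 := by
        by_contra hne
        exact hvY (dich hS hFY (hv.1.mono (Tow.low' h)) hne)
      have h2 : ce (mX κ) (W.Y h) (fun x => conj (v x)) =ᵐ[mX κ] 0 := by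
        filter_upwards [ce_conj (μ := mX κ) (Tow.Y_le W h) hv.1.bm.integrable, h1] with x a b
        rw [a, b]
        simp
      have h3 : ce (mX κ) (W.Y h) (fun x => conj (v x) * (f x - g x)) =ᵐ[mX κ] 0 := by
        refine (ce_pull (Tow.Y_le W h) hv.1.bm.conj hfg (hY.sub hgY)).trans ?_
        filter_upwards [h2] with x hx
        rw [hx]
        simp
      have e : (fun x => (f x - g x) * conj (v x)) = fun x => conj (v x) * (f x - g x) := funext fun x => mul_comm _ _
      rw [e]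
      refine (ce_tower (Tow.low' h) (Tow.Y_le W h) _).symm.trans ((ce_congr h3).trans ?_)
      exact ce_zero
  have h4 := ce_sub (μ := mX κ) (D := W.D p q lam (h + 1)) hf.bm g2.bm
  have h5 : ce (mX κ) (W.D p q lam (h + 1)) g = g := condExp_of_stronglyMeasurable (Tow.D_le (h + 1))
    (g1.mono (Tow.D_mono h) le_rfl).stronglyMeasurable g2.bm.integrable
  filter_upwards [key, h4, g3] with x a b c
  rw [b, h5] at a
  rw [← c]
  exact sub_eq_zero.1 a

/-- Bessel's inequality for hidden classes -/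
theorem Tow.bessel (hW : W.ND) (hJ : W.PJ p q lam) {h : ℕ} (hL : W.Lv p q lam h) {f : TX κ → ℂ} (hf : Bd f) (n : ℕ)
    (v : Fin n → TX κ → ℂ) (hv : ∀ i, v i ∈ W.SS p q lam h (W.D p q lam h))
    (hne : ∀ i j, i ≠ j → ¬ Measurable[(W.D p q lam h).m] fun x => v i x * conj (v j x)) :
    ∑ i, Esq (W.D p q lam h) (fun x => f x * conj (v i x)) ≤ Esq (W.D p q lam (h + 1)) f := by
  have hS := Tow.sys hW hJ.pp.pos
  have hF : Fac (mX κ) W.T^[p] (W.D p q lam h) := hL.fac.iter p
  obtain ⟨f', f1, f2, f3⟩ := ce_rep (μ := mX κ) (D := W.D p q lam (h + 1)) (Tow.D_le (h + 1)) hf.bm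
  choose g g1 g2 g3 using fun i => ce_rep (μ := mX κ) (D := W.D p q lam h) (f := fun x => f' x * conj (v i x)) (Tow.D_le h)
    (f2.bm.mul (hv i).1.bm.conj)
  have hFam : Fam (mX κ) W.T^[p] (W.D p q lam h) f' v g := ⟨fun i => (hv i).1, hne, g1, g2, g3⟩
  have h1 := fam_bessel hS hF f2 hFam univ
  have h2 : ∀ i, Esq (W.D p q lam h) (fun x => f x * conj (v i x)) = nsq (mX κ) (g i) := by
    intro i
    refine nsq_congr ?_
    refine Filter.EventuallyEq.trans ?_ (g3 i).symm
    have h3 : ce (mX κ) (W.D p q lam (h + 1)) (fun x => f x * conj (v i x)) =ᵐ[mX κ] fun x => f' x * conj (v i x) := by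
      refine (ce_pull (Tow.D_le (h + 1)) hf.bm (hv i).1.bm.conj
        (Complex.continuous_conj.measurable.comp (Tow.D_mem (hv i)))).trans ?_
      filter_upwards [f3] with x hx
      rw [hx]
    exact (ce_tower (Tow.D_mono h) (Tow.D_le (h + 1)) _).symm.trans (ce_congr h3)
  have h3 : Esq (W.D p q lam (h + 1)) f = nsq (mX κ) f' := nsq_congr f3.symm
  rw [h3, sum_congr rfl fun i _ => h2 i]
  exact h1

/-! ### rotations -/

/-- the rotation by `b` -/
def rot (b : TX κ) (x : TX κ) : TX κ := x + b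

theorem rot_pres (b : TX κ) : MeasurePreserving (rot b) (mX κ) (mX κ) := measurePreserving_add_right (mX κ) b

/-- functions of level `< h` do not see rotations of level `h` -/
theorem Tow.rot_Y {h : ℕ} {b : TX κ} (hb : W.OnT h b) {f : TX κ → ℂ} (hf : Bd f) (hY : Measurable[(W.Y h).m] f) :
    (fun x => f (rot b x)) =ᵐ[mX κ] f := by
  classical
  have h1 := Tow.low_of_Y W hf hY
  have h2 := (rot_pres b).quasiMeasurePreserving.ae h1
  filter_upwards [h1, h2] with x a c
  rw [a, c]
  refine AH.AV_low W.ah h f _ _ fun i hi => ?_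
  show x i + b i = x i
  have : b i = 0 := by
    by_contra h0
    have := hb i h0
    have hi' : W.lev i < h := hi
    omega
  rw [this, add_zero]

theorem Tow.rot_Yset {h : ℕ} {b : TX κ} (hb : W.OnT h b) {s : Set (TX κ)} (hs : MeasurableSet[(W.Y h).m] s) :
    rot b ⁻¹' s =ᵐ[mX κ] s := by
  obtain ⟨-, t, ht, hst⟩ := cpl_iff.1 (show MeasurableSet[(cpl (mX κ) (W.Y0 h)).m] s from hs)
  have h1 := (rot_pres b).quasiMeasurePreserving.preimage_ae_eq hst
  have h2 : rot b ⁻¹' t = t := by
    ext x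
    refine Tow.low_of_Y0 W ht fun i hi => ?_
    show x i + b i = x i
    have : b i = 0 := by
      by_contra h0
      have := hb i h0
      omega
    rw [this, add_zero]
  rw [h2] at h1
  exact h1.trans hst.symm

theorem rot_ch (m : κ →₀ ℤ) (b x : TX κ) : ch m (rot b x) = ch m x * ch m b := by
  show FT.ec (FT.pr m (x + b)) = FT.ec (FT.pr m x) * FT.ec (FT.pr m b)
  rw [FT.pr_add_right, FT.ec_add]

theorem Tow.rot_mode {h : ℕ} {b : TX κ} (hb : W.OnT h b) {m : κ →₀ ℤ} {f : TX κ → ℂ} (hf : Bd f) (hM : W.Mode h m f) :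
    (fun x => f (rot b x)) =ᵐ[mX κ] fun x => ch m b * f x := by
  obtain ⟨C, hC⟩ := hf.bdd
  have hF : Bd fun x => conj (ch m x) * f x := by
    refine ⟨(Complex.continuous_conj.measurable.comp (FT.continuous_ec.comp (FT.continuous_pr m)).measurable).mul hf.meas, C,
      fun x => ?_⟩
    have h1 : ‖ch m x‖ = 1 := FT.norm_ec _
    rw [norm_mul, RCLike.norm_conj, h1, one_mul]
    exact hC x
  filter_upwards [Tow.rot_Y hb hF hM] with x hx
  have hc : ∀ y, ch m y * conj (ch m y) = 1 := fun y => AH.unim_mul _ (FT.norm_ec _)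
  have h1 : f (rot b x) = ch m (rot b x) * (conj (ch m (rot b x)) * f (rot b x)) := by
    rw [← mul_assoc, hc, one_mul]
  rw [h1, hx, rot_ch]
  calc ch m x * ch m b * (conj (ch m x) * f x) = ch m b * ((ch m x * conj (ch m x)) * f x) := by ring
    _ = ch m b * f x := by rw [hc, one_mul]

/-- `D_(h+1)` is invariant under the rotations of level `h` -/
theorem Tow.rot_fac (hW : W.ND) (hJ : W.PJ p q lam) {h : ℕ} {b : TX κ} (hb : W.OnT h b) :
    Fac (mX κ) (rot b) (W.D p q lam (h + 1)) := by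
  have key : ∀ c : TX κ, W.OnT h c → ∀ s, MeasurableSet[(W.D0 p q lam h).m] s →
      MeasurableSet[(cpl (mX κ) (W.D0 p q lam h)).m] (rot c ⁻¹' s) := by
    intro c hc
    have h1 : (W.D0 p q lam h).m ≤ (cpl (mX κ) (W.D0 p q lam h)).m.map (rot c) := by
      refine sup_le (fun s hs => ?_) (iSup_le fun v => ?_)
      · refine cpl_iff.2 ⟨(rot_pres c).measurable (Tow.D_le h s hs), s,
          (le_sup_left : (W.D p q lam h).m ≤ (W.D0 p q lam h).m) s hs, ?_⟩
        exact Tow.rot_Yset hc (Tow.low' h s hs)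
      · rintro _ ⟨K, hK, rfl⟩
        have hv : v.1 ∈ W.SS p q lam h (W.D p q lam h) := v.2
        obtain ⟨m, hm, hM⟩ := Tow.pure' hW hJ.pp.pos hv.1 hv.2.1
        have h2 := Tow.rot_mode hc ⟨hv.1.meas, 1, fun x => (hv.1.norm x).le⟩ hM
        have h3 : Measurable[(W.D0 p q lam h).m] v.1 := by
          rw [measurable_iff_comap_le]
          exact le_trans (le_iSup (fun v : W.SS p q lam h (W.D p q lam h) => MeasurableSpace.comap v.1 inferInstance) v)
            le_sup_right
        have h4 : Measurable[(cpl (mX κ) (W.D0 p q lam h)).m] fun x => v.1 (rot c x) :=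
          cpl_of_ae (hv.1.meas.comp (rot_pres c).measurable) (h3.const_mul (ch m c)) h2
        exact h4 hK
    exact fun s hs => h1 s hs
  refine cpl_fac (D := W.D0 p q lam h) (R := rot (-b)) (rot_pres b) (rot_pres (-b)) (fun x => ?_) (fun x => ?_) (key b hb)
    (key (-b) fun i hi => hb i fun h0 => hi ?_)
  · show x + -b + b = x
    rw [neg_add_cancel_right]
  · show x + b + -b = x
    rw [add_neg_cancel_right]
  · show -b i = 0
    rw [h0, neg_zero]

/-- a rotation that separates two modes -/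
theorem Tow.exists_rot {h : ℕ} {m m' : κ →₀ ℤ} (hm : W.On h m) (hm' : W.On h m') (hne : m ≠ m') :
    ∃ b : TX κ, W.OnT h b ∧ ch m b * conj (ch m' b) = -1 := by
  classical
  obtain ⟨i, hi⟩ : ∃ i, m i ≠ m' i := by
    by_contra h0
    push Not at h0
    exact hne (Finsupp.ext h0)
  have hlev : W.lev i = h := by
    by_cases h0 : m i = 0
    · refine hm' i fun h1 => hi ?_
      rw [h0, h1]
    · exact hm i h0
  obtain ⟨t, ht⟩ := AH.avg_half ((m + -m') i) (by
    rw [Finsupp.add_apply, Finsupp.neg_apply]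
    omega)
  refine ⟨Pi.single i t, fun l hl => ?_, ?_⟩
  · by_cases hli : l = i
    · rw [hli]
      exact hlev
    · exact (hl (by rw [Pi.single_eq_of_ne hli])).elim
  · have h1 : ch (m + -m') (Pi.single i t : TX κ) = -1 := by
      show FT.ec (FT.pr (m + -m') (Pi.single i t)) = -1
      rw [FT.pr_single, ht]
    rw [HT.ch_add, HT.ch_neg] at h1
    exact h1

/-- different modes stay orthogonal -/
theorem Tow.orth (hW : W.ND) (hJ : W.PJ p q lam) {h : ℕ} {m m' : κ →₀ ℤ} (hm : W.On h m) (hm' : W.On h m')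
    (hne : m ≠ m') {f g : TX κ → ℂ} (hf : Bd f) (hg : Bd g) (hM : W.Mode h m f) (hM' : W.Mode h m' g) :
    ∫ x, ce (mX κ) (W.D p q lam (h + 1)) f x * conj (ce (mX κ) (W.D p q lam (h + 1)) g x) ∂mX κ = 0 := by
  obtain ⟨b, hb, hb1⟩ := Tow.exists_rot hm hm' hne
  have hR := Tow.rot_fac hW hJ hb (lam := lam)
  have key : ∀ (k : κ →₀ ℤ) (F : TX κ → ℂ), Bd F → W.Mode h k F →
      (fun x => ce (mX κ) (W.D p q lam (h + 1)) F (rot b x)) =ᵐ[mX κ] fun x => ch k b * ce (mX κ) (W.D p q lam (h + 1)) F x := by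
    intro k F hF hk
    have h1 := hR.ce_comp (rot_pres b) hF.bm.integrable
    have h2 := ce_congr (D := W.D p q lam (h + 1)) (Tow.rot_mode hb hF hk)
    have h3 := ce_smul (μ := mX κ) (D := W.D p q lam (h + 1)) (ch k b) F
    exact h1.symm.trans (h2.trans h3)
  set F := ce (mX κ) (W.D p q lam (h + 1)) f with hFd
  set G := ce (mX κ) (W.D p q lam (h + 1)) g with hGd
  have hFb : BM (mX κ) F := ce_bm hf.bm
  have hGb : BM (mX κ) G := ce_bm hg.bm
  have h1 := integral_map (μ := mX κ) (rot_pres b).measurable.aemeasurable (f := fun x => F x * conj (G x))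
    (by rw [(rot_pres b).map_eq]; exact (hFb.mul hGb.conj).1)
  rw [(rot_pres b).map_eq] at h1
  have h2 : ∫ x, F (rot b x) * conj (G (rot b x)) ∂mX κ = -∫ x, F x * conj (G x) ∂mX κ := by
    rw [← integral_neg]
    refine integral_congr_ae ?_
    filter_upwards [key m f hf hM, key m' g hg hM'] with x a c
    have a' : F (rot b x) = ch m b * F x := a
    have c' : G (rot b x) = ch m' b * G x := c
    rw [a', c', map_mul]
    calc ch m b * F x * (conj (ch m' b) * conj (G x)) = (ch m b * conj (ch m' b)) * (F x * conj (G x)) := by ring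
      _ = -(F x * conj (G x)) := by rw [hb1]; ring
  exact self_eq_neg.1 (h1.trans h2)

theorem Tow.dp_of (hW : W.ND) (hJ : W.PJ p q lam) (hL : ∀ h, W.Lv p q lam h) : W.DP p q lam where
  fac h := (hL h).fac
  low h s hs := Tow.low W p q lam h s hs
  ri h _ hf hY := Tow.ri hW hJ (hL h) hf hY
  bessel h _ _ _ hf _ n v hv _ hne := Tow.bessel hW hJ (hL h) hf n v hv hne
  orth _ _ _ hm hm' hne _ _ hf hg hM hM' := Tow.orth hW hJ hm hm' hne hf hg hM hM'
  dens h _ hf h0 := Tow.lv_dens hW hJ (hL h) hf h0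

end Pool.Agent.Lib.MP_9fe581_an.AP
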