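import Pool.Agent.Lib.MP_9fe581_an.AP.D3

/-! # AP: part D is complete: D1, D2, D3 -/
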