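import Pool.Agent.Lib.MP_9fe581_an.HT.Defs

/-!
# AP: towers of torus extensions of all heights, arbitrary continuous cocycles: definitions

A sub-σ-algebra is a term `D : SA X` (a structure, so that it is never found as an instance), its σ-algebra is `D.m`.
All sub-σ-algebras in use contain the Borel null sets, so that for Borel functions `Measurable[D.m] f` is a property of
the class of `f` modulo null sets.
-/

set_option autoImplicit false
set_option warn.classDefReducibility false

open Finset MeasureTheory Filter Topology ProbabilityTheory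
open scoped ComplexConjugate

namespace Pool.Agent.Lib.MP_9fe581_an.AP

/-- a σ-algebra as data -/
structure SA (X : Type) where
  m : MeasurableSpace X

/-! ### general systems -/

section General

variable {X : Type} [MeasurableSpace X]

/-- the sub-σ-algebra `D` together with the null sets of the ambient σ-algebra -/
def cpl (μ : Measure X) (D : SA X) : SA X := ⟨inferInstance ⊓ @eventuallyMeasurableSpace X D.m (ae μ) _⟩

/-- an invertible ergodic system -/
structure Sys (μ : Measure X) (S : X → X) : Prop where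
  erg : Ergodic S μ
  inv : ∃ R : X → X, Measurable R ∧ (∀ x, S (R x) = x) ∧ ∀ x, R (S x) = x

/-- an invariant sub-σ-algebra with all null sets -/
structure Fac (μ : Measure X) (S : X → X) (D : SA X) : Prop where
  le : ∀ s, MeasurableSet[D.m] s → MeasurableSet s
  null : ∀ s, MeasurableSet s → μ s = 0 → MeasurableSet[D.m] s
  inv : D.m.comap S = D.m

/-- bounded measurable functions -/
structure Bd (f : X → ℂ) : Prop where
  meas : Measurable f
  bdd : ∃ C : ℝ, ∀ x, ‖f x‖ ≤ C

/-- a class over `D`: unimodular, `v ∘ S / v` is `D`-measurable -/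
structure Cls (S : X → X) (D : SA X) (v : X → ℂ) : Prop where
  meas : Measurable v
  norm : ∀ x, ‖v x‖ = 1
  ratio : Measurable[D.m] fun x => v (S x) * conj (v x)

/-- the conditional expectation `E(f | D)` -/
noncomputable def ce (μ : Measure X) (D : SA X) (f : X → ℂ) : X → ℂ := μ[f | D.m]

/-- `‖f‖²` -/
noncomputable def nsq (μ : Measure X) (f : X → ℂ) : ℝ := ∫ x, ‖f x‖ ^ 2 ∂μ

/-- the energy over `D`: `(1/R) ∑_{r<R} ‖E(f · conj (f ∘ S^r) | D)‖²` -/
noncomputable def energy (μ : Measure X) (S : X → X) (D : SA X) (f : X → ℂ) (R : ℕ) : ℝ :=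
  (1 / (R : ℝ)) * ∑ r ∈ range R, nsq μ (ce μ D fun y => f y * conj (f (S^[r] y)))

end General

/-! ### towers -/

open HT (TX mX ch)

/-- a tower of torus extensions: coordinates `κ` with levels, measurable cocycles -/
structure Tow (κ : Type) where
  lev : κ → ℕ
  ψ : κ → TX κ → UnitAddCircle
  meas : ∀ i, Measurable (ψ i)
  dep : ∀ i x y, (∀ l, lev l < lev i → x l = y l) → ψ i x = ψ i y

variable {κ : Type} [Fintype κ]

/-- the map `x_i ↦ x_i + ψ_i(x)` -/
def Tow.T (W : Tow κ) (x : TX κ) : TX κ := fun i => x i + W.ψ i x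

/-- `m` is supported on the level `h` -/
def Tow.On (W : Tow κ) (h : ℕ) (m : κ →₀ ℤ) : Prop := ∀ i, m i ≠ 0 → W.lev i = h

/-- the translation `b` is supported on the level `h` -/
def Tow.OnT (W : Tow κ) (h : ℕ) (b : TX κ) : Prop := ∀ i, b i ≠ 0 → W.lev i = h

/-- the cocycle of the character `m` -/
noncomputable def Tow.coc (W : Tow κ) (m : κ →₀ ℤ) (x : TX κ) : UnitAddCircle := FT.pr m fun i => W.ψ i x

/-- **the nondegeneracy hypothesis** -/
structure Tow.ND (W : Tow κ) : Prop where
  base : ∀ m : κ →₀ ℤ, m ≠ 0 → W.On 0 m → W.coc m 0 ≠ 0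
  nd : ∀ (j : ℕ) (m : κ →₀ ℤ), m ≠ 0 → W.On (j + 1) m → ∃ b : TX κ, W.OnT j b ∧
    ¬ ∃ g : TX κ → ℂ, Measurable g ∧ (∀ x, ‖g x‖ = 1) ∧ (∀ x y, (∀ i, W.lev i ≤ j → x i = y i) → g x = g y) ∧
      ∀ᵐ x ∂mX κ, FT.ec (W.coc m (x + b) - W.coc m x) * g x = g (W.T x)

/-- functions of the coordinates of level `< h`, modulo null sets -/
noncomputable def Tow.Y (W : Tow κ) (h : ℕ) : SA (TX κ) :=
  cpl (mX κ) ⟨⨆ i : {i : κ // W.lev i < h}, MeasurableSpace.comap (fun x : TX κ => x i.1) inferInstance⟩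

/-- `f` is of mode `m` (`m` on the level `h`): `f = ch m · F`, `F` of level `< h` -/
def Tow.Mode (W : Tow κ) (h : ℕ) (m : κ →₀ ℤ) (f : TX κ → ℂ) : Prop :=
  Measurable[(W.Y h).m] fun x => conj (ch m x) * f x

/-- `D` of the first factor together with the second factor of a joining -/
noncomputable def hid (lam : Measure (TX κ × TX κ)) (D : SA (TX κ)) : SA (TX κ × TX κ) :=
  cpl lam ⟨D.m.comap Prod.fst ⊔ (inferInstance : MeasurableSpace (TX κ)).comap Prod.snd⟩

/-- the second factor -/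
noncomputable def sec (lam : Measure (TX κ × TX κ)) : SA (TX κ × TX κ) :=
  cpl lam ⟨(inferInstance : MeasurableSpace (TX κ)).comap Prod.snd⟩

/-- the classes over `D` of level `≤ h` some prime to `q` power of which is in `D ∨ Y'` -/
def Tow.SS (W : Tow κ) (p q : ℕ) (lam : Measure (TX κ × TX κ)) (h : ℕ) (D : SA (TX κ)) : Set (TX κ → ℂ) :=
  {v | Cls W.T^[p] D v ∧ Measurable[(W.Y (h + 1)).m] v ∧ ∃ m : ℕ, ¬ q ∣ m ∧
    Measurable[(hid lam D).m] fun z : TX κ × TX κ => v z.1 ^ m}

/-- the factors `D_h` -/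
noncomputable def Tow.D (W : Tow κ) (p q : ℕ) (lam : Measure (TX κ × TX κ)) : ℕ → SA (TX κ)
  | 0 => cpl (mX κ) ⟨⊥⟩
  | h + 1 => cpl (mX κ) ⟨(W.D p q lam h).m ⊔
      ⨆ v : W.SS p q lam h (W.D p q lam h), MeasurableSpace.comap v.1 inferInstance⟩

/-- an ergodic joining of `T^p` and `T^q` -/
structure Tow.Jn (W : Tow κ) (p q : ℕ) (lam : Measure (TX κ × TX κ)) : Prop where
  prob : IsProbabilityMeasure lam
  erg : Ergodic (Prod.map W.T^[p] W.T^[q]) lam

/-- `‖E(f | Y')‖²` -/
noncomputable def Jsq (lam : Measure (TX κ × TX κ)) (f : TX κ → ℂ) : ℝ :=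
  nsq lam (ce lam (sec lam) fun z : TX κ × TX κ => f z.1)

/-- `‖E(f | D)‖²` -/
noncomputable def Esq (D : SA (TX κ)) (f : TX κ → ℂ) : ℝ := nsq (mX κ) (ce (mX κ) D f)

end Pool.Agent.Lib.MP_9fe581_an.AP
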