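import Pool.Agent.Lib.MP_9fe581_an.AP.J3
import Pool.Agent.Lib.MP_9fe581_an.AH.Rigid
import Pool.Agent.Lib.MP_9fe581_an.AH.Joins
import Pool.Agent.Lib.MP_9fe581_an.HD.Final

/-!
# AP, Fin: the factors `D_h` contain no small characters; the theorem from the core
-/

set_option autoImplicit false
set_option linter.unusedSectionVars false
set_option warn.classDefReducibility false

open Finset MeasureTheory Filter Topology ProbabilityTheory
open scoped ComplexConjugate

namespace Pool.Agent.Lib.MP_9fe581_an.AP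

open HT (TX mX ch)
open AH (BM)

variable {κ : Type} [Fintype κ] {W : Tow κ} {p q : ℕ} {lam : Measure (TX κ × TX κ)}

theorem ch_nsmul (m : κ →₀ ℤ) (n : ℕ) (x : TX κ) : ch (n • m) x = ch m x ^ n := by
  classical
  induction n with
  | zero => rw [zero_smul, pow_zero, HT.ch_zero]
  | succ n ih => rw [succ_nsmul, pow_succ, HT.ch_add, ih]

/-- `D_0 ∨ Y'` is `Y'` -/
theorem hid_zero (h1 : MeasurePreserving Prod.fst lam (mX κ)) : (hid lam (W.D p q lam 0)).m ≤ (sec lam).m := by
  have h2 : (hid0 (W.D p q lam 0)).m ≤ (sec lam).m := by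
    refine sup_le ?_ ?_
    · rintro _ ⟨s, hs, rfl⟩
      obtain ⟨a, t, ht, hst⟩ := cpl_iff.1 hs
      have ht' : t = ∅ ∨ t = Set.univ := MeasurableSpace.measurableSet_bot_iff.1 ht
      refine cpl_iff.2 ⟨measurable_fst a, Prod.fst ⁻¹' t, ?_, h1.quasiMeasurePreserving.preimage_ae_eq hst⟩
      rcases ht' with rfl | rfl
      · rw [Set.preimage_empty]; exact @MeasurableSet.empty _ (MeasurableSpace.comap Prod.snd inferInstance)
      · rw [Set.preimage_univ]; exact @MeasurableSet.univ _ (MeasurableSpace.comap Prod.snd inferInstance)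
    · exact le_cpl (D := ⟨(inferInstance : MeasurableSpace (TX κ)).comap Prod.snd⟩) measurable_snd.comap_le
  refine le_trans (cpl_mono (D := hid0 (W.D p q lam 0)) (D' := sec lam) h2) (le_of_eq ?_)
  exact cpl_cpl (μ := lam) ⟨(inferInstance : MeasurableSpace (TX κ)).comap Prod.snd⟩

/-- a character of the level `0` that is not divisible by `q` is orthogonal to the second factor -/
theorem Tow.PJ.kron0 (hW : W.ND) (hJ : W.PJ p q lam) {n : κ →₀ ℤ} (hn : W.On 0 n) (hq : ∃ i, ¬ (q : ℤ) ∣ n i) :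
    Jsq lam (ch n) = 0 := by
  classical
  have hpr := hJ.prob
  have hE := hJ.ej hW
  have hN := Tow.nd_ah hW
  rw [hJ.jsq_eq hW (AH.ch_bm n)]
  obtain ⟨g, hg, eg, hr⟩ := hE.rep (AH.ch_bm n)
  have hchlow : ∀ {n : κ →₀ ℤ}, W.On 0 n → ∀ k : ℕ, ∀ x, ch n ((AH.TT W.ah)^[k] x) = ch n (fun i => W.ψ i 0) ^ k * ch n x := by
    intro n hn k x
    induction k generalizing x with
    | zero => simp
    | succ k ih =>
      rw [Function.iterate_succ_apply, ih]
      have e1 : ch n (AH.TT W.ah x) = ch n (fun i => W.ψ i 0) * ch n x := AH.rg_eq0 W.ah hn x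
      rw [e1, pow_succ]; ring
  have hg0 : g =ᵐ[mX κ] 0 := by
    refine AH.hat_zero hg fun n' => ?_
    have e1 : AH.hat g n' = ∫ z, ch n z.1 * conj (ch n' z.2) ∂lam := (hr (ch n') (HT.ch_cont n').measurable (AH.ch_bm n')).symm
    rw [e1]
    by_cases hn' : ∃ i, n' i ≠ 0 ∧ 1 ≤ W.lev i
    · refine AH.filt_swap W.ah hN hJ.qp.pos hE (a := 1) (HT.ch_cont n).measurable (C := 1) (fun x => (HT.ch_norm n x).le) ?_ hn'
      refine AH.ch_low W.ah fun i hi => ?_
      show W.lev i < 1
      rw [hn i hi]; exact one_pos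
    · push Not at hn'
      have hn'0 : W.On 0 n' := fun i hi => Nat.lt_one_iff.1 (hn' i hi)
      by_contra hne
      -- invariance
      have h1 : ∫ z : TX κ × TX κ, ch n (W.T^[p] z.1) * conj (ch n' (W.T^[q] z.2)) ∂lam = ∫ z, ch n z.1 * conj (ch n' z.2) ∂lam := by
        have hU := hJ.erg.toMeasurePreserving
        have h2 := integral_map (μ := lam) (φ := Prod.map W.T^[p] W.T^[q]) (f := fun z : TX κ × TX κ => ch n z.1 * conj (ch n' z.2))
          hU.measurable.aemeasurable (((HT.ch_cont n).measurable.comp measurable_fst).mul (Complex.continuous_conj.measurable.comp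
            ((HT.ch_cont n').measurable.comp measurable_snd))).aestronglyMeasurable
        rw [hU.map_eq] at h2
        exact h2.symm
      have h3 : ∫ z : TX κ × TX κ, ch n (W.T^[p] z.1) * conj (ch n' (W.T^[q] z.2)) ∂lam =
          (ch n (fun i => W.ψ i 0) ^ p * conj (ch n' (fun i => W.ψ i 0) ^ q)) * ∫ z, ch n z.1 * conj (ch n' z.2) ∂lam := by
        rw [← integral_const_mul]
        refine integral_congr_ae (Eventually.of_forall fun z => ?_)
        have a1 : ch n (W.T^[p] z.1) = ch n (fun i => W.ψ i 0) ^ p * ch n z.1 := hchlow hn p z.1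
        have a2 : ch n' (W.T^[q] z.2) = ch n' (fun i => W.ψ i 0) ^ q * ch n' z.2 := hchlow hn'0 q z.2
        dsimp only
        rw [a1, a2, map_mul]
        ring
      have h4 : ch n (fun i => W.ψ i 0) ^ p * conj (ch n' (fun i => W.ψ i 0) ^ q) = 1 := by
        rw [h3] at h1
        have : (ch n (fun i => W.ψ i 0) ^ p * conj (ch n' (fun i => W.ψ i 0) ^ q) - 1) * ∫ z, ch n z.1 * conj (ch n' z.2) ∂lam = 0 := by
          rw [sub_mul, one_mul, h1, sub_self]
        rcases mul_eq_zero.1 this with h5 | h5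
        · exact sub_eq_zero.1 h5
        · exact absurd h5 hne
      have h5 : ch ((p : ℤ) • n - (q : ℤ) • n') (fun i => W.ψ i 0) = 1 := by
        have e2 : ((p : ℤ) • n - (q : ℤ) • n') = p • n + -(q • n') := by
          rw [sub_eq_add_neg, natCast_zsmul, natCast_zsmul]
        rw [e2, HT.ch_add, HT.ch_neg, ch_nsmul, ch_nsmul]
        exact h4
      have h6 : (p : ℤ) • n - (q : ℤ) • n' = 0 := by
        by_contra h7
        refine hN.base _ h7 (fun i hi => ?_) h5
        by_contra h8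
        have b1 : n i = 0 := by
          by_contra h9
          exact h8 (hn i h9)
        have b2 : n' i = 0 := by
          by_contra h9
          exact h8 (hn'0 i h9)
        exact hi (by simp [b1, b2])
      obtain ⟨i, hi⟩ := hq
      have h7 := DFunLike.congr_fun h6 i
      have h7' : (p : ℤ) * n i - (q : ℤ) * n' i = 0 := by simpa using h7
      have h8 : (q : ℤ) ∣ (p : ℤ) * n i := ⟨n' i, by linarith⟩
      have hqp : Prime (q : ℤ) := Nat.prime_iff_prime_int.1 hJ.qp
      rcases hqp.dvd_or_dvd h8 with h9 | h9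
      · have : q ∣ p := by exact_mod_cast h9
        exact hJ.ne ((Nat.prime_dvd_prime_iff_eq hJ.qp hJ.pp).1 this).symm
      · exact hi h9
  rw [eg]
  have e2 : (fun z : TX κ × TX κ => ‖g z.2‖ ^ 2) =ᵐ[lam] fun _ => 0 := by
    filter_upwards [(hJ.snd hW).quasiMeasurePreserving.ae hg0] with z hz
    rw [hz]; simp
  rw [integral_congr_ae e2, integral_zero]

theorem nsq_ch {X : Type} [MeasurableSpace X] {μ : Measure X} [IsProbabilityMeasure μ] {v : X → ℂ} (hv : ∀ x, ‖v x‖ = 1) :
    nsq μ v = 1 := by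
  unfold nsq
  simp [hv]

/-- **the factors `D_h` contain only the characters divisible by `q`** -/
theorem Tow.PJ.kron (hW : W.ND) (hJ : W.PJ p q lam) (hDP : W.DP p q lam) (h : ℕ) {n : κ →₀ ℤ} (hn : W.On 0 n)
    (hm : Measurable[(W.D p q lam h).m] (ch n)) : ∀ i, (q : ℤ) ∣ n i := by
  classical
  have hpr := hJ.prob
  have hchB : ∀ m, Bd (ch (κ := κ) m) := fun m => ⟨(HT.ch_cont m).measurable, 1, fun x => (HT.ch_norm m x).le⟩
  have hself : ∀ {h}, Measurable[(W.D p q lam h).m] (ch n) → ce (mX κ) (W.D p q lam h) (ch n) = ch n := fun {h} hm =>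
    condExp_of_stronglyMeasurable (hDP.fac h).le' hm.stronglyMeasurable (hchB n).bm.integrable
  have hne0 : ∀ {u : TX κ → ℂ}, u = ch n → ¬ u =ᵐ[mX κ] 0 := by
    rintro u rfl h0
    have h1 := nsq_congr h0
    rw [nsq_ch (HT.ch_norm n)] at h1
    simp [nsq] at h1
  -- level 1
  by_cases hn0 : n = 0
  · intro i; rw [hn0]; simp
  have key : ce (mX κ) (W.D p q lam 1) (ch n) =ᵐ[mX κ] ch n := by
    rcases h with _ | h
    · -- impossible: constants
      exfalso
      have hY : Measurable[(W.Y 0).m] (ch n) := fun t ht => hDP.low 0 _ (hm ht)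
      have h1 : ce (mX κ) (W.Y 0) (ch n) = ch n :=
        condExp_of_stronglyMeasurable (Tow.Y_le W 0) hY.stronglyMeasurable (hchB n).bm.integrable
      exact hne0 h1 (Tow.ce_ch hn hn0)
    · have h1 : ∀ k, ce (mX κ) (W.D p q lam (k + 1)) (ch n) =ᵐ[mX κ] ce (mX κ) (W.D p q lam 1) (ch n) := by
        intro k
        induction k with
        | zero => exact EventuallyEq.rfl
        | succ k ih =>
          refine (hDP.ri (k + 1) (ch n) (hchB n) ?_).trans ih
          exact (Tow.ch_Y hn).mono (Tow.Y_mono W (Nat.succ_le_succ (Nat.zero_le k))) le_rfl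
      refine (h1 h).symm.trans ?_
      rw [hself hm]
  -- a hidden class
  obtain ⟨v, hv, hvn⟩ : ∃ v ∈ W.SS p q lam 0 (W.D p q lam 0), ¬ ce (mX κ) (W.D p q lam 0) (fun x => ch n x * conj (v x)) =ᵐ[mX κ] 0 := by
    by_contra hcon
    push Not at hcon
    exact hne0 rfl (key.symm.trans (hDP.dens 0 (ch n) (hchB n) hcon))
  obtain ⟨hvc, -, m, hqm, hvm⟩ := hv
  have hS : Sys (mX κ) W.T^[p] := Tow.sys hW hJ.pp.pos
  have hD0 := (hDP.fac 0).iter p
  have hchc : Cls W.T^[p] (W.D p q lam 0) (ch n) := by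
    refine ⟨(HT.ch_cont n).measurable, HT.ch_norm n, ?_⟩
    have e : (fun x => ch n (W.T^[p] x) * conj (ch n x)) = fun _ => ch n (W.T^[p] 0) * conj (ch n 0) := by
      funext x
      have h1 : ∀ x, ch n (W.T^[p] x) * conj (ch n x) = ch n (AH.psn W.ah p x) := by
        intro x
        have h2 := AH.ch_iter W.ah n p x
        have h3 : ch n (W.T^[p] x) = ch n (AH.psn W.ah p x) * ch n x := h2
        rw [h3, mul_assoc, AH.unim_mul _ (HT.ch_norm _ _), mul_one]
      rw [h1, h1]
      exact AH.chpsn_low W.ah hn p x 0 fun i hi => absurd hi (Nat.not_lt_zero _)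
    rw [e]
    exact @measurable_const _ _ _ (W.D p q lam 0).m _
  have hk : Measurable[(W.D p q lam 0).m] fun x => ch n x * conj (v x) := dich hS hD0 (hchc.mul_conj hvc) hvn
  -- `ch (m n)` is measurable over the second factor
  have h1 : Measurable[(hid lam (W.D p q lam 0)).m] fun z : TX κ × TX κ => ch (m • n) z.1 := by
    have e : (fun z : TX κ × TX κ => ch (m • n) z.1) = fun z => (ch n z.1 * conj (v z.1)) ^ m * v z.1 ^ m := by
      funext z
      rw [ch_nsmul, ← mul_pow]
      congr 1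
      rw [mul_assoc, mul_comm (conj (v z.1)), AH.unim_mul _ (hvc.norm _), mul_one]
    rw [e]
    exact Measurable.mul (Measurable.pow_const (hid_fst (hDP.fac 0).le' hk) m) hvm
  have h2 : Measurable[(sec lam).m] fun z : TX κ × TX κ => ch (m • n) z.1 := h1.mono (hid_zero (hJ.fst hW)) le_rfl
  have h3 : ce lam (sec lam) (fun z : TX κ × TX κ => ch (m • n) z.1) = fun z => ch (m • n) z.1 :=
    condExp_of_stronglyMeasurable sec_le h2.stronglyMeasurable ((hchB (m • n)).bm.comp (hJ.fst hW)).integrable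
  by_contra hcon
  push Not at hcon
  obtain ⟨i, hi⟩ := hcon
  have hon : W.On 0 (m • n) := by
    intro i hi
    refine hn i fun h0 => hi ?_
    rw [Finsupp.coe_smul, Pi.smul_apply, h0, smul_zero]
  have h4 := hJ.kron0 hW hon ⟨i, fun h5 => ?_⟩
  · unfold Jsq at h4
    rw [h3, nsq_ch fun z => HT.ch_norm _ _] at h4
    exact one_ne_zero h4
  · have h6 : (q : ℤ) ∣ (m : ℤ) * n i := by simpa using h5
    rcases (Nat.prime_iff_prime_int.1 hJ.qp).dvd_or_dvd h6 with h7 | h7
    · exact hqm (by exact_mod_cast h7)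
    · exact hi h7

/-- `D_h` satisfies the hypotheses of the rigidity theorem -/
theorem Tow.PJ.qf [DecidableEq κ] (hW : W.ND) (hJ : W.PJ p q lam) (hDP : W.DP p q lam) (h : ℕ) : AH.QF W.ah q (W.D p q lam h).m := by
  refine ⟨(hDP.fac h).le', fun f hf => (hDP.fac h).ce_comp (Tow.T_pres W) hf.integrable, fun n hn hq hm => ?_⟩
  have h1 : Measurable[(W.D p q lam h).m] (ch n) := ((hDP.fac h).meas_iff (HT.ch_cont n).measurable).2 hm
  obtain ⟨i, hi⟩ := hq
  exact hi (hJ.kron hW hDP h hn h1 i)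

/-- **the theorem, from the core and part D**: the correlations of the ergodic joinings are small -/
theorem Tow.joins_small (hW : W.ND) (hDP : ∀ p q lam, W.PJ p q lam → W.DP p q lam) (hC : ∀ h, W.Core h) {F : TX κ → ℂ}
    (hF : Bd F) (h0 : ∫ x, F x ∂mX κ = 0) (ε : ℝ) (hε : 0 < ε) :
    ∃ q0 : ℕ, ∀ p q lam, W.PJ p q lam → q0 ≤ q → ‖∫ z : TX κ × TX κ, F z.1 * conj (F z.2) ∂lam‖ ≤ ε := by
  classical
  set N : ℝ := nsq (mX κ) F with hN
  have hN0 : 0 ≤ N := integral_nonneg fun x => by positivity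
  set δ : ℝ := (ε / (1 + N)) ^ 2 with hδ
  have hδ0 : 0 < δ := by positivity
  set H := ∑ i, W.lev i + 1 with hH
  obtain ⟨q1, hq1⟩ := Tow.jb hW hDP hC H δ hδ0
  obtain ⟨q2, hq2⟩ := AH.rigid W.ah (Tow.nd_ah hW) F hF.bm h0 δ hδ0
  refine ⟨max q1 q2, fun p q lam hJ hq => ?_⟩
  have := hJ.prob
  have hY : Measurable[(W.Y H).m] F := Tow.Y_top W hF.meas
  have h3 := hq1 p q lam hJ ((le_max_left _ _).trans hq) F hF hY
  have h4 : Esq (W.D p q lam H) F ≤ δ := hq2 q ((le_max_right _ _).trans hq) _ (hJ.qf hW (hDP p q lam hJ) H)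
  have h6 : Jsq lam F ≤ δ * (1 + N) := by
    have e : δ * (1 + N) = δ + δ * N := by ring
    rw [e]
    linarith
  have e1 : ∫ z : TX κ × TX κ, F z.1 * conj (F z.2) ∂lam =
      ∫ z, ce lam (sec lam) (fun z : TX κ × TX κ => F z.1) z * conj (F z.2) ∂lam := by
    refine ce_int' sec_le (hF.bm.comp (hJ.fst hW)) (hF.bm.comp (hJ.snd hW)) ?_
    have a1 : Measurable[(inferInstance : MeasurableSpace (TX κ)).comap Prod.snd] fun z : TX κ × TX κ => F z.2 :=
      hF.meas.comp (comap_measurable _)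
    exact a1.mono (le_cpl (D := ⟨(inferInstance : MeasurableSpace (TX κ)).comap Prod.snd⟩) measurable_snd.comap_le) le_rfl
  rw [e1]
  refine (nrm_cs (ce_bm (hF.bm.comp (hJ.fst hW))) (hF.bm.comp (hJ.snd hW))).trans ?_
  have h7 : nrm lam (ce lam (sec lam) fun z : TX κ × TX κ => F z.1) ≤ Real.sqrt (δ * (1 + N)) := Real.sqrt_le_sqrt h6
  have h8 : nrm lam (fun z : TX κ × TX κ => F z.2) ≤ Real.sqrt (1 + N) := by
    refine Real.sqrt_le_sqrt ?_
    have e3 : ∫ y, ‖F y‖ ^ 2 ∂(lam.map Prod.snd) = ∫ z : TX κ × TX κ, ‖F z.2‖ ^ 2 ∂lam :=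
      integral_map measurable_snd.aemeasurable (hF.meas.norm.pow_const 2).aestronglyMeasurable
    rw [(hJ.snd hW).map_eq] at e3
    have e4 : nsq lam (fun z : TX κ × TX κ => F z.2) = N := e3.symm
    rw [e4]
    linarith
  calc nrm lam (ce lam (sec lam) fun z : TX κ × TX κ => F z.1) * nrm lam (fun z : TX κ × TX κ => F z.2)
      ≤ Real.sqrt (δ * (1 + N)) * Real.sqrt (1 + N) := mul_le_mul h7 h8 (nrm_nonneg _) (Real.sqrt_nonneg _)
    _ = ε := by
        rw [← Real.sqrt_mul (by positivity)]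
        have e5 : δ * (1 + N) * (1 + N) = ε ^ 2 := by
          rw [hδ]
          field_simp
        rw [e5, Real.sqrt_sq hε.le]

/-- towers with continuous cocycles -/
theorem Tow.main_of (hW : W.ND) (hDP : ∀ p q lam, W.PJ p q lam → W.DP p q lam) (hC : ∀ h, W.Core h) (hT : Continuous W.T)
    (f : TX κ → ℂ) (hf : Continuous f) : HD.UnifOrth W.T fun x => f x - ∫ y, f y ∂mX κ := by
  classical
  set g : TX κ → ℂ := fun x => f x - ∫ y, f y ∂mX κ with hg
  have hgc : Continuous g := hf.sub continuous_const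
  have hfi : Integrable f (mX κ) := (AH.rg_cont_bm hf).integrable
  have hg0 : ∫ x, g x ∂mX κ = 0 := by
    rw [hg, integral_sub hfi (integrable_const _)]
    simp
  -- normalization
  obtain ⟨C, hC1⟩ : ∃ C : ℝ, ∀ x, ‖g x‖ ≤ C := by
    obtain ⟨C, hC⟩ := (isCompact_range hgc.norm).bddAbove
    exact ⟨C, fun x => hC ⟨x, rfl⟩⟩
  have hCp : 0 < |C| + 1 := by positivity
  set c : ℂ := ((1 / (|C| + 1) : ℝ) : ℂ) with hc
  have hc0 : c ≠ 0 := by
    rw [hc]
    exact_mod_cast (by positivity : (0 : ℝ) < 1 / (|C| + 1)).ne'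
  set k : C(TX κ, ℂ) := ⟨fun x => c * g x, continuous_const.mul hgc⟩ with hk
  have hk1 : ∀ x, ‖k x‖ ≤ 1 := by
    intro x
    show ‖c * g x‖ ≤ 1
    rw [norm_mul, hc, Complex.norm_real, Real.norm_of_nonneg (by positivity), one_div, inv_mul_le_iff₀ hCp, mul_one]
    exact (hC1 x).trans ((le_abs_self C).trans (by linarith))
  have hk0 : ∫ x, k x ∂mX κ = 0 := by
    show ∫ x, c * g x ∂mX κ = 0
    rw [integral_const_mul, hg0, mul_zero]
  have hmain : HD.UnifOrth W.T k := by
    refine AH.unifOrth_of_joinings W.T hT k hk1 fun ε hε => ?_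
    obtain ⟨q0, hq0⟩ := Tow.joins_small hW hDP hC (F := k) ⟨k.continuous.measurable, 1, hk1⟩ hk0 ε hε
    exact ⟨q0, fun p q pp qp _ hq hne lam h1 h2 =>
      hq0 p q lam { prob := h1, erg := h2, pp := pp, qp := qp, ne := hne } hq⟩
  have h9 := HD.uo_smul hmain c⁻¹
  have e2 : (fun z => c⁻¹ * k z) = g := by
    funext z
    show c⁻¹ * (c * g z) = g z
    rw [← mul_assoc, inv_mul_cancel₀ hc0, one_mul]
  rw [e2] at h9
  exact h9

end Pool.Agent.Lib.MP_9fe581_an.AP
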