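import Pool.Agent.Lib.MP_9fe581_an.AP.G1

/-!
# AP, G2: peeling off finitely many classes
-/

set_option autoImplicit false
set_option linter.unusedSectionVars false
set_option warn.classDefReducibility false

open Finset MeasureTheory Filter Topology ProbabilityTheory
open scoped ComplexConjugate

namespace Pool.Agent.Lib.MP_9fe581_an.AP

open AH (BM)

section General

variable {X : Type} [mX0 : MeasurableSpace X] {μ : Measure X} [IsProbabilityMeasure μ]

/-- a family of pairwise inequivalent classes with coefficients -/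
structure Fam (μ : Measure X) (S : X → X) (D : SA X) (f : X → ℂ) {ι : Type} (v g : ι → X → ℂ) : Prop where
  cls : ∀ i, Cls S D (v i)
  ineq : ∀ i j, i ≠ j → ¬ Measurable[D.m] fun x => v i x * conj (v j x)
  gm : ∀ i, Measurable[D.m] (g i)
  gb : ∀ i, Bd (g i)
  gae : ∀ i, g i =ᵐ[μ] ce μ D fun x => f x * conj (v i x)

/-- the part of `f` in the classes of `s` -/
def fpart {ι : Type} (v g : ι → X → ℂ) (s : Finset ι) (x : X) : ℂ := ∑ i ∈ s, v i x * g i x

variable {S : X → X} {D : SA X} {f : X → ℂ} {ι : Type} [DecidableEq ι] {v g : ι → X → ℂ}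

theorem Cls.bm {S : X → X} {D : SA X} {w : X → ℂ} (hw : Cls S D w) : BM μ w := AH.BM.of_bdd hw.meas (C := 1) fun x => (hw.norm x).le

omit [DecidableEq ι] in
theorem fpart_bd (h : Fam μ S D f v g) (s : Finset ι) : Bd (fpart v g s) := by
  classical
  induction s using Finset.induction_on with
  | empty => exact ⟨measurable_const, 0, fun x => by simp [fpart]⟩
  | insert a s ha ih =>
    obtain ⟨C, hC⟩ := (h.gb a).bdd
    obtain ⟨C', hC'⟩ := ih.bdd
    have e : fpart v g (insert a s) = fun x => v a x * g a x + fpart v g s x := by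
      funext x; unfold fpart; rw [sum_insert ha]
    rw [e]
    refine ⟨((h.cls a).meas.mul (h.gb a).meas).add ih.meas, C + C', fun x => (norm_add_le _ _).trans (add_le_add ?_ (hC' x))⟩
    rw [norm_mul, (h.cls a).norm, one_mul]; exact hC x

/-- the coefficient of the part at a class -/
theorem ce_fpart (hS : Sys μ S) (hD : Fac μ S D) (h : Fam μ S D f v g) (s : Finset ι) (i : ι) :
    ce μ D (fun x => fpart v g s x * conj (v i x)) =ᵐ[μ] fun x => if i ∈ s then g i x else 0 := by
  have e : (fun x => fpart v g s x * conj (v i x)) = fun x => ∑ k ∈ s, (v k x * conj (v i x)) * g k x := by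
    funext x
    unfold fpart
    rw [sum_mul]
    exact sum_congr rfl fun k _ => by ring
  rw [e]
  have hB : ∀ k ∈ s, BM μ fun x => (v k x * conj (v i x)) * g k x := fun k _ =>
    ((h.cls k).bm.mul (h.cls i).bm.conj).mul (h.gb k).bm
  refine (ce_sum s hB).trans ?_
  have h1 : ∀ k, ce μ D (fun x => (v k x * conj (v i x)) * g k x) =ᵐ[μ] fun x => if k = i then g i x else 0 := by
    intro k
    refine (ce_pull hD.le' ((h.cls k).bm.mul (h.cls i).bm.conj) (h.gb k).bm (h.gm k)).trans ?_
    by_cases hk : k = i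
    · subst hk
      have e2 : (fun x => v k x * conj (v k x)) = fun _ => (1 : ℂ) := funext fun x => AH.unim_mul _ ((h.cls k).norm x)
      have e3 : ce μ D (fun x => v k x * conj (v k x)) = fun _ => (1 : ℂ) := by
        rw [e2]; exact condExp_const hD.le' (1 : ℂ)
      rw [e3]
      exact Eventually.of_forall fun x => by simp
    · have h2 := ce_ineq hS hD (h.cls k) (h.cls i) (h.ineq k i hk)
      filter_upwards [h2] with x hx
      rw [hx, if_neg hk]; simp
  have h2 : ∀ᵐ x ∂μ, ∀ k ∈ s, ce μ D (fun x => (v k x * conj (v i x)) * g k x) x = if k = i then g i x else 0 :=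
    (Finset.eventually_all s).2 fun k _ => h1 k
  filter_upwards [h2] with x hx
  rw [sum_congr rfl hx, sum_ite_eq']

/-- the remainder is orthogonal to the classes of `s` -/
theorem ce_rem (hS : Sys μ S) (hD : Fac μ S D) (hf : Bd f) (h : Fam μ S D f v g) (s : Finset ι) (i : ι) (hi : i ∈ s) :
    ce μ D (fun x => (f x - fpart v g s x) * conj (v i x)) =ᵐ[μ] 0 := by
  have e : (fun x => (f x - fpart v g s x) * conj (v i x)) = fun x => f x * conj (v i x) - fpart v g s x * conj (v i x) := by
    funext x; ring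
  rw [e]
  refine (ce_sub (hf.bm.mul (h.cls i).bm.conj) ((fpart_bd h s).bm.mul (h.cls i).bm.conj)).trans ?_
  filter_upwards [ce_fpart hS hD h s i, h.gae i] with x a b
  rw [a, if_pos hi, ← b, sub_self]; rfl

/-- the norm of a part -/
theorem nsq_fpart (hS : Sys μ S) (hD : Fac μ S D) (h : Fam μ S D f v g) (s : Finset ι) :
    nsq μ (fpart v g s) = ∑ i ∈ s, nsq μ (g i) := by
  have hB := (fpart_bd h s).bm (μ := μ)
  have key : ∫ x, fpart v g s x * conj (fpart v g s x) ∂μ = ∑ i ∈ s, ∫ x, g i x * conj (g i x) ∂μ := by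
    have e : (fun x => fpart v g s x * conj (fpart v g s x)) = fun x => ∑ i ∈ s, (fpart v g s x * conj (v i x)) * conj (g i x) := by
      funext x
      conv_lhs => rw [show conj (fpart v g s x) = ∑ i ∈ s, conj (v i x) * conj (g i x) by
        unfold fpart; rw [map_sum]; exact sum_congr rfl fun i _ => map_mul _ _ _]
      rw [mul_sum]
      exact sum_congr rfl fun i _ => by ring
    rw [e, integral_finsetSum s fun i _ => ((hB.mul (h.cls i).bm.conj).mul (h.gb i).bm.conj).integrable]
    refine sum_congr rfl fun i hi => ?_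
    rw [ce_int' hD.le' (hB.mul (h.cls i).bm.conj) (h.gb i).bm (h.gm i)]
    refine integral_congr_ae ?_
    filter_upwards [ce_fpart hS hD h s i] with x hx
    rw [hx, if_pos hi]
  have h2 : ((nsq μ (fpart v g s) : ℝ) : ℂ) = ((∑ i ∈ s, nsq μ (g i) : ℝ) : ℂ) := by
    rw [nsq_ofReal, key, Complex.ofReal_sum]
    exact sum_congr rfl fun i _ => (nsq_ofReal _).symm
  exact_mod_cast h2

/-- the remainder and the part are orthogonal -/
theorem orth_rem (hS : Sys μ S) (hD : Fac μ S D) (hf : Bd f) (h : Fam μ S D f v g) (s : Finset ι) :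
    ∫ x, (f x - fpart v g s x) * conj (fpart v g s x) ∂μ = 0 := by
  have hB : BM μ fun x => f x - fpart v g s x := hf.bm.sub (fpart_bd h s).bm
  have e : (fun x => (f x - fpart v g s x) * conj (fpart v g s x)) =
      fun x => ∑ i ∈ s, ((f x - fpart v g s x) * conj (v i x)) * conj (g i x) := by
    funext x
    conv_lhs => rw [show conj (fpart v g s x) = ∑ i ∈ s, conj (v i x) * conj (g i x) by
      unfold fpart; rw [map_sum]; exact sum_congr rfl fun i _ => map_mul _ _ _]
    rw [mul_sum]
    exact sum_congr rfl fun i _ => by ring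
  rw [e, integral_finsetSum s fun i _ => ((hB.mul (h.cls i).bm.conj).mul (h.gb i).bm.conj).integrable]
  refine sum_eq_zero fun i hi => ?_
  rw [ce_int' hD.le' (hB.mul (h.cls i).bm.conj) (h.gb i).bm (h.gm i)]
  have : (fun x => ce μ D (fun x => (f x - fpart v g s x) * conj (v i x)) x * conj (g i x)) =ᵐ[μ] fun _ => 0 := by
    filter_upwards [ce_rem hS hD hf h s i hi] with x hx
    rw [hx]; simp
  rw [integral_congr_ae this, integral_zero]

/-- Pythagoras -/
theorem nsq_split (hS : Sys μ S) (hD : Fac μ S D) (hf : Bd f) (h : Fam μ S D f v g) (s : Finset ι) :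
    nsq μ f = nsq μ (fun x => f x - fpart v g s x) + ∑ i ∈ s, nsq μ (g i) := by
  have h1 := nsq_add (μ := μ) (f := fun x => f x - fpart v g s x) (g := fpart v g s) (hf.bm.sub (fpart_bd h s).bm) (fpart_bd h s).bm
  have e : (fun x => f x - fpart v g s x + fpart v g s x) = f := by funext x; ring
  rw [e, orth_rem hS hD hf h s, Complex.zero_re, mul_zero, add_zero, nsq_fpart hS hD h s] at h1
  exact h1

/-- Bessel -/
theorem fam_bessel (hS : Sys μ S) (hD : Fac μ S D) (hf : Bd f) (h : Fam μ S D f v g) (s : Finset ι) :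
    ∑ i ∈ s, nsq μ (g i) ≤ nsq μ f := by
  rw [nsq_split hS hD hf h s]
  have := nsq_nonneg (μ := μ) (fun x => f x - fpart v g s x)
  linarith

/-- **peeling**: after finitely many classes of the type `P` the coefficients of the remainder are small -/
theorem peel (hS : Sys μ S) (hD : Fac μ S D) (hf : Bd f) (P : (X → ℂ) → Prop) {η : ℝ} (hη : 0 < η) :
    ∃ (n : ℕ) (v g : Fin n → X → ℂ), Fam μ S D f v g ∧ (∀ i, P (v i)) ∧
      ∀ w, Cls S D w → P w → nsq μ (ce μ D fun x => (f x - fpart v g univ x) * conj (w x)) < η := by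
  classical
  set Q : ℕ → Prop := fun n => ∃ v g : Fin n → X → ℂ, Fam μ S D f v g ∧ (∀ i, P (v i)) ∧ ∀ i, η ≤ nsq μ (g i) with hQ
  obtain ⟨N, hN⟩ := exists_nat_gt (nsq μ f / η)
  have hbd : ∀ n, Q n → n ≤ N := by
    rintro n ⟨v, g, hF, -, hg⟩
    have h1 := fam_bessel hS hD hf hF univ
    have h2 : (n : ℝ) * η ≤ ∑ i : Fin n, nsq μ (g i) := by
      calc (n : ℝ) * η = ∑ _i : Fin n, η := by rw [sum_const, card_univ, Fintype.card_fin, nsmul_eq_mul]
        _ ≤ _ := sum_le_sum fun i _ => hg i
    have h3 : (n : ℝ) ≤ nsq μ f / η := by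
      rw [le_div_iff₀ hη]; linarith
    exact_mod_cast (h3.trans hN.le)
  have hQ0 : Q 0 := ⟨fun i => i.elim0, fun i => i.elim0, ⟨fun i => i.elim0, fun i => i.elim0, fun i => i.elim0, fun i => i.elim0,
    fun i => i.elim0⟩, fun i => i.elim0, fun i => i.elim0⟩
  set n := Nat.findGreatest Q N with hn
  have hQn : Q n := Nat.findGreatest_spec (P := Q) (Nat.zero_le N) hQ0
  have hmax : ∀ k, n < k → ¬ Q k := fun k hk hQk => by
    have := Nat.le_findGreatest (P := Q) (hbd k hQk) hQk
    omega
  obtain ⟨v, g, hF, hP, hg⟩ := hQn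
  refine ⟨n, v, g, hF, hP, fun w hw hPw => ?_⟩
  by_cases hex : ∃ i, Measurable[D.m] fun x => v i x * conj (w x)
  · -- `w` is equivalent to `v i`
    obtain ⟨i, hi⟩ := hex
    have h1 := ce_rem hS hD hf hF univ i (mem_univ i)
    have e : (fun x => (f x - fpart v g univ x) * conj (w x)) =
        fun x => ((f x - fpart v g univ x) * conj (v i x)) * (v i x * conj (w x)) := by
      funext x
      calc (f x - fpart v g univ x) * conj (w x) = (f x - fpart v g univ x) * conj (w x) * (v i x * conj (v i x)) := by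
            rw [AH.unim_mul _ ((hF.cls i).norm x), mul_one]
        _ = _ := by ring
    have h2 : ce μ D (fun x => (f x - fpart v g univ x) * conj (w x)) =ᵐ[μ] 0 := by
      rw [e]
      refine (ce_pull hD.le' ((hf.bm.sub (fpart_bd hF univ).bm).mul (hF.cls i).bm.conj) ((hF.cls i).bm.mul hw.bm.conj) hi).trans ?_
      filter_upwards [h1] with x hx
      rw [hx]; simp
    rw [nsq_congr h2]
    simpa [nsq] using hη
  · -- `w` is new
    push Not at hex
    have h2 : ce μ D (fun x => (f x - fpart v g univ x) * conj (w x)) =ᵐ[μ] ce μ D fun x => f x * conj (w x) := by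
      have e : (fun x => (f x - fpart v g univ x) * conj (w x)) =
          fun x => f x * conj (w x) - ∑ k, (v k x * conj (w x)) * g k x := by
        funext x
        unfold fpart
        rw [sub_mul, sum_mul]
        congr 1
        exact sum_congr rfl fun k _ => by ring
      have hB : ∀ k ∈ (univ : Finset (Fin n)), BM μ fun x => (v k x * conj (w x)) * g k x := fun k _ =>
        ((hF.cls k).bm.mul hw.bm.conj).mul (hF.gb k).bm
      rw [e]
      refine (ce_sub (hf.bm.mul hw.bm.conj) (AH.BM.sum univ hB)).trans ?_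
      have h3 : ∀ k, ce μ D (fun x => (v k x * conj (w x)) * g k x) =ᵐ[μ] fun _ => 0 := by
        intro k
        refine (ce_pull hD.le' ((hF.cls k).bm.mul hw.bm.conj) (hF.gb k).bm (hF.gm k)).trans ?_
        filter_upwards [ce_ineq hS hD (hF.cls k) hw (hex k)] with x hx
        rw [hx]; simp
      have h4 : ∀ᵐ x ∂μ, ∀ k ∈ (univ : Finset (Fin n)), ce μ D (fun x => (v k x * conj (w x)) * g k x) x = 0 :=
        (Finset.eventually_all univ).2 fun k _ => h3 k
      filter_upwards [ce_sum univ hB, h4] with x a b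
      rw [a, sum_eq_zero b, sub_zero]
    rw [nsq_congr h2]
    by_contra hge
    push Not at hge
    obtain ⟨gw, gw1, gw2, gw3⟩ := ce_rep (μ := μ) hD.le' (hf.bm.mul hw.bm.conj)
    refine hmax (n + 1) (Nat.lt_succ_self n) ⟨Fin.cons w v, Fin.cons gw g, ⟨?_, ?_, ?_, ?_, ?_⟩, ?_, ?_⟩
    · exact fun i => Fin.cases hw hF.cls i
    · intro i j
      refine Fin.cases ?_ (fun i => ?_) i
      · refine Fin.cases (fun h => absurd rfl h) (fun j _ => ?_) j
        show ¬ Measurable[D.m] fun x => w x * conj (v j x)
        intro h0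
        refine hex j ?_
        have e : (fun x => v j x * conj (w x)) = fun x => conj (w x * conj (v j x)) := by
          funext x; rw [map_mul, Complex.conj_conj, mul_comm]
        rw [e]
        exact Complex.continuous_conj.measurable.comp h0
      · refine Fin.cases (fun _ => ?_) (fun j hij => ?_) j
        · exact hex i
        · exact hF.ineq i j fun h => hij (congrArg Fin.succ h)
    · exact fun i => Fin.cases gw1 hF.gm i
    · exact fun i => Fin.cases gw2 hF.gb i
    · exact fun i => Fin.cases gw3 hF.gae i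
    · exact fun i => Fin.cases hPw hP i
    · refine fun i => Fin.cases ?_ hg i
      show η ≤ nsq μ gw
      rw [nsq_congr gw3]
      exact hge

end General

end Pool.Agent.Lib.MP_9fe581_an.AP
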