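import Mathlib

/-!
# AP, part H: Hilbert *-algebras (abstract), definitions
-/

set_option autoImplicit false

open scoped ComplexConjugate InnerProductSpace

namespace Pool.Agent.Lib.MP_9fe581_an.AP

/-- an associative product and an involution on a complex Hilbert space (`H*`-algebra) -/
structure HStar (E : Type) [NormedAddCommGroup E] [InnerProductSpace ℂ E] where
  mul : E →ₗ[ℂ] E →ₗ[ℂ] E
  star : E → E
  star_add : ∀ a b, star (a + b) = star a + star b
  star_smul : ∀ (z : ℂ) a, star (z • a) = conj z • star a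
  star_star : ∀ a, star (star a) = a
  star_mul : ∀ a b, star (mul a b) = mul (star b) (star a)
  assoc : ∀ a b c, mul (mul a b) c = mul a (mul b c)
  norm_mul : ∀ a b, ‖mul a b‖ ≤ ‖a‖ * ‖b‖
  norm_star : ∀ a, ‖star a‖ = ‖a‖
  inner_mul : ∀ a b c, ⟪mul a b, c⟫_ℂ = ⟪b, mul (star a) c⟫_ℂ
  proper : ∀ a, mul (star a) a = 0 → a = 0

variable {E : Type} [NormedAddCommGroup E] [InnerProductSpace ℂ E]

/-- a closed `*`-subalgebra -/
structure HStar.Sub (S : HStar E) (A : Submodule ℂ E) : Prop where
  closed : IsClosed (A : Set E)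
  mul : ∀ a ∈ A, ∀ b ∈ A, S.mul a b ∈ A
  star : ∀ a ∈ A, S.star a ∈ A

/-- a nonzero projection -/
structure HStar.Proj (S : HStar E) (P : E) : Prop where
  ne : P ≠ 0
  idem : S.mul P P = P
  star : S.star P = P

/-- a minimal projection of `A` -/
structure HStar.Min (S : HStar E) (A : Submodule ℂ E) (P : E) : Prop extends S.Proj P where
  mem : P ∈ A
  min : ∀ x ∈ A, ∃ z : ℂ, S.mul (S.mul P x) P = z • P

end Pool.Agent.Lib.MP_9fe581_an.AP
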