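import Pool.Agent.Lib.MP_9fe581_an.AP.Defs

/-!
# AP: the interface between the parts (definitions, no sorry)
-/

set_option autoImplicit false
set_option warn.classDefReducibility false

open Finset MeasureTheory Filter Topology ProbabilityTheory
open scoped ComplexConjugate

namespace Pool.Agent.Lib.MP_9fe581_an.AP

open HT (TX mX ch)

variable {κ : Type} [Fintype κ]

/-- the data of a pair of primes and a joining -/
structure Tow.PJ (W : Tow κ) (p q : ℕ) (lam : Measure (TX κ × TX κ)) : Prop extends W.Jn p q lam where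
  pp : p.Prime
  qp : q.Prime
  ne : p ≠ q

/-- the core at level `h` -/
def Tow.Core (W : Tow κ) (h : ℕ) : Prop :=
  ∀ η : ℝ, 0 < η → ∃ q0 : ℕ, ∀ p q lam, W.PJ p q lam → q0 ≤ q → ∀ m : κ →₀ ℤ, W.On h m → ∀ f : TX κ → ℂ, Bd f →
    W.Mode h m f → nsq (mX κ) f ≤ 1 →
    (∀ v, Cls W.T^[p] (W.D p q lam h) v → W.Mode h m v → Esq (W.D p q lam h) (fun x => f x * conj (v x)) < η) →
    ∃ L ≤ η, Tendsto (energy (mX κ) W.T^[p] (W.D p q lam h) f) atTop (𝓝 L)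

/-- the bound of the second factor at level `h` -/
def Tow.JB (W : Tow κ) (h : ℕ) : Prop :=
  ∀ ε : ℝ, 0 < ε → ∃ q0 : ℕ, ∀ p q lam, W.PJ p q lam → q0 ≤ q → ∀ f : TX κ → ℂ, Bd f → Measurable[(W.Y h).m] f →
    Jsq lam f ≤ Esq (W.D p q lam h) f + ε * nsq (mX κ) f

/-- what part D provides -/
structure Tow.DP (W : Tow κ) (p q : ℕ) (lam : Measure (TX κ × TX κ)) : Prop where
  fac : ∀ h, Fac (mX κ) W.T (W.D p q lam h)
  low : ∀ h (s : Set (TX κ)), MeasurableSet[(W.D p q lam h).m] s → MeasurableSet[(W.Y h).m] s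
  ri : ∀ h (f : TX κ → ℂ), Bd f → Measurable[(W.Y h).m] f →
    ce (mX κ) (W.D p q lam (h + 1)) f =ᵐ[mX κ] ce (mX κ) (W.D p q lam h) f
  bessel : ∀ h (m : κ →₀ ℤ), W.On h m → ∀ f : TX κ → ℂ, Bd f → W.Mode h m f → ∀ (n : ℕ) (v : Fin n → TX κ → ℂ),
    (∀ i, v i ∈ W.SS p q lam h (W.D p q lam h)) → (∀ i, W.Mode h m (v i)) →
    (∀ i j, i ≠ j → ¬ Measurable[(W.D p q lam h).m] fun x => v i x * conj (v j x)) →
    ∑ i, Esq (W.D p q lam h) (fun x => f x * conj (v i x)) ≤ Esq (W.D p q lam (h + 1)) f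
  orth : ∀ h (m m' : κ →₀ ℤ), W.On h m → W.On h m' → m ≠ m' → ∀ f g : TX κ → ℂ, Bd f → Bd g → W.Mode h m f → W.Mode h m' g →
    ∫ x, ce (mX κ) (W.D p q lam (h + 1)) f x * conj (ce (mX κ) (W.D p q lam (h + 1)) g x) ∂mX κ = 0
  dens : ∀ h (f : TX κ → ℂ), Bd f → (∀ v ∈ W.SS p q lam h (W.D p q lam h),
    ce (mX κ) (W.D p q lam h) (fun x => f x * conj (v x)) =ᵐ[mX κ] 0) → ce (mX κ) (W.D p q lam (h + 1)) f =ᵐ[mX κ] 0

end Pool.Agent.Lib.MP_9fe581_an.AP
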