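import Pool.Agent.Lib.MP_9fe581_an.AP.Defs
import Pool.Agent.Lib.MP_9fe581_an.HD.Final
import Mathlib.Probability.ProductMeasure

/-!
# AP, Inf: towers of infinite height
-/

set_option autoImplicit false

open Finset MeasureTheory Filter Topology
open scoped ComplexConjugate Uniformity

namespace Pool.Agent.Lib.MP_9fe581_an.AP

open HT (TX mX ch)

/-- the character `∑ m_i ψ_i` of the cocycle -/
noncomputable def cocI {κ : Type} (ψ : κ → TX κ → UnitAddCircle) (m : κ →₀ ℤ) (x : TX κ) : UnitAddCircle :=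
  m.sum fun i c => c • ψ i x

section Cut

variable {κ : Type} (lev : κ → ℕ) (J : ℕ)

/-- the coordinates of level `≤ J` -/
abbrev cutI : Type := {i : κ // lev i ≤ J}

/-- restriction -/
def cutR (x : TX κ) : TX (cutI lev J) := fun i => x i.1

open Classical in
/-- extension by `0` -/
noncomputable def cutE (x : TX (cutI lev J)) : TX κ := fun i => if h : lev i ≤ J then x ⟨i, h⟩ else 0

theorem cutE_of {i : κ} (h : lev i ≤ J) (x : TX (cutI lev J)) : cutE lev J x i = x ⟨i, h⟩ := by
  unfold cutE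
  rw [dif_pos h]

theorem cutR_E (x : TX (cutI lev J)) : cutR lev J (cutE lev J x) = x := by
  funext i
  exact cutE_of lev J i.2 x

theorem cutE_R {i : κ} (h : lev i ≤ J) (x : TX κ) : cutE lev J (cutR lev J x) i = x i := cutE_of lev J h _

theorem cutE_cont : Continuous (cutE lev J) := by
  refine continuous_pi fun i => ?_
  by_cases h : lev i ≤ J
  · have : (fun x : TX (cutI lev J) => cutE lev J x i) = fun x => x ⟨i, h⟩ := by
      funext x
      exact cutE_of lev J h x
    rw [this]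
    exact continuous_apply _
  · have : (fun x : TX (cutI lev J) => cutE lev J x i) = fun _ => 0 := by
      funext x
      unfold cutE
      rw [dif_neg h]
    rw [this]
    exact continuous_const

theorem cutR_cont : Continuous (cutR lev J) := continuous_pi fun i => continuous_apply i.1

theorem cutR_meas : Measurable (cutR lev J) := measurable_pi_lambda _ fun i => measurable_pi_apply i.1

theorem cutE_meas : Measurable (cutE lev J) := by
  refine measurable_pi_lambda _ fun i => ?_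
  by_cases h : lev i ≤ J
  · have : (fun x : TX (cutI lev J) => cutE lev J x i) = fun x => x ⟨i, h⟩ := by
      funext x
      exact cutE_of lev J h x
    rw [this]
    exact measurable_pi_apply _
  · have : (fun x : TX (cutI lev J) => cutE lev J x i) = fun _ => 0 := by
      funext x
      unfold cutE
      rw [dif_neg h]
    rw [this]
    exact measurable_const

/-- the tower of the levels `≤ J` -/
noncomputable def cut (ψ : κ → TX κ → UnitAddCircle) (hc : ∀ i, Measurable (ψ i))
    (hdep : ∀ i x y, (∀ l, lev l < lev i → x l = y l) → ψ i x = ψ i y) : Tow (cutI lev J) where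
  lev i := lev i.1
  ψ i x := ψ i.1 (cutE lev J x)
  meas i := (hc i.1).comp (cutE_meas lev J)
  dep i x y h := hdep i.1 _ _ fun l hl => by
    have hl' : lev l ≤ J := hl.le.trans i.2
    rw [cutE_of lev J hl', cutE_of lev J hl']
    exact h ⟨l, hl'⟩ hl

end Cut

variable {κ : Type} {lev : κ → ℕ} {ψ : κ → TX κ → UnitAddCircle} {ν : Measure (TX κ)} {T : TX κ → TX κ}

/-- the cocycle of the restriction -/
theorem cut_coc {J : ℕ} (hc : ∀ i, Measurable (ψ i))
    (hdep : ∀ i x y, (∀ l, lev l < lev i → x l = y l) → ψ i x = ψ i y) (m : cutI lev J →₀ ℤ) (x : TX κ) :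
    (cut lev J ψ hc hdep).coc m (cutR lev J x) = cocI ψ (m.mapDomain Subtype.val) x := by
  classical
  have h1 : cocI ψ (m.mapDomain Subtype.val) x = m.sum fun i c => c • ψ i.1 x :=
    Finsupp.sum_mapDomain_index (fun _ => zero_smul _ _) fun _ _ _ => add_smul _ _ _
  rw [h1]
  unfold Tow.coc FT.pr
  refine Finsupp.sum_congr fun i _ => ?_
  congr 1
  exact hdep i.1 _ _ fun l hl => cutE_R lev J (hl.le.trans i.2) x

theorem cut_T {J : ℕ} (hc : ∀ i, Measurable (ψ i))
    (hdep : ∀ i x y, (∀ l, lev l < lev i → x l = y l) → ψ i x = ψ i y) (hT : ∀ x i, T x i = x i + ψ i x) (x : TX κ)  :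
    cutR lev J (T x) = (cut lev J ψ hc hdep).T (cutR lev J x) := by
  funext i
  show T x i.1 = x i.1 + ψ i.1 (cutE lev J (cutR lev J x))
  rw [hT]
  congr 1
  exact hdep i.1 _ _ fun l hl => (cutE_R lev J (hl.le.trans i.2) x).symm

/-- restriction preserves the Haar measure -/
theorem cut_meas {J : ℕ} [Fintype (cutI lev J)] (hν : ν = Measure.infinitePi fun _ : κ => AddCircle.haarAddCircle) :
    MeasurePreserving (cutR lev J) ν (mX (cutI lev J)) := by
  refine ⟨cutR_meas lev J, ?_⟩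
  have h1 := Measure.infinitePi_map_restrict' (fun _ : κ => (AddCircle.haarAddCircle : Measure UnitAddCircle))
    (I := {i | lev i ≤ J})
  rw [hν]
  have h2 : (Measure.infinitePi fun i : {i : κ // lev i ≤ J} => (AddCircle.haarAddCircle : Measure UnitAddCircle)) =
      mX (cutI lev J) := Measure.infinitePi_eq_pi _
  rw [← h2]
  exact h1

theorem cut_nd {J : ℕ} [Fintype (cutI lev J)] (hc : ∀ i, Measurable (ψ i))
    (hdep : ∀ i x y, (∀ l, lev l < lev i → x l = y l) → ψ i x = ψ i y) (hT : ∀ x i, T x i = x i + ψ i x)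
    (hν : ν = Measure.infinitePi fun _ : κ => AddCircle.haarAddCircle)
    (hbase : ∀ m : κ →₀ ℤ, m ≠ 0 → (∀ i, m i ≠ 0 → lev i = 0) → cocI ψ m 0 ≠ 0)
    (hnd : ∀ (j : ℕ) (m : κ →₀ ℤ), m ≠ 0 → (∀ i, m i ≠ 0 → lev i = j + 1) →
      ∃ b : TX κ, (∀ i, b i ≠ 0 → lev i = j) ∧ ¬ ∃ g : TX κ → ℂ, Measurable g ∧ (∀ x, ‖g x‖ = 1) ∧
        (∀ x y, (∀ i, lev i ≤ j → x i = y i) → g x = g y) ∧
        ∀ᵐ x ∂ν, (AddCircle.toCircle (cocI ψ m (x + b) - cocI ψ m x) : ℂ) * g x = g (T x)) :
    (cut lev J ψ hc hdep).ND := by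
  classical
  have hinj : Function.Injective (Subtype.val : cutI lev J → κ) := Subtype.val_injective
  have hsupp : ∀ (m : cutI lev J →₀ ℤ) (n : ℕ), (∀ i, m i ≠ 0 → lev i.1 = n) →
      ∀ i, m.mapDomain Subtype.val i ≠ 0 → lev i = n := by
    intro m n h i hi
    by_cases hr : i ∈ Set.range (Subtype.val : cutI lev J → κ)
    · obtain ⟨l, rfl⟩ := hr
      rw [Finsupp.mapDomain_apply hinj] at hi
      exact h l hi
    · exact absurd (Finsupp.mapDomain_of_notMem_range m i hr) hi
  have hne : ∀ m : cutI lev J →₀ ℤ, m ≠ 0 → m.mapDomain (Subtype.val : cutI lev J → κ) ≠ 0 := by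
    intro m hm h
    exact hm (Finsupp.mapDomain_injective hinj (by rw [h, Finsupp.mapDomain_zero]))
  refine ⟨fun m hm hon => ?_, fun j m hm hon => ?_⟩
  · have h1 := hbase _ (hne m hm) (hsupp m 0 hon)
    have h2 := cut_coc hc hdep m (0 : TX κ)
    have h3 : cutR lev J (0 : TX κ) = 0 := rfl
    rw [h3] at h2
    rwa [h2]
  · obtain ⟨b, hb, hg⟩ := hnd j _ (hne m hm) (hsupp m (j + 1) hon)
    -- `j + 1 ≤ J`
    obtain ⟨i0, hi0⟩ : ∃ i, m i ≠ 0 := by
      by_contra h
      exact hm (Finsupp.ext fun i => not_not.1 fun hi => h ⟨i, hi⟩)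
    have hjJ : j + 1 ≤ J := by
      rw [← hon i0 hi0]
      exact i0.2
    refine ⟨cutR lev J b, fun i hi => hb i.1 hi, ?_⟩
    rintro ⟨g, g1, g2, g3, g4⟩
    refine hg ⟨fun x => g (cutR lev J x), g1.comp (cutR_meas lev J), fun x => g2 _,
      fun x y h => g3 _ _ fun i hi => h i.1 hi, ?_⟩
    filter_upwards [(cut_meas (J := J) hν).quasiMeasurePreserving.ae g4] with x hx
    rw [cut_T (J := J) hc hdep hT x, ← hx, ← cut_coc hc hdep, ← cut_coc hc hdep]
    rfl

/-- continuous functions on the infinite torus depend almost on the levels `≤ J` only -/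
theorem cut_approx (f : C(TX κ, ℂ)) {ε : ℝ} (hε : 0 < ε) :
    ∃ J, ∀ x, ‖f x - f (cutE lev J (cutR lev J x))‖ ≤ ε := by
  classical
  have h1 : UniformContinuous f := CompactSpace.uniformContinuous_of_continuous f.continuous
  have h2 : {z : TX κ × TX κ | dist (f z.1) (f z.2) < ε} ∈ 𝓤 (TX κ) := h1 (Metric.dist_mem_uniformity hε)
  rw [Pi.uniformity, Filter.mem_iInf] at h2
  obtain ⟨I, hI, V, hV, hV2⟩ := h2
  refine ⟨hI.toFinset.sup lev, fun x => ?_⟩
  have h3 : (x, cutE lev (hI.toFinset.sup lev) (cutR lev (hI.toFinset.sup lev) x)) ∈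
      {z : TX κ × TX κ | dist (f z.1) (f z.2) < ε} := by
    rw [hV2]
    refine Set.mem_iInter.2 fun i => ?_
    obtain ⟨t, ht, hst⟩ := mem_comap.1 (hV i)
    refine hst ?_
    show (x i, cutE lev _ (cutR lev _ x) i) ∈ t
    rw [cutE_R lev _ (Finset.le_sup (f := lev) (hI.mem_toFinset.2 i.2)) x]
    exact refl_mem_uniformity ht
  have h4 : dist (f x) (f (cutE lev (hI.toFinset.sup lev) (cutR lev (hI.toFinset.sup lev) x))) < ε := h3
  rw [dist_eq_norm] at h4
  exact h4.le

/-- the cut of a continuous tower is continuous -/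
theorem cut_Tcont {J : ℕ} (hcc : ∀ i, Continuous (ψ i)) (hc : ∀ i, Measurable (ψ i))
    (hdep : ∀ i x y, (∀ l, lev l < lev i → x l = y l) → ψ i x = ψ i y) : Continuous (cut lev J ψ hc hdep).T :=
  continuous_pi fun i => (continuous_apply i).add ((hcc i.1).comp (cutE_cont lev J))

theorem inf_main (hm : ∀ (κ : Type) [Fintype κ] (W : Tow κ), W.ND → Continuous W.T → ∀ f : TX κ → ℂ, Continuous f →
      HD.UnifOrth W.T fun x => f x - ∫ y, f y ∂mX κ)
    (hfin : ∀ j, {i | lev i ≤ j}.Finite) (hcc : ∀ i, Continuous (ψ i))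
    (hdep : ∀ i x y, (∀ l, lev l < lev i → x l = y l) → ψ i x = ψ i y) (hT : ∀ x i, T x i = x i + ψ i x)
    (hν : ν = Measure.infinitePi fun _ : κ => AddCircle.haarAddCircle)
    (hbase : ∀ m : κ →₀ ℤ, m ≠ 0 → (∀ i, m i ≠ 0 → lev i = 0) → cocI ψ m 0 ≠ 0)
    (hnd : ∀ (j : ℕ) (m : κ →₀ ℤ), m ≠ 0 → (∀ i, m i ≠ 0 → lev i = j + 1) →
      ∃ b : TX κ, (∀ i, b i ≠ 0 → lev i = j) ∧ ¬ ∃ g : TX κ → ℂ, Measurable g ∧ (∀ x, ‖g x‖ = 1) ∧
        (∀ x y, (∀ i, lev i ≤ j → x i = y i) → g x = g y) ∧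
        ∀ᵐ x ∂ν, (AddCircle.toCircle (cocI ψ m (x + b) - cocI ψ m x) : ℂ) * g x = g (T x)) (f : C(TX κ, ℂ)) :
    HD.UnifOrth T fun x => f x - ∫ y, f y ∂ν := by
  classical
  have hcount : Countable κ := by
    have h1 : (Set.univ : Set κ) = ⋃ j, {i | lev i ≤ j} := by
      ext i
      exact ⟨fun _ => Set.mem_iUnion.2 ⟨lev i, (le_refl (lev i) : lev i ≤ lev i)⟩, fun _ => trivial⟩
    have h2 : (Set.univ : Set κ).Countable := by
      rw [h1]
      exact Set.countable_iUnion fun j => (hfin j).countable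
    exact Set.countable_univ_iff.1 h2
  have hpr : IsProbabilityMeasure ν := by rw [hν]; infer_instance
  have hc : ∀ i, Measurable (ψ i) := fun i => (hcc i).measurable
  have hfi : ∀ g : C(TX κ, ℂ), Integrable g ν := fun g =>
    Integrable.of_bound g.continuous.measurable.aestronglyMeasurable ‖g‖ (Eventually.of_forall fun x => g.norm_coe_le_norm x)
  refine HD.uo_approx fun ε hε => ?_
  obtain ⟨J, hJ⟩ := cut_approx (lev := lev) f (half_pos hε)
  have : Fintype (cutI lev J) := (hfin J).fintype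
  have hmp := cut_meas (lev := lev) (J := J) hν
  let F : C(TX κ, ℂ) := ⟨fun x => f (cutE lev J (cutR lev J x)),
    f.continuous.comp ((cutE_cont lev J).comp (cutR_cont lev J))⟩
  have hF : ∀ x, F x = f (cutE lev J (cutR lev J x)) := fun _ => rfl
  refine ⟨fun x => F x - ∫ y, F y ∂ν, fun x => ?_, ?_⟩
  · have e1 : f x - ∫ y, f y ∂ν - (F x - ∫ y, F y ∂ν) = (f x - F x) - ∫ y, (f y - F y) ∂ν := by
      rw [integral_sub (hfi f) (hfi F)]
      ring
    rw [e1]
    have e2 : ‖∫ y, (f y - F y) ∂ν‖ ≤ ε / 2 := by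
      have := norm_integral_le_of_norm_le_const (μ := ν) (f := fun y => f y - F y) (C := ε / 2)
        (Eventually.of_forall fun y => hJ y)
      simpa using this
    calc ‖(f x - F x) - ∫ y, (f y - F y) ∂ν‖ ≤ ‖f x - F x‖ + ‖∫ y, (f y - F y) ∂ν‖ := norm_sub_le _ _
      _ ≤ ε / 2 + ε / 2 := add_le_add (hJ x) e2
      _ = ε := by ring
  · have h1 := hm (cutI lev J) (cut lev J ψ hc hdep) (cut_nd (J := J) hc hdep hT hν hbase hnd) (cut_Tcont hcc hc hdep)
      (fun x => f (cutE lev J x)) (f.continuous.comp (cutE_cont lev J))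
    have h2 : ∫ y, F y ∂ν = ∫ y, f (cutE lev J y) ∂mX (cutI lev J) := by
      rw [← hmp.map_eq, integral_map (f := fun y => f (cutE lev J y)) hmp.measurable.aemeasurable
        (f.continuous.comp (cutE_cont lev J)).measurable.aestronglyMeasurable]
      rfl
    have h3 : ∀ (n : ℕ) (x : TX κ), cutR lev J (T^[n] x) = (cut lev J ψ hc hdep).T^[n] (cutR lev J x) := by
      intro n
      induction n with
      | zero => intro x; rfl
      | succ n ih =>
        intro x
        rw [Function.iterate_succ_apply, Function.iterate_succ_apply, ih, cut_T (J := J) hc hdep hT]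
    intro u hu δ hδ
    obtain ⟨N0, hN0⟩ := h1 u hu δ hδ
    refine ⟨N0, fun N hN z => ?_⟩
    have := hN0 N hN (cutR lev J z)
    rw [h2]
    refine le_trans (le_of_eq ?_) this
    congr 1
    refine Finset.sum_congr rfl fun n _ => ?_
    rw [← h3]
    rfl

end Pool.Agent.Lib.MP_9fe581_an.AP
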