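import Pool.Agent.Lib.MP_9fe581_an.AP.IDefs
import Pool.Agent.Lib.MP_9fe581_an.AP.G2
import Pool.Agent.Lib.MP_9fe581_an.AH.Filt

/-!
# AP, J1: joinings, the σ-algebra `D ∨ Y'`
-/

set_option autoImplicit false
set_option linter.unusedSectionVars false
set_option warn.classDefReducibility false

open Finset MeasureTheory Filter Topology ProbabilityTheory
open scoped ComplexConjugate

namespace Pool.Agent.Lib.MP_9fe581_an.AP

open HT (TX mX ch)
open AH (BM)

variable {κ : Type} [Fintype κ] {W : Tow κ} {p q : ℕ} {lam : Measure (TX κ × TX κ)}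

theorem Tow.PJ.ej (hW : W.ND) (hJ : W.PJ p q lam) : AH.EJ W.ah p q lam := by
  classical
  exact AH.EJ.of_erg (Tow.nd_ah hW) hJ.pp.pos hJ.qp.pos hJ.prob hJ.erg

theorem Tow.PJ.fst (hW : W.ND) (hJ : W.PJ p q lam) : MeasurePreserving Prod.fst lam (mX κ) := (hJ.ej hW).fst

theorem Tow.PJ.snd (hW : W.ND) (hJ : W.PJ p q lam) : MeasurePreserving Prod.snd lam (mX κ) := (hJ.ej hW).snd

/-- the marginals of the joinings -/
theorem Tow.marg1 (hW : W.ND) (hJ : W.PJ p q lam) : lam.map Prod.fst = mX κ := (hJ.fst hW).map_eq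

theorem Tow.marg2 (hW : W.ND) (hJ : W.PJ p q lam) : lam.map Prod.snd = mX κ := (hJ.snd hW).map_eq

/-- the inverse of the product map -/
noncomputable def Tow.RU (W : Tow κ) (p q : ℕ) : TX κ × TX κ → TX κ × TX κ := Prod.map W.R^[p] W.R^[q]

theorem Tow.U_RU (W : Tow κ) (p q : ℕ) (z : TX κ × TX κ) : Prod.map W.T^[p] W.T^[q] (W.RU p q z) = z :=
  Prod.ext ((Function.LeftInverse.iterate (Tow.T_R W) p) z.1) ((Function.LeftInverse.iterate (Tow.T_R W) q) z.2)

theorem Tow.RU_U (W : Tow κ) (p q : ℕ) (z : TX κ × TX κ) : W.RU p q (Prod.map W.T^[p] W.T^[q] z) = z :=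
  Prod.ext ((Function.LeftInverse.iterate (Tow.R_T W) p) z.1) ((Function.LeftInverse.iterate (Tow.R_T W) q) z.2)

theorem Tow.RU_meas (W : Tow κ) (p q : ℕ) : Measurable (W.RU p q) :=
  (((Tow.R_meas W).iterate p).comp measurable_fst).prodMk (((Tow.R_meas W).iterate q).comp measurable_snd)

theorem Tow.PJ.sysU (hJ : W.PJ p q lam) : Sys lam (Prod.map W.T^[p] W.T^[q]) :=
  ⟨hJ.erg, W.RU p q, Tow.RU_meas W p q, Tow.U_RU W p q, Tow.RU_U W p q⟩

theorem Tow.PJ.RU_pres (hJ : W.PJ p q lam) : MeasurePreserving (W.RU p q) lam lam := by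
  refine ⟨Tow.RU_meas W p q, ?_⟩
  conv_lhs => rw [← hJ.erg.map_eq]
  rw [Measure.map_map (Tow.RU_meas W p q) hJ.erg.measurable]
  have : W.RU p q ∘ Prod.map W.T^[p] W.T^[q] = id := funext (Tow.RU_U W p q)
  rw [this, Measure.map_id]

/-- the inverse leaves a factor invariant -/
theorem fac_inv {X : Type} [MeasurableSpace X] {μ : Measure X} {S R : X → X} {D : SA X} (hD : Fac μ S D)
    (hSR : ∀ x, S (R x) = x) : D.m.comap R = D.m := by
  conv_lhs => rw [← hD.inv]
  rw [MeasurableSpace.comap_comp]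
  have : S ∘ R = id := funext hSR
  rw [this, MeasurableSpace.comap_id]

/-- `D ∨ Y'` before completion -/
def hid0 (D : SA (TX κ)) : SA (TX κ × TX κ) :=
  ⟨D.m.comap Prod.fst ⊔ (inferInstance : MeasurableSpace (TX κ)).comap Prod.snd⟩

theorem hid0_le {D : SA (TX κ)} (hD : D.m ≤ MeasurableSpace.pi) : (hid0 D).m ≤ (inferInstance : MeasurableSpace (TX κ × TX κ)) := by
  refine sup_le ?_ measurable_snd.comap_le
  exact (MeasurableSpace.comap_mono hD).trans measurable_fst.comap_le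

/-- `D ∨ Y'` is a factor -/
theorem Tow.PJ.hid_fac (hJ : W.PJ p q lam) {D : SA (TX κ)} (hD : Fac (mX κ) W.T D) :
    Fac lam (Prod.map W.T^[p] W.T^[q]) (hid lam D) := by
  have hDp := hD.iter p
  have hle := hid0_le hD.le'
  have key : ∀ (A B : TX κ → TX κ), D.m.comap A = D.m → Measurable B → (hid0 D).m.comap (Prod.map A B) ≤ (hid0 D).m := by
    intro A B hA hB
    show (D.m.comap Prod.fst ⊔ (inferInstance : MeasurableSpace (TX κ)).comap Prod.snd).comap (Prod.map A B) ≤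
      D.m.comap Prod.fst ⊔ (inferInstance : MeasurableSpace (TX κ)).comap Prod.snd
    rw [MeasurableSpace.comap_sup, MeasurableSpace.comap_comp, MeasurableSpace.comap_comp]
    refine sup_le_sup ?_ ?_
    · have e : (Prod.fst : TX κ × TX κ → TX κ) ∘ Prod.map A B = A ∘ Prod.fst := rfl
      rw [e, ← MeasurableSpace.comap_comp, hA]
    · have e : (Prod.snd : TX κ × TX κ → TX κ) ∘ Prod.map A B = B ∘ Prod.snd := rfl
      rw [e, ← MeasurableSpace.comap_comp]
      exact MeasurableSpace.comap_mono hB.comap_le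
  refine cpl_fac (D := hid0 D) hJ.erg.toMeasurePreserving hJ.RU_pres (Tow.U_RU W p q) (Tow.RU_U W p q) (fun s hs => ?_)
    fun s hs => ?_
  · exact le_cpl hle _ (key W.T^[p] W.T^[q] hDp.inv ((Tow.T_meas W).iterate q) _ ⟨s, hs, rfl⟩)
  · have hR : D.m.comap W.R^[p] = D.m := fac_inv hDp fun x => (Function.LeftInverse.iterate (Tow.T_R W) p) x
    exact le_cpl hle _ (key W.R^[p] W.R^[q] hR ((Tow.R_meas W).iterate q) _ ⟨s, hs, rfl⟩)

theorem hid_fst {D : SA (TX κ)} (hD : D.m ≤ MeasurableSpace.pi) {f : TX κ → ℂ} (hf : Measurable[D.m] f) :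
    Measurable[(hid lam D).m] fun z : TX κ × TX κ => f z.1 := by
  have h1 : Measurable[(hid0 D).m] fun z : TX κ × TX κ => f z.1 := by
    have h2 : @Measurable _ _ (hid0 D).m D.m (Prod.fst : TX κ × TX κ → TX κ) := by
      rw [measurable_iff_comap_le]
      exact le_sup_left
    exact hf.comp h2
  exact h1.mono (le_cpl (hid0_le hD)) le_rfl

theorem sec_le_hid {D : SA (TX κ)} : (sec lam).m ≤ (hid lam D).m := by
  refine cpl_mono (D := ⟨(inferInstance : MeasurableSpace (TX κ)).comap Prod.snd⟩) (D' := hid0 D) ?_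
  exact le_sup_right

theorem sec_le : (sec lam).m ≤ (inferInstance : MeasurableSpace (TX κ × TX κ)) := cpl_le _

/-- a class that is not in `D ∨ Y'` is orthogonal, together with its multiples by functions of `D`, to the second factor -/
theorem Tow.PJ.class_zero (hJ : W.PJ p q lam) {D : SA (TX κ)} (hD : Fac (mX κ) W.T D) {v : TX κ → ℂ} (hv : Cls W.T^[p] D v)
    (hn : ¬ Measurable[(hid lam D).m] fun z : TX κ × TX κ => v z.1) {d : TX κ → ℂ} (hd : Measurable[D.m] d) (hdb : Bd d) :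
    ce lam (sec lam) (fun z : TX κ × TX κ => v z.1 * d z.1) =ᵐ[lam] 0 := by
  have hpr := hJ.prob
  have hF := hJ.hid_fac hD
  have hvb : BM lam fun z : TX κ × TX κ => v z.1 :=
    AH.BM.of_bdd (hv.meas.comp measurable_fst) (C := 1) fun z => (hv.norm z.1).le
  have hdB : BM lam fun z : TX κ × TX κ => d z.1 := by
    obtain ⟨C, hC⟩ := hdb.bdd
    exact AH.BM.of_bdd (hdb.meas.comp measurable_fst) (C := C) fun z => hC z.1
  have hcl : Cls (Prod.map W.T^[p] W.T^[q]) (hid lam D) fun z : TX κ × TX κ => v z.1 :=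
    ⟨hv.meas.comp measurable_fst, fun z => hv.norm z.1, hid_fst hD.le' hv.ratio⟩
  have h0 : ce lam (hid lam D) (fun z : TX κ × TX κ => v z.1) =ᵐ[lam] 0 := by
    by_contra hne
    exact hn (dich hJ.sysU hF hcl hne)
  have h1 : ce lam (hid lam D) (fun z : TX κ × TX κ => v z.1 * d z.1) =ᵐ[lam] 0 := by
    refine (ce_pull hF.le' hvb hdB (hid_fst hD.le' hd)).trans ?_
    filter_upwards [h0] with z hz
    rw [hz]; simp
  have h2 : ce lam (sec lam) (ce lam (hid lam D) fun z : TX κ × TX κ => v z.1 * d z.1) =ᵐ[lam]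
      ce lam (sec lam) fun z : TX κ × TX κ => v z.1 * d z.1 := condExp_condExp_of_le sec_le_hid hF.le'
  refine h2.symm.trans ((ce_congr h1).trans ?_)
  exact ce_zero

/-- `Jsq` in the notation of AH -/
theorem Tow.PJ.jsq_eq (hW : W.ND) (hJ : W.PJ p q lam) {f : TX κ → ℂ} (hf : BM (mX κ) f) :
    Jsq lam f = ∫ z, ‖AH.J lam f z‖ ^ 2 ∂lam := by
  have hpr := hJ.prob
  have h1 : ce lam (sec lam) (fun z : TX κ × TX κ => f z.1) =ᵐ[lam] AH.J lam f :=
    condExp_cpl (μ := lam) (D := ⟨(inferInstance : MeasurableSpace (TX κ)).comap Prod.snd⟩) measurable_snd.comap_le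
      (hf.comp (hJ.fst hW)).integrable
  exact nsq_congr h1

/-- integrals over the first factor -/
theorem Tow.PJ.nsq_fst (hW : W.ND) (hJ : W.PJ p q lam) {f : TX κ → ℂ} (hf : BM (mX κ) f) :
    nsq lam (fun z : TX κ × TX κ => f z.1) = nsq (mX κ) f := by
  unfold nsq
  rw [← (hJ.fst hW).map_eq, integral_map measurable_fst.aemeasurable]
  rw [(hJ.fst hW).map_eq]
  exact (hf.1.norm.pow 2)

end Pool.Agent.Lib.MP_9fe581_an.AP
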