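import Pool.Agent.Lib.MP_9fe581_an.AP.J2

/-!
# AP, J3: the bound of the second factor at all levels
-/

set_option autoImplicit false
set_option linter.unusedSectionVars false
set_option warn.classDefReducibility false

open Finset MeasureTheory Filter Topology ProbabilityTheory
open scoped ComplexConjugate

namespace Pool.Agent.Lib.MP_9fe581_an.AP

open HT (TX mX ch)
open AH (BM)

variable {κ : Type} [Fintype κ] {W : Tow κ} {p q : ℕ} {lam : Measure (TX κ × TX κ)}

/-- the norm in `L²` -/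
theorem nrm_lp {X : Type} [MeasurableSpace X] {μ : Measure X} [IsProbabilityMeasure μ] (H : Lp ℂ 2 μ) {h : X → ℂ} (hh : H =ᵐ[μ] h) :
    nrm μ h = ‖H‖ := by
  have h1 : nsq μ h = ‖H‖ ^ 2 := by
    have h2 : ((nsq μ h : ℝ) : ℂ) = ((‖H‖ ^ 2 : ℝ) : ℂ) := by
      rw [nsq_ofReal]
      have h3 : inner ℂ H H = ((‖H‖ ^ 2 : ℝ) : ℂ) := by
        rw [inner_self_eq_norm_sq_to_K]; push_cast; rfl
      rw [← h3, L2.inner_def]
      refine integral_congr_ae ?_
      filter_upwards [hh] with x hx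
      rw [hx, RCLike.inner_apply]
    exact_mod_cast h2
  unfold nrm
  rw [h1, Real.sqrt_sq (norm_nonneg _)]

/-- trigonometric polynomials are dense -/
theorem trig_dense {f : TX κ → ℂ} (hf : BM (mX κ) f) {δ : ℝ} (hδ : 0 < δ) :
    ∃ (S : Finset (κ →₀ ℤ)) (c : (κ →₀ ℤ) → ℂ), nrm (mX κ) (fun x => f x - ∑ n ∈ S, c n * ch n x) ≤ δ := by
  classical
  set F : Lp ℂ 2 (mX κ) := (hf.memLp 2).toLp f with hF
  have hFf : F =ᵐ[mX κ] f := MemLp.coeFn_toLp _
  have h1 : F ∈ (Submodule.span ℂ (Set.range (AH.chL (κ := κ)))).topologicalClosure := by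
    rw [AH.chL_closure]; trivial
  rw [← SetLike.mem_coe, Submodule.topologicalClosure_coe, Metric.mem_closure_iff] at h1
  obtain ⟨G, hG, hd⟩ := h1 δ hδ
  obtain ⟨c, hc⟩ := (Finsupp.mem_span_range_iff_exists_finsupp).1 hG
  refine ⟨c.support, fun n => c n, ?_⟩
  have hGe : G =ᵐ[mX κ] fun x => ∑ n ∈ c.support, c n * ch n x := by
    rw [← hc]
    have key : ∀ s : Finset (κ →₀ ℤ), (∑ n ∈ s, c n • AH.chL n : Lp ℂ 2 (mX κ)) =ᵐ[mX κ] fun x => ∑ n ∈ s, c n * ch n x := by
      intro s
      induction s using Finset.induction_on with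
      | empty =>
        simp only [sum_empty]
        exact Lp.coeFn_zero _ _ _
      | insert a s ha ih =>
        simp only [sum_insert ha]
        filter_upwards [Lp.coeFn_add (c a • AH.chL a) (∑ n ∈ s, c n • AH.chL n), Lp.coeFn_smul (c a) (AH.chL a), AH.chL_coe a, ih]
          with x b1 b2 b3 b4
        rw [b1, Pi.add_apply, b2, Pi.smul_apply, b3, b4, smul_eq_mul]
    exact key c.support
  have h2 : (F - G : Lp ℂ 2 (mX κ)) =ᵐ[mX κ] fun x => f x - ∑ n ∈ c.support, c n * ch n x := by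
    filter_upwards [Lp.coeFn_sub F G, hFf, hGe] with x b1 b2 b3
    rw [b1, Pi.sub_apply, b2, b3]
  rw [nrm_lp (F - G) h2, ← dist_eq_norm]
  exact hd.le

/-- the average of a character -/
theorem AV_ch (a : ℕ) (n : κ →₀ ℤ) (x : TX κ) [Decidable (∀ i, n i ≠ 0 → W.lev i < a)] :
    AH.AV W.ah a (ch n) x = if (∀ i, n i ≠ 0 → W.lev i < a) then ch n x else 0 := by
  classical
  show ∫ y, ch n (AH.mixa W.ah a x y) ∂mX κ = _
  have e : ∀ y, ch n (AH.mixa W.ah a x y) = ch (n.filter fun i => W.lev i < a) x * ch (n.filter fun i => ¬ W.lev i < a) y :=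
    fun y => AH.mixa_ch W.ah a n x y
  simp only [e]
  rw [integral_const_mul, HT.ch_int]
  by_cases h : ∀ i, n i ≠ 0 → W.lev i < a
  · have h1 : (n.filter fun i => ¬ W.lev i < a) = 0 := by
      refine Finsupp.ext fun i => ?_
      rw [Finsupp.filter_apply, Finsupp.coe_zero, Pi.zero_apply]
      by_cases h2 : W.lev i < a
      · rw [if_neg (not_not.2 h2)]
      · rw [if_pos h2]
        by_contra h3
        exact h2 (h i h3)
    have h2 : (n.filter fun i => W.lev i < a) = n := by
      have := Finsupp.filter_add_filter_not n fun i => W.lev i < a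
      rw [h1, add_zero] at this
      exact this
    rw [if_pos h1, if_pos h, mul_one, h2]
  · rw [if_neg h, if_neg, mul_zero]
    intro h1
    refine h fun i hi => ?_
    by_contra h2
    have h3 := DFunLike.congr_fun h1 i
    rw [Finsupp.filter_apply, if_pos h2] at h3
    exact hi h3

/-- the part of `n` on the level `h` -/
noncomputable def Tow.top (W : Tow κ) (h : ℕ) (n : κ →₀ ℤ) : κ →₀ ℤ := n.filter fun i => ¬ W.lev i < h

theorem Tow.top_on {h : ℕ} {n : κ →₀ ℤ} (hn : ∀ i, n i ≠ 0 → W.lev i < h + 1) : W.On h (W.top h n) := by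
  intro i hi
  unfold Tow.top at hi
  rw [Finsupp.filter_apply] at hi
  by_cases h1 : W.lev i < h
  · rw [if_neg (not_not.2 h1)] at hi
    exact absurd rfl hi
  · rw [if_pos h1] at hi
    have := hn i hi
    omega

theorem Tow.ch_mode (h : ℕ) (n : κ →₀ ℤ) : W.Mode h (W.top h n) (ch n) := by
  classical
  have e : (fun x => conj (ch (W.top h n) x) * ch n x) = ch (n.filter fun i => W.lev i < h) := by
    funext x
    have h1 : ch n x = ch (n.filter fun i => W.lev i < h) x * ch (W.top h n) x := by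
      rw [← HT.ch_add]
      unfold Tow.top
      rw [Finsupp.filter_add_filter_not]
    rw [h1]
    calc conj (ch (W.top h n) x) * (ch (n.filter fun i => W.lev i < h) x * ch (W.top h n) x)
        = ch (n.filter fun i => W.lev i < h) x * (ch (W.top h n) x * conj (ch (W.top h n) x)) := by ring
      _ = _ := by rw [AH.unim_mul _ (HT.ch_norm _ _), mul_one]
  show Measurable[(W.Y h).m] fun x => conj (ch (W.top h n) x) * ch n x
  rw [e]
  refine Tow.Y_of_low W (HT.ch_cont _).measurable (AH.ch_low W.ah fun i hi => ?_)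
  by_contra h1
  exact hi (Finsupp.filter_apply_neg (fun i => W.lev i < h) n h1)

/-- **finite sums of pure modes are dense in the functions of level `≤ h`** -/
theorem Tow.modes_dense {h : ℕ} {f : TX κ → ℂ} (hf : Bd f) (hY : Measurable[(W.Y (h + 1)).m] f) {δ : ℝ} (hδ : 0 < δ) :
    ∃ (M : Finset (κ →₀ ℤ)) (F : (κ →₀ ℤ) → TX κ → ℂ), (∀ m ∈ M, W.On h m) ∧ (∀ m ∈ M, Bd (F m)) ∧ (∀ m ∈ M, W.Mode h m (F m)) ∧
      nrm (mX κ) (fun x => f x - ∑ m ∈ M, F m x) ≤ δ := by
  classical
  obtain ⟨S, c, hS⟩ := trig_dense hf.bm hδ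
  set S' := S.filter fun n => ∀ i, n i ≠ 0 → W.lev i < h + 1 with hS'
  set P : TX κ → ℂ := fun x => ∑ n ∈ S, c n * ch n x with hP
  have hPm : Measurable P := Finset.measurable_sum _ fun n _ => ((HT.ch_cont n).measurable).const_mul (c n)
  have hPB : Bd P := ⟨hPm, ∑ n ∈ S, ‖c n‖, fun x => (norm_sum_le _ _).trans (sum_le_sum fun n _ => by
    rw [norm_mul, HT.ch_norm, mul_one])⟩
  have hAP : ∀ x, AH.AV W.ah (h + 1) P x = ∑ n ∈ S', c n * ch n x := by
    intro x
    show ∫ y, ∑ n ∈ S, c n * ch n (AH.mixa W.ah (h + 1) x y) ∂mX κ = _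
    have hmc : Continuous fun y => AH.mixa W.ah (h + 1) x y := (AH.mixa_cont W.ah (h + 1)).comp (continuous_const.prodMk continuous_id)
    have hint : ∀ n ∈ S, Integrable (fun y => c n * ch n (AH.mixa W.ah (h + 1) x y)) (mX κ) := fun n _ =>
      ((AH.BM.of_bdd (((HT.ch_cont n).comp hmc).measurable) (C := 1) fun y => (HT.ch_norm n _).le).integrable).const_mul (c n)
    rw [integral_finsetSum S hint]
    rw [hS', sum_filter]
    refine sum_congr rfl fun n _ => ?_
    rw [integral_const_mul]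
    have h1 := AV_ch (W := W) (h + 1) n x
    have h2 : AH.AV W.ah (h + 1) (ch n) x = ∫ y, ch n (AH.mixa W.ah (h + 1) x y) ∂mX κ := rfl
    rw [← h2, h1]
    split_ifs
    · rfl
    · rw [mul_zero]
  set M := S'.image (W.top h) with hM
  refine ⟨M, fun m x => ∑ n ∈ S'.filter (fun n => W.top h n = m), c n * ch n x, fun m hm => ?_, fun m _ => ?_, fun m _ => ?_, ?_⟩
  · obtain ⟨n, hn, rfl⟩ := mem_image.1 hm
    exact Tow.top_on (mem_filter.1 hn).2
  · refine ⟨Finset.measurable_sum _ fun n _ => ((HT.ch_cont n).measurable).const_mul (c n),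
      ∑ n ∈ S'.filter (fun n => W.top h n = m), ‖c n‖, fun x => (norm_sum_le _ _).trans (sum_le_sum fun n _ => by
        rw [norm_mul, HT.ch_norm, mul_one])⟩
  · have e : (fun x => conj (ch m x) * ∑ n ∈ S'.filter (fun n => W.top h n = m), c n * ch n x) =
        fun x => ∑ n ∈ S'.filter (fun n => W.top h n = m), c n * (conj (ch m x) * ch n x) := by
      funext x
      rw [mul_sum]
      exact sum_congr rfl fun n _ => by ring
    show Measurable[(W.Y h).m] fun x => conj (ch m x) * ∑ n ∈ S'.filter (fun n => W.top h n = m), c n * ch n x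
    rw [e]
    refine Finset.measurable_sum _ fun n hn => ?_
    have h1 : W.Mode h m (ch n) := by
      have := Tow.ch_mode (W := W) h n
      rw [(mem_filter.1 hn).2] at this
      exact this
    exact Measurable.const_mul h1 (c n)
  · have hfib : ∀ x, ∑ m ∈ M, ∑ n ∈ S'.filter (fun n => W.top h n = m), c n * ch n x = AH.AV W.ah (h + 1) P x := by
      intro x
      rw [hAP]
      exact sum_fiberwise_of_maps_to (fun n hn => mem_image_of_mem _ hn) _
    simp only [hfib]
    have hBd2 : Bd fun x => f x - P x := hf.sub hPB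
    have e1 : (fun x => f x - AH.AV W.ah (h + 1) P x) =ᵐ[mX κ] ce (mX κ) (W.Y (h + 1)) fun x => f x - P x := by
      have a1 := ce_sub (μ := mX κ) (D := W.Y (h + 1)) hf.bm hPB.bm
      have a2 := Tow.ce_Y W (h + 1) hPB
      have a3 : ce (mX κ) (W.Y (h + 1)) f = f := condExp_of_stronglyMeasurable (Tow.Y_le W (h + 1)) hY.stronglyMeasurable hf.bm.integrable
      filter_upwards [a1, a2] with x b1 b2
      rw [b1, b2, a3]
    rw [nrm_congr e1]
    exact (ce_nrm_le (Tow.Y_le W (h + 1)) hBd2.bm).trans hS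

/-- the images of different modes under `J` are orthogonal -/
theorem Tow.PJ.J_orth (hW : W.ND) (hJ : W.PJ p q lam) {h : ℕ} {m m' : κ →₀ ℤ} (hm : W.On h m) (hm' : W.On h m') (hne : m ≠ m')
    {f g : TX κ → ℂ} (hf : Bd f) (hg : Bd g) (hM : W.Mode h m f) (hM' : W.Mode h m' g) :
    ∫ z, ce lam (sec lam) (fun z => f z.1) z * conj (ce lam (sec lam) (fun z => g z.1) z) ∂lam = 0 := by
  classical
  have hpr := hJ.prob
  have hE := hJ.ej hW
  -- replace `f`, `g` by `F ch m`, `F' ch m'` with `F`, `F'` of level `< h`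
  have hrep : ∀ {m : κ →₀ ℤ} {f : TX κ → ℂ}, Bd f → W.Mode h m f →
      ∃ F : TX κ → ℂ, Measurable F ∧ (∃ C, ∀ x, ‖F x‖ ≤ C) ∧ AH.Low W.ah h F ∧ f =ᵐ[mX κ] fun x => F x * ch m x := by
    intro m f hf hM
    have hb : Bd fun x => conj (ch m x) * f x := by
      obtain ⟨C, hC⟩ := hf.bdd
      refine ⟨(Complex.continuous_conj.measurable.comp (HT.ch_cont m).measurable).mul hf.meas, C, fun x => ?_⟩
      rw [norm_mul, RCLike.norm_conj, HT.ch_norm, one_mul]; exact hC x
    obtain ⟨C, hC⟩ := hb.bdd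
    refine ⟨AH.AV W.ah h fun x => conj (ch m x) * f x, AH.AV_meas W.ah h hb.meas, ⟨C, AH.AV_le W.ah h hC⟩, AH.AV_low W.ah h _, ?_⟩
    filter_upwards [Tow.low_of_Y W hb hM] with x hx
    rw [← hx]
    calc f x = f x * (ch m x * conj (ch m x)) := by rw [AH.unim_mul _ (HT.ch_norm _ _), mul_one]
      _ = _ := by ring
  obtain ⟨F, F1, ⟨C, F2⟩, F3, F4⟩ := hrep hf hM
  obtain ⟨G, G1, ⟨C', G2⟩, G3, G4⟩ := hrep hg hM'
  have h1 := AH.J_orth W.ah (Tow.nd_ah hW) hJ.pp.pos hJ.qp.pos hE hne hm hm' F1 G1 (C := max C C')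
    (fun x => (F2 x).trans (le_max_left _ _)) (fun x => (G2 x).trans (le_max_right _ _)) F3 G3
  rw [← h1]
  have key : ∀ {f F : TX κ → ℂ}, BM (mX κ) F → f =ᵐ[mX κ] F → ce lam (sec lam) (fun z => f z.1) =ᵐ[lam] AH.J lam F := by
    intro f F hF hfF
    have a1 : (fun z : TX κ × TX κ => f z.1) =ᵐ[lam] fun z => F z.1 := (hJ.fst hW).quasiMeasurePreserving.ae hfF
    refine (ce_congr a1).trans ?_
    exact condExp_cpl (μ := lam) (D := ⟨(inferInstance : MeasurableSpace (TX κ)).comap Prod.snd⟩) measurable_snd.comap_le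
      (hF.comp (hJ.fst hW)).integrable
  have hFB : BM (mX κ) fun x => F x * ch m x := (AH.BM.of_bdd F1 F2).mul (AH.ch_bm m)
  have hGB : BM (mX κ) fun x => G x * ch m' x := (AH.BM.of_bdd G1 G2).mul (AH.ch_bm m')
  refine integral_congr_ae ?_
  filter_upwards [key hFB F4, key hGB G4] with z a b
  rw [a, b]

/-- Pythagoras for finite families -/
theorem nsq_sum {X : Type} [MeasurableSpace X] {μ : Measure X} [IsProbabilityMeasure μ] {ι : Type} [DecidableEq ι] (s : Finset ι)
    {f : ι → X → ℂ} (hf : ∀ i ∈ s, BM μ (f i)) (ho : ∀ i ∈ s, ∀ j ∈ s, i ≠ j → ∫ x, f i x * conj (f j x) ∂μ = 0) :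
    nsq μ (fun x => ∑ i ∈ s, f i x) = ∑ i ∈ s, nsq μ (f i) := by
  induction s using Finset.induction_on with
  | empty => simp [nsq]
  | insert a s ha ih =>
    have hfa := hf a (mem_insert_self a s)
    have hfs : ∀ i ∈ s, BM μ (f i) := fun i hi => hf i (mem_insert_of_mem hi)
    simp only [sum_insert ha]
    rw [nsq_add hfa (AH.BM.sum s hfs), ih hfs fun i hi j hj => ho i (mem_insert_of_mem hi) j (mem_insert_of_mem hj)]
    have h1 : ∫ x, f a x * conj (∑ i ∈ s, f i x) ∂μ = 0 := by
      have e : (fun x => f a x * conj (∑ i ∈ s, f i x)) = fun x => ∑ i ∈ s, f a x * conj (f i x) := by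
        funext x; rw [map_sum, mul_sum]
      rw [e, integral_finsetSum s fun i hi => (hfa.mul (hfs i hi).conj).integrable]
      exact sum_eq_zero fun i hi => ho a (mem_insert_self a s) i (mem_insert_of_mem hi) fun h => ha (h ▸ hi)
    rw [h1, Complex.zero_re, mul_zero, add_zero]

/-- a passage to the limit -/
private theorem lim_le {a b c : ℝ} {K : ℝ} (h : ∀ δ : ℝ, 0 < δ → δ ≤ 1 → a ≤ b + c + K * δ) (_hK : 0 ≤ K) : a ≤ b + c := by
  by_contra hlt
  push Not at hlt
  have hd : 0 < a - (b + c) := by linarith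
  set δ : ℝ := min 1 ((a - (b + c)) / (2 * (K + 1))) with hδ
  have hK1 : 0 < 2 * (K + 1) := by linarith
  have hδ0 : 0 < δ := lt_min one_pos (div_pos hd hK1)
  have h1 := h δ hδ0 (min_le_left _ _)
  have h2 : K * δ ≤ (a - (b + c)) / 2 := by
    have h3 : δ ≤ (a - (b + c)) / (2 * (K + 1)) := min_le_right _ _
    calc K * δ ≤ (K + 1) * δ := by nlinarith
      _ ≤ (K + 1) * ((a - (b + c)) / (2 * (K + 1))) := mul_le_mul_of_nonneg_left h3 (by linarith)
      _ = (a - (b + c)) / 2 := by field_simp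
  linarith

/-- the final bound at every level -/
theorem Tow.jb (hW : W.ND) (hDP : ∀ p q lam, W.PJ p q lam → W.DP p q lam) (hC : ∀ h, W.Core h) (h : ℕ) : W.JB h := by
  classical
  induction h with
  | zero =>
    intro ε hε
    refine ⟨0, fun p q lam hJ _ f hf hY => ?_⟩
    have hpr := hJ.prob
    have h1 := Tow.low_of_Y W hf hY
    have h2 : ∀ x, AH.AV W.ah 0 f x = AH.AV W.ah 0 f 0 := fun x => AH.AV_low W.ah 0 f x 0 fun i hi => absurd hi (Nat.not_lt_zero _)
    set c := AH.AV W.ah 0 f 0 with hc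
    have h3 : f =ᵐ[mX κ] fun _ => c := by
      filter_upwards [h1] with x hx
      rw [hx, h2]
    have h4 : Jsq lam f = ‖c‖ ^ 2 := by
      have a1 : (fun z : TX κ × TX κ => f z.1) =ᵐ[lam] fun _ => c := (hJ.fst hW).quasiMeasurePreserving.ae h3
      have a2 : ce lam (sec lam) (fun _ : TX κ × TX κ => c) = fun _ => c := condExp_const sec_le c
      unfold Jsq
      rw [nsq_congr (ce_congr a1), a2]
      simp [nsq]
    have h5 : Esq (W.D p q lam 0) f = ‖c‖ ^ 2 := by
      have a2 : ce (mX κ) (W.D p q lam 0) (fun _ => c) = fun _ => c := condExp_const ((hDP p q lam hJ).fac 0).le' c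
      rw [Esq_eq, nsq_congr (ce_congr h3), a2]
      simp [nsq]
    rw [h4, h5]
    have := nsq_nonneg (μ := mX κ) f
    nlinarith
  | succ h ih =>
    intro ε hε
    obtain ⟨q0, hq0⟩ := Tow.jb_mode hW hDP (hC h) ih ε hε
    refine ⟨q0, fun p q lam hJ hq f hf hY => ?_⟩
    have hpr := hJ.prob
    have hD := (hDP p q lam hJ).fac (h + 1)
    set D := W.D p q lam (h + 1) with hDd
    set K := nrm (mX κ) f with hK
    have hK0 : 0 ≤ K := nrm_nonneg _
    have hcomp : ∀ {u : TX κ → ℂ}, Bd u → BM lam fun z : TX κ × TX κ => u z.1 := fun hu => hu.bm.comp (hJ.fst hW)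
    refine lim_le (K := 2 * (K + 1) + 1 + (2 * K + 1) + ε * (2 * K + 1)) (fun δ hδ hδ1 => ?_) (by positivity)
    obtain ⟨M, F, hon, hFB, hFM, hd⟩ := Tow.modes_dense hf hY hδ
    set P : TX κ → ℂ := fun x => ∑ m ∈ M, F m x with hP
    have hPB : Bd P := by
      have : ∀ s ⊆ M, Bd fun x => ∑ m ∈ s, F m x := by
        intro s hs
        induction s using Finset.induction_on with
        | empty => exact ⟨by simp, 0, fun x => by simp⟩
        | insert a s ha ih2 =>
          obtain ⟨C, hC⟩ := (hFB a (hs (mem_insert_self a s))).bdd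
          obtain ⟨C', hC'⟩ := (ih2 fun i hi => hs (mem_insert_of_mem hi)).bdd
          simp only [sum_insert ha]
          exact ⟨(hFB a (hs (mem_insert_self a s))).meas.add (ih2 fun i hi => hs (mem_insert_of_mem hi)).meas, C + C',
            fun x => (norm_add_le _ _).trans (add_le_add (hC x) (hC' x))⟩
      exact this M subset_rfl
    have hsubB : Bd fun x => f x - P x := hf.sub hPB
    -- the bound for `P`
    have hn : nsq (mX κ) P = ∑ m ∈ M, nsq (mX κ) (F m) := by
      refine nsq_sum M (fun m hm => (hFB m hm).bm) fun m hm m' hm' hne => ?_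
      have e1 : Measurable[(W.Y h).m] fun x => (conj (ch m x) * F m x) * conj (conj (ch m' x) * F m' x) :=
        Measurable.mul (hFM m hm) (Complex.continuous_conj.measurable.comp (hFM m' hm'))
      set u : TX κ → ℂ := fun x => (conj (ch m x) * F m x) * conj (conj (ch m' x) * F m' x) with hu
      have hchB : ∀ m, Bd (ch (κ := κ) m) := fun m => ⟨(HT.ch_cont m).measurable, 1, fun x => (HT.ch_norm m x).le⟩
      have huB : Bd u := ((hchB m).conj.mul (hFB m hm)).mul ((hchB m').conj.mul (hFB m' hm')).conj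
      have e2 : (fun x => F m x * conj (F m' x)) = fun x => ch (m - m') x * conj (conj (u x)) := by
        funext x
        rw [Complex.conj_conj, hu]; dsimp only
        rw [sub_eq_add_neg, HT.ch_add, HT.ch_neg]
        simp only [map_mul, Complex.conj_conj]
        calc F m x * conj (F m' x) = F m x * conj (F m' x) * (ch m x * conj (ch m x)) * (ch m' x * conj (ch m' x)) := by
              rw [AH.unim_mul _ (HT.ch_norm _ _), AH.unim_mul _ (HT.ch_norm _ _), mul_one, mul_one]
          _ = _ := by ring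
      have hmm : W.On h (m - m') := by
        intro i hi
        by_contra h6
        have a1 : m i = 0 := by
          by_contra h7
          exact h6 (hon m hm i h7)
        have a2 : m' i = 0 := by
          by_contra h7
          exact h6 (hon m' hm' i h7)
        exact hi (by rw [Finsupp.sub_apply, a1, a2, sub_self])
      rw [e2, ce_int' (Tow.Y_le W h) (hchB _).bm huB.conj.bm (Complex.continuous_conj.measurable.comp e1)]
      have e3 : (fun x => ce (mX κ) (W.Y h) (ch (m - m')) x * conj (conj (u x))) =ᵐ[mX κ] fun _ => 0 := by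
        filter_upwards [Tow.ce_ch hmm (sub_ne_zero.2 hne)] with x hx
        rw [hx]; simp
      rw [integral_congr_ae e3, integral_zero]
    have hj : Jsq lam P = ∑ m ∈ M, Jsq lam (F m) := by
      have e1 : ce lam (sec lam) (fun z : TX κ × TX κ => P z.1) =ᵐ[lam]
          fun z => ∑ m ∈ M, ce lam (sec lam) (fun z : TX κ × TX κ => F m z.1) z := ce_sum M fun m hm => hcomp (hFB m hm)
      show nsq lam (ce lam (sec lam) fun z : TX κ × TX κ => P z.1) = _
      rw [nsq_congr e1]
      exact nsq_sum M (fun m hm => ce_bm (hcomp (hFB m hm))) fun m hm m' hm' hne =>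
        hJ.J_orth hW (hon m hm) (hon m' hm') hne (hFB m hm) (hFB m' hm') (hFM m hm) (hFM m' hm')
    have he : Esq D P = ∑ m ∈ M, Esq D (F m) := by
      have e1 : ce (mX κ) D P =ᵐ[mX κ] fun x => ∑ m ∈ M, ce (mX κ) D (F m) x := ce_sum M fun m hm => (hFB m hm).bm
      rw [Esq_eq, nsq_congr e1]
      exact nsq_sum M (fun m hm => ce_bm (hFB m hm).bm) fun m hm m' hm' hne =>
        (hDP p q lam hJ).orth h m m' (hon m hm) (hon m' hm') hne _ _ (hFB m hm) (hFB m' hm') (hFM m hm) (hFM m' hm')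
    have hPle : Jsq lam P ≤ Esq D P + ε * nsq (mX κ) P := by
      rw [hj, he, hn, mul_sum, ← sum_add_distrib]
      exact sum_le_sum fun m hm => hq0 p q lam hJ hq m (hon m hm) (F m) (hFB m hm) (hFM m hm)
    -- comparison of `f` and `P`
    have hnP : nrm (mX κ) P ≤ K + δ := by
      have e1 : P = fun x => f x + (-1 : ℂ) * (f x - P x) := by funext x; ring
      rw [e1]
      refine (nrm_add hf.bm ?_).trans ?_
      · exact (AH.BM.const (μ := mX κ) (-1)).mul hsubB.bm
      · rw [nrm_smul, norm_neg, norm_one, one_mul]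
        exact add_le_add le_rfl hd
    have hJf : nrm lam (ce lam (sec lam) fun z : TX κ × TX κ => f z.1) ≤
        nrm lam (ce lam (sec lam) fun z : TX κ × TX κ => P z.1) + δ := by
      have e1 : ce lam (sec lam) (fun z : TX κ × TX κ => f z.1) =ᵐ[lam] fun z =>
          ce lam (sec lam) (fun z : TX κ × TX κ => P z.1) z + ce lam (sec lam) (fun z : TX κ × TX κ => f z.1 - P z.1) z := by
        have e2 : (fun z : TX κ × TX κ => f z.1) = fun z => P z.1 + (f z.1 - P z.1) := by funext z; ring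
        conv_lhs => rw [e2]
        exact ce_add (hcomp hPB) (hcomp hsubB)
      rw [nrm_congr e1]
      refine (nrm_add (ce_bm (hcomp hPB)) (ce_bm (hcomp hsubB))).trans (add_le_add le_rfl ?_)
      refine (ce_nrm_le sec_le (hcomp hsubB)).trans ?_
      have e3 : nrm lam (fun z : TX κ × TX κ => f z.1 - P z.1) = nrm (mX κ) fun x => f x - P x := by
        unfold nrm
        rw [hJ.nsq_fst hW hsubB.bm]
      rw [e3]
      exact hd
    have hEP : nrm (mX κ) (ce (mX κ) D P) ≤ nrm (mX κ) (ce (mX κ) D f) + δ := by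
      have e1 : ce (mX κ) D P =ᵐ[mX κ] fun x => ce (mX κ) D f x + (-1 : ℂ) * ce (mX κ) D (fun x => f x - P x) x := by
        have a1 := ce_sub (μ := mX κ) (D := D) hf.bm hPB.bm
        filter_upwards [a1] with x b1
        rw [b1]; ring
      rw [nrm_congr e1]
      refine (nrm_add (ce_bm hf.bm) ((AH.BM.const (μ := mX κ) (-1)).mul (ce_bm hsubB.bm))).trans (add_le_add le_rfl ?_)
      rw [nrm_smul, norm_neg, norm_one, one_mul]
      exact (ce_nrm_le hD.le' hsubB.bm).trans hd
    have hEK : nrm (mX κ) (ce (mX κ) D f) ≤ K := ce_nrm_le hD.le' hf.bm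
    have hJPK : nrm lam (ce lam (sec lam) fun z : TX κ × TX κ => P z.1) ≤ K + 1 := by
      refine (ce_nrm_le sec_le (hcomp hPB)).trans ?_
      have e3 : nrm lam (fun z : TX κ × TX κ => P z.1) = nrm (mX κ) P := by
        unfold nrm
        rw [hJ.nsq_fst hW hPB.bm]
      rw [e3]
      linarith
    have s1 : Jsq lam f = nrm lam (ce lam (sec lam) fun z : TX κ × TX κ => f z.1) ^ 2 := (nrm_sq _).symm
    have s2 : Jsq lam P = nrm lam (ce lam (sec lam) fun z : TX κ × TX κ => P z.1) ^ 2 := (nrm_sq _).symm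
    have s3 : Esq D f = nrm (mX κ) (ce (mX κ) D f) ^ 2 := (nrm_sq _).symm
    have s4 : Esq D P = nrm (mX κ) (ce (mX κ) D P) ^ 2 := (nrm_sq _).symm
    have s5 : nsq (mX κ) f = K ^ 2 := (nrm_sq _).symm
    have s6 : nsq (mX κ) P = nrm (mX κ) P ^ 2 := (nrm_sq _).symm
    rw [s1, s3, s5]
    rw [s2, s4, s6] at hPle
    set a := nrm lam (ce lam (sec lam) fun z : TX κ × TX κ => f z.1) with ha
    set b := nrm lam (ce lam (sec lam) fun z : TX κ × TX κ => P z.1) with hb
    set c := nrm (mX κ) (ce (mX κ) D f) with hc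
    set d := nrm (mX κ) (ce (mX κ) D P) with hd'
    set t := nrm (mX κ) P with ht
    have a0 : 0 ≤ a := nrm_nonneg _
    have b0 : 0 ≤ b := nrm_nonneg _
    have c0 : 0 ≤ c := nrm_nonneg _
    have d0 : 0 ≤ d := nrm_nonneg _
    have t0 : 0 ≤ t := nrm_nonneg _
    have i1 : a ^ 2 ≤ b ^ 2 + (2 * (K + 1) + 1) * δ := by
      have : a ^ 2 ≤ (b + δ) ^ 2 := pow_le_pow_left₀ a0 hJf 2
      nlinarith
    have i2 : d ^ 2 ≤ c ^ 2 + (2 * K + 1) * δ := by
      have : d ^ 2 ≤ (c + δ) ^ 2 := pow_le_pow_left₀ d0 hEP 2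
      nlinarith
    have i3 : t ^ 2 ≤ K ^ 2 + (2 * K + 1) * δ := by
      have : t ^ 2 ≤ (K + δ) ^ 2 := pow_le_pow_left₀ t0 hnP 2
      nlinarith
    have i4 : ε * t ^ 2 ≤ ε * (K ^ 2 + (2 * K + 1) * δ) := mul_le_mul_of_nonneg_left i3 hε.le
    nlinarith

end Pool.Agent.Lib.MP_9fe581_an.AP
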