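import Pool.Agent.Lib.MP_9fe581_an.AP.KDefs
import Pool.Agent.Lib.MP_9fe581_an.AP.KD

/-! # AP, K2: the relatively independent product -/

set_option autoImplicit false
set_option linter.unusedSectionVars false
set_option linter.unusedVariables false

open Finset MeasureTheory Filter Topology ProbabilityTheory
open scoped ComplexConjugate ENNReal

namespace Pool.Agent.Lib.MP_9fe581_an.AP

variable {X : Type} [MeasurableSpace X] {μ : Measure X} [IsProbabilityMeasure μ] {S : X → X} {D : SA X}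
  {κ : Kernel X X} [IsMarkovKernel κ]

/-- almost everywhere on almost every fibre -/
theorem Fib.ae (h : Fib μ S D κ) {A : X → Prop} (hA : ∀ᵐ x ∂μ, A x) : ∀ᵐ x ∂μ, ∀ᵐ y ∂κ x, A y := by
  have h1 : μ {x | ¬ A x} = 0 := hA
  obtain ⟨t, hst, ht, h0⟩ := exists_measurable_superset_of_null h1
  rw [← h.bind, Measure.bind_apply ht κ.measurable.aemeasurable] at h0
  have h2 := (lintegral_eq_zero_iff (κ.measurable_coe ht)).1 h0
  filter_upwards [h2] with x hx
  have h3 : κ x t = 0 := hx
  exact measure_mono_null hst h3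

/-- the product measure on the fibres -/
theorem Fib.lint (h : Fib μ S D κ) {F : X × X → ℝ≥0∞} (hF : Measurable F) :
    ∫⁻ z, F z ∂(μ ⊗ₘ κ) = ∫⁻ x, ∫⁻ z, F z ∂(κ x).prod (κ x) ∂μ := by
  rw [Measure.lintegral_compProd hF]
  have hG : Measurable fun x => ∫⁻ y, F (x, y) ∂κ x := hF.lintegral_kernel_prod_right'
  have h1 : ∫⁻ x, ∫⁻ y, F (x, y) ∂κ x ∂μ = ∫⁻ x, ∫⁻ x', ∫⁻ y, F (x', y) ∂κ x' ∂κ x ∂μ := by
    conv_lhs => rw [← h.bind]
    rw [Measure.lintegral_bind κ.measurable.aemeasurable hG.aemeasurable]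
  rw [h1]
  refine lintegral_congr_ae ?_
  filter_upwards [h.fib] with x hx
  rw [lintegral_prod _ hF.aemeasurable]
  refine lintegral_congr_ae ?_
  filter_upwards [hx] with y hy
  rw [hy]

theorem k2_eq (h : Fib μ S D κ) : (μ ⊗ₘ (κ ×ₖ κ)).map Prod.snd = μ ⊗ₘ κ := by
  refine Measure.ext fun s hs => ?_
  have hm : Measurable (s.indicator fun _ => (1 : ℝ≥0∞)) := measurable_const.indicator hs
  have e1 := h.lint hm
  rw [lintegral_indicator_const hs, one_mul] at e1
  rw [e1, Measure.map_apply measurable_snd hs, Measure.compProd_apply (measurable_snd hs)]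
  refine lintegral_congr fun x => ?_
  rw [lintegral_indicator_const hs, one_mul, Kernel.prod_apply]
  rfl

theorem Fib.ae2 (h : Fib μ S D κ) {A : X × X → Prop} (hA : ∀ᵐ z ∂(μ ⊗ₘ κ), A z) :
    ∀ᵐ x ∂μ, ∀ᵐ z ∂(κ x).prod (κ x), A z := by
  rw [← k2_eq h] at hA
  have h1 : ∀ᵐ w ∂(μ ⊗ₘ (κ ×ₖ κ)), A w.2 := ae_of_ae_map measurable_snd.aemeasurable hA
  filter_upwards [Measure.ae_ae_of_ae_compProd h1] with x hx
  rw [Kernel.prod_apply] at hx
  exact hx

theorem Fib.ae2' (h : Fib μ S D κ) {A : X × X → Prop} (hm : MeasurableSet {z | A z})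
    (hA : ∀ᵐ x ∂μ, ∀ᵐ z ∂(κ x).prod (κ x), A z) : ∀ᵐ z ∂(μ ⊗ₘ κ), A z := by
  rw [← k2_eq h, ae_map_iff measurable_snd.aemeasurable hm]
  refine Measure.ae_compProd_of_ae_ae (measurable_snd hm) ?_
  filter_upwards [hA] with x hx
  rw [Kernel.prod_apply]
  exact hx

theorem Fib.int (h : Fib μ S D κ) {F : X × X → ℂ} (hF : Integrable F (μ ⊗ₘ κ)) :
    ∫ z, F z ∂(μ ⊗ₘ κ) = ∫ x, ∫ z, F z ∂(κ x).prod (κ x) ∂μ := by
  rw [← k2_eq h] at hF ⊢
  have hF' : Integrable (fun w : X × X × X => F w.2) (μ ⊗ₘ (κ ×ₖ κ)) := hF.comp_measurable measurable_snd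
  rw [integral_map measurable_snd.aemeasurable hF.aestronglyMeasurable, Measure.integral_compProd hF']
  refine integral_congr_ae (Eventually.of_forall fun x => ?_)
  show ∫ z, F z ∂((κ ×ₖ κ) x) = _
  rw [Kernel.prod_apply]

/-- the two points have the same fibre -/
theorem Fib.same [StandardBorelSpace X] (h : Fib μ S D κ) : ∀ᵐ z ∂(μ ⊗ₘ κ), κ z.1 = κ z.2 := by
  have hin : ∀ q : ℚ, MeasurableSet (embeddingReal X ⁻¹' Set.Iic (q : ℝ)) := fun q =>
    (measurableEmbedding_embeddingReal X).measurable measurableSet_Iic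
  have hms : MeasurableSet {z : X × X | κ z.1 = κ z.2} := by
    have e : {z : X × X | κ z.1 = κ z.2} =
        ⋂ q : ℚ, {z : X × X | κ z.1 (embeddingReal X ⁻¹' Set.Iic (q : ℝ)) = κ z.2 (embeddingReal X ⁻¹' Set.Iic (q : ℝ))} := by
      ext z
      simp only [Set.mem_ofPred_eq, Set.mem_iInter]
      exact ⟨fun h1 q => by rw [h1], fun h1 => kd_ext h1⟩
    rw [e]
    refine MeasurableSet.iInter fun q => ?_
    exact measurableSet_eq_fun ((κ.measurable_coe (hin q)).comp measurable_fst)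
      ((κ.measurable_coe (hin q)).comp measurable_snd)
  refine Measure.ae_compProd_of_ae_ae hms ?_
  filter_upwards [h.fib] with x hx
  filter_upwards [hx] with y hy
  exact hy.symm

/-- the value of a `D`-measurable function is the same at the two points -/
theorem Fib.const (h : Fib μ S D κ) {g : X → ℂ} (hm : Measurable g) (hg : Measurable[D.m] g) :
    ∀ᵐ z ∂(μ ⊗ₘ κ), g z.1 = g z.2 := by
  refine Measure.ae_compProd_of_ae_ae (measurableSet_eq_fun (hm.comp measurable_fst) (hm.comp measurable_snd)) ?_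
  filter_upwards [(h.meas g hm).1 hg] with x hx
  filter_upwards [hx] with y hy
  exact hy.symm

theorem Fib.swap (h : Fib μ S D κ) : MeasurePreserving Prod.swap (μ ⊗ₘ κ) (μ ⊗ₘ κ) := by
  refine ⟨measurable_swap, Measure.ext fun s hs => ?_⟩
  have hm : Measurable (s.indicator fun _ => (1 : ℝ≥0∞)) := measurable_const.indicator hs
  have hm' : Measurable ((Prod.swap ⁻¹' s).indicator fun _ : X × X => (1 : ℝ≥0∞)) :=
    measurable_const.indicator (measurable_swap hs)
  have e1 := h.lint hm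
  have e2 := h.lint hm'
  rw [lintegral_indicator_const hs, one_mul] at e1
  rw [lintegral_indicator_const (measurable_swap hs), one_mul] at e2
  rw [Measure.map_apply measurable_swap hs, e1, e2]
  refine lintegral_congr fun x => ?_
  rw [lintegral_indicator_const hs, lintegral_indicator_const (measurable_swap hs), one_mul, one_mul,
    ← Measure.map_apply measurable_swap hs, Measure.prod_swap]

theorem Fib.fst (h : Fib μ S D κ) : MeasurePreserving Prod.fst (μ ⊗ₘ κ) μ :=
  ⟨measurable_fst, Measure.fst_compProd μ κ⟩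

theorem Fib.snd (h : Fib μ S D κ) : MeasurePreserving Prod.snd (μ ⊗ₘ κ) μ :=
  ⟨measurable_snd, (Measure.snd_compProd μ κ).trans h.bind⟩

theorem Fib.shift2 (h : Fib μ S D κ) (hS : MeasurePreserving S μ μ) :
    MeasurePreserving (Prod.map S S) (μ ⊗ₘ κ) (μ ⊗ₘ κ) := by
  have hSS : Measurable (Prod.map S S) := hS.measurable.prodMap hS.measurable
  refine ⟨hSS, Measure.ext fun s hs => ?_⟩
  rw [Measure.map_apply hSS hs, Measure.compProd_apply (hSS hs), Measure.compProd_apply hs]
  have hG : Measurable fun x => κ x (Prod.mk x ⁻¹' s) := Kernel.measurable_kernel_prodMk_left hs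
  have e1 : ∫⁻ x, κ x (Prod.mk x ⁻¹' s) ∂μ = ∫⁻ x, κ (S x) (Prod.mk (S x) ⁻¹' s) ∂μ := by
    have := lintegral_map (μ := μ) hG hS.measurable
    rw [hS.map_eq] at this
    exact this
  rw [e1]
  refine lintegral_congr_ae ?_
  filter_upwards [h.shift] with x hx
  rw [← hx, Measure.map_apply hS.measurable (measurable_prodMk_left hs)]
  rfl

/-- the integral of a product -/
theorem Fib.rect (h : Fib μ S D κ) (hD : ∀ s, MeasurableSet[D.m] s → MeasurableSet s) {f g : X → ℂ} (hf : Bd f)
    (hg : Bd g) : ∫ z, f z.1 * g z.2 ∂(μ ⊗ₘ κ) = ∫ x, ce μ D f x * ce μ D g x ∂μ := by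
  obtain ⟨C, hC⟩ := hf.bdd
  obtain ⟨C', hC'⟩ := hg.bdd
  have hfi : Integrable f μ := Integrable.of_bound hf.meas.aestronglyMeasurable C (Eventually.of_forall hC)
  have hgi : Integrable g μ := Integrable.of_bound hg.meas.aestronglyMeasurable C' (Eventually.of_forall hC')
  have hF : Integrable (fun z : X × X => f z.1 * g z.2) (μ ⊗ₘ κ) := by
    refine Integrable.of_bound ((hf.meas.comp measurable_fst).mul (hg.meas.comp measurable_snd)).aestronglyMeasurable
      (C * C') (Eventually.of_forall fun z => ?_)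
    rw [norm_mul]
    exact mul_le_mul (hC _) (hC' _) (norm_nonneg _) ((norm_nonneg _).trans (hC z.1))
  rw [h.int hF]
  refine integral_congr_ae ?_
  filter_upwards [h.cexp f hfi, h.cexp g hgi] with x h1 h2
  rw [h1, h2]
  exact integral_prod_mul f g

/-- products are total -/
theorem Fib.total (h : Fib μ S D κ) {P : X × X → ℂ} (hP : Integrable P (μ ⊗ₘ κ))
    (h0 : ∀ f g : X → ℂ, Bd f → Bd g → ∫ z, P z * (f z.1 * g z.2) ∂(μ ⊗ₘ κ) = 0) : P =ᵐ[μ ⊗ₘ κ] 0 := by
  classical
  have hrect : ∀ s t : Set X, MeasurableSet s → MeasurableSet t → ∫ z in s ×ˢ t, P z ∂(μ ⊗ₘ κ) = 0 := by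
    intro s t hs ht
    have hbd : ∀ s : Set X, MeasurableSet s → Bd (s.indicator fun _ => (1 : ℂ)) := fun s hs =>
      ⟨measurable_const.indicator hs, 1, fun x => by
        by_cases hx : x ∈ s
        · simp [hx]
        · simp [hx]⟩
    have h1 := h0 _ _ (hbd s hs) (hbd t ht)
    rw [← integral_indicator (hs.prod ht), ← h1]
    refine integral_congr_ae (Eventually.of_forall fun z => ?_)
    by_cases h1 : z.1 ∈ s
    · by_cases h2 : z.2 ∈ t
      · simp [Set.indicator, h1, h2]
      · simp [Set.indicator, h1, h2]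
    · simp [Set.indicator, h1]
  have huniv : ∫ z, P z ∂(μ ⊗ₘ κ) = 0 := by
    have := hrect Set.univ Set.univ MeasurableSet.univ MeasurableSet.univ
    rwa [Set.univ_prod_univ, setIntegral_univ] at this
  have hall : ∀ s : Set (X × X), MeasurableSet s → ∫ z in s, P z ∂(μ ⊗ₘ κ) = 0 := by
    refine MeasurableSpace.induction_on_inter (C := fun s _ => ∫ z in s, P z ∂(μ ⊗ₘ κ) = 0) generateFrom_prod.symm
      isPiSystem_prod ?_ ?_ ?_ ?_
    · simp
    · rintro _ ⟨s, hs, t, ht, rfl⟩
      exact hrect s t hs ht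
    · intro s hs h1
      have := integral_add_compl hs hP
      rw [h1, zero_add, huniv] at this
      exact this
    · intro f hd hf h1
      rw [integral_iUnion hf hd hP.integrableOn]
      simp [h1]
  exact hP.ae_eq_zero_of_forall_setIntegral_eq_zero fun s hs _ => hall s hs

end Pool.Agent.Lib.MP_9fe581_an.AP
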