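import Pool.Agent.Lib.MP_9fe581_an.AP.K2

/-! # AP, K3: twisted kernels on the fibres; the rows have constant norm -/

set_option autoImplicit false
set_option linter.unusedSectionVars false
set_option linter.unusedVariables false

open Finset MeasureTheory Filter Topology ProbabilityTheory
open scoped ComplexConjugate ENNReal

namespace Pool.Agent.Lib.MP_9fe581_an.AP

/-- Cauchy-Schwarz -/
theorem k3_cs {X : Type} [MeasurableSpace X] {ν : Measure X} {f g : X → ℂ} (mf : Measurable f) (mg : Measurable g)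
    (hf : Integrable (fun y => ‖f y‖ ^ 2) ν) (hg : Integrable (fun y => ‖g y‖ ^ 2) ν) :
    ‖∫ y, f y * g y ∂ν‖ ≤ Real.sqrt (∫ y, ‖f y‖ ^ 2 ∂ν) * Real.sqrt (∫ y, ‖g y‖ ^ 2 ∂ν) := by
  have h1 : ‖∫ y, f y * g y ∂ν‖ ≤ ∫ y, ‖f y‖ * ‖g y‖ ∂ν := by
    refine (norm_integral_le_integral_norm _).trans (le_of_eq ?_)
    exact integral_congr_ae (Eventually.of_forall fun y => norm_mul _ _)
  refine h1.trans ?_
  have lf : MemLp f 2 ν := (memLp_two_iff_integrable_sq_norm mf.aestronglyMeasurable).2 hf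
  have lg : MemLp g 2 ν := (memLp_two_iff_integrable_sq_norm mg.aestronglyMeasurable).2 hg
  have h2 := integral_mul_le_Lp_mul_Lq_of_nonneg (μ := ν) (p := 2) (q := 2) Real.HolderConjugate.two_two
    (f := fun y => ‖f y‖) (g := fun y => ‖g y‖) (Eventually.of_forall fun y => norm_nonneg _)
    (Eventually.of_forall fun y => norm_nonneg _) (by simpa using lf.norm) (by simpa using lg.norm)
  refine h2.trans (le_of_eq ?_)
  rw [Real.sqrt_eq_rpow, Real.sqrt_eq_rpow]
  simp only [Real.rpow_ofNat]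

variable {X : Type} [MeasurableSpace X] {μ : Measure X} [IsProbabilityMeasure μ] {S : X → X} {D : SA X}
  {κ : Kernel X X} [IsMarkovKernel κ] {a b : X → ℂ} {P Q R : X × X → ℂ}

theorem k3_pres (c : Ctx μ S D κ) : MeasurePreserving S μ μ := c.sys.erg.toMeasurePreserving

theorem k3_um (c : Ctx μ S D κ) (ha : Uni D a) : Measurable a := ha.meas.mono c.fac.le le_rfl

theorem k3_uc (c : Ctx μ S D κ) (ha : Uni D a) : ∀ᵐ x ∂μ, ∀ᵐ y ∂κ x, a y = a x :=
  (c.fib.meas a (k3_um c ha)).1 ha.meas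

/-- the rows have constant norm (`S`-invariant, `S` ergodic) -/
theorem Ker.row (c : Ctx μ S D κ) (ha : Uni D a) (hP : Ker μ S κ a P) :
    ∀ᵐ x ∂μ, Integrable (fun y => ‖P (x, y)‖ ^ 2) (κ x) ∧ ∫ y, ‖P (x, y)‖ ^ 2 ∂κ x = ksq μ κ P := by
  have hS := k3_pres c
  have hi : Integrable (fun z => ‖P z‖ ^ 2) (μ ⊗ₘ κ) :=
    (memLp_two_iff_integrable_sq_norm hP.meas.aestronglyMeasurable).1 hP.l2
  have h1 := ((Measure.integrable_compProd_iff hi.aestronglyMeasurable).1 hi).1
  have hNm : Measurable fun x => ∫ y, ‖P (x, y)‖ ^ 2 ∂κ x := by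
    have : StronglyMeasurable fun z : X × X => ‖P z‖ ^ 2 := (hP.meas.norm.pow_const 2).stronglyMeasurable
    exact (this.integral_kernel_prod_right' (κ := κ)).measurable
  have hinv : (fun x => ∫ y, ‖P (x, y)‖ ^ 2 ∂κ x) ∘ S =ᵐ[μ] fun x => ∫ y, ‖P (x, y)‖ ^ 2 ∂κ x := by
    filter_upwards [c.fib.shift, Measure.ae_ae_of_ae_compProd hP.tw] with x hx htw
    show ∫ y, ‖P (S x, y)‖ ^ 2 ∂κ (S x) = _
    have hPm : Measurable fun y => ‖P (S x, y)‖ ^ 2 := (hP.meas.comp measurable_prodMk_left).norm.pow_const 2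
    rw [← hx, integral_map hS.measurable.aemeasurable hPm.aestronglyMeasurable]
    refine integral_congr_ae ?_
    filter_upwards [htw] with y hy
    have hy' : P (S x, S y) = a x * P (x, y) := hy
    show ‖P (S x, S y)‖ ^ 2 = ‖P (x, y)‖ ^ 2
    rw [hy', norm_mul, ha.norm, one_mul]
  obtain ⟨t, ht⟩ := c.sys.erg.ae_eq_const_of_ae_eq_comp_ae hNm.aestronglyMeasurable hinv
  have hk : ksq μ κ P = t := by
    unfold ksq
    rw [Measure.integral_compProd hi, integral_congr_ae ht]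
    simp
  filter_upwards [h1, ht] with x hx1 hx2
  exact ⟨hx1, hx2.trans hk.symm⟩

/-- the same on the fibres -/
theorem Ker.rowf (c : Ctx μ S D κ) (ha : Uni D a) (hP : Ker μ S κ a P) :
    ∀ᵐ x ∂μ, ∀ᵐ y ∂κ x, Integrable (fun z => ‖P (y, z)‖ ^ 2) (κ x) ∧ ∫ z, ‖P (y, z)‖ ^ 2 ∂κ x = ksq μ κ P := by
  filter_upwards [c.fib.ae (hP.row c ha), c.fib.fib] with x hx hf
  filter_upwards [hx, hf] with y hy hfy
  rw [← hfy]
  exact hy

theorem Ker.stk (c : Ctx μ S D κ) (ha : Uni D a) (hP : Ker μ S κ a P) : Ker μ S κ (fun x => conj (a x)) (st P) := by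
  have hsw := c.fib.swap
  refine ⟨?_, ?_, ?_⟩
  · exact Complex.continuous_conj.measurable.comp (hP.meas.comp measurable_swap)
  · have h1 := (hP.l2.comp_measurePreserving hsw).star
    exact h1
  · have h1 := hsw.quasiMeasurePreserving.ae hP.tw
    filter_upwards [h1, c.fib.const (k3_um c ha) ha.meas] with z hz hc
    have hz' : P (S z.2, S z.1) = a z.2 * P (z.2, z.1) := hz
    show conj (P (S z.2, S z.1)) = conj (a z.1) * conj (P (z.2, z.1))
    rw [hz', map_mul, hc]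

theorem ksq_st (c : Ctx μ S D κ) (P : X × X → ℂ) : ksq μ κ (st P) = ksq μ κ P := by
  have h1 := c.fib.swap.integral_comp (MeasurableEquiv.prodComm (α := X) (β := X)).measurableEmbedding
    (fun z : X × X => ‖P z‖ ^ 2)
  unfold ksq
  rw [← h1]
  refine integral_congr_ae (Eventually.of_forall fun z => ?_)
  show ‖conj (P (z.2, z.1))‖ ^ 2 = ‖P (z.2, z.1)‖ ^ 2
  rw [RCLike.norm_conj]

/-- the columns, on the fibres -/
theorem Ker.colf (c : Ctx μ S D κ) (ha : Uni D a) (hP : Ker μ S κ a P) :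
    ∀ᵐ x ∂μ, ∀ᵐ y ∂κ x, Integrable (fun z => ‖P (z, y)‖ ^ 2) (κ x) ∧ ∫ z, ‖P (z, y)‖ ^ 2 ∂κ x = ksq μ κ P := by
  have ha' : Uni D fun x => conj (a x) :=
    ⟨Complex.continuous_conj.measurable.comp ha.meas, fun x => by rw [RCLike.norm_conj, ha.norm]⟩
  have h1 := (hP.stk c ha).rowf c ha'
  rw [ksq_st c] at h1
  filter_upwards [h1] with x hx
  filter_upwards [hx] with y hy
  have e : (fun z => ‖st P (y, z)‖ ^ 2) = fun z => ‖P (z, y)‖ ^ 2 := by
    funext z
    show ‖conj (P (z, y))‖ ^ 2 = _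
    rw [RCLike.norm_conj]
  rw [e] at hy
  exact hy

/-- square integrable on the fibres -/
theorem Ker.l2f (c : Ctx μ S D κ) (ha : Uni D a) (hP : Ker μ S κ a P) :
    ∀ᵐ x ∂μ, MemLp P 2 ((κ x).prod (κ x)) ∧ ∫ z, ‖P z‖ ^ 2 ∂(κ x).prod (κ x) = ksq μ κ P := by
  filter_upwards [hP.rowf c ha] with x hx
  have hms : AEStronglyMeasurable (fun z => ‖P z‖ ^ 2) ((κ x).prod (κ x)) :=
    (hP.meas.norm.pow_const 2).aestronglyMeasurable
  have hi : Integrable (fun z => ‖P z‖ ^ 2) ((κ x).prod (κ x)) := by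
    rw [integrable_prod_iff hms]
    refine ⟨hx.mono fun y hy => hy.1, ?_⟩
    refine (integrable_const (ksq μ κ P)).congr ?_
    filter_upwards [hx] with y hy
    rw [← hy.2]
    refine integral_congr_ae (Eventually.of_forall fun z => ?_)
    show ‖P (y, z)‖ ^ 2 = ‖‖P (y, z)‖ ^ 2‖
    rw [Real.norm_of_nonneg (by positivity)]
  refine ⟨(memLp_two_iff_integrable_sq_norm hP.meas.aestronglyMeasurable).2 hi, ?_⟩
  rw [integral_prod _ hi]
  have : (fun y => ∫ z, ‖P (y, z)‖ ^ 2 ∂κ x) =ᵐ[κ x] fun _ => ksq μ κ P := hx.mono fun y hy => hy.2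
  rw [integral_congr_ae this]
  simp

/-- the product on the fibres -/
theorem comp_fib (c : Ctx μ S D κ) (P Q : X × X → ℂ) :
    ∀ᵐ x ∂μ, ∀ᵐ z ∂(κ x).prod (κ x), comp κ P Q z = ∫ y, P (z.1, y) * Q (y, z.2) ∂κ x := by
  filter_upwards [c.fib.fib] with x hx
  filter_upwards [Measure.quasiMeasurePreserving_fst.ae hx] with z hz
  unfold comp
  rw [hz]

theorem act_fib (c : Ctx μ S D κ) (P : X × X → ℂ) (f : X → ℂ) :
    ∀ᵐ x ∂μ, ∀ᵐ z ∂κ x, act κ P f z = ∫ y, P (z, y) * f y ∂κ x := by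
  filter_upwards [c.fib.fib] with x hx
  filter_upwards [hx] with z hz
  unfold act
  rw [hz]

theorem measurable_comp (mP : Measurable P) (mQ : Measurable Q) : Measurable (comp κ P Q) := by
  have h1 : Measurable fun w : (X × X) × X => P (w.1.1, w.2) * Q (w.2, w.1.2) :=
    (mP.comp ((measurable_fst.comp measurable_fst).prodMk measurable_snd)).mul
      (mQ.comp (measurable_snd.prodMk (measurable_snd.comp measurable_fst)))
  have h2 := h1.stronglyMeasurable.integral_kernel_prod_right' (κ := κ.comap Prod.fst measurable_fst)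
  exact h2.measurable

theorem measurable_act (mP : Measurable P) {f : X → ℂ} (mf : Measurable f) : Measurable (act κ P f) := by
  have h1 : Measurable fun w : X × X => P (w.1, w.2) * f w.2 := mP.mul (mf.comp measurable_snd)
  exact (h1.stronglyMeasurable.integral_kernel_prod_right' (κ := κ)).measurable

/-- pointwise bound `|P Q (x, z)| ≤ ‖P‖ ‖Q‖` -/
theorem comp_le (c : Ctx μ S D κ) (ha : Uni D a) (hb : Uni D b) (hP : Ker μ S κ a P) (hQ : Ker μ S κ b Q) :
    ∀ᵐ z ∂(μ ⊗ₘ κ), ‖comp κ P Q z‖ ≤ Real.sqrt (ksq μ κ P) * Real.sqrt (ksq μ κ Q) := by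
  refine c.fib.ae2' ?_ ?_
  · exact measurableSet_le (measurable_comp hP.meas hQ.meas).norm measurable_const
  filter_upwards [comp_fib c P Q, hP.rowf c ha, hQ.colf c hb] with x h1 h2 h3
  filter_upwards [h1, Measure.quasiMeasurePreserving_fst.ae h2, Measure.quasiMeasurePreserving_snd.ae h3] with z e1 e2 e3
  rw [e1, ← e2.2, ← e3.2]
  exact k3_cs (hP.meas.comp measurable_prodMk_left) (hQ.meas.comp measurable_prodMk_right) e2.1 e3.1

theorem Ker.compk (c : Ctx μ S D κ) (ha : Uni D a) (hb : Uni D b) (hP : Ker μ S κ a P) (hQ : Ker μ S κ b Q) :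
    Ker μ S κ (fun x => a x * b x) (comp κ P Q) := by
  have hS := k3_pres c
  have hcm : Measurable (comp κ P Q) := measurable_comp hP.meas hQ.meas
  refine ⟨hcm, MemLp.of_bound hcm.aestronglyMeasurable _ (comp_le c ha hb hP hQ), ?_⟩
  refine c.fib.ae2' ?_ ?_
  · exact measurableSet_eq_fun (hcm.comp ((hS.measurable.comp measurable_fst).prodMk (hS.measurable.comp measurable_snd)))
      ((((k3_um c ha).comp measurable_fst).mul ((k3_um c hb).comp measurable_fst)).mul hcm)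
  filter_upwards [c.fib.fib, c.fib.ae c.fib.shift, c.fib.ae2 hP.tw, c.fib.ae2 hQ.tw, k3_uc c hb] with x h1 h2 h3 h4 h5
  have h3' := Measure.ae_ae_of_ae_prod h3
  have h4' : ∀ᵐ z ∂κ x, ∀ᵐ y ∂κ x, Q (S y, S z) = b y * Q (y, z) := by
    have : ∀ᵐ w ∂(κ x).prod (κ x), Q (S w.2, S w.1) = b w.2 * Q (w.2, w.1) := by
      have hsw : MeasurePreserving Prod.swap ((κ x).prod (κ x)) ((κ x).prod (κ x)) :=
        ⟨measurable_swap, Measure.prod_swap⟩
      exact hsw.quasiMeasurePreserving.ae h4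
    exact Measure.ae_ae_of_ae_prod this
  filter_upwards [Measure.quasiMeasurePreserving_fst.ae h1, Measure.quasiMeasurePreserving_fst.ae h2,
    Measure.quasiMeasurePreserving_fst.ae h3', Measure.quasiMeasurePreserving_snd.ae h4',
    Measure.quasiMeasurePreserving_fst.ae h5] with z e1 e2 e3 e4 e5
  show ∫ y, P (S z.1, y) * Q (y, S z.2) ∂κ (S z.1) = a z.1 * b z.1 * ∫ y, P (z.1, y) * Q (y, z.2) ∂κ z.1
  have hm : Measurable fun y => P (S z.1, y) * Q (y, S z.2) :=
    (hP.meas.comp measurable_prodMk_left).mul (hQ.meas.comp measurable_prodMk_right)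
  rw [← e2, integral_map hS.measurable.aemeasurable hm.aestronglyMeasurable, e1, ← integral_const_mul]
  refine integral_congr_ae ?_
  filter_upwards [e3, e4, h5] with y y1 y2 y3
  have y1' : P (S z.1, S y) = a z.1 * P (z.1, y) := y1
  rw [y1', y2, y3, e5]
  ring

end Pool.Agent.Lib.MP_9fe581_an.AP
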