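import Pool.Agent.Lib.MP_9fe581_an.AP.K3

/-! # AP, K4: the algebra of twisted kernels -/

set_option autoImplicit false
set_option linter.unusedSectionVars false
set_option linter.unusedVariables false

open Finset MeasureTheory Filter Topology ProbabilityTheory
open scoped ComplexConjugate ENNReal

namespace Pool.Agent.Lib.MP_9fe581_an.AP

/-! ### one probability space -/

section One

variable {X : Type} [MeasurableSpace X] {ν : Measure X} [IsProbabilityMeasure ν]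

theorem k4_prodL2 {f g : X → ℂ} (mf : Measurable f) (mg : Measurable g) (hf : Integrable (fun y => ‖f y‖ ^ 2) ν)
    (hg : Integrable (fun y => ‖g y‖ ^ 2) ν) : MemLp (fun z : X × X => f z.1 * g z.2) 2 (ν.prod ν) := by
  have hm : Measurable fun z : X × X => f z.1 * g z.2 := (mf.comp measurable_fst).mul (mg.comp measurable_snd)
  rw [memLp_two_iff_integrable_sq_norm hm.aestronglyMeasurable]
  have h1 := hf.mul_prod hg
  refine h1.congr (Eventually.of_forall fun z => ?_)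
  show ‖f z.1‖ ^ 2 * ‖g z.2‖ ^ 2 = ‖f z.1 * g z.2‖ ^ 2
  rw [norm_mul, mul_pow]

theorem k4_int3 {Q : X × X → ℂ} {f g : X → ℂ} (hQ : MemLp Q 2 (ν.prod ν)) (mf : Measurable f)
    (mg : Measurable g) (hf : Integrable (fun y => ‖f y‖ ^ 2) ν) (hg : Integrable (fun y => ‖g y‖ ^ 2) ν) :
    Integrable (fun z : X × X => f z.1 * Q z * g z.2) (ν.prod ν) := by
  have h1 := (k4_prodL2 mf mg hf hg).integrable_mul hQ
  refine h1.congr (Eventually.of_forall fun z => ?_)
  show f z.1 * g z.2 * Q z = f z.1 * Q z * g z.2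
  ring

/-- Fubini -/
theorem k4_assoc {Q : X × X → ℂ} {f g : X → ℂ} (hQ : MemLp Q 2 (ν.prod ν)) (mf : Measurable f)
    (mg : Measurable g) (hf : Integrable (fun y => ‖f y‖ ^ 2) ν) (hg : Integrable (fun y => ‖g y‖ ^ 2) ν) :
    ∫ y, (∫ w, f w * Q (w, y) ∂ν) * g y ∂ν = ∫ w, f w * ∫ y, Q (w, y) * g y ∂ν ∂ν := by
  have h1 := k4_int3 hQ mf mg hf hg
  have h2 := integral_integral_swap (μ := ν) (ν := ν) (f := fun w y => f w * Q (w, y) * g y) h1
  calc ∫ y, (∫ w, f w * Q (w, y) ∂ν) * g y ∂ν = ∫ y, ∫ w, f w * Q (w, y) * g y ∂ν ∂ν := by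
        refine integral_congr_ae (Eventually.of_forall fun y => ?_)
        exact (integral_mul_const _ _).symm
    _ = ∫ w, ∫ y, f w * Q (w, y) * g y ∂ν ∂ν := h2.symm
    _ = _ := by
        refine integral_congr_ae (Eventually.of_forall fun w => ?_)
        show ∫ y, f w * Q (w, y) * g y ∂ν = f w * ∫ y, Q (w, y) * g y ∂ν
        rw [← integral_const_mul]
        refine integral_congr_ae (Eventually.of_forall fun y => ?_)
        show f w * Q (w, y) * g y = f w * (Q (w, y) * g y)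
        ring

/-- Fubini, adjoint form -/
theorem k4_adj {P : X × X → ℂ} {f g : X → ℂ} (hP : MemLp P 2 (ν.prod ν)) (mf : Measurable f)
    (mg : Measurable g) (hf : Integrable (fun y => ‖f y‖ ^ 2) ν) (hg : Integrable (fun y => ‖g y‖ ^ 2) ν) :
    ∫ w, (∫ y, P (w, y) * f y ∂ν) * conj (g w) ∂ν = ∫ y, f y * conj (∫ w, st P (y, w) * g w ∂ν) ∂ν := by
  have mg' : Measurable fun w => conj (g w) := Complex.continuous_conj.measurable.comp mg
  have hg' : Integrable (fun y => ‖conj (g y)‖ ^ 2) ν := by simpa using hg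
  have h1 := k4_assoc (Q := P) hP mg' mf hg' hf
  calc ∫ w, (∫ y, P (w, y) * f y ∂ν) * conj (g w) ∂ν = ∫ w, conj (g w) * ∫ y, P (w, y) * f y ∂ν ∂ν := by
        refine integral_congr_ae (Eventually.of_forall fun w => mul_comm _ _)
    _ = ∫ y, (∫ w, conj (g w) * P (w, y) ∂ν) * f y ∂ν := h1.symm
    _ = _ := by
        refine integral_congr_ae (Eventually.of_forall fun y => ?_)
        show (∫ w, conj (g w) * P (w, y) ∂ν) * f y = f y * conj (∫ w, st P (y, w) * g w ∂ν)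
        rw [mul_comm, ← integral_conj]
        congr 1
        refine integral_congr_ae (Eventually.of_forall fun w => ?_)
        show conj (g w) * P (w, y) = conj (conj (P (w, y)) * g w)
        rw [map_mul, Complex.conj_conj, mul_comm]

end One

variable {X : Type} [MeasurableSpace X] {μ : Measure X} [IsProbabilityMeasure μ] {S : X → X} {D : SA X}
  {κ : Kernel X X} [IsMarkovKernel κ] {a b d : X → ℂ} {P Q R P' Q' : X × X → ℂ}

/-- a property of almost all pairs, by rows and by columns -/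
theorem k4_rc (c : Ctx μ S D κ) {A : X × X → Prop} (hA : ∀ᵐ z ∂(μ ⊗ₘ κ), A z) :
    ∀ᵐ x ∂μ, (∀ᵐ y ∂κ x, ∀ᵐ z ∂κ x, A (y, z)) ∧ ∀ᵐ z ∂κ x, ∀ᵐ y ∂κ x, A (y, z) := by
  filter_upwards [c.fib.ae2 hA] with x hx
  refine ⟨Measure.ae_ae_of_ae_prod hx, ?_⟩
  have hsw : MeasurePreserving Prod.swap ((κ x).prod (κ x)) ((κ x).prod (κ x)) := ⟨measurable_swap, Measure.prod_swap⟩
  exact Measure.ae_ae_of_ae_prod (hsw.quasiMeasurePreserving.ae hx)

/-- the product on the fibres, by rows and by columns -/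
theorem k4_rcf (c : Ctx μ S D κ) (P Q : X × X → ℂ) :
    ∀ᵐ x ∂μ, (∀ᵐ y ∂κ x, ∀ᵐ z ∂κ x, comp κ P Q (y, z) = ∫ w, P (y, w) * Q (w, z) ∂κ x) ∧
      ∀ᵐ z ∂κ x, ∀ᵐ y ∂κ x, comp κ P Q (y, z) = ∫ w, P (y, w) * Q (w, z) ∂κ x := by
  filter_upwards [comp_fib c P Q] with x hx
  refine ⟨Measure.ae_ae_of_ae_prod hx, ?_⟩
  have hsw : MeasurePreserving Prod.swap ((κ x).prod (κ x)) ((κ x).prod (κ x)) := ⟨measurable_swap, Measure.prod_swap⟩
  exact Measure.ae_ae_of_ae_prod (hsw.quasiMeasurePreserving.ae hx)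

theorem comp_congr (c : Ctx μ S D κ) (mP : Measurable P) (mP' : Measurable P') (mQ : Measurable Q)
    (mQ' : Measurable Q') (hP : P =ᵐ[μ ⊗ₘ κ] P') (hQ : Q =ᵐ[μ ⊗ₘ κ] Q') :
    comp κ P Q =ᵐ[μ ⊗ₘ κ] comp κ P' Q' := by
  refine c.fib.ae2' (measurableSet_eq_fun (measurable_comp mP mQ) (measurable_comp mP' mQ')) ?_
  filter_upwards [comp_fib c P Q, comp_fib c P' Q', k4_rc c hP, k4_rc c hQ] with x h1 h2 h3 h4
  filter_upwards [h1, h2, Measure.quasiMeasurePreserving_fst.ae h3.1, Measure.quasiMeasurePreserving_snd.ae h4.2]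
    with z e1 e2 e3 e4
  rw [e1, e2]
  refine integral_congr_ae ?_
  filter_upwards [e3, e4] with y y3 y4
  rw [y3, y4]

theorem comp_assoc (c : Ctx μ S D κ) (ha : Uni D a) (hb : Uni D b) (hd : Uni D d) (hP : Ker μ S κ a P)
    (hQ : Ker μ S κ b Q) (hR : Ker μ S κ d R) :
    comp κ (comp κ P Q) R =ᵐ[μ ⊗ₘ κ] comp κ P (comp κ Q R) := by
  refine c.fib.ae2' (measurableSet_eq_fun (measurable_comp (measurable_comp hP.meas hQ.meas) hR.meas)
    (measurable_comp hP.meas (measurable_comp hQ.meas hR.meas))) ?_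
  filter_upwards [comp_fib c (comp κ P Q) R, comp_fib c P (comp κ Q R), k4_rcf c P Q, k4_rcf c Q R, hP.rowf c ha,
    hR.colf c hd, hQ.l2f c hb] with x h1 h2 h3 h4 h5 h6 h7
  filter_upwards [h1, h2, Measure.quasiMeasurePreserving_fst.ae h3.1, Measure.quasiMeasurePreserving_snd.ae h4.2,
    Measure.quasiMeasurePreserving_fst.ae h5, Measure.quasiMeasurePreserving_snd.ae h6] with z e1 e2 e3 e4 e5 e6
  rw [e1, e2]
  have g1 : ∫ y, comp κ P Q (z.1, y) * R (y, z.2) ∂κ x = ∫ y, (∫ w, P (z.1, w) * Q (w, y) ∂κ x) * R (y, z.2) ∂κ x := by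
    refine integral_congr_ae ?_
    filter_upwards [e3] with y hy
    rw [hy]
  have g2 : ∫ y, P (z.1, y) * comp κ Q R (y, z.2) ∂κ x = ∫ y, P (z.1, y) * ∫ w, Q (y, w) * R (w, z.2) ∂κ x ∂κ x := by
    refine integral_congr_ae ?_
    filter_upwards [e4] with y hy
    rw [hy]
  rw [g1, g2]
  exact k4_assoc h7.1 (hP.meas.comp measurable_prodMk_left) (hR.meas.comp measurable_prodMk_right) e5.1 e6.1

theorem k4_int2 {ν : Measure X} {f g : X → ℂ} (mf : Measurable f) (mg : Measurable g)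
    (hf : Integrable (fun y => ‖f y‖ ^ 2) ν) (hg : Integrable (fun y => ‖g y‖ ^ 2) ν) :
    Integrable (fun y => f y * g y) ν :=
  ((memLp_two_iff_integrable_sq_norm mf.aestronglyMeasurable).2 hf).integrable_mul
    ((memLp_two_iff_integrable_sq_norm mg.aestronglyMeasurable).2 hg)

theorem comp_add_left (c : Ctx μ S D κ) (ha : Uni D a) (hb : Uni D b) (hP : Ker μ S κ a P) (hP' : Ker μ S κ a P')
    (hQ : Ker μ S κ b Q) : comp κ (fun z => P z + P' z) Q =ᵐ[μ ⊗ₘ κ] fun z => comp κ P Q z + comp κ P' Q z := by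
  refine c.fib.ae2' (measurableSet_eq_fun (measurable_comp (hP.meas.add hP'.meas) hQ.meas)
    ((measurable_comp hP.meas hQ.meas).add (measurable_comp hP'.meas hQ.meas))) ?_
  filter_upwards [comp_fib c (fun z => P z + P' z) Q, comp_fib c P Q, comp_fib c P' Q, hP.rowf c ha, hP'.rowf c ha,
    hQ.colf c hb] with x h1 h2 h3 h4 h5 h6
  filter_upwards [h1, h2, h3, Measure.quasiMeasurePreserving_fst.ae h4, Measure.quasiMeasurePreserving_fst.ae h5,
    Measure.quasiMeasurePreserving_snd.ae h6] with z e1 e2 e3 e4 e5 e6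
  rw [e1, e2, e3, ← integral_add]
  · refine integral_congr_ae (Eventually.of_forall fun y => ?_)
    exact add_mul _ _ _
  · exact k4_int2 (hP.meas.comp measurable_prodMk_left) (hQ.meas.comp measurable_prodMk_right) e4.1 e6.1
  · exact k4_int2 (hP'.meas.comp measurable_prodMk_left) (hQ.meas.comp measurable_prodMk_right) e5.1 e6.1

theorem comp_add_right (c : Ctx μ S D κ) (ha : Uni D a) (hb : Uni D b) (hP : Ker μ S κ a P) (hQ : Ker μ S κ b Q)
    (hQ' : Ker μ S κ b Q') : comp κ P (fun z => Q z + Q' z) =ᵐ[μ ⊗ₘ κ] fun z => comp κ P Q z + comp κ P Q' z := by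
  refine c.fib.ae2' (measurableSet_eq_fun (measurable_comp hP.meas (hQ.meas.add hQ'.meas))
    ((measurable_comp hP.meas hQ.meas).add (measurable_comp hP.meas hQ'.meas))) ?_
  filter_upwards [comp_fib c P (fun z => Q z + Q' z), comp_fib c P Q, comp_fib c P Q', hP.rowf c ha, hQ.colf c hb,
    hQ'.colf c hb] with x h1 h2 h3 h4 h5 h6
  filter_upwards [h1, h2, h3, Measure.quasiMeasurePreserving_fst.ae h4, Measure.quasiMeasurePreserving_snd.ae h5,
    Measure.quasiMeasurePreserving_snd.ae h6] with z e1 e2 e3 e4 e5 e6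
  rw [e1, e2, e3, ← integral_add]
  · refine integral_congr_ae (Eventually.of_forall fun y => ?_)
    exact mul_add _ _ _
  · exact k4_int2 (hP.meas.comp measurable_prodMk_left) (hQ.meas.comp measurable_prodMk_right) e4.1 e5.1
  · exact k4_int2 (hP.meas.comp measurable_prodMk_left) (hQ'.meas.comp measurable_prodMk_right) e4.1 e6.1

theorem comp_smul_left (t : ℂ) (P Q : X × X → ℂ) (z : X × X) :
    comp κ (fun z => t * P z) Q z = t * comp κ P Q z := by
  unfold comp
  rw [← integral_const_mul]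
  refine integral_congr_ae (Eventually.of_forall fun y => ?_)
  exact mul_assoc _ _ _

theorem comp_smul_right (t : ℂ) (P Q : X × X → ℂ) (z : X × X) :
    comp κ P (fun z => t * Q z) z = t * comp κ P Q z := by
  unfold comp
  rw [← integral_const_mul]
  refine integral_congr_ae (Eventually.of_forall fun y => ?_)
  exact mul_left_comm _ _ _

theorem k4_mst (mP : Measurable P) : Measurable (st P) :=
  Complex.continuous_conj.measurable.comp (mP.comp measurable_swap)

theorem st_comp (c : Ctx μ S D κ) (mP : Measurable P) (mQ : Measurable Q) :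
    st (comp κ P Q) =ᵐ[μ ⊗ₘ κ] comp κ (st Q) (st P) := by
  refine c.fib.ae2' (measurableSet_eq_fun (k4_mst (measurable_comp mP mQ)) (measurable_comp (k4_mst mQ) (k4_mst mP))) ?_
  filter_upwards [comp_fib c P Q, comp_fib c (st Q) (st P)] with x h1 h2
  have hsw : MeasurePreserving Prod.swap ((κ x).prod (κ x)) ((κ x).prod (κ x)) := ⟨measurable_swap, Measure.prod_swap⟩
  filter_upwards [hsw.quasiMeasurePreserving.ae h1, h2] with z e1 e2
  have e1' : comp κ P Q (z.2, z.1) = ∫ y, P (z.2, y) * Q (y, z.1) ∂κ x := e1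
  rw [e2]
  show conj (comp κ P Q (z.2, z.1)) = _
  rw [e1', ← integral_conj]
  refine integral_congr_ae (Eventually.of_forall fun y => ?_)
  show conj (P (z.2, y) * Q (y, z.1)) = conj (Q (y, z.1)) * conj (P (z.2, y))
  rw [map_mul, mul_comm]

theorem ksq_comp (c : Ctx μ S D κ) (ha : Uni D a) (hb : Uni D b) (hP : Ker μ S κ a P) (hQ : Ker μ S κ b Q) :
    ksq μ κ (comp κ P Q) ≤ ksq μ κ P * ksq μ κ Q := by
  have h0 : ∀ R : X × X → ℂ, 0 ≤ ksq μ κ R := fun R => integral_nonneg fun z => by positivity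
  have h1 := comp_le c ha hb hP hQ
  have hk := (hP.compk c ha hb hQ)
  have hi : Integrable (fun z => ‖comp κ P Q z‖ ^ 2) (μ ⊗ₘ κ) :=
    (memLp_two_iff_integrable_sq_norm hk.meas.aestronglyMeasurable).1 hk.l2
  have h2 : ∫ z, ‖comp κ P Q z‖ ^ 2 ∂(μ ⊗ₘ κ) ≤ ∫ z, ksq μ κ P * ksq μ κ Q ∂(μ ⊗ₘ κ) := by
    refine integral_mono_ae hi (integrable_const _) ?_
    filter_upwards [h1] with z hz
    have h3 := pow_le_pow_left₀ (norm_nonneg _) hz 2
    rw [mul_pow, Real.sq_sqrt (h0 P), Real.sq_sqrt (h0 Q)] at h3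
    exact h3
  refine h2.trans (le_of_eq ?_)
  simp

/-- a kernel with bounded columns -/
structure Bc (μ : Measure X) (κ : Kernel X X) (R : X × X → ℂ) : Prop where
  meas : Measurable R
  l2 : MemLp R 2 (μ ⊗ₘ κ)
  col : ∃ B : ℝ, ∀ᵐ x ∂μ, ∀ᵐ y ∂κ x, Integrable (fun z => ‖R (z, y)‖ ^ 2) (κ x) ∧ ∫ z, ‖R (z, y)‖ ^ 2 ∂κ x ≤ B

theorem Ker.bc (c : Ctx μ S D κ) (ha : Uni D a) (hP : Ker μ S κ a P) : Bc μ κ P :=
  ⟨hP.meas, hP.l2, ksq μ κ P, (hP.colf c ha).mono fun x hx => hx.mono fun y hy => ⟨hy.1, hy.2.le⟩⟩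

theorem bc_rc {f g : X → ℂ} (hf : Bd f) (hg : Bd g) : Bc μ κ (rc f g) := by
  obtain ⟨C, hC⟩ := hf.bdd
  obtain ⟨C', hC'⟩ := hg.bdd
  have hm : Measurable (rc f g) :=
    (hf.meas.comp measurable_fst).mul (Complex.continuous_conj.measurable.comp (hg.meas.comp measurable_snd))
  have hb : ∀ z, ‖rc f g z‖ ≤ C * C' := fun z => by
    show ‖f z.1 * conj (g z.2)‖ ≤ _
    rw [norm_mul, RCLike.norm_conj]
    exact mul_le_mul (hC _) (hC' _) (norm_nonneg _) ((norm_nonneg _).trans (hC z.1))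
  refine ⟨hm, MemLp.of_bound hm.aestronglyMeasurable _ (Eventually.of_forall hb), (C * C') ^ 2, ?_⟩
  refine Eventually.of_forall fun x => Eventually.of_forall fun y => ?_
  have hm' : Measurable fun z => ‖rc f g (z, y)‖ ^ 2 := (hm.comp measurable_prodMk_right).norm.pow_const 2
  have hb' : ∀ z, ‖rc f g (z, y)‖ ^ 2 ≤ (C * C') ^ 2 := fun z => pow_le_pow_left₀ (norm_nonneg _) (hb _) 2
  have hi : Integrable (fun z => ‖rc f g (z, y)‖ ^ 2) (κ x) :=
    Integrable.of_bound hm'.aestronglyMeasurable _ (Eventually.of_forall fun z => by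
      rw [Real.norm_of_nonneg (by positivity)]; exact hb' z)
  refine ⟨hi, ?_⟩
  refine (integral_mono hi (integrable_const _) hb').trans (le_of_eq ?_)
  simp

theorem k4_bd (c : Ctx μ S D κ) (ha : Uni D a) (hP : Ker μ S κ a P) (hR : Bc μ κ R) :
    ∃ B : ℝ, ∀ᵐ z ∂(μ ⊗ₘ κ), ‖comp κ P R z‖ ≤ B := by
  obtain ⟨B, hB⟩ := hR.col
  refine ⟨Real.sqrt (ksq μ κ P) * Real.sqrt B, c.fib.ae2' ?_ ?_⟩
  · exact measurableSet_le (measurable_comp hP.meas hR.meas).norm measurable_const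
  filter_upwards [comp_fib c P R, hP.rowf c ha, hB] with x h1 h2 h3
  filter_upwards [h1, Measure.quasiMeasurePreserving_fst.ae h2, Measure.quasiMeasurePreserving_snd.ae h3] with z e1 e2 e3
  rw [e1, ← e2.2]
  refine (k3_cs (hP.meas.comp measurable_prodMk_left) (hR.meas.comp measurable_prodMk_right) e2.1 e3.1).trans ?_
  exact mul_le_mul_of_nonneg_left (Real.sqrt_le_sqrt e3.2) (Real.sqrt_nonneg _)

/-- integrability on the fibres -/
theorem k4_fi (c : Ctx μ S D κ) {F : X × X → ℂ} (mF : Measurable F) (hF : Integrable F (μ ⊗ₘ κ)) :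
    ∀ᵐ x ∂μ, Integrable F ((κ x).prod (κ x)) := by
  rw [← k2_eq c.fib] at hF
  have hF' : Integrable (fun w : X × X × X => F w.2) (μ ⊗ₘ (κ ×ₖ κ)) := hF.comp_measurable measurable_snd
  have h1 := ((Measure.integrable_compProd_iff hF'.aestronglyMeasurable).1 hF').1
  filter_upwards [h1] with x hx
  rw [Kernel.prod_apply] at hx
  exact hx

/-- `⟨P Q, R⟩ = ⟨Q, P* R⟩` -/
theorem k4_inner (c : Ctx μ S D κ) (ha : Uni D a) (hb : Uni D b) (hP : Ker μ S κ a P)
    (hQ : Ker μ S κ b Q) (hR : Bc μ κ R) :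
    ∫ z, comp κ P Q z * conj (R z) ∂(μ ⊗ₘ κ) = ∫ z, Q z * conj (comp κ (st P) R z) ∂(μ ⊗ₘ κ) := by
  have hPQ := hP.compk c ha hb hQ
  have ha' : Uni D fun x => conj (a x) :=
    ⟨Complex.continuous_conj.measurable.comp ha.meas, fun x => by rw [RCLike.norm_conj, ha.norm]⟩
  have hPs := hP.stk c ha
  obtain ⟨B, hB⟩ := k4_bd c ha' hPs hR
  have mC : Measurable (comp κ (st P) R) := measurable_comp hPs.meas hR.meas
  have hC : MemLp (comp κ (st P) R) 2 (μ ⊗ₘ κ) := MemLp.of_bound mC.aestronglyMeasurable B hB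
  have i1 : Integrable (fun z => comp κ P Q z * conj (R z)) (μ ⊗ₘ κ) := hPQ.l2.integrable_mul hR.l2.star
  have i2 : Integrable (fun z => Q z * conj (comp κ (st P) R z)) (μ ⊗ₘ κ) := hQ.l2.integrable_mul hC.star
  have m1 : Measurable fun z => comp κ P Q z * conj (R z) :=
    hPQ.meas.mul (Complex.continuous_conj.measurable.comp hR.meas)
  have m2 : Measurable fun z => Q z * conj (comp κ (st P) R z) :=
    hQ.meas.mul (Complex.continuous_conj.measurable.comp mC)
  rw [c.fib.int i1, c.fib.int i2]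
  obtain ⟨B', hB'⟩ := hR.col
  refine integral_congr_ae ?_
  filter_upwards [k4_fi c m1 i1, k4_fi c m2 i2, k4_rcf c P Q, k4_rcf c (st P) R, hP.l2f c ha, hQ.colf c hb, hB']
    with x f1 f2 h1 h2 h3 h4 h5
  rw [integral_prod_symm _ f1, integral_prod_symm _ f2]
  refine integral_congr_ae ?_
  filter_upwards [h1.2, h2.2, h4, h5] with z e1 e2 e4 e5
  have g1 : ∫ w, comp κ P Q (w, z) * conj (R (w, z)) ∂κ x =
      ∫ w, (∫ y, P (w, y) * Q (y, z) ∂κ x) * conj (R (w, z)) ∂κ x := by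
    refine integral_congr_ae ?_
    filter_upwards [e1] with w hw
    rw [hw]
  have g2 : ∫ w, Q (w, z) * conj (comp κ (st P) R (w, z)) ∂κ x =
      ∫ w, Q (w, z) * conj (∫ y, st P (w, y) * R (y, z) ∂κ x) ∂κ x := by
    refine integral_congr_ae ?_
    filter_upwards [e2] with w hw
    rw [hw]
  show ∫ w, comp κ P Q (w, z) * conj (R (w, z)) ∂κ x = ∫ w, Q (w, z) * conj (comp κ (st P) R (w, z)) ∂κ x
  rw [g1, g2]
  exact k4_adj h3.1 (hQ.meas.comp measurable_prodMk_right) (hR.meas.comp measurable_prodMk_right) e4.1 e5.1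

/-- `⟨P Q, R⟩ = ⟨Q, P* R⟩` -/
theorem inner_comp (c : Ctx μ S D κ) (ha : Uni D a) (hb : Uni D b) (hd : Uni D d) (hP : Ker μ S κ a P)
    (hQ : Ker μ S κ b Q) (hR : Ker μ S κ d R) :
    ∫ z, comp κ P Q z * conj (R z) ∂(μ ⊗ₘ κ) = ∫ z, Q z * conj (comp κ (st P) R z) ∂(μ ⊗ₘ κ) :=
  k4_inner c ha hb hP hQ (hR.bc c hd)

/-- the pairing with `f ⊗ conj g` : `⟨P, f ⊗ conj g⟩ = ⟨P g, f⟩` -/
theorem pair_act (c : Ctx μ S D κ) (ha : Uni D a) (hP : Ker μ S κ a P) {f g : X → ℂ} (hf : Bd f) (hg : Bd g) :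
    ∫ z, P z * conj (rc f g z) ∂(μ ⊗ₘ κ) = ∫ x, act κ P g x * conj (f x) ∂μ := by
  have hR := bc_rc (μ := μ) (κ := κ) hf hg
  have i1 : Integrable (fun z => P z * conj (rc f g z)) (μ ⊗ₘ κ) := hP.l2.integrable_mul hR.l2.star
  rw [Measure.integral_compProd i1]
  refine integral_congr_ae (Eventually.of_forall fun x => ?_)
  show ∫ y, P (x, y) * conj (f x * conj (g y)) ∂κ x = (∫ y, P (x, y) * g y ∂κ x) * conj (f x)
  rw [← integral_mul_const]
  refine integral_congr_ae (Eventually.of_forall fun y => ?_)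
  show P (x, y) * conj (f x * conj (g y)) = P (x, y) * g y * conj (f x)
  rw [map_mul, Complex.conj_conj]
  ring

theorem k4_actb (c : Ctx μ S D κ) (ha : Uni D a) (hP : Ker μ S κ a P) {g : X → ℂ} (hg : Bd g) :
    ∃ B : ℝ, ∀ᵐ x ∂μ, ‖act κ P g x‖ ≤ B := by
  obtain ⟨C, hC⟩ := hg.bdd
  refine ⟨Real.sqrt (ksq μ κ P) * Real.sqrt (C ^ 2), ?_⟩
  filter_upwards [hP.row c ha] with x hx
  have hi : Integrable (fun y => ‖g y‖ ^ 2) (κ x) :=
    Integrable.of_bound (hg.meas.norm.pow_const 2).aestronglyMeasurable (C ^ 2) (Eventually.of_forall fun z => by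
      rw [Real.norm_of_nonneg (by positivity)]; exact pow_le_pow_left₀ (norm_nonneg _) (hC z) 2)
  rw [← hx.2]
  refine (k3_cs (hP.meas.comp measurable_prodMk_left) hg.meas hx.1 hi).trans ?_
  refine mul_le_mul_of_nonneg_left (Real.sqrt_le_sqrt ?_) (Real.sqrt_nonneg _)
  refine (integral_mono hi (integrable_const (C ^ 2)) fun z => pow_le_pow_left₀ (norm_nonneg _) (hC z) 2).trans (le_of_eq ?_)
  simp

theorem act_l2 (c : Ctx μ S D κ) (ha : Uni D a) (hP : Ker μ S κ a P) {g : X → ℂ} (hg : Bd g) :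
    MemLp (act κ P g) 2 μ := by
  obtain ⟨B, hB⟩ := k4_actb c ha hP hg
  exact MemLp.of_bound (measurable_act hP.meas hg.meas).aestronglyMeasurable B hB

/-- `‖P g‖² = ⟨P* P, g ⊗ conj g⟩` -/
theorem act_sq (c : Ctx μ S D κ) (ha : Uni D a) (hP : Ker μ S κ a P) {g : X → ℂ} (hg : Bd g) :
    ((nsq μ (act κ P g) : ℝ) : ℂ) = ∫ z, comp κ (st P) P z * conj (rc g g z) ∂(μ ⊗ₘ κ) := by
  have ha' : Uni D fun x => conj (a x) :=
    ⟨Complex.continuous_conj.measurable.comp ha.meas, fun x => by rw [RCLike.norm_conj, ha.norm]⟩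
  have hPs := hP.stk c ha
  have hR := bc_rc (μ := μ) (κ := κ) hg hg
  rw [k4_inner c ha' ha hPs hP hR]
  have hss : st (st P) = P := by
    funext z
    show conj (conj (P (z.1, z.2))) = P z
    rw [Complex.conj_conj]
  rw [hss]
  obtain ⟨B, hB⟩ := k4_bd c ha hP hR
  have mC : Measurable (comp κ P (rc g g)) := measurable_comp hP.meas hR.meas
  have hC : MemLp (comp κ P (rc g g)) 2 (μ ⊗ₘ κ) := MemLp.of_bound mC.aestronglyMeasurable B hB
  have i2 : Integrable (fun z => P z * conj (comp κ P (rc g g) z)) (μ ⊗ₘ κ) := hP.l2.integrable_mul hC.star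
  rw [Measure.integral_compProd i2]
  unfold nsq
  rw [← integral_complex_ofReal]
  refine integral_congr_ae (Eventually.of_forall fun x => ?_)
  have e : ∀ y, comp κ P (rc g g) (x, y) = act κ P g x * conj (g y) := by
    intro y
    show ∫ w, P (x, w) * (g w * conj (g y)) ∂κ x = (∫ w, P (x, w) * g w ∂κ x) * conj (g y)
    rw [← integral_mul_const]
    refine integral_congr_ae (Eventually.of_forall fun w => ?_)
    exact (mul_assoc _ _ _).symm
  show ((‖act κ P g x‖ ^ 2 : ℝ) : ℂ) = ∫ y, P (x, y) * conj (comp κ P (rc g g) (x, y)) ∂κ x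
  have e2 : ∫ y, P (x, y) * conj (comp κ P (rc g g) (x, y)) ∂κ x = (∫ y, P (x, y) * g y ∂κ x) * conj (act κ P g x) := by
    rw [← integral_mul_const]
    refine integral_congr_ae (Eventually.of_forall fun y => ?_)
    show P (x, y) * conj (comp κ P (rc g g) (x, y)) = P (x, y) * g y * conj (act κ P g x)
    rw [e, map_mul, Complex.conj_conj]
    ring
  rw [e2]
  show _ = act κ P g x * conj (act κ P g x)
  rw [Complex.mul_conj, Complex.normSq_eq_norm_sq]

end Pool.Agent.Lib.MP_9fe581_an.AP
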