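import Pool.Agent.Lib.MP_9fe581_an.AP.K4

/-! # AP, K5: the Hilbert *-algebra of the invariant kernels -/

set_option autoImplicit false
set_option linter.unusedSectionVars false

open Finset MeasureTheory Filter Topology ProbabilityTheory
open scoped ComplexConjugate ENNReal InnerProductSpace

namespace Pool.Agent.Lib.MP_9fe581_an.AP

variable {X : Type} [MeasurableSpace X] {μ : Measure X} [IsProbabilityMeasure μ] {S : X → X} {D : SA X}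
  {κ : Kernel X X} [IsMarkovKernel κ]

theorem Ctx.pres (c : Ctx μ S D κ) : MeasurePreserving (Prod.map S S) (μ ⊗ₘ κ) (μ ⊗ₘ κ) :=
  c.fib.shift2 c.sys.erg.toMeasurePreserving

/-- the invariant kernels -/
noncomputable def Bv (c : Ctx μ S D κ) : Submodule ℂ (Lp ℂ 2 (μ ⊗ₘ κ)) :=
  LinearMap.eqLocus (Lp.compMeasurePreservingₗ ℂ (Prod.map S S) c.pres) LinearMap.id

/-- the function of an element -/
noncomputable def fn {c : Ctx μ S D κ} (P : Bv c) : X × X → ℂ := (P : Lp ℂ 2 (μ ⊗ₘ κ))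

instance (c : Ctx μ S D κ) : CompleteSpace (Bv c) := by
  have h : IsClosed (Bv c : Set (Lp ℂ 2 (μ ⊗ₘ κ))) := by
    have h1 : Continuous (Lp.compMeasurePreservingₗ ℂ (Prod.map S S) c.pres : Lp ℂ 2 (μ ⊗ₘ κ) → Lp ℂ 2 (μ ⊗ₘ κ)) :=
      (Lp.isometry_compMeasurePreserving c.pres).continuous
    exact isClosed_eq h1 continuous_id
  exact h.completeSpace_coe

theorem fn_ker {c : Ctx μ S D κ} (P : Bv c) : Ker μ S κ (fun _ => 1) (fn P) := by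
  refine ⟨(Lp.stronglyMeasurable _).measurable, Lp.memLp _, ?_⟩
  have h1 : Lp.compMeasurePreserving (Prod.map S S) c.pres (P : Lp ℂ 2 (μ ⊗ₘ κ)) = (P : Lp ℂ 2 (μ ⊗ₘ κ)) := P.2
  have h2 := Lp.coeFn_compMeasurePreserving (P : Lp ℂ 2 (μ ⊗ₘ κ)) c.pres
  rw [h1] at h2
  filter_upwards [h2] with z hz
  rw [one_mul]
  exact hz.symm

theorem inner_fn {c : Ctx μ S D κ} (P Q : Bv c) : ⟪P, Q⟫_ℂ = ∫ z, fn Q z * conj (fn P z) ∂(μ ⊗ₘ κ) := by
  show ⟪(P : Lp ℂ 2 (μ ⊗ₘ κ)), (Q : Lp ℂ 2 (μ ⊗ₘ κ))⟫_ℂ = _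
  rw [L2.inner_def]
  rfl

theorem norm_fn {c : Ctx μ S D κ} (P : Bv c) : ‖P‖ ^ 2 = ksq μ κ (fn P) := by
  have h1 : ((‖P‖ ^ 2 : ℝ) : ℂ) = ⟪P, P⟫_ℂ := by
    have h := inner_self_eq_norm_sq_to_K (𝕜 := ℂ) P
    push_cast
    exact h.symm
  have h2 : ((ksq μ κ (fn P) : ℝ) : ℂ) = ⟪P, P⟫_ℂ := by
    rw [inner_fn, ksq, ← integral_complex_ofReal]
    refine integral_congr_ae (Eventually.of_forall fun z => ?_)
    show ((‖fn P z‖ ^ 2 : ℝ) : ℂ) = fn P z * conj (fn P z)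
    rw [Complex.mul_conj, Complex.normSq_eq_norm_sq]
  exact_mod_cast h1.trans h2.symm

theorem fn_ext {c : Ctx μ S D κ} {P Q : Bv c} (h : fn P =ᵐ[μ ⊗ₘ κ] fn Q) : P = Q :=
  Subtype.ext (Lp.ext h)

theorem fn_add {c : Ctx μ S D κ} (P Q : Bv c) : fn (P + Q) =ᵐ[μ ⊗ₘ κ] fun z => fn P z + fn Q z :=
  Lp.coeFn_add (P : Lp ℂ 2 (μ ⊗ₘ κ)) (Q : Lp ℂ 2 (μ ⊗ₘ κ))

theorem fn_sub {c : Ctx μ S D κ} (P Q : Bv c) : fn (P - Q) =ᵐ[μ ⊗ₘ κ] fun z => fn P z - fn Q z :=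
  Lp.coeFn_sub (P : Lp ℂ 2 (μ ⊗ₘ κ)) (Q : Lp ℂ 2 (μ ⊗ₘ κ))

theorem fn_smul {c : Ctx μ S D κ} (t : ℂ) (P : Bv c) : fn (t • P) =ᵐ[μ ⊗ₘ κ] fun z => t * fn P z :=
  Lp.coeFn_smul t (P : Lp ℂ 2 (μ ⊗ₘ κ))

/-- an invariant kernel as an element -/
theorem exists_fn (c : Ctx μ S D κ) {P : X × X → ℂ} (hP : Ker μ S κ (fun _ => 1) P) :
    ∃ Q : Bv c, fn Q =ᵐ[μ ⊗ₘ κ] P := by
  have h0 : (hP.l2.toLp P : X × X → ℂ) =ᵐ[μ ⊗ₘ κ] P := hP.l2.coeFn_toLp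
  refine ⟨⟨hP.l2.toLp P, ?_⟩, h0⟩
  show Lp.compMeasurePreserving (Prod.map S S) c.pres (hP.l2.toLp P) = hP.l2.toLp P
  refine Lp.ext ?_
  filter_upwards [Lp.coeFn_compMeasurePreserving (hP.l2.toLp P) c.pres, h0, hP.tw,
    c.pres.quasiMeasurePreserving.ae h0] with z h1 h2 h3 h4
  rw [h1, h2]
  show (hP.l2.toLp P : X × X → ℂ) (Prod.map S S z) = P z
  rw [h4]
  show P (S z.1, S z.2) = P z
  rw [h3, one_mul]

theorem k5_uni : Uni D (fun _ : X => (1 : ℂ)) := ⟨measurable_const, fun _ => by simp⟩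

theorem k5_one {a : X → ℂ} (h : ∀ x, a x = 1) {P : X × X → ℂ} (hP : Ker μ S κ a P) : Ker μ S κ (fun _ => 1) P := by
  refine ⟨hP.meas, hP.l2, ?_⟩
  filter_upwards [hP.tw] with z hz
  rw [hz, h]

theorem k5_comp {c : Ctx μ S D κ} (P Q : Bv c) : Ker μ S κ (fun _ => 1) (comp κ (fn P) (fn Q)) :=
  k5_one (a := fun _ => (1 : ℂ) * 1) (fun _ => one_mul 1) ((fn_ker P).compk c k5_uni k5_uni (fn_ker Q))

theorem k5_st {c : Ctx μ S D κ} (P : Bv c) : Ker μ S κ (fun _ => 1) (st (fn P)) :=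
  k5_one (a := fun _ => conj (1 : ℂ)) (fun _ => by simp) ((fn_ker P).stk c k5_uni)

/-- the product -/
noncomputable def k5_mul {c : Ctx μ S D κ} (P Q : Bv c) : Bv c := (exists_fn c (k5_comp P Q)).choose

theorem k5_mul_fn {c : Ctx μ S D κ} (P Q : Bv c) : fn (k5_mul P Q) =ᵐ[μ ⊗ₘ κ] comp κ (fn P) (fn Q) :=
  (exists_fn c (k5_comp P Q)).choose_spec

/-- the adjoint -/
noncomputable def k5_star {c : Ctx μ S D κ} (P : Bv c) : Bv c := (exists_fn c (k5_st P)).choose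

theorem k5_star_fn {c : Ctx μ S D κ} (P : Bv c) : fn (k5_star P) =ᵐ[μ ⊗ₘ κ] st (fn P) :=
  (exists_fn c (k5_st P)).choose_spec

theorem k5_m {c : Ctx μ S D κ} (P : Bv c) : Measurable (fn P) := (fn_ker P).meas

theorem k5_cc {c : Ctx μ S D κ} {P Q P' Q' : X × X → ℂ} (mP : Measurable P) (mP' : Measurable P') (mQ : Measurable Q)
    (mQ' : Measurable Q') (hP : P =ᵐ[μ ⊗ₘ κ] P') (hQ : Q =ᵐ[μ ⊗ₘ κ] Q') : comp κ P Q =ᵐ[μ ⊗ₘ κ] comp κ P' Q' :=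
  comp_congr c mP mP' mQ mQ' hP hQ

theorem k5_sc (c : Ctx μ S D κ) {P P' : X × X → ℂ} (hP : P =ᵐ[μ ⊗ₘ κ] P') : st P =ᵐ[μ ⊗ₘ κ] st P' := by
  filter_upwards [c.fib.swap.quasiMeasurePreserving.ae hP] with z hz
  show conj (P (z.2, z.1)) = conj (P' (z.2, z.1))
  have hz' : P (z.2, z.1) = P' (z.2, z.1) := hz
  rw [hz']

theorem k5_mul_add {c : Ctx μ S D κ} (P Q Q' : Bv c) : k5_mul P (Q + Q') = k5_mul P Q + k5_mul P Q' := by
  refine fn_ext ?_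
  have h1 : comp κ (fn P) (fn (Q + Q')) =ᵐ[μ ⊗ₘ κ] comp κ (fn P) (fun z => fn Q z + fn Q' z) :=
    k5_cc (c := c) (k5_m P) (k5_m P) (k5_m _) ((k5_m Q).add (k5_m Q')) (EventuallyEq.refl _ _) (fn_add Q Q')
  filter_upwards [k5_mul_fn P (Q + Q'), k5_mul_fn P Q, k5_mul_fn P Q', h1, fn_add (k5_mul P Q) (k5_mul P Q'),
    comp_add_right c k5_uni k5_uni (fn_ker P) (fn_ker Q) (fn_ker Q')] with z e1 e2 e3 e4 e5 e6
  rw [e1, e4, e6, e5, e2, e3]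

theorem k5_add_mul {c : Ctx μ S D κ} (P P' Q : Bv c) : k5_mul (P + P') Q = k5_mul P Q + k5_mul P' Q := by
  refine fn_ext ?_
  have h1 : comp κ (fn (P + P')) (fn Q) =ᵐ[μ ⊗ₘ κ] comp κ (fun z => fn P z + fn P' z) (fn Q) :=
    k5_cc (c := c) (k5_m _) ((k5_m P).add (k5_m P')) (k5_m Q) (k5_m Q) (fn_add P P') (EventuallyEq.refl _ _)
  filter_upwards [k5_mul_fn (P + P') Q, k5_mul_fn P Q, k5_mul_fn P' Q, h1, fn_add (k5_mul P Q) (k5_mul P' Q),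
    comp_add_left c k5_uni k5_uni (fn_ker P) (fn_ker P') (fn_ker Q)] with z e1 e2 e3 e4 e5 e6
  rw [e1, e4, e6, e5, e2, e3]

theorem k5_mul_smul {c : Ctx μ S D κ} (t : ℂ) (P Q : Bv c) : k5_mul P (t • Q) = t • k5_mul P Q := by
  refine fn_ext ?_
  have h1 : comp κ (fn P) (fn (t • Q)) =ᵐ[μ ⊗ₘ κ] comp κ (fn P) (fun z => t * fn Q z) :=
    k5_cc (c := c) (k5_m P) (k5_m P) (k5_m _) ((k5_m Q).const_mul t) (EventuallyEq.refl _ _) (fn_smul t Q)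
  filter_upwards [k5_mul_fn P (t • Q), k5_mul_fn P Q, h1, fn_smul t (k5_mul P Q)] with z e1 e2 e3 e4
  rw [e1, e3, e4, e2, comp_smul_right]

theorem k5_smul_mul {c : Ctx μ S D κ} (t : ℂ) (P Q : Bv c) : k5_mul (t • P) Q = t • k5_mul P Q := by
  refine fn_ext ?_
  have h1 : comp κ (fn (t • P)) (fn Q) =ᵐ[μ ⊗ₘ κ] comp κ (fun z => t * fn P z) (fn Q) :=
    k5_cc (c := c) (k5_m _) ((k5_m P).const_mul t) (k5_m Q) (k5_m Q) (fn_smul t P) (EventuallyEq.refl _ _)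
  filter_upwards [k5_mul_fn (t • P) Q, k5_mul_fn P Q, h1, fn_smul t (k5_mul P Q)] with z e1 e2 e3 e4
  rw [e1, e3, e4, e2, comp_smul_left]

theorem k5_assoc {c : Ctx μ S D κ} (P Q R : Bv c) : k5_mul (k5_mul P Q) R = k5_mul P (k5_mul Q R) := by
  refine fn_ext ?_
  have h1 : comp κ (fn (k5_mul P Q)) (fn R) =ᵐ[μ ⊗ₘ κ] comp κ (comp κ (fn P) (fn Q)) (fn R) :=
    k5_cc (c := c) (k5_m _) (measurable_comp (k5_m P) (k5_m Q)) (k5_m R) (k5_m R) (k5_mul_fn P Q) (EventuallyEq.refl _ _)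
  have h2 : comp κ (fn P) (fn (k5_mul Q R)) =ᵐ[μ ⊗ₘ κ] comp κ (fn P) (comp κ (fn Q) (fn R)) :=
    k5_cc (c := c) (k5_m P) (k5_m P) (k5_m _) (measurable_comp (k5_m Q) (k5_m R)) (EventuallyEq.refl _ _) (k5_mul_fn Q R)
  filter_upwards [k5_mul_fn (k5_mul P Q) R, k5_mul_fn P (k5_mul Q R), h1, h2,
    comp_assoc c k5_uni k5_uni k5_uni (fn_ker P) (fn_ker Q) (fn_ker R)] with z e1 e2 e3 e4 e5
  rw [e1, e3, e5, e2, e4]

theorem k5_norm_sq {c : Ctx μ S D κ} {P : Bv c} {Q : X × X → ℂ} (h : fn P =ᵐ[μ ⊗ₘ κ] Q) : ‖P‖ ^ 2 = ksq μ κ Q := by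
  rw [norm_fn]
  exact integral_congr_ae (h.mono fun z hz => by
    show ‖fn P z‖ ^ 2 = ‖Q z‖ ^ 2
    rw [hz])

theorem k5_norm_mul {c : Ctx μ S D κ} (P Q : Bv c) : ‖k5_mul P Q‖ ≤ ‖P‖ * ‖Q‖ := by
  have h1 : ‖k5_mul P Q‖ ^ 2 ≤ (‖P‖ * ‖Q‖) ^ 2 := by
    rw [k5_norm_sq (k5_mul_fn P Q), mul_pow, norm_fn, norm_fn]
    exact ksq_comp c k5_uni k5_uni (fn_ker P) (fn_ker Q)
  exact le_of_sq_le_sq h1 (by positivity)

theorem k5_star_star {c : Ctx μ S D κ} (P : Bv c) : k5_star (k5_star P) = P := by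
  refine fn_ext ?_
  filter_upwards [k5_star_fn (k5_star P), k5_sc c (k5_star_fn P)] with z e1 e2
  rw [e1, e2]
  show conj (conj (fn P (z.1, z.2))) = fn P z
  rw [Complex.conj_conj]

theorem k5_star_add {c : Ctx μ S D κ} (P Q : Bv c) : k5_star (P + Q) = k5_star P + k5_star Q := by
  refine fn_ext ?_
  filter_upwards [k5_star_fn (P + Q), k5_sc c (fn_add P Q), fn_add (k5_star P) (k5_star Q), k5_star_fn P, k5_star_fn Q]
    with z e1 e2 e3 e4 e5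
  rw [e1, e2, e3, e4, e5]
  exact map_add _ _ _

theorem k5_star_smul {c : Ctx μ S D κ} (t : ℂ) (P : Bv c) : k5_star (t • P) = conj t • k5_star P := by
  refine fn_ext ?_
  filter_upwards [k5_star_fn (t • P), k5_sc c (fn_smul t P), fn_smul (conj t) (k5_star P), k5_star_fn P] with z e1 e2 e3 e4
  rw [e1, e2, e3, e4]
  exact map_mul _ _ _

theorem k5_star_mul {c : Ctx μ S D κ} (P Q : Bv c) : k5_star (k5_mul P Q) = k5_mul (k5_star Q) (k5_star P) := by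
  refine fn_ext ?_
  have h1 : comp κ (fn (k5_star Q)) (fn (k5_star P)) =ᵐ[μ ⊗ₘ κ] comp κ (st (fn Q)) (st (fn P)) :=
    k5_cc (c := c) (k5_m _) (k4_mst (k5_m Q)) (k5_m _) (k4_mst (k5_m P)) (k5_star_fn Q) (k5_star_fn P)
  filter_upwards [k5_star_fn (k5_mul P Q), k5_sc c (k5_mul_fn P Q), k5_mul_fn (k5_star Q) (k5_star P), h1,
    st_comp c (k5_m P) (k5_m Q)] with z e1 e2 e3 e4 e5
  rw [e1, e2, e5, e3, e4]

theorem k5_norm_star {c : Ctx μ S D κ} (P : Bv c) : ‖k5_star P‖ = ‖P‖ := by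
  have h1 : ‖k5_star P‖ ^ 2 = ‖P‖ ^ 2 := by
    rw [k5_norm_sq (k5_star_fn P), ksq_st c, norm_fn]
  exact (sq_eq_sq₀ (norm_nonneg _) (norm_nonneg _)).1 h1

theorem k5_inner {c : Ctx μ S D κ} (P Q R : Bv c) : ⟪k5_mul P Q, R⟫_ℂ = ⟪Q, k5_mul (k5_star P) R⟫_ℂ := by
  have h1 : comp κ (fn (k5_star P)) (fn R) =ᵐ[μ ⊗ₘ κ] comp κ (st (fn P)) (fn R) :=
    k5_cc (c := c) (k5_m _) (k4_mst (k5_m P)) (k5_m R) (k5_m R) (k5_star_fn P) (EventuallyEq.refl _ _)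
  have h2 := inner_comp c k5_uni k5_uni k5_uni (k5_st P) (fn_ker R) (fn_ker Q)
  have hss : st (st (fn P)) = fn P := by
    funext z
    show conj (conj (fn P (z.1, z.2))) = fn P z
    rw [Complex.conj_conj]
  rw [hss] at h2
  rw [inner_fn, inner_fn]
  calc ∫ z, fn R z * conj (fn (k5_mul P Q) z) ∂(μ ⊗ₘ κ) = ∫ z, fn R z * conj (comp κ (fn P) (fn Q) z) ∂(μ ⊗ₘ κ) := by
        refine integral_congr_ae ?_
        filter_upwards [k5_mul_fn P Q] with z hz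
        rw [hz]
    _ = ∫ z, comp κ (st (fn P)) (fn R) z * conj (fn Q z) ∂(μ ⊗ₘ κ) := h2.symm
    _ = _ := by
        refine integral_congr_ae ?_
        filter_upwards [k5_mul_fn (k5_star P) R, h1] with z e1 e2
        rw [e1, e2]

theorem k5_proper {c : Ctx μ S D κ} (P : Bv c) (h : k5_mul (k5_star P) P = 0) : P = 0 := by
  have h0 : fn (0 : Bv c) =ᵐ[μ ⊗ₘ κ] 0 := by
    filter_upwards [fn_smul (0 : ℂ) (0 : Bv c)] with z hz
    simpa using hz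
  have h1 : comp κ (fn (k5_star P)) (fn P) =ᵐ[μ ⊗ₘ κ] comp κ (st (fn P)) (fn P) :=
    k5_cc (c := c) (k5_m _) (k4_mst (k5_m P)) (k5_m P) (k5_m P) (k5_star_fn P) (EventuallyEq.refl _ _)
  have h2 : comp κ (st (fn P)) (fn P) =ᵐ[μ ⊗ₘ κ] 0 := by
    have h3 := k5_mul_fn (k5_star P) P
    rw [h] at h3
    filter_upwards [h3, h1, h0] with z e1 e2 e3
    rw [← e2, ← e1, e3]
  have hact : ∀ g : X → ℂ, Bd g → act κ (fn P) g =ᵐ[μ] 0 := by
    intro g hg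
    have e1 := act_sq c k5_uni (fn_ker P) hg
    have e2 : ∫ z, comp κ (st (fn P)) (fn P) z * conj (rc g g z) ∂(μ ⊗ₘ κ) = 0 := by
      rw [integral_congr_ae (g := fun _ => (0 : ℂ))]
      · simp
      · filter_upwards [h2] with z hz
        rw [hz]
        simp
    rw [e2] at e1
    have e3 : nsq μ (act κ (fn P) g) = 0 := by exact_mod_cast e1
    have hl := act_l2 c k5_uni (fn_ker P) hg
    have hi : Integrable (fun x => ‖act κ (fn P) g x‖ ^ 2) μ :=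
      (memLp_two_iff_integrable_sq_norm (measurable_act (k5_m P) hg.meas).aestronglyMeasurable).1 hl
    have e4 := (integral_eq_zero_iff_of_nonneg (fun x => by positivity) hi).1 e3
    filter_upwards [e4] with x hx
    have : ‖act κ (fn P) g x‖ ^ 2 = 0 := hx
    simpa using this
  have htot := c.fib.total (P := fn P) ((fn_ker P).l2.integrable (by norm_num)) (fun f g hf hg => by
    have hf' : Bd fun x => conj (f x) := ⟨Complex.continuous_conj.measurable.comp hf.meas, by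
      obtain ⟨C, hC⟩ := hf.bdd
      exact ⟨C, fun x => by rw [RCLike.norm_conj]; exact hC x⟩⟩
    have e1 := pair_act c k5_uni (fn_ker P) hf' hg
    have e2 : ∫ x, act κ (fn P) g x * conj (conj (f x)) ∂μ = 0 := by
      rw [integral_congr_ae (g := fun _ => (0 : ℂ))]
      · simp
      · filter_upwards [hact g hg] with z hz
        rw [hz]
        simp
    rw [e2] at e1
    rw [← e1]
    refine integral_congr_ae (Eventually.of_forall fun z => ?_)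
    show fn P z * (f z.1 * g z.2) = fn P z * conj (conj (f z.1) * conj (g z.2))
    rw [map_mul, Complex.conj_conj, Complex.conj_conj])
  refine fn_ext (htot.trans h0.symm)

/-- **K5.** the product and the adjoint of kernels make `Bv c` an `H*`-algebra -/
theorem exists_hst (c : Ctx μ S D κ) : ∃ H : HStar (Bv c), (∀ P Q, fn (H.mul P Q) =ᵐ[μ ⊗ₘ κ] comp κ (fn P) (fn Q)) ∧
    ∀ P, fn (H.star P) =ᵐ[μ ⊗ₘ κ] st (fn P) :=
  ⟨{ mul := LinearMap.mk₂ ℂ k5_mul k5_add_mul k5_smul_mul k5_mul_add k5_mul_smul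
     star := k5_star
     star_add := k5_star_add
     star_smul := k5_star_smul
     star_star := k5_star_star
     star_mul := k5_star_mul
     assoc := k5_assoc
     norm_mul := k5_norm_mul
     norm_star := k5_norm_star
     inner_mul := k5_inner
     proper := k5_proper }, k5_mul_fn, k5_star_fn⟩

/-- the algebra of the invariant kernels -/
noncomputable def hst (c : Ctx μ S D κ) : HStar (Bv c) := (exists_hst c).choose

theorem fn_mul {c : Ctx μ S D κ} (P Q : Bv c) : fn ((hst c).mul P Q) =ᵐ[μ ⊗ₘ κ] comp κ (fn P) (fn Q) :=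
  (exists_hst c).choose_spec.1 P Q

theorem fn_star {c : Ctx μ S D κ} (P : Bv c) : fn ((hst c).star P) =ᵐ[μ ⊗ₘ κ] st (fn P) :=
  (exists_hst c).choose_spec.2 P

end Pool.Agent.Lib.MP_9fe581_an.AP
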