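import Pool.Agent.Lib.MP_9fe581_an.AP.K5
import Pool.Agent.Lib.MP_9fe581_an.AP.G1

/-! # AP, K6: kernels `e ⊗ conj e · (Y ⊗ Y-measurable)`, `e` unimodular -/

set_option autoImplicit false

open Finset MeasureTheory Filter Topology ProbabilityTheory
open scoped ComplexConjugate ENNReal InnerProductSpace

namespace Pool.Agent.Lib.MP_9fe581_an.AP

variable {X : Type} [MeasurableSpace X] {μ : Measure X} [IsProbabilityMeasure μ] {S : X → X} {D : SA X}
  {κ : Kernel X X} [IsMarkovKernel κ]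

/-- `P = e ⊗ conj e · G`, `G` measurable for `Y ⊗ Y` -/
def Pm (μ : Measure X) (κ : Kernel X X) (e : X → ℂ) (Y : SA X) (P : X × X → ℂ) : Prop :=
  AEStronglyMeasurable[Y.m.prod Y.m] (fun z => conj (e z.1) * P z * e z.2) (μ ⊗ₘ κ)

/-- `e` is unimodular, `e ∘ S / e` is `Y`-measurable, `D ≤ Y` -/
structure Em (μ : Measure X) (S : X → X) (D : SA X) (Y : SA X) (e : X → ℂ) : Prop where
  fac : Fac μ S Y
  sub : ∀ s, MeasurableSet[D.m] s → MeasurableSet[Y.m] s
  meas : Measurable e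
  norm : ∀ x, ‖e x‖ = 1
  ratio : Measurable[Y.m] fun x => e (S x) * conj (e x)

/-- the projection on `e L²(Y)` -/
noncomputable def prj (μ : Measure X) (Y : SA X) (e f : X → ℂ) (x : X) : ℂ := e x * ce μ Y (fun y => conj (e y) * f y) x

/-! ### conditional expectations: pairings with bounded functions -/

private theorem k6_int {Ω : Type} {m0 : MeasurableSpace Ω} {ν : Measure Ω} {P h : Ω → ℂ} (hP : Integrable P ν)
    (hh : AH.BM ν h) : Integrable (fun ω => P ω * h ω) ν := by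
  obtain ⟨h1, C, h2⟩ := hh
  exact hP.mul_bdd h1 h2

private theorem k6_A {Ω : Type} {m m0 : MeasurableSpace Ω} {ν : Measure Ω} [IsProbabilityMeasure ν] (hm : m ≤ m0)
    {P h : Ω → ℂ} (hP : Integrable P ν) (hPm : AEStronglyMeasurable[m] P ν) (hh : AH.BM ν h) :
    ∫ ω, P ω * h ω ∂ν = ∫ ω, P ω * (ν[h | m]) ω ∂ν := by
  have h1 := condExp_bilin_of_aestronglyMeasurable_left (ContinuousLinearMap.mul ℝ ℂ) hPm (k6_int hP hh) hh.integrable
  rw [← integral_condExp hm]
  exact integral_congr_ae h1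

private theorem k6_B {Ω : Type} {m m0 : MeasurableSpace Ω} {ν : Measure Ω} [IsProbabilityMeasure ν] (hm : m ≤ m0)
    {P k : Ω → ℂ} (hP : Integrable P ν) (hk : AH.BM ν k) (hkm : AEStronglyMeasurable[m] k ν) :
    ∫ ω, P ω * k ω ∂ν = ∫ ω, (ν[P | m]) ω * k ω ∂ν := by
  have h1 := condExp_bilin_of_aestronglyMeasurable_right (ContinuousLinearMap.mul ℝ ℂ) hkm (k6_int hP hk) hP
  rw [← integral_condExp hm]
  exact integral_congr_ae h1

private theorem k6_ind {X : Type} {mX : MeasurableSpace X} {μ : Measure X} [IsProbabilityMeasure μ] {D Y : SA X}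
    (hDY : D.m ≤ Y.m) (hY : Y.m ≤ mX) {f f1 : X → ℂ} (hf : Integrable f μ) (h1 : f1 =ᵐ[μ] ce μ Y f) {A : Set X}
    (hA : MeasurableSet[Y.m] A) : ce μ D (A.indicator f1) =ᵐ[μ] ce μ D (A.indicator f) := by
  have e1 : A.indicator f1 =ᵐ[μ] ce μ Y (A.indicator f) := by
    have h2 : μ[A.indicator f | Y.m] =ᵐ[μ] A.indicator (μ[f | Y.m]) := condExp_indicator hf hA
    filter_upwards [h2, h1] with x hx hx1
    show A.indicator f1 x = (μ[A.indicator f | Y.m]) x
    rw [hx]
    by_cases hxA : x ∈ A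
    · rw [Set.indicator_of_mem hxA, Set.indicator_of_mem hxA]
      exact hx1
    · rw [Set.indicator_of_notMem hxA, Set.indicator_of_notMem hxA]
  exact (condExp_congr_ae e1).trans (condExp_condExp_of_le hDY hY)

private theorem k6_le {X : Type} {mX m : MeasurableSpace X} (h : m ≤ mX) : m.prod m ≤ mX.prod mX :=
  sup_le_sup (MeasurableSpace.comap_mono h) (MeasurableSpace.comap_mono h)

private theorem k6_bdind {X : Type} {mX : MeasurableSpace X} {f : X → ℂ} (hf : Bd f) {A : Set X} (hA : MeasurableSet A) :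
    Bd (A.indicator f) := by
  obtain ⟨C, hC⟩ := hf.bdd
  refine ⟨hf.meas.indicator hA, |C|, fun x => ?_⟩
  by_cases hx : x ∈ A
  · rw [Set.indicator_of_mem hx]
    exact (hC x).trans (le_abs_self C)
  · rw [Set.indicator_of_notMem hx, norm_zero]
    exact abs_nonneg C

private theorem k6_rect (c : Ctx μ S D κ) {Y : SA X} {e : X → ℂ} (hY : Em μ S D Y e) {f g f1 g1 : X → ℂ} (hf : Bd f)
    (hg : Bd g) (hf1 : Bd f1) (hg1 : Bd g1) (h1 : f1 =ᵐ[μ] ce μ Y f) (h2 : g1 =ᵐ[μ] ce μ Y g) {A B : Set X}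
    (hA : MeasurableSet[Y.m] A) (hB : MeasurableSet[Y.m] B) :
    ∫ z in A ×ˢ B, f1 z.1 * g1 z.2 ∂(μ ⊗ₘ κ) = ∫ z in A ×ˢ B, f z.1 * g z.2 ∂(μ ⊗ₘ κ) := by
  have hA' := hY.fac.le A hA
  have hB' := hY.fac.le B hB
  have key : ∀ u v : X → ℂ, Bd u → Bd v → ∫ z in A ×ˢ B, u z.1 * v z.2 ∂(μ ⊗ₘ κ) =
      ∫ x, ce μ D (A.indicator u) x * ce μ D (B.indicator v) x ∂μ := by
    intro u v hu hv
    rw [← c.fib.rect c.fac.le (k6_bdind hu hA') (k6_bdind hv hB'), ← integral_indicator (hA'.prod hB')]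
    refine integral_congr_ae (Eventually.of_forall fun z => ?_)
    by_cases h1 : z.1 ∈ A
    · by_cases h2 : z.2 ∈ B
      · simp [Set.indicator, h1, h2]
      · simp [Set.indicator, h1, h2]
    · simp [Set.indicator, h1]
  rw [key f1 g1 hf1 hg1, key f g hf hg]
  refine integral_congr_ae ?_
  have hDY : D.m ≤ Y.m := fun s hs => hY.sub s hs
  filter_upwards [k6_ind hDY hY.fac.le' hf.bm.integrable h1 hA, k6_ind hDY hY.fac.le' hg.bm.integrable h2 hB] with x hx hx'
  rw [hx, hx']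

/-- conditional expectation on `Y ⊗ Y` of a product (`D ≤ Y`) -/
theorem ce_prod (c : Ctx μ S D κ) {Y : SA X} {e : X → ℂ} (hY : Em μ S D Y e) {f g : X → ℂ} (hf : Bd f) (hg : Bd g) :
    (μ ⊗ₘ κ)[fun z : X × X => f z.1 * g z.2 | Y.m.prod Y.m] =ᵐ[μ ⊗ₘ κ] fun z => ce μ Y f z.1 * ce μ Y g z.2 := by
  obtain ⟨f1, mf1, hf1, ef⟩ := ce_rep (μ := μ) hY.fac.le' hf.bm
  obtain ⟨g1, mg1, hg1, eg⟩ := ce_rep (μ := μ) hY.fac.le' hg.bm
  have hF : AH.BM (μ ⊗ₘ κ) fun z : X × X => f z.1 * g z.2 := (hf.bm.comp c.fib.fst).mul (hg.bm.comp c.fib.snd)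
  have hF1 : AH.BM (μ ⊗ₘ κ) fun z : X × X => f1 z.1 * g1 z.2 := (hf1.bm.comp c.fib.fst).mul (hg1.bm.comp c.fib.snd)
  have e1 : (fun z : X × X => f1 z.1 * g1 z.2) =ᵐ[μ ⊗ₘ κ] fun z => ce μ Y f z.1 * ce μ Y g z.2 := by
    filter_upwards [c.fib.fst.quasiMeasurePreserving.ae ef, c.fib.snd.quasiMeasurePreserving.ae eg] with z h1 h2
    rw [h1, h2]
  have hm : @Measurable (X × X) ℂ (Y.m.prod Y.m) _ fun z => f1 z.1 * g1 z.2 :=
    (mf1.comp (@measurable_fst X X Y.m Y.m)).mul (mg1.comp (@measurable_snd X X Y.m Y.m))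
  refine (ae_eq_condExp_of_forall_setIntegral_eq (k6_le hY.fac.le') hF.integrable
    (fun s _ _ => hF1.integrable.integrableOn) ?_ hm.stronglyMeasurable.aestronglyMeasurable).symm.trans e1
  have hle := k6_le hY.fac.le'
  have huniv := k6_rect c hY hf hg hf1 hg1 ef eg (A := Set.univ) (B := Set.univ) (@MeasurableSet.univ X Y.m)
    (@MeasurableSet.univ X Y.m)
  rw [Set.univ_prod_univ, setIntegral_univ, setIntegral_univ] at huniv
  have hall : ∀ s : Set (X × X), MeasurableSet[Y.m.prod Y.m] s →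
      ∫ z in s, f1 z.1 * g1 z.2 ∂(μ ⊗ₘ κ) = ∫ z in s, f z.1 * g z.2 ∂(μ ⊗ₘ κ) := by
    refine @MeasurableSpace.induction_on_inter (X × X) (Y.m.prod Y.m) (fun s _ =>
      ∫ z in s, f1 z.1 * g1 z.2 ∂(μ ⊗ₘ κ) = ∫ z in s, f z.1 * g z.2 ∂(μ ⊗ₘ κ)) _
      (@generateFrom_prod X X Y.m Y.m).symm (@isPiSystem_prod X X Y.m Y.m) ?_ ?_ ?_ ?_
    · simp
    · rintro _ ⟨s, hs, t, ht, rfl⟩
      exact k6_rect c hY hf hg hf1 hg1 ef eg hs ht
    · intro s hs h1
      have h2 := integral_add_compl (hle s hs) hF1.integrable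
      have h3 := integral_add_compl (hle s hs) hF.integrable
      rw [h1, huniv, ← h3] at h2
      exact add_left_cancel h2
    · intro f hd hf h1
      rw [integral_iUnion (fun i => hle _ (hf i)) hd hF1.integrable.integrableOn,
        integral_iUnion (fun i => hle _ (hf i)) hd hF.integrable.integrableOn]
      simp [h1]
  exact fun s hs _ => hall s hs

private theorem k6_tw {Y : SA X} {e : X → ℂ} (hY : Em μ S D Y e) (x : X) : conj (e x) * e x = 1 := by
  rw [mul_comm, Complex.mul_conj, Complex.normSq_eq_norm_sq, hY.norm]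
  simp

private theorem k6_bde {Y : SA X} {e : X → ℂ} (hY : Em μ S D Y e) {f : X → ℂ} (hf : Bd f) : Bd fun x => e x * f x := by
  obtain ⟨C, hC⟩ := hf.bdd
  refine ⟨hY.meas.mul hf.meas, C, fun x => ?_⟩
  rw [norm_mul, hY.norm, one_mul]
  exact hC x

private theorem k6_bdc {Y : SA X} {e : X → ℂ} (hY : Em μ S D Y e) {f : X → ℂ} (hf : Bd f) :
    Bd fun x => conj (e x) * f x := by
  obtain ⟨C, hC⟩ := hf.bdd
  refine ⟨(Complex.continuous_conj.measurable.comp hY.meas).mul hf.meas, C, fun x => ?_⟩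
  rw [norm_mul, RCLike.norm_conj, hY.norm, one_mul]
  exact hC x

private theorem k6_bdconj {f : X → ℂ} (hf : Bd f) : Bd fun x => conj (f x) := by
  obtain ⟨C, hC⟩ := hf.bdd
  refine ⟨Complex.continuous_conj.measurable.comp hf.meas, C, fun x => ?_⟩
  rw [RCLike.norm_conj]
  exact hC x

/-- the twisted kernel -/
private noncomputable def k6_T (e : X → ℂ) (P : X × X → ℂ) (z : X × X) : ℂ := conj (e z.1) * P z * e z.2

private theorem k6_Tint {Y : SA X} {e : X → ℂ} (hY : Em μ S D Y e) {P : X × X → ℂ} (mP : Measurable P)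
    (hP : MemLp P 2 (μ ⊗ₘ κ)) : Integrable (k6_T e P) (μ ⊗ₘ κ) := by
  have h1 : Integrable P (μ ⊗ₘ κ) := hP.integrable (by norm_num)
  refine h1.mono ?_ (Eventually.of_forall fun z => ?_)
  · exact (((Complex.continuous_conj.measurable.comp (hY.meas.comp measurable_fst)).mul mP).mul
      (hY.meas.comp measurable_snd)).aestronglyMeasurable
  · unfold k6_T
    rw [norm_mul, norm_mul, RCLike.norm_conj, hY.norm, hY.norm, one_mul, mul_one]

/-- the pairing of `P` in terms of the twisted kernel -/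
private theorem k6_pair {Y : SA X} {e : X → ℂ} (hY : Em μ S D Y e) (P : X × X → ℂ) (f g : X → ℂ) (z : X × X) :
    P z * conj (rc f g z) = k6_T e P z * (conj (conj (e z.1) * f z.1) * (conj (e z.2) * g z.2)) := by
  unfold k6_T rc
  have h1 := k6_tw hY z.1
  have h2 := k6_tw hY z.2
  simp only [map_mul, Complex.conj_conj]
  calc P z * (conj (f z.1) * g z.2) = P z * (conj (f z.1) * g z.2) * 1 * 1 := by ring
    _ = P z * (conj (f z.1) * g z.2) * (conj (e z.1) * e z.1) * (conj (e z.2) * e z.2) := by rw [h1, h2]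
    _ = _ := by ring

private theorem k6_E (c : Ctx μ S D κ) {Y : SA X} {e : X → ℂ} (hY : Em μ S D Y e) {f g : X → ℂ} (hf : Bd f) (hg : Bd g) :
    (μ ⊗ₘ κ)[fun z : X × X => conj (f z.1) * g z.2 | Y.m.prod Y.m] =ᵐ[μ ⊗ₘ κ]
      fun z => conj (ce μ Y f z.1) * ce μ Y g z.2 := by
  refine (ce_prod c hY (k6_bdconj hf) hg).trans ?_
  filter_upwards [c.fib.fst.quasiMeasurePreserving.ae (ce_conj (μ := μ) hY.fac.le' hf.bm.integrable)] with z hz
  rw [hz]

private theorem k6_BMh (c : Ctx μ S D κ) {f g : X → ℂ} (hf : AH.BM μ f) (hg : AH.BM μ g) :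
    AH.BM (μ ⊗ₘ κ) fun z : X × X => conj (f z.1) * g z.2 :=
  (hf.conj.comp c.fib.fst).mul (hg.comp c.fib.snd)

private theorem k6_prj {Y : SA X} {e : X → ℂ} (hY : Em μ S D Y e) (f : X → ℂ) (x : X) :
    conj (e x) * prj μ Y e f x = ce μ Y (fun y => conj (e y) * f y) x := by
  unfold prj
  rw [← mul_assoc, k6_tw hY, one_mul]

private theorem k6_prjint {Y : SA X} {e : X → ℂ} (hY : Em μ S D Y e) (P : X × X → ℂ) (f g : X → ℂ) :
    ∫ z, P z * conj (rc (prj μ Y e f) (prj μ Y e g) z) ∂(μ ⊗ₘ κ) =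
      ∫ z, k6_T e P z * (conj (ce μ Y (fun y => conj (e y) * f y) z.1) * ce μ Y (fun y => conj (e y) * g y) z.2)
        ∂(μ ⊗ₘ κ) := by
  refine integral_congr_ae (Eventually.of_forall fun z => ?_)
  dsimp only
  rw [k6_pair hY, k6_prj hY, k6_prj hY]

private theorem k6_km {Y : SA X} (f g : X → ℂ) : AEStronglyMeasurable[Y.m.prod Y.m]
    (fun z : X × X => conj (ce μ Y f z.1) * ce μ Y g z.2) (μ ⊗ₘ κ) := by
  have h1 : Measurable[Y.m] (ce μ Y f) :=
    (show @StronglyMeasurable _ _ _ Y.m (μ[f | Y.m]) from stronglyMeasurable_condExp).measurable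
  have h2 : Measurable[Y.m] (ce μ Y g) :=
    (show @StronglyMeasurable _ _ _ Y.m (μ[g | Y.m]) from stronglyMeasurable_condExp).measurable
  have hm : @Measurable (X × X) ℂ (Y.m.prod Y.m) _ fun z : X × X => conj (ce μ Y f z.1) * ce μ Y g z.2 :=
    (Complex.continuous_conj.measurable.comp (h1.comp (@measurable_fst X X Y.m Y.m))).mul
      (h2.comp (@measurable_snd X X Y.m Y.m))
  exact hm.stronglyMeasurable.aestronglyMeasurable

/-- **K6, the test**: `P` is of the form `e ⊗ conj e · G` iff the pairings with `f ⊗ conj g` depend on the projections only -/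
theorem Pm_iff (c : Ctx μ S D κ) {Y : SA X} {e : X → ℂ} (hY : Em μ S D Y e) {P : X × X → ℂ} (mP : Measurable P)
    (hP : MemLp P 2 (μ ⊗ₘ κ)) : Pm μ κ e Y P ↔ ∀ f g : X → ℂ, Bd f → Bd g →
      ∫ z, P z * conj (rc f g z) ∂(μ ⊗ₘ κ) = ∫ z, P z * conj (rc (prj μ Y e f) (prj μ Y e g) z) ∂(μ ⊗ₘ κ) := by
  have hTi : Integrable (k6_T e P) (μ ⊗ₘ κ) := k6_Tint hY mP hP
  have hle := k6_le (X := X) hY.fac.le'
  constructor
  · intro hm f g hf hg
    rw [k6_prjint hY]
    have hf' := k6_bdc hY hf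
    have hg' := k6_bdc hY hg
    have e1 : ∫ z, P z * conj (rc f g z) ∂(μ ⊗ₘ κ) =
        ∫ z, k6_T e P z * (conj ((fun x => conj (e x) * f x) z.1) * (fun x => conj (e x) * g x) z.2) ∂(μ ⊗ₘ κ) :=
      integral_congr_ae (Eventually.of_forall fun z => k6_pair hY P f g z)
    rw [e1, k6_A hle hTi hm (k6_BMh c hf'.bm hg'.bm)]
    refine integral_congr_ae ?_
    filter_upwards [k6_E c hY hf' hg'] with z hz
    rw [hz]
  · intro H
    set Q : X × X → ℂ := (μ ⊗ₘ κ)[k6_T e P | Y.m.prod Y.m] with hQ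
    have hQi : Integrable Q (μ ⊗ₘ κ) := integrable_condExp
    have hQm : AEStronglyMeasurable[Y.m.prod Y.m] Q (μ ⊗ₘ κ) := stronglyMeasurable_condExp.aestronglyMeasurable
    have h0 : (fun z => k6_T e P z - Q z) =ᵐ[μ ⊗ₘ κ] 0 := by
      refine c.fib.total (hTi.sub hQi) fun u v hu hv => ?_
      have hu' := k6_bdconj hu
      have hB := k6_BMh (κ := κ) c hu'.bm hv.bm
      have hk := k6_BMh (κ := κ) c (ce_bm (D := Y) hu'.bm) (ce_bm (D := Y) hv.bm)
      have e0 : (fun z : X × X => u z.1 * v z.2) = fun z => conj ((fun x => conj (u x)) z.1) * v z.2 := by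
        funext z
        simp only [Complex.conj_conj]
      have e1 : ∫ z, k6_T e P z * (conj ((fun x => conj (u x)) z.1) * v z.2) ∂(μ ⊗ₘ κ) =
          ∫ z, k6_T e P z * (conj (ce μ Y (fun x => conj (u x)) z.1) * ce μ Y v z.2) ∂(μ ⊗ₘ κ) := by
        have h1 := H (fun x => e x * conj (u x)) (fun x => e x * v x) (k6_bde hY hu') (k6_bde hY hv)
        rw [k6_prjint hY] at h1
        have h2 : ∀ w : X → ℂ, (fun y => conj (e y) * (e y * w y)) = w := by
          intro w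
          funext y
          rw [← mul_assoc, k6_tw hY, one_mul]
        rw [h2 fun x => conj (u x), h2 v] at h1
        rw [← h1]
        refine integral_congr_ae (Eventually.of_forall fun z => ?_)
        dsimp only
        rw [k6_pair hY]
        have h3 : conj (e z.1) * (e z.1 * conj (u z.1)) = conj (u z.1) := by rw [← mul_assoc, k6_tw hY, one_mul]
        have h4 : conj (e z.2) * (e z.2 * v z.2) = v z.2 := by rw [← mul_assoc, k6_tw hY, one_mul]
        rw [h3, h4]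
      have e2 : ∫ z, Q z * (conj ((fun x => conj (u x)) z.1) * v z.2) ∂(μ ⊗ₘ κ) =
          ∫ z, Q z * (conj (ce μ Y (fun x => conj (u x)) z.1) * ce μ Y v z.2) ∂(μ ⊗ₘ κ) := by
        rw [k6_A hle hQi hQm hB]
        refine integral_congr_ae ?_
        filter_upwards [k6_E c hY hu' hv] with z hz
        rw [hz]
      have e3 := k6_B hle hTi hk (k6_km _ _)
      have e4 : ∀ z : X × X, u z.1 * v z.2 = conj ((fun x => conj (u x)) z.1) * v z.2 := fun z => congrFun e0 z
      have e5 : ∫ z, (k6_T e P z - Q z) * (u z.1 * v z.2) ∂(μ ⊗ₘ κ) =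
          ∫ z, k6_T e P z * (conj ((fun x => conj (u x)) z.1) * v z.2) ∂(μ ⊗ₘ κ) -
            ∫ z, Q z * (conj ((fun x => conj (u x)) z.1) * v z.2) ∂(μ ⊗ₘ κ) := by
        rw [← integral_sub (k6_int hTi hB) (k6_int hQi hB)]
        refine integral_congr_ae (Eventually.of_forall fun z => ?_)
        dsimp only
        rw [Complex.conj_conj]
        ring
      rw [e5, e1, e2, e3, sub_self]
    refine hQm.congr ?_
    filter_upwards [h0] with z hz
    exact (sub_eq_zero.1 hz).symm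

/-- zero, if the pairings with `f ⊗ conj g`, `f`, `g` bounded in `e L²(Y)`, vanish -/
theorem Pm_zero (c : Ctx μ S D κ) {Y : SA X} {e : X → ℂ} (hY : Em μ S D Y e) {P : X × X → ℂ} (mP : Measurable P)
    (hP : MemLp P 2 (μ ⊗ₘ κ)) (hm : Pm μ κ e Y P) (h0 : ∀ f g : X → ℂ, Bd f → Bd g → Measurable[Y.m] f →
      Measurable[Y.m] g → ∫ z, P z * conj (rc (fun x => e x * f x) (fun x => e x * g x) z) ∂(μ ⊗ₘ κ) = 0) :
    P =ᵐ[μ ⊗ₘ κ] 0 := by
  refine c.fib.total (hP.integrable (by norm_num)) fun u v hu hv => ?_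
  have hu' := k6_bdconj hu
  have h1 := (Pm_iff c hY mP hP).1 hm (fun x => conj (u x)) v hu' hv
  obtain ⟨f1, mf1, hf1, ef⟩ := ce_rep (μ := μ) hY.fac.le' (k6_bdc hY hu').bm
  obtain ⟨g1, mg1, hg1, eg⟩ := ce_rep (μ := μ) hY.fac.le' (k6_bdc hY hv).bm
  have h2 := h0 f1 g1 hf1 hg1 mf1 mg1
  have e1 : ∫ z, P z * (u z.1 * v z.2) ∂(μ ⊗ₘ κ) = ∫ z, P z * conj (rc (fun x => conj (u x)) v z) ∂(μ ⊗ₘ κ) := by
    refine integral_congr_ae (Eventually.of_forall fun z => ?_)
    simp only [rc, map_mul, Complex.conj_conj]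
  rw [e1, h1, ← h2]
  refine integral_congr_ae ?_
  filter_upwards [c.fib.fst.quasiMeasurePreserving.ae ef, c.fib.snd.quasiMeasurePreserving.ae eg] with z h3 h4
  simp only [rc, prj]
  rw [h3, h4]

theorem Pm_rc (c : Ctx μ S D κ) {Y : SA X} {e : X → ℂ} (hY : Em μ S D Y e) {f g : X → ℂ} (hf : Bd f) (hg : Bd g)
    (hf' : Measurable[Y.m] fun x => conj (e x) * f x) (hg' : Measurable[Y.m] fun x => conj (e x) * g x) :
    Pm μ κ e Y (rc f g) := by
  have hm : @Measurable (X × X) ℂ (Y.m.prod Y.m) _ fun z : X × X =>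
      (fun x => conj (e x) * f x) z.1 * conj ((fun x => conj (e x) * g x) z.2) :=
    (hf'.comp (@measurable_fst X X Y.m Y.m)).mul
      (Complex.continuous_conj.measurable.comp (hg'.comp (@measurable_snd X X Y.m Y.m)))
  have e1 : (fun z : X × X => conj (e z.1) * rc f g z * e z.2) = fun z : X × X =>
      (fun x => conj (e x) * f x) z.1 * conj ((fun x => conj (e x) * g x) z.2) := by
    funext z
    simp only [rc, map_mul, Complex.conj_conj]
    ring
  unfold Pm
  rw [e1]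
  exact hm.stronglyMeasurable.aestronglyMeasurable

theorem Pm_st (c : Ctx μ S D κ) {Y : SA X} {e : X → ℂ} (hY : Em μ S D Y e) {P : X × X → ℂ} (hP : Pm μ κ e Y P) :
    Pm μ κ e Y (st P) := by
  obtain ⟨G, hG, hPG⟩ := hP
  have hm : @Measurable (X × X) ℂ (Y.m.prod Y.m) _ fun z : X × X => conj (G (Prod.swap z)) :=
    Complex.continuous_conj.measurable.comp (hG.measurable.comp (@measurable_swap X X Y.m Y.m))
  refine ⟨_, hm.stronglyMeasurable, ?_⟩
  filter_upwards [c.fib.swap.quasiMeasurePreserving.ae hPG] with z hz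
  rw [← hz]
  simp only [st, map_mul, Complex.conj_conj, Prod.fst_swap, Prod.snd_swap, Prod.swap]
  ring

/-- the closed `*`-subalgebra -/
noncomputable def Ak (c : Ctx μ S D κ) (e : X → ℂ) (Y : SA X) : Submodule ℂ (Bv c) where
  carrier := {P | Pm μ κ e Y (fn P)}
  add_mem' := by
    intro P Q hP hQ
    exact (hP.add hQ).congr (by
      filter_upwards [fn_add P Q] with z hz
      simp only [Pi.add_apply, hz]
      ring)
  zero_mem' := by
    show Pm μ κ e Y (fn (0 : Bv c))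
    have h : fn (0 : Bv c) =ᵐ[μ ⊗ₘ κ] 0 := by
      have := fn_smul (0 : ℂ) (0 : Bv c)
      filter_upwards [this] with z hz
      simpa using hz
    refine (aestronglyMeasurable_const (b := (0 : ℂ))).congr ?_
    filter_upwards [h] with z hz
    rw [hz]
    simp
  smul_mem' := by
    intro t P hP
    exact (hP.const_smul t).congr (by
      filter_upwards [fn_smul t P] with z hz
      simp only [Pi.smul_apply, smul_eq_mul, hz]
      ring)

theorem mem_Ak {c : Ctx μ S D κ} {e : X → ℂ} {Y : SA X} {P : Bv c} : P ∈ Ak c e Y ↔ Pm μ κ e Y (fn P) := Iff.rfl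

end Pool.Agent.Lib.MP_9fe581_an.AP
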