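import Pool.Agent.Lib.MP_9fe581_an.AP.K6

/-! # AP, K6b: products of kernels of the form `e ⊗ conj e · G` -/

set_option autoImplicit false
set_option linter.unusedSectionVars false

open Finset MeasureTheory Filter Topology ProbabilityTheory
open scoped ComplexConjugate ENNReal InnerProductSpace

namespace Pool.Agent.Lib.MP_9fe581_an.AP

section General

/-- the integral over the fibres of a kernel -/
theorem k6b_int {Z A B : Type} [MeasurableSpace Z] [MeasurableSpace A] [MeasurableSpace B] {k : A → Measure B}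
    (hk : Measurable k) (h1 : ∀ a, IsProbabilityMeasure (k a)) {p : Z → A} (hp : Measurable p) {F : Z × B → ℂ}
    (hF : StronglyMeasurable F) : StronglyMeasurable fun z => ∫ y, F (z, y) ∂k (p z) := by
  let η : Kernel A B := ⟨k, hk⟩
  have h2 : IsMarkovKernel η := ⟨h1⟩
  exact hF.integral_kernel_prod_right' (κ := η.comap p hp)

theorem k6b_comp {A B C : Type} [MeasurableSpace A] [MeasurableSpace B] [MeasurableSpace C] {k : A → Measure B}
    (hk : Measurable k) (h1 : ∀ a, IsProbabilityMeasure (k a)) {P : A × B → ℂ} {Q : B × C → ℂ}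
    (hP : StronglyMeasurable P) (hQ : StronglyMeasurable Q) :
    StronglyMeasurable fun z : A × C => ∫ y, P (z.1, y) * Q (y, z.2) ∂k z.1 := by
  refine k6b_int (p := Prod.fst) (F := fun w : (A × C) × B => P (w.1.1, w.2) * Q (w.2, w.1.2)) hk h1 measurable_fst ?_
  exact (hP.comp_measurable ((measurable_fst.comp measurable_fst).prodMk measurable_snd)).mul
    (hQ.comp_measurable (measurable_snd.prodMk (measurable_snd.comp measurable_fst)))

theorem k6b_act {A B : Type} [MeasurableSpace A] [MeasurableSpace B] {k : A → Measure B}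
    (hk : Measurable k) (h1 : ∀ a, IsProbabilityMeasure (k a)) {P : A × B → ℂ} {f : B → ℂ}
    (hP : StronglyMeasurable P) (hf : StronglyMeasurable f) : StronglyMeasurable fun x => ∫ y, P (x, y) * f y ∂k x :=
  k6b_int (p := id) (F := fun w : A × B => P w * f w.2) hk h1 measurable_id
    (hP.mul (hf.comp_measurable measurable_snd))

theorem k6b_prod {X : Type} {m1 m2 m1' m2' : MeasurableSpace X} (h1 : m1 ≤ m1') (h2 : m2 ≤ m2') :
    m1.prod m2 ≤ m1'.prod m2' :=
  sup_le_sup (MeasurableSpace.comap_mono h1) (MeasurableSpace.comap_mono h2)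

end General

variable {X : Type} [MeasurableSpace X] {μ : Measure X} [IsProbabilityMeasure μ] {S : X → X} {D : SA X}
  {κ : Kernel X X} [IsMarkovKernel κ]

/-- the fibre measures are measurable for `Y` -/
theorem k6b_meas (c : Ctx μ S D κ) {Y : SA X} {e : X → ℂ} (hY : Em μ S D Y e) : Measurable[Y.m] κ := by
  refine Measure.measurable_of_measurable_coe _ fun s hs => ?_
  have hm : Measurable fun x => κ x s := κ.measurable_coe hs
  have hc : Measurable fun x => (((κ x s).toReal : ℝ) : ℂ) :=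
    Complex.measurable_ofReal.comp hm.ennreal_toReal
  have h1 : Measurable[D.m] fun x => (((κ x s).toReal : ℝ) : ℂ) := by
    refine (c.fib.meas _ hc).2 ?_
    filter_upwards [c.fib.fib] with x hx
    filter_upwards [hx] with y hy
    rw [hy]
  have h2 : Measurable[Y.m] fun x => (((κ x s).toReal : ℝ) : ℂ) := h1.mono hY.sub le_rfl
  have h3 : Measurable[Y.m] fun x => ENNReal.ofReal (Complex.re (((κ x s).toReal : ℝ) : ℂ)) :=
    ENNReal.measurable_ofReal.comp (Complex.measurable_re.comp h2)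
  have h4 : (fun x => κ x s) = fun x => ENNReal.ofReal (Complex.re (((κ x s).toReal : ℝ) : ℂ)) := by
    funext x
    rw [Complex.ofReal_re, ENNReal.ofReal_toReal (measure_ne_top _ _)]
  rw [h4]
  exact h3

theorem k6b_conj {e : X → ℂ} (h : ∀ x, ‖e x‖ = 1) (x : X) : e x * conj (e x) = 1 := by
  rw [Complex.mul_conj, Complex.normSq_eq_norm_sq, h x]; norm_num

/-- a version of `P` : `P = e ⊗ conj e · G` -/
theorem k6b_ver {Y : SA X} {e : X → ℂ} (hY : Em μ S D Y e) {P : X × X → ℂ} (mP : Pm μ κ e Y P) :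
    ∃ G : X × X → ℂ, StronglyMeasurable[Y.m.prod Y.m] G ∧
      P =ᵐ[μ ⊗ₘ κ] fun z => e z.1 * G z * conj (e z.2) := by
  obtain ⟨G, hG, h1⟩ := mP
  refine ⟨G, hG, ?_⟩
  filter_upwards [h1] with z hz
  rw [← hz]
  have e1 := k6b_conj hY.norm z.1
  have e2 := k6b_conj hY.norm z.2
  calc P z = 1 * P z * 1 := by ring
    _ = (e z.1 * conj (e z.1)) * P z * (e z.2 * conj (e z.2)) := by rw [e1, e2]
    _ = _ := by ring

theorem k6b_le {Y : SA X} {e : X → ℂ} (hY : Em μ S D Y e) : Y.m ≤ (inferInstance : MeasurableSpace X) := hY.fac.le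

/-- conversely -/
theorem k6b_mk {Y : SA X} {e : X → ℂ} (hY : Em μ S D Y e) {P G : X × X → ℂ}
    (hG : StronglyMeasurable[Y.m.prod Y.m] G) (h : P =ᵐ[μ ⊗ₘ κ] fun z => e z.1 * G z * conj (e z.2)) :
    Pm μ κ e Y P := by
  refine ⟨G, hG, ?_⟩
  filter_upwards [h] with z hz
  rw [hz]
  have e1 := k6b_conj hY.norm z.1
  have e2 := k6b_conj hY.norm z.2
  calc conj (e z.1) * (e z.1 * G z * conj (e z.2)) * e z.2 = (e z.1 * conj (e z.1)) * G z * (e z.2 * conj (e z.2)) := by
        ring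
    _ = G z := by rw [e1, e2]; ring

theorem k6b_mul {Y : SA X} {e : X → ℂ} (hY : Em μ S D Y e) (G G' : X × X → ℂ) (z : X × X) :
    comp κ (fun z => e z.1 * G z * conj (e z.2)) (fun z => e z.1 * G' z * conj (e z.2)) z =
      e z.1 * comp κ G G' z * conj (e z.2) := by
  unfold comp
  rw [mul_assoc, mul_comm (∫ y, G (z.1, y) * G' (y, z.2) ∂κ z.1), ← mul_assoc, ← integral_const_mul]
  refine integral_congr_ae (Eventually.of_forall fun y => ?_)
  have e1 := k6b_conj hY.norm y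
  show e z.1 * G (z.1, y) * conj (e y) * (e y * G' (y, z.2) * conj (e z.2)) =
    e z.1 * conj (e z.2) * (G (z.1, y) * G' (y, z.2))
  calc _ = e z.1 * conj (e z.2) * (G (z.1, y) * G' (y, z.2)) * (e y * conj (e y)) := by ring
    _ = _ := by rw [e1, mul_one]

theorem k6b_mver {Y : SA X} {e : X → ℂ} (hY : Em μ S D Y e) {G : X × X → ℂ} (hG : Measurable G) :
    Measurable fun z : X × X => e z.1 * G z * conj (e z.2) :=
  ((hY.meas.comp measurable_fst).mul hG).mul (Complex.continuous_conj.measurable.comp (hY.meas.comp measurable_snd))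

theorem k6b_sm {Y : SA X} {e : X → ℂ} (hY : Em μ S D Y e) {G : X × X → ℂ}
    (hG : StronglyMeasurable[Y.m.prod Y.m] G) : Measurable G :=
  (hG.mono (k6b_prod (k6b_le hY) (k6b_le hY))).measurable

/-- the product, also with an arbitrary kernel in the middle -/
theorem Pm_comp (c : Ctx μ S D κ) {Y : SA X} {e : X → ℂ} (hY : Em μ S D Y e) {a b : X → ℂ} (ha : Uni D a)
    (hb : Uni D b) {P Q : X × X → ℂ} (hP : Ker μ S κ a P) (hQ : Ker μ S κ b Q) (mP : Pm μ κ e Y P)
    (mQ : Pm μ κ e Y Q) : Pm μ κ e Y (comp κ P Q) := by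
  have := ha; have := hb
  obtain ⟨G, hG, h1⟩ := k6b_ver hY mP
  obtain ⟨G', hG', h2⟩ := k6b_ver hY mQ
  refine k6b_mk hY (G := comp κ G G') ?_ ?_
  · exact @k6b_comp X X X Y.m _ Y.m κ (k6b_meas c hY) (fun _ => inferInstance) G G'
      (hG.mono (k6b_prod le_rfl (k6b_le hY))) (hG'.mono (k6b_prod (k6b_le hY) le_rfl))
  · refine (comp_congr c hP.meas (k6b_mver hY (k6b_sm hY hG)) hQ.meas (k6b_mver hY (k6b_sm hY hG')) h1 h2).trans ?_
    exact Eventually.of_forall fun z => k6b_mul hY G G' z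

theorem Pm_comp3 (c : Ctx μ S D κ) {Y : SA X} {e : X → ℂ} (hY : Em μ S D Y e) {a b d : X → ℂ} (ha : Uni D a)
    (hb : Uni D b) (hd : Uni D d) {P Q R : X × X → ℂ} (hP : Ker μ S κ a P) (hQ : Ker μ S κ b Q) (hR : Ker μ S κ d R)
    (mP : Pm μ κ e Y P) (mR : Pm μ κ e Y R) : Pm μ κ e Y (comp κ (comp κ P Q) R) := by
  have := ha; have := hb; have := hd
  obtain ⟨G, hG, h1⟩ := k6b_ver hY mP
  obtain ⟨G', hG', h2⟩ := k6b_ver hY mR
  let Q' : X × X → ℂ := fun z => conj (e z.1) * Q z * e z.2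
  have mQ' : Measurable Q' := ((Complex.continuous_conj.measurable.comp (hY.meas.comp measurable_fst)).mul
    hQ.meas).mul (hY.meas.comp measurable_snd)
  have hQ' : Q = fun z => e z.1 * Q' z * conj (e z.2) := by
    funext z
    have e1 := k6b_conj hY.norm z.1
    have e2 := k6b_conj hY.norm z.2
    calc Q z = 1 * Q z * 1 := by ring
      _ = (e z.1 * conj (e z.1)) * Q z * (e z.2 * conj (e z.2)) := by rw [e1, e2]
      _ = e z.1 * (conj (e z.1) * Q z * e z.2) * conj (e z.2) := by ring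
  have hGQ : @StronglyMeasurable (X × X) ℂ _ (Y.m.prod inferInstance) (comp κ G Q') :=
    @k6b_comp X X X Y.m _ _ κ (k6b_meas c hY) (fun _ => inferInstance) G Q'
      (hG.mono (k6b_prod le_rfl (k6b_le hY))) mQ'.stronglyMeasurable
  have mGQ : Measurable (comp κ G Q') := measurable_comp (k6b_sm hY hG) mQ'
  refine k6b_mk hY (G := comp κ (comp κ G Q') G') ?_ ?_
  · exact @k6b_comp X X X Y.m _ Y.m κ (k6b_meas c hY) (fun _ => inferInstance) _ G' hGQ
      (hG'.mono (k6b_prod (k6b_le hY) le_rfl))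
  · have e1 : comp κ P Q =ᵐ[μ ⊗ₘ κ] fun z => e z.1 * comp κ G Q' z * conj (e z.2) := by
      refine (comp_congr c hP.meas (k6b_mver hY (k6b_sm hY hG)) hQ.meas hQ.meas h1 (ae_eq_refl _)).trans ?_
      conv_lhs => rw [hQ']
      exact Eventually.of_forall fun z => k6b_mul hY G Q' z
    refine (comp_congr c (measurable_comp hP.meas hQ.meas) (k6b_mver hY mGQ) hR.meas
      (k6b_mver hY (k6b_sm hY hG')) e1 h2).trans ?_
    exact Eventually.of_forall fun z => k6b_mul hY (comp κ G Q') G' z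

/-- `Y` contains the null sets -/
theorem k6b_null {Y : SA X} {e : X → ℂ} (hY : Em μ S D Y e) {h h' : X → ℂ} (mh : Measurable h)
    (mh' : Measurable[Y.m] h') (hh : h =ᵐ[μ] h') : Measurable[Y.m] h := by
  intro t ht
  have m1 : MeasurableSet (h ⁻¹' t) := mh ht
  have m2 : MeasurableSet[Y.m] (h' ⁻¹' t) := mh' ht
  have m2' : MeasurableSet (h' ⁻¹' t) := k6b_le hY _ m2
  have n0 : μ {x | ¬ h x = h' x} = 0 := hh
  have n1 : MeasurableSet[Y.m] (h ⁻¹' t \ h' ⁻¹' t) := by
    refine hY.fac.null _ (m1.diff m2') (measure_mono_null (fun x hx => ?_) n0)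
    intro h3
    exact hx.2 (show h' x ∈ t from h3 ▸ hx.1)
  have n2 : MeasurableSet[Y.m] (h' ⁻¹' t \ h ⁻¹' t) := by
    refine hY.fac.null _ (m2'.diff m1) (measure_mono_null (fun x hx => ?_) n0)
    intro h3
    exact hx.2 (show h x ∈ t from h3.symm ▸ hx.1)
  have e : h ⁻¹' t = (h' ⁻¹' t \ (h' ⁻¹' t \ h ⁻¹' t)) ∪ (h ⁻¹' t \ h' ⁻¹' t) := by
    ext x
    simp only [Set.mem_union, Set.mem_sdiff]
    tauto
  rw [e]
  exact MeasurableSet.union (MeasurableSet.diff m2 n2) n1

/-- the range of `P` -/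
theorem Pm_act (c : Ctx μ S D κ) {Y : SA X} {e : X → ℂ} (hY : Em μ S D Y e) {a : X → ℂ} (ha : Uni D a)
    {P : X × X → ℂ} (hP : Ker μ S κ a P) (mP : Pm μ κ e Y P) {f : X → ℂ} (hf : Bd f) :
    Measurable[Y.m] fun x => conj (e x) * act κ P f x := by
  have := ha
  obtain ⟨G, hG, h1⟩ := k6b_ver hY mP
  have mc : Measurable fun x => conj (e x) := Complex.continuous_conj.measurable.comp hY.meas
  have h2 : StronglyMeasurable[Y.m] fun x => ∫ y, G (x, y) * (conj (e y) * f y) ∂κ x :=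
    @k6b_act X X Y.m _ κ (k6b_meas c hY) (fun _ => inferInstance) G _ (hG.mono (k6b_prod le_rfl (k6b_le hY)))
      (mc.mul hf.meas).stronglyMeasurable
  refine k6b_null hY (mc.mul (measurable_act hP.meas hf.meas)) h2.measurable ?_
  filter_upwards [Measure.ae_ae_of_ae_compProd h1] with x hx
  have e1 := k6b_conj hY.norm x
  have h3 : act κ P f x = ∫ y, e x * (G (x, y) * (conj (e y) * f y)) ∂κ x := by
    unfold act
    refine integral_congr_ae ?_
    filter_upwards [hx] with y hy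
    rw [hy]
    ring
  rw [h3, integral_const_mul, ← mul_assoc, mul_comm (conj (e x)), e1, one_mul]

/-- multiplication by `conj e ⊗ e` -/
theorem k6b_lp {Y : SA X} {e : X → ℂ} (hY : Em μ S D Y e) (P : Lp ℂ 2 (μ ⊗ₘ κ)) :
    MemLp (fun z => conj (e z.1) * P z * e z.2) 2 (μ ⊗ₘ κ) := by
  refine (Lp.memLp P).congr_norm ?_ (Eventually.of_forall fun z => ?_)
  · exact ((Complex.continuous_conj.measurable.comp (hY.meas.comp measurable_fst)).aestronglyMeasurable.mul
      (Lp.aestronglyMeasurable P)).mul (hY.meas.comp measurable_snd).aestronglyMeasurable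
  · rw [norm_mul, norm_mul, RCLike.norm_conj, hY.norm, hY.norm, one_mul, mul_one]

theorem k6b_iso {Y : SA X} {e : X → ℂ} (hY : Em μ S D Y e) :
    Isometry fun P : Lp ℂ 2 (μ ⊗ₘ κ) => (k6b_lp (κ := κ) hY P).toLp _ := by
  intro P Q
  rw [Lp.edist_def, Lp.edist_def]
  refine eLpNorm_congr_norm_ae ?_
  filter_upwards [(k6b_lp (κ := κ) hY P).coeFn_toLp, (k6b_lp (κ := κ) hY Q).coeFn_toLp] with z h1 h2
  show ‖(k6b_lp (κ := κ) hY P).toLp _ z - (k6b_lp (κ := κ) hY Q).toLp _ z‖ = ‖P z - Q z‖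
  rw [h1, h2, ← sub_mul, ← mul_sub, norm_mul, norm_mul, RCLike.norm_conj, hY.norm, hY.norm, one_mul, mul_one]

theorem sub_Ak (c : Ctx μ S D κ) {e : X → ℂ} {Y : SA X} (hY : Em μ S D Y e) : (hst c).Sub (Ak c e Y) := by
  have h1 : Uni D fun _ : X => (1 : ℂ) := ⟨measurable_const, fun _ => by simp⟩
  refine ⟨?_, ?_, ?_⟩
  · have hcl := (isClosed_aestronglyMeasurable (F := ℂ) (p := 2) (μ := μ ⊗ₘ κ)
      (k6b_prod (k6b_le hY) (k6b_le hY))).preimage
      ((k6b_iso (κ := κ) hY).continuous.comp (continuous_subtype_val (p := fun P => P ∈ Bv c)))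
    have hset : (Ak c e Y : Set (Bv c)) = ((fun P : Lp ℂ 2 (μ ⊗ₘ κ) => (k6b_lp (κ := κ) hY P).toLp _) ∘
        (Subtype.val : {P // P ∈ Bv c} → Lp ℂ 2 (μ ⊗ₘ κ))) ⁻¹'
        {f : Lp ℂ 2 (μ ⊗ₘ κ) | AEStronglyMeasurable[Y.m.prod Y.m] f (μ ⊗ₘ κ)} := by
      ext P
      exact ⟨fun h => h.congr (k6b_lp (κ := κ) hY P.1).coeFn_toLp.symm,
        fun h => h.congr (k6b_lp (κ := κ) hY P.1).coeFn_toLp⟩
    rw [hset]
    exact hcl
  · intro P hP Q hQ
    rw [mem_Ak] at hP hQ ⊢
    refine (Pm_comp c hY h1 h1 (fn_ker P) (fn_ker Q) hP hQ).congr ?_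
    filter_upwards [fn_mul P Q] with z hz
    rw [hz]
  · intro P hP
    rw [mem_Ak] at hP ⊢
    refine (Pm_st c hY hP).congr ?_
    filter_upwards [fn_star P] with z hz
    rw [hz]

end Pool.Agent.Lib.MP_9fe581_an.AP
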