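import Pool.Agent.Lib.MP_9fe581_an.AP.K6b
import Pool.Agent.Lib.MP_9fe581_an.AP.G1
import Pool.Agent.Lib.MP_9fe581_an.AP.HSpec
import Pool.Agent.Lib.MP_9fe581_an.AH.ME

/-! # AP, K7: the invariant kernel of `f ⊗ conj f` and the energy over `D` -/

set_option autoImplicit false

open Finset MeasureTheory Filter Topology ProbabilityTheory
open scoped ComplexConjugate ENNReal InnerProductSpace

namespace Pool.Agent.Lib.MP_9fe581_an.AP

variable {X : Type} [MeasurableSpace X] {μ : Measure X} [IsProbabilityMeasure μ] {S : X → X} {D : SA X}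
  {κ : Kernel X X} [IsMarkovKernel κ]

theorem k7_rc_meas {f g : X → ℂ} (hf : Measurable f) (hg : Measurable g) : Measurable (rc f g) :=
  (hf.comp measurable_fst).mul (Complex.continuous_conj.measurable.comp (hg.comp measurable_snd))

theorem k7_rc_bm {ν : Measure (X × X)} {f g : X → ℂ} (hf : Bd f) (hg : Bd g) : AH.BM ν (rc f g) := by
  obtain ⟨C, hC⟩ := hf.bdd
  obtain ⟨C', hC'⟩ := hg.bdd
  refine AH.BM.of_bdd (k7_rc_meas hf.meas hg.meas) (C := C * C') fun z => ?_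
  unfold rc
  rw [norm_mul, RCLike.norm_conj]
  exact mul_le_mul (hC _) (hC' _) (norm_nonneg _) ((norm_nonneg _).trans (hC z.1))

omit [MeasurableSpace X] in
theorem k7_bd [MeasurableSpace X] {f : X → ℂ} (hf : Bd f) {T : X → X} (hT : Measurable T) : Bd fun x => f (T x) := by
  obtain ⟨C, hC⟩ := hf.bdd
  exact ⟨hf.meas.comp hT, C, fun x => hC _⟩

/-- the composition operator on kernels -/
noncomputable def k7_V (c : Ctx μ S D κ) : Lp ℂ 2 (μ ⊗ₘ κ) →L[ℂ] Lp ℂ 2 (μ ⊗ₘ κ) :=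
  AH.meV c.pres (c := fun _ => 1) measurable_const fun _ => norm_one

theorem k7_V_coe (c : Ctx μ S D κ) (P : Lp ℂ 2 (μ ⊗ₘ κ)) : k7_V c P =ᵐ[μ ⊗ₘ κ] fun z => P (Prod.map S S z) := by
  filter_upwards [AH.meV_coe c.pres (c := fun _ => 1) measurable_const (fun _ => norm_one) P] with z hz
  rw [one_mul] at hz
  exact hz

theorem k7_mem (c : Ctx μ S D κ) {P : Lp ℂ 2 (μ ⊗ₘ κ)} : P ∈ Bv c ↔ k7_V c P = P := by
  have h1 : Lp.compMeasurePreserving (Prod.map S S) c.pres P = k7_V c P := by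
    refine Lp.ext ?_
    filter_upwards [k7_V_coe c P, Lp.coeFn_compMeasurePreserving P c.pres] with z a b
    rw [a, b]; rfl
  have h2 : P ∈ Bv c ↔ Lp.compMeasurePreserving (Prod.map S S) c.pres P = P := Iff.rfl
  rw [h2, h1]

theorem k7_iter (c : Ctx μ S D κ) {f g : X → ℂ} {F : Lp ℂ 2 (μ ⊗ₘ κ)} (hF : F =ᵐ[μ ⊗ₘ κ] rc f g) (n : ℕ) :
    ((k7_V c)^[n] F : Lp ℂ 2 (μ ⊗ₘ κ)) =ᵐ[μ ⊗ₘ κ] rc (fun x => f (S^[n] x)) fun x => g (S^[n] x) := by
  filter_upwards [AH.meV_iter c.pres (c := fun _ => 1) measurable_const (fun _ => norm_one) F hF n] with z hz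
  rw [prod_const_one, one_mul, Prod.map_iterate] at hz
  exact hz

omit [IsProbabilityMeasure μ] in
/-- iterates of the ratio -/
theorem k7_ratio {Y : SA X} {e : X → ℂ} (hY : Em μ S D Y e) (n : ℕ) : Measurable[Y.m] fun x => e (S^[n] x) * conj (e x) := by
  induction n with
  | zero =>
    have e1 : (fun x => e (S^[0] x) * conj (e x)) = fun _ => (1 : ℂ) := funext fun x => AH.unim_mul _ (hY.norm x)
    rw [e1]
    exact @measurable_const _ _ _ Y.m _
  | succ n ih =>
    have hSm : @Measurable _ _ Y.m Y.m S^[n] := by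
      rw [measurable_iff_comap_le, (hY.fac.iter n).inv]
    have h1 : Measurable[Y.m] fun x => e (S (S^[n] x)) * conj (e (S^[n] x)) := hY.ratio.comp hSm
    have e1 : (fun x => e (S^[n + 1] x) * conj (e x)) =
        fun x => (e (S (S^[n] x)) * conj (e (S^[n] x))) * (e (S^[n] x) * conj (e x)) := by
      funext x
      rw [Function.iterate_succ_apply']
      calc e (S (S^[n] x)) * conj (e x) = e (S (S^[n] x)) * (e (S^[n] x) * conj (e (S^[n] x))) * conj (e x) := by
            rw [AH.unim_mul _ (hY.norm _), mul_one]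
        _ = _ := by ring
    rw [e1]
    exact h1.mul ih

omit [IsProbabilityMeasure μ] in
theorem k7_mode {Y : SA X} {e f : X → ℂ} (hY : Em μ S D Y e) (hf : Measurable[Y.m] fun x => conj (e x) * f x) (n : ℕ) :
    Measurable[Y.m] fun x => conj (e x) * f (S^[n] x) := by
  have hSm : @Measurable _ _ Y.m Y.m S^[n] := by
    rw [measurable_iff_comap_le, (hY.fac.iter n).inv]
  have h1 : Measurable[Y.m] fun x => conj (e (S^[n] x)) * f (S^[n] x) := hf.comp hSm
  have e1 : (fun x => conj (e x) * f (S^[n] x)) =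
      fun x => (e (S^[n] x) * conj (e x)) * (conj (e (S^[n] x)) * f (S^[n] x)) := by
    funext x
    calc conj (e x) * f (S^[n] x) = conj (e x) * f (S^[n] x) * (e (S^[n] x) * conj (e (S^[n] x))) := by
          rw [AH.unim_mul _ (hY.norm _), mul_one]
      _ = _ := by ring
  rw [e1]
  exact (k7_ratio hY n).mul h1

/-- the kernels of the form `e ⊗ conj e · G` -/
noncomputable def k7_C (μ : Measure X) [IsProbabilityMeasure μ] (κ : Kernel X X) [IsMarkovKernel κ] {e : X → ℂ} (he : Measurable e)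
    (he1 : ∀ x, ‖e x‖ = 1) (Y : SA X) : Submodule ℂ (Lp ℂ 2 (μ ⊗ₘ κ)) :=
  (lpMeas ℂ ℂ (Y.m.prod Y.m) 2 (μ ⊗ₘ κ)).comap
    (AH.meV (MeasurePreserving.id (μ ⊗ₘ κ)) (c := fun z => conj (e z.1) * e z.2)
      ((Complex.continuous_conj.measurable.comp (he.comp measurable_fst)).mul (he.comp measurable_snd))
      (fun z => by rw [norm_mul, RCLike.norm_conj, he1, he1, one_mul]) : Lp ℂ 2 (μ ⊗ₘ κ) →ₗ[ℂ] Lp ℂ 2 (μ ⊗ₘ κ))

theorem k7_C_mem {e : X → ℂ} (he : Measurable e) (he1 : ∀ x, ‖e x‖ = 1) (Y : SA X) (P : Lp ℂ 2 (μ ⊗ₘ κ)) :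
    P ∈ k7_C μ κ he he1 Y ↔ Pm μ κ e Y P := by
  unfold k7_C
  rw [Submodule.mem_comap, mem_lpMeas_iff_aestronglyMeasurable]
  unfold Pm
  refine aestronglyMeasurable_congr ?_
  filter_upwards [AH.meV_coe (MeasurePreserving.id (μ ⊗ₘ κ)) (c := fun z => conj (e z.1) * e z.2)
    ((Complex.continuous_conj.measurable.comp (he.comp measurable_fst)).mul (he.comp measurable_snd))
    (fun z => by rw [norm_mul, RCLike.norm_conj, he1, he1, one_mul]) P] with z hz
  refine Eq.trans hz ?_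
  show conj (e z.1) * e z.2 * P (id z) = _
  rw [id]; ring

theorem k7_C_closed {e : X → ℂ} (he : Measurable e) (he1 : ∀ x, ‖e x‖ = 1) {Y : SA X} (hY : ∀ s, MeasurableSet[Y.m] s → MeasurableSet s) :
    IsClosed (k7_C μ κ he he1 Y : Set (Lp ℂ 2 (μ ⊗ₘ κ))) := by
  have hm : Y.m.prod Y.m ≤ (inferInstance : MeasurableSpace (X × X)) :=
    sup_le_sup (MeasurableSpace.comap_mono hY) (MeasurableSpace.comap_mono hY)
  exact (isClosed_aestronglyMeasurable (F := ℂ) (p := 2) (μ := μ ⊗ₘ κ) hm).preimage (ContinuousLinearMap.continuous _)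

/-- **K7.** `K` = orthogonal projection of `f ⊗ conj g` on the invariant kernels = limit of the averages of
`(f ∘ S^r) ⊗ conj (g ∘ S^r)` (mean ergodic theorem), in `Ak c e Y` if `f`, `g ∈ e L^∞(Y)` -/
theorem k7_main (c : Ctx μ S D κ) {f g : X → ℂ} (hf : Bd f) (hg : Bd g) :
    ∃ K : Bv c, (∀ P : Bv c, ⟪P, K⟫_ℂ = ∫ z, rc f g z * conj (fn P z) ∂(μ ⊗ₘ κ)) ∧
      (∀ (e : X → ℂ) (Y : SA X), Em μ S D Y e → (Measurable[Y.m] fun x => conj (e x) * f x) →
        (Measurable[Y.m] fun x => conj (e x) * g x) → K ∈ Ak c e Y) ∧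
      Tendsto (fun R : ℕ => (1 / (R : ℂ)) * ∑ r ∈ range R, ∫ z, rc (fun x => f (S^[r] x)) (fun x => g (S^[r] x)) z *
        conj (rc f g z) ∂(μ ⊗ₘ κ)) atTop (𝓝 ((‖K‖ ^ 2 : ℝ) : ℂ)) := by
  set V := k7_V c with hV
  set K' := V.eqLocus (1 : Lp ℂ 2 (μ ⊗ₘ κ) →L[ℂ] Lp ℂ 2 (μ ⊗ₘ κ)) with hK'
  have hB := k7_rc_bm (ν := μ ⊗ₘ κ) hf hg
  set F : Lp ℂ 2 (μ ⊗ₘ κ) := (hB.memLp 2).toLp _ with hF
  have hFF : F =ᵐ[μ ⊗ₘ κ] rc f g := MemLp.coeFn_toLp _
  set G : Lp ℂ 2 (μ ⊗ₘ κ) := ((K'.orthogonalProjectionOnto F : K') : Lp ℂ 2 (μ ⊗ₘ κ)) with hG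
  have hfix : V G = G := (K'.orthogonalProjectionOnto F).2
  have hVn : ‖V‖ ≤ 1 := AH.meV_norm c.pres (c := fun _ => 1) measurable_const fun _ => norm_one
  have hlim : Tendsto (birkhoffAverage ℂ V _root_.id · F) atTop (𝓝 G) := V.tendsto_birkhoffAverage_orthogonalProjection hVn F
  have hpair : ∀ P : Lp ℂ 2 (μ ⊗ₘ κ), V P = P → ⟪P, G⟫_ℂ = ⟪P, F⟫_ℂ := by
    intro P hP
    exact Submodule.inner_orthogonalProjectionOnto_eq_of_mem_left (K := K') ⟨P, hP⟩ F
  refine ⟨⟨G, (k7_mem c).2 hfix⟩, fun P => ?_, fun e Y hY hfe hge => ?_, ?_⟩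
  · show ⟪(P : Lp ℂ 2 (μ ⊗ₘ κ)), G⟫_ℂ = _
    rw [hpair _ ((k7_mem c).1 P.2), L2.inner_def]
    refine integral_congr_ae ?_
    filter_upwards [hFF] with z hz
    rw [hz, RCLike.inner_apply]
    rfl
  · rw [mem_Ak]
    have hCm := k7_C_mem (μ := μ) (κ := κ) hY.meas hY.norm Y
    have hcl := k7_C_closed (μ := μ) (κ := κ) hY.meas hY.norm (Y := Y) hY.fac.le
    rw [show fn (⟨G, (k7_mem c).2 hfix⟩ : Bv c) = (G : X × X → ℂ) from rfl, ← hCm G]
    refine hcl.mem_of_tendsto hlim (Eventually.of_forall fun N => ?_)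
    unfold birkhoffAverage birkhoffSum
    refine Submodule.smul_mem _ _ (Submodule.sum_mem _ fun k _ => ?_)
    rw [id, hCm]
    have h1 := Pm_rc c hY (k7_bd hf (c.sys.erg.toMeasurePreserving.iterate k).measurable)
      (k7_bd hg (c.sys.erg.toMeasurePreserving.iterate k).measurable) (k7_mode hY hfe k) (k7_mode hY hge k)
    unfold Pm at h1 ⊢
    refine h1.congr ?_
    filter_upwards [k7_iter c hFF k] with z hz
    rw [hz]
  · have h2 : ((‖(⟨G, (k7_mem c).2 hfix⟩ : Bv c)‖ ^ 2 : ℝ) : ℂ) = ⟪F, G⟫_ℂ := by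
      have h3 : ⟪G, G⟫_ℂ = ⟪G, F⟫_ℂ := hpair G hfix
      have h4 : ⟪G, G⟫_ℂ = ((‖G‖ ^ 2 : ℝ) : ℂ) := by
        rw [inner_self_eq_norm_sq_to_K]; push_cast; rfl
      have h5 : ⟪F, G⟫_ℂ = conj ⟪G, F⟫_ℂ := (inner_conj_symm F G).symm
      rw [h5, ← h3, h4, Complex.conj_ofReal]
      rfl
    rw [h2]
    have h6 : Tendsto (fun N : ℕ => ⟪F, birkhoffAverage ℂ V _root_.id N F⟫_ℂ) atTop (𝓝 ⟪F, G⟫_ℂ) :=
      (continuous_const.inner continuous_id).continuousAt.tendsto.comp hlim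
    refine h6.congr fun N => ?_
    simp only [birkhoffAverage, birkhoffSum, id_eq]
    rw [inner_smul_right, inner_sum, one_div]
    congr 1
    refine Finset.sum_congr rfl fun n _ => ?_
    rw [L2.inner_def]
    refine integral_congr_ae ?_
    filter_upwards [k7_iter c hFF n, hFF] with z a b
    rw [a, b, RCLike.inner_apply]

/-- **K7.** `K` = orthogonal projection of `f ⊗ conj g` on the invariant kernels = limit of the averages of
`(f ∘ S^r) ⊗ conj (g ∘ S^r)` (mean ergodic theorem), in `Ak c e Y` if `f`, `g ∈ e L^∞(Y)` -/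
theorem exists_inv (c : Ctx μ S D κ) {f g : X → ℂ} (hf : Bd f) (hg : Bd g) :
    ∃ K : Bv c, (∀ P : Bv c, ⟪P, K⟫_ℂ = ∫ z, rc f g z * conj (fn P z) ∂(μ ⊗ₘ κ)) ∧
      ∀ (e : X → ℂ) (Y : SA X), Em μ S D Y e → (Measurable[Y.m] fun x => conj (e x) * f x) →
        (Measurable[Y.m] fun x => conj (e x) * g x) → K ∈ Ak c e Y := by
  obtain ⟨K, h1, h2, -⟩ := k7_main c hf hg
  exact ⟨K, h1, h2⟩

/-- the energy is the norm of the invariant kernel of `f ⊗ conj f` -/
theorem exists_energy (c : Ctx μ S D κ) {f : X → ℂ} (hf : Bd f) :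
    ∃ K : Bv c, (∀ P : Bv c, ⟪P, K⟫_ℂ = ∫ z, rc f f z * conj (fn P z) ∂(μ ⊗ₘ κ)) ∧
      (∀ (e : X → ℂ) (Y : SA X), Em μ S D Y e → (Measurable[Y.m] fun x => conj (e x) * f x) → K ∈ Ak c e Y) ∧
      (hst c).star K = K ∧ Tendsto (energy μ S D f) atTop (𝓝 (‖K‖ ^ 2)) := by
  obtain ⟨K, h1, h2, h3⟩ := k7_main c hf hf
  refine ⟨K, h1, fun e Y hY hfe => h2 e Y hY hfe hfe, ?_, ?_⟩
  · refine ext_inner_left ℂ fun P => ?_
    have e1 : ⟪P, (hst c).star K⟫_ℂ = ⟪K, (hst c).star P⟫_ℂ := by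
      conv_lhs => rw [← (hst c).star_star P]
      exact (hst c).inner_star _ _
    rw [e1, ← inner_conj_symm K ((hst c).star P), h1, h1 P, ← integral_conj]
    have hsw := c.fib.swap
    have e2 : ∫ z, rc f f z * conj (fn P z) ∂(μ ⊗ₘ κ) = ∫ z : X × X, rc f f z.swap * conj (fn P z.swap) ∂(μ ⊗ₘ κ) := by
      have h4 := integral_map (μ := μ ⊗ₘ κ) (φ := Prod.swap) (f := fun z => rc f f z * conj (fn P z)) hsw.measurable.aemeasurable
        (by rw [hsw.map_eq]
            exact (k7_rc_meas hf.meas hf.meas).aestronglyMeasurable.mul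
              (Complex.continuous_conj.comp_aestronglyMeasurable (fn_ker P).meas.aestronglyMeasurable))
      rw [hsw.map_eq] at h4
      exact h4
    rw [e2]
    refine integral_congr_ae ?_
    filter_upwards [fn_star P] with z hz
    rw [hz]
    unfold st rc
    simp only [map_mul, Complex.conj_conj, Prod.fst_swap, Prod.snd_swap]
    show conj (f z.1) * f z.2 * conj (fn P (z.2, z.1)) = f z.2 * conj (f z.1) * conj (fn P (z.2, z.1))
    ring
  · have h4 := (Complex.continuous_re.tendsto _).comp h3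
    rw [Complex.ofReal_re] at h4
    refine h4.congr fun R => ?_
    have hSp := c.sys.erg.toMeasurePreserving
    have hterm : ∀ r : ℕ, ∫ z, rc (fun x => f (S^[r] x)) (fun x => f (S^[r] x)) z * conj (rc f f z) ∂(μ ⊗ₘ κ) =
        ((nsq μ (ce μ D fun y => f y * conj (f (S^[r] y))) : ℝ) : ℂ) := by
      intro r
      have hfr : Bd fun x => f (S^[r] x) := k7_bd hf (hSp.iterate r).measurable
      have e1 : (fun z : X × X => rc (fun x => f (S^[r] x)) (fun x => f (S^[r] x)) z * conj (rc f f z)) =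
          fun z => conj (f z.1 * conj (f (S^[r] z.1))) * (f z.2 * conj (f (S^[r] z.2))) := by
        funext z
        unfold rc
        simp only [map_mul, Complex.conj_conj]
        ring
      rw [e1]
      have hb : Bd fun x => f x * conj (f (S^[r] x)) := by
        obtain ⟨C, hC⟩ := hf.bdd
        refine ⟨hf.meas.mul (Complex.continuous_conj.measurable.comp hfr.meas), C * C, fun x => ?_⟩
        rw [norm_mul, RCLike.norm_conj]
        exact mul_le_mul (hC _) (hC _) (norm_nonneg _) ((norm_nonneg _).trans (hC x))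
      have hb' : Bd fun x => conj (f x * conj (f (S^[r] x))) := by
        obtain ⟨C, hC⟩ := hb.bdd
        exact ⟨Complex.continuous_conj.measurable.comp hb.meas, C, fun x => by rw [RCLike.norm_conj]; exact hC x⟩
      rw [c.fib.rect c.fac.le hb' hb, nsq_ofReal]
      refine integral_congr_ae ?_
      filter_upwards [ce_conj c.fac.le' hb.bm.integrable] with x hx
      rw [hx, mul_comm]
    show ((1 / (R : ℂ)) * ∑ r ∈ range R, ∫ z, rc (fun x => f (S^[r] x)) (fun x => f (S^[r] x)) z * conj (rc f f z) ∂(μ ⊗ₘ κ)).re = _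
    simp only [hterm]
    rw [← Complex.ofReal_sum, ← Complex.ofReal_natCast, ← Complex.ofReal_one, ← Complex.ofReal_div, ← Complex.ofReal_mul,
      Complex.ofReal_re]
    rfl

omit [IsProbabilityMeasure μ] in
/-- Cauchy-Schwarz for square integrable functions -/
theorem k7_cs {f g : X → ℂ} (hf : MemLp f 2 μ) (hg : MemLp g 2 μ) :
    ‖∫ x, f x * conj (g x) ∂μ‖ ≤ Real.sqrt (nsq μ f) * Real.sqrt (nsq μ g) := by
  set F : Lp ℂ 2 μ := hf.toLp f with hF
  set G : Lp ℂ 2 μ := hg.toLp g with hG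
  have hFf : F =ᵐ[μ] f := MemLp.coeFn_toLp _
  have hGg : G =ᵐ[μ] g := MemLp.coeFn_toLp _
  have h1 : ⟪G, F⟫_ℂ = ∫ x, f x * conj (g x) ∂μ := by
    rw [L2.inner_def]
    refine integral_congr_ae ?_
    filter_upwards [hFf, hGg] with x a b
    rw [a, b, RCLike.inner_apply]
  have hn : ∀ {H : Lp ℂ 2 μ} {h : X → ℂ}, H =ᵐ[μ] h → ‖H‖ = Real.sqrt (nsq μ h) := by
    intro H h hh
    have h2 : nsq μ h = ‖H‖ ^ 2 := by
      have h3 : ((nsq μ h : ℝ) : ℂ) = ((‖H‖ ^ 2 : ℝ) : ℂ) := by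
        have h4 : ⟪H, H⟫_ℂ = ((‖H‖ ^ 2 : ℝ) : ℂ) := by
          rw [inner_self_eq_norm_sq_to_K]; push_cast; rfl
        rw [← h4, L2.inner_def]
        have h5 : ∫ x, ((‖h x‖ ^ 2 : ℝ) : ℂ) ∂μ = ((nsq μ h : ℝ) : ℂ) := integral_ofReal
        rw [← h5]
        refine integral_congr_ae ?_
        filter_upwards [hh] with x hx
        rw [hx, RCLike.inner_apply, Complex.mul_conj, Complex.normSq_eq_norm_sq]
      exact_mod_cast h3
    rw [h2, Real.sqrt_sq (norm_nonneg _)]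
  rw [← h1, mul_comm, ← hn hFf, ← hn hGg]
  exact norm_inner_le_norm G F

/-- for `P = P² = P*` : `⟨P, f ⊗ conj f⟩ = ‖P f‖²` -/
theorem proj_act (c : Ctx μ S D κ) {P : Bv c} (hP : (hst c).Proj P) {f : X → ℂ} (hf : Bd f) :
    ∫ z, rc f f z * conj (fn P z) ∂(μ ⊗ₘ κ) = ((nsq μ (act κ (fn P) f) : ℝ) : ℂ) ∧
      nsq μ (act κ (fn P) f) ≤ nsq μ f := by
  have hU : Uni D (fun _ : X => (1 : ℂ)) := ⟨@measurable_const _ _ _ D.m _, fun _ => norm_one⟩
  have hK := fn_ker P
  have h1 := act_sq c hU hK hf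
  have h2 : comp κ (st (fn P)) (fn P) =ᵐ[μ ⊗ₘ κ] fn P := by
    have a1 := fn_mul P P
    have a2 := fn_star P
    rw [hP.star] at a2
    rw [hP.idem] at a1
    have mst : Measurable (st (fn P)) := Complex.continuous_conj.measurable.comp (hK.meas.comp (measurable_snd.prodMk measurable_fst))
    have a3 := comp_congr c hK.meas mst hK.meas hK.meas a2 (EventuallyEq.refl _ (fn P))
    exact a3.symm.trans a1.symm
  have h3 : ((nsq μ (act κ (fn P) f) : ℝ) : ℂ) = ∫ z, fn P z * conj (rc f f z) ∂(μ ⊗ₘ κ) := by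
    rw [h1]
    refine integral_congr_ae ?_
    filter_upwards [h2] with z hz
    rw [hz]
  constructor
  · have h4 := congrArg (starRingEnd ℂ) h3
    rw [Complex.conj_ofReal, ← integral_conj] at h4
    rw [h4]
    refine integral_congr_ae (Eventually.of_forall fun z => ?_)
    dsimp only
    rw [map_mul, Complex.conj_conj, mul_comm]
  · rw [pair_act c hU hK hf hf] at h3
    have h5 := k7_cs (act_l2 c hU hK hf) (hf.bm.memLp 2)
    rw [← h3, Complex.norm_real, Real.norm_of_nonneg (nsq_nonneg _)] at h5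
    set a := nsq μ (act κ (fn P) f) with ha
    set b := nsq μ f with hb
    have a0 : 0 ≤ a := nsq_nonneg _
    have b0 : 0 ≤ b := nsq_nonneg _
    by_contra hlt
    push Not at hlt
    have ha' : 0 < a := b0.trans_lt hlt
    have h6 : Real.sqrt a * Real.sqrt b < Real.sqrt a * Real.sqrt a :=
      mul_lt_mul_of_pos_left (Real.sqrt_lt_sqrt b0 hlt) (Real.sqrt_pos.2 ha')
    rw [Real.mul_self_sqrt a0] at h6
    linarith

/-- if `fn P = v ⊗ conj v`, `v` unimodular: `‖P f‖² = ‖E(f conj v | D)‖²` -/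
theorem cls_act (c : Ctx μ S D κ) {P : Bv c} {v : X → ℂ} (mv : Measurable v) (hv : ∀ x, ‖v x‖ = 1)
    (hP : fn P =ᵐ[μ ⊗ₘ κ] rc v v) {f : X → ℂ} (hf : Bd f) :
    nsq μ (act κ (fn P) f) = nsq μ (ce μ D fun x => f x * conj (v x)) := by
  have hvB : Bd v := ⟨mv, 1, fun x => (hv x).le⟩
  have hb : Bd fun x => f x * conj (v x) := by
    obtain ⟨C, hC⟩ := hf.bdd
    refine ⟨hf.meas.mul (Complex.continuous_conj.measurable.comp mv), C, fun x => ?_⟩
    rw [norm_mul, RCLike.norm_conj, hv, mul_one]; exact hC x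
  have h1 : act κ (fn P) f =ᵐ[μ] fun x => v x * ce μ D (fun x => f x * conj (v x)) x := by
    have h2 := Measure.ae_ae_of_ae_compProd hP
    filter_upwards [h2, c.fib.cexp _ hb.bm.integrable] with x a b
    rw [b]
    unfold act
    rw [← integral_const_mul]
    refine integral_congr_ae ?_
    filter_upwards [a] with y hy
    rw [hy]
    unfold rc
    ring
  rw [nsq_congr h1]
  unfold nsq
  refine integral_congr_ae (Eventually.of_forall fun x => ?_)
  dsimp only
  rw [norm_mul, hv, one_mul]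

/-- `v ⊗ conj v` for a class `v` is a projection of norm `1` -/
theorem exists_cls (c : Ctx μ S D κ) {v : X → ℂ} (hv : Cls S D v) :
    ∃ P : Bv c, fn P =ᵐ[μ ⊗ₘ κ] rc v v ∧ (hst c).Proj P ∧ ‖P‖ = 1 := by
  have hvB : Bd v := ⟨hv.meas, 1, fun x => (hv.norm x).le⟩
  have hker : Ker μ S κ (fun _ => 1) (rc v v) := by
    refine ⟨k7_rc_meas hv.meas hv.meas, (k7_rc_bm hvB hvB).memLp 2, ?_⟩
    have hrm : Measurable fun x => v (S x) * conj (v x) :=
      (hv.meas.comp c.sys.erg.measurable).mul (Complex.continuous_conj.measurable.comp hv.meas)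
    filter_upwards [c.fib.const hrm hv.ratio] with z hz
    unfold rc
    rw [one_mul]
    show v (S z.1) * conj (v (S z.2)) = v z.1 * conj (v z.2)
    have e1 : v (S z.1) = (v (S z.1) * conj (v z.1)) * v z.1 := by
      rw [mul_assoc, mul_comm (conj (v z.1)), AH.unim_mul _ (hv.norm _), mul_one]
    have e2 : v (S z.2) = (v (S z.2) * conj (v z.2)) * v z.2 := by
      rw [mul_assoc, mul_comm (conj (v z.2)), AH.unim_mul _ (hv.norm _), mul_one]
    rw [e1, e2, hz]
    have e3 : ‖v (S z.2) * conj (v z.2)‖ = 1 := by rw [norm_mul, RCLike.norm_conj, hv.norm, hv.norm, one_mul]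
    have e4 := AH.unim_mul _ e3
    set r := v (S z.2) * conj (v z.2) with hr
    rw [map_mul]
    calc r * v z.1 * (conj r * conj (v z.2)) = (r * conj r) * (v z.1 * conj (v z.2)) := by ring
      _ = _ := by rw [e4, one_mul]
  obtain ⟨P, hP⟩ := exists_fn c hker
  have hn : ‖P‖ = 1 := by
    have h1 := norm_fn P
    have h2 : ksq μ κ (fn P) = 1 := by
      unfold ksq
      have h3 : ∀ᵐ z ∂(μ ⊗ₘ κ), ‖fn P z‖ ^ 2 = 1 := by
        filter_upwards [hP] with z hz
        rw [hz]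
        unfold rc
        rw [norm_mul, RCLike.norm_conj, hv.norm, hv.norm]; norm_num
      rw [integral_congr_ae h3]
      simp
    rw [h2] at h1
    nlinarith [norm_nonneg P]
  refine ⟨P, hP, ⟨fun h0 => ?_, ?_, ?_⟩, hn⟩
  · rw [h0, norm_zero] at hn
    exact zero_ne_one hn
  · refine fn_ext ((fn_mul P P).trans ?_)
    have mrc := k7_rc_meas hv.meas hv.meas
    refine (comp_congr c (fn_ker P).meas mrc (fn_ker P).meas mrc hP hP).trans (EventuallyEq.trans ?_ hP.symm)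
    refine Eventually.of_forall fun z => ?_
    unfold comp rc
    have e : (fun y => v z.1 * conj (v y) * (v y * conj (v z.2))) = fun _ => v z.1 * conj (v z.2) := by
      funext y
      calc v z.1 * conj (v y) * (v y * conj (v z.2)) = v z.1 * conj (v z.2) * (v y * conj (v y)) := by ring
        _ = _ := by rw [AH.unim_mul _ (hv.norm y), mul_one]
    show ∫ y, v z.1 * conj (v y) * (v y * conj (v z.2)) ∂κ z.1 = _
    rw [e]
    simp
  · refine fn_ext ((fn_star P).trans ?_)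
    have h1 : ∀ᵐ z ∂(μ ⊗ₘ κ), fn P z.swap = rc v v z.swap := c.fib.swap.quasiMeasurePreserving.ae hP
    filter_upwards [h1, hP] with z a b
    have a' : fn P (z.2, z.1) = rc v v (z.2, z.1) := a
    unfold st
    rw [a', b]
    unfold rc
    simp only [map_mul, Complex.conj_conj]
    ring

end Pool.Agent.Lib.MP_9fe581_an.AP
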