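import Pool.Agent.Lib.MP_9fe581_an.AP.Defs
import Pool.Agent.Lib.MP_9fe581_an.AP.HDefs

/-!
# AP, part K: kernels over a factor, definitions

`κ x` is the fibre measure of `x` over `D`; the measure `μ ⊗ₘ κ` on `X × X` is the relatively independent product over `D`.
A kernel is a function `P : X × X → ℂ`.
-/

set_option autoImplicit false

open Finset MeasureTheory Filter Topology ProbabilityTheory
open scoped ComplexConjugate

namespace Pool.Agent.Lib.MP_9fe581_an.AP

variable {X : Type} [MeasurableSpace X]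

/-- the fibre measures over `D` -/
structure Fib (μ : Measure X) (S : X → X) (D : SA X) (κ : Kernel X X) : Prop where
  fib : ∀ᵐ x ∂μ, ∀ᵐ y ∂κ x, κ y = κ x
  bind : μ.bind κ = μ
  shift : ∀ᵐ x ∂μ, (κ x).map S = κ (S x)
  cexp : ∀ f : X → ℂ, Integrable f μ → ce μ D f =ᵐ[μ] fun x => ∫ y, f y ∂κ x
  meas : ∀ g : X → ℂ, Measurable g → (Measurable[D.m] g ↔ ∀ᵐ x ∂μ, ∀ᵐ y ∂κ x, g y = g x)

/-- the product of kernels -/
noncomputable def comp (κ : Kernel X X) (P Q : X × X → ℂ) (z : X × X) : ℂ :=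
  ∫ y, P (z.1, y) * Q (y, z.2) ∂κ z.1

/-- the adjoint kernel -/
noncomputable def st (P : X × X → ℂ) (z : X × X) : ℂ := conj (P (z.2, z.1))

/-- the action of a kernel on functions -/
noncomputable def act (κ : Kernel X X) (P : X × X → ℂ) (f : X → ℂ) (x : X) : ℂ := ∫ y, P (x, y) * f y ∂κ x

/-- `f ⊗ conj g` -/
noncomputable def rc (f g : X → ℂ) (z : X × X) : ℂ := f z.1 * conj (g z.2)

/-- unimodular `D`-measurable functions -/
structure Uni (D : SA X) (a : X → ℂ) : Prop where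
  meas : Measurable[D.m] a
  norm : ∀ x, ‖a x‖ = 1

/-- all data together -/
structure Ctx (μ : Measure X) (S : X → X) (D : SA X) (κ : Kernel X X) : Prop where
  sys : Sys μ S
  fac : Fac μ S D
  fib : Fib μ S D κ

/-- a kernel twisted by `a` : `P ∘ (S × S) = a P` -/
structure Ker (μ : Measure X) (S : X → X) (κ : Kernel X X) (a : X → ℂ) (P : X × X → ℂ) : Prop where
  meas : Measurable P
  l2 : MemLp P 2 (μ ⊗ₘ κ)
  tw : ∀ᵐ z ∂(μ ⊗ₘ κ), P (S z.1, S z.2) = a z.1 * P z

/-- the norm squared of a kernel -/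
noncomputable def ksq (μ : Measure X) (κ : Kernel X X) (P : X × X → ℂ) : ℝ := ∫ z, ‖P z‖ ^ 2 ∂(μ ⊗ₘ κ)

end Pool.Agent.Lib.MP_9fe581_an.AP
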