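import Pool.Agent.Lib.MP_9fe581_an.AH.Joins

/-! # AP, M1: small joinings: factors, limits; unique ergodicity of the powers -/

set_option autoImplicit false

open Finset MeasureTheory Filter Topology
open scoped ComplexConjugate ENNReal

namespace Pool.Agent.Lib.MP_9fe581_an.AP

/-- all ergodic joinings of `T^p` and `T^q`, `p ≠ q` large primes, are small on `F ⊗ conj F` -/
def SJ {X : Type} [MeasurableSpace X] (μ : Measure X) (T : X → X) (F : X → ℂ) : Prop :=
  ∀ ε : ℝ, 0 < ε → ∃ q0 : ℕ, ∀ p q : ℕ, p.Prime → q.Prime → p ≠ q → q0 ≤ p → q0 ≤ q → ∀ lam : Measure (X × X),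
    IsProbabilityMeasure lam → Ergodic (Prod.map T^[p] T^[q]) lam → lam.map Prod.fst = μ → lam.map Prod.snd = μ →
      ‖∫ z, F z.1 * conj (F z.2) ∂lam‖ ≤ ε

section

variable {X Z : Type} [MeasurableSpace X] [MeasurableSpace Z]

theorem m1_iter {ν : Measure Z} {R : Z → Z} {T : X → X} {φ : Z → X} (hR : MeasurePreserving R ν ν)
    (h : ∀ᵐ z ∂ν, φ (R z) = T (φ z)) (n : ℕ) : ∀ᵐ z ∂ν, φ (R^[n] z) = T^[n] (φ z) := by
  induction n with
  | zero => exact Eventually.of_forall fun _ => rfl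
  | succ n ih =>
    filter_upwards [h, hR.quasiMeasurePreserving.ae ih] with z h1 h2
    rw [Function.iterate_succ_apply, Function.iterate_succ_apply, h2, h1]

/-- a factor of an ergodic system, the factor map being equivariant almost everywhere -/
theorem m1_erg {lam : Measure Z} {A : Z → Z} {B : X → X} {g : Z → X} (hg : Measurable g) (hB : Measurable B)
    (hA : Ergodic A lam) (h : ∀ᵐ z ∂lam, g (A z) = B (g z)) : Ergodic B (lam.map g) := by
  have hmp : MeasurePreserving B (lam.map g) (lam.map g) := by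
    refine ⟨hB, ?_⟩
    rw [Measure.map_map hB hg]
    have h1 : lam.map (B ∘ g) = lam.map (g ∘ A) := Measure.map_congr (h.mono fun z hz => hz.symm)
    rw [h1, ← Measure.map_map hg hA.measurable, hA.map_eq]
  refine ⟨hmp, ⟨fun s hs hsi => ?_⟩⟩
  have h1 : A ⁻¹' (g ⁻¹' s) =ᵐ[lam] g ⁻¹' s := by
    filter_upwards [h] with z hz
    refine propext ?_
    show g (A z) ∈ s ↔ g z ∈ s
    rw [hz]
    exact ⟨fun h2 => by rw [← hsi]; exact h2, fun h2 => by rw [← hsi] at h2; exact h2⟩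
  have h2 := hA.quasiErgodic.ae_empty_or_univ₀ (hg hs).nullMeasurableSet h1
  rw [Filter.eventuallyConst_set']
  rcases h2 with h3 | h3
  · refine Or.inl ?_
    rw [ae_eq_empty] at h3 ⊢
    rwa [Measure.map_apply hg hs]
  · refine Or.inr ?_
    rw [ae_eq_univ] at h3 ⊢
    rwa [Measure.map_apply hg hs.compl]

/-- **factors** -/
theorem SJ.factor {ν : Measure Z} {μ : Measure X} {R : Z → Z} {T : X → X} {φ : Z → X} (hR : MeasurePreserving R ν ν)
    (hT : Measurable T) (hφ : MeasurePreserving φ ν μ) (h : ∀ᵐ z ∂ν, φ (R z) = T (φ z)) {F : X → ℂ}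
    (hF : Measurable F) {f : Z → ℂ} (hf : f =ᵐ[ν] fun z => F (φ z)) (hs : SJ μ T F) : SJ ν R f := by
  intro ε hε
  obtain ⟨q0, hq0⟩ := hs ε hε
  refine ⟨q0, fun p q pp qp hne hp hq lam h1 h2 h3 h4 => ?_⟩
  have hm : Measurable (Prod.map φ φ) := hφ.measurable.prodMap hφ.measurable
  have q1 : MeasurePreserving Prod.fst lam ν := ⟨measurable_fst, h3⟩
  have q2 : MeasurePreserving Prod.snd lam ν := ⟨measurable_snd, h4⟩
  have e0 : ∀ᵐ z ∂lam, Prod.map φ φ (Prod.map R^[p] R^[q] z) = Prod.map T^[p] T^[q] (Prod.map φ φ z) := by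
    filter_upwards [q1.quasiMeasurePreserving.ae (m1_iter hR h p), q2.quasiMeasurePreserving.ae (m1_iter hR h q)]
      with z a1 a2
    exact Prod.ext a1 a2
  have e1 := m1_erg hm ((hT.iterate p).prodMap (hT.iterate q)) h2 e0
  have e2 : IsProbabilityMeasure (lam.map (Prod.map φ φ)) := Measure.isProbabilityMeasure_map hm.aemeasurable
  have e3 : (lam.map (Prod.map φ φ)).map Prod.fst = μ := by
    rw [Measure.map_map measurable_fst hm, ← hφ.map_eq, ← h3, Measure.map_map hφ.measurable measurable_fst]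
    rfl
  have e4 : (lam.map (Prod.map φ φ)).map Prod.snd = μ := by
    rw [Measure.map_map measurable_snd hm, ← hφ.map_eq, ← h4, Measure.map_map hφ.measurable measurable_snd]
    rfl
  have e5 := hq0 p q pp qp hne hp hq _ e2 e1 e3 e4
  have e6 := integral_map (μ := lam) (φ := Prod.map φ φ) (f := fun z : X × X => F z.1 * conj (F z.2)) hm.aemeasurable
    ((hF.comp measurable_fst).mul (Complex.continuous_conj.measurable.comp (hF.comp measurable_snd))).aestronglyMeasurable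
  rw [e6] at e5
  refine le_trans (le_of_eq ?_) e5
  congr 1
  refine integral_congr_ae ?_
  filter_upwards [q1.quasiMeasurePreserving.ae hf, q2.quasiMeasurePreserving.ae hf] with z a1 a2
  rw [a1, a2]
  rfl

end

section Lim

variable {X : Type} [MeasurableSpace X] {μ : Measure X} {T : X → X}

private theorem m1_cs {Y : Type} [MeasurableSpace Y] {ν : Measure Y} {a b : Y → ℂ} (ha : MemLp a 2 ν)
    (hb : MemLp b 2 ν) : ‖∫ y, a y * conj (b y) ∂ν‖ ≤ Real.sqrt (∫ y, ‖a y‖ ^ 2 ∂ν) * Real.sqrt (∫ y, ‖b y‖ ^ 2 ∂ν) := by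
  have h1 : ‖∫ y, a y * conj (b y) ∂ν‖ ≤ ∫ y, ‖a y‖ * ‖b y‖ ∂ν := by
    refine (norm_integral_le_integral_norm _).trans (le_of_eq ?_)
    exact integral_congr_ae (Eventually.of_forall fun y => by
      show ‖a y * conj (b y)‖ = _
      rw [norm_mul, RCLike.norm_conj])
  refine h1.trans ?_
  have h2 := integral_mul_le_Lp_mul_Lq_of_nonneg (μ := ν) (p := 2) (q := 2) Real.HolderConjugate.two_two
    (f := fun y => ‖a y‖) (g := fun y => ‖b y‖) (Eventually.of_forall fun y => norm_nonneg _)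
    (Eventually.of_forall fun y => norm_nonneg _) (by simpa using ha.norm) (by simpa using hb.norm)
  refine h2.trans (le_of_eq ?_)
  rw [Real.sqrt_eq_rpow, Real.sqrt_eq_rpow]
  simp only [Real.rpow_ofNat]

/-- **limits in `L²`** -/
theorem SJ.lim {F : X → ℂ} (hF : MemLp F 2 μ)
    (h : ∀ δ : ℝ, 0 < δ → ∃ G : X → ℂ, MemLp G 2 μ ∧ SJ μ T G ∧ ∫ x, ‖F x - G x‖ ^ 2 ∂μ ≤ δ ^ 2) : SJ μ T F := by
  intro ε hε
  set C := Real.sqrt (∫ x, ‖F x‖ ^ 2 ∂μ) with hC
  have hC0 : 0 ≤ C := Real.sqrt_nonneg _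
  set δ : ℝ := min 1 (ε / (2 * (2 * C + 2))) with hδ
  have hδ0 : 0 < δ := lt_min one_pos (by positivity)
  obtain ⟨G, hG, hs, hd⟩ := h δ hδ0
  obtain ⟨q0, hq0⟩ := hs (ε / 2) (half_pos hε)
  refine ⟨q0, fun p q pp qp hne hp hq lam h1 h2 h3 h4 => ?_⟩
  have q1 : MeasurePreserving Prod.fst lam μ := ⟨measurable_fst, h3⟩
  have q2 : MeasurePreserving Prod.snd lam μ := ⟨measurable_snd, h4⟩
  have n1 : ∀ {H : X → ℂ}, MemLp H 2 μ → ∫ z : X × X, ‖H z.1‖ ^ 2 ∂lam = ∫ x, ‖H x‖ ^ 2 ∂μ := fun {H} hH => by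
    rw [← h3, integral_map measurable_fst.aemeasurable (by rw [h3]; exact (hH.1.norm.pow 2))]
  have n2 : ∀ {H : X → ℂ}, MemLp H 2 μ → ∫ z : X × X, ‖H z.2‖ ^ 2 ∂lam = ∫ x, ‖H x‖ ^ 2 ∂μ := fun {H} hH => by
    rw [← h4, integral_map measurable_snd.aemeasurable (by rw [h4]; exact (hH.1.norm.pow 2))]
  have hFG : MemLp (fun x => F x - G x) 2 μ := hF.sub hG
  have F1 : MemLp (fun z : X × X => F z.1) 2 lam := hF.comp_measurePreserving q1
  have F2 : MemLp (fun z : X × X => F z.2) 2 lam := hF.comp_measurePreserving q2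
  have G1 : MemLp (fun z : X × X => G z.1) 2 lam := hG.comp_measurePreserving q1
  have G2 : MemLp (fun z : X × X => G z.2) 2 lam := hG.comp_measurePreserving q2
  have d1 : MemLp (fun z : X × X => F z.1 - G z.1) 2 lam := F1.sub G1
  have d2 : MemLp (fun z : X × X => F z.2 - G z.2) 2 lam := F2.sub G2
  have hdd : Real.sqrt (∫ x, ‖F x - G x‖ ^ 2 ∂μ) ≤ δ := Real.sqrt_le_iff.2 ⟨hδ0.le, hd⟩
  have hint : ∀ {a b : X × X → ℂ}, MemLp a 2 lam → MemLp b 2 lam → Integrable (fun z => a z * conj (b z)) lam :=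
    fun ha hb => ha.integrable_mul hb.star
  -- ‖G‖ ≤ ‖F‖ + δ
  have hGn : Real.sqrt (∫ x, ‖G x‖ ^ 2 ∂μ) ≤ C + δ := by
    have e1 : (eLpNorm G 2 μ) ≤ eLpNorm F 2 μ + eLpNorm (fun x => F x - G x) 2 μ := by
      have : G = fun x => F x - (F x - G x) := by funext x; ring
      calc eLpNorm G 2 μ = eLpNorm (fun x => F x - (F x - G x)) 2 μ := by rw [← this]
        _ ≤ _ := eLpNorm_sub_le hF.1 hFG.1 (by norm_num)
    have e2 : ∀ {H : X → ℂ}, MemLp H 2 μ → Real.sqrt (∫ x, ‖H x‖ ^ 2 ∂μ) = (eLpNorm H 2 μ).toReal := by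
      intro H hH
      rw [hH.eLpNorm_eq_integral_rpow_norm (by norm_num) (by norm_num)]
      rw [ENNReal.toReal_ofReal (by positivity), Real.sqrt_eq_rpow]
      norm_num
    rw [e2 hG]
    refine (ENNReal.toReal_mono (ENNReal.add_ne_top.2 ⟨hF.2.ne, hFG.2.ne⟩) e1).trans ?_
    rw [ENNReal.toReal_add hF.2.ne hFG.2.ne, ← e2 hF, ← e2 hFG]
    exact add_le_add le_rfl hdd
  have e0 : ∫ z : X × X, F z.1 * conj (F z.2) ∂lam = ∫ z : X × X, (F z.1 - G z.1) * conj (F z.2) ∂lam +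
      (∫ z : X × X, G z.1 * conj (F z.2 - G z.2) ∂lam + ∫ z : X × X, G z.1 * conj (G z.2) ∂lam) := by
    rw [← integral_add (hint G1 d2) (hint G1 G2)]
    have e01 : Integrable (fun z : X × X => G z.1 * conj (F z.2 - G z.2) + G z.1 * conj (G z.2)) lam :=
      (hint G1 d2).add (hint G1 G2)
    rw [← integral_add (hint d1 F2) e01]
    refine integral_congr_ae (Eventually.of_forall fun z => ?_)
    show F z.1 * conj (F z.2) = (F z.1 - G z.1) * conj (F z.2) + (G z.1 * conj (F z.2 - G z.2) + G z.1 * conj (G z.2))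
    rw [map_sub]
    ring
  have b1 : ‖∫ z : X × X, (F z.1 - G z.1) * conj (F z.2) ∂lam‖ ≤ δ * C := by
    refine (m1_cs d1 F2).trans ?_
    rw [n1 hFG, n2 hF]
    exact mul_le_mul_of_nonneg_right hdd hC0
  have b2 : ‖∫ z : X × X, G z.1 * conj (F z.2 - G z.2) ∂lam‖ ≤ (C + δ) * δ := by
    refine (m1_cs G1 d2).trans ?_
    rw [n1 hG, n2 hFG]
    exact mul_le_mul hGn hdd (Real.sqrt_nonneg _) (by positivity)
  have b3 := hq0 p q pp qp hne hp hq lam h1 h2 h3 h4
  rw [e0]
  have c1 : δ * (2 * C + 2) ≤ ε / 2 := by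
    have : δ ≤ ε / (2 * (2 * C + 2)) := min_le_right _ _
    calc δ * (2 * C + 2) ≤ ε / (2 * (2 * C + 2)) * (2 * C + 2) := mul_le_mul_of_nonneg_right this (by positivity)
      _ = ε / 2 := by field_simp
  have c2 : δ ≤ 1 := min_le_left _ _
  calc _ ≤ ‖∫ z : X × X, (F z.1 - G z.1) * conj (F z.2) ∂lam‖ + (‖∫ z : X × X, G z.1 * conj (F z.2 - G z.2) ∂lam‖ +
        ‖∫ z : X × X, G z.1 * conj (G z.2) ∂lam‖) := (norm_add_le _ _).trans (add_le_add le_rfl (norm_add_le _ _))
    _ ≤ δ * C + ((C + δ) * δ + ε / 2) := add_le_add b1 (add_le_add b2 b3)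
    _ ≤ ε := by nlinarith

theorem SJ.congr {F G : X → ℂ} (h : F =ᵐ[μ] G) (hs : SJ μ T F) : SJ μ T G := by
  intro ε hε
  obtain ⟨q0, hq0⟩ := hs ε hε
  refine ⟨q0, fun p q pp qp hne hp hq lam h1 h2 h3 h4 => ?_⟩
  have q1 : MeasurePreserving Prod.fst lam μ := ⟨measurable_fst, h3⟩
  have q2 : MeasurePreserving Prod.snd lam μ := ⟨measurable_snd, h4⟩
  refine le_trans (le_of_eq ?_) (hq0 p q pp qp hne hp hq lam h1 h2 h3 h4)
  congr 1
  refine integral_congr_ae ?_
  filter_upwards [q1.quasiMeasurePreserving.ae h, q2.quasiMeasurePreserving.ae h] with z a1 a2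
  rw [a1, a2]

theorem SJ.smul {F : X → ℂ} (c : ℂ) (hs : SJ μ T F) : SJ μ T fun x => c * F x := by
  intro ε hε
  obtain ⟨q0, hq0⟩ := hs (ε / (‖c‖ ^ 2 + 1)) (by positivity)
  refine ⟨q0, fun p q pp qp hne hp hq lam h1 h2 h3 h4 => ?_⟩
  have e1 : ∫ z : X × X, c * F z.1 * conj (c * F z.2) ∂lam = (c * conj c) * ∫ z : X × X, F z.1 * conj (F z.2) ∂lam := by
    rw [← integral_const_mul]
    refine integral_congr_ae (Eventually.of_forall fun z => ?_)
    show c * F z.1 * conj (c * F z.2) = c * conj c * (F z.1 * conj (F z.2))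
    rw [map_mul]
    ring
  rw [e1, norm_mul, norm_mul, RCLike.norm_conj]
  have e2 := hq0 p q pp qp hne hp hq lam h1 h2 h3 h4
  calc ‖c‖ * ‖c‖ * ‖∫ z : X × X, F z.1 * conj (F z.2) ∂lam‖ ≤ ‖c‖ * ‖c‖ * (ε / (‖c‖ ^ 2 + 1)) :=
        mul_le_mul_of_nonneg_left e2 (by positivity)
    _ ≤ ε := by
        rw [mul_div_assoc', div_le_iff₀ (by positivity)]
        nlinarith [norm_nonneg c]

end Lim

section UE

variable {Z : Type} [MeasurableSpace Z] {ν : Measure Z} [IsProbabilityMeasure ν] {R : Z → Z}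

/-- the powers of a uniquely ergodic map are uniquely ergodic if they are ergodic -/
theorem m1_ue (hR : MeasurePreserving R ν ν)
    (hu : ∀ ν' : Measure Z, IsProbabilityMeasure ν' → MeasurePreserving R ν' ν' → ν' = ν) {p : ℕ} (hp : 0 < p)
    (he : Ergodic R^[p] ν) {σ : Measure Z} (h1 : IsProbabilityMeasure σ) (h2 : MeasurePreserving R^[p] σ σ) :
    σ = ν := by
  set τ : Measure Z := (p : ℝ≥0∞)⁻¹ • ∑ i ∈ range p, σ.map R^[i] with hτ
  have hmi : ∀ i, Measurable R^[i] := fun i => hR.measurable.iterate i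
  have hp0 : (p : ℝ≥0∞) ≠ 0 := by exact_mod_cast hp.ne'
  have hpt : (p : ℝ≥0∞) ≠ ∞ := ENNReal.natCast_ne_top p
  have hτ1 : IsProbabilityMeasure τ := by
    refine ⟨?_⟩
    rw [hτ, Measure.smul_apply, Measure.finsetSum_apply, smul_eq_mul]
    have : ∀ i ∈ range p, (σ.map R^[i]) Set.univ = 1 := fun i _ => by
      rw [Measure.map_apply (hmi i) MeasurableSet.univ, Set.preimage_univ, measure_univ]
    rw [Finset.sum_congr rfl this, Finset.sum_const, card_range, nsmul_eq_mul, mul_one,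
      ENNReal.inv_mul_cancel hp0 hpt]
  have hτ2 : MeasurePreserving R τ τ := by
    refine ⟨hR.measurable, ?_⟩
    have e0 : (∑ i ∈ range p, σ.map R^[i]).map R = ∑ i ∈ range p, (σ.map R^[i]).map R := by
      ext s hs
      rw [Measure.map_apply hR.measurable hs, Measure.finsetSum_apply, Measure.finsetSum_apply]
      exact Finset.sum_congr rfl fun i _ => (Measure.map_apply hR.measurable hs).symm
    rw [hτ, Measure.map_smul, e0]
    congr 1
    have e1 : ∀ i, (σ.map R^[i]).map R = σ.map R^[i + 1] := fun i => by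
      rw [Measure.map_map hR.measurable (hmi i), ← Function.iterate_succ']
    simp only [e1]
    have e2 := Finset.sum_range_succ' (fun i => σ.map R^[i]) p
    have e3 := Finset.sum_range_succ (fun i => σ.map R^[i]) p
    have e4 : σ.map R^[p] = σ.map R^[0] := by
      rw [h2.map_eq, Function.iterate_zero, Measure.map_id]
    have e5 : ∑ i ∈ range p, σ.map R^[i + 1] + σ.map R^[0] = ∑ i ∈ range p, σ.map R^[i] + σ.map R^[0] := by
      rw [← e2, e3, e4]
    ext s hs
    have e6 := congrArg (fun m : Measure Z => m s) e5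
    simp only [Measure.add_apply] at e6
    have e7 : (σ.map R^[0]) s ≠ ∞ := by
      rw [Measure.map_apply (hmi 0) hs]
      exact measure_ne_top _ _
    exact (ENNReal.add_left_inj e7).1 e6
  have hτν := hu τ hτ1 hτ2
  have hac : σ ≪ ν := by
    rw [← hτν, hτ]
    refine Measure.AbsolutelyContinuous.mk fun s hs h0 => ?_
    rw [Measure.smul_apply, smul_eq_mul, mul_eq_zero] at h0
    rcases h0 with h0 | h0
    · exact absurd h0 (ENNReal.inv_ne_zero.2 hpt)
    · rw [Measure.finsetSum_apply, Finset.sum_eq_zero_iff] at h0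
      have := h0 0 (mem_range.2 hp)
      rwa [Function.iterate_zero, Measure.map_id] at this
  exact he.eq_of_absolutelyContinuous h2 hac

end UE

end Pool.Agent.Lib.MP_9fe581_an.AP
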