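import Pool.Agent.Lib.MP_9fe581_an.AP.M1
import Pool.Agent.Lib.MP_9fe581_an.AP.Inf

/-! # AP, M2: towers of infinite height as limits; models -/

set_option autoImplicit false

open Finset MeasureTheory Filter Topology
open scoped ComplexConjugate ENNReal

namespace Pool.Agent.Lib.MP_9fe581_an.AP

open HT (TX mX)

section Cyl

variable {κ : Type} {lev : κ → ℕ}

/-- a measure on the infinite torus is determined by its images on the finite levels -/
theorem cyl_ext [Countable κ] {α β : Measure (TX κ)} [IsFiniteMeasure α]
    (h : ∀ J, α.map (cutR lev J) = β.map (cutR lev J)) : α = β := by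
  classical
  have hr : ∀ J, Measurable (cutR lev J) := fun J => cutR_meas lev J
  refine MeasureTheory.ext_of_generate_finite _ (generateFrom_squareCylinders (α := fun _ : κ => UnitAddCircle)).symm
    (isPiSystem_squareCylinders (fun i => MeasurableSpace.isPiSystem_measurableSet)
      fun i => (MeasurableSet.univ : MeasurableSet (Set.univ : Set UnitAddCircle))) ?_ ?_
  · rintro s ⟨S, t, ht, rfl⟩
    have ht' : ∀ i, MeasurableSet (t i) := fun i => ht i (Set.mem_univ i)
    set J := S.sup lev with hJ
    have hle : ∀ i ∈ S, lev i ≤ J := fun i hi => Finset.le_sup (f := lev) hi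
    set B : Set (TX (cutI lev J)) := ⋂ i : cutI lev J, ⋂ _ : i.1 ∈ S, (fun x : TX (cutI lev J) => x i) ⁻¹' t i.1 with hB
    have hBm : MeasurableSet B := MeasurableSet.iInter fun i => MeasurableSet.iInter fun _ =>
      (measurable_pi_apply i) (ht' i.1)
    have e : (S : Set κ).pi t = cutR lev J ⁻¹' B := by
      ext x
      simp only [Set.mem_pi, hB, Set.mem_preimage, Set.mem_iInter]
      constructor
      · intro h1 i hi
        exact h1 i.1 hi
      · intro h1 i hi
        exact h1 ⟨i, hle i hi⟩ hi
    rw [e, ← Measure.map_apply (hr J) hBm, h J, Measure.map_apply (hr J) hBm]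
  · have h1 := congrArg (fun m : Measure (TX (cutI lev 0)) => m Set.univ) (h 0)
    simpa [Measure.map_apply (hr 0) MeasurableSet.univ] using h1

variable [Countable κ] {ν : Measure (TX κ)} [IsProbabilityMeasure ν] {T : TX κ → TX κ}
  {TJ : ∀ J, TX (cutI lev J) → TX (cutI lev J)}

/-- a limit of measure preserving maps is measure preserving -/
theorem cyl_pres (hTm : Measurable T) (hTJ : ∀ J x, cutR lev J (T x) = TJ J (cutR lev J x))
    (h : ∀ J, MeasurePreserving (TJ J) (ν.map (cutR lev J)) (ν.map (cutR lev J))) : MeasurePreserving T ν ν := by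
  refine ⟨hTm, ?_⟩
  have : IsFiniteMeasure (ν.map T) := Measure.isFiniteMeasure_map ν T
  refine cyl_ext (lev := lev) fun J => ?_
  rw [Measure.map_map (cutR_meas lev J) hTm]
  have e : cutR lev J ∘ T = TJ J ∘ cutR lev J := funext fun x => hTJ J x
  rw [e, ← Measure.map_map (h J).measurable (cutR_meas lev J), (h J).map_eq]

theorem cyl_iter (hTJ : ∀ J x, cutR lev J (T x) = TJ J (cutR lev J x)) (J n : ℕ) (x : TX κ) :
    cutR lev J (T^[n] x) = (TJ J)^[n] (cutR lev J x) := by
  induction n generalizing x with
  | zero => rfl
  | succ n ih => rw [Function.iterate_succ_apply, Function.iterate_succ_apply, ih, hTJ]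

/-- a limit of ergodic maps is ergodic -/
theorem cyl_erg (hTm : MeasurePreserving T ν ν) (hTJ : ∀ J x, cutR lev J (T x) = TJ J (cutR lev J x))
    (h : ∀ J, Ergodic (TJ J) (ν.map (cutR lev J))) : Ergodic T ν := by
  refine ⟨hTm, ⟨fun A hA hAi => ?_⟩⟩
  have hfin : IsFiniteMeasure (ν.restrict A) := inferInstance
  have key : ν.restrict A = ν A • ν := by
    refine cyl_ext (lev := lev) fun J => ?_
    have hr : Measurable (cutR lev J) := cutR_meas lev J
    have hpr : IsProbabilityMeasure (ν.map (cutR lev J)) := Measure.isProbabilityMeasure_map hr.aemeasurable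
    have h1 : MeasurePreserving (TJ J) ((ν.restrict A).map (cutR lev J)) ((ν.restrict A).map (cutR lev J)) := by
      refine ⟨(h J).measurable, ?_⟩
      rw [Measure.map_map (h J).measurable hr]
      have e : TJ J ∘ cutR lev J = cutR lev J ∘ T := funext fun x => (hTJ J x).symm
      rw [e, ← Measure.map_map hr hTm.measurable]
      congr 1
      have := hTm.restrict_preimage hA
      rw [hAi] at this
      exact this.map_eq
    have h2 : (ν.restrict A).map (cutR lev J) ≪ ν.map (cutR lev J) :=
      (Measure.absolutelyContinuous_of_le Measure.restrict_le_self).map hr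
    have h3 : IsFiniteMeasure ((ν.restrict A).map (cutR lev J)) := Measure.isFiniteMeasure_map _ _
    obtain ⟨c, hc⟩ := (h J).eq_smul_of_absolutelyContinuous h1 h2
    have h4 : c = ν A := by
      have h5 := congrArg (fun m : Measure (TX (cutI lev J)) => m Set.univ) hc
      simp only [Measure.map_apply hr MeasurableSet.univ, Set.preimage_univ, Measure.restrict_apply MeasurableSet.univ,
        Set.univ_inter, Measure.smul_apply, smul_eq_mul, measure_univ, mul_one] at h5
      exact h5.symm
    rw [hc, h4, Measure.map_smul]
  have h1 := congrArg (fun m : Measure (TX κ) => m A) key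
  simp only [Measure.restrict_apply hA, Set.inter_self, Measure.smul_apply, smul_eq_mul] at h1
  rw [Filter.eventuallyConst_set']
  by_cases h0 : ν A = 0
  · exact Or.inl (ae_eq_empty.2 h0)
  · refine Or.inr (ae_eq_univ.2 ?_)
    have h2 : ν A = 1 := by
      have h3 : ν A ≠ ∞ := measure_ne_top _ _
      have h4 : ν A * 1 = ν A * ν A := by rw [mul_one]; exact h1
      exact ((ENNReal.mul_right_inj h0 h3).1 h4).symm
    rw [prob_compl_eq_zero_iff hA]
    exact h2

end Cyl

end Pool.Agent.Lib.MP_9fe581_an.AP
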