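import Pool.Agent.Lib.MP_9fe581_an.AP.Inf
import Pool.Agent.Lib.MP_9fe581_an.AP.G1

/-!
# AP, M4: bounded measurable functions on the infinite torus are near functions of finitely many levels
-/

set_option autoImplicit false

open Finset MeasureTheory Filter Topology
open scoped ComplexConjugate

namespace Pool.Agent.Lib.MP_9fe581_an.AP

open HT (TX mX ch)

private theorem m4_nrm {X : Type} [MeasurableSpace X] {μ : Measure X} [IsProbabilityMeasure μ] {h : X → ℂ}
    (hh : MemLp h 2 μ) {ε : ℝ} (hε : 0 ≤ ε) (h1 : eLpNorm h 2 μ ≤ ENNReal.ofReal ε) : nrm μ h ≤ ε := by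
  rw [hh.eLpNorm_eq_integral_rpow_norm (by norm_num) (by norm_num), ENNReal.ofReal_le_ofReal_iff hε] at h1
  refine le_trans (le_of_eq ?_) h1
  unfold nrm nsq
  rw [Real.sqrt_eq_rpow]
  simp

private theorem m4_sup {X : Type} [MeasurableSpace X] {μ : Measure X} [IsProbabilityMeasure μ] {h : X → ℂ} {ε : ℝ}
    (hε : 0 ≤ ε) (h1 : ∀ x, ‖h x‖ ≤ ε) : nrm μ h ≤ ε := by
  refine Real.sqrt_le_iff.2 ⟨hε, ?_⟩
  unfold nsq
  refine (integral_mono_of_nonneg (Eventually.of_forall fun x => by positivity) (integrable_const (ε ^ 2))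
    (Eventually.of_forall fun x => pow_le_pow_left₀ (norm_nonneg _) (h1 x) 2)).trans ?_
  simp

theorem inf_dense {κ : Type} [Countable κ] {lev : κ → ℕ} (hfin : ∀ j, {i | lev i ≤ j}.Finite) {ν : Measure (TX κ)}
    (hν : ν = Measure.infinitePi fun _ : κ => AddCircle.haarAddCircle) {F : TX κ → ℂ} (hF : Measurable F)
    (hb : ∃ C, ∀ x, ‖F x‖ ≤ C) (h0 : ∫ x, F x ∂ν = 0) {δ : ℝ} (hδ : 0 < δ) :
    ∃ (J : ℕ) (G : TX (cutI lev J) → ℂ), Measurable G ∧ (∃ C, ∀ x, ‖G x‖ ≤ C) ∧ ∫ x, G (cutR lev J x) ∂ν = 0 ∧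
      ∫ x, ‖F x - G (cutR lev J x)‖ ^ 2 ∂ν ≤ δ ^ 2 := by
  have hp : IsProbabilityMeasure ν := by rw [hν]; infer_instance
  obtain ⟨C, hC⟩ := hb
  have hFB : AH.BM ν F := AH.BM.of_bdd hF hC
  obtain ⟨f, hf1, hf2⟩ := (hFB.memLp 2).exists_boundedContinuous_eLpNorm_sub_le (by norm_num)
    (show ENNReal.ofReal (δ / 4) ≠ 0 by simpa using by positivity)
  obtain ⟨J, hJ⟩ := cut_approx (lev := lev) f.toContinuousMap (show 0 < δ / 4 by positivity)
  have hJ' : ∀ x, ‖f x - f (cutE lev J (cutR lev J x))‖ ≤ δ / 4 := hJ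
  have mf : Measurable f := f.continuous.measurable
  have mG0 : Measurable fun y : TX (cutI lev J) => f (cutE lev J y) := (f.continuous.comp (cutE_cont lev J)).measurable
  have mGR : Measurable fun x : TX κ => f (cutE lev J (cutR lev J x)) := mG0.comp (cutR_meas lev J)
  have hfB : AH.BM ν f := AH.BM.of_bdd mf (C := ‖f‖) fun x => f.norm_coe_le_norm x
  have hGB : AH.BM ν fun x => f (cutE lev J (cutR lev J x)) :=
    AH.BM.of_bdd mGR (C := ‖f‖) fun x => f.norm_coe_le_norm _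
  set c : ℂ := ∫ x, f (cutE lev J (cutR lev J x)) ∂ν with hc
  -- the two pieces
  have n1 : nrm ν (fun x => F x - f x) ≤ δ / 4 := m4_nrm ((hFB.sub hfB).memLp 2) (by positivity) hf1
  have n2 : nrm ν (fun x => f x - f (cutE lev J (cutR lev J x))) ≤ δ / 4 := m4_sup (by positivity) hJ'
  have n3 : nrm ν (fun x => F x - f (cutE lev J (cutR lev J x))) ≤ δ / 2 := by
    have e : (fun x => F x - f (cutE lev J (cutR lev J x))) =
        fun x => (F x - f x) + (f x - f (cutE lev J (cutR lev J x))) := by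
      funext x; ring
    rw [e]
    refine (nrm_add (hFB.sub hfB) (hfB.sub hGB)).trans ?_
    linarith
  have n4 : ‖c‖ ≤ δ / 2 := by
    have e1 : c = -∫ x, (F x - f (cutE lev J (cutR lev J x))) * conj ((fun _ => (1 : ℂ)) x) ∂ν := by
      simp only [map_one, mul_one]
      rw [integral_sub hFB.integrable hGB.integrable, h0, ← hc]
      ring
    rw [e1, norm_neg]
    refine (nrm_cs (hFB.sub hGB) (AH.BM.const 1)).trans ?_
    have e2 : nrm ν (fun _ => (1 : ℂ)) = 1 := by
      unfold nrm nsq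
      simp
    rw [e2, mul_one]
    exact n3
  refine ⟨J, fun y => f (cutE lev J y) - c, mG0.sub_const c, ⟨‖f‖ + ‖c‖, fun y => ?_⟩, ?_, ?_⟩
  · exact (norm_sub_le _ _).trans (add_le_add_left (f.norm_coe_le_norm _) _)
  · rw [integral_sub hGB.integrable (integrable_const c), ← hc]
    simp
  · have e3 : (fun x => F x - (f (cutE lev J (cutR lev J x)) - c)) =
        fun x => (F x - f (cutE lev J (cutR lev J x))) + (fun _ => c) x := by
      funext x; ring
    have n5 : nrm ν (fun x => F x - (f (cutE lev J (cutR lev J x)) - c)) ≤ δ := by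
      rw [e3]
      refine (nrm_add (hFB.sub hGB) (AH.BM.const c)).trans ?_
      have e4 : nrm ν (fun _ => c) = ‖c‖ := by
        unfold nrm nsq
        simp
      rw [e4]
      linarith
    have e5 : ∫ x, ‖F x - (f (cutE lev J (cutR lev J x)) - c)‖ ^ 2 ∂ν =
        nrm ν (fun x => F x - (f (cutE lev J (cutR lev J x)) - c)) ^ 2 := (nrm_sq _).symm
    rw [e5]
    exact pow_le_pow_left₀ (nrm_nonneg _) n5 2

end Pool.Agent.Lib.MP_9fe581_an.AP
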