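import Pool.Agent.Lib.MP_9fe581_an.AP.N1
import Pool.Agent.Lib.MP_9fe581_an.AP.Inf
import Pool.Agent.Lib.MP_9fe581_an.AH.NDw

/-!
# AP, NDi: the weak nondegeneracy hypothesis and the towers of infinite height
-/

set_option autoImplicit false

open Finset MeasureTheory Filter Topology
open scoped ComplexConjugate

namespace Pool.Agent.Lib.MP_9fe581_an.AP

open HT (TX mX ch)

/-- **the weak nondegeneracy hypothesis**: on the base the rotation is free; for `m ≠ 0` on the level `j + 1` the cocycle `m ψ` is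
not cohomologous, by a measurable function of the coordinates of level `≤ j`, to a function of the coordinates of level `< j` -/
structure Tow.NDw {κ : Type} [Fintype κ] (W : Tow κ) : Prop where
  base : ∀ m : κ →₀ ℤ, m ≠ 0 → W.On 0 m → W.coc m 0 ≠ 0
  nd : ∀ (j : ℕ) (m : κ →₀ ℤ), m ≠ 0 → W.On (j + 1) m →
    ¬ ∃ g F : TX κ → ℂ, Measurable g ∧ Measurable F ∧ (∀ x, ‖g x‖ = 1) ∧ (∀ x, ‖F x‖ = 1) ∧
      (∀ x y, (∀ i, W.lev i ≤ j → x i = y i) → g x = g y) ∧ (∀ x y, (∀ i, W.lev i < j → x i = y i) → F x = F y) ∧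
      ∀ᵐ x ∂mX κ, FT.ec (W.coc m x) * g x = F x * g (W.T x)

/-- the weak hypothesis in the form of the library AH -/
theorem Tow.ndw_ah {κ : Type} [Fintype κ] {W : Tow κ} (hW : W.NDw) : AH.NDw W.ah := by
  refine ⟨fun m hm hon h => hW.base m hm hon ?_, fun j m hm hon g F hg hF g1 F1 gl Fl h => ?_⟩
  · exact FT.ec_eq_one h
  · exact hW.nd j m hm hon ⟨g, F, hg, hF, g1, F1, fun x y hxy => gl x y fun i hi => hxy i (Nat.lt_succ_iff.1 hi), Fl, h⟩

/-- ergodicity of `T` under the weak hypothesis -/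
theorem Tow.ndw_erg {κ : Type} [Fintype κ] {W : Tow κ} (hW : W.NDw) : Ergodic W.T (mX κ) := by
  classical
  exact AH.ndw_erg (W := W.ah) (Tow.ndw_ah hW)

variable {κ : Type} {lev : κ → ℕ} {ψ : κ → TX κ → UnitAddCircle} {ν : Measure (TX κ)} {T : TX κ → TX κ}

/-- the tower of the levels `≤ J` satisfies the weak hypothesis -/
theorem cut_ndw {J : ℕ} [Fintype (cutI lev J)] (hc : ∀ i, Measurable (ψ i))
    (hdep : ∀ i x y, (∀ l, lev l < lev i → x l = y l) → ψ i x = ψ i y) (hT : ∀ x i, T x i = x i + ψ i x)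
    (hν : ν = Measure.infinitePi fun _ : κ => AddCircle.haarAddCircle)
    (hbase : ∀ m : κ →₀ ℤ, m ≠ 0 → (∀ i, m i ≠ 0 → lev i = 0) → cocI ψ m 0 ≠ 0)
    (hnd : ∀ (j : ℕ) (m : κ →₀ ℤ), m ≠ 0 → (∀ i, m i ≠ 0 → lev i = j + 1) →
      ¬ ∃ g F : TX κ → ℂ, Measurable g ∧ Measurable F ∧ (∀ x, ‖g x‖ = 1) ∧ (∀ x, ‖F x‖ = 1) ∧
        (∀ x y, (∀ i, lev i ≤ j → x i = y i) → g x = g y) ∧ (∀ x y, (∀ i, lev i < j → x i = y i) → F x = F y) ∧
        ∀ᵐ x ∂ν, (AddCircle.toCircle (cocI ψ m x) : ℂ) * g x = F x * g (T x)) :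
    (cut lev J ψ hc hdep).NDw := by
  classical
  have hinj : Function.Injective (Subtype.val : cutI lev J → κ) := Subtype.val_injective
  have hsupp : ∀ (m : cutI lev J →₀ ℤ) (n : ℕ), (∀ i, m i ≠ 0 → lev i.1 = n) →
      ∀ i, m.mapDomain Subtype.val i ≠ 0 → lev i = n := by
    intro m n h i hi
    by_cases hr : i ∈ Set.range (Subtype.val : cutI lev J → κ)
    · obtain ⟨l, rfl⟩ := hr
      rw [Finsupp.mapDomain_apply hinj] at hi
      exact h l hi
    · exact absurd (Finsupp.mapDomain_of_notMem_range m i hr) hi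
  have hne : ∀ m : cutI lev J →₀ ℤ, m ≠ 0 → m.mapDomain (Subtype.val : cutI lev J → κ) ≠ 0 := by
    intro m hm h
    exact hm (Finsupp.mapDomain_injective hinj (by rw [h, Finsupp.mapDomain_zero]))
  refine ⟨fun m hm hon => ?_, fun j m hm hon => ?_⟩
  · have h1 := hbase _ (hne m hm) (hsupp m 0 hon)
    have h2 := cut_coc hc hdep m (0 : TX κ)
    have h3 : cutR lev J (0 : TX κ) = 0 := rfl
    rw [h3] at h2
    rwa [h2]
  · have hg := hnd j _ (hne m hm) (hsupp m (j + 1) hon)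
    rintro ⟨g, F, g1, F1, g2, F2, g3, F3, h4⟩
    refine hg ⟨fun x => g (cutR lev J x), fun x => F (cutR lev J x), g1.comp (cutR_meas lev J), F1.comp (cutR_meas lev J),
      fun x => g2 _, fun x => F2 _, fun x y h => g3 _ _ fun i hi => h i.1 hi, fun x y h => F3 _ _ fun i hi => h i.1 hi, ?_⟩
    filter_upwards [(cut_meas (J := J) hν).quasiMeasurePreserving.ae h4] with x hx
    rw [cut_T (J := J) hc hdep hT x, ← hx, ← cut_coc hc hdep]
    rfl

end Pool.Agent.Lib.MP_9fe581_an.AP
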