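import Pool.Agent.Lib.MP_9fe581_an.AP.A1
import Pool.Agent.Lib.MP_9fe581_an.AP.NDi
import Pool.Agent.Lib.MP_9fe581_an.AH.NDe

/-!
# AP, NDc: the weak nondegeneracy hypothesis implies the nondegeneracy hypothesis
-/

set_option autoImplicit false

open Finset MeasureTheory Filter Topology ProbabilityTheory
open scoped ComplexConjugate

namespace Pool.Agent.Lib.MP_9fe581_an.AP

open HT (TX mX ch)

variable {κ : Type} [Fintype κ] {W : Tow κ}

private theorem nc_ratio {h : ℕ} {m : κ →₀ ℤ} (hm : W.On h m) :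
    Measurable[(W.Y h).m] fun x => ch m (W.T x) * conj (ch m x) := by
  classical
  have e : (fun x => ch m (W.T x) * conj (ch m x)) = fun x => FT.ec (W.coc m x) := by
    funext x
    rw [Tow.ch_T, mul_comm (ch m x), mul_assoc, AH.unim_mul _ (HT.ch_norm _ _), mul_one]
  rw [e]
  have h1 : Measurable (FT.ec : UnitAddCircle → ℂ) := FT.continuous_ec.measurable
  exact h1.comp (Tow.coc_Y hm)

/-- the step from `Y_h` to `Y_{h+1}` -/
private theorem nc_bd (W : Tow κ) (h : ℕ) :
    BD (mX κ) W.T (W.Y h) (W.Y h) (W.Y h) (W.Y (h + 1)) {fun _ => 1} (W.EE h) := by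
  classical
  refine
    { fD := Tow.Y_fac W h, fD' := Tow.Y_fac W h, fY := Tow.Y_fac W h, fY' := Tow.Y_fac W (h + 1), DY := fun _ hs => hs,
      DD := fun _ hs => hs, DY' := fun s hs => Tow.Y_mono W (Nat.le_succ h) s hs,
      YY := fun s hs => Tow.Y_mono W (Nat.le_succ h) s hs, one := rfl, cls := ?_, mem := ?_, dich := ?_, tot := ?_
      emeas := ?_, enorm := ?_, eratio := ?_, etot := ?_ }
  · rintro v rfl
    exact ⟨measurable_const, fun _ => norm_one, @measurable_const _ _ _ (W.Y h).m _⟩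
  · rintro v rfl
    exact @measurable_const _ _ _ (W.Y h).m _
  · rintro v rfl
    exact Or.inl (@measurable_const _ _ _ (W.Y h).m _)
  · intro d hd hD h0
    have h1 := h0 (fun _ => 1) rfl
    simp only [map_one, mul_one] at h1
    have h2 : ce (mX κ) (W.Y h) d = d :=
      condExp_of_stronglyMeasurable (Tow.Y_le W h) hD.stronglyMeasurable (by
        obtain ⟨C, hC⟩ := hd.bdd
        exact Integrable.of_bound hd.meas.aestronglyMeasurable C (Eventually.of_forall hC))
    have e : (fun x => d x) = d := rfl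
    rw [e, h2] at h1
    exact h1
  · rintro e ⟨m, hm, rfl⟩
    exact Tow.ch_Y hm
  · rintro e ⟨m, hm, rfl⟩ x
    exact HT.ch_norm m x
  · rintro e ⟨m, hm, rfl⟩
    exact nc_ratio hm
  · intro f hf hY h0
    exact Tow.mode_zero hf hY fun m hm => h0 _ ⟨m, hm, rfl⟩

private theorem nc_big {k : Kernel (TX κ) (TX κ)} [IsMarkovKernel k] {h : ℕ} (c : Ctx (mX κ) W.T (W.Y h) k) (Q : ℝ) :
    Big c (W.Y h) (W.EE h) Q := by
  intro e he P hP
  obtain ⟨N, hN⟩ := exists_nat_gt (‖P‖ ^ 4)
  exact Or.inl (core_min c ((nc_bd W h).em he) (minP_triv c (‖P‖ ^ 4 + 1)) (N := N)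
    (fun v _ hv _ _ _ _ => hv) hP (lt_add_one _) hN)

private theorem nc_tor {k : Kernel (TX κ) (TX κ)} [IsMarkovKernel k] {h : ℕ} (c : Ctx (mX κ) W.T (W.Y h) k) (N : ℕ) :
    TorP W.T (W.Y h) (W.Y (h + 1)) N := by
  classical
  intro v hv hvY n hn _ hvn
  obtain ⟨e, ⟨m, hm, rfl⟩, w, hw, hwY, hvw⟩ := pur_next (nc_bd W h) c c (one_lt_two) (nc_big c 2) hv hvY
  -- `conj (ch m) v` is in `Y_h`
  have h1 : Measurable[(W.Y h).m] fun x => conj (ch m x) * v x := by
    have e1 : (fun x => conj (ch m x) * v x) = fun x => (conj (ch m x) * w x) * (v x * conj (w x)) := by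
      funext x
      calc conj (ch m x) * v x = conj (ch m x) * v x * (w x * conj (w x)) := by rw [AH.unim_mul _ (hw.norm x), mul_one]
        _ = _ := by ring
    rw [e1]
    exact Measurable.mul hwY hvw
  by_cases hm0 : m = 0
  · subst hm0
    have e2 : (fun x => conj (ch (0 : κ →₀ ℤ) x) * v x) = v := by
      funext x
      rw [HT.ch_zero, map_one, one_mul]
    rw [e2] at h1
    exact h1
  · exfalso
    have hnm : ∀ x, ch (n • m) x = ch m x ^ n := by
      intro x
      have : ∀ n : ℕ, ch (n • m) x = ch m x ^ n := by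
        intro n
        induction n with
        | zero => rw [zero_smul, pow_zero, HT.ch_zero]
        | succ n ih => rw [succ_nsmul, HT.ch_add, ih, pow_succ]
      exact this n
    have h2 : Measurable[(W.Y h).m] (ch (n • m)) := by
      have e3 : ch (n • m) = fun x => v x ^ n * conj ((conj (ch m x) * v x) ^ n) := by
        funext x
        rw [hnm, map_pow, ← mul_pow, map_mul, Complex.conj_conj]
        congr 1
        calc ch m x = ch m x * (v x * conj (v x)) := by rw [AH.unim_mul _ (hv.norm x), mul_one]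
          _ = _ := by ring
      rw [e3]
      have h3 : Measurable[(W.Y h).m] fun x => conj ((conj (ch m x) * v x) ^ n) :=
        Complex.continuous_conj.measurable.comp (Measurable.pow_const h1 n)
      exact Measurable.mul hvn h3
    have hOn : W.On h (n • m) := fun i hi => hm i fun h0 => hi (by rw [Finsupp.smul_apply, h0, smul_zero])
    have hne : n • m ≠ 0 := fun h0 => hm0 ((smul_eq_zero.1 h0).resolve_left hn.ne')
    have h4 := Tow.ce_ch hOn hne
    have h5 : ce (mX κ) (W.Y h) (ch (n • m)) = ch (n • m) :=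
      condExp_of_stronglyMeasurable (Tow.Y_le W h) h2.stronglyMeasurable
        (Integrable.of_bound (HT.ch_cont _).measurable.aestronglyMeasurable 1 (Eventually.of_forall fun x => (HT.ch_norm _ x).le))
    rw [h5] at h4
    obtain ⟨x, hx⟩ := h4.exists
    have h6 := HT.ch_norm (n • m) x
    rw [hx] at h6
    simp at h6

/-- if no class over `Y_h` has mode `m` then the energies of the mode `m` over `Y_h` vanish -/
theorem nc_energy (hS : Sys (mX κ) W.T) {h : ℕ} {m : κ →₀ ℤ} (hm : W.On (h + 1) m)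
    (hno : ∀ v, Cls W.T (W.Y h) v → ¬ W.Mode (h + 1) m v) {f : TX κ → ℂ} (hf : Bd f) (hM : W.Mode (h + 1) m f)
    (hf1 : nsq (mX κ) f ≤ 1) : Tendsto (energy (mX κ) W.T (W.Y h) f) atTop (𝓝 0) := by
  classical
  obtain ⟨k, hk, hF⟩ := exists_fib (mX κ) hS.erg.toMeasurePreserving (Tow.Y_fac W h)
  have c : Ctx (mX κ) W.T (W.Y h) k := ⟨hS, Tow.Y_fac W h, hF⟩
  have hEm : Em (mX κ) W.T (W.Y h) (W.Y (h + 1)) (ch m) :=
    ⟨Tow.Y_fac W (h + 1), fun s hs => Tow.Y_mono W (Nat.le_succ h) s hs, (HT.ch_cont m).measurable, HT.ch_norm m, nc_ratio hm⟩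
  have key : ∀ η : ℝ, 0 < η → ∃ L ≤ η, Tendsto (energy (mX κ) W.T (W.Y h) f) atTop (𝓝 L) := by
    intro η hη
    obtain ⟨N, hN⟩ := exists_nat_gt (1 / η ^ 2)
    exact core_energy c hEm (minP_next (nc_bd W h) c c (nc_big c _)) (nc_tor c N) hη (lt_add_one (1 / η ^ 2)) hN hf hM hf1
      fun v hv hvM => absurd hvM (hno v hv)
  obtain ⟨L, -, hL⟩ := key 1 one_pos
  have h0 : 0 ≤ L := by
    refine ge_of_tendsto' hL fun R => ?_
    unfold energy
    refine mul_nonneg (by positivity) (sum_nonneg fun r _ => ?_)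
    exact integral_nonneg fun x => by positivity
  have h1 : L ≤ 0 := by
    refine le_of_forall_pos_le_add fun η hη => ?_
    obtain ⟨L', hL', hL2⟩ := key η hη
    rw [tendsto_nhds_unique hL hL2, zero_add]
    exact hL'
  rwa [le_antisymm h1 h0] at hL

/-- under the weak hypothesis there are no classes over `Y_j` of mode `m`, `m` on the level `j + 1` -/
theorem ndw_cls (hW : W.NDw) {j : ℕ} {m : κ →₀ ℤ} (hm0 : m ≠ 0) (hm : W.On (j + 1) m) {v : TX κ → ℂ}
    (hv : Cls W.T (W.Y j) v) : ¬ W.Mode (j + 1) m v := by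
  classical
  intro hM
  -- representatives
  have rep : ∀ (a : ℕ) (g : TX κ → ℂ), Measurable g → (∀ x, ‖g x‖ = 1) → Measurable[(W.Y a).m] g →
      ∃ g' : TX κ → ℂ, Measurable g' ∧ (∀ x, ‖g' x‖ = 1) ∧ AH.Low W.ah a g' ∧ g =ᵐ[mX κ] g' := by
    intro a g hg g1 hgY
    have hgB : Bd g := ⟨hg, 1, fun x => (g1 x).le⟩
    have h1 := Tow.low_of_Y W hgB hgY
    have hAm := AH.AV_meas W.ah a hg
    refine ⟨fun x => if ‖AH.AV W.ah a g x‖ = 1 then AH.AV W.ah a g x else 1, ?_, fun x => ?_, fun x y hxy => ?_, ?_⟩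
    · exact Measurable.ite (measurableSet_eq_fun hAm.norm measurable_const) hAm measurable_const
    · dsimp only
      split_ifs with h
      · exact h
      · exact norm_one
    · dsimp only
      rw [AH.AV_low W.ah a g x y hxy]
    · filter_upwards [h1] with x hx
      rw [← hx, if_pos (g1 x)]
  have hgm : Measurable fun x => conj (ch m x) * v x :=
    (Complex.continuous_conj.measurable.comp (HT.ch_cont m).measurable).mul hv.meas
  obtain ⟨g, g1, g2, g3, g4⟩ := rep (j + 1) (fun x => conj (ch m x) * v x) hgm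
    (fun x => by rw [norm_mul, RCLike.norm_conj, HT.ch_norm, hv.norm, one_mul]) hM
  have hFm : Measurable fun x => v (W.T x) * conj (v x) :=
    (hv.meas.comp (Tow.T_meas W)).mul (Complex.continuous_conj.measurable.comp hv.meas)
  obtain ⟨F, F1, F2, F3, F4⟩ := rep j (fun x => v (W.T x) * conj (v x)) hFm
    (fun x => by rw [norm_mul, RCLike.norm_conj, hv.norm, hv.norm, one_mul]) hv.ratio
  refine hW.nd j m hm0 hm ⟨fun x => conj (g x), F, Complex.continuous_conj.measurable.comp g1, F1,
    fun x => by rw [RCLike.norm_conj]; exact g2 x, F2, fun x y hxy => ?_, F3, ?_⟩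
  · have := g3 x y fun i hi => hxy i (Nat.lt_succ_iff.1 hi)
    show conj (g x) = conj (g y)
    rw [this]
  · have g5 : ∀ᵐ x ∂mX κ, conj (ch m (W.T x)) * v (W.T x) = g (W.T x) := (Tow.T_pres W).quasiMeasurePreserving.ae g4
    filter_upwards [g4, g5, F4] with x a b d
    rw [← a, ← b, ← d]
    have e1 := Tow.ch_T W m x
    have u1 := AH.unim_mul _ (HT.ch_norm m x)
    have u2 := AH.unim_mul _ (hv.norm x)
    have u3 := AH.unim_mul _ (hv.norm (W.T x))
    have u4 := AH.unim_mul _ (HT.ch_norm m (W.T x))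
    simp only [map_mul, Complex.conj_conj]
    calc FT.ec (W.coc m x) * (ch m x * conj (v x)) = ch m (W.T x) * conj (v x) := by rw [e1]; ring
      _ = (v (W.T x) * conj (v (W.T x))) * (ch m (W.T x) * conj (v x)) := by rw [u3, one_mul]
      _ = _ := by ring

/-- **NDc.** the weak hypothesis implies the nondegeneracy hypothesis -/
theorem Tow.nd_of_ndw (hW : W.NDw) : W.ND := by
  classical
  have hE : Ergodic W.T (mX κ) := Tow.ndw_erg hW
  have hS : Sys (mX κ) W.T := ⟨hE, W.R, Tow.R_meas W, Tow.T_R W, Tow.R_T W⟩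
  refine ⟨hW.base, fun j m hm0 hm => ?_⟩
  by_contra hcon
  push Not at hcon
  refine AH.nde W.ah hE (j := j) (m := m) hm (fun b => ?_) fun F hF hF1 hFl => ?_
  · have hb : W.OnT j (AH.lp W.ah j b) := by
      intro i hi
      by_contra h
      exact hi (if_neg h)
    obtain ⟨g, g1, g2, g3, g4⟩ := hcon _ hb
    refine ⟨g, g1, g2, fun x y hxy => g3 x y fun i hi => hxy i (Nat.lt_succ_iff.2 hi), ?_⟩
    filter_upwards [g4] with x hx
    have e : FT.ec (W.coc m (x + AH.lp W.ah j b) - W.coc m x) =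
        ch m (fun i => W.ah.ψ i (x + AH.lp W.ah j b) - W.ah.ψ i x) := by
      show FT.ec (FT.pr m (fun i => W.ψ i (x + AH.lp W.ah j b)) - FT.pr m fun i => W.ψ i x) = FT.ec (FT.pr m _)
      congr 1
      rw [sub_eq_iff_eq_add, ← FT.pr_add_right]
      congr 1
      funext i
      show W.ψ i (x + AH.lp W.ah j b) = (W.ψ i (x + AH.lp W.ah j b) - W.ψ i x) + W.ψ i x
      rw [sub_add_cancel]
    rw [← e]
    exact hx.symm
  · set f : TX κ → ℂ := fun x => ch m x * F x with hf
    have hfB : Bd f := ⟨(HT.ch_cont m).measurable.mul hF, 1, fun x => by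
      rw [hf]; dsimp only
      rw [norm_mul, HT.ch_norm, one_mul]; exact hF1 x⟩
    have hM : W.Mode (j + 1) m f := by
      have e1 : (fun x => conj (ch m x) * f x) = F := by
        funext x
        rw [hf]; dsimp only
        rw [← mul_assoc, mul_comm (conj (ch m x)), AH.unim_mul _ (HT.ch_norm _ _), one_mul]
      show Measurable[(W.Y (j + 1)).m] fun x => conj (ch m x) * f x
      rw [e1]
      exact Tow.Y_of_low W hF hFl
    have hf1 : nsq (mX κ) f ≤ 1 := by
      have : nsq (mX κ) f ≤ ∫ _ : TX κ, (1 : ℝ) ∂mX κ := by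
        refine integral_mono_ae hfB.bm.int_sq (integrable_const _) (Eventually.of_forall fun x => ?_)
        refine pow_le_one₀ (norm_nonneg _) ?_
        rw [hf]; dsimp only
        rw [norm_mul, HT.ch_norm, one_mul]; exact hF1 x
      simpa using this
    refine (nc_energy hS hm (fun v hv => ndw_cls hW hm0 hm hv) hfB hM hf1).congr fun R => ?_
    unfold energy
    congr 1
    refine sum_congr rfl fun r _ => ?_
    have hGm := AH.GR_meas W.ah m hF r
    have hfr : Bd fun y => f y * conj (f (W.T^[r] y)) := by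
      have h1 : Measurable fun y => f (W.T^[r] y) := hfB.meas.comp ((Tow.T_meas W).iterate r)
      refine ⟨hfB.meas.mul (Complex.continuous_conj.measurable.comp h1), 1, fun x => ?_⟩
      rw [norm_mul, RCLike.norm_conj, hf]; dsimp only
      rw [norm_mul, norm_mul, HT.ch_norm, HT.ch_norm, one_mul, one_mul]
      exact mul_le_one₀ (hF1 _) (norm_nonneg _) (hF1 _)
    have e2 : (fun y => f y * conj (f (W.T^[r] y))) = fun y => conj (AH.GR W.ah m F r y) := by
      funext y
      unfold AH.GR
      rw [hf]; dsimp only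
      have e3 : ch m (W.T^[r] y) = ch m (AH.psn W.ah r y) * ch m y := AH.ch_iter W.ah m r y
      rw [e3]
      simp only [map_mul, Complex.conj_conj]
      have u1 := AH.unim_mul _ (HT.ch_norm m y)
      calc ch m y * F y * (conj (ch m (AH.psn W.ah r y)) * conj (ch m y) * conj (F (W.T^[r] y))) =
          (ch m y * conj (ch m y)) * (conj (F (W.T^[r] y)) * conj (ch m (AH.psn W.ah r y)) * F y) := by ring
        _ = _ := by rw [u1, one_mul]; rfl
    unfold nsq
    refine integral_congr_ae ?_
    filter_upwards [Tow.ce_Y W j hfr] with x hx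
    rw [hx, e2]
    congr 1
    have e4 : AH.AV W.ah j (fun y => conj (AH.GR W.ah m F r y)) x = conj (AH.AV W.ah j (AH.GR W.ah m F r) x) := by
      unfold AH.AV
      exact integral_conj
    rw [e4, RCLike.norm_conj]

end Pool.Agent.Lib.MP_9fe581_an.AP
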