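import Pool.Agent.Lib.MP_9fe581_an.AP.A1
import Pool.Agent.Lib.MP_9fe581_an.AP.Fin

/-!
# AP, Top: the theorem for towers of finite height
-/

set_option autoImplicit false

open MeasureTheory
open scoped ComplexConjugate

namespace Pool.Agent.Lib.MP_9fe581_an.AP

open HT (TX mX ch)

variable {κ : Type} [Fintype κ]

/-- **the theorem for measurable towers**: the ergodic joinings of different prime powers of `T` have small correlations -/
theorem Tow.joins (W : Tow κ) (hW : W.ND) {F : TX κ → ℂ} (hF : Bd F) (h0 : ∫ x, F x ∂mX κ = 0) (ε : ℝ) (hε : 0 < ε) :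
    ∃ q0 : ℕ, ∀ p q lam, W.PJ p q lam → q0 ≤ q → ‖∫ z : TX κ × TX κ, F z.1 * conj (F z.2) ∂lam‖ ≤ ε :=
  Tow.joins_small hW (fun _ _ _ hJ => Tow.dp hW hJ) (fun h => W.core hW h) hF h0 ε hε

/-- **the theorem for continuous towers** -/
theorem Tow.main (W : Tow κ) (hW : W.ND) (hT : Continuous W.T) (f : TX κ → ℂ) (hf : Continuous f) :
    HD.UnifOrth W.T fun x => f x - ∫ y, f y ∂mX κ :=
  Tow.main_of hW (fun _ _ _ hJ => Tow.dp hW hJ) (fun h => W.core hW h) hT f hf

end Pool.Agent.Lib.MP_9fe581_an.AP
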