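import Pool.Agent.Lib.MP_9fe581_an.AP.M2
import Pool.Agent.Lib.MP_9fe581_an.AP.M4
import Pool.Agent.Lib.MP_9fe581_an.AP.NDi
import Pool.Agent.Lib.MP_9fe581_an.AP.NDc
import Pool.Agent.Lib.MP_9fe581_an.AP.Top

/-! # AP, Mod: the theorem for all uniquely ergodic models of measurable nondegenerate towers of height `≤ ω` -/

set_option autoImplicit false

open Finset MeasureTheory Filter Topology
open scoped ComplexConjugate ENNReal

namespace Pool.Agent.Lib.MP_9fe581_an.AP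

open HT (TX mX)

/-! ### the tower -/

section Inf

variable {κ : Type} {lev : κ → ℕ} {ψ : κ → TX κ → UnitAddCircle} {ν : Measure (TX κ)} {T : TX κ → TX κ}

/-- the weakly nondegenerate towers of height `≤ ω`, measurable cocycles -/
structure ITow (lev : κ → ℕ) (ψ : κ → TX κ → UnitAddCircle) (ν : Measure (TX κ)) (T : TX κ → TX κ) : Prop where
  fin : ∀ j, {i | lev i ≤ j}.Finite
  meas : ∀ i, Measurable (ψ i)
  dep : ∀ i x y, (∀ l, lev l < lev i → x l = y l) → ψ i x = ψ i y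
  map : ∀ x i, T x i = x i + ψ i x
  haar : ν = Measure.infinitePi fun _ : κ => AddCircle.haarAddCircle
  base : ∀ m : κ →₀ ℤ, m ≠ 0 → (∀ i, m i ≠ 0 → lev i = 0) → cocI ψ m 0 ≠ 0
  nd : ∀ (j : ℕ) (m : κ →₀ ℤ), m ≠ 0 → (∀ i, m i ≠ 0 → lev i = j + 1) →
      ¬ ∃ g F : TX κ → ℂ, Measurable g ∧ Measurable F ∧ (∀ x, ‖g x‖ = 1) ∧ (∀ x, ‖F x‖ = 1) ∧
        (∀ x y, (∀ i, lev i ≤ j → x i = y i) → g x = g y) ∧ (∀ x y, (∀ i, lev i < j → x i = y i) → F x = F y) ∧
        ∀ᵐ x ∂ν, (AddCircle.toCircle (cocI ψ m x) : ℂ) * g x = F x * g (T x)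

theorem ITow.count (h : ITow lev ψ ν T) : Countable κ := by
  have h1 : (Set.univ : Set κ) = ⋃ j, {i | lev i ≤ j} := by
    ext i
    exact ⟨fun _ => Set.mem_iUnion.2 ⟨lev i, (le_refl (lev i) : lev i ≤ lev i)⟩, fun _ => trivial⟩
  have h2 : (Set.univ : Set κ).Countable := by
    rw [h1]
    exact Set.countable_iUnion fun j => (h.fin j).countable
  exact Set.countable_univ_iff.1 h2

theorem ITow.prob (h : ITow lev ψ ν T) : IsProbabilityMeasure ν := by
  rw [h.haar]; infer_instance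

theorem ITow.Tmeas (h : ITow lev ψ ν T) : Measurable T := by
  refine measurable_pi_lambda _ fun i => ?_
  simp only [h.map]
  exact (measurable_pi_apply i).add (h.meas i)

/-- the tower of the levels `≤ J` is nondegenerate -/
theorem ITow.cutND (h : ITow lev ψ ν T) (J : ℕ) [Fintype (cutI lev J)] : (cut lev J ψ h.meas h.dep).ND :=
  Tow.nd_of_ndw (cut_ndw (J := J) h.meas h.dep h.map h.haar h.base h.nd)

theorem ITow.erg (h : ITow lev ψ ν T) {n : ℕ} (hn : 0 < n) : MeasurePreserving T ν ν ∧ Ergodic T^[n] ν := by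
  have := h.count
  have := h.prob
  have hJ : ∀ J x, cutR lev J (T x) = (cut lev J ψ h.meas h.dep).T (cutR lev J x) := fun J x =>
    cut_T (J := J) h.meas h.dep h.map x
  have hE : ∀ J {n : ℕ}, 0 < n → Ergodic ((cut lev J ψ h.meas h.dep).T^[n]) (ν.map (cutR lev J)) := fun J n hn => by
    have : Fintype (cutI lev J) := (h.fin J).fintype
    rw [(cut_meas (lev := lev) (J := J) h.haar).map_eq]
    exact (Tow.sys (h.cutND J) hn).erg
  have hT : MeasurePreserving T ν ν := cyl_pres h.Tmeas hJ fun J => (hE J one_pos).toMeasurePreserving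
  refine ⟨hT, cyl_erg (hT.iterate n) (fun J x => cyl_iter hJ J n x) fun J => hE J hn⟩

/-- all mean zero functions have small correlations along the ergodic joinings -/
theorem ITow.sj (h : ITow lev ψ ν T) {F : TX κ → ℂ} (hF : Measurable F) (hb : ∃ C, ∀ x, ‖F x‖ ≤ C)
    (h0 : ∫ x, F x ∂ν = 0) : SJ ν T F := by
  have := h.count
  have := h.prob
  have hBM : ∀ {H : TX κ → ℂ}, Measurable H → (∃ C, ∀ x, ‖H x‖ ≤ C) → MemLp H 2 ν := fun hH ⟨C, hC⟩ =>
    (AH.BM.of_bdd hH hC).memLp 2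
  refine SJ.lim (hBM hF hb) fun δ hδ => ?_
  obtain ⟨J, G, hG, hGb, hG0, hd⟩ := inf_dense h.fin h.haar hF hb h0 hδ
  have : Fintype (cutI lev J) := (h.fin J).fintype
  have hmp := cut_meas (lev := lev) (J := J) h.haar
  refine ⟨fun x => G (cutR lev J x), hBM (hG.comp (cutR_meas lev J)) (hGb.imp fun C hC x => hC _), ?_, hd⟩
  refine SJ.factor (μ := mX (cutI lev J)) (T := (cut lev J ψ h.meas h.dep).T) (F := G) (h.erg one_pos).1
    (Tow.T_meas _) hmp (Eventually.of_forall fun x => cut_T (J := J) h.meas h.dep h.map x) hG EventuallyEq.rfl ?_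
  intro ε hε
  have hG0' : ∫ y, G y ∂mX (cutI lev J) = 0 := by
    rw [← hmp.map_eq, integral_map hmp.measurable.aemeasurable hG.aestronglyMeasurable]
    exact hG0
  obtain ⟨q0, hq0⟩ := Tow.joins _ (h.cutND J) ⟨hG, hGb⟩ hG0' ε hε
  exact ⟨q0, fun p q pp qp hne hp hq lam h1 h2 h3 h4 =>
    hq0 p q lam { prob := h1, erg := h2, pp := pp, qp := qp, ne := hne } hq⟩

end Inf

/-! ### models -/

section Mod

variable {X Z : Type} [MeasurableSpace X] [MeasurableSpace Z] {ν : Measure Z} {μ : Measure X} {R : Z → Z} {T : X → X}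
  {φ : Z → X} {π : X → Z}

/-- ergodicity of the powers passes to the model -/
theorem mod_erg (hR : MeasurePreserving R ν ν) (hφ : MeasurePreserving φ ν μ) (hπ : Measurable π)
    (h : ∀ᵐ z ∂ν, φ (R z) = T (φ z)) (hπφ : ∀ᵐ z ∂ν, π (φ z) = z) {n : ℕ} (hT : Ergodic T^[n] μ) :
    Ergodic R^[n] ν := by
  refine ⟨hR.iterate n, ⟨fun s hs hsi => ?_⟩⟩
  have hm1 : MeasurableSet (π ⁻¹' s) := hπ hs
  have hm2 : MeasurableSet (T^[n] ⁻¹' (π ⁻¹' s)) := hT.measurable hm1
  have h1 : ∀ᵐ z ∂ν, (φ z ∈ T^[n] ⁻¹' (π ⁻¹' s) ↔ φ z ∈ π ⁻¹' s) := by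
    filter_upwards [m1_iter hR h n, hπφ, (hR.iterate n).quasiMeasurePreserving.ae hπφ] with z a1 a2 a3
    show π (T^[n] (φ z)) ∈ s ↔ π (φ z) ∈ s
    rw [← a1, a2, a3]
    have : R^[n] z ∈ s ↔ z ∈ R^[n] ⁻¹' s := Iff.rfl
    rw [this, hsi]
  have h2 : T^[n] ⁻¹' (π ⁻¹' s) =ᵐ[μ] π ⁻¹' s := by
    rw [← hφ.map_eq]
    have h3 : ∀ᵐ x ∂ν.map φ, (x ∈ T^[n] ⁻¹' (π ⁻¹' s) ↔ x ∈ π ⁻¹' s) := by
      rw [ae_map_iff hφ.measurable.aemeasurable]
      · exact h1
      · exact (measurableSet_setOf.1 hm2).iff (measurableSet_setOf.1 hm1) |>.setOf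
    filter_upwards [h3] with x hx
    exact propext hx
  have h4 := hT.quasiErgodic.ae_empty_or_univ₀ hm1.nullMeasurableSet h2
  have e1 : φ ⁻¹' (π ⁻¹' s) =ᵐ[ν] s := by
    filter_upwards [hπφ] with z hz
    refine propext ?_
    show π (φ z) ∈ s ↔ z ∈ s
    rw [hz]
  rw [Filter.eventuallyConst_set']
  rcases h4 with h5 | h5
  · refine Or.inl (e1.symm.trans ?_)
    rw [ae_eq_empty] at h5 ⊢
    rwa [hφ.measure_preimage hm1.nullMeasurableSet]
  · refine Or.inr (e1.symm.trans ?_)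
    rw [ae_eq_univ] at h5 ⊢
    have e2 : (φ ⁻¹' (π ⁻¹' s))ᶜ = φ ⁻¹' (π ⁻¹' s)ᶜ := rfl
    rw [e2, hφ.measure_preimage hm1.compl.nullMeasurableSet]
    exact h5

variable [TopologicalSpace Z] [CompactSpace Z] [TopologicalSpace.MetrizableSpace Z] [BorelSpace Z]

/-- **uniquely ergodic models** -/
theorem mod_main [IsProbabilityMeasure ν] (hTm : Measurable T) (hTe : ∀ n, 0 < n → Ergodic T^[n] μ)
    (hTs : ∀ F : X → ℂ, Measurable F → (∃ C, ∀ x, ‖F x‖ ≤ C) → ∫ x, F x ∂μ = 0 → SJ μ T F)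
    (hRc : Continuous R) (hR : MeasurePreserving R ν ν)
    (hu : ∀ ν' : Measure Z, IsProbabilityMeasure ν' → MeasurePreserving R ν' ν' → ν' = ν)
    (hφ : MeasurePreserving φ ν μ) (hπ : Measurable π) (h : ∀ᵐ z ∂ν, φ (R z) = T (φ z))
    (hπφ : ∀ᵐ z ∂ν, π (φ z) = z) (f : C(Z, ℂ)) : HD.UnifOrth R fun z => f z - ∫ y, f y ∂ν := by
  have hne : Nonempty Z := by
    by_contra hcon
    rw [not_nonempty_iff] at hcon
    have h1 : ν Set.univ = 1 := measure_univ
    rw [Set.eq_empty_of_isEmpty (Set.univ : Set Z), measure_empty] at h1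
    exact zero_ne_one h1
  have hfi : Integrable f ν := Integrable.of_bound f.continuous.measurable.aestronglyMeasurable ‖f‖
    (Eventually.of_forall fun x => f.norm_coe_le_norm x)
  set C : ℝ := ‖f‖ + ‖∫ y, f y ∂ν‖ + 1 with hC
  have hC0 : 0 < C := by positivity
  set c : ℂ := ((1 / C : ℝ) : ℂ) with hc
  have hc0 : c ≠ 0 := by
    rw [hc]
    exact_mod_cast (by positivity : (0 : ℝ) < 1 / C).ne'
  set k : C(Z, ℂ) := ⟨fun z => c * (f z - ∫ y, f y ∂ν), by fun_prop⟩ with hk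
  have hkv : ∀ z, k z = c * (f z - ∫ y, f y ∂ν) := fun _ => rfl
  have hk1 : ∀ z, ‖k z‖ ≤ 1 := by
    intro z
    rw [hkv, norm_mul, hc, Complex.norm_real, Real.norm_of_nonneg (by positivity), one_div, inv_mul_le_iff₀ hC0, mul_one]
    refine (norm_sub_le _ _).trans ?_
    have := f.norm_coe_le_norm z
    rw [hC]
    linarith
  have hk0 : ∫ z, k z ∂ν = 0 := by
    simp only [hkv]
    rw [integral_const_mul, integral_sub hfi (integrable_const _)]
    simp
  -- the function on the tower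
  have hF : Measurable fun x => k (π x) := k.continuous.measurable.comp hπ
  have hF0 : ∫ x, k (π x) ∂μ = 0 := by
    rw [← hφ.map_eq, integral_map hφ.measurable.aemeasurable hF.aestronglyMeasurable, ← hk0]
    refine integral_congr_ae ?_
    filter_upwards [hπφ] with z hz
    rw [hz]
  have hs : SJ ν R k := SJ.factor hR hTm hφ h hF (by filter_upwards [hπφ] with z hz; rw [hz])
    (hTs _ hF ⟨1, fun x => hk1 _⟩ hF0)
  have hmain : HD.UnifOrth R k := by
    refine AH.unifOrth_of_joinings R hRc k hk1 fun ε hε => ?_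
    obtain ⟨q0, hq0⟩ := hs ε hε
    refine ⟨q0, fun p q pp qp hp hq hne lam h1 h2 => ?_⟩
    have hpp : MeasurePreserving R^[p] (lam.map Prod.fst) (lam.map Prod.fst) := by
      refine ⟨hR.measurable.iterate p, ?_⟩
      rw [Measure.map_map (hR.measurable.iterate p) measurable_fst]
      have e : R^[p] ∘ Prod.fst = Prod.fst ∘ Prod.map R^[p] R^[q] := rfl
      rw [e, ← Measure.map_map measurable_fst h2.measurable, h2.map_eq]
    have hqq : MeasurePreserving R^[q] (lam.map Prod.snd) (lam.map Prod.snd) := by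
      refine ⟨hR.measurable.iterate q, ?_⟩
      rw [Measure.map_map (hR.measurable.iterate q) measurable_snd]
      have e : R^[q] ∘ Prod.snd = Prod.snd ∘ Prod.map R^[p] R^[q] := rfl
      rw [e, ← Measure.map_map measurable_snd h2.measurable, h2.map_eq]
    have u1 : IsProbabilityMeasure (lam.map Prod.fst) := Measure.isProbabilityMeasure_map measurable_fst.aemeasurable
    have u2 : IsProbabilityMeasure (lam.map Prod.snd) := Measure.isProbabilityMeasure_map measurable_snd.aemeasurable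
    exact hq0 p q pp qp hne hp hq lam h1 h2
      (m1_ue hR hu pp.pos (mod_erg hR hφ hπ h hπφ (hTe p pp.pos)) u1 hpp)
      (m1_ue hR hu qp.pos (mod_erg hR hφ hπ h hπφ (hTe q qp.pos)) u2 hqq)
  have h9 := HD.uo_smul hmain c⁻¹
  have e2 : (fun z => c⁻¹ * k z) = fun z => f z - ∫ y, f y ∂ν := by
    funext z
    rw [hkv, ← mul_assoc, inv_mul_cancel₀ hc0, one_mul]
  rw [e2] at h9
  exact h9

/-- **the theorem for uniquely ergodic models of towers** -/
theorem ITow.model {κ : Type} {lev : κ → ℕ} {ψ : κ → TX κ → UnitAddCircle} {μ : Measure (TX κ)} {T : TX κ → TX κ}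
    (hT : ITow lev ψ μ T) {φ : Z → TX κ} {π : TX κ → Z} [IsProbabilityMeasure ν] (hRc : Continuous R)
    (hR : MeasurePreserving R ν ν)
    (hu : ∀ ν' : Measure Z, IsProbabilityMeasure ν' → MeasurePreserving R ν' ν' → ν' = ν)
    (hφ : MeasurePreserving φ ν μ) (hπ : Measurable π) (h : ∀ᵐ z ∂ν, φ (R z) = T (φ z))
    (hπφ : ∀ᵐ z ∂ν, π (φ z) = z) (f : C(Z, ℂ)) : HD.UnifOrth R fun z => f z - ∫ y, f y ∂ν :=
  mod_main hT.Tmeas (fun _ hn => (hT.erg hn).2) (fun _ hF hb h0 => hT.sj hF hb h0) hRc hR hu hφ hπ h hπφ f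

end Mod

end Pool.Agent.Lib.MP_9fe581_an.AP
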