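import Pool.Agent.Lib.MP_9fe581_an.AP.Mod

/-! # AP, Mod2: the tower itself is uniquely ergodic -/

set_option autoImplicit false

open Finset MeasureTheory Filter Topology
open scoped ComplexConjugate ENNReal

namespace Pool.Agent.Lib.MP_9fe581_an.AP

open HT (TX mX)

variable {κ : Type} {lev : κ → ℕ} {ψ : κ → TX κ → UnitAddCircle} {ν : Measure (TX κ)} {T : TX κ → TX κ}

/-- the Haar measure is the only `T`-invariant Borel probability measure -/
theorem ITow.uniq (h : ITow lev ψ ν T) {ρ : Measure (TX κ)} (h1 : IsProbabilityMeasure ρ)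
    (hρ : MeasurePreserving T ρ ρ) : ρ = ν := by
  classical
  have := h.count
  have := h.prob
  refine cyl_ext (lev := lev) fun J => ?_
  have : Fintype (cutI lev J) := (h.fin J).fintype
  rw [(cut_meas (lev := lev) (J := J) h.haar).map_eq]
  have hr : Measurable (cutR lev J) := cutR_meas lev J
  have hpr : IsProbabilityMeasure (ρ.map (cutR lev J)) := Measure.isProbabilityMeasure_map hr.aemeasurable
  refine AH.uniq (cut lev J ψ h.meas h.dep).ah (Tow.nd_ah (h.cutND J)) (p := 1) one_pos (ρ.map (cutR lev J)) ?_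
  rw [Function.iterate_one]
  refine ⟨AH.TT_meas _, ?_⟩
  rw [Measure.map_map (AH.TT_meas _) hr]
  have e : AH.TT (cut lev J ψ h.meas h.dep).ah ∘ cutR lev J = cutR lev J ∘ T := funext fun x =>
    (cut_T (J := J) h.meas h.dep h.map x).symm
  rw [e, ← Measure.map_map hr h.Tmeas, hρ.map_eq]

/-- continuous towers -/
theorem ITow.cont (h : ITow lev ψ ν T) (hc : ∀ i, Continuous (ψ i)) (f : C(TX κ, ℂ)) :
    HD.UnifOrth T fun z => f z - ∫ y, f y ∂ν := by
  have := h.count
  have := h.prob
  have hT : Continuous T := by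
    refine continuous_pi fun i => ?_
    simp only [h.map]
    exact (continuous_apply i).add (hc i)
  exact h.model hT (h.erg one_pos).1 (fun ρ h1 h2 => h.uniq h1 h2) (φ := id) (π := id) (MeasurePreserving.id ν)
    measurable_id (Eventually.of_forall fun _ => rfl) (Eventually.of_forall fun _ => rfl) f

end Pool.Agent.Lib.MP_9fe581_an.AP
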