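import Pool.Agent.Lib.MP_9fe581_an.AP.Defs
import Pool.Agent.Lib.MP_9fe581_an.AH.Erg

/-!
# AP, N1: the basic facts about towers (adapter to the library AH)
-/

set_option autoImplicit false
set_option linter.unusedSectionVars false
set_option warn.classDefReducibility false

open Finset MeasureTheory Filter Topology ProbabilityTheory
open scoped ComplexConjugate

namespace Pool.Agent.Lib.MP_9fe581_an.AP

/-! ### completed sub-σ-algebras -/

section General

variable {X : Type} [mX0 : MeasurableSpace X] {μ : Measure X}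

theorem cpl_le (D : SA X) : (cpl μ D).m ≤ mX0 := inf_le_left

theorem cpl_iff {D : SA X} {s : Set X} :
    MeasurableSet[(cpl μ D).m] s ↔ MeasurableSet s ∧ ∃ t, MeasurableSet[D.m] t ∧ s =ᵐ[μ] t :=
  MeasurableSpace.measurableSet_inf

theorem le_cpl {D : SA X} (hD : D.m ≤ mX0) : D.m ≤ (cpl μ D).m := fun s hs =>
  cpl_iff.2 ⟨hD s hs, s, hs, EventuallyEq.rfl⟩

theorem cpl_null {D : SA X} {s : Set X} (hs : MeasurableSet s) (h0 : μ s = 0) : MeasurableSet[(cpl μ D).m] s :=
  cpl_iff.2 ⟨hs, ∅, @MeasurableSet.empty _ D.m, by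
    rw [ae_eq_empty]; exact h0⟩

/-- the conditional expectations over the completed and the raw σ-algebra agree -/
theorem condExp_cpl [IsProbabilityMeasure μ] {D : SA X} (hD : D.m ≤ mX0) {f : X → ℂ} (hf : Integrable f μ) :
    μ[f | (cpl μ D).m] =ᵐ[μ] μ[f | D.m] := by
  refine (ae_eq_condExp_of_forall_setIntegral_eq (cpl_le D) hf (fun s _ _ => integrable_condExp.integrableOn) (fun s hs _ => ?_)
    ?_).symm
  · obtain ⟨-, t, ht, hst⟩ := cpl_iff.1 hs
    rw [setIntegral_congr_set hst, setIntegral_congr_set hst, setIntegral_condExp hD hf ht]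
  · exact (stronglyMeasurable_condExp.mono (le_cpl hD)).aestronglyMeasurable

/-- a Borel function almost everywhere equal to a `D`-measurable function is measurable for the completed σ-algebra -/
theorem cpl_of_ae {E : Type} [MeasurableSpace E] {D : SA X} {f g : X → E} (hf : Measurable f) (hg : Measurable[D.m] g)
    (h : f =ᵐ[μ] g) : Measurable[(cpl μ D).m] f := fun t ht =>
  cpl_iff.2 ⟨hf ht, g ⁻¹' t, hg ht, by
    filter_upwards [h] with x hx
    show (f x ∈ t) = (g x ∈ t)
    rw [hx]⟩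

/-- a function measurable for the completed σ-algebra is almost everywhere equal to its conditional expectation -/
theorem ae_of_cpl [IsProbabilityMeasure μ] {D : SA X} (hD : D.m ≤ mX0) {f : X → ℂ} (hf : Bd f) (h : Measurable[(cpl μ D).m] f) :
    f =ᵐ[μ] μ[f | D.m] := by
  obtain ⟨C, hC⟩ := hf.bdd
  have hi : Integrable f μ := (AH.BM.of_bdd hf.meas hC).integrable
  have h1 := condExp_of_stronglyMeasurable (μ := μ) (cpl_le D) h.stronglyMeasurable hi
  have h2 := condExp_cpl (μ := μ) hD hi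
  rw [h1] at h2
  exact h2

theorem cpl_mono {D D' : SA X} (h : D.m ≤ D'.m) : (cpl μ D).m ≤ (cpl μ D').m := fun s hs => by
  obtain ⟨h1, t, ht, hst⟩ := cpl_iff.1 hs
  exact cpl_iff.2 ⟨h1, t, h t ht, hst⟩

theorem cpl_cpl (D : SA X) : (cpl μ (cpl μ D)).m = (cpl μ D).m := by
  refine le_antisymm (fun s hs => ?_) (le_cpl (cpl_le D))
  obtain ⟨h1, t, ht, hst⟩ := cpl_iff.1 hs
  obtain ⟨-, u, hu, htu⟩ := cpl_iff.1 ht
  exact cpl_iff.2 ⟨h1, u, hu, hst.trans htu⟩

/-- the completion of an invariant σ-algebra is a factor -/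
theorem cpl_fac {D : SA X} {S R : X → X} (hS : MeasurePreserving S μ μ) (hR : MeasurePreserving R μ μ) (_hSR : ∀ x, S (R x) = x)
    (hRS : ∀ x, R (S x) = x) (h1 : ∀ s, MeasurableSet[D.m] s → MeasurableSet[(cpl μ D).m] (S ⁻¹' s))
    (h2 : ∀ s, MeasurableSet[D.m] s → MeasurableSet[(cpl μ D).m] (R ⁻¹' s)) : Fac μ S (cpl μ D) := by
  refine ⟨fun s hs => cpl_le D s hs, fun s hs h0 => cpl_null hs h0, le_antisymm ?_ fun s hs => ?_⟩
  · rintro _ ⟨s, hs, rfl⟩
    obtain ⟨a, t, ht, hst⟩ := cpl_iff.1 hs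
    obtain ⟨-, u, hu, htu⟩ := cpl_iff.1 (h1 t ht)
    exact cpl_iff.2 ⟨hS.measurable a, u, hu, (hS.quasiMeasurePreserving.preimage_ae_eq hst).trans htu⟩
  · refine ⟨R ⁻¹' s, ?_, ?_⟩
    · obtain ⟨a, t, ht, hst⟩ := cpl_iff.1 hs
      obtain ⟨-, u, hu, htu⟩ := cpl_iff.1 (h2 t ht)
      exact cpl_iff.2 ⟨hR.measurable a, u, hu, (hR.quasiMeasurePreserving.preimage_ae_eq hst).trans htu⟩
    · rw [← Set.preimage_comp]
      have : R ∘ S = id := funext hRS
      rw [this, Set.preimage_id]

end General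

open HT (TX mX ch)

variable {κ : Type} [Fintype κ] (W : Tow κ)

/-- the same tower in the library AH -/
def Tow.ah {κ : Type} (W : Tow κ) : AH.Tow κ := ⟨W.lev, W.ψ, W.meas, W.dep⟩

theorem Tow.T_eq : W.T = AH.TT W.ah := rfl

theorem Tow.T_meas : Measurable W.T := by
  classical
  exact AH.TT_meas W.ah

theorem Tow.T_pres : MeasurePreserving W.T (mX κ) (mX κ) := by
  classical
  exact AH.TT_pres W.ah

variable {W}

theorem Tow.nd_ah (hW : W.ND) : AH.ND W.ah := by
  classical
  refine ⟨fun m hm hm0 h1 => ?_, fun j m hm hmj => ?_⟩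
  · exact hW.base m hm hm0 (FT.ec_eq_one h1)
  · obtain ⟨b, hb, hn⟩ := hW.nd j m hm hmj
    refine ⟨b, fun w w1 w2 w3 h => hn ⟨w, w1, w2, fun x y hxy => w3 x y fun i hi => hxy i (Nat.lt_succ_iff.1 hi), ?_⟩⟩
    have hlp : AH.lp W.ah j b = b := by
      funext i
      unfold AH.lp
      by_cases h : W.ah.lev i = j
      · rw [if_pos h]
      · rw [if_neg h]
        by_contra h0
        exact h (hb i (Ne.symm h0))
    rw [hlp] at h
    filter_upwards [h] with x hx
    have e : FT.ec (W.coc m (x + b) - W.coc m x) = ch m (fun i => W.ah.ψ i (x + b) - W.ah.ψ i x) := by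
      show FT.ec (FT.pr m (fun i => W.ψ i (x + b)) - FT.pr m fun i => W.ψ i x) = FT.ec (FT.pr m _)
      congr 1
      rw [sub_eq_iff_eq_add, ← FT.pr_add_right]
      congr 1
      funext i
      show W.ψ i (x + b) = (W.ψ i (x + b) - W.ψ i x) + W.ψ i x
      rw [sub_add_cancel]
    rw [e]
    exact hx.symm

variable (W)

/-! ### the inverse -/

/-- approximations of the inverse -/
private noncomputable def inv1 : ℕ → TX κ → TX κ
  | 0 => fun _ => 0
  | n + 1 => fun x i => x i - W.ψ i (inv1 n x)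

/-- the inverse of `T` -/
noncomputable def Tow.R : TX κ → TX κ := inv1 W (∑ i, W.lev i + 1)

private theorem inv1_meas (n : ℕ) : Measurable (inv1 W n) := by
  induction n with
  | zero => exact measurable_const
  | succ n ih => exact measurable_pi_lambda _ fun i => (measurable_pi_apply i).sub ((W.meas i).comp ih)

private theorem inv1_stab (n : ℕ) (x : TX κ) : ∀ i, W.lev i < n → inv1 W (n + 1) x i = inv1 W n x i := by
  induction n with
  | zero => intro i hi; exact absurd hi (Nat.not_lt_zero _)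
  | succ n ih =>
    intro i hi
    show x i - W.ψ i (inv1 W (n + 1) x) = x i - W.ψ i (inv1 W n x)
    rw [W.dep i (inv1 W (n + 1) x) (inv1 W n x) fun l hl => ih l (by omega)]

private theorem inv1_left (n : ℕ) (x : TX κ) : ∀ i, W.lev i < n → inv1 W n (W.T x) i = x i := by
  induction n with
  | zero => intro i hi; exact absurd hi (Nat.not_lt_zero _)
  | succ n ih =>
    intro i hi
    show (x i + W.ψ i x) - W.ψ i (inv1 W n (W.T x)) = x i
    rw [W.dep i (inv1 W n (W.T x)) x fun l hl => ih l (by omega), add_sub_cancel_right]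

private theorem inv1_low (n a : ℕ) (x y : TX κ) (h : ∀ i, W.lev i < a → x i = y i) : ∀ i, W.lev i < a → inv1 W n x i = inv1 W n y i := by
  induction n with
  | zero => intro i _; rfl
  | succ n ih =>
    intro i hi
    show x i - W.ψ i (inv1 W n x) = y i - W.ψ i (inv1 W n y)
    rw [h i hi, W.dep i (inv1 W n x) (inv1 W n y) fun l hl => ih l (hl.trans hi)]

theorem lev_lt (i : κ) : W.lev i < ∑ i, W.lev i + 1 :=
  Nat.lt_succ_of_le (single_le_sum (f := W.lev) (fun _ _ => Nat.zero_le _) (mem_univ i))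

theorem Tow.R_meas : Measurable W.R := inv1_meas W _

theorem Tow.T_R (x : TX κ) : W.T (W.R x) = x := by
  funext i
  have h := inv1_stab W (∑ i, W.lev i + 1) x i (lev_lt W i)
  show W.R x i + W.ψ i (W.R x) = x i
  have h2 : inv1 W (∑ i, W.lev i + 1 + 1) x i = x i - W.ψ i (W.R x) := rfl
  rw [h2] at h
  have h3 : W.R x i = x i - W.ψ i (W.R x) := h.symm
  rw [h3, sub_add_cancel]

theorem Tow.R_T (x : TX κ) : W.R (W.T x) = x := funext fun i => inv1_left W _ x i (lev_lt W i)

theorem Tow.R_low (a : ℕ) (x y : TX κ) (h : ∀ i, W.lev i < a → x i = y i) : ∀ i, W.lev i < a → W.R x i = W.R y i :=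
  inv1_low W _ a x y h

theorem Tow.R_pres : MeasurePreserving W.R (mX κ) (mX κ) := by
  refine ⟨(Tow.R_meas W), ?_⟩
  have h := (Tow.T_pres W).map_eq
  conv_lhs => rw [← h]
  rw [Measure.map_map (Tow.R_meas W) (Tow.T_meas W)]
  have : W.R ∘ W.T = id := funext (Tow.R_T W)
  rw [this, Measure.map_id]

variable {W}

/-- N0: every power is an invertible ergodic system -/
theorem Tow.sys (hW : W.ND) {n : ℕ} (hn : 0 < n) : Sys (mX κ) W.T^[n] := by
  classical
  refine ⟨AH.erg W.ah (Tow.nd_ah hW) hn, W.R^[n], ((Tow.R_meas W).iterate n), fun x => ?_, fun x => ?_⟩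
  · exact (Function.LeftInverse.iterate (Tow.T_R W) n) x
  · exact (Function.LeftInverse.iterate (Tow.R_T W) n) x

variable (W)

/-! ### the σ-algebras `Y_h` -/

/-- the raw σ-algebra of the coordinates of level `< h` -/
def Tow.Y0 (h : ℕ) : SA (TX κ) :=
  ⟨⨆ i : {i : κ // W.lev i < h}, MeasurableSpace.comap (fun x : TX κ => x i.1) inferInstance⟩

theorem Tow.Y_eq (h : ℕ) : W.Y h = cpl (mX κ) (W.Y0 h) := rfl

theorem Tow.Y0_le (h : ℕ) : (W.Y0 h).m ≤ MeasurableSpace.pi := iSup_le fun i => (measurable_pi_apply i.1).comap_le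

theorem Tow.Y_le (h : ℕ) : (W.Y h).m ≤ MeasurableSpace.pi := cpl_le _

theorem Tow.Y0_mono {h h' : ℕ} (hh : h ≤ h') : (W.Y0 h).m ≤ (W.Y0 h').m :=
  iSup_le fun i => le_iSup (fun i : {i : κ // W.lev i < h'} => MeasurableSpace.comap (fun x : TX κ => x i.1) inferInstance)
    ⟨i.1, i.2.trans_le hh⟩

theorem Tow.Y_mono {h h' : ℕ} (hh : h ≤ h') : (W.Y h).m ≤ (W.Y h').m := cpl_mono (Tow.Y0_mono W hh)

/-- the projection to the coordinates of level `< h` is measurable for the raw σ-algebra -/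
private theorem proj_meas (h : ℕ) : @Measurable _ _ (W.Y0 h).m MeasurableSpace.pi (fun x : TX κ => AH.mixa W.ah h x 0) := by
  refine @measurable_pi_iff _ _ _ (W.Y0 h).m _ _ |>.2 fun i => ?_
  by_cases hi : W.lev i < h
  · have e : (fun x : TX κ => AH.mixa W.ah h x 0 i) = fun x => x i := funext fun x => if_pos hi
    rw [e]
    have h1 : MeasurableSpace.comap (fun x : TX κ => x i) inferInstance ≤ (W.Y0 h).m :=
      le_iSup (fun i : {i : κ // W.lev i < h} => MeasurableSpace.comap (fun x : TX κ => x i.1) inferInstance) ⟨i, hi⟩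
    exact measurable_iff_comap_le.2 h1
  · have e : (fun x : TX κ => AH.mixa W.ah h x 0 i) = fun _ => 0 := funext fun x => if_neg hi
    rw [e]
    exact @measurable_const _ _ _ (W.Y0 h).m _

/-- a Borel function of the coordinates of level `< h` -/
theorem Tow.Y0_of_low {E : Type} [MeasurableSpace E] {h : ℕ} {f : TX κ → E} (hf : Measurable f) (hl : AH.Low W.ah h f) :
    Measurable[(W.Y0 h).m] f := by
  classical
  have e : f = f ∘ fun x => AH.mixa W.ah h x 0 := funext fun x => (AH.mixa_low W.ah hl x 0).symm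
  rw [e]
  exact hf.comp (proj_meas W h)

theorem Tow.Y_of_low {E : Type} [MeasurableSpace E] {h : ℕ} {f : TX κ → E} (hf : Measurable f) (hl : AH.Low W.ah h f) :
    Measurable[(W.Y h).m] f := fun _ ht => le_cpl (Tow.Y0_le W h) _ (Tow.Y0_of_low W hf hl ht)

/-- a Borel function almost everywhere equal to a function of the coordinates of level `< h` -/
theorem Tow.Y_of_ae {E : Type} [MeasurableSpace E] {h : ℕ} {f g : TX κ → E} (hf : Measurable f) (hg : Measurable g)
    (hl : AH.Low W.ah h g) (hfg : f =ᵐ[mX κ] g) : Measurable[(W.Y h).m] f :=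
  cpl_of_ae hf (Tow.Y0_of_low W hg hl) hfg

theorem Tow.low_of_Y0 {h : ℕ} {s : Set (TX κ)} (hs : MeasurableSet[(W.Y0 h).m] s) {x y : TX κ}
    (hxy : ∀ i, W.lev i < h → x i = y i) : x ∈ s ↔ y ∈ s := by
  have h1 : (W.Y0 h).m ≤ MeasurableSpace.comap (fun x : TX κ => AH.mixa W.ah h x 0) MeasurableSpace.pi := by
    refine iSup_le fun i => ?_
    rintro _ ⟨t, ht, rfl⟩
    refine ⟨(fun x : TX κ => x i.1) ⁻¹' t, measurable_pi_apply i.1 ht, ?_⟩
    ext x
    show AH.mixa W.ah h x 0 i.1 ∈ t ↔ x i.1 ∈ t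
    have : AH.mixa W.ah h x 0 i.1 = x i.1 := if_pos i.2
    rw [this]
  obtain ⟨t, -, rfl⟩ := h1 s hs
  have e : AH.mixa W.ah h x 0 = AH.mixa W.ah h y 0 := by
    funext i
    unfold AH.mixa
    by_cases hi : W.ah.lev i < h
    · rw [if_pos hi, if_pos hi, hxy i hi]
    · rw [if_neg hi, if_neg hi]
  show AH.mixa W.ah h x 0 ∈ t ↔ AH.mixa W.ah h y 0 ∈ t
  rw [e]

/-- **the conditional expectation over `Y_h` is the average over the coordinates of level `≥ h`** -/
theorem Tow.ce_Y (h : ℕ) {f : TX κ → ℂ} (hf : Bd f) : ce (mX κ) (W.Y h) f =ᵐ[mX κ] AH.AV W.ah h f := by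
  classical
  obtain ⟨C, hC⟩ := hf.bdd
  have hi : Integrable f (mX κ) := (AH.BM.of_bdd hf.meas hC).integrable
  refine (condExp_cpl (Tow.Y0_le W h) hi).trans ?_
  have hAi : Integrable (AH.AV W.ah h f) (mX κ) := (AH.BM.of_bdd (AH.AV_meas W.ah h hf.meas) (AH.AV_le W.ah h hC)).integrable
  refine (ae_eq_condExp_of_forall_setIntegral_eq (Tow.Y0_le W h) hi (fun s _ _ => hAi.integrableOn) (fun s hs _ => ?_) ?_).symm
  · have hsb : MeasurableSet s := Tow.Y0_le W h s hs
    have hul : AH.Low W.ah h (s.indicator fun _ => (1 : ℂ)) := by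
      intro x y hxy
      rw [Set.indicator_apply, Set.indicator_apply]
      have := Tow.low_of_Y0 W hs hxy
      simp only [this]
    have h2 := AH.AV_int W.ah hul (measurable_const.indicator hsb) (C := 1)
      (fun x => by rw [Set.indicator_apply]; split_ifs <;> simp) hf.meas hi
    have e : ∀ g : TX κ → ℂ, ∫ x in s, g x ∂mX κ = ∫ x, g x * conj (s.indicator (fun _ => (1 : ℂ)) x) ∂mX κ := by
      intro g
      rw [← integral_indicator hsb]
      refine integral_congr_ae (Eventually.of_forall fun x => ?_)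
      show s.indicator (fun x => g x) x = g x * conj (s.indicator (fun _ => (1 : ℂ)) x)
      rw [Set.indicator_apply, Set.indicator_apply]
      split_ifs <;> simp
    rw [e, e, h2]
  · exact (Tow.Y0_of_low W (AH.AV_meas W.ah h hf.meas) (AH.AV_low W.ah h f)).stronglyMeasurable.aestronglyMeasurable

/-- bounded `Y_h`-measurable functions are almost everywhere equal to functions of the coordinates of level `< h` -/
theorem Tow.low_of_Y {h : ℕ} {f : TX κ → ℂ} (hf : Bd f) (hY : Measurable[(W.Y h).m] f) : f =ᵐ[mX κ] AH.AV W.ah h f := by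
  obtain ⟨C, hC⟩ := hf.bdd
  have hi : Integrable f (mX κ) := (AH.BM.of_bdd hf.meas hC).integrable
  have h1 := condExp_of_stronglyMeasurable (μ := mX κ) (Tow.Y_le W h) hY.stronglyMeasurable hi
  have h2 := Tow.ce_Y W h hf
  unfold ce at h2
  rw [h1] at h2
  exact h2

/-- everything Borel is measurable for the top level -/
theorem Tow.Y_top {E : Type} [MeasurableSpace E] {f : TX κ → E} (hf : Measurable f) :
    Measurable[(W.Y (∑ i, W.lev i + 1)).m] f := by
  classical
  exact Tow.Y_of_low W hf (AH.low_top W.ah f)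

theorem Tow.Y_fac (h : ℕ) : Fac (mX κ) W.T (W.Y h) := by
  classical
  refine cpl_fac (Tow.T_pres W) (Tow.R_pres W) (Tow.T_R W) (Tow.R_T W) (fun s hs => ?_) fun s hs => ?_
  · refine le_cpl (Tow.Y0_le W h) _ ?_
    have h1 : AH.Low W.ah h (fun x => W.T x ∈ s) := fun x y hxy =>
      propext (Tow.low_of_Y0 W hs fun i hi => AH.iter_low W.ah 1 h x y hxy i hi)
    have h2 : Measurable fun x => W.T x ∈ s := (Tow.T_meas W) (Tow.Y0_le W h s hs) |>.mem
    have h3 := Tow.Y0_of_low W h2 h1
    exact (@measurableSet_setOfPred _ (W.Y0 h).m _).2 h3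
  · refine le_cpl (Tow.Y0_le W h) _ ?_
    have h1 : AH.Low W.ah h (fun x => W.R x ∈ s) := fun x y hxy =>
      propext (Tow.low_of_Y0 W hs fun i hi => Tow.R_low W h x y hxy i hi)
    have h2 : Measurable fun x => W.R x ∈ s := (Tow.R_meas W) (Tow.Y0_le W h s hs) |>.mem
    have h3 := Tow.Y0_of_low W h2 h1
    exact (@measurableSet_setOfPred _ (W.Y0 h).m _).2 h3

/-! ### modes -/

theorem Tow.ch_T (m : κ →₀ ℤ) (x : TX κ) : ch m (W.T x) = ch m x * FT.ec (W.coc m x) := by
  classical
  have : W.T x = x + fun i => W.ψ i x := rfl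
  rw [this, HT.ch_add_right]
  rfl

variable {W}

theorem Tow.coc_Y {h : ℕ} {m : κ →₀ ℤ} (hm : W.On h m) : Measurable[(W.Y h).m] (W.coc m) := by
  classical
  refine Tow.Y_of_low W ((FT.continuous_pr m).measurable.comp (measurable_pi_lambda _ fun i => W.meas i)) fun x y hxy => ?_
  exact FT.pr_congr m _ _ fun i hi => W.dep i x y fun l hl => hxy l (by rw [hm i hi] at hl; exact hl)

theorem Tow.ch_Y {h : ℕ} {m : κ →₀ ℤ} (hm : W.On h m) : Measurable[(W.Y (h + 1)).m] (ch m) := by
  classical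
  refine Tow.Y_of_low W (HT.ch_cont m).measurable fun x y hxy => ?_
  show FT.ec (FT.pr m x) = FT.ec (FT.pr m y)
  rw [FT.pr_congr m _ _ fun i hi => hxy i (by show W.lev i < h + 1; rw [hm i hi]; exact Nat.lt_succ_self h)]

theorem Tow.Mode_Y {h : ℕ} {m : κ →₀ ℤ} (hm : W.On h m) {f : TX κ → ℂ} (hf : W.Mode h m f) : Measurable[(W.Y (h + 1)).m] f := by
  classical
  have e : f = fun x => ch m x * (conj (ch m x) * f x) := by
    funext x
    rw [← mul_assoc, AH.unim_mul _ (HT.ch_norm _ _), one_mul]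
  rw [e]
  exact (Tow.ch_Y hm).mul (hf.mono (Tow.Y_mono W (Nat.le_succ h)) le_rfl)

/-- a character of the level `h` has no conditional expectation over `Y_h` -/
theorem Tow.ce_ch {h : ℕ} {m : κ →₀ ℤ} (hm : W.On h m) (hm0 : m ≠ 0) : ce (mX κ) (W.Y h) (ch m) =ᵐ[mX κ] 0 := by
  classical
  refine (Tow.ce_Y W h ⟨(HT.ch_cont m).measurable, 1, fun x => (HT.ch_norm m x).le⟩).trans (Eventually.of_forall fun x => ?_)
  show ∫ y, ch m (AH.mixa W.ah h x y) ∂mX κ = 0
  have e : ∀ y, ch m (AH.mixa W.ah h x y) = ch m y := by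
    intro y
    have e1 : FT.pr m (AH.mixa W.ah h x y) = FT.pr m y :=
      FT.pr_congr m _ y fun i hi => if_neg (show ¬ W.lev i < h by rw [hm i hi]; exact lt_irrefl h)
    show FT.ec (FT.pr m _) = FT.ec (FT.pr m y)
    rw [e1]
  simp only [e]
  rw [HT.ch_int, if_neg hm0]

/-- a function of level `< h + 1` with no components in the modes of the level `h` is `0` -/
theorem Tow.mode_zero {h : ℕ} {f : TX κ → ℂ} (hf : Bd f) (hY : Measurable[(W.Y (h + 1)).m] f)
    (h0 : ∀ m, W.On h m → ce (mX κ) (W.Y h) (fun x => f x * conj (ch m x)) =ᵐ[mX κ] 0) : f =ᵐ[mX κ] 0 := by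
  classical
  obtain ⟨C, hC⟩ := hf.bdd
  have hB : AH.BM (mX κ) f := AH.BM.of_bdd hf.meas hC
  refine AH.hat_zero hB fun n => ?_
  have hfg := Tow.low_of_Y W hf hY
  by_cases hn : ∃ i, n i ≠ 0 ∧ h + 1 ≤ W.lev i
  · have e : AH.hat f n = AH.hat (AH.AV W.ah (h + 1) f) n := by
      refine integral_congr_ae ?_
      filter_upwards [hfg] with x hx
      rw [← hx]
    rw [e]
    exact AH.hat_low W.ah (AH.AV_low W.ah (h + 1) f) n hn
  · push Not at hn
    set m : κ →₀ ℤ := n.filter fun i => ¬ W.lev i < h with hm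
    set n' : κ →₀ ℤ := n.filter fun i => W.lev i < h with hn'
    have hsum : n' + m = n := Finsupp.filter_add_filter_not n _
    have hmOn : W.On h m := by
      intro i hi
      rw [hm, Finsupp.filter_apply] at hi
      by_cases h1 : W.lev i < h
      · rw [if_neg (not_not.2 h1)] at hi
        exact absurd rfl hi
      · rw [if_pos h1] at hi
        have := hn i hi
        omega
    have hn'l : AH.Low W.ah h (ch n') := by
      intro x y hxy
      show FT.ec (FT.pr n' x) = FT.ec (FT.pr n' y)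
      congr 1
      refine FT.pr_congr n' x y fun i hi => hxy i ?_
      rw [hn', Finsupp.filter_apply] at hi
      by_contra h1
      have h1' : ¬ W.lev i < h := h1
      rw [if_neg h1'] at hi
      exact hi rfl
    have hfm : Bd fun x => f x * conj (ch m x) := by
      refine ⟨hf.meas.mul (Complex.continuous_conj.measurable.comp (HT.ch_cont m).measurable), C, fun x => ?_⟩
      rw [norm_mul, RCLike.norm_conj, HT.ch_norm, mul_one]; exact hC x
    obtain ⟨C', hC'⟩ := hfm.bdd
    have e1 : AH.hat f n = ∫ x, AH.AV W.ah h (fun x => f x * conj (ch m x)) x * conj (ch n' x) ∂mX κ := by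
      rw [AH.AV_int W.ah hn'l (HT.ch_cont n').measurable (C := 1) (fun x => (HT.ch_norm _ _).le) hfm.meas
        (AH.BM.of_bdd hfm.meas hC').integrable]
      refine integral_congr_ae (Eventually.of_forall fun x => ?_)
      dsimp only
      rw [← hsum, HT.ch_add, map_mul]
      ring
    have e2 : (fun x => AH.AV W.ah h (fun x => f x * conj (ch m x)) x * conj (ch n' x)) =ᵐ[mX κ] fun _ => 0 := by
      filter_upwards [(Tow.ce_Y W h hfm).symm.trans (h0 m hmOn)] with x hx
      rw [hx]; simp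
    rw [e1, integral_congr_ae e2, integral_zero]

end Pool.Agent.Lib.MP_9fe581_an.AP
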