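import Pool.Agent.Lib.MP_9fe581_an.AP.QG

/-! # AP, QC1: joinings whose marginals are countable combinations of ergodic measures -/

set_option autoImplicit false

open Finset MeasureTheory Filter Topology
open scoped ComplexConjugate ENNReal NNReal

namespace Pool.Agent.Lib.MP_9fe581_an.AP

/-- all ergodic joinings of `T^p` and `T'^q`, `p ≠ q` large primes, are small on `F ⊗ conj F'` -/
def SJ2 {X X' : Type} [MeasurableSpace X] [MeasurableSpace X'] (μ : Measure X) (T : X → X) (F : X → ℂ)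
    (μ' : Measure X') (T' : X' → X') (F' : X' → ℂ) : Prop :=
  ∀ ε : ℝ, 0 < ε → ∃ q0 : ℕ, ∀ p q : ℕ, p.Prime → q.Prime → p ≠ q → q0 ≤ p → q0 ≤ q → ∀ lam : Measure (X × X'),
    IsProbabilityMeasure lam → Ergodic (Prod.map T^[p] T'^[q]) lam → lam.map Prod.fst = μ → lam.map Prod.snd = μ' →
      ‖∫ z, F z.1 * conj (F' z.2) ∂lam‖ ≤ ε

variable {X : Type} [TopologicalSpace X] [CompactSpace X] [TopologicalSpace.MetrizableSpace X]
    [MeasurableSpace X] [BorelSpace X]

/-- the complex form -/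
theorem join2_cplx {ν ν' : Measure X} [IsProbabilityMeasure ν] [IsProbabilityMeasure ν'] {A B : X → X}
    (hA : Continuous A) (hB : Continuous B) (eA : Ergodic A ν) (eB : Ergodic B ν') (ρ : Measure (X × X))
    (hρ1 : IsProbabilityMeasure ρ) (hρ : MeasurePreserving (Prod.map A B) ρ ρ) (hρ2 : ρ.map Prod.fst = ν)
    (hρ3 : ρ.map Prod.snd = ν') (F : C(X × X, ℂ)) (a : ℝ) (h : ∀ lam : Measure (X × X), IsProbabilityMeasure lam →
      Ergodic (Prod.map A B) lam → lam.map Prod.fst = ν → lam.map Prod.snd = ν' → ‖∫ w, F w ∂lam‖ ≤ a) :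
    ‖∫ w, F w ∂ρ‖ ≤ 2 * a := by
  have hint : ∀ lam : Measure (X × X), IsProbabilityMeasure lam → Integrable (fun w => F w) lam := by
    intro lam hl
    exact (BoundedContinuousFunction.mkOfCompact F).integrable lam
  have hre : ∀ lam : Measure (X × X), IsProbabilityMeasure lam → ∫ w, (F w).re ∂lam = (∫ w, F w ∂lam).re := by
    intro lam hl
    exact integral_re (hint lam hl)
  have him : ∀ lam : Measure (X × X), IsProbabilityMeasure lam → ∫ w, (F w).im ∂lam = (∫ w, F w ∂lam).im := by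
    intro lam hl
    exact integral_im (hint lam hl)
  have g1 : (∫ w, F w ∂ρ).re ≤ a := by
    obtain ⟨lam, l1, l2, l3, l4, l5⟩ := exists_ergodic_join2 hA hB eA eB ρ hρ1 hρ hρ2 hρ3
      ⟨fun w => (F w).re, Complex.continuous_re.comp F.continuous⟩
    have l5' : ∫ w, (F w).re ∂ρ ≤ ∫ w, (F w).re ∂lam := l5
    rw [hre ρ hρ1, hre lam l1] at l5'
    exact l5'.trans ((Complex.re_le_norm _).trans (h lam l1 l2 l3 l4))
  have g2 : -(∫ w, F w ∂ρ).re ≤ a := by
    obtain ⟨lam, l1, l2, l3, l4, l5⟩ := exists_ergodic_join2 hA hB eA eB ρ hρ1 hρ hρ2 hρ3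
      ⟨fun w => -(F w).re, (Complex.continuous_re.comp F.continuous).neg⟩
    have l5' : ∫ w, -(F w).re ∂ρ ≤ ∫ w, -(F w).re ∂lam := l5
    rw [integral_neg, integral_neg, hre ρ hρ1, hre lam l1] at l5'
    exact l5'.trans (((neg_le_abs _).trans (Complex.abs_re_le_norm _)).trans (h lam l1 l2 l3 l4))
  have g3 : (∫ w, F w ∂ρ).im ≤ a := by
    obtain ⟨lam, l1, l2, l3, l4, l5⟩ := exists_ergodic_join2 hA hB eA eB ρ hρ1 hρ hρ2 hρ3
      ⟨fun w => (F w).im, Complex.continuous_im.comp F.continuous⟩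
    have l5' : ∫ w, (F w).im ∂ρ ≤ ∫ w, (F w).im ∂lam := l5
    rw [him ρ hρ1, him lam l1] at l5'
    exact l5'.trans ((Complex.im_le_norm _).trans (h lam l1 l2 l3 l4))
  have g4 : -(∫ w, F w ∂ρ).im ≤ a := by
    obtain ⟨lam, l1, l2, l3, l4, l5⟩ := exists_ergodic_join2 hA hB eA eB ρ hρ1 hρ hρ2 hρ3
      ⟨fun w => -(F w).im, (Complex.continuous_im.comp F.continuous).neg⟩
    have l5' : ∫ w, -(F w).im ∂ρ ≤ ∫ w, -(F w).im ∂lam := l5
    rw [integral_neg, integral_neg, him ρ hρ1, him lam l1] at l5'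
    exact l5'.trans (((neg_le_abs _).trans (Complex.abs_im_le_norm _)).trans (h lam l1 l2 l3 l4))
  have h0 := Complex.norm_le_abs_re_add_abs_im (∫ w, F w ∂ρ)
  have h5 : |(∫ w, F w ∂ρ).re| ≤ a := abs_le.2 ⟨by linarith, g1⟩
  have h6 : |(∫ w, F w ∂ρ).im| ≤ a := abs_le.2 ⟨by linarith, g3⟩
  linarith

/-- domination on continuous functions is domination -/
theorem qc_le {σ ν : Measure X} [IsFiniteMeasure σ] [IsFiniteMeasure ν] {C : ℝ} (hC : 0 ≤ C)
    (h : ∀ g : C(X, ℝ), (∀ x, 0 ≤ g x) → ∫ x, g x ∂σ ≤ C * ∫ x, g x ∂ν) : σ ≤ ENNReal.ofReal C • ν := by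
  let _ : MetricSpace X := TopologicalSpace.metrizableSpaceMetric X
  rw [Measure.le_iff]
  intro s hs
  rw [hs.measure_eq_iSup_isClosed_of_ne_top (measure_ne_top σ s)]
  refine iSup_le fun K => iSup_le fun hKs => iSup_le fun hK => ?_
  have hlim := HasOuterApproxClosed.tendsto_lintegral_apprSeq hK ν
  have hlim2 := ENNReal.Tendsto.const_mul (a := ENNReal.ofReal C) hlim (Or.inr ENNReal.ofReal_ne_top)
  have hb : ∀ n, σ K ≤ ENNReal.ofReal C * ∫⁻ x, (hK.apprSeq n x : ℝ≥0∞) ∂ν := by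
    intro n
    refine (HasOuterApproxClosed.measure_le_lintegral hK σ n).trans ?_
    set g : C(X, ℝ) := ⟨fun x => (hK.apprSeq n x : ℝ), by fun_prop⟩ with hg
    have hi : ∀ τ : Measure X, IsFiniteMeasure τ → Integrable (fun x => ((hK.apprSeq n x : ℝ≥0) : ℝ)) τ := by
      intro τ hτ
      refine Integrable.of_bound g.continuous.measurable.aestronglyMeasurable 1 (Eventually.of_forall fun x => ?_)
      have h1 := HasOuterApproxClosed.apprSeq_apply_le_one hK n x
      rw [Real.norm_of_nonneg (NNReal.coe_nonneg _)]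
      exact_mod_cast h1
    rw [lintegral_coe_eq_integral _ (hi σ inferInstance), lintegral_coe_eq_integral _ (hi ν inferInstance),
      ← ENNReal.ofReal_mul hC]
    exact ENNReal.ofReal_le_ofReal (h g fun x => NNReal.coe_nonneg _)
  refine (ge_of_tendsto' hlim2 hb).trans ?_
  rw [Measure.smul_apply, smul_eq_mul]
  gcongr

end Pool.Agent.Lib.MP_9fe581_an.AP
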