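import Pool.Agent.Lib.MP_9fe581_an.AP.QC1

/-! # AP, QC2: countable families of ergodic measures: invariant sets, joinings cell by cell -/

set_option autoImplicit false

open Finset MeasureTheory Filter Topology
open scoped ComplexConjugate ENNReal NNReal

namespace Pool.Agent.Lib.MP_9fe581_an.AP

section Sets

variable {X : Type} [MeasurableSpace X] {R : X → X}

/-- two different ergodic probability measures are mutually singular -/
theorem erg_sing {a b : Measure X} [IsProbabilityMeasure a] [IsProbabilityMeasure b] (ha : Ergodic R a)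
    (hb : Ergodic R b) (hne : a ≠ b) : a ⟂ₘ b := by
  have hw : MeasurePreserving R (b.withDensity (a.rnDeriv b)) (b.withDensity (a.rnDeriv b)) :=
    ha.toMeasurePreserving.withDensity_rnDeriv hb.toMeasurePreserving
  have hwa : b.withDensity (a.rnDeriv b) ≤ a := Measure.withDensity_rnDeriv_le a b
  have hfin : IsFiniteMeasure (b.withDensity (a.rnDeriv b)) := isFiniteMeasure_of_le a hwa
  have hwb : b.withDensity (a.rnDeriv b) ≪ b := withDensity_absolutelyContinuous _ _
  have hwa' : b.withDensity (a.rnDeriv b) ≪ a := Measure.absolutelyContinuous_of_le hwa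
  obtain ⟨c, hc⟩ := hb.eq_smul_of_absolutelyContinuous hw hwb
  obtain ⟨c', hc'⟩ := ha.eq_smul_of_absolutelyContinuous hw hwa'
  have e1 : (b.withDensity (a.rnDeriv b)) Set.univ = c := by
    rw [hc, Measure.smul_apply, measure_univ, smul_eq_mul, mul_one]
  have e2 : (b.withDensity (a.rnDeriv b)) Set.univ = c' := by
    rw [hc', Measure.smul_apply, measure_univ, smul_eq_mul, mul_one]
  have e3 : c = c' := e1.symm.trans e2
  rw [← Measure.withDensity_rnDeriv_eq_zero]
  by_contra hcon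
  have hc0 : c ≠ 0 := by
    rintro rfl
    rw [zero_smul] at hc
    exact hcon hc
  have hct : c ≠ ∞ := by
    rw [← e1]
    exact measure_ne_top _ _
  apply hne
  ext s hs
  have h1 : c * b s = c * a s := by
    have h2 := congrArg (fun m : Measure X => m s) (hc.symm.trans hc')
    simp only [Measure.smul_apply, smul_eq_mul] at h2
    rw [h2, e3]
  exact ((ENNReal.mul_right_inj hc0 hct).1 h1).symm

/-- disjoint invariant sets that carry the measures of a countable family of ergodic measures -/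
structure Cells {ι : Type} (R : X → X) (ν : ι → Measure X) (A : ι → Set X) : Prop where
  prob : ∀ j, IsProbabilityMeasure (ν j)
  erg : ∀ j n, 0 < n → Ergodic R^[n] (ν j)
  meas : ∀ j, MeasurableSet (A j)
  inv : ∀ j, R ⁻¹' A j = A j
  one : ∀ j, ν j (A j)ᶜ = 0
  disj : ∀ j k, j ≠ k → Disjoint (A j) (A k)

theorem Cells.zero {ι : Type} {ν : ι → Measure X} {A : ι → Set X} (h : Cells R ν A) {j k : ι} (hjk : j ≠ k) :
    ν k (A j) = 0 :=
  measure_mono_null (Disjoint.subset_compl_right (h.disj j k hjk)) (h.one k)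

theorem Cells.invn {ι : Type} {ν : ι → Measure X} {A : ι → Set X} (h : Cells R ν A) (j : ι) (n : ℕ) :
    R^[n] ⁻¹' A j = A j := by
  induction n with
  | zero => rfl
  | succ n ih =>
    rw [Function.iterate_succ, Set.preimage_comp, ih, h.inv]

theorem exists_cells {ι : Type} [Countable ι] {ν : ι → Measure X} (hp : ∀ j, IsProbabilityMeasure (ν j))
    (he : ∀ j n, 0 < n → Ergodic R^[n] (ν j)) (hinj : Function.Injective ν) : ∃ A : ι → Set X, Cells R ν A := by
  classical
  have he1 : ∀ j, Ergodic R (ν j) := fun j => he j 1 one_pos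
  have hsing : ∀ j k, j ≠ k → ∃ S : Set X, MeasurableSet S ∧ ν j S = 0 ∧ ν k Sᶜ = 0 := by
    intro j k hjk
    exact erg_sing (he1 j) (he1 k) fun h => hjk (hinj h)
  have hsing' : ∀ j k, ∃ S : Set X, MeasurableSet S ∧ (j ≠ k → ν j S = 0 ∧ ν k Sᶜ = 0) := by
    intro j k
    by_cases hjk : j = k
    · exact ⟨∅, MeasurableSet.empty, fun h => absurd hjk h⟩
    · obtain ⟨S, h1, h2, h3⟩ := hsing j k hjk
      exact ⟨S, h1, fun _ => ⟨h2, h3⟩⟩
  choose S hS1 hS2 using hsing'
  set B : ι → Set X := fun j => ⋂ k, ⋂ _ : j ≠ k, (S j k)ᶜ with hB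
  have hBm : ∀ j, MeasurableSet (B j) := fun j => MeasurableSet.iInter fun k => MeasurableSet.iInter fun _ => (hS1 j k).compl
  have hB1 : ∀ j, ν j (B j)ᶜ = 0 := by
    intro j
    have e : (B j)ᶜ = ⋃ k, ⋃ _ : j ≠ k, S j k := by
      simp only [hB, Set.compl_iInter, compl_compl]
    rw [e]
    refine measure_iUnion_null fun k => measure_iUnion_null fun hk => (hS2 j k hk).1
  have hB2 : ∀ j k, j ≠ k → ν k (B j) = 0 := by
    intro j k hjk
    refine measure_mono_null ?_ (hS2 j k hjk).2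
    exact Set.iInter₂_subset k hjk
  set A : ι → Set X := fun j => {x | ∃ m : ℕ, ∀ n, m ≤ n → R^[n] x ∈ B j} with hA
  have hRm : ∀ j n, Measurable (R^[n]) := fun j n => (he1 j).measurable.iterate n
  have hAe : ∀ j, A j = ⋃ m : ℕ, ⋂ n : ℕ, ⋂ _ : m ≤ n, R^[n] ⁻¹' B j := by
    intro j
    ext x
    simp only [hA, Set.mem_setOf_eq, Set.mem_iUnion, Set.mem_iInter, Set.mem_preimage]
  have hAm : ∀ j, MeasurableSet (A j) := by
    intro j
    rw [hAe]
    exact MeasurableSet.iUnion fun m => MeasurableSet.iInter fun n => MeasurableSet.iInter fun _ => hRm j n (hBm j)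
  have hAi : ∀ j, R ⁻¹' A j = A j := by
    intro j
    ext x
    constructor
    · rintro ⟨m, hm⟩
      refine ⟨m + 1, fun n hn => ?_⟩
      obtain ⟨k, rfl⟩ : ∃ k, n = k + 1 := ⟨n - 1, by omega⟩
      rw [Function.iterate_succ_apply]
      exact hm k (by omega)
    · rintro ⟨m, hm⟩
      refine ⟨m, fun n hn => ?_⟩
      rw [← Function.iterate_succ_apply]
      exact hm (n + 1) (by omega)
  have hA1 : ∀ j, ν j (A j)ᶜ = 0 := by
    intro j
    have hsub : (A j)ᶜ ⊆ ⋃ n : ℕ, R^[n] ⁻¹' (B j)ᶜ := by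
      intro x hx
      by_contra hcon
      apply hx
      refine ⟨0, fun n _ => ?_⟩
      by_contra h1
      exact hcon (Set.mem_iUnion.2 ⟨n, h1⟩)
    refine measure_mono_null hsub (measure_iUnion_null fun n => ?_)
    rw [((he1 j).toMeasurePreserving.iterate n).measure_preimage (hBm j).compl.nullMeasurableSet]
    exact hB1 j
  have hA2 : ∀ j k, j ≠ k → ν k (A j) = 0 := by
    intro j k hjk
    have hsub : A j ⊆ ⋃ n : ℕ, R^[n] ⁻¹' B j := by
      rintro x ⟨m, hm⟩
      exact Set.mem_iUnion.2 ⟨m, hm m le_rfl⟩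
    refine measure_mono_null hsub (measure_iUnion_null fun n => ?_)
    rw [((he1 k).toMeasurePreserving.iterate n).measure_preimage (hBm j).nullMeasurableSet]
    exact hB2 j k hjk
  refine ⟨fun j => A j \ ⋃ k, ⋃ _ : k ≠ j, A k, hp, he, fun j => ?_, fun j => ?_, fun j => ?_, fun j k hjk => ?_⟩
  · exact (hAm j).diff (MeasurableSet.iUnion fun k => MeasurableSet.iUnion fun _ => hAm k)
  · rw [Set.preimage_diff, hAi, Set.preimage_iUnion]
    congr 1
    refine Set.iUnion_congr fun k => ?_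
    rw [Set.preimage_iUnion]
    exact Set.iUnion_congr fun _ => hAi k
  · have e : (A j \ ⋃ k, ⋃ _ : k ≠ j, A k)ᶜ = (A j)ᶜ ∪ ⋃ k, ⋃ _ : k ≠ j, A k := by
      rw [Set.diff_eq, Set.compl_inter, compl_compl]
    rw [e]
    refine measure_union_null (hA1 j) (measure_iUnion_null fun k => measure_iUnion_null fun hk => hA2 k j hk)
  · rw [Set.disjoint_left]
    rintro x ⟨h1, h2⟩ ⟨h3, -⟩
    exact h2 (Set.mem_iUnion.2 ⟨k, Set.mem_iUnion.2 ⟨fun h => hjk h.symm, h3⟩⟩)

end Sets

section Cell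

variable {X : Type} [MeasurableSpace X] {R : X → X} {ι : Type} {ν : ι → Measure X} {A : ι → Set X} {c : ι → ℝ≥0∞}
  {μ : Measure X}

/-- a measure that is absolutely continuous with respect to the combination is absolutely continuous with respect to `ν j` on `A j` -/
theorem Cells.ac (h : Cells R ν A) (hμ : μ = Measure.sum fun j => c j • ν j) {σ : Measure X} (hσ : σ ≪ μ) (j : ι)
    {s : Set X} (hs : MeasurableSet s) (h0 : ν j s = 0) : σ (s ∩ A j) = 0 := by
  refine hσ ?_
  rw [hμ, Measure.sum_apply _ (hs.inter (h.meas j))]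
  refine ENNReal.tsum_eq_zero.2 fun k => ?_
  rw [Measure.smul_apply, smul_eq_mul]
  by_cases hk : j = k
  · rw [← hk, measure_mono_null Set.inter_subset_left h0, mul_zero]
  · rw [measure_mono_null Set.inter_subset_right (h.zero hk), mul_zero]

variable {p q : ℕ} {ρ : Measure (X × X)}

/-- the normalized restriction of a joining to a cell -/
theorem Cells.cell (h : Cells R ν A) (hμ : μ = Measure.sum fun j => c j • ν j) (hp : 0 < p) (hq : 0 < q)
    [IsProbabilityMeasure ρ] (hρ : MeasurePreserving (Prod.map R^[p] R^[q]) ρ ρ) (h1 : ρ.map Prod.fst ≪ μ)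
    (h2 : ρ.map Prod.snd ≪ μ) (j k : ι) (h0 : ρ (A j ×ˢ A k) ≠ 0) :
    IsProbabilityMeasure ((ρ (A j ×ˢ A k))⁻¹ • ρ.restrict (A j ×ˢ A k)) ∧
      MeasurePreserving (Prod.map R^[p] R^[q]) ((ρ (A j ×ˢ A k))⁻¹ • ρ.restrict (A j ×ˢ A k))
        ((ρ (A j ×ˢ A k))⁻¹ • ρ.restrict (A j ×ˢ A k)) ∧
      ((ρ (A j ×ˢ A k))⁻¹ • ρ.restrict (A j ×ˢ A k)).map Prod.fst = ν j ∧
      ((ρ (A j ×ˢ A k))⁻¹ • ρ.restrict (A j ×ˢ A k)).map Prod.snd = ν k := by
  set m := ρ (A j ×ˢ A k) with hm
  have hmt : m ≠ ∞ := measure_ne_top _ _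
  have hAm : MeasurableSet (A j ×ˢ A k) := (h.meas j).prod (h.meas k)
  set ρ' : Measure (X × X) := m⁻¹ • ρ.restrict (A j ×ˢ A k) with hρ'
  have i1 : IsProbabilityMeasure ρ' := by
    refine ⟨?_⟩
    rw [hρ', Measure.smul_apply, Measure.restrict_apply MeasurableSet.univ, Set.univ_inter, smul_eq_mul,
      ENNReal.inv_mul_cancel h0 hmt]
  have i2 : MeasurePreserving (Prod.map R^[p] R^[q]) ρ' ρ' := by
    have e : Prod.map R^[p] R^[q] ⁻¹' (A j ×ˢ A k) = A j ×ˢ A k := by
      have e1 := h.invn j p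
      have e2 := h.invn k q
      ext ⟨x, y⟩
      constructor
      · rintro ⟨a1, a2⟩
        exact ⟨by rw [← e1]; exact a1, by rw [← e2]; exact a2⟩
      · rintro ⟨a1, a2⟩
        refine ⟨?_, ?_⟩
        · have : x ∈ R^[p] ⁻¹' A j := by rw [e1]; exact a1
          exact this
        · have : y ∈ R^[q] ⁻¹' A k := by rw [e2]; exact a2
          exact this
    have h3 := hρ.restrict_preimage hAm
    rw [e] at h3
    exact h3.smul_measure _
  have hpj := h.prob j
  have hpk := h.prob k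
  refine ⟨i1, i2, ?_, ?_⟩
  · have u1 : IsProbabilityMeasure (ρ'.map Prod.fst) := Measure.isProbabilityMeasure_map measurable_fst.aemeasurable
    refine (h.erg j p hp).eq_of_absolutelyContinuous ⟨(h.erg j p hp).measurable, ?_⟩
      (Measure.AbsolutelyContinuous.mk fun s hs hs0 => ?_)
    · rw [Measure.map_map (h.erg j p hp).measurable measurable_fst]
      have e : R^[p] ∘ Prod.fst = Prod.fst ∘ Prod.map R^[p] R^[q] := rfl
      rw [e, ← Measure.map_map measurable_fst i2.measurable, i2.map_eq]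
    · rw [Measure.map_apply measurable_fst hs, hρ', Measure.smul_apply, Measure.restrict_apply (measurable_fst hs)]
      have h3 := h.ac hμ h1 j hs hs0
      rw [Measure.map_apply measurable_fst (hs.inter (h.meas j))] at h3
      have h4 : ρ (Prod.fst ⁻¹' s ∩ A j ×ˢ A k) = 0 := by
        refine measure_mono_null ?_ h3
        rintro ⟨x, y⟩ ⟨b1, b2, -⟩
        exact ⟨b1, b2⟩
      rw [h4, smul_zero]
  · have u1 : IsProbabilityMeasure (ρ'.map Prod.snd) := Measure.isProbabilityMeasure_map measurable_snd.aemeasurable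
    refine (h.erg k q hq).eq_of_absolutelyContinuous ⟨(h.erg k q hq).measurable, ?_⟩
      (Measure.AbsolutelyContinuous.mk fun s hs hs0 => ?_)
    · rw [Measure.map_map (h.erg k q hq).measurable measurable_snd]
      have e : R^[q] ∘ Prod.snd = Prod.snd ∘ Prod.map R^[p] R^[q] := rfl
      rw [e, ← Measure.map_map measurable_snd i2.measurable, i2.map_eq]
    · rw [Measure.map_apply measurable_snd hs, hρ', Measure.smul_apply, Measure.restrict_apply (measurable_snd hs)]
      have h3 := h.ac hμ h2 k hs hs0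
      rw [Measure.map_apply measurable_snd (hs.inter (h.meas k))] at h3
      have h4 : ρ (Prod.snd ⁻¹' s ∩ A j ×ˢ A k) = 0 := by
        refine measure_mono_null ?_ h3
        rintro ⟨x, y⟩ ⟨b1, -, b2⟩
        exact ⟨b1, b2⟩
      rw [h4, smul_zero]

end Cell

section Join

variable {X : Type} [TopologicalSpace X] [CompactSpace X] [TopologicalSpace.MetrizableSpace X]
    [MeasurableSpace X] [BorelSpace X] {R : X → X} {ι : Type} {ν : ι → Measure X} {A : ι → Set X} {c : ι → ℝ≥0∞}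
  {μ : Measure X} {p q : ℕ} {ρ : Measure (X × X)}

private theorem qc_int {Y : Type} [MeasurableSpace Y] {τ : Measure Y} [IsFiniteMeasure τ] {g : Y → ℂ} (hg : Measurable g)
    (hb : ∀ y, ‖g y‖ ≤ 1) : Integrable g τ :=
  Integrable.of_bound hg.aestronglyMeasurable 1 (Eventually.of_forall hb)

/-- **one cell** -/
theorem Cells.one_cell (h : Cells R ν A) (hRc : Continuous R) (hμ : μ = Measure.sum fun j => c j • ν j) (hp : 0 < p)
    (hq : 0 < q) [IsProbabilityMeasure ρ] (hρ : MeasurePreserving (Prod.map R^[p] R^[q]) ρ ρ)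
    (h1 : ρ.map Prod.fst ≪ μ) (h2 : ρ.map Prod.snd ≪ μ) (j k : ι) (f s : C(X, ℂ)) (hf : ∀ x, ‖f x‖ ≤ 1)
    (hs : ∀ x, ‖s x‖ ≤ 1) {ε δ : ℝ} (hε : 0 ≤ ε) (hj : ∫ x, ‖s x - f x‖ ∂ν j ≤ δ) (hk : ∫ x, ‖s x - f x‖ ∂ν k ≤ δ)
    (hjk : ∀ lam : Measure (X × X), IsProbabilityMeasure lam → Ergodic (Prod.map R^[p] R^[q]) lam →
      lam.map Prod.fst = ν j → lam.map Prod.snd = ν k → ‖∫ w, f w.1 * conj (f w.2) ∂lam‖ ≤ ε) :
    ‖∫ w in A j ×ˢ A k, s w.1 * conj (s w.2) ∂ρ‖ ≤ (ρ (A j ×ˢ A k)).toReal * (2 * ε + 2 * δ) := by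
  have hδ : 0 ≤ δ := (integral_nonneg fun x => norm_nonneg _).trans hj
  by_cases h0 : ρ (A j ×ˢ A k) = 0
  · rw [Measure.restrict_eq_zero.2 h0, integral_zero_measure, norm_zero]
    positivity
  obtain ⟨i1, i2, i3, i4⟩ := h.cell hμ hp hq hρ h1 h2 j k h0
  set m := ρ (A j ×ˢ A k) with hm
  have hmt : m ≠ ∞ := measure_ne_top _ _
  set ρ' : Measure (X × X) := m⁻¹ • ρ.restrict (A j ×ˢ A k) with hρ'
  have hpj := h.prob j
  have hpk := h.prob k
  have hmr : 0 < m.toReal := ENNReal.toReal_pos h0 hmt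
  have e1 : ∫ w, s w.1 * conj (s w.2) ∂ρ' = ((m.toReal)⁻¹ : ℝ) • ∫ w in A j ×ˢ A k, s w.1 * conj (s w.2) ∂ρ := by
    rw [hρ', integral_smul_measure, ENNReal.toReal_inv]
  have e2 : ‖∫ w in A j ×ˢ A k, s w.1 * conj (s w.2) ∂ρ‖ = m.toReal * ‖∫ w, s w.1 * conj (s w.2) ∂ρ'‖ := by
    rw [e1, norm_smul, Real.norm_of_nonneg (by positivity), ← mul_assoc, mul_inv_cancel₀ hmr.ne', one_mul]
  rw [e2]
  refine mul_le_mul_of_nonneg_left ?_ hmr.le
  -- `f ⊗ conj f`
  have b1 : ‖∫ w, f w.1 * conj (f w.2) ∂ρ'‖ ≤ 2 * ε :=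
    join2_cplx (hRc.iterate p) (hRc.iterate q) (h.erg j p hp) (h.erg k q hq) ρ' i1 i2 i3 i4
      ⟨fun w => f w.1 * conj (f w.2), by fun_prop⟩ ε hjk
  have mf1 : Measurable fun w : X × X => f w.1 := f.continuous.measurable.comp measurable_fst
  have mf2 : Measurable fun w : X × X => f w.2 := f.continuous.measurable.comp measurable_snd
  have ms1 : Measurable fun w : X × X => s w.1 := s.continuous.measurable.comp measurable_fst
  have ms2 : Measurable fun w : X × X => s w.2 := s.continuous.measurable.comp measurable_snd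
  have cj : ∀ {g : X × X → ℂ}, Measurable g → Measurable fun w => conj (g w) := fun hg =>
    Complex.continuous_conj.measurable.comp hg
  have j1 : Integrable (fun w : X × X => s w.1 * conj (s w.2)) ρ' := qc_int (ms1.mul (cj ms2)) fun w => by
    rw [norm_mul, RCLike.norm_conj]; exact mul_le_one₀ (hs _) (norm_nonneg _) (hs _)
  have j2 : Integrable (fun w : X × X => f w.1 * conj (f w.2)) ρ' := qc_int (mf1.mul (cj mf2)) fun w => by
    rw [norm_mul, RCLike.norm_conj]; exact mul_le_one₀ (hf _) (norm_nonneg _) (hf _)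
  have e3 : ‖(∫ w, s w.1 * conj (s w.2) ∂ρ') - ∫ w, f w.1 * conj (f w.2) ∂ρ'‖ ≤ 2 * δ := by
    rw [← integral_sub j1 j2]
    have k1 : Integrable (fun w : X × X => ‖s w.1 - f w.1‖) ρ' :=
      Integrable.of_bound (ms1.sub mf1).norm.aestronglyMeasurable 2 (Eventually.of_forall fun w => by
        rw [norm_norm]
        exact (norm_sub_le _ _).trans (by linarith [hs w.1, hf w.1]))
    have k2 : Integrable (fun w : X × X => ‖s w.2 - f w.2‖) ρ' :=
      Integrable.of_bound (ms2.sub mf2).norm.aestronglyMeasurable 2 (Eventually.of_forall fun w => by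
        rw [norm_norm]
        exact (norm_sub_le _ _).trans (by linarith [hs w.2, hf w.2]))
    refine (norm_integral_le_integral_norm _).trans ?_
    have k3 : ∫ w : X × X, ‖s w.1 * conj (s w.2) - f w.1 * conj (f w.2)‖ ∂ρ' ≤
        ∫ w : X × X, (‖s w.1 - f w.1‖ + ‖s w.2 - f w.2‖) ∂ρ' := by
      refine integral_mono (j1.sub j2).norm (k1.add k2) fun w => ?_
      show ‖s w.1 * conj (s w.2) - f w.1 * conj (f w.2)‖ ≤ ‖s w.1 - f w.1‖ + ‖s w.2 - f w.2‖
      have e4 : s w.1 * conj (s w.2) - f w.1 * conj (f w.2) =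
          (s w.1 - f w.1) * conj (s w.2) + f w.1 * conj (s w.2 - f w.2) := by
        rw [map_sub]; ring
      rw [e4]
      refine (norm_add_le _ _).trans ?_
      rw [norm_mul, norm_mul, RCLike.norm_conj, RCLike.norm_conj]
      exact add_le_add (mul_le_of_le_one_right (norm_nonneg _) (hs _)) (mul_le_of_le_one_left (norm_nonneg _) (hf _))
    refine k3.trans ?_
    rw [integral_add k1 k2]
    have l1 : ∫ w : X × X, ‖s w.1 - f w.1‖ ∂ρ' = ∫ x, ‖s x - f x‖ ∂ν j := by
      rw [← i3, integral_map (f := fun x => ‖s x - f x‖) measurable_fst.aemeasurable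
        (s.continuous.sub f.continuous).norm.measurable.aestronglyMeasurable]
    have l2 : ∫ w : X × X, ‖s w.2 - f w.2‖ ∂ρ' = ∫ x, ‖s x - f x‖ ∂ν k := by
      rw [← i4, integral_map (f := fun x => ‖s x - f x‖) measurable_snd.aemeasurable
        (s.continuous.sub f.continuous).norm.measurable.aestronglyMeasurable]
    rw [l1, l2]
    linarith
  calc ‖∫ w, s w.1 * conj (s w.2) ∂ρ'‖ = ‖(∫ w, f w.1 * conj (f w.2) ∂ρ') +
        ((∫ w, s w.1 * conj (s w.2) ∂ρ') - ∫ w, f w.1 * conj (f w.2) ∂ρ')‖ := by congr 1; ring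
    _ ≤ 2 * ε + 2 * δ := (norm_add_le _ _).trans (add_le_add b1 e3)

/-- **all cells** -/
theorem Cells.all_cells (h : Cells R ν A) (hRc : Continuous R) (hμ : μ = Measure.sum fun j => c j • ν j)
    [IsProbabilityMeasure μ] (hp : 0 < p)
    (hq : 0 < q) [IsProbabilityMeasure ρ] (hρ : MeasurePreserving (Prod.map R^[p] R^[q]) ρ ρ) {C : ℝ} (hC : 0 ≤ C)
    (h1 : ρ.map Prod.fst ≤ ENNReal.ofReal C • μ) (h2 : ρ.map Prod.snd ≤ ENNReal.ofReal C • μ) (t : Finset ι)
    (f s : C(X, ℂ)) (hf : ∀ x, ‖f x‖ ≤ 1)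
    (hs : ∀ x, ‖s x‖ ≤ 1) {ε δ δ' : ℝ} (hε : 0 ≤ ε) (hδ : 0 ≤ δ) (hj : ∀ j ∈ t, ∫ x, ‖s x - f x‖ ∂ν j ≤ δ)
    (ht : ∫ x, (⋃ j ∈ t, A j)ᶜ.indicator (fun x => ‖s x‖) x ∂μ ≤ δ')
    (hjk : ∀ j ∈ t, ∀ k ∈ t, ∀ lam : Measure (X × X), IsProbabilityMeasure lam → Ergodic (Prod.map R^[p] R^[q]) lam →
      lam.map Prod.fst = ν j → lam.map Prod.snd = ν k → ‖∫ w, f w.1 * conj (f w.2) ∂lam‖ ≤ ε) :
    ‖∫ w, s w.1 * conj (s w.2) ∂ρ‖ ≤ 2 * ε + 2 * δ + 2 * C * δ' := by
  classical
  have ac1 : ρ.map Prod.fst ≪ μ := (Measure.absolutelyContinuous_of_le h1).trans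
    (Measure.smul_absolutelyContinuous)
  have ac2 : ρ.map Prod.snd ≪ μ := (Measure.absolutelyContinuous_of_le h2).trans
    (Measure.smul_absolutelyContinuous)
  have ms1 : Measurable fun w : X × X => s w.1 := s.continuous.measurable.comp measurable_fst
  have ms2 : Measurable fun w : X × X => s w.2 := s.continuous.measurable.comp measurable_snd
  have hint : Integrable (fun w : X × X => s w.1 * conj (s w.2)) ρ :=
    qc_int (ms1.mul (Complex.continuous_conj.measurable.comp ms2)) fun w => by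
      rw [norm_mul, RCLike.norm_conj]; exact mul_le_one₀ (hs _) (norm_nonneg _) (hs _)
  set B : Set X := ⋃ j ∈ t, A j with hB
  have hBm : MeasurableSet B := Finset.measurableSet_biUnion _ fun j _ => h.meas j
  set V : Set (X × X) := ⋃ x ∈ t ×ˢ t, A x.1 ×ˢ A x.2 with hV
  have hcm : ∀ x : ι × ι, MeasurableSet (A x.1 ×ˢ A x.2) := fun x => (h.meas _).prod (h.meas _)
  have hVm : MeasurableSet V := Finset.measurableSet_biUnion _ fun x _ => hcm x
  have hdisj : Set.PairwiseDisjoint (↑(t ×ˢ t) : Set (ι × ι)) fun x => A x.1 ×ˢ A x.2 := by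
    intro x _ y _ hxy
    show Disjoint _ _
    rw [Set.disjoint_left]
    rintro ⟨a, b⟩ ⟨a1, a2⟩ ⟨b1, b2⟩
    by_cases h3 : x.1 = y.1
    · have h4 : x.2 ≠ y.2 := fun h5 => hxy (Prod.ext h3 h5)
      exact Set.disjoint_left.1 (h.disj _ _ h4) a2 b2
    · exact Set.disjoint_left.1 (h.disj _ _ h3) a1 b1
  have e1 : ∫ w in V, s w.1 * conj (s w.2) ∂ρ = ∑ x ∈ t ×ˢ t, ∫ w in A x.1 ×ˢ A x.2, s w.1 * conj (s w.2) ∂ρ :=
    integral_biUnion_finset _ (fun x _ => hcm x) hdisj fun x _ => hint.integrableOn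
  have e2 : ∑ x ∈ t ×ˢ t, (ρ (A x.1 ×ˢ A x.2)).toReal ≤ 1 := by
    have e3 : ρ V = ∑ x ∈ t ×ˢ t, ρ (A x.1 ×ˢ A x.2) := measure_biUnion_finset hdisj fun x _ => hcm x
    rw [← ENNReal.toReal_sum fun x _ => measure_ne_top _ _, ← e3]
    exact ENNReal.toReal_le_of_le_ofReal zero_le_one (by rw [ENNReal.ofReal_one]; exact prob_le_one)
  have b1 : ‖∫ w in V, s w.1 * conj (s w.2) ∂ρ‖ ≤ 2 * ε + 2 * δ := by
    rw [e1]
    refine (norm_sum_le _ _).trans ?_
    calc ∑ x ∈ t ×ˢ t, ‖∫ w in A x.1 ×ˢ A x.2, s w.1 * conj (s w.2) ∂ρ‖ ≤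
        ∑ x ∈ t ×ˢ t, (ρ (A x.1 ×ˢ A x.2)).toReal * (2 * ε + 2 * δ) := by
          refine Finset.sum_le_sum fun x hx => ?_
          rw [mem_product] at hx
          exact h.one_cell hRc hμ hp hq hρ ac1 ac2 x.1 x.2 f s hf hs hε (hj _ hx.1) (hj _ hx.2) (hjk _ hx.1 _ hx.2)
      _ = (∑ x ∈ t ×ˢ t, (ρ (A x.1 ×ˢ A x.2)).toReal) * (2 * ε + 2 * δ) := by rw [Finset.sum_mul]
      _ ≤ 1 * (2 * ε + 2 * δ) := mul_le_mul_of_nonneg_right e2 (by positivity)
      _ = _ := one_mul _
  set g : X → ℝ := Bᶜ.indicator fun x => ‖s x‖ with hg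
  have hgm : Measurable g := s.continuous.norm.measurable.indicator hBm.compl
  have hg0 : ∀ x, 0 ≤ g x := fun x => Set.indicator_nonneg (fun _ _ => norm_nonneg _) x
  have hg1 : ∀ x, g x ≤ 1 := fun x => by
    rw [hg, Set.indicator_apply]
    split_ifs
    · exact hs x
    · exact zero_le_one
  have hgi : ∀ τ : Measure X, IsFiniteMeasure τ → Integrable g τ := fun τ hτ =>
    Integrable.of_bound hgm.aestronglyMeasurable 1 (Eventually.of_forall fun x => by
      rw [Real.norm_of_nonneg (hg0 x)]; exact hg1 x)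
  have dom : ∀ σ : Measure X, σ ≤ ENNReal.ofReal C • μ → ∫ x, g x ∂σ ≤ C * δ' := by
    intro σ hσ
    have f1 : IsFiniteMeasure (ENNReal.ofReal C • μ) := Measure.smul_finite _ ENNReal.ofReal_ne_top
    have f2 := integral_mono_measure hσ (Eventually.of_forall hg0) (hgi _ f1)
    rw [integral_smul_measure, ENNReal.toReal_ofReal hC, smul_eq_mul] at f2
    exact f2.trans (mul_le_mul_of_nonneg_left ht hC)
  have b2 : ‖∫ w in Vᶜ, s w.1 * conj (s w.2) ∂ρ‖ ≤ 2 * C * δ' := by
    have i1 : Integrable (fun w : X × X => g w.1) ρ :=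
      Integrable.of_bound (hgm.comp measurable_fst).aestronglyMeasurable 1 (Eventually.of_forall fun x => by
        rw [Real.norm_of_nonneg (hg0 _)]; exact hg1 _)
    have i2 : Integrable (fun w : X × X => g w.2) ρ :=
      Integrable.of_bound (hgm.comp measurable_snd).aestronglyMeasurable 1 (Eventually.of_forall fun x => by
        rw [Real.norm_of_nonneg (hg0 _)]; exact hg1 _)
    refine (norm_integral_le_integral_norm _).trans ?_
    have l1 : ∫ w in Vᶜ, ‖s w.1 * conj (s w.2)‖ ∂ρ ≤ ∫ w : X × X, (g w.1 + g w.2) ∂ρ := by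
      rw [← integral_indicator hVm.compl]
      refine integral_mono (hint.norm.indicator hVm.compl) (i1.add i2) fun w => ?_
      show Vᶜ.indicator (fun w : X × X => ‖s w.1 * conj (s w.2)‖) w ≤ g w.1 + g w.2
      by_cases hw : w ∈ Vᶜ
      · rw [Set.indicator_of_mem hw, norm_mul, RCLike.norm_conj]
        have h3 : w.1 ∉ B ∨ w.2 ∉ B := by
          by_contra h4
          push Not at h4
          obtain ⟨h5, h6⟩ := h4
          apply hw
          simp only [hB, Set.mem_iUnion] at h5 h6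
          obtain ⟨j, hj1, hj2⟩ := h5
          obtain ⟨k, hk1, hk2⟩ := h6
          simp only [hV, Set.mem_iUnion]
          exact ⟨(j, k), mem_product.2 ⟨hj1, hk1⟩, ⟨hj2, hk2⟩⟩
        rcases h3 with h4 | h4
        · have h5 : g w.1 = ‖s w.1‖ := Set.indicator_of_mem (show w.1 ∈ Bᶜ from h4) _
          rw [h5]
          have := mul_le_of_le_one_right (norm_nonneg (s w.1)) (hs w.2)
          linarith [hg0 w.2]
        · have h5 : g w.2 = ‖s w.2‖ := Set.indicator_of_mem (show w.2 ∈ Bᶜ from h4) _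
          rw [h5]
          have := mul_le_of_le_one_left (norm_nonneg (s w.2)) (hs w.1)
          linarith [hg0 w.1]
      · rw [Set.indicator_of_notMem hw]
        exact add_nonneg (hg0 _) (hg0 _)
    refine l1.trans ?_
    rw [integral_add i1 i2]
    have l2 : ∫ w : X × X, g w.1 ∂ρ ≤ C * δ' := by
      have := dom _ h1
      rwa [integral_map measurable_fst.aemeasurable hgm.aestronglyMeasurable] at this
    have l3 : ∫ w : X × X, g w.2 ∂ρ ≤ C * δ' := by
      have := dom _ h2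
      rwa [integral_map measurable_snd.aemeasurable hgm.aestronglyMeasurable] at this
    linarith
  rw [← integral_add_compl hVm hint]
  exact (norm_add_le _ _).trans (add_le_add b1 b2)

end Join

end Pool.Agent.Lib.MP_9fe581_an.AP
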