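import Pool.Agent.Lib.MP_9fe581_an.AP.QC2

/-! # AP, QC3: quasi-generic points of countable combinations of ergodic measures, one function -/

set_option autoImplicit false

open Finset MeasureTheory Filter Topology
open scoped ComplexConjugate ENNReal NNReal

namespace Pool.Agent.Lib.MP_9fe581_an.AP

section Cut

variable {X : Type} [TopologicalSpace X] [CompactSpace X] [TopologicalSpace.MetrizableSpace X]
    [MeasurableSpace X] [BorelSpace X] {R : X → X} {ι : Type} {ν : ι → Measure X} {A : ι → Set X} {c : ι → ℝ≥0∞}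
  {μ : Measure X}

/-- continuous approximation of an indicator function -/
theorem qc_cut [IsFiniteMeasure μ] {B : Set X} (hB : MeasurableSet B) {η : ℝ} (hη : 0 < η) :
    ∃ χ : C(X, ℝ), (∀ x, 0 ≤ χ x) ∧ (∀ x, χ x ≤ 1) ∧ ∫ x, |B.indicator (fun _ => (1 : ℝ)) x - χ x| ∂μ ≤ η := by
  classical
  let _ : MetricSpace X := TopologicalSpace.metrizableSpaceMetric X
  obtain ⟨V, hBV, hV, -, hV2⟩ := hB.exists_isOpen_sdiff_lt (μ := μ) (measure_ne_top _ _)
    (ε := ENNReal.ofReal (η / 2)) (by simpa using hη)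
  obtain ⟨K, hKB, hK, hK2⟩ := hB.exists_isClosed_sdiff_lt (μ := μ) (measure_ne_top _ _)
    (ε := ENNReal.ofReal (η / 2)) (by simpa using hη)
  obtain ⟨χ, h1, h2, h3⟩ := exists_continuous_zero_one_of_isClosed hV.isClosed_compl hK
    (Set.disjoint_compl_left_iff_subset.2 (hKB.trans hBV))
  refine ⟨χ, fun x => (h3 x).1, fun x => (h3 x).2, ?_⟩
  have hm : MeasurableSet (V \ K) := hV.measurableSet.diff hK.measurableSet
  have h4 : ∀ x, |B.indicator (fun _ => (1 : ℝ)) x - χ x| ≤ (V \ K).indicator (fun _ => (1 : ℝ)) x := by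
    intro x
    by_cases hxK : x ∈ K
    · have e1 : χ x = 1 := h2 hxK
      rw [Set.indicator_of_mem (hKB hxK), e1, Set.indicator_of_notMem fun h => h.2 hxK, sub_self, abs_zero]
    · by_cases hxV : x ∈ V
      · rw [Set.indicator_of_mem (show x ∈ V \ K from ⟨hxV, hxK⟩), abs_le]
        obtain ⟨h5, h6⟩ := h3 x
        by_cases hxB : x ∈ B
        · rw [Set.indicator_of_mem hxB]
          constructor <;> linarith
        · rw [Set.indicator_of_notMem hxB]
          constructor <;> linarith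
      · have e1 : χ x = 0 := h1 (show x ∈ Vᶜ from hxV)
        rw [Set.indicator_of_notMem (fun h => hxV (hBV h)), e1, Set.indicator_of_notMem fun h => hxV h.1, sub_self,
          abs_zero]
  have i1 : Integrable (fun x => |B.indicator (fun _ => (1 : ℝ)) x - χ x|) μ := by
    refine Integrable.of_bound (C := 1) ?_ (Eventually.of_forall fun x => ?_)
    · exact (((measurable_const.indicator hB).sub χ.continuous.measurable).norm).aestronglyMeasurable
    · rw [Real.norm_of_nonneg (abs_nonneg _)]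
      refine (h4 x).trans ?_
      rw [Set.indicator_apply]
      split_ifs
      · exact le_rfl
      · exact zero_le_one
  have i2 : Integrable (fun x => (V \ K).indicator (fun _ => (1 : ℝ)) x) μ := (integrable_const 1).indicator hm
  refine (integral_mono i1 i2 h4).trans ?_
  rw [integral_indicator_const _ hm, smul_eq_mul, mul_one, Measure.real]
  refine ENNReal.toReal_le_of_le_ofReal hη.le ?_
  have e1 : V \ K ⊆ (V \ B) ∪ (B \ K) := by
    rintro x ⟨hx1, hx2⟩
    by_cases hxB : x ∈ B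
    · exact Or.inr ⟨hxB, hx2⟩
    · exact Or.inl ⟨hx1, hxB⟩
  refine (measure_mono e1).trans ((measure_union_le _ _).trans ?_)
  have e2 : ENNReal.ofReal η = ENNReal.ofReal (η / 2) + ENNReal.ofReal (η / 2) := by
    rw [← ENNReal.ofReal_add (by positivity) (by positivity)]
    congr 1
    ring
  rw [e2]
  exact add_le_add hV2.le hK2.le

/-- the mass of the tail -/
theorem Cells.tail [Countable ι] (h : Cells R ν A) (hμ : μ = Measure.sum fun j => c j • ν j) [IsFiniteMeasure μ]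
    {τ : ℝ} (hτ : 0 < τ) : ∃ t : Finset ι, (∀ j ∈ t, c j ≠ 0) ∧ (μ (⋃ j ∈ t, A j)ᶜ).toReal ≤ τ := by
  classical
  have hsum : ∑' j, c j ≠ ∞ := by
    have h1 : μ Set.univ = ∑' j, c j := by
      rw [hμ, Measure.sum_apply _ MeasurableSet.univ]
      refine tsum_congr fun j => ?_
      have := h.prob j
      rw [Measure.smul_apply, measure_univ, smul_eq_mul, mul_one]
    rw [← h1]
    exact measure_ne_top _ _
  have h1 := ENNReal.tendsto_tsum_compl_atTop_zero hsum
  have h2 := (h1.eventually (gt_mem_nhds (show (0 : ℝ≥0∞) < ENNReal.ofReal τ by simpa using hτ))).exists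
  obtain ⟨t0, ht0⟩ := h2
  refine ⟨t0.filter fun j => c j ≠ 0, fun j hj => (mem_filter.1 hj).2, ?_⟩
  refine ENNReal.toReal_le_of_le_ofReal hτ.le (le_trans ?_ ht0.le)
  set B : Set X := ⋃ j ∈ t0.filter fun j => c j ≠ 0, A j with hB
  have hBm : MeasurableSet B := Finset.measurableSet_biUnion _ fun j _ => h.meas j
  have e1 : ∑' b : { x // x ∉ t0 }, c b = ∑' x, {x | x ∉ t0}.indicator c x := tsum_subtype {x | x ∉ t0} c
  rw [e1, hμ, Measure.sum_apply _ hBm.compl]
  refine ENNReal.tsum_le_tsum fun j => ?_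
  have := h.prob j
  rw [Measure.smul_apply, smul_eq_mul]
  by_cases hj : j ∈ t0
  · by_cases hc : c j = 0
    · rw [hc, zero_mul]
      exact bot_le
    · have h3 : ν j Bᶜ = 0 := by
        refine measure_mono_null ?_ (h.one j)
        rw [Set.compl_subset_compl]
        exact Set.subset_biUnion_of_mem (u := fun j => A j) (show j ∈ t0.filter fun j => c j ≠ 0 from
          mem_filter.2 ⟨hj, hc⟩)
      rw [h3, mul_zero]
      exact bot_le
  · rw [Set.indicator_of_mem (show j ∈ {x | x ∉ t0} from hj)]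
    calc c j * ν j Bᶜ ≤ c j * 1 := by gcongr; exact prob_le_one
      _ = c j := mul_one _

end Cut

section Lim

variable {W : Type} [TopologicalSpace W] [CompactSpace W] [TopologicalSpace.MetrizableSpace W] [MeasurableSpace W]
  [BorelSpace W]

/-- convergence of complex averages from real ones -/
theorem qc_cplx_tendsto {l : Filter ℕ} {ρ : Measure W} [IsProbabilityMeasure ρ] {w : ℕ → ℕ → W} {M : ℕ → ℕ}
    (h : ∀ g : C(W, ℝ), Tendsto (fun i => (1 / (M i : ℝ)) * ∑ m ∈ Icc 1 (M i), g (w i m)) l (𝓝 (∫ y, g y ∂ρ)))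
    (F : C(W, ℂ)) : Tendsto (fun i => ((1 / (M i : ℝ) : ℝ) : ℂ) * ∑ m ∈ Icc 1 (M i), F (w i m)) l
      (𝓝 (∫ y, F y ∂ρ)) := by
  have h1 := h ⟨fun w => (F w).re, Complex.continuous_re.comp F.continuous⟩
  have h2 := h ⟨fun w => (F w).im, Complex.continuous_im.comp F.continuous⟩
  simp only [ContinuousMap.coe_mk] at h1 h2
  have hi : Integrable (fun w => F w) ρ := (BoundedContinuousFunction.mkOfCompact F).integrable ρ
  have e1 : ∫ y, (F y).re ∂ρ = (∫ y, F y ∂ρ).re := integral_re hi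
  have e2 : ∫ y, (F y).im ∂ρ = (∫ y, F y ∂ρ).im := integral_im hi
  rw [e1] at h1
  rw [e2] at h2
  have h3 := ((Complex.continuous_ofReal.tendsto _).comp h1).add
    (((Complex.continuous_ofReal.tendsto _).comp h2).mul_const Complex.I)
  rw [Complex.re_add_im] at h3
  refine h3.congr fun i => ?_
  simp only [Function.comp]
  have e3 : ∑ m ∈ Icc 1 (M i), F (w i m) =
      ((∑ m ∈ Icc 1 (M i), (F (w i m)).re : ℝ) : ℂ) + ((∑ m ∈ Icc 1 (M i), (F (w i m)).im : ℝ) : ℂ) * Complex.I := by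
    rw [Complex.ofReal_sum, Complex.ofReal_sum, Finset.sum_mul, ← Finset.sum_add_distrib]
    exact Finset.sum_congr rfl fun m _ => (Complex.re_add_im _).symm
  rw [e3]
  push_cast
  ring

end Lim

section Main

variable {X : Type} [TopologicalSpace X] [CompactSpace X] [TopologicalSpace.MetrizableSpace X]
    [MeasurableSpace X] [BorelSpace X] {R : X → X} {ι : Type} {ν : ι → Measure X} {A : ι → Set X} {c : ι → ℝ≥0∞}
  {μ : Measure X}

private theorem qc_iter (p q m : ℕ) (x y : X) :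
    (Prod.map R^[p] R^[q])^[m] (x, y) = (R^[p * m] x, R^[q * m] y) := by
  rw [Prod.map_iterate, Prod.map_apply, Function.iterate_mul, Function.iterate_mul]

/-- the averages along the multiples of `p` -/
private theorem qc_dil (z : ℕ → X) (N : ℕ → ℕ) (hq : QGen R μ z N) (p L : ℕ) (hp : 0 < p) (hpL : p ≤ L) (U : Ultrafilter ℕ)
    (hU : (U : Filter ℕ) ≤ atTop) (hM : ∀ᶠ i in (U : Filter ℕ), 1 ≤ N i / L) (g : C(X, ℝ)) (hg : ∀ x, 0 ≤ g x) (b : ℝ)
    (hb : Tendsto (fun i => (1 / ((N i / L : ℕ) : ℝ)) * ∑ m ∈ Icc 1 (N i / L), g (R^[p * m] (z i))) (U : Filter ℕ) (𝓝 b)) :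
    b ≤ 2 * L * ∫ x, g x ∂μ := by
  have hL : 0 < L := hp.trans_le hpL
  have h1 := ((hq g).mono_left hU).const_mul (2 * (L : ℝ))
  refine le_of_tendsto_of_tendsto hb h1 ?_
  filter_upwards [hM] with i hi
  set M := N i / L with hMdef
  have hM0 : (0 : ℝ) < M := by exact_mod_cast hi
  have hNi : N i < L * (M + 1) := by
    have := Nat.lt_mul_div_succ (N i) hL
    exact this
  have hNM : L * M ≤ N i := Nat.mul_div_le _ _
  have hN0 : 0 < N i := lt_of_lt_of_le (Nat.mul_pos hL hi) hNM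
  have hN0' : (0 : ℝ) < N i := by exact_mod_cast hN0
  have e1 : ∑ m ∈ Icc 1 M, g (R^[p * m] (z i)) ≤ ∑ n ∈ Icc 1 (N i), g (R^[n] (z i)) := by
    have e2 : ∑ m ∈ Icc 1 M, g (R^[p * m] (z i)) = ∑ n ∈ (Icc 1 M).image (fun m => p * m), g (R^[n] (z i)) := by
      rw [Finset.sum_image]
      intro a _ b _ hab
      exact Nat.eq_of_mul_eq_mul_left hp hab
    rw [e2]
    refine Finset.sum_le_sum_of_subset_of_nonneg ?_ fun _ _ _ => hg _
    intro n hn
    rw [mem_image] at hn
    obtain ⟨m, hm, rfl⟩ := hn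
    rw [mem_Icc] at hm ⊢
    exact ⟨Nat.mul_pos hp hm.1, (Nat.mul_le_mul hpL hm.2).trans hNM⟩
  have e3 : 1 / (M : ℝ) ≤ 2 * L * (1 / (N i : ℝ)) := by
    rw [mul_one_div, div_le_div_iff₀ hM0 hN0', one_mul]
    have h2 : (N i : ℝ) < L * (M + 1) := by exact_mod_cast hNi
    have h3 : (1 : ℝ) ≤ M := by exact_mod_cast hi
    have h4 : (0 : ℝ) < L := by exact_mod_cast hL
    nlinarith
  have e4 : 0 ≤ ∑ n ∈ Icc 1 (N i), g (R^[n] (z i)) := Finset.sum_nonneg fun _ _ => hg _
  calc 1 / (M : ℝ) * ∑ m ∈ Icc 1 M, g (R^[p * m] (z i)) ≤ 1 / (M : ℝ) * ∑ n ∈ Icc 1 (N i), g (R^[n] (z i)) :=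
        mul_le_mul_of_nonneg_left e1 (by positivity)
    _ ≤ 2 * L * (1 / (N i : ℝ)) * ∑ n ∈ Icc 1 (N i), g (R^[n] (z i)) := mul_le_mul_of_nonneg_right e3 e4
    _ = _ := by ring

/-- **correlations along quasi-generic points of a combination** -/
theorem Cells.corr (h : Cells R ν A) (hRc : Continuous R) (hμ : μ = Measure.sum fun j => c j • ν j)
    [IsProbabilityMeasure μ] {z : ℕ → X} {N : ℕ → ℕ} (hN : Tendsto N atTop atTop) (hq : QGen R μ z N) {p q L : ℕ}
    (hp : 0 < p) (hq0 : 0 < q) (hpL : p ≤ L) (hqL : q ≤ L) (t : Finset ι)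
    (f s : C(X, ℂ)) (hf : ∀ x, ‖f x‖ ≤ 1)
    (hs : ∀ x, ‖s x‖ ≤ 1) {ε δ δ' : ℝ} (hε : 0 ≤ ε) (hδ : 0 ≤ δ) (hj : ∀ j ∈ t, ∫ x, ‖s x - f x‖ ∂ν j ≤ δ)
    (ht : ∫ x, (⋃ j ∈ t, A j)ᶜ.indicator (fun x => ‖s x‖) x ∂μ ≤ δ')
    (hjk : ∀ j ∈ t, ∀ k ∈ t, ∀ lam : Measure (X × X), IsProbabilityMeasure lam → Ergodic (Prod.map R^[p] R^[q]) lam →
      lam.map Prod.fst = ν j → lam.map Prod.snd = ν k → ‖∫ w, f w.1 * conj (f w.2) ∂lam‖ ≤ ε) {b : ℝ}
    (hb : 2 * ε + 2 * δ + 2 * (2 * L) * δ' < b) :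
    ∀ᶠ i in atTop, ‖∑ m ∈ Icc 1 (N i / L), s (R^[p * m] (z i)) * conj (s (R^[q * m] (z i)))‖ ≤ b * (N i / L : ℕ) := by
  have hL : 0 < L := hp.trans_le hpL
  have hML : Tendsto (fun i => N i / L) atTop atTop := by
    refine tendsto_atTop.2 fun b => ?_
    filter_upwards [hN.eventually_ge_atTop (b * L)] with i hi
    exact (Nat.le_div_iff_mul_le hL).2 hi
  by_contra hcon
  have hfr : ∃ᶠ i in atTop, ¬ ‖∑ m ∈ Icc 1 (N i / L), s (R^[p * m] (z i)) * conj (s (R^[q * m] (z i)))‖ ≤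
      b * (N i / L : ℕ) := Filter.not_eventually.1 hcon
  set bad : Set ℕ := {i | ¬ ‖∑ m ∈ Icc 1 (N i / L), s (R^[p * m] (z i)) * conj (s (R^[q * m] (z i)))‖ ≤
      b * (N i / L : ℕ)} with hbad
  have hne : (atTop ⊓ 𝓟 bad).NeBot := by
    rw [← Filter.frequently_mem_iff_neBot]
    exact hfr
  set U : Ultrafilter ℕ := Ultrafilter.of (atTop ⊓ 𝓟 bad) with hUdef
  have hU0 : (U : Filter ℕ) ≤ atTop ⊓ 𝓟 bad := Ultrafilter.of_le _
  have hU : (U : Filter ℕ) ≤ atTop := hU0.trans inf_le_left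
  have hUb : ∀ᶠ i in (U : Filter ℕ), i ∈ bad := hU0.trans inf_le_right (mem_principal_self bad)
  have hM1 : ∀ᶠ i in (U : Filter ℕ), 1 ≤ N i / L := (hML.eventually_ge_atTop 1).filter_mono hU
  set S : X × X → X × X := Prod.map R^[p] R^[q] with hSdef
  have hS : Continuous S := (hRc.iterate p).prodMap (hRc.iterate q)
  have hK : Tendsto (fun i => N i / L - 1) (U : Filter ℕ) atTop := by
    refine (tendsto_atTop.2 fun b => ?_)
    filter_upwards [(hML.mono_left hU).eventually_ge_atTop (b + 1)] with i hi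
    omega
  obtain ⟨ρ, r1, r2, r3⟩ := qg_lim S hS (fun i => (z i, z i)) (fun i => N i / L - 1) U hK
  -- the averages
  have hav : ∀ g : C(X × X, ℝ), Tendsto (fun i => (1 / ((N i / L : ℕ) : ℝ)) *
      ∑ m ∈ Icc 1 (N i / L), g (R^[p * m] (z i), R^[q * m] (z i))) (U : Filter ℕ) (𝓝 (∫ w, g w ∂ρ)) := by
    intro g
    refine (r3 g).congr' ?_
    filter_upwards [hM1] with i hi
    rw [qg_avg S g (z i, z i) (N i / L) hi]
    congr 1
    exact Finset.sum_congr rfl fun m _ => by rw [hSdef, qc_iter]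
  have m1 : ρ.map Prod.fst ≤ ENNReal.ofReal (2 * L) • μ := by
    have i1 : IsProbabilityMeasure (ρ.map Prod.fst) := Measure.isProbabilityMeasure_map measurable_fst.aemeasurable
    refine qc_le (by positivity) fun g hg => qc_dil z N hq p L hp hpL U hU hM1 g hg _ ?_
    rw [integral_map measurable_fst.aemeasurable g.continuous.measurable.aestronglyMeasurable]
    exact hav ⟨fun w => g w.1, by fun_prop⟩
  have m2 : ρ.map Prod.snd ≤ ENNReal.ofReal (2 * L) • μ := by
    have i1 : IsProbabilityMeasure (ρ.map Prod.snd) := Measure.isProbabilityMeasure_map measurable_snd.aemeasurable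
    refine qc_le (by positivity) fun g hg => qc_dil z N hq q L hq0 hqL U hU hM1 g hg _ ?_
    rw [integral_map measurable_snd.aemeasurable g.continuous.measurable.aestronglyMeasurable]
    exact hav ⟨fun w => g w.2, by fun_prop⟩
  have hup := h.all_cells hRc hμ hp hq0 r2 (C := 2 * L) (by positivity) m1 m2 t f s hf hs hε hδ hj ht hjk
  have hT := (qc_cplx_tendsto (w := fun i m => (R^[p * m] (z i), R^[q * m] (z i))) (M := fun i => N i / L) hav
    ⟨fun w => s w.1 * conj (s w.2), by fun_prop⟩).norm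
  simp only [ContinuousMap.coe_mk] at hT
  have hlow : b ≤ ‖∫ w, s w.1 * conj (s w.2) ∂ρ‖ := by
    refine ge_of_tendsto hT ?_
    filter_upwards [hUb, hM1] with i hi hi1
    have hi' : ¬ ‖∑ m ∈ Icc 1 (N i / L), s (R^[p * m] (z i)) * conj (s (R^[q * m] (z i)))‖ ≤ b * (N i / L : ℕ) := hi
    rw [not_le] at hi'
    have hM0 : (0 : ℝ) < ((N i / L : ℕ) : ℝ) := by exact_mod_cast hi1
    rw [norm_mul, Complex.norm_real, Real.norm_of_nonneg (by positivity), one_div, ← div_eq_inv_mul, le_div_iff₀ hM0]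
    exact hi'.le
  linarith

/-- one function of norm at most `1` -/
theorem Cells.one_fun [Countable ι] (h : Cells R ν A) (hRc : Continuous R) (hμ : μ = Measure.sum fun j => c j • ν j)
    [IsProbabilityMeasure μ] {z : ℕ → X} {N : ℕ → ℕ} (hN : Tendsto N atTop atTop) (hq : QGen R μ z N)
    (f : C(X, ℂ)) (hf : ∀ x, ‖f x‖ ≤ 1) (hs : ∀ j k, c j ≠ 0 → c k ≠ 0 → SJ2 (ν j) R f (ν k) R f) {u : ℕ → ℂ}
    (hu : HD.BMult u) (ε : ℝ) (hε : 0 < ε) :
    ∀ᶠ i in atTop, ‖∑ n ∈ Icc 1 (N i), u n * f (R^[n] (z i))‖ ≤ ε * N i := by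
  classical
  obtain ⟨t, ht0, htail⟩ := h.tail hμ (τ := ε / 8) (by positivity)
  set B : Set X := ⋃ j ∈ t, A j with hB
  have hBm : MeasurableSet B := Finset.measurableSet_biUnion _ fun j _ => h.meas j
  set e0 : ℝ := (ε / 2 / 4) ^ 2 with he0
  have he0p : 0 < e0 := by positivity
  -- the threshold
  have hthr : ∀ᶠ q0 : ℕ in atTop, ∀ x ∈ t ×ˢ t, ∀ p q : ℕ, p.Prime → q.Prime → p ≠ q → q0 ≤ p → q0 ≤ q →
      ∀ lam : Measure (X × X), IsProbabilityMeasure lam → Ergodic (Prod.map R^[p] R^[q]) lam →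
      lam.map Prod.fst = ν x.1 → lam.map Prod.snd = ν x.2 → ‖∫ w, f w.1 * conj (f w.2) ∂lam‖ ≤ e0 / 8 := by
    rw [Filter.eventually_all_finset]
    rintro ⟨j, k⟩ hjk
    rw [mem_product] at hjk
    obtain ⟨q0, hq0⟩ := hs j k (ht0 j hjk.1) (ht0 k hjk.2) (e0 / 8) (by positivity)
    filter_upwards [eventually_ge_atTop q0] with q1 hq1 p q pp qp hne hp hq'
    exact hq0 p q pp qp hne (hq1.trans hp) (hq1.trans hq')
  obtain ⟨q0, hq0⟩ := hthr.exists
  obtain ⟨J, N0, hJ⟩ := kbsz_scale hu (ε / 2) (by positivity) q0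
  -- the cutoff
  have hη : ∀ᶠ η : ℝ in 𝓝[>] 0, (η ≤ e0 / (16 * 2 ^ J) ∧ η ≤ ε / 8) ∧ ∀ j ∈ t, η ≤ e0 / 8 * (c j).toReal := by
    have hct : ∀ j, c j ≠ ∞ := by
      intro j hj
      have h1 : μ Set.univ = ∞ := by
        rw [hμ, Measure.sum_apply _ MeasurableSet.univ]
        refine ENNReal.tsum_eq_top_of_eq_top ⟨j, ?_⟩
        have := h.prob j
        rw [Measure.smul_apply, measure_univ, smul_eq_mul, mul_one, hj]
      exact measure_ne_top μ _ h1
    have w1 : ∀ᶠ η : ℝ in 𝓝[>] 0, η ≤ e0 / (16 * 2 ^ J) := by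
      filter_upwards [Ioo_mem_nhdsGT (show (0 : ℝ) < e0 / (16 * 2 ^ J) by positivity)] with x hx
      exact hx.2.le
    have w2 : ∀ᶠ η : ℝ in 𝓝[>] 0, η ≤ ε / 8 := by
      filter_upwards [Ioo_mem_nhdsGT (show (0 : ℝ) < ε / 8 by positivity)] with x hx
      exact hx.2.le
    refine (w1.and w2).and ((Filter.eventually_all_finset t).2 fun j hj => ?_)
    · have h1 : 0 < (c j).toReal := ENNReal.toReal_pos (ht0 j hj) (hct j)
      filter_upwards [Ioo_mem_nhdsGT (show (0 : ℝ) < e0 / 8 * (c j).toReal by positivity)] with x hx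
      exact hx.2.le
  obtain ⟨η, ⟨⟨hη1, hη2⟩, hη3⟩, hη0⟩ := (hη.and self_mem_nhdsWithin).exists
  have hη0 : 0 < η := hη0
  obtain ⟨χ, χ0, χ1, hχ⟩ := qc_cut (μ := μ) hBm hη0
  set s : C(X, ℂ) := ⟨fun x => (χ x : ℂ) * f x, by fun_prop⟩ with hsdef
  have hsv : ∀ x, s x = (χ x : ℂ) * f x := fun _ => rfl
  have hs1 : ∀ x, ‖s x‖ ≤ χ x := by
    intro x
    rw [hsv, norm_mul, Complex.norm_real, Real.norm_of_nonneg (χ0 x)]
    exact mul_le_of_le_one_right (χ0 x) (hf x)
  have hsf : ∀ x, ‖s x - f x‖ ≤ 1 - χ x := by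
    intro x
    have e1 : s x - f x = -(((1 - χ x : ℝ) : ℂ) * f x) := by rw [hsv]; push_cast; ring
    rw [e1, norm_neg, norm_mul, Complex.norm_real, Real.norm_of_nonneg (by linarith [χ1 x])]
    exact mul_le_of_le_one_right (by linarith [χ1 x]) (hf x)
  set D : X → ℝ := fun x => |B.indicator (fun _ => (1 : ℝ)) x - χ x| with hD
  have hD0 : ∀ x, 0 ≤ D x := fun x => abs_nonneg _
  have hDm : Measurable D := ((measurable_const.indicator hBm).sub χ.continuous.measurable).norm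
  have hDb : ∀ x, D x ≤ 1 := by
    intro x
    rw [hD]
    simp only [Set.indicator_apply]
    rw [abs_le]
    split_ifs <;> constructor <;> linarith [χ0 x, χ1 x]
  have hDi : ∀ τ : Measure X, IsFiniteMeasure τ → Integrable D τ := fun τ hτ =>
    Integrable.of_bound hDm.aestronglyMeasurable 1 (Eventually.of_forall fun x => by
      rw [Real.norm_of_nonneg (hD0 x)]; exact hDb x)
  have hsfi : ∀ τ : Measure X, IsFiniteMeasure τ → Integrable (fun x => ‖s x - f x‖) τ := fun τ hτ =>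
    Integrable.of_bound (s.continuous.sub f.continuous).norm.measurable.aestronglyMeasurable 1
      (Eventually.of_forall fun x => by
        rw [norm_norm]; exact (hsf x).trans (by linarith [χ0 x]))
  have hcj : ∀ j ∈ t, ∫ x, ‖s x - f x‖ ∂ν j ≤ e0 / 8 := by
    intro j hj
    have hpj := h.prob j
    have h1 : ∫ x, ‖s x - f x‖ ∂ν j ≤ ∫ x, D x ∂ν j := by
      refine integral_mono_ae (hsfi _ inferInstance) (hDi _ inferInstance) ?_
      have h2 : ∀ᵐ x ∂ν j, x ∈ A j := by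
        rw [ae_iff]
        exact h.one j
      filter_upwards [h2] with x hx
      have h3 : x ∈ B := Set.mem_biUnion (show j ∈ (t : Set ι) from hj) hx
      show ‖s x - f x‖ ≤ |B.indicator (fun _ => (1 : ℝ)) x - χ x|
      rw [Set.indicator_of_mem h3, abs_of_nonneg (by linarith [χ1 x])]
      exact hsf x
    have h2 : (c j).toReal * ∫ x, D x ∂ν j ≤ ∫ x, D x ∂μ := by
      have h3 : c j • ν j ≤ μ := by
        rw [hμ]
        exact Measure.le_sum (fun j => c j • ν j) j
      have h4 := integral_mono_measure h3 (Eventually.of_forall hD0) (hDi _ inferInstance)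
      rwa [integral_smul_measure, smul_eq_mul] at h4
    have h5 := hη3 j hj
    have hcp : 0 < (c j).toReal := by
      by_contra h6
      have h7 : (c j).toReal = 0 := le_antisymm (not_lt.1 h6) ENNReal.toReal_nonneg
      rw [h7, mul_zero] at h5
      exact absurd hη0 (not_lt.2 h5)
    have h6 : (c j).toReal * ∫ x, D x ∂ν j ≤ (c j).toReal * (e0 / 8) := by
      refine h2.trans (hχ.trans ?_)
      rw [mul_comm]
      exact h5
    exact h1.trans (le_of_mul_le_mul_left h6 hcp)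
  have htl : ∫ x, Bᶜ.indicator (fun x => ‖s x‖) x ∂μ ≤ η := by
    refine le_trans (integral_mono_of_nonneg (Eventually.of_forall fun x => ?_) (hDi _ inferInstance)
      (Eventually.of_forall fun x => ?_)) hχ
    · exact Set.indicator_nonneg (fun _ _ => norm_nonneg _) x
    · show Bᶜ.indicator (fun x => ‖s x‖) x ≤ |B.indicator (fun _ => (1 : ℝ)) x - χ x|
      by_cases hx : x ∈ B
      · rw [Set.indicator_of_notMem (show x ∉ Bᶜ from fun h => h hx)]
        exact abs_nonneg _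
      · rw [Set.indicator_of_mem (show x ∈ Bᶜ from hx), Set.indicator_of_notMem hx, zero_sub, abs_neg,
          abs_of_nonneg (χ0 x)]
        exact hs1 x
  -- the correlations
  have hall : ∀ᶠ i in atTop, ∀ x ∈ range (2 ^ J) ×ˢ range (2 ^ J), x.1.Prime → x.2.Prime → q0 ≤ x.1 → q0 ≤ x.2 →
      x.1 ≠ x.2 → ‖∑ m ∈ Icc 1 (N i / max x.1 x.2), s (R^[x.1 * m] (z i)) * conj (s (R^[x.2 * m] (z i)))‖ ≤
        e0 * (N i / (max x.1 x.2 : ℕ)) := by
    rw [Filter.eventually_all_finset]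
    rintro ⟨p, q⟩ hpq
    rw [mem_product, mem_range, mem_range] at hpq
    by_cases hc : p.Prime ∧ q.Prime ∧ q0 ≤ p ∧ q0 ≤ q ∧ p ≠ q
    swap
    · exact Eventually.of_forall fun i a b c d e => absurd ⟨a, b, c, d, e⟩ hc
    obtain ⟨pp, qp, hp, hq', hne⟩ := hc
    have hLb : ((max p q : ℕ) : ℝ) ≤ 2 ^ J := by
      have : max p q ≤ 2 ^ J := max_le hpq.1.le hpq.2.le
      exact_mod_cast this
    have h1 := h.corr hRc hμ hN hq pp.pos qp.pos (le_max_left p q) (le_max_right p q) t f s hf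
      (fun x => (hs1 x).trans (χ1 x)) (ε := e0 / 8) (δ := e0 / 8) (δ' := η) (by positivity) (by positivity) hcj htl
      (fun j hj k hk => hq0 (j, k) (mem_product.2 ⟨hj, hk⟩) p q pp qp hne hp hq') (b := e0) (by
        have h2 : 2 * (2 * ((max p q : ℕ) : ℝ)) * η ≤ e0 / 4 := by
          calc 2 * (2 * ((max p q : ℕ) : ℝ)) * η ≤ 2 * (2 * 2 ^ J) * (e0 / (16 * 2 ^ J)) := by gcongr
            _ = e0 / 4 := by field_simp; ring
        linarith)
    filter_upwards [h1] with i hi _ _ _ _ _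
    exact hi.trans (mul_le_mul_of_nonneg_left Nat.cast_div_le he0p.le)
  -- the difference
  have hdif : ∀ᶠ i in atTop, ∑ n ∈ Icc 1 (N i), ‖s (R^[n] (z i)) - f (R^[n] (z i))‖ ≤ ε / 2 * N i := by
    set g : C(X, ℝ) := ⟨fun x => ‖s x - f x‖, (s.continuous.sub f.continuous).norm⟩ with hg
    have h1 : ∫ x, g x ∂μ ≤ ε / 4 := by
      have h2 : ∫ x, ‖s x - f x‖ ∂μ ≤ ∫ x, (D x + Bᶜ.indicator (fun _ => (1 : ℝ)) x) ∂μ := by
        have i1 : Integrable (fun x => Bᶜ.indicator (fun _ => (1 : ℝ)) x) μ := (integrable_const 1).indicator hBm.compl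
        refine integral_mono (hsfi _ inferInstance) ((hDi _ inferInstance).add i1) fun x => ?_
        show ‖s x - f x‖ ≤ |B.indicator (fun _ => (1 : ℝ)) x - χ x| + Bᶜ.indicator (fun _ => (1 : ℝ)) x
        by_cases hx : x ∈ B
        · rw [Set.indicator_of_mem hx, Set.indicator_of_notMem (show x ∉ Bᶜ from fun h => h hx), add_zero,
            abs_of_nonneg (by linarith [χ1 x])]
          exact hsf x
        · rw [Set.indicator_of_notMem hx, Set.indicator_of_mem (show x ∈ Bᶜ from hx)]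
          linarith [hsf x, χ0 x, abs_nonneg (0 - χ x)]
      refine h2.trans ?_
      rw [integral_add (hDi _ inferInstance) ((integrable_const 1).indicator hBm.compl),
        integral_indicator_const _ hBm.compl, smul_eq_mul, mul_one]
      have h3 : μ.real Bᶜ ≤ ε / 8 := htail
      linarith
    have h2 := (hq g).eventually (gt_mem_nhds (show ∫ x, g x ∂μ < ε / 2 by linarith))
    filter_upwards [h2, hN.eventually_ge_atTop 1] with i hi hi1
    have hNi : (0 : ℝ) < N i := by exact_mod_cast hi1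
    rw [one_div, ← div_eq_inv_mul, div_lt_iff₀ hNi] at hi
    exact hi.le
  filter_upwards [hall, hN.eventually_ge_atTop N0, hdif] with i hi hiN hid
  have h1 := hJ (fun n => s (R^[n] (z i))) (fun n => (hs1 _).trans (χ1 _)) (N i) hiN
    fun p q pp qp hp hq' hpJ hqJ hne =>
      hi (p, q) (mem_product.2 ⟨mem_range.2 hpJ, mem_range.2 hqJ⟩) pp qp hp hq' hne
  have h2 : ∑ n ∈ Icc 1 (N i), u n * f (R^[n] (z i)) = ∑ n ∈ Icc 1 (N i), u n * s (R^[n] (z i)) -
      ∑ n ∈ Icc 1 (N i), u n * (s (R^[n] (z i)) - f (R^[n] (z i))) := by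
    rw [← Finset.sum_sub_distrib]
    exact Finset.sum_congr rfl fun n _ => by ring
  rw [h2]
  refine (norm_sub_le _ _).trans ?_
  have h3 : ‖∑ n ∈ Icc 1 (N i), u n * (s (R^[n] (z i)) - f (R^[n] (z i)))‖ ≤ ε / 2 * N i := by
    refine (norm_sum_le _ _).trans (le_trans (Finset.sum_le_sum fun n _ => ?_) hid)
    rw [norm_mul]
    exact mul_le_of_le_one_left (norm_nonneg _) (hu.le_one n)
  linarith

end Main

end Pool.Agent.Lib.MP_9fe581_an.AP
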