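import Pool.Agent.Lib.MP_9fe581_an.HD.NonErg
import Pool.Agent.Lib.MP_9fe581_an.HD.MuShort

/-!
# AP, QC4: from mean zero functions to all continuous functions

If `u` is orthogonal to `g (R^n (z i))` along `[1, N i]` for every continuous `g` with `∫ g dν_j = 0` for all `j`, and the
averages of `u` over short intervals are small in the mean (`ShortOrth u 1`), then the same holds for EVERY continuous `f`:
`f = (f - A_L f) + A_L f`, `A_L f = (1/L) ∑_{k < L} f ∘ R^k`.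
-/

set_option autoImplicit false

open Finset MeasureTheory Filter Topology
open scoped ComplexConjugate ENNReal

namespace Pool.Agent.Lib.MP_9fe581_an.AP

private theorem q4_step (g : ℕ → ℂ) (N : ℕ) : ∑ m ∈ Icc 1 N, g m - ∑ n ∈ Icc 1 N, g (n + 1) = g 1 - g (N + 1) := by
  induction N with
  | zero => simp
  | succ N ih =>
    rw [Finset.sum_Icc_succ_top (by omega), Finset.sum_Icc_succ_top (by omega)]
    have : ∑ m ∈ Icc 1 N, g m + g (N + 1) - (∑ n ∈ Icc 1 N, g (n + 1) + g (N + 1 + 1)) =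
        (∑ m ∈ Icc 1 N, g m - ∑ n ∈ Icc 1 N, g (n + 1)) + g (N + 1) - g (N + 1 + 1) := by ring
    rw [this, ih]
    ring

private theorem q4_shift (B : ℝ) (N k : ℕ) : ∀ g : ℕ → ℂ, (∀ n, ‖g n‖ ≤ B) →
    ‖∑ m ∈ Icc 1 N, g m - ∑ n ∈ Icc 1 N, g (n + k)‖ ≤ 2 * k * B := by
  induction k with
  | zero =>
    intro g _
    simp
  | succ k ih =>
    intro g hg
    have h1 := ih (fun n => g (n + 1)) fun n => hg _
    have h2 := q4_step g N
    have e1 : ∑ m ∈ Icc 1 N, g m - ∑ n ∈ Icc 1 N, g (n + (k + 1)) =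
        (g 1 - g (N + 1)) + (∑ m ∈ Icc 1 N, g (m + 1) - ∑ n ∈ Icc 1 N, g (n + k + 1)) := by
      rw [← h2]
      simp only [add_assoc]
      ring
    rw [e1]
    have h3 : ‖g 1 - g (N + 1)‖ ≤ 2 * B := (norm_sub_le _ _).trans (by linarith [hg 1, hg (N + 1)])
    calc _ ≤ ‖g 1 - g (N + 1)‖ + ‖∑ m ∈ Icc 1 N, g (m + 1) - ∑ n ∈ Icc 1 N, g (n + k + 1)‖ := norm_add_le _ _
      _ ≤ 2 * B + 2 * k * B := add_le_add h3 h1
      _ = 2 * ((k + 1 : ℕ) : ℝ) * B := by push_cast; ring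

/-- the sum over the averages is a sum of short sums -/
private theorem q4_short {u F : ℕ → ℂ} (hu : ∀ n, ‖u n‖ ≤ 1) {B : ℝ} (hB : 0 ≤ B) (hF : ∀ n, ‖F n‖ ≤ B) (L N : ℕ) :
    ‖∑ m ∈ Icc 1 N, u m * ∑ k ∈ range L, F (m + k)‖ ≤
      B * ∑ n ∈ Icc 1 N, ‖∑ l ∈ range L, u (n + l)‖ + 2 * L ^ 2 * B := by
  have e1 : ∑ m ∈ Icc 1 N, u m * ∑ k ∈ range L, F (m + k) =
      ∑ k ∈ range L, ∑ m ∈ Icc 1 N, u m * F (m + (L - 1 - k)) := by
    simp only [Finset.mul_sum]
    rw [Finset.sum_comm]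
    exact (Finset.sum_range_reflect (fun k => ∑ m ∈ Icc 1 N, u m * F (m + k)) L).symm
  have e2 : ∑ n ∈ Icc 1 N, F (n + (L - 1)) * ∑ l ∈ range L, u (n + l) =
      ∑ k ∈ range L, ∑ n ∈ Icc 1 N, u (n + k) * F (n + k + (L - 1 - k)) := by
    simp only [Finset.mul_sum]
    rw [Finset.sum_comm]
    refine Finset.sum_congr rfl fun k hk => Finset.sum_congr rfl fun n _ => ?_
    have : n + k + (L - 1 - k) = n + (L - 1) := by
      have := mem_range.1 hk
      omega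
    rw [this, mul_comm]
  have h1 : ‖∑ m ∈ Icc 1 N, u m * ∑ k ∈ range L, F (m + k) -
      ∑ n ∈ Icc 1 N, F (n + (L - 1)) * ∑ l ∈ range L, u (n + l)‖ ≤ 2 * L ^ 2 * B := by
    rw [e1, e2, ← Finset.sum_sub_distrib]
    refine (norm_sum_le _ _).trans ?_
    calc ∑ k ∈ range L, ‖∑ m ∈ Icc 1 N, u m * F (m + (L - 1 - k)) - ∑ n ∈ Icc 1 N, u (n + k) * F (n + k + (L - 1 - k))‖
        ≤ ∑ k ∈ range L, 2 * L * B := by
          refine Finset.sum_le_sum fun k hk => ?_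
          have h2 := q4_shift B N k (fun m => u m * F (m + (L - 1 - k))) fun n => by
            rw [norm_mul]
            calc ‖u n‖ * ‖F (n + (L - 1 - k))‖ ≤ 1 * B := mul_le_mul (hu n) (hF _) (norm_nonneg _) zero_le_one
              _ = B := one_mul B
          refine h2.trans ?_
          have h3 : (k : ℝ) ≤ L := by exact_mod_cast (mem_range.1 hk).le
          nlinarith
      _ = 2 * L ^ 2 * B := by
          rw [Finset.sum_const, card_range, nsmul_eq_mul]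
          ring
  have h2 : ‖∑ n ∈ Icc 1 N, F (n + (L - 1)) * ∑ l ∈ range L, u (n + l)‖ ≤
      B * ∑ n ∈ Icc 1 N, ‖∑ l ∈ range L, u (n + l)‖ := by
    rw [Finset.mul_sum]
    refine (norm_sum_le _ _).trans (Finset.sum_le_sum fun n _ => ?_)
    rw [norm_mul]
    exact mul_le_mul_of_nonneg_right (hF _) (norm_nonneg _)
  have h3 := norm_sub_norm_le (∑ m ∈ Icc 1 N, u m * ∑ k ∈ range L, F (m + k))
    (∑ n ∈ Icc 1 N, F (n + (L - 1)) * ∑ l ∈ range L, u (n + l))
  linarith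

section

variable {Z : Type} [TopologicalSpace Z] [CompactSpace Z] [TopologicalSpace.MetrizableSpace Z] [MeasurableSpace Z]
  [BorelSpace Z]

/-- **from mean zero functions to all continuous functions**, for `u` with small averages over short intervals -/
theorem qc4_of_short {u : ℕ → ℂ} (hu : ∀ n, ‖u n‖ ≤ 1) (hS : HD.ShortOrth u 1) {R : Z → Z} (hRc : Continuous R)
    {ι I : Type} {ν : ι → Measure Z} [∀ j, IsProbabilityMeasure (ν j)] (hR : ∀ j, MeasurePreserving R (ν j) (ν j))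
    {l : Filter I} {z : I → Z} {N : I → ℕ} (hN : Tendsto N l atTop)
    (hA : ∀ g : Z → ℂ, Continuous g → (∀ j, ∫ x, g x ∂ν j = 0) → ∀ ε : ℝ, 0 < ε →
      ∀ᶠ i in l, ‖∑ n ∈ Icc 1 (N i), u n * g (R^[n] (z i))‖ ≤ ε * N i)
    {f : Z → ℂ} (hf : Continuous f) (ε : ℝ) (hε : 0 < ε) :
    ∀ᶠ i in l, ‖∑ n ∈ Icc 1 (N i), u n * f (R^[n] (z i))‖ ≤ ε * N i := by
  obtain ⟨B, hB⟩ : ∃ B, ∀ x, ‖f x‖ ≤ B := by
    obtain ⟨B, hB⟩ := (isCompact_range hf.norm).bddAbove
    exact ⟨B, fun x => hB ⟨x, rfl⟩⟩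
  set B' : ℝ := |B| + 1 with hB'
  have hB'0 : 0 < B' := by positivity
  have hBf : ∀ x, ‖f x‖ ≤ B' := fun x => (hB x).trans ((le_abs_self B).trans (by linarith))
  obtain ⟨L0, hL0⟩ := hS (ε / (4 * B')) (by positivity)
  set L : ℕ := max L0 1 with hL
  have hL1 : 1 ≤ L := le_max_right _ _
  obtain ⟨N0, hN0⟩ := hL0 L (le_max_left _ _)
  have hLr : (0 : ℝ) < L := by exact_mod_cast hL1
  have hLc : (L : ℂ) ≠ 0 := by exact_mod_cast (by omega : L ≠ 0)
  set g : Z → ℂ := fun x => f x - (1 / (L : ℂ)) * ∑ k ∈ range L, f (R^[k] x) with hg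
  have hgc : Continuous g :=
    hf.sub (continuous_const.mul (continuous_finsetSum _ fun k _ => hf.comp (hRc.iterate k)))
  have hfi : ∀ j, Integrable f (ν j) := fun j =>
    Integrable.of_bound hf.measurable.aestronglyMeasurable B' (Eventually.of_forall hBf)
  have hg0 : ∀ j, ∫ x, g x ∂ν j = 0 := by
    intro j
    have hk : ∀ k, Integrable (fun x => f (R^[k] x)) (ν j) := fun k =>
      Integrable.of_bound (hf.comp (hRc.iterate k)).measurable.aestronglyMeasurable B'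
        (Eventually.of_forall fun x => hBf _)
    have hk2 : ∀ k, ∫ x, f (R^[k] x) ∂ν j = ∫ x, f x ∂ν j := by
      intro k
      have h1 := (hR j).iterate k
      have h2 : ∫ y, f y ∂((ν j).map R^[k]) = ∫ x, f (R^[k] x) ∂ν j :=
        integral_map h1.measurable.aemeasurable hf.measurable.aestronglyMeasurable
      rw [← h2, h1.map_eq]
    simp only [hg]
    rw [integral_sub (hfi j) ((integrable_finsetSum _ fun k _ => hk k).const_mul _), integral_const_mul,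
      integral_finsetSum _ fun k _ => hk k]
    simp only [hk2]
    rw [Finset.sum_const, card_range, nsmul_eq_mul]
    field_simp
    ring
  have h1 := hA g hgc hg0 (ε / 4) (by positivity)
  obtain ⟨K, hK⟩ := exists_nat_ge (2 * L * B' / (ε / 4))
  filter_upwards [h1, hN.eventually_ge_atTop N0, hN.eventually_ge_atTop K] with i h2 h3 h4
  have h5 := hN0 (N i) h3
  simp only [one_pow, mul_one] at h5
  have h6 := q4_short hu hB'0.le (F := fun n => f (R^[n] (z i))) (fun n => hBf _) L (N i)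
  have e1 : ∑ n ∈ Icc 1 (N i), u n * f (R^[n] (z i)) = ∑ n ∈ Icc 1 (N i), u n * g (R^[n] (z i)) +
      (1 / (L : ℂ)) * ∑ m ∈ Icc 1 (N i), u m * ∑ k ∈ range L, f (R^[m + k] (z i)) := by
    rw [Finset.mul_sum, ← Finset.sum_add_distrib]
    refine Finset.sum_congr rfl fun n _ => ?_
    have : ∀ k, R^[k] (R^[n] (z i)) = R^[n + k] (z i) := fun k => by
      rw [← Function.iterate_add_apply, add_comm]
    simp only [hg, this]
    ring
  rw [e1]
  have hNi : (0 : ℝ) ≤ N i := Nat.cast_nonneg _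
  have h7 : ‖(1 / (L : ℂ)) * ∑ m ∈ Icc 1 (N i), u m * ∑ k ∈ range L, f (R^[m + k] (z i))‖ ≤
      ε / 4 * N i + 2 * L * B' := by
    rw [norm_mul, norm_div, norm_one, Complex.norm_natCast, one_div, inv_mul_le_iff₀ hLr]
    refine h6.trans ?_
    have h8 : B' * ∑ n ∈ Icc 1 (N i), ‖∑ l ∈ range L, u (n + l)‖ ≤ B' * (ε / (4 * B') * L * N i) :=
      mul_le_mul_of_nonneg_left h5 hB'0.le
    have e2 : B' * (ε / (4 * B') * L * N i) = L * (ε / 4 * N i) := by
      field_simp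
    rw [e2] at h8
    nlinarith
  have h8 : 2 * L * B' ≤ ε / 4 * N i := by
    have h9 : 2 * L * B' / (ε / 4) ≤ N i := hK.trans (by exact_mod_cast h4)
    rw [div_le_iff₀ (by positivity)] at h9
    linarith
  calc _ ≤ ‖∑ n ∈ Icc 1 (N i), u n * g (R^[n] (z i))‖ +
        ‖(1 / (L : ℂ)) * ∑ m ∈ Icc 1 (N i), u m * ∑ k ∈ range L, f (R^[m + k] (z i))‖ := norm_add_le _ _
    _ ≤ ε / 4 * N i + (ε / 4 * N i + 2 * L * B') := add_le_add h2 h7
    _ ≤ ε * N i := by nlinarith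

/-- **Möbius** -/
theorem qc4 {R : Z → Z} (hRc : Continuous R)
    {ι I : Type} {ν : ι → Measure Z} [∀ j, IsProbabilityMeasure (ν j)] (hR : ∀ j, MeasurePreserving R (ν j) (ν j))
    {l : Filter I} {z : I → Z} {N : I → ℕ} (hN : Tendsto N l atTop)
    (hA : ∀ g : Z → ℂ, Continuous g → (∀ j, ∫ x, g x ∂ν j = 0) → ∀ ε : ℝ, 0 < ε →
      ∀ᶠ i in l, ‖∑ n ∈ Icc 1 (N i), ((ArithmeticFunction.moebius n : ℤ) : ℂ) * g (R^[n] (z i))‖ ≤ ε * N i)
    {f : Z → ℂ} (hf : Continuous f) (ε : ℝ) (hε : 0 < ε) :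
    ∀ᶠ i in l, ‖∑ n ∈ Icc 1 (N i), ((ArithmeticFunction.moebius n : ℤ) : ℂ) * f (R^[n] (z i))‖ ≤ ε * N i := by
  refine qc4_of_short (fun n => ?_) (HD.mu_short 1 1 one_pos (one_pow 1)) hRc hR hN hA hf ε hε
  have h1 : |ArithmeticFunction.moebius n| ≤ 1 := ArithmeticFunction.abs_moebius_le_one
  rw [Complex.norm_intCast]
  exact_mod_cast h1

end

end Pool.Agent.Lib.MP_9fe581_an.AP
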