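import Pool.Agent.Lib.MP_9fe581_an.AP.QC3

/-! # AP, QC5: the cutting principle

Quasi-generic points of an arbitrary invariant measure: it is enough to bound the joinings on `B × B`, where `B` has almost
full measure. -/

set_option autoImplicit false

open Finset MeasureTheory Filter Topology
open scoped ComplexConjugate ENNReal NNReal

namespace Pool.Agent.Lib.MP_9fe581_an.AP

variable {X : Type} [TopologicalSpace X] [CompactSpace X] [TopologicalSpace.MetrizableSpace X]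
    [MeasurableSpace X] [BorelSpace X] {R : X → X} {μ : Measure X}

/-- all invariant measures of `R^p × R^q` whose marginals are dominated by `μ` are small on `(f ⊗ conj f) 1_{B × B}` -/
def CutB (R : X → X) (μ : Measure X) (f : X → ℂ) (B : Set X) (ε : ℝ) (q0 : ℕ) : Prop :=
  ∀ p q : ℕ, p.Prime → q.Prime → p ≠ q → q0 ≤ p → q0 ≤ q → ∀ ρ : Measure (X × X), IsProbabilityMeasure ρ →
    MeasurePreserving (Prod.map R^[p] R^[q]) ρ ρ → ∀ C : ℝ, 0 ≤ C → ρ.map Prod.fst ≤ ENNReal.ofReal C • μ →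
    ρ.map Prod.snd ≤ ENNReal.ofReal C • μ → ‖∫ w in B ×ˢ B, f w.1 * conj (f w.2) ∂ρ‖ ≤ ε

/-- replacing the indicator of `B` by a continuous function -/
theorem cut_chi {ρ : Measure (X × X)} [IsProbabilityMeasure ρ] [IsProbabilityMeasure μ] {C : ℝ} (hC : 0 ≤ C)
    (h1 : ρ.map Prod.fst ≤ ENNReal.ofReal C • μ) (h2 : ρ.map Prod.snd ≤ ENNReal.ofReal C • μ) {B : Set X}
    (hB : MeasurableSet B) (f : C(X, ℂ)) (hf : ∀ x, ‖f x‖ ≤ 1) (χ : C(X, ℝ)) (χ0 : ∀ x, 0 ≤ χ x) (χ1 : ∀ x, χ x ≤ 1)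
    {η : ℝ} (hχ : ∫ x, |B.indicator (fun _ => (1 : ℝ)) x - χ x| ∂μ ≤ η) :
    ‖∫ w, (((χ w.1 : ℂ) * f w.1) * conj ((χ w.2 : ℂ) * f w.2)) ∂ρ‖ ≤
      ‖∫ w in B ×ˢ B, f w.1 * conj (f w.2) ∂ρ‖ + 2 * C * η := by
  classical
  set D : X → ℝ := fun x => |B.indicator (fun _ => (1 : ℝ)) x - χ x| with hD
  have hD0 : ∀ x, 0 ≤ D x := fun x => abs_nonneg _
  have hDm : Measurable D := ((measurable_const.indicator hB).sub χ.continuous.measurable).norm
  have hDb : ∀ x, D x ≤ 1 := by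
    intro x
    rw [hD]
    simp only [Set.indicator_apply]
    rw [abs_le]
    split_ifs <;> constructor <;> linarith [χ0 x, χ1 x]
  have hDi : ∀ τ : Measure X, IsFiniteMeasure τ → Integrable D τ := fun τ hτ =>
    Integrable.of_bound hDm.aestronglyMeasurable 1 (Eventually.of_forall fun x => by
      rw [Real.norm_of_nonneg (hD0 x)]; exact hDb x)
  have dom : ∀ σ : Measure X, σ ≤ ENNReal.ofReal C • μ → ∫ x, D x ∂σ ≤ C * η := by
    intro σ hσ
    have f1 : IsFiniteMeasure (ENNReal.ofReal C • μ) := Measure.smul_finite _ ENNReal.ofReal_ne_top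
    have f2 := integral_mono_measure hσ (Eventually.of_forall hD0) (hDi _ f1)
    rw [integral_smul_measure, ENNReal.toReal_ofReal hC, smul_eq_mul] at f2
    exact f2.trans (mul_le_mul_of_nonneg_left hχ hC)
  have l2 : ∫ w : X × X, D w.1 ∂ρ ≤ C * η := by
    have := dom _ h1
    rwa [integral_map measurable_fst.aemeasurable hDm.aestronglyMeasurable] at this
  have l3 : ∫ w : X × X, D w.2 ∂ρ ≤ C * η := by
    have := dom _ h2
    rwa [integral_map measurable_snd.aemeasurable hDm.aestronglyMeasurable] at this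
  have i1 : Integrable (fun w : X × X => D w.1) ρ :=
    Integrable.of_bound (hDm.comp measurable_fst).aestronglyMeasurable 1 (Eventually.of_forall fun x => by
      rw [Real.norm_of_nonneg (hD0 _)]; exact hDb _)
  have i2 : Integrable (fun w : X × X => D w.2) ρ :=
    Integrable.of_bound (hDm.comp measurable_snd).aestronglyMeasurable 1 (Eventually.of_forall fun x => by
      rw [Real.norm_of_nonneg (hD0 _)]; exact hDb _)
  have mf1 : Measurable fun w : X × X => f w.1 := f.continuous.measurable.comp measurable_fst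
  have mf2 : Measurable fun w : X × X => f w.2 := f.continuous.measurable.comp measurable_snd
  have mc1 : Measurable fun w : X × X => (χ w.1 : ℂ) :=
    Complex.measurable_ofReal.comp (χ.continuous.measurable.comp measurable_fst)
  have mc2 : Measurable fun w : X × X => (χ w.2 : ℂ) :=
    Complex.measurable_ofReal.comp (χ.continuous.measurable.comp measurable_snd)
  have cj : ∀ {g : X × X → ℂ}, Measurable g → Measurable fun w => conj (g w) := fun hg =>
    Complex.continuous_conj.measurable.comp hg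
  have hff : ∀ w : X × X, ‖f w.1 * conj (f w.2)‖ ≤ 1 := fun w => by
    rw [norm_mul, RCLike.norm_conj]; exact mul_le_one₀ (hf _) (norm_nonneg _) (hf _)
  have j1 : Integrable (fun w : X × X => f w.1 * conj (f w.2)) ρ :=
    Integrable.of_bound (mf1.mul (cj mf2)).aestronglyMeasurable 1 (Eventually.of_forall hff)
  have j2 : Integrable (fun w : X × X => ((χ w.1 : ℂ) * f w.1) * conj ((χ w.2 : ℂ) * f w.2)) ρ :=
    Integrable.of_bound ((mc1.mul mf1).mul (cj (mc2.mul mf2))).aestronglyMeasurable 1 (Eventually.of_forall fun w => by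
      rw [norm_mul, RCLike.norm_conj, norm_mul, norm_mul, Complex.norm_real, Complex.norm_real,
        Real.norm_of_nonneg (χ0 _), Real.norm_of_nonneg (χ0 _)]
      exact mul_le_one₀ (mul_le_one₀ (χ1 _) (norm_nonneg _) (hf _)) (mul_nonneg (χ0 _) (norm_nonneg _))
        (mul_le_one₀ (χ1 _) (norm_nonneg _) (hf _)))
  have hBB : MeasurableSet (B ×ˢ B) := hB.prod hB
  rw [← integral_indicator hBB]
  have e1 : ∀ w : X × X, ‖((χ w.1 : ℂ) * f w.1) * conj ((χ w.2 : ℂ) * f w.2) -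
      (B ×ˢ B).indicator (fun w : X × X => f w.1 * conj (f w.2)) w‖ ≤ D w.1 + D w.2 := by
    intro w
    have e2 : (B ×ˢ B).indicator (fun w : X × X => f w.1 * conj (f w.2)) w =
        ((B.indicator (fun _ => (1 : ℝ)) w.1 * B.indicator (fun _ => (1 : ℝ)) w.2 : ℝ) : ℂ) * (f w.1 * conj (f w.2)) := by
      simp only [Set.indicator_apply, Set.mem_prod]
      by_cases a1 : w.1 ∈ B <;> by_cases a2 : w.2 ∈ B <;> simp [a1, a2]
    have e3 : ((χ w.1 : ℂ) * f w.1) * conj ((χ w.2 : ℂ) * f w.2) = ((χ w.1 * χ w.2 : ℝ) : ℂ) * (f w.1 * conj (f w.2)) := by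
      rw [map_mul, Complex.conj_ofReal]
      push_cast
      ring
    rw [e2, e3, ← sub_mul, ← Complex.ofReal_sub, norm_mul, Complex.norm_real]
    refine (mul_le_of_le_one_right (norm_nonneg _) (hff w)).trans ?_
    have e4 : χ w.1 * χ w.2 - B.indicator (fun _ => (1 : ℝ)) w.1 * B.indicator (fun _ => (1 : ℝ)) w.2 =
        -((B.indicator (fun _ => (1 : ℝ)) w.1 - χ w.1) * χ w.2 +
          B.indicator (fun _ => (1 : ℝ)) w.1 * (B.indicator (fun _ => (1 : ℝ)) w.2 - χ w.2)) := by ring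
    rw [e4, norm_neg]
    refine (norm_add_le _ _).trans (add_le_add ?_ ?_)
    · rw [norm_mul]
      refine mul_le_of_le_one_right (norm_nonneg _) ?_
      rw [Real.norm_of_nonneg (χ0 _)]
      exact χ1 _
    · rw [norm_mul]
      refine mul_le_of_le_one_left (norm_nonneg _) ?_
      rw [Set.indicator_apply]
      split_ifs
      · rw [norm_one]
      · rw [norm_zero]; exact zero_le_one
  have j3 : Integrable ((B ×ˢ B).indicator fun w : X × X => f w.1 * conj (f w.2)) ρ := j1.indicator hBB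
  have e5 : ‖(∫ w, (((χ w.1 : ℂ) * f w.1) * conj ((χ w.2 : ℂ) * f w.2)) ∂ρ) -
      ∫ w, (B ×ˢ B).indicator (fun w : X × X => f w.1 * conj (f w.2)) w ∂ρ‖ ≤ 2 * C * η := by
    rw [← integral_sub j2 j3]
    refine (norm_integral_le_integral_norm _).trans ?_
    refine (integral_mono (j2.sub j3).norm (i1.add i2) e1).trans ?_
    have e6 : ∫ w, ((fun w : X × X => D w.1) + fun w : X × X => D w.2) w ∂ρ =
        (∫ w : X × X, D w.1 ∂ρ) + ∫ w : X × X, D w.2 ∂ρ := integral_add i1 i2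
    rw [e6]
    linarith
  have e7 := norm_sub_norm_le (∫ w, (((χ w.1 : ℂ) * f w.1) * conj ((χ w.2 : ℂ) * f w.2)) ∂ρ)
    (∫ w, (B ×ˢ B).indicator (fun w : X × X => f w.1 * conj (f w.2)) w ∂ρ)
  linarith

/-- the averages along the multiples of `p` -/
private theorem cut_dil (z : ℕ → X) (N : ℕ → ℕ) (hq : QGen R μ z N) (p L : ℕ) (hp : 0 < p) (hpL : p ≤ L) (U : Ultrafilter ℕ)
    (hU : (U : Filter ℕ) ≤ atTop) (hM : ∀ᶠ i in (U : Filter ℕ), 1 ≤ N i / L) (g : C(X, ℝ)) (hg : ∀ x, 0 ≤ g x) (b : ℝ)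
    (hb : Tendsto (fun i => (1 / ((N i / L : ℕ) : ℝ)) * ∑ m ∈ Icc 1 (N i / L), g (R^[p * m] (z i))) (U : Filter ℕ) (𝓝 b)) :
    b ≤ 2 * L * ∫ x, g x ∂μ := by
  have hL : 0 < L := hp.trans_le hpL
  have h1 := ((hq g).mono_left hU).const_mul (2 * (L : ℝ))
  refine le_of_tendsto_of_tendsto hb h1 ?_
  filter_upwards [hM] with i hi
  set M := N i / L with hMdef
  have hM0 : (0 : ℝ) < M := by exact_mod_cast hi
  have hNi : N i < L * (M + 1) := by
    have := Nat.lt_mul_div_succ (N i) hL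
    exact this
  have hNM : L * M ≤ N i := Nat.mul_div_le _ _
  have hN0 : 0 < N i := lt_of_lt_of_le (Nat.mul_pos hL hi) hNM
  have hN0' : (0 : ℝ) < N i := by exact_mod_cast hN0
  have e1 : ∑ m ∈ Icc 1 M, g (R^[p * m] (z i)) ≤ ∑ n ∈ Icc 1 (N i), g (R^[n] (z i)) := by
    have e2 : ∑ m ∈ Icc 1 M, g (R^[p * m] (z i)) = ∑ n ∈ (Icc 1 M).image (fun m => p * m), g (R^[n] (z i)) := by
      rw [Finset.sum_image]
      intro a _ b _ hab
      exact Nat.eq_of_mul_eq_mul_left hp hab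
    rw [e2]
    refine Finset.sum_le_sum_of_subset_of_nonneg ?_ fun _ _ _ => hg _
    intro n hn
    rw [mem_image] at hn
    obtain ⟨m, hm, rfl⟩ := hn
    rw [mem_Icc] at hm ⊢
    exact ⟨Nat.mul_pos hp hm.1, (Nat.mul_le_mul hpL hm.2).trans hNM⟩
  have e3 : 1 / (M : ℝ) ≤ 2 * L * (1 / (N i : ℝ)) := by
    rw [mul_one_div, div_le_div_iff₀ hM0 hN0', one_mul]
    have h2 : (N i : ℝ) < L * (M + 1) := by exact_mod_cast hNi
    have h3 : (1 : ℝ) ≤ M := by exact_mod_cast hi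
    have h4 : (0 : ℝ) < L := by exact_mod_cast hL
    nlinarith
  have e4 : 0 ≤ ∑ n ∈ Icc 1 (N i), g (R^[n] (z i)) := Finset.sum_nonneg fun _ _ => hg _
  calc 1 / (M : ℝ) * ∑ m ∈ Icc 1 M, g (R^[p * m] (z i)) ≤ 1 / (M : ℝ) * ∑ n ∈ Icc 1 (N i), g (R^[n] (z i)) :=
        mul_le_mul_of_nonneg_left e1 (by positivity)
    _ ≤ 2 * L * (1 / (N i : ℝ)) * ∑ n ∈ Icc 1 (N i), g (R^[n] (z i)) := mul_le_mul_of_nonneg_right e3 e4
    _ = _ := by ring

private theorem cut_iter (p q m : ℕ) (x y : X) :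
    (Prod.map R^[p] R^[q])^[m] (x, y) = (R^[p * m] x, R^[q * m] y) := by
  rw [Prod.map_iterate, Prod.map_apply, Function.iterate_mul, Function.iterate_mul]

/-- **limits of correlations**: a bound for all dominated invariant measures is a bound for the correlations -/
theorem cut_corr (hRc : Continuous R) [IsProbabilityMeasure μ] {z : ℕ → X} {N : ℕ → ℕ} (hN : Tendsto N atTop atTop)
    (hq : QGen R μ z N) {p q L : ℕ} (hp : 0 < p) (hq0 : 0 < q) (hpL : p ≤ L) (hqL : q ≤ L) (s : C(X, ℂ)) {b b' : ℝ}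
    (h : ∀ ρ : Measure (X × X), IsProbabilityMeasure ρ → MeasurePreserving (Prod.map R^[p] R^[q]) ρ ρ →
      ρ.map Prod.fst ≤ ENNReal.ofReal (2 * L) • μ → ρ.map Prod.snd ≤ ENNReal.ofReal (2 * L) • μ →
      ‖∫ w, s w.1 * conj (s w.2) ∂ρ‖ ≤ b') (hb : b' < b) :
    ∀ᶠ i in atTop, ‖∑ m ∈ Icc 1 (N i / L), s (R^[p * m] (z i)) * conj (s (R^[q * m] (z i)))‖ ≤ b * (N i / L : ℕ) := by
  have hL : 0 < L := hp.trans_le hpL
  have hML : Tendsto (fun i => N i / L) atTop atTop := by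
    refine tendsto_atTop.2 fun b => ?_
    filter_upwards [hN.eventually_ge_atTop (b * L)] with i hi
    exact (Nat.le_div_iff_mul_le hL).2 hi
  by_contra hcon
  have hfr : ∃ᶠ i in atTop, ¬ ‖∑ m ∈ Icc 1 (N i / L), s (R^[p * m] (z i)) * conj (s (R^[q * m] (z i)))‖ ≤
      b * (N i / L : ℕ) := Filter.not_eventually.1 hcon
  set bad : Set ℕ := {i | ¬ ‖∑ m ∈ Icc 1 (N i / L), s (R^[p * m] (z i)) * conj (s (R^[q * m] (z i)))‖ ≤
      b * (N i / L : ℕ)} with hbad
  have hne : (atTop ⊓ 𝓟 bad).NeBot := by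
    rw [← Filter.frequently_mem_iff_neBot]
    exact hfr
  set U : Ultrafilter ℕ := Ultrafilter.of (atTop ⊓ 𝓟 bad) with hUdef
  have hU0 : (U : Filter ℕ) ≤ atTop ⊓ 𝓟 bad := Ultrafilter.of_le _
  have hU : (U : Filter ℕ) ≤ atTop := hU0.trans inf_le_left
  have hUb : ∀ᶠ i in (U : Filter ℕ), i ∈ bad := hU0.trans inf_le_right (mem_principal_self bad)
  have hM1 : ∀ᶠ i in (U : Filter ℕ), 1 ≤ N i / L := (hML.eventually_ge_atTop 1).filter_mono hU
  set S : X × X → X × X := Prod.map R^[p] R^[q] with hSdef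
  have hS : Continuous S := (hRc.iterate p).prodMap (hRc.iterate q)
  have hK : Tendsto (fun i => N i / L - 1) (U : Filter ℕ) atTop := by
    refine (tendsto_atTop.2 fun b => ?_)
    filter_upwards [(hML.mono_left hU).eventually_ge_atTop (b + 1)] with i hi
    omega
  obtain ⟨ρ, r1, r2, r3⟩ := qg_lim S hS (fun i => (z i, z i)) (fun i => N i / L - 1) U hK
  -- the averages
  have hav : ∀ g : C(X × X, ℝ), Tendsto (fun i => (1 / ((N i / L : ℕ) : ℝ)) *
      ∑ m ∈ Icc 1 (N i / L), g (R^[p * m] (z i), R^[q * m] (z i))) (U : Filter ℕ) (𝓝 (∫ w, g w ∂ρ)) := by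
    intro g
    refine (r3 g).congr' ?_
    filter_upwards [hM1] with i hi
    rw [qg_avg S g (z i, z i) (N i / L) hi]
    congr 1
    exact Finset.sum_congr rfl fun m _ => by rw [hSdef, cut_iter]
  have m1 : ρ.map Prod.fst ≤ ENNReal.ofReal (2 * L) • μ := by
    have i1 : IsProbabilityMeasure (ρ.map Prod.fst) := Measure.isProbabilityMeasure_map measurable_fst.aemeasurable
    refine qc_le (by positivity) fun g hg => cut_dil z N hq p L hp hpL U hU hM1 g hg _ ?_
    rw [integral_map measurable_fst.aemeasurable g.continuous.measurable.aestronglyMeasurable]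
    exact hav ⟨fun w => g w.1, by fun_prop⟩
  have m2 : ρ.map Prod.snd ≤ ENNReal.ofReal (2 * L) • μ := by
    have i1 : IsProbabilityMeasure (ρ.map Prod.snd) := Measure.isProbabilityMeasure_map measurable_snd.aemeasurable
    refine qc_le (by positivity) fun g hg => cut_dil z N hq q L hq0 hqL U hU hM1 g hg _ ?_
    rw [integral_map measurable_snd.aemeasurable g.continuous.measurable.aestronglyMeasurable]
    exact hav ⟨fun w => g w.2, by fun_prop⟩
  have hup := h ρ r1 r2 m1 m2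
  have hT := (qc_cplx_tendsto (w := fun i m => (R^[p * m] (z i), R^[q * m] (z i))) (M := fun i => N i / L) hav
    ⟨fun w => s w.1 * conj (s w.2), by fun_prop⟩).norm
  simp only [ContinuousMap.coe_mk] at hT
  have hlow : b ≤ ‖∫ w, s w.1 * conj (s w.2) ∂ρ‖ := by
    refine ge_of_tendsto hT ?_
    filter_upwards [hUb, hM1] with i hi hi1
    have hi' : ¬ ‖∑ m ∈ Icc 1 (N i / L), s (R^[p * m] (z i)) * conj (s (R^[q * m] (z i)))‖ ≤ b * (N i / L : ℕ) := hi
    rw [not_le] at hi'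
    have hM0 : (0 : ℝ) < ((N i / L : ℕ) : ℝ) := by exact_mod_cast hi1
    rw [norm_mul, Complex.norm_real, Real.norm_of_nonneg (by positivity), one_div, ← div_eq_inv_mul, le_div_iff₀ hM0]
    exact hi'.le
  linarith

/-- the cutting principle, functions of norm at most `1` -/
theorem cut_one (hRc : Continuous R) [IsProbabilityMeasure μ] {z : ℕ → X} {N : ℕ → ℕ} (hN : Tendsto N atTop atTop)
    (hq : QGen R μ z N) (f : C(X, ℂ)) (hf : ∀ x, ‖f x‖ ≤ 1) {ε : ℝ} (hε : 0 < ε)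
    (h : ∃ B : Set X, MeasurableSet B ∧ (μ Bᶜ).toReal ≤ ε / 8 ∧ ∃ q0, CutB R μ f B ((ε / 2 / 4) ^ 2 / 4) q0)
    {u : ℕ → ℂ} (hu : HD.BMult u) :
    ∀ᶠ i in atTop, ‖∑ n ∈ Icc 1 (N i), u n * f (R^[n] (z i))‖ ≤ ε * N i := by
  classical
  obtain ⟨B, hBm, htail, q0, hq0⟩ := h
  set e0 : ℝ := (ε / 2 / 4) ^ 2 with he0
  have he0p : 0 < e0 := by positivity
  obtain ⟨J, N0, hJ⟩ := kbsz_scale hu (ε / 2) (by positivity) q0
  -- the cutoff
  obtain ⟨η, hη0, hη1, hη2⟩ : ∃ η : ℝ, 0 < η ∧ η ≤ e0 / (16 * 2 ^ J) ∧ η ≤ ε / 8 :=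
    ⟨min (e0 / (16 * 2 ^ J)) (ε / 8), by positivity, min_le_left _ _, min_le_right _ _⟩
  obtain ⟨χ, χ0, χ1, hχ⟩ := qc_cut (μ := μ) hBm hη0
  set s : C(X, ℂ) := ⟨fun x => (χ x : ℂ) * f x, by fun_prop⟩ with hsdef
  have hsv : ∀ x, s x = (χ x : ℂ) * f x := fun _ => rfl
  have hs1 : ∀ x, ‖s x‖ ≤ χ x := by
    intro x
    rw [hsv, norm_mul, Complex.norm_real, Real.norm_of_nonneg (χ0 x)]
    exact mul_le_of_le_one_right (χ0 x) (hf x)
  have hsf : ∀ x, ‖s x - f x‖ ≤ 1 - χ x := by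
    intro x
    have e1 : s x - f x = -(((1 - χ x : ℝ) : ℂ) * f x) := by rw [hsv]; push_cast; ring
    rw [e1, norm_neg, norm_mul, Complex.norm_real, Real.norm_of_nonneg (by linarith [χ1 x])]
    exact mul_le_of_le_one_right (by linarith [χ1 x]) (hf x)
  -- the correlations
  have hall : ∀ᶠ i in atTop, ∀ x ∈ range (2 ^ J) ×ˢ range (2 ^ J), x.1.Prime → x.2.Prime → q0 ≤ x.1 → q0 ≤ x.2 →
      x.1 ≠ x.2 → ‖∑ m ∈ Icc 1 (N i / max x.1 x.2), s (R^[x.1 * m] (z i)) * conj (s (R^[x.2 * m] (z i)))‖ ≤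
        e0 * (N i / (max x.1 x.2 : ℕ)) := by
    rw [Filter.eventually_all_finset]
    rintro ⟨p, q⟩ hpq
    rw [mem_product, mem_range, mem_range] at hpq
    by_cases hc : p.Prime ∧ q.Prime ∧ q0 ≤ p ∧ q0 ≤ q ∧ p ≠ q
    swap
    · exact Eventually.of_forall fun i a b c d e => absurd ⟨a, b, c, d, e⟩ hc
    obtain ⟨pp, qp, hp, hq', hne⟩ := hc
    have hLb : ((max p q : ℕ) : ℝ) ≤ 2 ^ J := by
      have : max p q ≤ 2 ^ J := max_le hpq.1.le hpq.2.le
      exact_mod_cast this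
    have h2 : 2 * (2 * ((max p q : ℕ) : ℝ)) * η ≤ e0 / 4 := by
      calc 2 * (2 * ((max p q : ℕ) : ℝ)) * η ≤ 2 * (2 * 2 ^ J) * (e0 / (16 * 2 ^ J)) := by gcongr
        _ = e0 / 4 := by field_simp; ring
    have h1 := cut_corr (L := max p q) hRc hN hq pp.pos qp.pos (le_max_left p q) (le_max_right p q) s (b := e0)
      (b' := e0 / 4 + e0 / 4) (fun ρ r1 r2 r3 r4 => by
        have h3 := cut_chi (C := 2 * ((max p q : ℕ) : ℝ)) (by positivity) r3 r4 hBm f hf χ χ0 χ1 hχ
        have h4 := hq0 p q pp qp hne hp hq' ρ r1 r2 _ (by positivity) r3 r4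
        exact h3.trans (add_le_add h4 h2)) (by linarith)
    filter_upwards [h1] with i hi _ _ _ _ _
    exact hi.trans (mul_le_mul_of_nonneg_left Nat.cast_div_le he0p.le)
  -- the difference
  have hdif : ∀ᶠ i in atTop, ∑ n ∈ Icc 1 (N i), ‖s (R^[n] (z i)) - f (R^[n] (z i))‖ ≤ ε / 2 * N i := by
    set g : C(X, ℝ) := ⟨fun x => 1 - χ x, by fun_prop⟩ with hg
    have hDm : Measurable fun x => |B.indicator (fun _ => (1 : ℝ)) x - χ x| :=
      ((measurable_const.indicator hBm).sub χ.continuous.measurable).norm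
    have hDi : Integrable (fun x => |B.indicator (fun _ => (1 : ℝ)) x - χ x|) μ :=
      Integrable.of_bound hDm.aestronglyMeasurable 1 (Eventually.of_forall fun x => by
        rw [Real.norm_of_nonneg (abs_nonneg _)]
        simp only [Set.indicator_apply]
        rw [abs_le]
        split_ifs <;> constructor <;> linarith [χ0 x, χ1 x])
    have hgi : Integrable (fun x => g x) μ := (BoundedContinuousFunction.mkOfCompact g).integrable μ
    have h1 : ∫ x, g x ∂μ ≤ ε / 4 := by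
      have h2 : ∫ x, g x ∂μ ≤ ∫ x, (|B.indicator (fun _ => (1 : ℝ)) x - χ x| + Bᶜ.indicator (fun _ => (1 : ℝ)) x) ∂μ := by
        have i1 : Integrable (fun x => Bᶜ.indicator (fun _ => (1 : ℝ)) x) μ := (integrable_const 1).indicator hBm.compl
        refine integral_mono hgi (hDi.add i1) fun x => ?_
        show 1 - χ x ≤ |B.indicator (fun _ => (1 : ℝ)) x - χ x| + Bᶜ.indicator (fun _ => (1 : ℝ)) x
        by_cases hx : x ∈ B
        · rw [Set.indicator_of_mem hx, Set.indicator_of_notMem (show x ∉ Bᶜ from fun h => h hx), add_zero]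
          exact le_abs_self _
        · rw [Set.indicator_of_notMem hx, Set.indicator_of_mem (show x ∈ Bᶜ from hx)]
          linarith [χ0 x, abs_nonneg (0 - χ x)]
      refine h2.trans ?_
      rw [integral_add hDi ((integrable_const 1).indicator hBm.compl),
        integral_indicator_const _ hBm.compl, smul_eq_mul, mul_one]
      have h3 : μ.real Bᶜ ≤ ε / 8 := htail
      linarith
    have h2 := (hq g).eventually (gt_mem_nhds (show ∫ x, g x ∂μ < ε / 2 by linarith))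
    filter_upwards [h2, hN.eventually_ge_atTop 1] with i hi hi1
    have hNi : (0 : ℝ) < N i := by exact_mod_cast hi1
    rw [one_div, ← div_eq_inv_mul, div_lt_iff₀ hNi] at hi
    exact (Finset.sum_le_sum fun n _ => hsf _).trans hi.le
  filter_upwards [hall, hN.eventually_ge_atTop N0, hdif] with i hi hiN hid
  have h1 := hJ (fun n => s (R^[n] (z i))) (fun n => (hs1 _).trans (χ1 _)) (N i) hiN
    fun p q pp qp hp hq' hpJ hqJ hne =>
      hi (p, q) (mem_product.2 ⟨mem_range.2 hpJ, mem_range.2 hqJ⟩) pp qp hp hq' hne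
  have h2 : ∑ n ∈ Icc 1 (N i), u n * f (R^[n] (z i)) = ∑ n ∈ Icc 1 (N i), u n * s (R^[n] (z i)) -
      ∑ n ∈ Icc 1 (N i), u n * (s (R^[n] (z i)) - f (R^[n] (z i))) := by
    rw [← Finset.sum_sub_distrib]
    exact Finset.sum_congr rfl fun n _ => by ring
  rw [h2]
  refine (norm_sub_le _ _).trans ?_
  have h3 : ‖∑ n ∈ Icc 1 (N i), u n * (s (R^[n] (z i)) - f (R^[n] (z i)))‖ ≤ ε / 2 * N i := by
    refine (norm_sum_le _ _).trans (le_trans (Finset.sum_le_sum fun n _ => ?_) hid)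
    rw [norm_mul]
    exact mul_le_of_le_one_left (norm_nonneg _) (hu.le_one n)
  linarith

/-- **the cutting principle** -/
theorem cut_main (hRc : Continuous R) [IsProbabilityMeasure μ] {z : ℕ → X} {N : ℕ → ℕ} (hN : Tendsto N atTop atTop)
    (hq : QGen R μ z N) (f : C(X, ℂ))
    (h : ∀ ε : ℝ, 0 < ε → ∃ B : Set X, MeasurableSet B ∧ (μ Bᶜ).toReal ≤ ε ∧ ∃ q0, CutB R μ f B ε q0)
    {u : ℕ → ℂ} (hu : HD.BMult u) (ε : ℝ) (hε : 0 < ε) :
    ∀ᶠ i in atTop, ‖∑ n ∈ Icc 1 (N i), u n * f (R^[n] (z i))‖ ≤ ε * N i := by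
  set C : ℝ := ‖f‖ + 1 with hC
  have hC0 : 0 < C := by positivity
  set c : ℂ := ((1 / C : ℝ) : ℂ) with hc
  set k : C(X, ℂ) := ⟨fun x => c * f x, by fun_prop⟩ with hk
  have hkv : ∀ x, k x = c * f x := fun _ => rfl
  have hcn : ‖c‖ = 1 / C := by rw [hc, Complex.norm_real, Real.norm_of_nonneg (by positivity)]
  have hc1 : 1 / C ≤ 1 := by
    rw [div_le_one hC0, hC]
    linarith [norm_nonneg f]
  have hk1 : ∀ x, ‖k x‖ ≤ 1 := by
    intro x
    rw [hkv, norm_mul, hcn, one_div, inv_mul_le_iff₀ hC0, mul_one]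
    have := f.norm_coe_le_norm x
    linarith
  set e : ℝ := ε / C with he
  have he0 : 0 < e := by positivity
  obtain ⟨B, hB1, hB2, q0, hB3⟩ := h (min (e / 8) ((e / 2 / 4) ^ 2 / 4)) (by positivity)
  have h1 := cut_one hRc hN hq k hk1 he0 ⟨B, hB1, hB2.trans (min_le_left _ _), q0, ?_⟩ hu
  · filter_upwards [h1] with i hi
    have e1 : ∑ n ∈ Icc 1 (N i), u n * k (R^[n] (z i)) = c * ∑ n ∈ Icc 1 (N i), u n * f (R^[n] (z i)) := by
      rw [Finset.mul_sum]
      refine Finset.sum_congr rfl fun n _ => ?_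
      rw [hkv]
      ring
    rw [e1, norm_mul, hcn] at hi
    have h6 := mul_le_mul_of_nonneg_left hi hC0.le
    have e2 : C * (1 / C * ‖∑ n ∈ Icc 1 (N i), u n * f (R^[n] (z i))‖) = ‖∑ n ∈ Icc 1 (N i), u n * f (R^[n] (z i))‖ := by
      field_simp
    have e3 : C * (e * N i) = ε * N i := by rw [he]; field_simp
    rwa [e2, e3] at h6
  · intro p q pp qp hne hp hq' ρ r1 r2 C' hC' r3 r4
    have h2 := hB3 p q pp qp hne hp hq' ρ r1 r2 C' hC' r3 r4
    have e1 : ∀ w : X × X, k w.1 * conj (k w.2) = ((1 / C * (1 / C) : ℝ) : ℂ) * (f w.1 * conj (f w.2)) := by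
      intro w
      rw [hkv, hkv, map_mul, hc, Complex.conj_ofReal]
      push_cast
      ring
    have e2 : ∫ w in B ×ˢ B, k w.1 * conj (k w.2) ∂ρ =
        ((1 / C * (1 / C) : ℝ) : ℂ) * ∫ w in B ×ˢ B, f w.1 * conj (f w.2) ∂ρ := by
      rw [← integral_const_mul]
      exact integral_congr_ae (Eventually.of_forall e1)
    rw [e2, norm_mul, Complex.norm_real, Real.norm_of_nonneg (by positivity)]
    have h3 : 1 / C * (1 / C) ≤ 1 := mul_le_one₀ hc1 (by positivity) hc1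
    exact (mul_le_of_le_one_left (norm_nonneg _) h3).trans (h2.trans (min_le_right _ _))

end Pool.Agent.Lib.MP_9fe581_an.AP
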