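import Pool.Agent.Lib.MP_9fe581_an.AP.QC5

/-! # AP, QC6: the cutting principle for a countable partition -/

set_option autoImplicit false

open Finset MeasureTheory Filter Topology
open scoped ComplexConjugate ENNReal NNReal

namespace Pool.Agent.Lib.MP_9fe581_an.AP

variable {X : Type} [TopologicalSpace X] [CompactSpace X] [TopologicalSpace.MetrizableSpace X]
    [MeasurableSpace X] [BorelSpace X] {R : X → X} {μ : Measure X}

/-- finitely many cells carry almost all the mass -/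
theorem assemble_tail [IsProbabilityMeasure μ] {G : ℕ → Set X} (hGm : ∀ i, MeasurableSet (G i))
    (hG1 : μ (⋃ i, G i)ᶜ = 0) {τ : ℝ} (hτ : 0 < τ) :
    ∃ n : ℕ, (μ (⋃ i ∈ range n, G i)ᶜ).toReal ≤ τ := by
  have h1 : Antitone fun n : ℕ => (⋃ i ∈ range n, G i)ᶜ := by
    intro m n hmn
    refine Set.compl_subset_compl.2 ?_
    refine Set.iUnion₂_subset fun i hi => ?_
    exact Set.subset_biUnion_of_mem (u := fun i => G i) (show i ∈ range n from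
      mem_range.2 ((mem_range.1 hi).trans_le hmn))
  have h2 : ∀ n : ℕ, NullMeasurableSet ((⋃ i ∈ range n, G i)ᶜ) μ := fun n =>
    (Finset.measurableSet_biUnion _ fun i _ => hGm i).compl.nullMeasurableSet
  have h3 := tendsto_measure_iInter_atTop h2 h1 ⟨0, measure_ne_top _ _⟩
  have h4 : ⋂ n : ℕ, (⋃ i ∈ range n, G i)ᶜ = (⋃ i, G i)ᶜ := by
    rw [← Set.compl_iUnion]
    congr 1
    ext x
    simp only [Set.mem_iUnion, mem_range]
    constructor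
    · rintro ⟨n, i, hi, hx⟩
      exact ⟨i, hx⟩
    · rintro ⟨i, hx⟩
      exact ⟨i + 1, i, Nat.lt_succ_self i, hx⟩
  rw [h4, hG1] at h3
  obtain ⟨n, hn⟩ := (h3.eventually (gt_mem_nhds (show (0 : ℝ≥0∞) < ENNReal.ofReal τ by simpa using hτ))).exists
  exact ⟨n, ENNReal.toReal_le_of_le_ofReal hτ.le hn.le⟩

/-- **the cutting principle for a countable partition** -/
theorem assemble (hRc : Continuous R) [IsProbabilityMeasure μ] {G : ℕ → Set X} (hGm : ∀ i, MeasurableSet (G i))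
    (hGd : ∀ i k, i ≠ k → Disjoint (G i) (G k)) (hG1 : μ (⋃ i, G i)ᶜ = 0) (f : C(X, ℂ)) (hf : ∀ x, ‖f x‖ ≤ 1)
    {ε β : ℝ} (hε : 0 < ε) (hβ0 : 0 ≤ β) (hβ : β ≤ (ε / 2 / 4) ^ 2 / 4)
    (hcell : ∀ i k, ∃ q0 : ℕ, ∀ p q : ℕ, p.Prime → q.Prime → p ≠ q → q0 ≤ p → q0 ≤ q → ∀ ρ : Measure (X × X),
      IsProbabilityMeasure ρ → MeasurePreserving (Prod.map R^[p] R^[q]) ρ ρ → ρ.map Prod.fst ≪ μ →
      ρ.map Prod.snd ≪ μ → ‖∫ w in G i ×ˢ G k, f w.1 * conj (f w.2) ∂ρ‖ ≤ β * (ρ (G i ×ˢ G k)).toReal)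
    {z : ℕ → X} {N : ℕ → ℕ} (hN : Tendsto N atTop atTop) (hq : QGen R μ z N) {u : ℕ → ℂ} (hu : HD.BMult u) :
    ∀ᶠ i in atTop, ‖∑ n ∈ Icc 1 (N i), u n * f (R^[n] (z i))‖ ≤ ε * N i := by
  classical
  obtain ⟨n, hn⟩ := assemble_tail hGm hG1 (τ := ε / 8) (by positivity)
  set t : Finset ℕ := range n with ht
  refine cut_one hRc hN hq f hf hε ⟨⋃ i ∈ t, G i, Finset.measurableSet_biUnion _ fun i _ => hGm i, hn, ?_⟩ hu
  have hthr : ∀ᶠ q0 : ℕ in atTop, ∀ x ∈ t ×ˢ t, ∀ p q : ℕ, p.Prime → q.Prime → p ≠ q → q0 ≤ p → q0 ≤ q →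
      ∀ ρ : Measure (X × X), IsProbabilityMeasure ρ → MeasurePreserving (Prod.map R^[p] R^[q]) ρ ρ →
      ρ.map Prod.fst ≪ μ → ρ.map Prod.snd ≪ μ →
      ‖∫ w in G x.1 ×ˢ G x.2, f w.1 * conj (f w.2) ∂ρ‖ ≤ β * (ρ (G x.1 ×ˢ G x.2)).toReal := by
    rw [Filter.eventually_all_finset]
    rintro ⟨j, k⟩ -
    obtain ⟨q0, hq0⟩ := hcell j k
    filter_upwards [eventually_ge_atTop q0] with q1 hq1 p q pp qp hne hp hq'
    exact hq0 p q pp qp hne (hq1.trans hp) (hq1.trans hq')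
  obtain ⟨q0, hq0⟩ := hthr.exists
  refine ⟨q0, fun p q pp qp hne hp hq' ρ r1 r2 C hC r3 r4 => ?_⟩
  have ac1 : ρ.map Prod.fst ≪ μ := (Measure.absolutelyContinuous_of_le r3).trans
    (Measure.smul_absolutelyContinuous)
  have ac2 : ρ.map Prod.snd ≪ μ := (Measure.absolutelyContinuous_of_le r4).trans
    (Measure.smul_absolutelyContinuous)
  have hint : Integrable (fun w : X × X => f w.1 * conj (f w.2)) ρ :=
    Integrable.of_bound (((f.continuous.measurable.comp measurable_fst).mul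
      (Complex.continuous_conj.measurable.comp (f.continuous.measurable.comp measurable_snd))).aestronglyMeasurable) 1
      (Eventually.of_forall fun w => by
        rw [norm_mul, RCLike.norm_conj]; exact mul_le_one₀ (hf _) (norm_nonneg _) (hf _))
  have hcm : ∀ x : ℕ × ℕ, MeasurableSet (G x.1 ×ˢ G x.2) := fun x => (hGm _).prod (hGm _)
  have hdisj : Set.PairwiseDisjoint (↑(t ×ˢ t) : Set (ℕ × ℕ)) fun x => G x.1 ×ˢ G x.2 := by
    intro x _ y _ hxy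
    show Disjoint _ _
    rw [Set.disjoint_left]
    rintro ⟨a, b⟩ ⟨a1, a2⟩ ⟨b1, b2⟩
    by_cases h3 : x.1 = y.1
    · have h4 : x.2 ≠ y.2 := fun h5 => hxy (Prod.ext h3 h5)
      exact Set.disjoint_left.1 (hGd _ _ h4) a2 b2
    · exact Set.disjoint_left.1 (hGd _ _ h3) a1 b1
  have e0 : (⋃ i ∈ t, G i) ×ˢ (⋃ i ∈ t, G i) = ⋃ x ∈ t ×ˢ t, G x.1 ×ˢ G x.2 := by
    ext ⟨a, b⟩
    simp only [Set.mem_prod, Set.mem_iUnion, mem_product]
    constructor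
    · rintro ⟨⟨i, hi, ha⟩, ⟨k, hk, hb⟩⟩
      exact ⟨(i, k), ⟨hi, hk⟩, ha, hb⟩
    · rintro ⟨x, ⟨h1, h2⟩, ha, hb⟩
      exact ⟨⟨x.1, h1, ha⟩, ⟨x.2, h2, hb⟩⟩
  have e1 : ∫ w in ⋃ x ∈ t ×ˢ t, G x.1 ×ˢ G x.2, f w.1 * conj (f w.2) ∂ρ =
      ∑ x ∈ t ×ˢ t, ∫ w in G x.1 ×ˢ G x.2, f w.1 * conj (f w.2) ∂ρ :=
    integral_biUnion_finset _ (fun x _ => hcm x) hdisj fun x _ => hint.integrableOn
  have e2 : ∑ x ∈ t ×ˢ t, (ρ (G x.1 ×ˢ G x.2)).toReal ≤ 1 := by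
    have e3 : ρ (⋃ x ∈ t ×ˢ t, G x.1 ×ˢ G x.2) = ∑ x ∈ t ×ˢ t, ρ (G x.1 ×ˢ G x.2) :=
      measure_biUnion_finset hdisj fun x _ => hcm x
    rw [← ENNReal.toReal_sum fun x _ => measure_ne_top _ _, ← e3]
    exact ENNReal.toReal_le_of_le_ofReal zero_le_one (by rw [ENNReal.ofReal_one]; exact prob_le_one)
  rw [e0, e1]
  refine (norm_sum_le _ _).trans ?_
  calc ∑ x ∈ t ×ˢ t, ‖∫ w in G x.1 ×ˢ G x.2, f w.1 * conj (f w.2) ∂ρ‖ ≤
      ∑ x ∈ t ×ˢ t, β * (ρ (G x.1 ×ˢ G x.2)).toReal :=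
        Finset.sum_le_sum fun x hx => hq0 x hx p q pp qp hne hp hq' ρ r1 r2 ac1 ac2
    _ = β * ∑ x ∈ t ×ˢ t, (ρ (G x.1 ×ˢ G x.2)).toReal := by rw [Finset.mul_sum]
    _ ≤ β * 1 := mul_le_mul_of_nonneg_left e2 hβ0
    _ ≤ _ := by rw [mul_one]; exact hβ

end Pool.Agent.Lib.MP_9fe581_an.AP
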