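import Pool.Agent.Lib.MP_e4ee3e_an.X03
import Mathlib.Dynamics.Ergodic.RadonNikodym

/-! # AP, QD: measures dominated by an invariant measure whose components are totally ergodic -/

set_option autoImplicit false

open MeasureTheory Filter Topology ProbabilityTheory
open scoped ENNReal NNReal

namespace Pool.Agent.Lib.MP_9fe581_an.AP

open Pool.Agent.Lib.MP_e4ee3e_an (condKernel_null condKernel_const condKernel_preserving condKernel_ergodic)

variable {Y : Type} [MeasurableSpace Y] [StandardBorelSpace Y] {S : Y → Y} {ν : Measure Y} [IsProbabilityMeasure ν]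

/-- disintegration -/
theorem den_lint (S : Y → Y) (ν : Measure Y) [IsProbabilityMeasure ν] {h : Y → ℝ≥0∞} (hh : Measurable h) :
    ∫⁻ y, h y ∂ν = ∫⁻ z, ∫⁻ y, h y ∂(condExpKernel ν (MeasurableSpace.invariants S) z) ∂ν := by
  have hm := MeasurableSpace.invariants_le S
  have h1 := condExpKernel_comp_trim (μ := ν) hm
  have h2 : Measurable[MeasurableSpace.invariants S] fun z => ∫⁻ y, h y ∂(condExpKernel ν (MeasurableSpace.invariants S) z) :=
    (Measure.measurable_lintegral hh).comp (condExpKernel ν (MeasurableSpace.invariants S)).measurable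
  conv_lhs => rw [← h1]
  rw [Measure.lintegral_bind (condExpKernel ν (MeasurableSpace.invariants S)).measurable.aemeasurable hh.aemeasurable, lintegral_trim hm h2]

/-- **measures dominated by an invariant measure** -/
theorem den_main (hν : MeasurePreserving S ν ν) {p : ℕ}
    (he : ∀ᵐ z ∂ν, Ergodic S^[p] (condExpKernel ν (MeasurableSpace.invariants S) z)) {σ : Measure Y} [IsProbabilityMeasure σ] (hσ : σ ≪ ν)
    (hσp : MeasurePreserving S^[p] σ σ) {h : Y → ℝ≥0∞} (hh : Measurable h) :
    ∫⁻ y, h y ∂σ = ∫⁻ z, ∫⁻ y, h y ∂(condExpKernel ν (MeasurableSpace.invariants S) z) ∂σ := by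
  have hm := MeasurableSpace.invariants_le S
  set g : Y → ℝ≥0∞ := σ.rnDeriv ν with hg
  have hgm : Measurable g := Measure.measurable_rnDeriv _ _
  have hσd : σ = ν.withDensity g := (Measure.withDensity_rnDeriv_eq σ ν hσ).symm
  have h1 : g ∘ S^[p] =ᵐ[ν] g := MeasurePreserving.rnDeriv_comp_aeEq hσp (hν.iterate p)
  have h2 : ∀ᵐ z ∂ν, g ∘ S^[p] =ᵐ[condExpKernel ν (MeasurableSpace.invariants S) z] g := by
    have h3 := condKernel_null S (ν := ν) (A := {y | ¬ (g ∘ S^[p]) y = g y}) (by
      rw [← ae_iff]; exact h1)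
    filter_upwards [h3] with z hz
    exact ae_iff.2 hz
  have h3 : ∀ᵐ z ∂ν, ∃ c, g =ᵐ[condExpKernel ν (MeasurableSpace.invariants S) z] Function.const Y c := by
    filter_upwards [h2, he] with z hz hz2
    exact hz2.ae_eq_const_of_ae_eq_comp₀ hgm.nullMeasurable hz
  -- the inner function
  set H : Y → ℝ≥0∞ := fun z => ∫⁻ y, h y ∂(condExpKernel ν (MeasurableSpace.invariants S) z) with hH
  have hHm' : Measurable[MeasurableSpace.invariants S] H :=
    (Measure.measurable_lintegral hh).comp (condExpKernel ν (MeasurableSpace.invariants S)).measurable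
  have hHm : Measurable H := hHm'.mono hm le_rfl
  have hHinv : ∀ y, H (S y) = H y := by
    intro y
    have h4 := hHm' (measurableSet_singleton (H y))
    have h5 : S ⁻¹' (H ⁻¹' {H y}) = H ⁻¹' {H y} := h4.2
    have h6 : y ∈ S ⁻¹' (H ⁻¹' {H y}) := by rw [h5]; rfl
    exact h6
  have h4 : ∀ᵐ z ∂ν, ∀ᵐ y ∂(condExpKernel ν (MeasurableSpace.invariants S) z), H y = H z := by
    have h5 := condKernel_const (ν := ν) (S := S) (fun y => (ENNReal.toReal (H y) / (1 + ENNReal.toReal (H y))))
      (by fun_prop) (fun y => by rw [hHinv])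
    have h6 := condKernel_const (ν := ν) (S := S) ({y | H y = ∞}.indicator fun _ => (1 : ℝ))
      (measurable_const.indicator (hHm (measurableSet_singleton ∞))) (fun y => by
        simp only [Set.indicator_apply, Set.mem_ofPred_eq, hHinv])
    filter_upwards [h5, h6] with z hz1 hz2
    filter_upwards [hz1, hz2] with y hy1 hy2
    by_cases a1 : H y = ∞
    · by_cases a2 : H z = ∞
      · rw [a1, a2]
      · rw [Set.indicator_of_mem (show y ∈ {y | H y = ∞} from a1), Set.indicator_of_notMem (show z ∉ {y | H y = ∞} from a2)]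
          at hy2
        exact absurd hy2 one_ne_zero
    · by_cases a2 : H z = ∞
      · rw [Set.indicator_of_mem (show z ∈ {y | H y = ∞} from a2), Set.indicator_of_notMem (show y ∉ {y | H y = ∞} from a1)]
          at hy2
        exact absurd hy2.symm one_ne_zero
      · have b1 : (0 : ℝ) ≤ (H y).toReal := ENNReal.toReal_nonneg
        have b2 : (0 : ℝ) ≤ (H z).toReal := ENNReal.toReal_nonneg
        rw [div_eq_div_iff (by positivity) (by positivity)] at hy1
        have b3 : (H y).toReal = (H z).toReal := by nlinarith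
        exact (ENNReal.toReal_eq_toReal_iff' a1 a2).1 b3
  have e1 : ∫⁻ y, h y ∂σ = ∫⁻ z, ∫⁻ y, g y * h y ∂(condExpKernel ν (MeasurableSpace.invariants S) z) ∂ν := by
    rw [hσd, lintegral_withDensity_eq_lintegral_mul _ hgm hh]
    exact den_lint S ν (hgm.mul hh)
  have e2 : ∫⁻ z, H z ∂σ = ∫⁻ z, ∫⁻ y, g y * H y ∂(condExpKernel ν (MeasurableSpace.invariants S) z) ∂ν := by
    rw [hσd, lintegral_withDensity_eq_lintegral_mul _ hgm hHm]
    exact den_lint S ν (hgm.mul hHm)
  show ∫⁻ y, h y ∂σ = ∫⁻ z, H z ∂σ
  rw [e1, e2]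
  refine lintegral_congr_ae ?_
  filter_upwards [h3, h4] with z ⟨c, hc⟩ hz
  have e3 : ∫⁻ y, g y * h y ∂(condExpKernel ν (MeasurableSpace.invariants S) z) = c * H z := by
    rw [lintegral_congr_ae (show (fun y => g y * h y) =ᵐ[condExpKernel ν (MeasurableSpace.invariants S) z] fun y => c * h y from hc.mono fun y hy => by
      show g y * h y = c * h y
      rw [hy, Function.const_apply]), lintegral_const_mul _ hh]
  have e4 : ∫⁻ y, g y * H y ∂(condExpKernel ν (MeasurableSpace.invariants S) z) = c * H z := by
    have e5 : (fun y => g y * H y) =ᵐ[condExpKernel ν (MeasurableSpace.invariants S) z] fun _ => c * H z := by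
      filter_upwards [hc, hz] with y hy1 hy2
      rw [hy1, hy2, Function.const_apply]
    rw [lintegral_congr_ae e5, lintegral_const, measure_univ, mul_one]
  rw [e3, e4]

/-- such a measure is invariant -/
theorem den_inv (hν : MeasurePreserving S ν ν) {p : ℕ}
    (he : ∀ᵐ z ∂ν, Ergodic S^[p] (condExpKernel ν (MeasurableSpace.invariants S) z)) {σ : Measure Y} [IsProbabilityMeasure σ] (hσ : σ ≪ ν)
    (hσp : MeasurePreserving S^[p] σ σ) : MeasurePreserving S σ σ := by
  refine ⟨hν.measurable, ?_⟩
  ext s hs
  rw [Measure.map_apply hν.measurable hs]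
  have h1 := den_main hν he hσ hσp (h := (S ⁻¹' s).indicator 1) (measurable_one.indicator (hν.measurable hs))
  have h2 := den_main hν he hσ hσp (h := s.indicator 1) (measurable_one.indicator hs)
  rw [lintegral_indicator_one (hν.measurable hs)] at h1
  rw [lintegral_indicator_one hs] at h2
  rw [h1, h2]
  refine lintegral_congr_ae ?_
  filter_upwards [hσ.ae_le (condKernel_preserving hν)] with z hz
  rw [lintegral_indicator_one (hν.measurable hs), lintegral_indicator_one hs]
  exact hz.measure_preimage hs.nullMeasurableSet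

/-- adding a constant -/
private theorem den_add {Z : Type} [MeasurableSpace Z] {τ : Measure Z} [IsProbabilityMeasure τ] {g : Z → ℝ}
    (hg : Integrable g τ) (C : ℝ) : ∫ y, (g y + C) ∂τ = (∫ y, g y ∂τ) + C := by
  rw [integral_add hg (integrable_const C), integral_const, probReal_univ, one_smul]

private theorem den_of {Z : Type} [MeasurableSpace Z] {τ : Measure Z} [IsProbabilityMeasure τ] {g : Z → ℝ}
    (hg : Integrable g τ) {C : ℝ} (h0 : ∀ y, 0 ≤ g y + C) :
    ∫⁻ y, ENNReal.ofReal (g y + C) ∂τ = ENNReal.ofReal ((∫ y, g y ∂τ) + C) := by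
  have h1 : Integrable (fun y => g y + C) τ := hg.add (integrable_const C)
  rw [← ofReal_integral_eq_lintegral_ofReal h1 (Eventually.of_forall h0), den_add hg]

/-- real bounded functions -/
theorem den_real (hν : MeasurePreserving S ν ν) {p : ℕ}
    (he : ∀ᵐ z ∂ν, Ergodic S^[p] (condExpKernel ν (MeasurableSpace.invariants S) z)) {σ : Measure Y} [IsProbabilityMeasure σ] (hσ : σ ≪ ν)
    (hσp : MeasurePreserving S^[p] σ σ) {g : Y → ℝ} (hg : Measurable g) {C : ℝ} (hb : ∀ y, |g y| ≤ C) :
    ∫ y, g y ∂σ = ∫ z, ∫ y, g y ∂(condExpKernel ν (MeasurableSpace.invariants S) z) ∂σ := by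
  have hm := MeasurableSpace.invariants_le S
  have hgC : ∀ y, 0 ≤ g y + C := fun y => by linarith [(abs_le.1 (hb y)).1]
  have hgi : ∀ τ : Measure Y, IsProbabilityMeasure τ → Integrable g τ := fun τ hτ =>
    Integrable.of_bound hg.aestronglyMeasurable C (Eventually.of_forall hb)
  have h1 := den_main hν he hσ hσp (h := fun y => ENNReal.ofReal (g y + C)) (by fun_prop)
  have e1 : ∀ τ : Measure Y, IsProbabilityMeasure τ →
      ∫⁻ y, ENNReal.ofReal (g y + C) ∂τ = ENNReal.ofReal ((∫ y, g y ∂τ) + C) := fun τ hτ => den_of (hgi τ hτ) hgC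
  have hpos : ∀ τ : Measure Y, IsProbabilityMeasure τ → 0 ≤ (∫ y, g y ∂τ) + C := by
    intro τ hτ
    rw [← den_add (hgi τ hτ)]
    exact integral_nonneg hgC
  have hGm : Measurable fun z => ∫ y, g y ∂(condExpKernel ν (MeasurableSpace.invariants S) z) := by
    have h2 : Measurable fun z => ∫⁻ y, ENNReal.ofReal (g y + C) ∂(condExpKernel ν (MeasurableSpace.invariants S) z) :=
      ((Measure.measurable_lintegral (by fun_prop)).comp (condExpKernel ν (MeasurableSpace.invariants S)).measurable).mono hm le_rfl
    have h3 : (fun z => ∫ y, g y ∂(condExpKernel ν (MeasurableSpace.invariants S) z)) =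
        fun z => (∫⁻ y, ENNReal.ofReal (g y + C) ∂(condExpKernel ν (MeasurableSpace.invariants S) z)).toReal - C := by
      funext z
      rw [e1 _ inferInstance, ENNReal.toReal_ofReal (hpos _ inferInstance)]
      ring
    rw [h3]
    exact h2.ennreal_toReal.sub_const C
  have hGb : ∀ z, |∫ y, g y ∂(condExpKernel ν (MeasurableSpace.invariants S) z)| ≤ C := by
    intro z
    have h2 := norm_integral_le_of_norm_le_const (μ := condExpKernel ν (MeasurableSpace.invariants S) z) (f := g) (C := C) (Eventually.of_forall hb)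
    rwa [probReal_univ, mul_one] at h2
  have hGi : Integrable (fun z => ∫ y, g y ∂(condExpKernel ν (MeasurableSpace.invariants S) z)) σ :=
    Integrable.of_bound hGm.aestronglyMeasurable C (Eventually.of_forall hGb)
  have hG0 : ∀ z, 0 ≤ (∫ y, g y ∂(condExpKernel ν (MeasurableSpace.invariants S) z)) + C := fun z => hpos _ inferInstance
  rw [e1 σ inferInstance] at h1
  rw [lintegral_congr fun z => e1 (condExpKernel ν (MeasurableSpace.invariants S) z) inferInstance, den_of hGi hG0] at h1
  have h3 := (ENNReal.ofReal_eq_ofReal_iff (hpos σ inferInstance) (by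
    rw [← den_add hGi]
    exact integral_nonneg hG0)).1 h1
  linarith

/-- on invariant sets -/
theorem den_set (hν : MeasurePreserving S ν ν) {p : ℕ}
    (he : ∀ᵐ z ∂ν, Ergodic S^[p] (condExpKernel ν (MeasurableSpace.invariants S) z)) {σ : Measure Y} [IsProbabilityMeasure σ] (hσ : σ ≪ ν)
    (hσp : MeasurePreserving S^[p] σ σ) {h : Y → ℝ≥0∞} (hh : Measurable h) {E : Set Y} (hE : MeasurableSet E)
    (hES : S ⁻¹' E = E) : ∫⁻ y in E, h y ∂σ = ∫⁻ z in E, ∫⁻ y, h y ∂(condExpKernel ν (MeasurableSpace.invariants S) z) ∂σ := by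
  classical
  rw [← lintegral_indicator hE, ← lintegral_indicator hE]
  rw [den_main hν he hσ hσp (hh.indicator hE)]
  refine lintegral_congr_ae ?_
  have h1 := condKernel_const (ν := ν) (S := S) (E.indicator fun _ => (1 : ℝ)) (measurable_const.indicator hE)
    (fun y => by
      have h2 : S y ∈ E ↔ y ∈ E := by
        constructor
        · intro h3
          rw [← hES]
          exact h3
        · intro h3
          rw [← hES] at h3
          exact h3
      by_cases h3 : y ∈ E
      · rw [Set.indicator_of_mem h3, Set.indicator_of_mem (h2.2 h3)]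
      · rw [Set.indicator_of_notMem h3, Set.indicator_of_notMem (fun h4 => h3 (h2.1 h4))])
  filter_upwards [hσ.ae_le h1] with z hz
  by_cases hzE : z ∈ E
  · rw [Set.indicator_of_mem hzE]
    refine lintegral_congr_ae ?_
    filter_upwards [hz] with y hy
    rw [Set.indicator_of_mem hzE] at hy
    by_cases hyE : y ∈ E
    · rw [Set.indicator_of_mem hyE]
    · rw [Set.indicator_of_notMem hyE] at hy
      exact absurd hy.symm one_ne_zero
  · rw [Set.indicator_of_notMem hzE]
    have e1 : ∀ᵐ y ∂(condExpKernel ν (MeasurableSpace.invariants S) z), E.indicator h y = 0 := by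
      filter_upwards [hz] with y hy
      rw [Set.indicator_of_notMem hzE] at hy
      by_cases hyE : y ∈ E
      · rw [Set.indicator_of_mem hyE] at hy
        exact absurd hy one_ne_zero
      · rw [Set.indicator_of_notMem hyE]
    rw [lintegral_congr_ae e1, lintegral_zero]

/-- the components of `σ` are the components of `ν` -/
theorem den_kernel (hν : MeasurePreserving S ν ν) {p : ℕ}
    (he : ∀ᵐ z ∂ν, Ergodic S^[p] (condExpKernel ν (MeasurableSpace.invariants S) z)) {σ : Measure Y} [IsProbabilityMeasure σ] (hσ : σ ≪ ν)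
    (hσp : MeasurePreserving S^[p] σ σ) : ∀ᵐ z ∂σ, condExpKernel σ (MeasurableSpace.invariants S) z = condExpKernel ν (MeasurableSpace.invariants S) z := by
  have hm := MeasurableSpace.invariants_le S
  obtain ⟨F, hF, hpi, hgen⟩ := Pool.Agent.Lib.MP_e4ee3e_an.x02_gen Y
  have h1 : ∀ q : ℚ, ∀ᵐ z ∂σ, condExpKernel σ (MeasurableSpace.invariants S) z (F q) = condExpKernel ν (MeasurableSpace.invariants S) z (F q) := by
    intro q
    have m1 : Measurable[MeasurableSpace.invariants S] fun z => condExpKernel σ (MeasurableSpace.invariants S) z (F q) :=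
      measurable_condExpKernel (m := MeasurableSpace.invariants S) (μ := σ) (hF q)
    have m2 : Measurable[MeasurableSpace.invariants S] fun z => condExpKernel ν (MeasurableSpace.invariants S) z (F q) :=
      measurable_condExpKernel (m := MeasurableSpace.invariants S) (μ := ν) (hF q)
    have h2 : ∀ᵐ z ∂(σ.trim hm), condExpKernel σ (MeasurableSpace.invariants S) z (F q) = condExpKernel ν (MeasurableSpace.invariants S) z (F q) := by
      refine ae_eq_of_forall_setLIntegral_eq_of_sigmaFinite m1 m2 fun s hs _ => ?_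
      have hs' : MeasurableSet s ∧ S ⁻¹' s = s := ⟨hm _ hs, hs.2⟩
      rw [setLIntegral_trim hm m1 hs, setLIntegral_trim hm m2 hs]
      have e1 := den_set (S := S) (ν := ν) hν he hσ hσp (h := (F q).indicator 1) (measurable_one.indicator (hF q))
        hs'.1 hs'.2
      have e2 : ∫⁻ z in s, condExpKernel ν (MeasurableSpace.invariants S) z (F q) ∂σ = ∫⁻ y in s, (F q).indicator 1 y ∂σ := by
        rw [e1]
        exact lintegral_congr fun z => (lintegral_indicator_one (hF q)).symm
      have e3 : ∫⁻ z in s, condExpKernel σ (MeasurableSpace.invariants S) z (F q) ∂σ = ∫⁻ y in s, (F q).indicator 1 y ∂σ := by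
        have hT : MeasurePreserving S σ σ := den_inv hν he hσ hσp
        rw [← lintegral_indicator hs'.1, ← lintegral_indicator hs'.1]
        have e4 := den_lint S σ (h := s.indicator fun y => (F q).indicator 1 y)
          ((measurable_one.indicator (hF q)).indicator hs'.1)
        rw [e4]
        refine lintegral_congr_ae ?_
        have h3 := Pool.Agent.Lib.MP_e4ee3e_an.x02_invset (ν := σ) (S := S) hs'.1 hs'.2
        filter_upwards [h3] with z hz
        by_cases hzs : z ∈ s
        · rw [Set.indicator_of_mem hzs, ← lintegral_indicator_one (hF q)]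
          refine lintegral_congr_ae ?_
          have h4 := measure_eq_zero_iff_ae_notMem.1 (hz.1 hzs)
          filter_upwards [h4] with y hy
          rw [Set.indicator_of_mem (show y ∈ s from by by_contra hc; exact hy hc)]
        · rw [Set.indicator_of_notMem hzs]
          have h4 := measure_eq_zero_iff_ae_notMem.1 (hz.2 hzs)
          have e5 : ∀ᵐ y ∂(condExpKernel σ (MeasurableSpace.invariants S) z), s.indicator (fun y => (F q).indicator (1 : Y → ℝ≥0∞) y) y = 0 := by
            filter_upwards [h4] with y hy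
            rw [Set.indicator_of_notMem hy]
          rw [lintegral_congr_ae e5, lintegral_zero]
      rw [e2, e3]
    exact ae_of_ae_trim hm h2
  filter_upwards [ae_all_iff.2 h1] with z hz
  refine ext_of_generate_finite (Set.range F) hgen hpi ?_ ?_
  · rintro _ ⟨q, rfl⟩
    exact hz q
  · rw [measure_univ, measure_univ]

end Pool.Agent.Lib.MP_9fe581_an.AP
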