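import Mathlib

/-!
# AP, QE: ergodic measures in a closed face of the invariant measures; ergodic joinings

For a continuous `S` on a compact metrizable space, a closed face `K` of the set of the invariant probability measures,
`ρ` in `K` and a continuous `Φ` there is an ergodic `lam` in `K` with `∫ Φ dρ ≤ ∫ Φ dlam` (lexicographic maximum along a
dense sequence of continuous functions).
-/

set_option autoImplicit false

open MeasureTheory Filter Topology Set
open scoped ENNReal

namespace Pool.Agent.Lib.MP_9fe581_an.AP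

variable {Z : Type} [TopologicalSpace Z] [CompactSpace Z] [TopologicalSpace.MetrizableSpace Z] [MeasurableSpace Z]
  [BorelSpace Z]

/-- the integral of a continuous function, as a functional of the measure -/
private noncomputable def eL (Φ : C(Z, ℝ)) (μ : ProbabilityMeasure Z) : ℝ := ∫ z, Φ z ∂(μ : Measure Z)

private theorem eL_cont (Φ : C(Z, ℝ)) : Continuous (eL Φ) := by
  rw [continuous_iff_continuousAt]
  intro μ
  have h := ProbabilityMeasure.tendsto_iff_forall_integral_tendsto.mp (tendsto_id (α := ProbabilityMeasure Z) (x := 𝓝 μ))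
  exact h (BoundedContinuousFunction.mkOfCompact Φ)

/-- the maximizers -/
private noncomputable def eMax (Φ : C(Z, ℝ)) (K : Set (ProbabilityMeasure Z)) : Set (ProbabilityMeasure Z) :=
  {μ | μ ∈ K ∧ ∀ ν ∈ K, eL Φ ν ≤ eL Φ μ}

private theorem eMax_ne (Φ : C(Z, ℝ)) (K : Set (ProbabilityMeasure Z)) (hK : IsCompact K) (hne : K.Nonempty) :
    (eMax Φ K).Nonempty := by
  obtain ⟨μ, hμ, h⟩ := hK.exists_isMaxOn hne (eL_cont Φ).continuousOn
  exact ⟨μ, hμ, fun ν hν => h hν⟩

private theorem eMax_compact [T2Space (ProbabilityMeasure Z)] (Φ : C(Z, ℝ)) (K : Set (ProbabilityMeasure Z))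
    (hK : IsCompact K) : IsCompact (eMax Φ K) := by
  have h : eMax Φ K = K ∩ ⋂ ν ∈ K, {μ | eL Φ ν ≤ eL Φ μ} := by
    ext μ; simp [eMax]
  rw [h]
  refine hK.inter_right ?_
  exact isClosed_biInter fun ν _ => isClosed_le continuous_const (eL_cont Φ)

/-- the nested sets -/
private noncomputable def eK (K0 : Set (ProbabilityMeasure Z)) (Ψ : ℕ → C(Z, ℝ)) : ℕ → Set (ProbabilityMeasure Z)
  | 0 => K0
  | n + 1 => eMax (Ψ n) (eK K0 Ψ n)

/-- the set of the invariant measures is closed -/
theorem qe_inv_closed (S : Z → Z) (hS : Continuous S) :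
    IsClosed {μ : ProbabilityMeasure Z | MeasurePreserving S (μ : Measure Z) (μ : Measure Z)} := by
  have h : {μ : ProbabilityMeasure Z | MeasurePreserving S (μ : Measure Z) (μ : Measure Z)} =
      ⋂ Φ : C(Z, ℝ), {μ | eL (Φ.comp ⟨S, hS⟩) μ = eL Φ μ} := by
    ext μ
    simp only [mem_ofPred_eq, mem_iInter]
    constructor
    · intro hμ Φ
      unfold eL
      have h1 := hμ.map_eq
      have h2 : ∫ z, Φ z ∂(Measure.map S (μ : Measure Z)) = ∫ z, Φ (S z) ∂(μ : Measure Z) :=
        integral_map hS.measurable.aemeasurable Φ.continuous.measurable.aestronglyMeasurable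
      rw [h1] at h2
      exact h2.symm
    · intro h
      refine ⟨hS.measurable, ?_⟩
      have hfm : IsFiniteMeasure (Measure.map S (μ : Measure Z)) := Measure.isFiniteMeasure_map _ _
      let _ : MetricSpace Z := TopologicalSpace.metrizableSpaceMetric Z
      refine ext_of_forall_integral_eq_of_IsFiniteMeasure fun g => ?_
      rw [integral_map hS.measurable.aemeasurable g.continuous.measurable.aestronglyMeasurable]
      exact h g.toContinuousMap
  rw [h]
  exact isClosed_iInter fun Φ => isClosed_eq (eL_cont _) (eL_cont _)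

private theorem eK_mono (K0 : Set (ProbabilityMeasure Z)) (Ψ : ℕ → C(Z, ℝ)) (n : ℕ) :
    eK K0 Ψ (n + 1) ⊆ eK K0 Ψ n := fun _ h => h.1

private theorem eL_conv {a b A B L : ℝ} (ha : 0 < a) (hb : 0 < b) (hab : a + b = 1) (hA : A ≤ L) (hB : B ≤ L)
    (h : L = a * A + b * B) : A = L := by
  by_contra hne
  have h1 : A < L := lt_of_le_of_ne hA hne
  have h2 : a * A < a * L := mul_lt_mul_of_pos_left h1 ha
  have h3 : b * B ≤ b * L := mul_le_mul_of_nonneg_left hB hb.le
  have h4 : a * L + b * L = L := by rw [← add_mul, hab, one_mul]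
  linarith

/-- **ergodic measures in a closed face** -/
theorem exists_ergodic_face (S : Z → Z) (K0 : Set (ProbabilityMeasure Z)) (hK0 : IsClosed K0)
    (hinv0 : ∀ μ ∈ K0, MeasurePreserving S (μ : Measure Z) (μ : Measure Z))
    (hface : ∀ μ ∈ K0, ∀ μ₁ μ₂ : ProbabilityMeasure Z, MeasurePreserving S (μ₁ : Measure Z) (μ₁ : Measure Z) →
      MeasurePreserving S (μ₂ : Measure Z) (μ₂ : Measure Z) → ∀ a b : ℝ≥0∞, 0 < a → 0 < b → a + b = 1 →
      (μ : Measure Z) = a • (μ₁ : Measure Z) + b • (μ₂ : Measure Z) → μ₁ ∈ K0 ∧ μ₂ ∈ K0)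
    (ρ : ProbabilityMeasure Z) (hρ : ρ ∈ K0) (Φ : C(Z, ℝ)) :
    ∃ lam : ProbabilityMeasure Z, lam ∈ K0 ∧ Ergodic S (lam : Measure Z) ∧
      ∫ z, Φ z ∂(ρ : Measure Z) ≤ ∫ z, Φ z ∂(lam : Measure Z) := by
  let _ : MetricSpace Z := TopologicalSpace.metrizableSpaceMetric Z
  have hZ : SecondCountableTopology Z := inferInstance
  obtain ⟨Θ, hΘ⟩ := TopologicalSpace.exists_dense_seq C(Z, ℝ)
  set Ψ : ℕ → C(Z, ℝ) := fun n => Nat.rec Φ (fun k _ => Θ k) n with hΨ
  have hΨ0 : Ψ 0 = Φ := rfl
  have hΨs : ∀ n, Ψ (n + 1) = Θ n := fun n => rfl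
  have hc : ∀ n, IsCompact (eK K0 Ψ n) ∧ (eK K0 Ψ n).Nonempty := by
    intro n
    induction n with
    | zero => exact ⟨hK0.isCompact, ⟨ρ, hρ⟩⟩
    | succ n ih => exact ⟨eMax_compact _ _ ih.1, eMax_ne _ _ ih.1 ih.2⟩
  obtain ⟨lam, hlam⟩ := IsCompact.nonempty_iInter_of_sequence_nonempty_isCompact_isClosed (eK K0 Ψ) (eK_mono K0 Ψ)
    (fun n => (hc n).2) (hc 0).1 (fun n => (hc n).1.isClosed)
  rw [mem_iInter] at hlam
  have hinv : MeasurePreserving S (lam : Measure Z) (lam : Measure Z) := hinv0 lam (hlam 0)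
  refine ⟨lam, hlam 0, ?_, ?_⟩
  · apply Ergodic.of_mem_extremePoints
    refine mem_extremePoints_iff_left.2 ⟨⟨hinv, inferInstance⟩, ?_⟩
    rintro ν₁ ⟨h1, h1'⟩ ν₂ ⟨h2, h2'⟩ ⟨a, b, ha, hb, hab, hs⟩
    set m₁ : ProbabilityMeasure Z := ⟨ν₁, h1'⟩ with hm1
    set m₂ : ProbabilityMeasure Z := ⟨ν₂, h2'⟩ with hm2
    have ha1 : a ≠ ∞ := by
      intro h; rw [h] at hab; simp at hab
    have hb1 : b ≠ ∞ := by
      intro h; rw [h] at hab; simp at hab
    have hint : ∀ Φ' : C(Z, ℝ), eL Φ' lam = a.toReal * eL Φ' m₁ + b.toReal * eL Φ' m₂ := by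
      intro Φ'
      have hi : ∀ ν : Measure Z, IsProbabilityMeasure ν → Integrable (fun z => Φ' z) ν := by
        intro ν hν
        exact (BoundedContinuousFunction.mkOfCompact Φ').integrable ν
      have e : (lam : Measure Z) = a • ν₁ + b • ν₂ := hs.symm
      unfold eL
      rw [e, integral_add_measure ((hi ν₁ h1').smul_measure ha1) ((hi ν₂ h2').smul_measure hb1),
        integral_smul_measure, integral_smul_measure, smul_eq_mul, smul_eq_mul]
      rfl
    have hab' : a.toReal + b.toReal = 1 := by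
      rw [← ENNReal.toReal_add ha1 hb1, hab, ENNReal.toReal_one]
    have ha' : 0 < a.toReal := ENNReal.toReal_pos ha.ne' ha1
    have hb' : 0 < b.toReal := ENNReal.toReal_pos hb.ne' hb1
    have key : ∀ n, m₁ ∈ eK K0 Ψ n ∧ m₂ ∈ eK K0 Ψ n := by
      intro n
      induction n with
      | zero => exact hface lam (hlam 0) m₁ m₂ h1 h2 a b ha hb hab hs.symm
      | succ n ih =>
        have hl := (hlam (n + 1)).2
        have g1 := hl m₁ ih.1
        have g2 := hl m₂ ih.2
        have g3 := hint (Ψ n)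
        have g4 : eL (Ψ n) m₁ = eL (Ψ n) lam := eL_conv ha' hb' hab' g1 g2 g3
        have g5 : eL (Ψ n) m₂ = eL (Ψ n) lam :=
          eL_conv hb' ha' (by rw [add_comm]; exact hab') g2 g1 (by rw [add_comm]; exact g3)
        exact ⟨⟨ih.1, fun ν hν => (hl ν hν).trans g4.ge⟩, ⟨ih.2, fun ν hν => (hl ν hν).trans g5.ge⟩⟩
    have heq : ∀ n, eL (Ψ n) m₁ = eL (Ψ n) lam := by
      intro n
      exact le_antisymm ((hlam (n + 1)).2 m₁ (key n).1) ((key (n + 1)).1.2 lam (hlam n))
    have hall : ∀ Φ' : C(Z, ℝ), eL Φ' m₁ = eL Φ' lam := by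
      intro Φ'
      have hcl : IsClosed {Φ' : C(Z, ℝ) | eL Φ' m₁ = eL Φ' lam} := by
        have hcont : ∀ μ : ProbabilityMeasure Z, Continuous fun Φ' : C(Z, ℝ) => eL Φ' μ := by
          intro μ
          refine LipschitzWith.continuous (K := 1) (LipschitzWith.of_dist_le_mul fun f g => ?_)
          rw [NNReal.coe_one, one_mul, Real.dist_eq]
          unfold eL
          have hi : ∀ f : C(Z, ℝ), Integrable (fun z => f z) (μ : Measure Z) :=
            fun f => (BoundedContinuousFunction.mkOfCompact f).integrable _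
          rw [← integral_sub (hi f) (hi g)]
          have h3 : ∀ᵐ z ∂(μ : Measure Z), ‖f z - g z‖ ≤ dist f g := by
            filter_upwards with z
            rw [Real.norm_eq_abs, ← Real.dist_eq]
            exact ContinuousMap.dist_apply_le_dist z
          have h4 := norm_integral_le_of_norm_le_const h3
          simpa using h4
        exact isClosed_eq (hcont _) (hcont _)
      have hd : Dense {Φ' : C(Z, ℝ) | eL Φ' m₁ = eL Φ' lam} := by
        refine hΘ.mono ?_
        rintro _ ⟨n, rfl⟩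
        exact heq (n + 1)
      have := hcl.closure_eq ▸ hd.closure_eq
      have h5 : Φ' ∈ closure {Φ' : C(Z, ℝ) | eL Φ' m₁ = eL Φ' lam} := hd Φ'
      rwa [hcl.closure_eq] at h5
    refine ext_of_forall_integral_eq_of_IsFiniteMeasure fun g => ?_
    exact hall g.toContinuousMap
  · exact (hlam 1).2 ρ hρ

/-- the face of the measures with a given marginal -/
theorem qe_marg_closed {W : Type} [TopologicalSpace W] [CompactSpace W] [TopologicalSpace.MetrizableSpace W]
    [MeasurableSpace W] [BorelSpace W] (ν : Measure W) [IsProbabilityMeasure ν] (g : Z → W) (hg : Continuous g) :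
    IsClosed {μ : ProbabilityMeasure Z | (μ : Measure Z).map g = ν} := by
  have h : {μ : ProbabilityMeasure Z | (μ : Measure Z).map g = ν} =
      ⋂ Φ : C(W, ℝ), {μ | eL (Φ.comp ⟨g, hg⟩) μ = ∫ w, Φ w ∂ν} := by
    ext μ
    simp only [mem_ofPred_eq, mem_iInter]
    constructor
    · intro hμ Φ
      unfold eL
      have h2 : ∫ z, Φ z ∂(Measure.map g (μ : Measure Z)) = ∫ z, Φ (g z) ∂(μ : Measure Z) :=
        integral_map hg.measurable.aemeasurable Φ.continuous.measurable.aestronglyMeasurable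
      rw [hμ] at h2
      exact h2.symm
    · intro h
      have hfm : IsFiniteMeasure (Measure.map g (μ : Measure Z)) := Measure.isFiniteMeasure_map _ _
      let _ : MetricSpace W := TopologicalSpace.metrizableSpaceMetric W
      refine ext_of_forall_integral_eq_of_IsFiniteMeasure fun k => ?_
      rw [integral_map hg.measurable.aemeasurable k.continuous.measurable.aestronglyMeasurable]
      exact h k.toContinuousMap
  rw [h]
  exact isClosed_iInter fun Φ => isClosed_eq (eL_cont _) continuous_const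

/-- **ergodic joinings dominate joinings**, two systems -/
theorem exists_ergodic_join2 {X Y : Type} [TopologicalSpace X] [CompactSpace X] [TopologicalSpace.MetrizableSpace X]
    [MeasurableSpace X] [BorelSpace X] [TopologicalSpace Y] [CompactSpace Y] [TopologicalSpace.MetrizableSpace Y]
    [MeasurableSpace Y] [BorelSpace Y] {ν : Measure X} [IsProbabilityMeasure ν] {ν' : Measure Y}
    [IsProbabilityMeasure ν'] {A : X → X} {B : Y → Y} (hA : Continuous A)
    (hB : Continuous B) (eA : Ergodic A ν) (eB : Ergodic B ν') (ρ : Measure (X × Y)) (hρ1 : IsProbabilityMeasure ρ)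
    (hρ : MeasurePreserving (Prod.map A B) ρ ρ) (hρ2 : ρ.map Prod.fst = ν) (hρ3 : ρ.map Prod.snd = ν')
    (Φ : C(X × Y, ℝ)) :
    ∃ lam : Measure (X × Y), IsProbabilityMeasure lam ∧ Ergodic (Prod.map A B) lam ∧ lam.map Prod.fst = ν ∧
      lam.map Prod.snd = ν' ∧ ∫ z, Φ z ∂ρ ≤ ∫ z, Φ z ∂lam := by
  have hS : Continuous (Prod.map A B) := hA.prodMap hB
  set K0 : Set (ProbabilityMeasure (X × Y)) :=
    {μ | MeasurePreserving (Prod.map A B) (μ : Measure (X × Y)) (μ : Measure (X × Y))} ∩
      ({μ | (μ : Measure (X × Y)).map Prod.fst = ν} ∩ {μ | (μ : Measure (X × Y)).map Prod.snd = ν'}) with hK0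
  have hcl : IsClosed K0 := (qe_inv_closed _ hS).inter
    ((qe_marg_closed ν Prod.fst continuous_fst).inter (qe_marg_closed ν' Prod.snd continuous_snd))
  -- a component of a joining is a joining
  have key : ∀ μ ∈ K0, ∀ μ₁ : ProbabilityMeasure (X × Y),
      MeasurePreserving (Prod.map A B) (μ₁ : Measure (X × Y)) (μ₁ : Measure (X × Y)) →
      (μ₁ : Measure (X × Y)) ≪ (μ : Measure (X × Y)) → μ₁ ∈ K0 := by
    intro μ hμ μ₁ h1 hac
    obtain ⟨g1, g2, g3⟩ := hμ
    refine ⟨h1, ?_, ?_⟩
    · have m1 : MeasurePreserving A ((μ₁ : Measure (X × Y)).map Prod.fst) ((μ₁ : Measure (X × Y)).map Prod.fst) := by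
        refine ⟨hA.measurable, ?_⟩
        rw [Measure.map_map hA.measurable measurable_fst]
        have e : A ∘ Prod.fst = Prod.fst ∘ Prod.map A B := rfl
        rw [e, ← Measure.map_map measurable_fst h1.measurable, h1.map_eq]
      have m2 : (μ₁ : Measure (X × Y)).map Prod.fst ≪ ν := by
        have g2' : (μ : Measure (X × Y)).map Prod.fst = ν := g2
        rw [← g2']
        exact hac.map measurable_fst
      have m3 : IsProbabilityMeasure ((μ₁ : Measure (X × Y)).map Prod.fst) :=
        Measure.isProbabilityMeasure_map measurable_fst.aemeasurable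
      exact eA.eq_of_absolutelyContinuous m1 m2
    · have m1 : MeasurePreserving B ((μ₁ : Measure (X × Y)).map Prod.snd) ((μ₁ : Measure (X × Y)).map Prod.snd) := by
        refine ⟨hB.measurable, ?_⟩
        rw [Measure.map_map hB.measurable measurable_snd]
        have e : B ∘ Prod.snd = Prod.snd ∘ Prod.map A B := rfl
        rw [e, ← Measure.map_map measurable_snd h1.measurable, h1.map_eq]
      have m2 : (μ₁ : Measure (X × Y)).map Prod.snd ≪ ν' := by
        have g3' : (μ : Measure (X × Y)).map Prod.snd = ν' := g3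
        rw [← g3']
        exact hac.map measurable_snd
      have m3 : IsProbabilityMeasure ((μ₁ : Measure (X × Y)).map Prod.snd) :=
        Measure.isProbabilityMeasure_map measurable_snd.aemeasurable
      exact eB.eq_of_absolutelyContinuous m1 m2
  obtain ⟨lam, l1, l2, l3⟩ := exists_ergodic_face (Prod.map A B) K0 hcl (fun μ hμ => hμ.1) (by
    intro μ hμ μ₁ μ₂ h1 h2 a b ha hb hab hs
    have hac1 : (μ₁ : Measure (X × Y)) ≪ (μ : Measure (X × Y)) := by
      rw [hs]
      refine Measure.AbsolutelyContinuous.mk fun s hs' h0 => ?_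
      rw [Measure.add_apply, Measure.smul_apply, smul_eq_mul, add_eq_zero, mul_eq_zero] at h0
      rcases h0.1 with h3 | h3
      · exact absurd h3 ha.ne'
      · exact h3
    have hac2 : (μ₂ : Measure (X × Y)) ≪ (μ : Measure (X × Y)) := by
      rw [hs]
      refine Measure.AbsolutelyContinuous.mk fun s hs' h0 => ?_
      rw [Measure.add_apply, Measure.smul_apply, Measure.smul_apply, smul_eq_mul, smul_eq_mul, add_eq_zero, mul_eq_zero,
        mul_eq_zero] at h0
      rcases h0.2 with h3 | h3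
      · exact absurd h3 hb.ne'
      · exact h3
    exact ⟨key μ hμ μ₁ h1 hac1, key μ hμ μ₂ h2 hac2⟩) ⟨ρ, hρ1⟩ ⟨hρ, hρ2, hρ3⟩ Φ
  exact ⟨(lam : Measure (X × Y)), inferInstance, l2, l1.2.1, l1.2.2, l3⟩

/-- **ergodic joinings dominate joinings** -/
theorem exists_ergodic_join {X : Type} [TopologicalSpace X] [CompactSpace X] [TopologicalSpace.MetrizableSpace X]
    [MeasurableSpace X] [BorelSpace X] {ν : Measure X} [IsProbabilityMeasure ν] {A B : X → X} (hA : Continuous A)
    (hB : Continuous B) (eA : Ergodic A ν) (eB : Ergodic B ν) (ρ : Measure (X × X)) (hρ1 : IsProbabilityMeasure ρ)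
    (hρ : MeasurePreserving (Prod.map A B) ρ ρ) (hρ2 : ρ.map Prod.fst = ν) (hρ3 : ρ.map Prod.snd = ν)
    (Φ : C(X × X, ℝ)) :
    ∃ lam : Measure (X × X), IsProbabilityMeasure lam ∧ Ergodic (Prod.map A B) lam ∧ lam.map Prod.fst = ν ∧
      lam.map Prod.snd = ν ∧ ∫ z, Φ z ∂ρ ≤ ∫ z, Φ z ∂lam :=
  exists_ergodic_join2 hA hB eA eB ρ hρ1 hρ hρ2 hρ3 Φ

end Pool.Agent.Lib.MP_9fe581_an.AP
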