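import Pool.Agent.Lib.MP_9fe581_an.AP.QD

/-! # AP, QF: joinings with one marginal dominated by an invariant measure, component by component -/

set_option autoImplicit false

open MeasureTheory Filter Topology ProbabilityTheory
open scoped ENNReal NNReal ComplexConjugate

namespace Pool.Agent.Lib.MP_9fe581_an.AP

open Pool.Agent.Lib.MP_e4ee3e_an (condKernel_null condKernel_const condKernel_preserving condKernel_ergodic x02_gen)

/-- conditional measures for a σ-algebra of invariant sets are invariant -/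
theorem dec_pres {W : Type} {m : MeasurableSpace W} [mW : MeasurableSpace W] [StandardBorelSpace W] {A : W → W}
    {ρ : Measure W} [IsProbabilityMeasure ρ] (hm : m ≤ mW) (hρ : MeasurePreserving A ρ ρ)
    (hinv : ∀ s, MeasurableSet[m] s → A ⁻¹' s = s) :
    ∀ᵐ w ∂ρ, MeasurePreserving A (condExpKernel ρ m w) (condExpKernel ρ m w) := by
  obtain ⟨F, hF, hpi, hgen⟩ := x02_gen W
  have key : ∀ q : ℚ, ∀ᵐ w ∂ρ, condExpKernel ρ m w (A ⁻¹' F q) = condExpKernel ρ m w (F q) := by
    intro q
    have hSF : MeasurableSet (A ⁻¹' F q) := hρ.measurable (hF q)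
    have h1 := condExpKernel_ae_eq_condExp (μ := ρ) hm (hF q)
    have h2 := condExpKernel_ae_eq_condExp (μ := ρ) hm hSF
    have h3 : condExp m ρ ((F q).indicator fun _ => (1 : ℝ)) =ᵐ[ρ]
        condExp m ρ ((A ⁻¹' F q).indicator fun _ => (1 : ℝ)) := by
      refine ae_eq_condExp_of_forall_setIntegral_eq hm ((integrable_const 1).indicator hSF) ?_ ?_ ?_
      · intro s _ _
        exact integrable_condExp.integrableOn
      · intro s hs _
        rw [setIntegral_condExp hm ((integrable_const 1).indicator (hF q)) hs,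
          setIntegral_indicator (hF q), setIntegral_indicator hSF]
        simp only [integral_const, MeasurableSet.univ, measureReal_restrict_apply, Set.univ_inter,
          smul_eq_mul, mul_one]
        rw [measureReal_def, measureReal_def]
        congr 1
        have h4 : s ∩ A ⁻¹' F q = A ⁻¹' (s ∩ F q) := by
          rw [Set.preimage_inter, hinv s hs]
        rw [h4, hρ.measure_preimage ((hm _ hs).inter (hF q)).nullMeasurableSet]
      · exact stronglyMeasurable_condExp.aestronglyMeasurable
    filter_upwards [h1, h2, h3] with ω hω1 hω2 hω3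
    rw [← hω1, ← hω2] at hω3
    rw [measureReal_def, measureReal_def] at hω3
    exact ((ENNReal.toReal_eq_toReal_iff' (measure_ne_top _ _) (measure_ne_top _ _)).1 hω3).symm
  filter_upwards [ae_all_iff.2 key] with ω hω
  refine ⟨hρ.measurable, ?_⟩
  have : IsProbabilityMeasure ((condExpKernel ρ m ω).map A) :=
    Measure.isProbabilityMeasure_map hρ.measurable.aemeasurable
  refine ext_of_generate_finite (Set.range F) hgen hpi ?_ ?_
  · rintro _ ⟨q, rfl⟩
    rw [Measure.map_apply hρ.measurable (hF q)]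
    exact hω q
  · rw [measure_univ, measure_univ]

/-- integrals over the conditional measures and over a set of the σ-algebra -/
theorem dec_set {W : Type} {m : MeasurableSpace W} [mW : MeasurableSpace W] [StandardBorelSpace W]
    {ρ : Measure W} [IsProbabilityMeasure ρ] (hm : m ≤ mW) {s F : Set W} (hs : MeasurableSet[m] s)
    (hF : MeasurableSet F) : ∫⁻ w in s, condExpKernel ρ m w F ∂ρ = ρ (s ∩ F) := by
  have h1 := condExpKernel_ae_eq_condExp (μ := ρ) hm hF
  have h2 : ∀ᵐ w ∂ρ.restrict s, condExpKernel ρ m w F =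
      ENNReal.ofReal ((condExp m ρ (F.indicator fun _ => (1 : ℝ))) w) := by
    filter_upwards [ae_restrict_of_ae h1] with w hw
    rw [← hw, measureReal_def, ENNReal.ofReal_toReal (measure_ne_top _ _)]
  rw [lintegral_congr_ae h2, ← ofReal_integral_eq_lintegral_ofReal integrable_condExp.integrableOn ?_]
  · rw [setIntegral_condExp hm ((integrable_const 1).indicator hF) hs, setIntegral_indicator hF]
    simp only [integral_const, MeasurableSet.univ, measureReal_restrict_apply, Set.univ_inter,
          smul_eq_mul, mul_one]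
    rw [measureReal_def, ENNReal.ofReal_toReal (measure_ne_top _ _)]
  · refine ae_restrict_of_ae ?_
    filter_upwards [h1] with w hw
    rw [← hw]
    exact measureReal_nonneg

variable {Y : Type} [MeasurableSpace Y] [StandardBorelSpace Y] {S : Y → Y} {ν : Measure Y} [IsProbabilityMeasure ν]

/-- the invariant sets of the first coordinate -/
@[reducible] def invFst (S : Y → Y) (W : Type) : MeasurableSpace (Y × W) :=
  (MeasurableSpace.invariants S).comap (Prod.fst : Y × W → Y)

omit [StandardBorelSpace Y] in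
theorem invFst_le (S : Y → Y) (W : Type) [mW : MeasurableSpace W] :
    invFst S W ≤ (Prod.instMeasurableSpace : MeasurableSpace (Y × W)) := by
  rintro _ ⟨s, hs, rfl⟩
  exact measurable_fst (MeasurableSpace.invariants_le S _ hs)

/-- **decomposition of a joining over the invariant sets of the first coordinate** -/
theorem dec_marg {W : Type} [MeasurableSpace W] [StandardBorelSpace W] {B : W → W}
    (hν : MeasurePreserving S ν ν) {p : ℕ}
    (he : ∀ᵐ z ∂ν, Ergodic S^[p] (condExpKernel ν (MeasurableSpace.invariants S) z)) {ρ : Measure (Y × W)}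
    [IsProbabilityMeasure ρ] (hρ : MeasurePreserving (Prod.map S^[p] B) ρ ρ) (hac : ρ.map Prod.fst ≪ ν) :
    ∀ᵐ w ∂ρ, MeasurePreserving (Prod.map S^[p] B)
        (condExpKernel ρ (invFst S W) w)
        (condExpKernel ρ (invFst S W) w) ∧
      (condExpKernel ρ (invFst S W) w).map Prod.fst =
        condExpKernel ν (MeasurableSpace.invariants S) w.1 := by
  have hmI := MeasurableSpace.invariants_le S
  have hm := invFst_le S W
  have hSn : ∀ s, MeasurableSet[MeasurableSpace.invariants S] s → S^[p] ⁻¹' s = s := by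
    intro s hs
    have h1 : S ⁻¹' s = s := hs.2
    have h2 : ∀ n : ℕ, S^[n] ⁻¹' s = s := by
      intro n
      induction n with
      | zero => rfl
      | succ n ih => rw [Function.iterate_succ, Set.preimage_comp, ih, h1]
    exact h2 p
  have h1 := dec_pres hm hρ (by
    rintro _ ⟨s, hs, rfl⟩
    have h2 := hSn s hs
    ext w
    constructor
    · intro h3
      have h4 : w.1 ∈ S^[p] ⁻¹' s := h3
      rw [h2] at h4
      exact h4
    · intro h3
      have h4 : w.1 ∈ s := h3
      rw [← h2] at h4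
      exact h4)
  set σ : Measure Y := ρ.map Prod.fst with hσ
  have hσ1 : IsProbabilityMeasure σ := Measure.isProbabilityMeasure_map measurable_fst.aemeasurable
  have hSp : Measurable S^[p] := hν.measurable.iterate p
  have hσp : MeasurePreserving S^[p] σ σ := by
    refine ⟨hSp, ?_⟩
    rw [hσ, Measure.map_map hSp measurable_fst]
    have e : S^[p] ∘ Prod.fst = Prod.fst ∘ Prod.map S^[p] B := rfl
    rw [e, ← Measure.map_map measurable_fst hρ.measurable, hρ.map_eq]
  have h2 := den_kernel hν he hac hσp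
  have h3 : ∀ᵐ w ∂ρ, condExpKernel σ (MeasurableSpace.invariants S) w.1 =
      condExpKernel ν (MeasurableSpace.invariants S) w.1 :=
    ae_of_ae_map measurable_fst.aemeasurable h2
  obtain ⟨F, hF, hpi, hgen⟩ := x02_gen Y
  have h4 : ∀ q : ℚ, ∀ᵐ w ∂ρ, condExpKernel ρ (invFst S W) w (Prod.fst ⁻¹' F q) =
      condExpKernel σ (MeasurableSpace.invariants S) w.1 (F q) := by
    intro q
    have m1 : Measurable[invFst S W] fun w => condExpKernel ρ (invFst S W) w (Prod.fst ⁻¹' F q) :=
      measurable_condExpKernel (m := invFst S W) (μ := ρ) (measurable_fst (hF q))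
    have m2' : Measurable[MeasurableSpace.invariants S] fun z => condExpKernel σ (MeasurableSpace.invariants S) z (F q) :=
      measurable_condExpKernel (m := MeasurableSpace.invariants S) (μ := σ) (hF q)
    have m2 : Measurable[invFst S W] fun w : Y × W => condExpKernel σ (MeasurableSpace.invariants S) w.1 (F q) :=
      m2'.comp (comap_measurable (m := MeasurableSpace.invariants S) (Prod.fst : Y × W → Y))
    have h5 : ∀ᵐ w ∂(ρ.trim hm), condExpKernel ρ (invFst S W) w (Prod.fst ⁻¹' F q) =
        condExpKernel σ (MeasurableSpace.invariants S) w.1 (F q) := by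
      refine ae_eq_of_forall_setLIntegral_eq_of_sigmaFinite m1 m2 fun s hs _ => ?_
      rw [setLIntegral_trim hm m1 hs, setLIntegral_trim hm m2 hs, dec_set hm hs (measurable_fst (hF q))]
      obtain ⟨t, ht, rfl⟩ := hs
      have h6 : ∫⁻ w in Prod.fst ⁻¹' t, condExpKernel σ (MeasurableSpace.invariants S) w.1 (F q) ∂ρ =
          ∫⁻ z in t, condExpKernel σ (MeasurableSpace.invariants S) z (F q) ∂σ :=
        (setLIntegral_map (hmI _ ht) (m2'.mono hmI le_rfl) measurable_fst).symm
      have h7 : σ (t ∩ F q) = ρ (Prod.fst ⁻¹' t ∩ Prod.fst ⁻¹' F q) :=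
        Measure.map_apply measurable_fst ((hmI _ ht).inter (hF q))
      rw [h6, dec_set hmI ht (hF q), h7]
    exact ae_of_ae_trim hm h5
  filter_upwards [h1, h3, ae_all_iff.2 h4] with w hw1 hw2 hw3
  refine ⟨hw1, ?_⟩
  rw [← hw2]
  have i1 : IsProbabilityMeasure ((condExpKernel ρ (invFst S W) w).map Prod.fst) :=
    Measure.isProbabilityMeasure_map measurable_fst.aemeasurable
  refine ext_of_generate_finite (Set.range F) hgen hpi ?_ ?_
  · rintro _ ⟨q, rfl⟩
    rw [Measure.map_apply measurable_fst (hF q)]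
    exact hw3 q
  · rw [measure_univ, measure_univ]

/-- a bound for the joinings over the components is a bound for the joining -/
theorem dec_bound {W : Type} [MeasurableSpace W] [StandardBorelSpace W] {B : W → W}
    (hν : MeasurePreserving S ν ν) {p : ℕ}
    (he : ∀ᵐ z ∂ν, Ergodic S^[p] (condExpKernel ν (MeasurableSpace.invariants S) z)) {ρ : Measure (Y × W)}
    [IsProbabilityMeasure ρ] (hρ : MeasurePreserving (Prod.map S^[p] B) ρ ρ) (hac : ρ.map Prod.fst ≪ ν) {G : Set Y}
    (hG : ∀ᵐ w ∂ρ, w.1 ∈ G) {F : Y × W → ℂ} (hFm : Measurable F) {C : ℝ} (hFb : ∀ w, ‖F w‖ ≤ C) {ε : ℝ}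
    (h : ∀ z ∈ G, ∀ lam : Measure (Y × W), IsProbabilityMeasure lam → MeasurePreserving (Prod.map S^[p] B) lam lam →
      lam.map Prod.fst = condExpKernel ν (MeasurableSpace.invariants S) z → ‖∫ w, F w ∂lam‖ ≤ ε) :
    ‖∫ w, F w ∂ρ‖ ≤ ε := by
  have hmI := MeasurableSpace.invariants_le S
  have hm := invFst_le S W
  have hFi : Integrable F ρ := Integrable.of_bound hFm.aestronglyMeasurable C (Eventually.of_forall hFb)
  have e1 : ∫ w, F w ∂ρ = ∫ w, (∫ y, F y ∂(condExpKernel ρ (invFst S W) w)) ∂ρ := by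
    rw [← integral_congr_ae (condExp_ae_eq_integral_condExpKernel hm hFi), integral_condExp hm]
  rw [e1]
  have h1 := dec_marg hν he hρ hac
  have h2 : ∀ᵐ w ∂ρ, ‖∫ y, F y ∂(condExpKernel ρ (invFst S W) w)‖ ≤ ε := by
    filter_upwards [h1, hG] with w hw hwG
    exact h w.1 hwG _ inferInstance hw.1 hw.2
  refine (norm_integral_le_of_norm_le_const h2).trans ?_
  rw [probReal_univ, mul_one]

/-- **one cell** -/
theorem dec_cell {p : ℕ} {B : Y → Y} (hν : MeasurePreserving S ν ν)
    (he : ∀ᵐ z ∂ν, Ergodic S^[p] (condExpKernel ν (MeasurableSpace.invariants S) z)) {ρ : Measure (Y × Y)}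
    [IsProbabilityMeasure ρ] (hρ : MeasurePreserving (Prod.map S^[p] B) ρ ρ) (hac : ρ.map Prod.fst ≪ ν) {G H : Set Y}
    (hGm : MeasurableSet G) (hHm : MeasurableSet H) (hG : S^[p] ⁻¹' G = G) (hH : B ⁻¹' H = H) {F : Y × Y → ℂ}
    (hFm : Measurable F) {C : ℝ} (hFb : ∀ w, ‖F w‖ ≤ C) {ε : ℝ}
    (h : ∀ z ∈ G, ∀ lam : Measure (Y × Y), IsProbabilityMeasure lam → MeasurePreserving (Prod.map S^[p] B) lam lam →
      lam.map Prod.fst = condExpKernel ν (MeasurableSpace.invariants S) z → ‖∫ w, F w ∂lam‖ ≤ ε) :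
    ‖∫ w in G ×ˢ H, F w ∂ρ‖ ≤ ε * (ρ (G ×ˢ H)).toReal := by
  by_cases h0 : ρ (G ×ˢ H) = 0
  · rw [Measure.restrict_eq_zero.2 h0, integral_zero_measure, norm_zero, h0, ENNReal.toReal_zero, mul_zero]
  set r := ρ (G ×ˢ H) with hr
  have hrt : r ≠ ∞ := measure_ne_top _ _
  have hAm : MeasurableSet (G ×ˢ H) := hGm.prod hHm
  set ρ' : Measure (Y × Y) := r⁻¹ • ρ.restrict (G ×ˢ H) with hρ'
  have i1 : IsProbabilityMeasure ρ' := by
    refine ⟨?_⟩
    rw [hρ', Measure.smul_apply, Measure.restrict_apply MeasurableSet.univ, Set.univ_inter, smul_eq_mul,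
      ENNReal.inv_mul_cancel h0 hrt]
  have i2 : MeasurePreserving (Prod.map S^[p] B) ρ' ρ' := by
    have e : Prod.map S^[p] B ⁻¹' (G ×ˢ H) = G ×ˢ H := by
      ext ⟨x, y⟩
      constructor
      · rintro ⟨a1, a2⟩
        exact ⟨by rw [← hG]; exact a1, by rw [← hH]; exact a2⟩
      · rintro ⟨a1, a2⟩
        refine ⟨?_, ?_⟩
        · have : x ∈ S^[p] ⁻¹' G := by rw [hG]; exact a1
          exact this
        · have : y ∈ B ⁻¹' H := by rw [hH]; exact a2
          exact this
    have h3 := hρ.restrict_preimage hAm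
    rw [e] at h3
    exact h3.smul_measure _
  have i3 : ρ' ≪ ρ := (Measure.smul_absolutelyContinuous).trans Measure.absolutelyContinuous_restrict
  have i4 : ρ'.map Prod.fst ≪ ν := (i3.map measurable_fst).trans hac
  have i5 : ∀ᵐ w ∂ρ', w.1 ∈ G := by
    refine Measure.smul_absolutelyContinuous.ae_le (?_ : ∀ᵐ w ∂(ρ.restrict (G ×ˢ H)), w.1 ∈ G)
    filter_upwards [ae_restrict_mem hAm] with w hw
    exact hw.1
  have h1 := dec_bound hν he i2 i4 i5 hFm hFb h
  have e1 : ∫ w, F w ∂ρ' = ((r.toReal)⁻¹ : ℝ) • ∫ w in G ×ˢ H, F w ∂ρ := by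
    rw [hρ', integral_smul_measure, ENNReal.toReal_inv]
  have hmr : 0 < r.toReal := ENNReal.toReal_pos h0 hrt
  rw [e1, norm_smul, Real.norm_of_nonneg (by positivity), inv_mul_le_iff₀ hmr] at h1
  linarith

end Pool.Agent.Lib.MP_9fe581_an.AP
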