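import Pool.Agent.Lib.MP_9fe581_an.AP.QK
import Pool.Agent.Lib.MP_9fe581_an.AP.QE
import Pool.Agent.Lib.MP_9fe581_an.AP.M1
import Pool.Agent.Lib.MP_9fe581_an.FT.Emp

/-!
# AP, QG: quasi-generic points

If the empirical measures of `z i` of length `N i` converge to `ν`, all powers of `(R, ν)` are ergodic and the ergodic
joinings of `R^p`, `R^q` are small on `f ⊗ conj f` (`SJ`), then every bounded multiplicative function is orthogonal to
`f (R^n (z i))` along the intervals `[1, N i]`.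
-/

set_option autoImplicit false

open Finset MeasureTheory Filter Topology
open scoped ComplexConjugate ENNReal NNReal

namespace Pool.Agent.Lib.MP_9fe581_an.AP

/-- domination on continuous functions gives absolute continuity -/
theorem qg_ac {X : Type} [TopologicalSpace X] [CompactSpace X] [TopologicalSpace.MetrizableSpace X] [MeasurableSpace X]
    [BorelSpace X] {σ ν : Measure X} [IsFiniteMeasure σ] [IsFiniteMeasure ν] {C : ℝ} (hC : 0 ≤ C)
    (h : ∀ g : C(X, ℝ), (∀ x, 0 ≤ g x) → ∫ x, g x ∂σ ≤ C * ∫ x, g x ∂ν) : σ ≪ ν := by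
  let _ : MetricSpace X := TopologicalSpace.metrizableSpaceMetric X
  refine Measure.AbsolutelyContinuous.mk fun s hs h0 => ?_
  rw [hs.measure_eq_iSup_isClosed_of_ne_top (measure_ne_top σ s)]
  simp only [ENNReal.iSup_eq_zero]
  intro K hKs hK
  have hν : ν K = 0 := measure_mono_null hKs h0
  have hlim := HasOuterApproxClosed.tendsto_lintegral_apprSeq hK ν
  rw [hν] at hlim
  have hlim2 := ENNReal.Tendsto.const_mul (a := ENNReal.ofReal C) hlim (Or.inr ENNReal.ofReal_ne_top)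
  rw [mul_zero] at hlim2
  have hb : ∀ n, σ K ≤ ENNReal.ofReal C * ∫⁻ x, (hK.apprSeq n x : ℝ≥0∞) ∂ν := by
    intro n
    refine (HasOuterApproxClosed.measure_le_lintegral hK σ n).trans ?_
    set g : C(X, ℝ) := ⟨fun x => (hK.apprSeq n x : ℝ), by fun_prop⟩ with hg
    have hi : ∀ τ : Measure X, IsFiniteMeasure τ → Integrable (fun x => ((hK.apprSeq n x : ℝ≥0) : ℝ)) τ := by
      intro τ hτ
      refine Integrable.of_bound g.continuous.measurable.aestronglyMeasurable 1 (Eventually.of_forall fun x => ?_)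
      have h1 := HasOuterApproxClosed.apprSeq_apply_le_one hK n x
      rw [Real.norm_of_nonneg (NNReal.coe_nonneg _)]
      exact_mod_cast h1
    rw [lintegral_coe_eq_integral _ (hi σ inferInstance), lintegral_coe_eq_integral _ (hi ν inferInstance),
      ← ENNReal.ofReal_mul hC]
    exact ENNReal.ofReal_le_ofReal (h g fun x => NNReal.coe_nonneg _)
  exact le_antisymm (ge_of_tendsto' hlim2 hb) bot_le

section Lim

variable {W : Type} [TopologicalSpace W] [CompactSpace W] [TopologicalSpace.MetrizableSpace W] [MeasurableSpace W]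
  [BorelSpace W]

/-- limits of empirical measures along an ultrafilter -/
theorem qg_lim (S : W → W) (hS : Continuous S) (z : ℕ → W) (N : ℕ → ℕ) (U : Ultrafilter ℕ)
    (hN : Tendsto N (U : Filter ℕ) atTop) :
    ∃ ρ : Measure W, IsProbabilityMeasure ρ ∧ MeasurePreserving S ρ ρ ∧
      ∀ g : C(W, ℝ), Tendsto (fun k => ∫ y, g y ∂(FT.emp S (z k) (N k))) (U : Filter ℕ) (𝓝 (∫ y, g y ∂ρ)) := by
  let _ : MetricSpace W := TopologicalSpace.metrizableSpaceMetric W
  set μ : ℕ → ProbabilityMeasure W := fun k => ⟨FT.emp S (z k) (N k), FT.emp_prob S (z k) (N k)⟩ with hμ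
  obtain ⟨ρ, -, hρ⟩ := isCompact_univ.ultrafilter_le_nhds (U.map μ) (by simp)
  have hρt : Tendsto μ (U : Filter ℕ) (𝓝 ρ) := hρ
  have hR := ProbabilityMeasure.tendsto_iff_forall_integral_tendsto.mp hρt
  refine ⟨(ρ : Measure W), inferInstance, ?_, ?_⟩
  · refine ⟨hS.measurable, ?_⟩
    have hfm : IsFiniteMeasure (Measure.map S (ρ : Measure W)) := Measure.isFiniteMeasure_map _ _
    refine ext_of_forall_integral_eq_of_IsFiniteMeasure fun g => ?_
    rw [integral_map hS.measurable.aemeasurable g.continuous.measurable.aestronglyMeasurable]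
    set gS : BoundedContinuousFunction W ℝ := g.compContinuous ⟨S, hS⟩ with hgS
    have t1 : Tendsto (fun k => ∫ y, gS y ∂(μ k : Measure W)) (U : Filter ℕ)
      (𝓝 (∫ y, gS y ∂(ρ : Measure W))) := hR gS
    have t2 : Tendsto (fun k => ∫ y, g y ∂(μ k : Measure W)) (U : Filter ℕ)
      (𝓝 (∫ y, g y ∂(ρ : Measure W))) := hR g
    have t3 : Tendsto (fun k => ∫ y, gS y ∂(μ k : Measure W) - ∫ y, g y ∂(μ k : Measure W)) (U : Filter ℕ)
        (𝓝 0) := by
      rw [tendsto_zero_iff_norm_tendsto_zero]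
      have hb : Tendsto (fun k : ℕ => 2 * ‖g‖ * (1 / ((N k : ℝ) + 1))) (U : Filter ℕ) (𝓝 (2 * ‖g‖ * 0)) :=
        (tendsto_one_div_add_atTop_nhds_zero_nat.comp hN).const_mul _
      rw [mul_zero] at hb
      refine squeeze_zero (fun k => norm_nonneg _) (fun k => ?_) hb
      have e1 : ∫ y, gS y ∂(μ k : Measure W) =
          (((N k + 1 : ℕ) : ℝ))⁻¹ • ∑ n ∈ range (N k + 1), g (S (S^[n + 1] (z k))) :=
        FT.emp_int S (z k) (N k) gS gS.continuous
      have e2 : ∫ y, g y ∂(μ k : Measure W) =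
          (((N k + 1 : ℕ) : ℝ))⁻¹ • ∑ n ∈ range (N k + 1), g (S^[n + 1] (z k)) :=
        FT.emp_int S (z k) (N k) g g.continuous
      have e3 : ∑ n ∈ range (N k + 1), g (S (S^[n + 1] (z k))) -
          ∑ n ∈ range (N k + 1), g (S^[n + 1] (z k)) =
          g (S^[N k + 2] (z k)) - g (S^[1] (z k)) := by
        rw [← Finset.sum_sub_distrib]
        have h2 := Finset.sum_range_sub (fun n => g (S^[n + 1] (z k))) (N k + 1)
        rw [← h2]
        refine Finset.sum_congr rfl fun n _ => ?_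
        rw [← Function.iterate_succ_apply' S (n + 1) (z k)]
      rw [e1, e2, ← smul_sub, e3, norm_smul, Real.norm_of_nonneg (by positivity)]
      have e4 : ‖g (S^[N k + 2] (z k)) - g (S^[1] (z k))‖ ≤ 2 * ‖g‖ := by
        refine (norm_sub_le _ _).trans ?_
        linarith [g.norm_coe_le_norm (S^[N k + 2] (z k)), g.norm_coe_le_norm (S^[1] (z k))]
      have e5 : (((N k + 1 : ℕ) : ℝ))⁻¹ = 1 / ((N k : ℝ) + 1) := by
        rw [one_div]
        push_cast
        rfl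
      calc (((N k + 1 : ℕ) : ℝ))⁻¹ * ‖g (S^[N k + 2] (z k)) - g (S^[1] (z k))‖
          ≤ (1 / ((N k : ℝ) + 1)) * (2 * ‖g‖) := by rw [e5]; gcongr
        _ = 2 * ‖g‖ * (1 / ((N k : ℝ) + 1)) := by ring
    have t4 := t1.sub t2
    have t5 := tendsto_nhds_unique t4 t3
    have t6 : ∫ y, gS y ∂(ρ : Measure W) = ∫ y, g y ∂(ρ : Measure W) := by linarith
    exact t6
  · intro g
    exact hR (BoundedContinuousFunction.mkOfCompact g)

theorem qg_avg (S : W → W) (Φ : C(W, ℝ)) (z : W) (M : ℕ) (hM : 1 ≤ M) :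
    ∫ y, Φ y ∂(FT.emp S z (M - 1)) = (1 / (M : ℝ)) * ∑ m ∈ Icc 1 M, Φ (S^[m] z) := by
  obtain ⟨K, rfl⟩ : ∃ K, M = K + 1 := ⟨M - 1, by omega⟩
  rw [Nat.add_sub_cancel, FT.emp_int S z K Φ Φ.continuous, smul_eq_mul, one_div]
  congr 1
  rw [Finset.range_eq_Ico, Finset.sum_Ico_add' (fun n => Φ (S^[n] z)) 0 (K + 1) 1]
  rfl

end Lim

section Pair

variable {X : Type} [TopologicalSpace X] [CompactSpace X] [TopologicalSpace.MetrizableSpace X] [MeasurableSpace X]
  [BorelSpace X] {ν : Measure X} [IsProbabilityMeasure ν] {R : X → X}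

/-- the sequence of points `z i` is quasi-generic for `ν` along the lengths `N i` -/
def QGen (R : X → X) (ν : Measure X) (z : ℕ → X) (N : ℕ → ℕ) : Prop :=
  ∀ g : C(X, ℝ), Tendsto (fun i => (1 / (N i : ℝ)) * ∑ n ∈ Icc 1 (N i), g (R^[n] (z i))) atTop (𝓝 (∫ x, g x ∂ν))

/-- the averages along the multiples of `p` -/
theorem qg_dil (z : ℕ → X) (N : ℕ → ℕ) (hq : QGen R ν z N) (p L : ℕ) (hp : 0 < p) (hpL : p ≤ L) (U : Ultrafilter ℕ)
    (hU : (U : Filter ℕ) ≤ atTop) (hM : ∀ᶠ i in (U : Filter ℕ), 1 ≤ N i / L) (g : C(X, ℝ)) (hg : ∀ x, 0 ≤ g x) (b : ℝ)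
    (hb : Tendsto (fun i => (1 / ((N i / L : ℕ) : ℝ)) * ∑ m ∈ Icc 1 (N i / L), g (R^[p * m] (z i))) (U : Filter ℕ) (𝓝 b)) :
    b ≤ 2 * L * ∫ x, g x ∂ν := by
  have hL : 0 < L := hp.trans_le hpL
  have h1 := ((hq g).mono_left hU).const_mul (2 * (L : ℝ))
  refine le_of_tendsto_of_tendsto hb h1 ?_
  filter_upwards [hM] with i hi
  set M := N i / L with hMdef
  have hM0 : (0 : ℝ) < M := by exact_mod_cast hi
  have hNi : N i < L * (M + 1) := by
    have := Nat.lt_mul_div_succ (N i) hL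
    exact this
  have hNM : L * M ≤ N i := Nat.mul_div_le _ _
  have hN0 : 0 < N i := lt_of_lt_of_le (Nat.mul_pos hL hi) hNM
  have hN0' : (0 : ℝ) < N i := by exact_mod_cast hN0
  have e1 : ∑ m ∈ Icc 1 M, g (R^[p * m] (z i)) ≤ ∑ n ∈ Icc 1 (N i), g (R^[n] (z i)) := by
    have e2 : ∑ m ∈ Icc 1 M, g (R^[p * m] (z i)) = ∑ n ∈ (Icc 1 M).image (fun m => p * m), g (R^[n] (z i)) := by
      rw [Finset.sum_image]
      intro a _ b _ hab
      exact Nat.eq_of_mul_eq_mul_left hp hab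
    rw [e2]
    refine Finset.sum_le_sum_of_subset_of_nonneg ?_ fun _ _ _ => hg _
    intro n hn
    rw [mem_image] at hn
    obtain ⟨m, hm, rfl⟩ := hn
    rw [mem_Icc] at hm ⊢
    exact ⟨Nat.mul_pos hp hm.1, (Nat.mul_le_mul hpL hm.2).trans hNM⟩
  have e3 : 1 / (M : ℝ) ≤ 2 * L * (1 / (N i : ℝ)) := by
    rw [mul_one_div, div_le_div_iff₀ hM0 hN0', one_mul]
    have h2 : (N i : ℝ) < L * (M + 1) := by exact_mod_cast hNi
    have h3 : (1 : ℝ) ≤ M := by exact_mod_cast hi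
    have h4 : (0 : ℝ) < L := by exact_mod_cast hL
    nlinarith
  have e4 : 0 ≤ ∑ n ∈ Icc 1 (N i), g (R^[n] (z i)) := Finset.sum_nonneg fun _ _ => hg _
  calc 1 / (M : ℝ) * ∑ m ∈ Icc 1 M, g (R^[p * m] (z i)) ≤ 1 / (M : ℝ) * ∑ n ∈ Icc 1 (N i), g (R^[n] (z i)) :=
        mul_le_mul_of_nonneg_left e1 (by positivity)
    _ ≤ 2 * L * (1 / (N i : ℝ)) * ∑ n ∈ Icc 1 (N i), g (R^[n] (z i)) := mul_le_mul_of_nonneg_right e3 e4
    _ = _ := by ring

/-- a limit marginal is `ν` -/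
private theorem qg_marg (z : ℕ → X) (N : ℕ → ℕ) (hq : QGen R ν z N) (p L : ℕ) (hp : 0 < p)
    (hpL : p ≤ L) (hE : Ergodic R^[p] ν) (U : Ultrafilter ℕ)
    (hU : (U : Filter ℕ) ≤ atTop) (hM : ∀ᶠ i in (U : Filter ℕ), 1 ≤ N i / L) (σ : Measure X) [IsProbabilityMeasure σ]
    (hσ : MeasurePreserving R^[p] σ σ)
    (hb : ∀ g : C(X, ℝ), Tendsto (fun i => (1 / ((N i / L : ℕ) : ℝ)) * ∑ m ∈ Icc 1 (N i / L), g (R^[p * m] (z i)))
      (U : Filter ℕ) (𝓝 (∫ x, g x ∂σ))) : σ = ν := by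
  refine hE.eq_of_absolutelyContinuous hσ ?_
  refine qg_ac (C := 2 * L) (by positivity) fun g hg => ?_
  exact qg_dil z N hq p L hp hpL U hU hM g hg _ (hb g)

theorem qg_iter (p q m : ℕ) (x y : X) :
    (Prod.map R^[p] R^[q])^[m] (x, y) = (R^[p * m] x, R^[q * m] y) := by
  rw [Prod.map_iterate, Prod.map_apply, Function.iterate_mul, Function.iterate_mul]

/-- averages of a real continuous function along the orbit of `(z i, z i)` under `R^p × R^q` -/
private theorem qg_real (hRc : Continuous R) (he : ∀ n, 0 < n → Ergodic R^[n] ν) (z : ℕ → X) (N : ℕ → ℕ)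
    (hN : Tendsto N atTop atTop) (hq : QGen R ν z N) (p q L : ℕ) (hp : 0 < p) (hq0 : 0 < q) (hpL : p ≤ L) (hqL : q ≤ L)
    (Φ : C(X × X, ℝ)) (a : ℝ) (h : ∀ lam : Measure (X × X), IsProbabilityMeasure lam →
      Ergodic (Prod.map R^[p] R^[q]) lam → lam.map Prod.fst = ν → lam.map Prod.snd = ν → ∫ w, Φ w ∂lam ≤ a)
    (ε : ℝ) (hε : 0 < ε) :
    ∀ᶠ i in atTop, ∑ m ∈ Icc 1 (N i / L), Φ (R^[p * m] (z i), R^[q * m] (z i)) ≤ (a + ε) * (N i / L : ℕ) := by
  have hL : 0 < L := hp.trans_le hpL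
  have hML : Tendsto (fun i => N i / L) atTop atTop := by
    refine tendsto_atTop.2 fun b => ?_
    filter_upwards [hN.eventually_ge_atTop (b * L)] with i hi
    exact (Nat.le_div_iff_mul_le hL).2 hi
  by_contra hcon
  have hfr : ∃ᶠ i in atTop, ¬ ∑ m ∈ Icc 1 (N i / L), Φ (R^[p * m] (z i), R^[q * m] (z i)) ≤ (a + ε) * (N i / L : ℕ) :=
    Filter.not_eventually.1 hcon
  set bad : Set ℕ := {i | ¬ ∑ m ∈ Icc 1 (N i / L), Φ (R^[p * m] (z i), R^[q * m] (z i)) ≤ (a + ε) * (N i / L : ℕ)} with hbad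
  have hne : (atTop ⊓ 𝓟 bad).NeBot := by
    rw [← Filter.frequently_mem_iff_neBot]
    exact hfr
  set U : Ultrafilter ℕ := Ultrafilter.of (atTop ⊓ 𝓟 bad) with hUdef
  have hU0 : (U : Filter ℕ) ≤ atTop ⊓ 𝓟 bad := Ultrafilter.of_le _
  have hU : (U : Filter ℕ) ≤ atTop := hU0.trans inf_le_left
  have hUb : ∀ᶠ i in (U : Filter ℕ), i ∈ bad := hU0.trans inf_le_right (mem_principal_self bad)
  have hM1 : ∀ᶠ i in (U : Filter ℕ), 1 ≤ N i / L := (hML.eventually_ge_atTop 1).filter_mono hU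
  set S : X × X → X × X := Prod.map R^[p] R^[q] with hSdef
  have hS : Continuous S := (hRc.iterate p).prodMap (hRc.iterate q)
  have hK : Tendsto (fun i => N i / L - 1) (U : Filter ℕ) atTop := by
    refine (tendsto_atTop.2 fun b => ?_)
    filter_upwards [(hML.mono_left hU).eventually_ge_atTop (b + 1)] with i hi
    omega
  obtain ⟨ρ, r1, r2, r3⟩ := qg_lim S hS (fun i => (z i, z i)) (fun i => N i / L - 1) U hK
  -- the averages
  have hav : ∀ g : C(X × X, ℝ), Tendsto (fun i => (1 / ((N i / L : ℕ) : ℝ)) *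
      ∑ m ∈ Icc 1 (N i / L), g (R^[p * m] (z i), R^[q * m] (z i))) (U : Filter ℕ) (𝓝 (∫ w, g w ∂ρ)) := by
    intro g
    refine (r3 g).congr' ?_
    filter_upwards [hM1] with i hi
    rw [qg_avg S g (z i, z i) (N i / L) hi]
    congr 1
    exact Finset.sum_congr rfl fun m _ => by rw [hSdef, qg_iter]
  have m1 : ρ.map Prod.fst = ν := by
    have i1 : IsProbabilityMeasure (ρ.map Prod.fst) := Measure.isProbabilityMeasure_map measurable_fst.aemeasurable
    refine qg_marg z N hq p L hp hpL (he p hp) U hU hM1 _ ?_ fun g => ?_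
    · refine ⟨(hRc.iterate p).measurable, ?_⟩
      rw [Measure.map_map (hRc.iterate p).measurable measurable_fst]
      have e : R^[p] ∘ Prod.fst = Prod.fst ∘ S := rfl
      rw [e, ← Measure.map_map measurable_fst r2.measurable, r2.map_eq]
    · rw [integral_map measurable_fst.aemeasurable g.continuous.measurable.aestronglyMeasurable]
      exact hav ⟨fun w => g w.1, by fun_prop⟩
  have m2 : ρ.map Prod.snd = ν := by
    have i1 : IsProbabilityMeasure (ρ.map Prod.snd) := Measure.isProbabilityMeasure_map measurable_snd.aemeasurable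
    refine qg_marg z N hq q L hq0 hqL (he q hq0) U hU hM1 _ ?_ fun g => ?_
    · refine ⟨(hRc.iterate q).measurable, ?_⟩
      rw [Measure.map_map (hRc.iterate q).measurable measurable_snd]
      have e : R^[q] ∘ Prod.snd = Prod.snd ∘ S := rfl
      rw [e, ← Measure.map_map measurable_snd r2.measurable, r2.map_eq]
    · rw [integral_map measurable_snd.aemeasurable g.continuous.measurable.aestronglyMeasurable]
      exact hav ⟨fun w => g w.2, by fun_prop⟩
  have hlow : a + ε ≤ ∫ w, Φ w ∂ρ := by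
    refine ge_of_tendsto (hav Φ) ?_
    filter_upwards [hUb, hM1] with i hi hi1
    have hi' : ¬ ∑ m ∈ Icc 1 (N i / L), Φ (R^[p * m] (z i), R^[q * m] (z i)) ≤ (a + ε) * (N i / L : ℕ) := hi
    rw [not_le] at hi'
    have hM0 : (0 : ℝ) < ((N i / L : ℕ) : ℝ) := by exact_mod_cast hi1
    rw [one_div, ← div_eq_inv_mul, le_div_iff₀ hM0]
    exact hi'.le
  obtain ⟨lam, l1, l2, l3, l4, l5⟩ := exists_ergodic_join (hRc.iterate p) (hRc.iterate q) (he p hp) (he q hq0) ρ r1 r2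
    m1 m2 Φ
  have := h lam l1 l2 l3 l4
  linarith

/-- real part / imaginary part bound -/
private theorem qg_abs {w : ℂ} {a : ℝ} (h1 : w.re ≤ a) (h2 : -w.re ≤ a) (h3 : w.im ≤ a) (h4 : -w.im ≤ a) :
    ‖w‖ ≤ 2 * a := by
  have := Complex.norm_le_abs_re_add_abs_im w
  have h5 : |w.re| ≤ a := abs_le.2 ⟨by linarith, h1⟩
  have h6 : |w.im| ≤ a := abs_le.2 ⟨by linarith, h3⟩
  linarith

private theorem qg_cplx (hRc : Continuous R) (he : ∀ n, 0 < n → Ergodic R^[n] ν) (z : ℕ → X) (N : ℕ → ℕ)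
    (hN : Tendsto N atTop atTop) (hq : QGen R ν z N) (p q L : ℕ) (hp : 0 < p) (hq0 : 0 < q) (hpL : p ≤ L) (hqL : q ≤ L)
    (F : C(X × X, ℂ)) (a : ℝ) (h : ∀ lam : Measure (X × X), IsProbabilityMeasure lam →
      Ergodic (Prod.map R^[p] R^[q]) lam → lam.map Prod.fst = ν → lam.map Prod.snd = ν → ‖∫ w, F w ∂lam‖ ≤ a)
    (ε : ℝ) (hε : 0 < ε) :
    ∀ᶠ i in atTop, ‖∑ m ∈ Icc 1 (N i / L), F (R^[p * m] (z i), R^[q * m] (z i))‖ ≤ (2 * a + ε) * (N i / L : ℕ) := by
  have hint : ∀ lam : Measure (X × X), IsProbabilityMeasure lam → Integrable (fun w => F w) lam := by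
    intro lam hl
    exact (BoundedContinuousFunction.mkOfCompact F).integrable lam
  have hre : ∀ lam : Measure (X × X), IsProbabilityMeasure lam → ∫ w, (F w).re ∂lam = (∫ w, F w ∂lam).re := by
    intro lam hl
    exact integral_re (hint lam hl)
  have him : ∀ lam : Measure (X × X), IsProbabilityMeasure lam → ∫ w, (F w).im ∂lam = (∫ w, F w ∂lam).im := by
    intro lam hl
    exact integral_im (hint lam hl)
  have g1 := qg_real hRc he z N hN hq p q L hp hq0 hpL hqL ⟨fun w => (F w).re, Complex.continuous_re.comp F.continuous⟩ a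
    (fun lam h1 h2 h3 h4 => by
      change ∫ w, (F w).re ∂lam ≤ a
      rw [hre lam h1]; exact (Complex.re_le_norm _).trans (h lam h1 h2 h3 h4)) (ε / 2) (by positivity)
  have g2 := qg_real hRc he z N hN hq p q L hp hq0 hpL hqL
    ⟨fun w => -(F w).re, (Complex.continuous_re.comp F.continuous).neg⟩ a
    (fun lam h1 h2 h3 h4 => by
      change ∫ w, -(F w).re ∂lam ≤ a
      rw [integral_neg, hre lam h1]
      exact ((neg_le_abs _).trans (Complex.abs_re_le_norm _)).trans (h lam h1 h2 h3 h4)) (ε / 2) (by positivity)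
  have g3 := qg_real hRc he z N hN hq p q L hp hq0 hpL hqL ⟨fun w => (F w).im, Complex.continuous_im.comp F.continuous⟩ a
    (fun lam h1 h2 h3 h4 => by
      change ∫ w, (F w).im ∂lam ≤ a
      rw [him lam h1]; exact (Complex.im_le_norm _).trans (h lam h1 h2 h3 h4)) (ε / 2) (by positivity)
  have g4 := qg_real hRc he z N hN hq p q L hp hq0 hpL hqL
    ⟨fun w => -(F w).im, (Complex.continuous_im.comp F.continuous).neg⟩ a
    (fun lam h1 h2 h3 h4 => by
      change ∫ w, -(F w).im ∂lam ≤ a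
      rw [integral_neg, him lam h1]
      exact ((neg_le_abs _).trans (Complex.abs_im_le_norm _)).trans (h lam h1 h2 h3 h4)) (ε / 2) (by positivity)
  filter_upwards [g1, g2, g3, g4] with i j1 j2 j3 j4
  simp only [ContinuousMap.coe_mk, Finset.sum_neg_distrib] at j1 j2 j3 j4
  have e : (2 * a + ε) * ((N i / L : ℕ) : ℝ) = 2 * ((a + ε / 2) * ((N i / L : ℕ) : ℝ)) := by ring
  rw [e]
  apply qg_abs
  · rw [Complex.re_sum]; exact j1
  · rw [Complex.re_sum]; exact j2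
  · rw [Complex.im_sum]; exact j3
  · rw [Complex.im_sum]; exact j4

private theorem qg_one (hRc : Continuous R) (he : ∀ n, 0 < n → Ergodic R^[n] ν) (z : ℕ → X) (N : ℕ → ℕ)
    (hN : Tendsto N atTop atTop) (hq : QGen R ν z N) (f : C(X, ℂ)) (hf : ∀ x, ‖f x‖ ≤ 1) (hs : SJ ν R f) {u : ℕ → ℂ}
    (hu : HD.BMult u) (ε : ℝ) (hε : 0 < ε) :
    ∀ᶠ i in atTop, ‖∑ n ∈ Icc 1 (N i), u n * f (R^[n] (z i))‖ ≤ ε * N i := by
  obtain ⟨q0, hq0⟩ := hs ((ε / 4) ^ 2 / 4) (by positivity)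
  obtain ⟨J, N0, hJ⟩ := kbsz_scale hu ε hε q0
  have hall : ∀ᶠ i in atTop, ∀ x ∈ range (2 ^ J) ×ˢ range (2 ^ J), x.1.Prime → x.2.Prime → q0 ≤ x.1 → q0 ≤ x.2 →
      x.1 ≠ x.2 → ‖∑ m ∈ Icc 1 (N i / max x.1 x.2), f (R^[x.1 * m] (z i)) * conj (f (R^[x.2 * m] (z i)))‖ ≤
        (ε / 4) ^ 2 * (N i / (max x.1 x.2 : ℕ)) := by
    rw [Filter.eventually_all_finset]
    rintro ⟨p, q⟩ -
    by_cases hc : p.Prime ∧ q.Prime ∧ q0 ≤ p ∧ q0 ≤ q ∧ p ≠ q
    swap
    · exact Eventually.of_forall fun i a b c d e => absurd ⟨a, b, c, d, e⟩ hc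
    obtain ⟨pp, qp, hp, hq', hne⟩ := hc
    have h1 := qg_cplx hRc he z N hN hq p q (max p q) pp.pos qp.pos (le_max_left _ _) (le_max_right _ _)
      ⟨fun w => f w.1 * conj (f w.2), by fun_prop⟩ ((ε / 4) ^ 2 / 4)
      (fun lam l1 l2 l3 l4 => hq0 p q pp qp hne hp hq' lam l1 l2 l3 l4) ((ε / 4) ^ 2 / 2) (by positivity)
    filter_upwards [h1] with i hi _ _ _ _ _
    simp only [ContinuousMap.coe_mk] at hi
    refine hi.trans ?_
    have e1 : 2 * ((ε / 4) ^ 2 / 4) + (ε / 4) ^ 2 / 2 = (ε / 4) ^ 2 := by ring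
    rw [e1]
    exact mul_le_mul_of_nonneg_left Nat.cast_div_le (by positivity)
  filter_upwards [hall, hN.eventually_ge_atTop N0] with i hi hiN
  refine hJ (fun n => f (R^[n] (z i))) (fun n => hf _) (N i) hiN fun p q pp qp hp hq' hpJ hqJ hne => ?_
  exact hi (p, q) (mem_product.2 ⟨mem_range.2 hpJ, mem_range.2 hqJ⟩) pp qp hp hq' hne

/-- **quasi-generic points** -/
theorem qg_main (hRc : Continuous R) (he : ∀ n, 0 < n → Ergodic R^[n] ν) {z : ℕ → X} {N : ℕ → ℕ}
    (hN : Tendsto N atTop atTop) (hq : QGen R ν z N) (f : C(X, ℂ)) (hs : SJ ν R f) {u : ℕ → ℂ} (hu : HD.BMult u) :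
    Tendsto (fun i => (1 / (N i : ℝ)) * ‖∑ n ∈ Icc 1 (N i), u n * f (R^[n] (z i))‖) atTop (𝓝 0) := by
  set C : ℝ := ‖f‖ + 1 with hC
  have hC0 : 0 < C := by positivity
  set c : ℂ := ((1 / C : ℝ) : ℂ) with hc
  set k : C(X, ℂ) := ⟨fun x => c * f x, by fun_prop⟩ with hk
  have hkv : ∀ x, k x = c * f x := fun _ => rfl
  have hcn : ‖c‖ = 1 / C := by rw [hc, Complex.norm_real, Real.norm_of_nonneg (by positivity)]
  have hk1 : ∀ x, ‖k x‖ ≤ 1 := by
    intro x
    rw [hkv, norm_mul, hcn, one_div, inv_mul_le_iff₀ hC0, mul_one]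
    have := f.norm_coe_le_norm x
    linarith
  have hks : SJ ν R k := SJ.smul c hs
  rw [Metric.tendsto_atTop']
  intro ε hε
  have h1 := qg_one hRc he z N hN hq k hk1 hks hu (ε / (2 * C)) (by positivity)
  have h2 := (h1.and (hN.eventually_ge_atTop 1)).exists_forall_of_atTop
  obtain ⟨i0, hi0⟩ := h2
  refine ⟨i0, fun i hi => ?_⟩
  obtain ⟨h3, h4⟩ := hi0 i hi.le
  have hNi : (0 : ℝ) < N i := by exact_mod_cast h4
  have e1 : ∑ n ∈ Icc 1 (N i), u n * k (R^[n] (z i)) = c * ∑ n ∈ Icc 1 (N i), u n * f (R^[n] (z i)) := by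
    rw [Finset.mul_sum]
    refine Finset.sum_congr rfl fun n _ => ?_
    rw [hkv]
    ring
  rw [e1, norm_mul, hcn] at h3
  rw [Real.dist_eq, sub_zero, abs_of_nonneg (by positivity), one_div, inv_mul_lt_iff₀ hNi]
  have h5 : ‖∑ n ∈ Icc 1 (N i), u n * f (R^[n] (z i))‖ ≤ ε / 2 * N i := by
    have h6 := mul_le_mul_of_nonneg_left h3 hC0.le
    have e2 : C * (1 / C * ‖∑ n ∈ Icc 1 (N i), u n * f (R^[n] (z i))‖) = ‖∑ n ∈ Icc 1 (N i), u n * f (R^[n] (z i))‖ := by
      field_simp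
    have e3 : C * (ε / (2 * C) * N i) = ε / 2 * N i := by field_simp
    rwa [e2, e3] at h6
  have h7 : ε / 2 * (N i : ℝ) < N i * ε := by nlinarith
  exact h5.trans_lt h7

end Pair

end Pool.Agent.Lib.MP_9fe581_an.AP
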