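import Pool.Agent.Lib.MP_9fe581_an.AP.QE

/-!
# AP, QJ: joinings of countable mixtures of ergodic measures

Distinct ergodic measures have disjoint carriers `S j`; an invariant measure of `A × B` whose marginals are absolutely
continuous with respect to a countable mixture is a mixture of joinings of the components.
-/

set_option autoImplicit false

open Finset MeasureTheory Filter Topology
open scoped ComplexConjugate ENNReal NNReal

namespace Pool.Agent.Lib.MP_9fe581_an.AP

section Sing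

variable {X : Type} [MeasurableSpace X]

/-- distinct ergodic measures are mutually singular -/
theorem qj_sing {R : X → X} {μ ν : Measure X} [IsProbabilityMeasure μ] [IsProbabilityMeasure ν] (hμ : Ergodic R μ)
    (hν : Ergodic R ν) (hne : μ ≠ ν) : μ ⟂ₘ ν := by
  have h1 : MeasurePreserving R (ν.singularPart μ) (ν.singularPart μ) :=
    hν.toMeasurePreserving.singularPart hμ.toMeasurePreserving
  have h2 : ν.singularPart μ ≪ ν := (Measure.absolutelyContinuous_of_le (Measure.singularPart_le ν μ))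
  obtain ⟨c, hc⟩ := hν.eq_smul_of_absolutelyContinuous h1 h2
  by_cases h0 : c = 0
  · exfalso
    rw [h0, zero_smul] at hc
    have h3 : ν ≪ μ := (Measure.singularPart_eq_zero ν μ).1 hc
    exact hne (hμ.eq_of_absolutelyContinuous hν.toMeasurePreserving h3).symm
  · have h3 : ν.singularPart μ ⟂ₘ μ := Measure.mutuallySingular_singularPart ν μ
    rw [hc] at h3
    have h4 : ν ≪ c • ν := Measure.absolutelyContinuous_smul h0
    exact (h3.mono_ac h4 Measure.AbsolutelyContinuous.rfl).symm

/-- disjoint carriers -/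
theorem qj_carr {ι : Type} [Countable ι] {ν : ι → Measure X} (h : ∀ j k, j ≠ k → ν j ⟂ₘ ν k) :
    ∃ S : ι → Set X, (∀ j, MeasurableSet (S j)) ∧ (∀ j, ν j (S j)ᶜ = 0) ∧ ∀ j k, j ≠ k → Disjoint (S j) (S k) := by
  classical
  choose N hN1 hN2 hN3 using h
  -- `N j k`: null for `ν j`, of full measure for `ν k`
  refine ⟨fun j => ⋂ k, ⋂ h : j ≠ k, (N j k h)ᶜ ∩ N k j h.symm, fun j => ?_, fun j => ?_, fun j k hjk => ?_⟩
  · exact MeasurableSet.iInter fun k => MeasurableSet.iInter fun h => (hN1 j k h).compl.inter (hN1 k j h.symm)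
  · simp only [Set.compl_iInter]
    rw [measure_iUnion_null_iff]
    intro k
    rw [measure_iUnion_null_iff]
    intro h
    rw [Set.compl_inter, compl_compl]
    exact measure_union_null (hN2 j k h) (hN3 k j h.symm)
  · rw [Set.disjoint_left]
    intro x hx hx'
    have h1 := (Set.mem_iInter₂.1 hx k hjk).2
    have h2 := (Set.mem_iInter₂.1 hx' j hjk.symm).1
    exact h2 h1

end Sing

section Mix

variable {X : Type} [TopologicalSpace X] [CompactSpace X] [TopologicalSpace.MetrizableSpace X] [MeasurableSpace X]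
  [BorelSpace X]

/-- real part / imaginary part bound -/
private theorem qj_abs {w : ℂ} {a : ℝ} (h1 : w.re ≤ a) (h2 : -w.re ≤ a) (h3 : w.im ≤ a) (h4 : -w.im ≤ a) :
    ‖w‖ ≤ 2 * a := by
  have := Complex.norm_le_abs_re_add_abs_im w
  have h5 : |w.re| ≤ a := abs_le.2 ⟨by linarith, h1⟩
  have h6 : |w.im| ≤ a := abs_le.2 ⟨by linarith, h3⟩
  linarith

/-- a bound for the ergodic joinings gives a bound for all joinings -/
theorem qj_join {Y : Type} [TopologicalSpace Y] [CompactSpace Y] [TopologicalSpace.MetrizableSpace Y]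
    [MeasurableSpace Y] [BorelSpace Y] {ν : Measure X} [IsProbabilityMeasure ν] {ν' : Measure Y}
    [IsProbabilityMeasure ν'] {A : X → X} {B : Y → Y} (hA : Continuous A)
    (hB : Continuous B) (eA : Ergodic A ν) (eB : Ergodic B ν') (F : C(X × Y, ℂ)) (a : ℝ)
    (h : ∀ lam : Measure (X × Y), IsProbabilityMeasure lam →
      Ergodic (Prod.map A B) lam → lam.map Prod.fst = ν → lam.map Prod.snd = ν' → ‖∫ w, F w ∂lam‖ ≤ a)
    (ρ : Measure (X × Y)) (hρ1 : IsProbabilityMeasure ρ)
    (hρ : MeasurePreserving (Prod.map A B) ρ ρ) (hρ2 : ρ.map Prod.fst = ν) (hρ3 : ρ.map Prod.snd = ν') :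
    ‖∫ w, F w ∂ρ‖ ≤ 2 * a := by
  have hint : ∀ lam : Measure (X × Y), IsProbabilityMeasure lam → Integrable (fun w => F w) lam := by
    intro lam hl
    exact (BoundedContinuousFunction.mkOfCompact F).integrable lam
  have hre : ∀ lam : Measure (X × Y), IsProbabilityMeasure lam → ∫ w, (F w).re ∂lam = (∫ w, F w ∂lam).re := by
    intro lam hl
    exact integral_re (hint lam hl)
  have him : ∀ lam : Measure (X × Y), IsProbabilityMeasure lam → ∫ w, (F w).im ∂lam = (∫ w, F w ∂lam).im := by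
    intro lam hl
    exact integral_im (hint lam hl)
  apply qj_abs
  · obtain ⟨lam, l1, l2, l3, l4, l5⟩ := exists_ergodic_join2 hA hB eA eB ρ hρ1 hρ hρ2 hρ3
      ⟨fun w => (F w).re, Complex.continuous_re.comp F.continuous⟩
    have l6 : ∫ w, (F w).re ∂ρ ≤ ∫ w, (F w).re ∂lam := l5
    rw [hre ρ hρ1, hre lam l1] at l6
    exact l6.trans ((Complex.re_le_norm _).trans (h lam l1 l2 l3 l4))
  · obtain ⟨lam, l1, l2, l3, l4, l5⟩ := exists_ergodic_join2 hA hB eA eB ρ hρ1 hρ hρ2 hρ3
      ⟨fun w => -(F w).re, (Complex.continuous_re.comp F.continuous).neg⟩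
    have l6 : ∫ w, -(F w).re ∂ρ ≤ ∫ w, -(F w).re ∂lam := l5
    rw [integral_neg, integral_neg, hre ρ hρ1, hre lam l1] at l6
    exact l6.trans (((neg_le_abs _).trans (Complex.abs_re_le_norm _)).trans (h lam l1 l2 l3 l4))
  · obtain ⟨lam, l1, l2, l3, l4, l5⟩ := exists_ergodic_join2 hA hB eA eB ρ hρ1 hρ hρ2 hρ3
      ⟨fun w => (F w).im, Complex.continuous_im.comp F.continuous⟩
    have l6 : ∫ w, (F w).im ∂ρ ≤ ∫ w, (F w).im ∂lam := l5
    rw [him ρ hρ1, him lam l1] at l6
    exact l6.trans ((Complex.im_le_norm _).trans (h lam l1 l2 l3 l4))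
  · obtain ⟨lam, l1, l2, l3, l4, l5⟩ := exists_ergodic_join2 hA hB eA eB ρ hρ1 hρ hρ2 hρ3
      ⟨fun w => -(F w).im, (Complex.continuous_im.comp F.continuous).neg⟩
    have l6 : ∫ w, -(F w).im ∂ρ ≤ ∫ w, -(F w).im ∂lam := l5
    rw [integral_neg, integral_neg, him ρ hρ1, him lam l1] at l6
    exact l6.trans (((neg_le_abs _).trans (Complex.abs_im_le_norm _)).trans (h lam l1 l2 l3 l4))

variable {ι : Type} [Countable ι] {ν : ι → Measure X} [∀ j, IsProbabilityMeasure (ν j)] {S : ι → Set X}

/-- the carriers are invariant almost everywhere -/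
private theorem qj_inv {A : X → X} (eA : ∀ j, Ergodic A (ν j)) (hS : ∀ j, MeasurableSet (S j))
    (hS1 : ∀ j, ν j (S j)ᶜ = 0) (hS2 : ∀ j k, j ≠ k → Disjoint (S j) (S k)) {σ : Measure X}
    (hσ : σ ≪ Measure.sum ν) (j : ι) : ∀ᵐ x ∂σ, (A x ∈ S j ↔ x ∈ S j) := by
  refine hσ.ae_le ?_
  rw [Measure.ae_sum_eq]
  refine Filter.mem_iSup.2 fun l => ?_
  have h1 : ∀ᵐ x ∂ν l, x ∈ S l := hS1 l
  have h2 : ∀ᵐ x ∂ν l, A x ∈ S l := (eA l).toMeasurePreserving.quasiMeasurePreserving.ae h1
  filter_upwards [h1, h2] with x h3 h4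
  by_cases hl : l = j
  · subst hl
    exact ⟨fun _ => h3, fun _ => h4⟩
  · have h5 := Set.disjoint_left.1 (hS2 l j hl)
    exact ⟨fun h6 => absurd h6 (h5 h4), fun h6 => absurd h6 (h5 h3)⟩

/-- what is carried by `S j` is absolutely continuous with respect to `ν j` -/
private theorem qj_ac (hS1 : ∀ j, ν j (S j)ᶜ = 0) (hS2 : ∀ j k, j ≠ k → Disjoint (S j) (S k)) (hS : ∀ j, MeasurableSet (S j))
    {σ : Measure X} (hσ : σ ≪ Measure.sum ν) (j : ι) : σ.restrict (S j) ≪ ν j := by
  refine Measure.AbsolutelyContinuous.mk fun s hs h0 => ?_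
  rw [Measure.restrict_apply hs]
  apply hσ
  rw [Measure.sum_apply _ (hs.inter (hS j)), ENNReal.tsum_eq_zero]
  intro l
  by_cases hl : l = j
  · subst hl
    exact measure_mono_null Set.inter_subset_left h0
  · refine measure_mono_null ?_ (hS1 l)
    intro x hx hx'
    exact Set.disjoint_left.1 (hS2 l j hl) hx' hx.2

/-- **the mixture is a mixture of joinings** -/
theorem qj_mix {A B : X → X} (hA : Continuous A) (hB : Continuous B) (eA : ∀ j, Ergodic A (ν j))
    (eB : ∀ j, Ergodic B (ν j)) (hS : ∀ j, MeasurableSet (S j)) (hS1 : ∀ j, ν j (S j)ᶜ = 0)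
    (hS2 : ∀ j k, j ≠ k → Disjoint (S j) (S k)) (ρ : Measure (X × X)) [IsProbabilityMeasure ρ]
    (hρ : MeasurePreserving (Prod.map A B) ρ ρ) (hρ2 : ρ.map Prod.fst ≪ Measure.sum ν)
    (hρ3 : ρ.map Prod.snd ≪ Measure.sum ν) (J : Finset ι) (F : ι → C(X, ℂ)) (b : ℝ) (hb0 : 0 ≤ b)
    (h : ∀ j ∈ J, ∀ k ∈ J, ∀ lam : Measure (X × X), IsProbabilityMeasure lam → Ergodic (Prod.map A B) lam →
      lam.map Prod.fst = ν j → lam.map Prod.snd = ν k → ‖∫ z, F j z.1 * conj (F k z.2) ∂lam‖ ≤ b) :
    ‖∫ z : X × X, (∑ j ∈ J, (S j).indicator (F j) z.1) * conj (∑ j ∈ J, (S j).indicator (F j) z.2) ∂ρ‖ ≤ 2 * b := by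
  classical
  set w : ι → ι → ℝ≥0∞ := fun j k => ρ (S j ×ˢ S k) with hw
  have hwt : ∀ j k, w j k ≠ ∞ := fun j k => measure_ne_top _ _
  have hmS : ∀ j k, MeasurableSet (S j ×ˢ S k) := fun j k => (hS j).prod (hS k)
  -- the pieces
  have hpiece : ∀ j ∈ J, ∀ k ∈ J, ‖∫ z in S j ×ˢ S k, F j z.1 * conj (F k z.2) ∂ρ‖ ≤ (w j k).toReal * (2 * b) := by
    intro j hj k hk
    by_cases h0 : w j k = 0
    · have h1 : ρ.restrict (S j ×ˢ S k) = 0 := Measure.restrict_eq_zero.2 h0
      rw [h1, integral_zero_measure, norm_zero, h0]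
      simp
    set ρ' : Measure (X × X) := ρ.restrict (S j ×ˢ S k) with hρ'
    set lam : Measure (X × X) := (w j k)⁻¹ • ρ' with hlam
    have hc0 : (w j k)⁻¹ ≠ ∞ := ENNReal.inv_ne_top.2 h0
    have l1 : IsProbabilityMeasure lam := by
      refine ⟨?_⟩
      rw [hlam, Measure.smul_apply, hρ', Measure.restrict_apply_univ, smul_eq_mul]
      exact ENNReal.inv_mul_cancel h0 (hwt j k)
    -- invariance of the piece
    have hpre : MeasurePreserving (Prod.map A B) ρ' ρ' := by
      have g1 := hρ.restrict_preimage (hmS j k)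
      have g2 : Prod.map A B ⁻¹' (S j ×ˢ S k) =ᵐ[ρ] S j ×ˢ S k := by
        have a1 : ∀ᵐ z ∂ρ, (A z.1 ∈ S j ↔ z.1 ∈ S j) := by
          have := qj_inv eA hS hS1 hS2 hρ2 j
          exact (ae_map_iff measurable_fst.aemeasurable (((hS j).preimage hA.measurable).iff (hS j))).1 this
        have a2 : ∀ᵐ z ∂ρ, (B z.2 ∈ S k ↔ z.2 ∈ S k) := by
          have := qj_inv eB hS hS1 hS2 hρ3 k
          exact (ae_map_iff measurable_snd.aemeasurable (((hS k).preimage hB.measurable).iff (hS k))).1 this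
        filter_upwards [a1, a2] with z b1 b2
        refine propext ?_
        show (A z.1 ∈ S j ∧ B z.2 ∈ S k) ↔ (z.1 ∈ S j ∧ z.2 ∈ S k)
        rw [b1, b2]
      rw [Measure.restrict_congr_set g2] at g1
      exact g1
    have l2 : MeasurePreserving (Prod.map A B) lam lam := by
      refine ⟨hpre.measurable, ?_⟩
      rw [hlam, Measure.map_smul, hpre.map_eq]
    have hle : ρ' ≤ ρ := Measure.restrict_le_self
    have hsm : lam ≪ ρ' := by
      rw [hlam]
      exact Measure.smul_absolutelyContinuous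
    -- the marginals
    have l3 : lam.map Prod.fst = ν j := by
      have m0 : IsProbabilityMeasure (lam.map Prod.fst) := Measure.isProbabilityMeasure_map measurable_fst.aemeasurable
      refine (eA j).eq_of_absolutelyContinuous ?_ ?_
      · refine ⟨hA.measurable, ?_⟩
        rw [Measure.map_map hA.measurable measurable_fst]
        have e : A ∘ Prod.fst = Prod.fst ∘ Prod.map A B := rfl
        rw [e, ← Measure.map_map measurable_fst l2.measurable, l2.map_eq]
      · have m1 : ρ'.map Prod.fst ≪ (ρ.map Prod.fst).restrict (S j) := by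
          refine Measure.AbsolutelyContinuous.mk fun s hs h1 => ?_
          rw [Measure.restrict_apply hs, Measure.map_apply measurable_fst (hs.inter (hS j))] at h1
          rw [Measure.map_apply measurable_fst hs, hρ', Measure.restrict_apply (measurable_fst hs)]
          refine measure_mono_null ?_ h1
          rintro z ⟨hz1, hz2, -⟩
          exact ⟨hz1, hz2⟩
        exact (hsm.map measurable_fst).trans (m1.trans (qj_ac hS1 hS2 hS hρ2 j))
    have l4 : lam.map Prod.snd = ν k := by
      have m0 : IsProbabilityMeasure (lam.map Prod.snd) := Measure.isProbabilityMeasure_map measurable_snd.aemeasurable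
      refine (eB k).eq_of_absolutelyContinuous ?_ ?_
      · refine ⟨hB.measurable, ?_⟩
        rw [Measure.map_map hB.measurable measurable_snd]
        have e : B ∘ Prod.snd = Prod.snd ∘ Prod.map A B := rfl
        rw [e, ← Measure.map_map measurable_snd l2.measurable, l2.map_eq]
      · have m1 : ρ'.map Prod.snd ≪ (ρ.map Prod.snd).restrict (S k) := by
          refine Measure.AbsolutelyContinuous.mk fun s hs h1 => ?_
          rw [Measure.restrict_apply hs, Measure.map_apply measurable_snd (hs.inter (hS k))] at h1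
          rw [Measure.map_apply measurable_snd hs, hρ', Measure.restrict_apply (measurable_snd hs)]
          refine measure_mono_null ?_ h1
          rintro z ⟨hz1, -, hz2⟩
          exact ⟨hz1, hz2⟩
        exact (hsm.map measurable_snd).trans (m1.trans (qj_ac hS1 hS2 hS hρ3 k))
    have key := qj_join hA hB (eA j) (eB k) ⟨fun z => F j z.1 * conj (F k z.2), by fun_prop⟩ b
      (fun lam' q1 q2 q3 q4 => h j hj k hk lam' q1 q2 q3 q4) lam l1 l2 l3 l4
    have e1 : ∫ z, (⟨fun z => F j z.1 * conj (F k z.2), by fun_prop⟩ : C(X × X, ℂ)) z ∂lam =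
        ((w j k)⁻¹).toReal • ∫ z, F j z.1 * conj (F k z.2) ∂ρ' := by
      rw [hlam, integral_smul_measure]
      rfl
    rw [e1, norm_smul, Real.norm_of_nonneg ENNReal.toReal_nonneg, ENNReal.toReal_inv] at key
    have hw0 : 0 < (w j k).toReal := ENNReal.toReal_pos h0 (hwt j k)
    rw [inv_mul_le_iff₀ hw0] at key
    exact key
  -- expansion of the product
  have hprod : ∀ z : X × X, (∑ j ∈ J, (S j).indicator (F j) z.1) * conj (∑ j ∈ J, (S j).indicator (F j) z.2) =
      ∑ j ∈ J, ∑ k ∈ J, (S j ×ˢ S k).indicator (fun z : X × X => F j z.1 * conj (F k z.2)) z := by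
    intro z
    rw [map_sum, Finset.sum_mul_sum]
    refine Finset.sum_congr rfl fun j _ => Finset.sum_congr rfl fun k _ => ?_
    by_cases h1 : z.1 ∈ S j <;> by_cases h2 : z.2 ∈ S k
    · rw [Set.indicator_of_mem h1, Set.indicator_of_mem h2, Set.indicator_of_mem (Set.mk_mem_prod h1 h2)]
    · rw [Set.indicator_of_notMem h2, map_zero, mul_zero, Set.indicator_of_notMem]
      exact fun h3 => h2 h3.2
    · rw [Set.indicator_of_notMem h1, zero_mul, Set.indicator_of_notMem]
      exact fun h3 => h1 h3.1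
    · rw [Set.indicator_of_notMem h1, zero_mul, Set.indicator_of_notMem]
      exact fun h3 => h1 h3.1
  have hFint : ∀ j k, Integrable (fun z : X × X => F j z.1 * conj (F k z.2)) ρ := by
    intro j k
    set G : C(X × X, ℂ) := ⟨fun z => F j z.1 * conj (F k z.2), by fun_prop⟩ with hG
    exact (BoundedContinuousFunction.mkOfCompact G).integrable ρ
  have hexp : ∫ z : X × X, (∑ j ∈ J, (S j).indicator (F j) z.1) * conj (∑ j ∈ J, (S j).indicator (F j) z.2) ∂ρ =
      ∑ j ∈ J, ∑ k ∈ J, ∫ z in S j ×ˢ S k, F j z.1 * conj (F k z.2) ∂ρ := by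
    simp only [hprod]
    rw [integral_finsetSum _ fun j _ => integrable_finsetSum _ fun k _ => (hFint j k).indicator (hmS j k)]
    refine Finset.sum_congr rfl fun j _ => ?_
    rw [integral_finsetSum _ fun k _ => (hFint j k).indicator (hmS j k)]
    refine Finset.sum_congr rfl fun k _ => ?_
    rw [integral_indicator (hmS j k)]
  rw [hexp]
  have hsum : ∑ j ∈ J, ∑ k ∈ J, (w j k).toReal ≤ 1 := by
    have e2 : ∑ j ∈ J, ∑ k ∈ J, w j k ≤ 1 := by
      have e3 : ∑ x ∈ J ×ˢ J, ρ (S x.1 ×ˢ S x.2) = ρ (⋃ x ∈ J ×ˢ J, S x.1 ×ˢ S x.2) := by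
        rw [measure_biUnion_finset]
        · intro x _ y _ hxy
          have : x.1 ≠ y.1 ∨ x.2 ≠ y.2 := by
            by_contra hcon
            push Not at hcon
            exact hxy (Prod.ext hcon.1 hcon.2)
          show Disjoint (S x.1 ×ˢ S x.2) (S y.1 ×ˢ S y.2)
          rw [Set.disjoint_left]
          rintro z ⟨hz1, hz2⟩ ⟨hz3, hz4⟩
          rcases this with h' | h'
          · exact Set.disjoint_left.1 (hS2 _ _ h') hz1 hz3
          · exact Set.disjoint_left.1 (hS2 _ _ h') hz2 hz4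
        · intro x _
          exact hmS x.1 x.2
      rw [← Finset.sum_product' J J (fun j k => w j k)]
      exact e3.le.trans prob_le_one
    have e4 : (∑ j ∈ J, ∑ k ∈ J, w j k).toReal = ∑ j ∈ J, ∑ k ∈ J, (w j k).toReal := by
      rw [ENNReal.toReal_sum fun j _ => ENNReal.sum_ne_top.2 fun k _ => hwt j k]
      exact Finset.sum_congr rfl fun j _ => ENNReal.toReal_sum fun k _ => hwt j k
    rw [← e4]
    exact ENNReal.toReal_le_of_le_ofReal zero_le_one (by simpa using e2)
  calc ‖∑ j ∈ J, ∑ k ∈ J, ∫ z in S j ×ˢ S k, F j z.1 * conj (F k z.2) ∂ρ‖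
      ≤ ∑ j ∈ J, ∑ k ∈ J, (w j k).toReal * (2 * b) := by
        refine (norm_sum_le _ _).trans (Finset.sum_le_sum fun j hj => ?_)
        exact (norm_sum_le _ _).trans (Finset.sum_le_sum fun k hk => hpiece j hj k hk)
    _ = (∑ j ∈ J, ∑ k ∈ J, (w j k).toReal) * (2 * b) := by
        rw [Finset.sum_mul]
        exact Finset.sum_congr rfl fun j _ => by rw [Finset.sum_mul]
    _ ≤ 1 * (2 * b) := mul_le_mul_of_nonneg_right hsum (by positivity)
    _ = 2 * b := one_mul _

end Mix

end Pool.Agent.Lib.MP_9fe581_an.AP
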