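import Pool.Agent.Lib.MP_9fe581_an.Kbsz
import Pool.Agent.Lib.MP_9fe581_an.HD.Defs

/-! # AP, QK: the Katai - Bourgain - Sarnak - Ziegler criterion at one scale -/

set_option autoImplicit false

open Finset MeasureTheory Filter Topology
open scoped ComplexConjugate

namespace Pool.Agent.Lib.MP_9fe581_an.AP

open HD (BMult Qb)

private lemma kb_mem {j p : ℕ} (hp : p ∈ Qb j) : p.Prime ∧ 2 ^ j ≤ p ∧ p < 2 ^ (j + 1) := by
  unfold Qb at hp
  rw [mem_filter, mem_Ico] at hp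
  exact ⟨hp.2, hp.1.1, hp.1.2⟩

private lemma kb_card_le (j : ℕ) : (Qb j).card ≤ 2 ^ j := by
  unfold Qb
  refine (card_filter_le _ _).trans ?_
  rw [Nat.card_Ico, pow_succ]; omega

/-- one dyadic block, correlations at the scale `N` only -/
private lemma kb_block {u a : ℕ → ℂ} (hu1 : ∀ n, ‖u n‖ ≤ 1) (ha : ∀ n, ‖a n‖ ≤ 1) (j N : ℕ)
    (η : ℝ) (hη : 0 ≤ η)
    (hc : ∀ p ∈ Qb j, ∀ q ∈ Qb j, p ≠ q →
      ‖∑ m ∈ Icc 1 (N / max p q), a (p * m) * conj (a (q * m))‖ ≤ η * (N / (2 ^ j : ℕ))) :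
    ‖∑ p ∈ Qb j, ∑ m ∈ Icc 1 (N / p), u p * u m * a (p * m)‖
      ≤ (Real.sqrt (Qb j).card / 2 ^ j + Real.sqrt η * ((Qb j).card / 2 ^ j)) * N := by
  set D : ℕ := 2 ^ j with hDdef
  have hD : 0 < D := by positivity
  set Q : Finset ℕ := Qb j with hQdef
  have hQ : ∀ p ∈ Q, p.Prime ∧ D ≤ p := fun p hp => ⟨(kb_mem hp).1, (kb_mem hp).2.1⟩
  have hQ2 : ∀ p ∈ Q, p < 2 ^ (j + 1) := fun p hp => (kb_mem hp).2.2
  have hD1 : (1 : ℝ) ≤ D := by exact_mod_cast hD
  have hDr : (0 : ℝ) < D := by linarith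
  -- off-diagonal terms
  have hoff : ∀ x ∈ Q.offDiag, ‖∑ m ∈ Icc 1 (N / max x.1 x.2),
      a (x.1 * m) * conj (a (x.2 * m))‖ ≤ η * (N / D) := by
    intro x hx
    rw [mem_offDiag] at hx
    exact hc _ hx.1 _ hx.2.1 hx.2.2
  -- rewrite as a sum over `m`
  set g : ℕ → ℕ → ℂ := fun m p => if m ∈ Icc 1 (N / p) then u p * a (p * m) else 0 with hg
  have hsub : ∀ p ∈ Q, Icc 1 (N / p) ⊆ Icc 1 (N / D) := fun p hp =>
    Finset.Icc_subset_Icc le_rfl (Nat.div_le_div_left (hQ p hp).2 hD)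
  have e1 : ∑ p ∈ Q, ∑ m ∈ Icc 1 (N / p), u p * u m * a (p * m)
      = ∑ m ∈ Icc 1 (N / D), u m * ∑ p ∈ Q, g m p := by
    have : ∀ p ∈ Q, ∑ m ∈ Icc 1 (N / p), u p * u m * a (p * m)
        = ∑ m ∈ Icc 1 (N / D), u m * g m p := by
      intro p hp
      rw [← Finset.sum_subset (hsub p hp) (f := fun m => u m * g m p)]
      · refine Finset.sum_congr rfl fun m hm => ?_
        simp only [hg, if_pos hm]; ring
      · intro m _ hm
        simp only [hg, if_neg hm, mul_zero]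
    rw [Finset.sum_congr rfl this, Finset.sum_comm]
    simp_rw [Finset.mul_sum]
  rw [e1]
  have e2 : ‖∑ m ∈ Icc 1 (N / D), u m * ∑ p ∈ Q, g m p‖
      ≤ ∑ m ∈ Icc 1 (N / D), ‖∑ p ∈ Q, g m p‖ := by
    refine (norm_sum_le _ _).trans (Finset.sum_le_sum fun m _ => ?_)
    rw [norm_mul]
    exact mul_le_of_le_one_left (norm_nonneg _) (hu1 m)
  have e3 : (∑ m ∈ Icc 1 (N / D), ‖∑ p ∈ Q, g m p‖) ^ 2
      ≤ (N / D : ℝ) * ∑ m ∈ Icc 1 (N / D), ‖∑ p ∈ Q, g m p‖ ^ 2 := by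
    refine (sq_sum_le_card_mul_sum_sq).trans ?_
    refine mul_le_mul_of_nonneg_right ?_ (Finset.sum_nonneg fun _ _ => by positivity)
    rw [Nat.card_Icc, Nat.add_sub_cancel]
    exact Nat.cast_div_le
  have e4 : ∑ m ∈ Icc 1 (N / D), ‖∑ p ∈ Q, g m p‖ ^ 2
      ≤ (Q.card + η * (Q.card : ℝ) ^ 2) * (N / D) := by
    have k1 : ∀ m, ((‖∑ p ∈ Q, g m p‖ ^ 2 : ℝ) : ℂ) = ∑ p ∈ Q, ∑ q ∈ Q, g m p * conj (g m q) := by
      intro m
      rw [← Finset.sum_mul_sum, ← map_sum, Complex.mul_conj, Complex.normSq_eq_norm_sq]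
    have k2 : ((∑ m ∈ Icc 1 (N / D), ‖∑ p ∈ Q, g m p‖ ^ 2 : ℝ) : ℂ)
        = ∑ x ∈ Q ×ˢ Q, ∑ m ∈ Icc 1 (N / D), g m x.1 * conj (g m x.2) := by
      rw [Complex.ofReal_sum]
      simp_rw [k1]
      rw [Finset.sum_comm (s := Q ×ˢ Q)]
      refine Finset.sum_congr rfl fun m _ => ?_
      rw [Finset.sum_product]
    have k3 : ∀ x ∈ Q ×ˢ Q, x.1 = x.2 →
        ‖∑ m ∈ Icc 1 (N / D), g m x.1 * conj (g m x.2)‖ ≤ N / D := by
      intro x _ hx
      refine (norm_sum_le _ _).trans ?_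
      calc ∑ m ∈ Icc 1 (N / D), ‖g m x.1 * conj (g m x.2)‖
          ≤ ∑ m ∈ Icc 1 (N / D), (1 : ℝ) := by
            refine Finset.sum_le_sum fun m _ => ?_
            rw [norm_mul, RCLike.norm_conj]
            have hb : ∀ p, ‖g m p‖ ≤ 1 := by
              intro p
              simp only [hg]
              split_ifs
              · rw [norm_mul]
                exact mul_le_one₀ (hu1 p) (norm_nonneg _) (ha _)
              · simp
            exact mul_le_one₀ (hb _) (norm_nonneg _) (hb _)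
        _ ≤ N / D := by
            rw [Finset.sum_const, nsmul_eq_mul, mul_one, Nat.card_Icc, Nat.add_sub_cancel]
            exact Nat.cast_div_le
    have k4 : ∀ x ∈ Q.offDiag, ‖∑ m ∈ Icc 1 (N / D), g m x.1 * conj (g m x.2)‖
        ≤ η * (N / D) := by
      intro x hx
      have hx' := hx
      rw [mem_offDiag] at hx'
      have hmaxD : D ≤ max x.1 x.2 := (hQ _ hx'.1).2.trans (le_max_left _ _)
      have hs : Icc 1 (N / max x.1 x.2) ⊆ Icc 1 (N / D) :=
        Finset.Icc_subset_Icc le_rfl (Nat.div_le_div_left hmaxD hD)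
      have hpp := (hQ _ hx'.1).1.pos
      have hqp := (hQ _ hx'.2.1).1.pos
      have k5 : ∑ m ∈ Icc 1 (N / D), g m x.1 * conj (g m x.2)
          = u x.1 * conj (u x.2) * ∑ m ∈ Icc 1 (N / max x.1 x.2),
            a (x.1 * m) * conj (a (x.2 * m)) := by
        rw [← Finset.sum_subset hs, Finset.mul_sum]
        · refine Finset.sum_congr rfl fun m hm => ?_
          rw [mem_Icc] at hm
          have m1 : m ∈ Icc 1 (N / x.1) := mem_Icc.2
            ⟨hm.1, hm.2.trans (Nat.div_le_div_left (le_max_left _ _) hpp)⟩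
          have m2 : m ∈ Icc 1 (N / x.2) := mem_Icc.2
            ⟨hm.1, hm.2.trans (Nat.div_le_div_left (le_max_right _ _) hqp)⟩
          simp only [hg, if_pos m1, if_pos m2, map_mul]
          ring
        · intro m _ hm
          have : m ∉ Icc 1 (N / x.1) ∨ m ∉ Icc 1 (N / x.2) := by
            by_contra hcon
            rw [not_or, not_not, not_not] at hcon
            apply hm
            rw [mem_Icc]
            refine ⟨(mem_Icc.1 hcon.1).1, ?_⟩
            rcases max_cases x.1 x.2 with ⟨h', _⟩ | ⟨h', _⟩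
            · rw [h']; exact (mem_Icc.1 hcon.1).2
            · rw [h']; exact (mem_Icc.1 hcon.2).2
          rcases this with h' | h'
          · simp only [hg, if_neg h', zero_mul]
          · simp only [hg, if_neg h', map_zero, mul_zero]
      rw [k5, norm_mul, norm_mul, RCLike.norm_conj]
      refine (mul_le_of_le_one_left (norm_nonneg _) ?_).trans (hoff x hx)
      exact mul_le_one₀ (hu1 _) (norm_nonneg _) (hu1 _)
    have k6 : ∑ m ∈ Icc 1 (N / D), ‖∑ p ∈ Q, g m p‖ ^ 2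
        ≤ ∑ x ∈ Q ×ˢ Q, ‖∑ m ∈ Icc 1 (N / D), g m x.1 * conj (g m x.2)‖ := by
      have : (∑ m ∈ Icc 1 (N / D), ‖∑ p ∈ Q, g m p‖ ^ 2 : ℝ)
          = ‖((∑ m ∈ Icc 1 (N / D), ‖∑ p ∈ Q, g m p‖ ^ 2 : ℝ) : ℂ)‖ := by
        rw [Complex.norm_real, Real.norm_of_nonneg]
        exact Finset.sum_nonneg fun _ _ => by positivity
      rw [this, k2]
      exact norm_sum_le _ _
    refine k6.trans ?_
    rw [← Finset.diag_union_offDiag, Finset.sum_union (Finset.disjoint_diag_offDiag Q)]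
    have k7 : ∑ x ∈ Q.diag, ‖∑ m ∈ Icc 1 (N / D), g m x.1 * conj (g m x.2)‖
        ≤ Q.card * (N / D : ℝ) := by
      refine (Finset.sum_le_card_nsmul Q.diag _ (N / D : ℝ) fun x hx => ?_).trans_eq ?_
      · rw [mem_diag] at hx
        exact k3 x (mem_product.2 ⟨hx.1, hx.2 ▸ hx.1⟩) hx.2
      · rw [Finset.diag_card, nsmul_eq_mul]
    have hND : (0 : ℝ) ≤ N / D := by positivity
    have k8 : ∑ x ∈ Q.offDiag, ‖∑ m ∈ Icc 1 (N / D), g m x.1 * conj (g m x.2)‖
        ≤ η * (Q.card : ℝ) ^ 2 * (N / D) := by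
      calc ∑ x ∈ Q.offDiag, ‖∑ m ∈ Icc 1 (N / D), g m x.1 * conj (g m x.2)‖
          ≤ ∑ x ∈ Q.offDiag, η * (N / D) := Finset.sum_le_sum k4
        _ ≤ ∑ x ∈ Q ×ˢ Q, η * (N / D) := by
            refine Finset.sum_le_sum_of_subset_of_nonneg ?_ ?_
            · intro x hx
              rw [mem_offDiag] at hx
              exact mem_product.2 ⟨hx.1, hx.2.1⟩
            · intro x hx _
              exact mul_nonneg hη hND
        _ = η * (Q.card : ℝ) ^ 2 * (N / D) := by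
            rw [Finset.sum_const, Finset.card_product, nsmul_eq_mul]
            push_cast
            ring
    calc _ ≤ Q.card * (N / D : ℝ) + η * (Q.card : ℝ) ^ 2 * (N / D) := add_le_add k7 k8
      _ = _ := by ring
  have e5 : ‖∑ m ∈ Icc 1 (N / D), u m * ∑ p ∈ Q, g m p‖ ^ 2
      ≤ ((Real.sqrt Q.card / D + Real.sqrt η * (Q.card / D)) * N) ^ 2 := by
    calc ‖∑ m ∈ Icc 1 (N / D), u m * ∑ p ∈ Q, g m p‖ ^ 2
        ≤ (∑ m ∈ Icc 1 (N / D), ‖∑ p ∈ Q, g m p‖) ^ 2 :=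
          pow_le_pow_left₀ (norm_nonneg _) e2 2
      _ ≤ (N / D : ℝ) * ∑ m ∈ Icc 1 (N / D), ‖∑ p ∈ Q, g m p‖ ^ 2 := e3
      _ ≤ (N / D : ℝ) * ((Q.card + η * (Q.card : ℝ) ^ 2) * (N / D)) :=
          mul_le_mul_of_nonneg_left e4 (by positivity)
      _ = (Q.card + η * (Q.card : ℝ) ^ 2) * (N / D) ^ 2 := by ring
      _ ≤ (Real.sqrt Q.card + Real.sqrt η * Q.card) ^ 2 * (N / D) ^ 2 := by
          refine mul_le_mul_of_nonneg_right ?_ (by positivity)
          have h1 : (Real.sqrt Q.card) ^ 2 = Q.card := Real.sq_sqrt (Nat.cast_nonneg _)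
          have h2 : (Real.sqrt η) ^ 2 = η := Real.sq_sqrt hη
          have h3 : 0 ≤ Real.sqrt Q.card * (Real.sqrt η * Q.card) := by positivity
          calc (Q.card : ℝ) + η * (Q.card : ℝ) ^ 2
              = (Real.sqrt Q.card) ^ 2 + (Real.sqrt η) ^ 2 * (Q.card : ℝ) ^ 2 := by rw [h1, h2]
            _ ≤ _ := by nlinarith
      _ = ((Real.sqrt Q.card / D + Real.sqrt η * (Q.card / D)) * N) ^ 2 := by ring
  have e6 := (pow_le_pow_iff_left₀ (norm_nonneg _) (by positivity) two_ne_zero).1 e5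
  rwa [show ((2 : ℝ) ^ j) = (D : ℝ) by rw [hDdef]; push_cast; rfl]

/-- the trivial bound for one block -/
private lemma kb_block_triv {u a : ℕ → ℂ} (hu1 : ∀ n, ‖u n‖ ≤ 1) (ha : ∀ n, ‖a n‖ ≤ 1) (j N : ℕ) :
    ‖∑ p ∈ Qb j, ∑ m ∈ Icc 1 (N / p), u p * u m * a (p * m)‖ ≤ N := by
  have h1 : ∀ p ∈ Qb j, ‖∑ m ∈ Icc 1 (N / p), u p * u m * a (p * m)‖ ≤ (N : ℝ) / 2 ^ j := by
    intro p hp
    refine (norm_sum_le _ _).trans ?_
    calc ∑ m ∈ Icc 1 (N / p), ‖u p * u m * a (p * m)‖ ≤ ∑ m ∈ Icc 1 (N / p), (1 : ℝ) := by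
          refine Finset.sum_le_sum fun m _ => ?_
          rw [norm_mul, norm_mul]
          exact mul_le_one₀ (mul_le_one₀ (hu1 _) (norm_nonneg _) (hu1 _)) (norm_nonneg _) (ha _)
      _ = ((N / p : ℕ) : ℝ) := by simp
      _ ≤ (N : ℝ) / p := Nat.cast_div_le
      _ ≤ (N : ℝ) / 2 ^ j := by
          have : ((2 : ℝ) ^ j) ≤ p := by exact_mod_cast (kb_mem hp).2.1
          gcongr
  refine (norm_sum_le _ _).trans ((Finset.sum_le_sum h1).trans ?_)
  rw [Finset.sum_const, nsmul_eq_mul]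
  have hc : ((Qb j).card : ℝ) ≤ 2 ^ j := by exact_mod_cast kb_card_le j
  calc ((Qb j).card : ℝ) * ((N : ℝ) / 2 ^ j) ≤ 2 ^ j * ((N : ℝ) / 2 ^ j) := by gcongr
    _ = N := by field_simp

/-- **the orthogonality criterion at one scale**: only the correlations of length `N / max p q` are used -/
theorem kbsz_scale {u : ℕ → ℂ} (hu : BMult u) (ε : ℝ) (hε : 0 < ε) (J0 : ℕ) : ∃ J N0 : ℕ, ∀ a : ℕ → ℂ,
    (∀ n, ‖a n‖ ≤ 1) → ∀ N ≥ N0, (∀ p q : ℕ, p.Prime → q.Prime → J0 ≤ p → J0 ≤ q → p < 2 ^ J → q < 2 ^ J → p ≠ q →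
      ‖∑ m ∈ Icc 1 (N / max p q), a (p * m) * conj (a (q * m))‖ ≤ (ε / 4) ^ 2 * (N / (max p q : ℕ))) →
    ‖∑ n ∈ Icc 1 N, u n * a n‖ ≤ ε * N := by
  -- choose the primes
  have hdiv : Tendsto (fun J : ℕ => ∑ p ∈ (range (2 ^ J)).filter Nat.Prime, (1 : ℝ) / p)
      atTop atTop := by
    have h1 := not_summable_one_div_on_primes
    have h2 := (not_summable_iff_tendsto_nat_atTop_of_nonneg
      (f := Set.indicator {p | Nat.Prime p} (fun n : ℕ => (1 : ℝ) / n))
      (fun n => Set.indicator_nonneg (fun _ _ => by positivity) n)).1 h1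
    have h3 := h2.comp (tendsto_pow_atTop_atTop_of_one_lt (one_lt_two : (1 : ℕ) < 2))
    refine h3.congr fun J => ?_
    simp only [Function.comp, Finset.sum_filter, Set.indicator_apply, Set.mem_ofPred_eq]
  obtain ⟨J, hJ⟩ := (hdiv.eventually
    (eventually_gt_atTop (max 1 (((8 + J0) / (ε / 2)) ^ 2)))).exists
  set P : Finset ℕ := (range (2 ^ J)).filter Nat.Prime with hPdef
  have hP : ∀ p ∈ P, p.Prime := fun p hp => (mem_filter.1 hp).2
  set A : ℝ := ∑ p ∈ P, (1 : ℝ) / p with hA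
  have hA1 : 1 < A := (le_max_left _ _).trans_lt hJ
  have hA2 : ((8 + J0) / (ε / 2)) ^ 2 < A := (le_max_right _ _).trans_lt hJ
  have hA0 : 0 < A := by linarith
  -- the blocks
  have hmaps : ∀ p ∈ P, Nat.log 2 p ∈ range J := by
    intro p hp
    have h1 := (mem_filter.1 hp).1
    rw [mem_range] at h1 ⊢
    exact Nat.log_lt_of_lt_pow (hP p hp).ne_zero h1
  have hfib : ∀ j ∈ range J, P.filter (fun p => Nat.log 2 p = j) = Qb j := by
    intro j hj
    rw [mem_range] at hj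
    ext p
    unfold Qb
    rw [mem_filter, mem_filter, mem_range, mem_filter, mem_Ico]
    constructor
    · rintro ⟨⟨h1, h2⟩, h3⟩
      refine ⟨⟨?_, ?_⟩, h2⟩
      · rw [← h3]; exact Nat.pow_log_le_self 2 h2.ne_zero
      · rw [← h3]; exact Nat.lt_pow_succ_log_self one_lt_two p
    · rintro ⟨⟨h1, h2⟩, h3⟩
      refine ⟨⟨h2.trans_le (Nat.pow_le_pow_right two_pos hj), h3⟩, ?_⟩
      exact Nat.log_eq_of_pow_le_of_lt_pow h1 h2
  refine ⟨J, P.card, fun a ha N hN hcor => ?_⟩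
  have hNP : (P.card : ℝ) ≤ N := by exact_mod_cast hN
  have hNr : (0 : ℝ) ≤ N := Nat.cast_nonneg _
  have hu1 := hu.le_one
  have hη : Real.sqrt ((ε / 4) ^ 2) = ε / 4 := Real.sqrt_sq (by positivity)
  -- main estimate
  have m1 : ‖∑ p ∈ P, ∑ m ∈ Icc 1 (N / p), u p * u m * a (p * m)‖
      ≤ (4 + J0 + ε / 2 * A) * N := by
    rw [← Finset.sum_fiberwise_of_maps_to hmaps]
    have hb : ∀ j ∈ range J,
        ‖∑ p ∈ P.filter (fun p => Nat.log 2 p = j), ∑ m ∈ Icc 1 (N / p), u p * u m * a (p * m)‖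
        ≤ (Real.sqrt ((2 : ℝ) ^ j) / 2 ^ j + ε / 2 * (∑ p ∈ P.filter (fun p => Nat.log 2 p = j), (1 : ℝ) / p)
          + (if j < J0 then 1 else 0)) * N := by
      intro j hj
      rw [hfib j hj]
      have hS0 : 0 ≤ ∑ p ∈ Qb j, (1 : ℝ) / p := Finset.sum_nonneg fun _ _ => by positivity
      by_cases hj0 : j < J0
      · rw [if_pos hj0]
        refine (kb_block_triv hu1 ha j N).trans ?_
        refine le_mul_of_one_le_left hNr ?_
        have : 0 ≤ Real.sqrt ((2 : ℝ) ^ j) / 2 ^ j := by positivity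
        have : 0 ≤ ε / 2 * ∑ p ∈ Qb j, (1 : ℝ) / p := by positivity
        linarith
      · rw [if_neg hj0, add_zero]
        have hj' : J0 ≤ j := not_lt.1 hj0
        have hjJ : j + 1 ≤ J := mem_range.1 hj
        refine (kb_block hu1 ha j N ((ε / 4) ^ 2) (by positivity) (fun p hp q hq hne => ?_)).trans ?_
        · have p1 := kb_mem hp
          have q1 := kb_mem hq
          have hjp : J0 ≤ p := hj'.trans ((Nat.lt_two_pow_self).le.trans p1.2.1)
          have hjq : J0 ≤ q := hj'.trans ((Nat.lt_two_pow_self).le.trans q1.2.1)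
          have hlt : ∀ r, r < 2 ^ (j + 1) → r < 2 ^ J := fun r hr => hr.trans_le (Nat.pow_le_pow_right two_pos hjJ)
          refine (hcor p q p1.1 q1.1 hjp hjq (hlt p p1.2.2) (hlt q q1.2.2) hne).trans ?_
          refine mul_le_mul_of_nonneg_left ?_ (by positivity)
          have h1 : ((2 ^ j : ℕ) : ℝ) ≤ ((max p q : ℕ) : ℝ) := by exact_mod_cast p1.2.1.trans (le_max_left _ _)
          have h2 : (0 : ℝ) < ((2 ^ j : ℕ) : ℝ) := by positivity
          exact div_le_div_of_nonneg_left hNr h2 h1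
        refine mul_le_mul_of_nonneg_right ?_ hNr
        rw [hη]
        have hc' : ((Qb j).card : ℝ) ≤ 2 ^ j := by exact_mod_cast kb_card_le j
        refine add_le_add (by gcongr) ?_
        have h2 : ((Qb j).card : ℝ) / 2 ^ (j + 1) ≤ ∑ p ∈ Qb j, (1 : ℝ) / p := by
          rw [div_eq_mul_one_div, ← nsmul_eq_mul]
          refine Finset.card_nsmul_le_sum _ _ _ fun p hp => ?_
          have h3 := (kb_mem hp).1.pos
          have h4 : (p : ℝ) ≤ 2 ^ (j + 1) := by exact_mod_cast (kb_mem hp).2.2.le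
          have h5 : (0 : ℝ) < p := by exact_mod_cast h3
          exact one_div_le_one_div_of_le h5 h4
        rw [pow_succ] at h2
        calc ε / 4 * (((Qb j).card : ℝ) / 2 ^ j) = ε / 2 * (((Qb j).card : ℝ) / (2 ^ j * 2)) := by ring
          _ ≤ _ := mul_le_mul_of_nonneg_left h2 (by positivity)
    refine (norm_sum_le _ _).trans ((Finset.sum_le_sum hb).trans ?_)
    rw [← Finset.sum_mul]
    refine mul_le_mul_of_nonneg_right ?_ hNr
    rw [Finset.sum_add_distrib, Finset.sum_add_distrib, ← Finset.mul_sum,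
      Finset.sum_fiberwise_of_maps_to hmaps]
    have k1 := geom_bound J
    have k2 : ∑ j ∈ range J, (if j < J0 then (1 : ℝ) else 0) ≤ J0 := by
      rw [Finset.sum_boole]
      have : ((range J).filter (fun j => j < J0)).card ≤ J0 := by
        refine (card_le_card (t := range J0) ?_).trans_eq (card_range J0)
        intro j hj
        rw [mem_filter] at hj
        exact mem_range.2 hj.2
      exact_mod_cast this
    linarith
  have m2 : ‖∑ p ∈ P, ∑ m ∈ Icc 1 (N / p), u (p * m) * a (p * m)‖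
      ≤ (6 + J0 + ε / 2 * A) * N := by
    have k1 : ‖∑ p ∈ P, ∑ m ∈ Icc 1 (N / p), u (p * m) * a (p * m)
        - ∑ p ∈ P, ∑ m ∈ Icc 1 (N / p), u p * u m * a (p * m)‖ ≤ 2 * N := by
      rw [← Finset.sum_sub_distrib]
      refine (norm_sum_le _ _).trans ((Finset.sum_le_sum fun p hp =>
        prime_sum hu1 hu.mul ha p (hP p hp) N).trans ?_)
      rw [← Finset.mul_sum, ← Finset.mul_sum]
      have := sum_inv_sq_le P hP
      nlinarith
    have k2 := norm_sub_norm_le (∑ p ∈ P, ∑ m ∈ Icc 1 (N / p), u (p * m) * a (p * m))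
      (∑ p ∈ P, ∑ m ∈ Icc 1 (N / p), u p * u m * a (p * m))
    have k3 : (6 + J0 + ε / 2 * A) * (N : ℝ) = (4 + J0 + ε / 2 * A) * N + 2 * N := by ring
    rw [k3]
    linarith
  have m3 : ∑ n ∈ Icc 1 N, (om P n : ℂ) * (u n * a n)
      = ∑ p ∈ P, ∑ m ∈ Icc 1 (N / p), u (p * m) * a (p * m) := by
    have k1 : ∀ n, (om P n : ℂ) * (u n * a n) = ∑ p ∈ P, if p ∣ n then u n * a n else 0 := by
      intro n
      unfold om
      push_cast
      rw [Finset.sum_mul]
      refine Finset.sum_congr rfl fun p _ => ?_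
      split_ifs <;> simp
    simp_rw [k1]
    rw [Finset.sum_comm]
    exact Finset.sum_congr rfl fun p hp => sum_dvd_eq (fun n => u n * a n) N p (hP p hp).pos
  have m4 : ‖(A : ℂ) * ∑ n ∈ Icc 1 N, u n * a n - ∑ n ∈ Icc 1 N, (om P n : ℂ) * (u n * a n)‖
      ≤ 2 * Real.sqrt A * N := by
    rw [Finset.mul_sum, ← Finset.sum_sub_distrib]
    have k1 : ∀ n, ‖(A : ℂ) * (u n * a n) - (om P n : ℂ) * (u n * a n)‖ ≤ |om P n - A| := by
      intro n
      rw [← sub_mul, norm_mul, ← Complex.ofReal_sub, Complex.norm_real, Real.norm_eq_abs,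
        abs_sub_comm]
      refine mul_le_of_le_one_right (abs_nonneg _) ?_
      rw [norm_mul]
      exact mul_le_one₀ (hu1 n) (norm_nonneg _) (ha n)
    refine (norm_sum_le _ _).trans ((Finset.sum_le_sum fun n _ => k1 n).trans
      ((abs_sum_le P hP N).trans ?_))
    rw [← hA]
    refine Real.sqrt_le_iff.2 ⟨by positivity, ?_⟩
    have : (2 * Real.sqrt A * N) ^ 2 = 4 * A * N ^ 2 := by
      rw [mul_pow, mul_pow, Real.sq_sqrt hA0.le]; ring
    rw [this]
    have hq : 2 * A * (P.card : ℝ) ≤ 2 * A * N := mul_le_mul_of_nonneg_left hNP (by positivity)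
    have hq2 : (N : ℝ) * (2 * A * (P.card : ℝ)) ≤ N * (2 * A * N) :=
      mul_le_mul_of_nonneg_left hq hNr
    nlinarith [mul_nonneg hA0.le (mul_nonneg hNr hNr)]
  have m5 : A * ‖∑ n ∈ Icc 1 N, u n * a n‖ ≤ (2 * Real.sqrt A + 6 + J0 + ε / 2 * A) * N := by
    have k1 : ‖(A : ℂ) * ∑ n ∈ Icc 1 N, u n * a n‖ = A * ‖∑ n ∈ Icc 1 N, u n * a n‖ := by
      rw [norm_mul, Complex.norm_real, Real.norm_of_nonneg hA0.le]
    rw [← k1]
    have k2 := norm_sub_norm_le ((A : ℂ) * ∑ n ∈ Icc 1 N, u n * a n)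
      (∑ n ∈ Icc 1 N, (om P n : ℂ) * (u n * a n))
    rw [m3] at k2 m4
    have k3 : (2 * Real.sqrt A + 6 + J0 + ε / 2 * A) * (N : ℝ)
        = (6 + J0 + ε / 2 * A) * N + 2 * Real.sqrt A * N := by ring
    rw [k3]
    linarith
  -- conclusion
  have hs1 : 1 < Real.sqrt A := by
    rw [show (1 : ℝ) = Real.sqrt 1 from Real.sqrt_one.symm]
    exact Real.sqrt_lt_sqrt zero_le_one hA1
  have hs2 : (8 + J0) / (ε / 2) < Real.sqrt A := Real.lt_sqrt_of_sq_lt hA2
  have hs3 : Real.sqrt A * Real.sqrt A = A := Real.mul_self_sqrt hA0.le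
  have hJ0' : (0 : ℝ) ≤ J0 := Nat.cast_nonneg _
  have hs4 : (8 + J0 : ℝ) < ε / 2 * Real.sqrt A := by
    rw [div_lt_iff₀ (by positivity)] at hs2
    linarith
  have m6 : A * ‖∑ n ∈ Icc 1 N, u n * a n‖ ≤ A * (ε * N) := by
    refine m5.trans ?_
    have k3 : 2 * Real.sqrt A + 6 + J0 ≤ ε / 2 * A := by
      calc 2 * Real.sqrt A + 6 + J0 ≤ (8 + J0) * Real.sqrt A := by nlinarith
        _ ≤ ε / 2 * Real.sqrt A * Real.sqrt A := by
            refine mul_le_mul_of_nonneg_right hs4.le (by linarith)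
        _ = ε / 2 * A := by rw [mul_assoc, hs3]
    calc (2 * Real.sqrt A + 6 + J0 + ε / 2 * A) * (N : ℝ) ≤ (ε / 2 * A + ε / 2 * A) * N := by
          refine mul_le_mul_of_nonneg_right (by linarith) hNr
      _ = A * (ε * N) := by ring
  exact le_of_mul_le_mul_left m6 hA0

end Pool.Agent.Lib.MP_9fe581_an.AP
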