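import Pool.Agent.Lib.MP_9fe581_an.AP.QG
import Pool.Agent.Lib.MP_9fe581_an.AP.Mod

/-!
# AP, QM: quasi-generic points of topological models of towers

No unique ergodicity: `(Z, R)` is an arbitrary topological system, `ν` an invariant measure isomorphic to a tower, and
`z i` a sequence of points which is quasi-generic for `ν` along the lengths `N i`.
-/

set_option autoImplicit false

open Finset MeasureTheory Filter Topology
open scoped ComplexConjugate ENNReal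

namespace Pool.Agent.Lib.MP_9fe581_an.AP

open HT (TX mX)

section

variable {X Z : Type} [MeasurableSpace X] [MeasurableSpace Z] {ν : Measure Z} {μ : Measure X} {R : Z → Z} {T : X → X}
  {φ : Z → X} {π : X → Z}
variable [TopologicalSpace Z] [CompactSpace Z] [TopologicalSpace.MetrizableSpace Z] [BorelSpace Z]

/-- mean zero continuous functions of a model have small joinings -/
theorem mod_sj [IsProbabilityMeasure ν] (hTm : Measurable T)
    (hTs : ∀ F : X → ℂ, Measurable F → (∃ C, ∀ x, ‖F x‖ ≤ C) → ∫ x, F x ∂μ = 0 → SJ μ T F)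
    (hR : MeasurePreserving R ν ν) (hφ : MeasurePreserving φ ν μ) (hπ : Measurable π) (h : ∀ᵐ z ∂ν, φ (R z) = T (φ z))
    (hπφ : ∀ᵐ z ∂ν, π (φ z) = z) (k : C(Z, ℂ)) (hk0 : ∫ z, k z ∂ν = 0) : SJ ν R k := by
  have hF : Measurable fun x => k (π x) := k.continuous.measurable.comp hπ
  have hF0 : ∫ x, k (π x) ∂μ = 0 := by
    rw [← hφ.map_eq, integral_map hφ.measurable.aemeasurable hF.aestronglyMeasurable, ← hk0]
    refine integral_congr_ae ?_
    filter_upwards [hπφ] with z hz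
    rw [hz]
  exact SJ.factor hR hTm hφ h hF (by filter_upwards [hπφ] with z hz; rw [hz])
    (hTs _ hF ⟨‖k‖, fun x => k.norm_coe_le_norm _⟩ hF0)

/-- **quasi-generic points of models** -/
theorem mod_qg [IsProbabilityMeasure ν] (hTm : Measurable T) (hTe : ∀ n, 0 < n → Ergodic T^[n] μ)
    (hTs : ∀ F : X → ℂ, Measurable F → (∃ C, ∀ x, ‖F x‖ ≤ C) → ∫ x, F x ∂μ = 0 → SJ μ T F)
    (hRc : Continuous R) (hR : MeasurePreserving R ν ν)
    (hφ : MeasurePreserving φ ν μ) (hπ : Measurable π) (h : ∀ᵐ z ∂ν, φ (R z) = T (φ z))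
    (hπφ : ∀ᵐ z ∂ν, π (φ z) = z) {z : ℕ → Z} {N : ℕ → ℕ} (hN : Tendsto N atTop atTop) (hq : QGen R ν z N)
    (f : C(Z, ℂ)) {u : ℕ → ℂ} (hu : HD.BMult u) :
    Tendsto (fun i => (1 / (N i : ℝ)) * ‖∑ n ∈ Icc 1 (N i), u n * (f (R^[n] (z i)) - ∫ y, f y ∂ν)‖) atTop (𝓝 0) := by
  have hfi : Integrable f ν := Integrable.of_bound f.continuous.measurable.aestronglyMeasurable ‖f‖
    (Eventually.of_forall fun x => f.norm_coe_le_norm x)
  set k : C(Z, ℂ) := ⟨fun z => f z - ∫ y, f y ∂ν, by fun_prop⟩ with hk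
  have hk0 : ∫ z, k z ∂ν = 0 := by
    have : ∀ z, k z = f z - ∫ y, f y ∂ν := fun _ => rfl
    simp only [this]
    rw [integral_sub hfi (integrable_const _)]
    simp
  exact qg_main hRc (fun n hn => mod_erg hR hφ hπ h hπφ (hTe n hn)) hN hq k (mod_sj hTm hTs hR hφ hπ h hπφ k hk0) hu

/-- **quasi-generic points of models of towers** -/
theorem ITow.qg {κ : Type} {lev : κ → ℕ} {ψ : κ → TX κ → UnitAddCircle} {μ : Measure (TX κ)} {T : TX κ → TX κ}
    (hT : ITow lev ψ μ T) {φ : Z → TX κ} {π : TX κ → Z} [IsProbabilityMeasure ν] (hRc : Continuous R)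
    (hR : MeasurePreserving R ν ν)
    (hφ : MeasurePreserving φ ν μ) (hπ : Measurable π) (h : ∀ᵐ z ∂ν, φ (R z) = T (φ z))
    (hπφ : ∀ᵐ z ∂ν, π (φ z) = z) {z : ℕ → Z} {N : ℕ → ℕ} (hN : Tendsto N atTop atTop) (hq : QGen R ν z N)
    (f : C(Z, ℂ)) {u : ℕ → ℂ} (hu : HD.BMult u) :
    Tendsto (fun i => (1 / (N i : ℝ)) * ‖∑ n ∈ Icc 1 (N i), u n * (f (R^[n] (z i)) - ∫ y, f y ∂ν)‖) atTop (𝓝 0) :=
  mod_qg hT.Tmeas (fun _ hn => (hT.erg hn).2) (fun _ hF hb h0 => hT.sj hF hb h0) hRc hR hφ hπ h hπφ hN hq f hu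

end

end Pool.Agent.Lib.MP_9fe581_an.AP
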