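import Pool.Agent.Lib.MP_9fe581_an.AP.QC5
import Pool.Agent.Lib.MP_9fe581_an.AP.QF

/-! # AP, QU: from the ergodic measures to all points, uniformly

If for every ergodic measure `a` all invariant measures of `R^p × R^q` with first marginal `a` are small on `f ⊗ conj f` for
large `p`, `q` (the threshold depends on `a`), then every bounded multiplicative function is orthogonal to `f (R^n x)`,
uniformly in the point `x`.
-/

set_option autoImplicit false

open Finset MeasureTheory Filter Topology ProbabilityTheory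
open scoped ComplexConjugate ENNReal NNReal

namespace Pool.Agent.Lib.MP_9fe581_an.AP

open Pool.Agent.Lib.MP_e4ee3e_an (condKernel_null condKernel_const condKernel_preserving condKernel_ergodic)

section Lim

variable {Z : Type} [TopologicalSpace Z] [CompactSpace Z] [TopologicalSpace.MetrizableSpace Z] [MeasurableSpace Z]
  [BorelSpace Z]

/-- the integral of a continuous function is continuous -/
theorem qu_cont (g : C(Z, ℝ)) : Continuous fun μ : ProbabilityMeasure Z => ∫ z, g z ∂(μ : Measure Z) := by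
  rw [continuous_iff_continuousAt]
  intro μ
  have h := ProbabilityMeasure.tendsto_iff_forall_integral_tendsto.mp (tendsto_id (α := ProbabilityMeasure Z) (x := 𝓝 μ))
  exact h (BoundedContinuousFunction.mkOfCompact g)

theorem qu_cont_c (g : C(Z, ℂ)) : Continuous fun μ : ProbabilityMeasure Z => ∫ z, g z ∂(μ : Measure Z) := by
  have h1 := qu_cont (Z := Z) ⟨fun w => (g w).re, Complex.continuous_re.comp g.continuous⟩
  have h2 := qu_cont (Z := Z) ⟨fun w => (g w).im, Complex.continuous_im.comp g.continuous⟩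
  simp only [ContinuousMap.coe_mk] at h1 h2
  have e1 : (fun μ : ProbabilityMeasure Z => ∫ z, g z ∂(μ : Measure Z)) = fun μ : ProbabilityMeasure Z =>
      ((∫ z, (g z).re ∂(μ : Measure Z) : ℝ) : ℂ) + ((∫ z, (g z).im ∂(μ : Measure Z) : ℝ) : ℂ) * Complex.I := by
    funext μ
    have hi : Integrable (fun w => g w) (μ : Measure Z) := (BoundedContinuousFunction.mkOfCompact g).integrable _
    have e2 : ∫ y, (g y).re ∂(μ : Measure Z) = (∫ y, g y ∂(μ : Measure Z)).re := integral_re hi
    have e3 : ∫ y, (g y).im ∂(μ : Measure Z) = (∫ y, g y ∂(μ : Measure Z)).im := integral_im hi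
    rw [e2, e3]
    exact (Complex.re_add_im _).symm
  rw [e1]
  exact (Complex.continuous_ofReal.comp h1).add ((Complex.continuous_ofReal.comp h2).mul continuous_const)

/-- the push-forward is continuous -/
theorem qu_map {W : Type} [TopologicalSpace W] [CompactSpace W] [TopologicalSpace.MetrizableSpace W]
    [MeasurableSpace W] [BorelSpace W] (g : Z → W) (hg : Continuous g) :
    Continuous fun μ : ProbabilityMeasure Z => μ.map hg.measurable.aemeasurable := by
  rw [continuous_iff_continuousAt]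
  intro μ
  refine ProbabilityMeasure.tendsto_iff_forall_integral_tendsto.mpr fun k => ?_
  have e1 : ∀ ν : ProbabilityMeasure Z, ∫ w, k w ∂((ν.map hg.measurable.aemeasurable : ProbabilityMeasure W) : Measure W) =
      ∫ z, k (g z) ∂(ν : Measure Z) := by
    intro ν
    exact integral_map hg.measurable.aemeasurable k.continuous.measurable.aestronglyMeasurable
  simp only [e1]
  exact (qu_cont (Z := Z) ⟨fun z => k (g z), k.continuous.comp hg⟩).continuousAt

/-- the integral is continuous in the function -/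
theorem qu_lip (μ : Measure Z) [IsProbabilityMeasure μ] : Continuous fun Φ' : C(Z, ℝ) => ∫ z, Φ' z ∂μ := by
  refine LipschitzWith.continuous (K := 1) (LipschitzWith.of_dist_le_mul fun f g => ?_)
  rw [NNReal.coe_one, one_mul, Real.dist_eq]
  have hi : ∀ f : C(Z, ℝ), Integrable (fun z => f z) μ := fun f => (BoundedContinuousFunction.mkOfCompact f).integrable _
  rw [← integral_sub (hi f) (hi g)]
  have h3 : ∀ᵐ z ∂μ, ‖f z - g z‖ ≤ dist f g := by
    filter_upwards with z
    rw [Real.norm_eq_abs, ← Real.dist_eq]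
    exact ContinuousMap.dist_apply_le_dist z
  have h4 := norm_integral_le_of_norm_le_const h3
  simpa using h4

/-- sets of points whose component lies in a closed set of measures -/
theorem qu_closed_meas {Y : Type} {m : MeasurableSpace Y} (κ : Y → Measure Z) (hκ : ∀ y, IsProbabilityMeasure (κ y))
    (hm : ∀ g : C(Z, ℝ), Measurable[m] fun y => ∫ z, g z ∂(κ y)) {K : Set (ProbabilityMeasure Z)} (hK : IsClosed K) :
    MeasurableSet[m] {y | (⟨κ y, hκ y⟩ : ProbabilityMeasure Z) ∈ K} := by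
  let _ : MetricSpace Z := TopologicalSpace.metrizableSpaceMetric Z
  obtain ⟨Θ, hΘ⟩ := TopologicalSpace.exists_dense_seq C(Z, ℝ)
  set Φ : ProbabilityMeasure Z → ℕ → ℝ := fun μ n => ∫ z, Θ n z ∂(μ : Measure Z) with hΦ
  have hΦc : Continuous Φ := continuous_pi fun n => qu_cont (Θ n)
  have hΦi : Function.Injective Φ := by
    intro μ ν h
    have hμ : IsFiniteMeasure (μ : Measure Z) := inferInstance
    have hν : IsFiniteMeasure (ν : Measure Z) := inferInstance
    have hset : IsClosed {Φ' : C(Z, ℝ) | ∫ z, Φ' z ∂(μ : Measure Z) = ∫ z, Φ' z ∂(ν : Measure Z)} := by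
      refine isClosed_eq ?_ ?_
      · exact qu_lip (μ : Measure Z)
      · exact qu_lip (ν : Measure Z)
    have hall : ∀ g : C(Z, ℝ), ∫ z, g z ∂(μ : Measure Z) = ∫ z, g z ∂(ν : Measure Z) := by
      intro g
      have h1 : Set.range Θ ⊆ {Φ' : C(Z, ℝ) | ∫ z, Φ' z ∂(μ : Measure Z) = ∫ z, Φ' z ∂(ν : Measure Z)} := by
        rintro _ ⟨n, rfl⟩
        exact congrFun h n
      have h2 := hset.closure_subset_iff.2 h1
      exact h2 (hΘ g)
    have hval : (μ : Measure Z) = (ν : Measure Z) :=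
      ext_of_forall_integral_eq_of_IsFiniteMeasure fun g => hall g.toContinuousMap
    exact Subtype.ext hval
  have h1 : IsClosed (Φ '' K) := (hK.isCompact.image hΦc).isClosed
  have h2 : {y | (⟨κ y, hκ y⟩ : ProbabilityMeasure Z) ∈ K} = (fun y n => ∫ z, Θ n z ∂(κ y)) ⁻¹' (Φ '' K) := by
    ext y
    constructor
    · intro hy
      exact ⟨_, hy, rfl⟩
    · rintro ⟨a, ha, hay⟩
      have h3 : a = (⟨κ y, hκ y⟩ : ProbabilityMeasure Z) := hΦi hay
      show (⟨κ y, hκ y⟩ : ProbabilityMeasure Z) ∈ K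
      rw [← h3]
      exact ha
  rw [h2]
  have h3 : Measurable[m] fun (y : Y) (n : ℕ) => ∫ z, Θ n z ∂(κ y) := by
    refine measurable_pi_iff.2 fun n => hm (Θ n)
  exact h3 h1.measurableSet

end Lim

section Erg

variable {X : Type} [TopologicalSpace X] [CompactSpace X] [TopologicalSpace.MetrizableSpace X]
    [MeasurableSpace X] [BorelSpace X] {R : X → X}

theorem qu_polish (X : Type) [TopologicalSpace X] [CompactSpace X] [TopologicalSpace.MetrizableSpace X] :
    PolishSpace X := by
  let _ : MetricSpace X := TopologicalSpace.metrizableSpaceMetric X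
  infer_instance

/-- the measures `a` with threshold `n` -/
def PtSet (R : X → X) (f : X → ℂ) (ε : ℝ) (n : ℕ) (a : Measure X) : Prop :=
  ∀ p q : ℕ, p.Prime → q.Prime → p ≠ q → n ≤ p → n ≤ q → ∀ lam : Measure (X × X), IsProbabilityMeasure lam →
    MeasurePreserving (Prod.map R^[p] R^[q]) lam lam → lam.map Prod.fst = a → ‖∫ w, f w.1 * conj (f w.2) ∂lam‖ ≤ ε

theorem PtSet.mono {f : X → ℂ} {ε : ℝ} {n m : ℕ} (hnm : n ≤ m) {a : Measure X} (h : PtSet R f ε n a) :
    PtSet R f ε m a := fun p q pp qp hne hp hq => h p q pp qp hne (hnm.trans hp) (hnm.trans hq)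

/-- one piece of the complement -/
private def badSet (R : X → X) (f : C(X, ℂ)) (p q : ℕ) (δ : ℝ) : Set (ProbabilityMeasure X) :=
  (fun lam : ProbabilityMeasure (X × X) => lam.map (f := Prod.fst) measurable_fst.aemeasurable) ''
    {lam | MeasurePreserving (Prod.map R^[p] R^[q]) (lam : Measure (X × X)) (lam : Measure (X × X)) ∧
      δ ≤ ‖∫ w, f w.1 * conj (f w.2) ∂(lam : Measure (X × X))‖}

private theorem badSet_closed (hRc : Continuous R) (f : C(X, ℂ)) (p q : ℕ) (δ : ℝ) : IsClosed (badSet R f p q δ) := by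
  have h1 : IsClosed {lam : ProbabilityMeasure (X × X) |
      MeasurePreserving (Prod.map R^[p] R^[q]) (lam : Measure (X × X)) (lam : Measure (X × X)) ∧
      δ ≤ ‖∫ w, f w.1 * conj (f w.2) ∂(lam : Measure (X × X))‖} := by
    refine IsClosed.inter (qe_inv_closed _ ((hRc.iterate p).prodMap (hRc.iterate q))) ?_
    have h2 := qu_cont_c (Z := X × X) ⟨fun w => f w.1 * conj (f w.2), by fun_prop⟩
    simp only [ContinuousMap.coe_mk] at h2
    exact isClosed_le continuous_const h2.norm
  exact (h1.isCompact.image (qu_map (Z := X × X) Prod.fst continuous_fst)).isClosed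

/-- measurability of the set of the points with threshold `n` -/
theorem ptSet_meas (hRc : Continuous R) (f : C(X, ℂ)) (ε : ℝ) (n : ℕ) {Y : Type} {m : MeasurableSpace Y}
    (κ : Y → Measure X) (hκ : ∀ y, IsProbabilityMeasure (κ y))
    (hm : ∀ g : C(X, ℝ), Measurable[m] fun y => ∫ z, g z ∂(κ y)) : MeasurableSet[m] {y | PtSet R f ε n (κ y)} := by
  have h1 : {y | PtSet R f ε n (κ y)}ᶜ = ⋃ p : ℕ, ⋃ q : ℕ, ⋃ k : ℕ, ⋃ _ : p.Prime ∧ q.Prime ∧ p ≠ q ∧ n ≤ p ∧ n ≤ q,
      {y | (⟨κ y, hκ y⟩ : ProbabilityMeasure X) ∈ badSet R f p q (ε + 1 / ((k : ℝ) + 1))} := by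
    ext y
    simp only [Set.mem_compl_iff, Set.mem_iUnion]
    constructor
    · intro hy
      have hy' : ¬ PtSet R f ε n (κ y) := hy
      unfold PtSet at hy'
      push Not at hy'
      obtain ⟨p, q, pp, qp, hne, hp, hq, lam, l1, l2, l3, l4⟩ := hy'
      obtain ⟨k, hk⟩ := exists_nat_one_div_lt (sub_pos.2 l4)
      refine ⟨p, q, k, ⟨pp, qp, hne, hp, hq⟩, ⟨lam, l1⟩, ⟨l2, ?_⟩, ?_⟩
      · show ε + 1 / ((k : ℝ) + 1) ≤ ‖∫ w, f w.1 * conj (f w.2) ∂lam‖
        linarith
      · exact Subtype.ext l3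
    · rintro ⟨p, q, k, ⟨pp, qp, hne, hp, hq⟩, lam, ⟨l2, l3⟩, l4⟩ hy
      have hy' : PtSet R f ε n (κ y) := hy
      have h2 := hy' p q pp qp hne hp hq (lam : Measure (X × X)) inferInstance l2 (congrArg Subtype.val l4)
      have h3 : (0 : ℝ) < 1 / ((k : ℝ) + 1) := by positivity
      have h4 : ε + 1 / ((k : ℝ) + 1) ≤ ‖∫ w, f w.1 * conj (f w.2) ∂(lam : Measure (X × X))‖ := l3
      linarith
  rw [← MeasurableSet.compl_iff, h1]
  exact MeasurableSet.iUnion fun p => MeasurableSet.iUnion fun q => MeasurableSet.iUnion fun k =>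
    MeasurableSet.iUnion fun _ => qu_closed_meas κ hκ hm (badSet_closed hRc f p q _)

/-- **quasi-generic points, arbitrary invariant measure**; the hypotheses are on the power `R^r` -/
theorem erg_qg (hRc : Continuous R) {r : ℕ} (hPw : ∀ a : Measure X, IsProbabilityMeasure a → Ergodic R^[r] a →
      ∀ n, 0 < n → Ergodic (R^[r])^[n] a) (f : C(X, ℂ))
    (hPt : ∀ ε : ℝ, 0 < ε → ∀ a : Measure X, IsProbabilityMeasure a → Ergodic R^[r] a → ∃ n, PtSet R^[r] f ε n a)
    {μ : Measure X} [IsProbabilityMeasure μ] (hμR : MeasurePreserving R μ μ) {z : ℕ → X} {N : ℕ → ℕ}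
    (hN : Tendsto N atTop atTop) (hq : QGen R μ z N) {u : ℕ → ℂ} (hu : HD.BMult u) (ε : ℝ) (hε : 0 < ε) :
    ∀ᶠ i in atTop, ‖∑ n ∈ Icc 1 (N i), u n * f (R^[n] (z i))‖ ≤ ε * N i := by
  set S : X → X := R^[r] with hS
  have hSc : Continuous S := hRc.iterate r
  have hμ : MeasurePreserving S μ μ := hμR.iterate r
  have hmI := MeasurableSpace.invariants_le S
  have hPol : PolishSpace X := qu_polish X
  refine cut_main hRc hN hq f (fun ε hε => ?_) hu ε hε
  set κ := condExpKernel μ (MeasurableSpace.invariants S) with hκ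
  have hκm : ∀ g : C(X, ℝ), Measurable[MeasurableSpace.invariants S] fun y => ∫ z, g z ∂(κ y) := by
    intro g
    have h1 := (g.continuous.stronglyMeasurable).integral_condExpKernel' (μ := μ) (m := MeasurableSpace.invariants S)
    rw [inf_of_le_left hmI] at h1
    exact h1.measurable
  set G : ℕ → Set X := fun n => {y | PtSet S f ε n (κ y)} with hG
  have hGm : ∀ n, MeasurableSet[MeasurableSpace.invariants S] (G n) := fun n =>
    ptSet_meas hSc f ε n (fun y => κ y) (fun y => inferInstance) hκm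
  have hGmono : Monotone G := fun m n hmn y hy => PtSet.mono hmn hy
  have herg := condKernel_ergodic hμ
  have hG1 : μ (⋃ n, G n)ᶜ = 0 := by
    rw [measure_eq_zero_iff_ae_notMem]
    filter_upwards [herg] with y hy h1
    apply h1
    obtain ⟨n, hn⟩ := hPt ε hε (κ y) inferInstance hy
    exact Set.mem_iUnion.2 ⟨n, hn⟩
  -- almost all the mass
  obtain ⟨n, hn⟩ : ∃ n, (μ (G n)ᶜ).toReal ≤ ε := by
    have h1 : Antitone fun n : ℕ => (G n)ᶜ := fun m n hmn => Set.compl_subset_compl.2 (hGmono hmn)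
    have h2 : ∀ n : ℕ, NullMeasurableSet ((G n)ᶜ) μ := fun n => (hmI _ (hGm n)).compl.nullMeasurableSet
    have h3 := tendsto_measure_iInter_atTop h2 h1 ⟨0, measure_ne_top _ _⟩
    rw [← Set.compl_iUnion, hG1] at h3
    obtain ⟨n, hn⟩ := (h3.eventually (gt_mem_nhds (show (0 : ℝ≥0∞) < ENNReal.ofReal ε by simpa using hε))).exists
    exact ⟨n, ENNReal.toReal_le_of_le_ofReal hε.le hn.le⟩
  refine ⟨G n, hmI _ (hGm n), hn, n, fun p q pp qp hne hp hq' ρ r1 r2 C hC r3 r4 => ?_⟩
  have ac1 : ρ.map Prod.fst ≪ μ := (Measure.absolutelyContinuous_of_le r3).trans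
    (Measure.smul_absolutelyContinuous)
  have r2' : MeasurePreserving (Prod.map S^[p] S^[q]) ρ ρ := by
    have h1 := r2.iterate r
    rw [Prod.map_iterate, ← Function.iterate_mul, ← Function.iterate_mul, Nat.mul_comm p r, Nat.mul_comm q r,
      Function.iterate_mul, Function.iterate_mul] at h1
    exact h1
  have hSn : ∀ k : ℕ, S^[k] ⁻¹' G n = G n := by
    intro k
    have h1 : S ⁻¹' G n = G n := (hGm n).2
    induction k with
    | zero => rfl
    | succ k ih => rw [Function.iterate_succ, Set.preimage_comp, ih, h1]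
  have he : ∀ᵐ z ∂μ, Ergodic S^[p] (κ z) := by
    filter_upwards [herg] with y hy
    exact hPw (κ y) inferInstance hy p pp.pos
  have hFm : Measurable fun w : X × X => f w.1 * conj (f w.2) :=
    (f.continuous.measurable.comp measurable_fst).mul
      (Complex.continuous_conj.measurable.comp (f.continuous.measurable.comp measurable_snd))
  have h1 := dec_cell (S := S) (ν := μ) (p := p) (B := S^[q]) hμ he r2' ac1 (hmI _ (hGm n)) (hmI _ (hGm n)) (hSn p)
    (hSn q) hFm (C := ‖f‖ * ‖f‖) (fun w => by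
      rw [norm_mul, RCLike.norm_conj]
      exact mul_le_mul (f.norm_coe_le_norm _) (f.norm_coe_le_norm _) (norm_nonneg _) (norm_nonneg _)) (ε := ε)
    (fun y hy lam l1 l2 l3 => (show PtSet S f ε n (κ y) from hy) p q pp qp hne hp hq' lam l1 l2 l3)
  refine h1.trans (mul_le_of_le_one_right hε.le ?_)
  exact ENNReal.toReal_le_of_le_ofReal zero_le_one (by rw [ENNReal.ofReal_one]; exact prob_le_one)

/-- subsequences with a limit measure -/
theorem exists_qgen (hRc : Continuous R) (z : ℕ → X) {N : ℕ → ℕ} (hN : Tendsto N atTop atTop) :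
    ∃ φ : ℕ → ℕ, StrictMono φ ∧ ∃ μ : Measure X, IsProbabilityMeasure μ ∧ MeasurePreserving R μ μ ∧
      QGen R μ (z ∘ φ) (N ∘ φ) := by
  let _ : MetricSpace X := TopologicalSpace.metrizableSpaceMetric X
  set em : ℕ → ProbabilityMeasure X := fun i => ⟨FT.emp R (z i) (N i - 1), FT.emp_prob R (z i) (N i - 1)⟩ with hem
  obtain ⟨μ, -, φ, hφ, hlim⟩ := isCompact_univ.tendsto_subseq (x := em) (fun _ => Set.mem_univ _)
  have hlim' := ProbabilityMeasure.tendsto_iff_forall_integral_tendsto.mp hlim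
  have hNφ : Tendsto (N ∘ φ) atTop atTop := hN.comp hφ.tendsto_atTop
  have hQ : QGen R (μ : Measure X) (z ∘ φ) (N ∘ φ) := by
    intro g
    refine (hlim' (BoundedContinuousFunction.mkOfCompact g)).congr' ?_
    filter_upwards [hNφ.eventually_ge_atTop 1] with i hi
    exact qg_avg R g (z (φ i)) (N (φ i)) hi
  refine ⟨φ, hφ, μ, inferInstance, ?_, hQ⟩
  set U : Ultrafilter ℕ := Ultrafilter.of atTop with hU
  have hU1 : (U : Filter ℕ) ≤ atTop := Ultrafilter.of_le _
  have hK : Tendsto (fun i => (N ∘ φ) i - 1) (U : Filter ℕ) atTop := by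
    refine (tendsto_atTop.2 fun b => ?_)
    filter_upwards [(hNφ.mono_left hU1).eventually_ge_atTop (b + 1)] with i hi
    omega
  obtain ⟨ρ, r1, r2, r3⟩ := qg_lim R hRc (z ∘ φ) (fun i => (N ∘ φ) i - 1) U hK
  have h1 : ∀ g : C(X, ℝ), ∫ x, g x ∂ρ = ∫ x, g x ∂(μ : Measure X) := by
    intro g
    refine tendsto_nhds_unique (r3 g) (((hQ g).mono_left hU1).congr' ?_)
    filter_upwards [(hNφ.mono_left hU1).eventually_ge_atTop 1] with i hi
    exact (qg_avg R g (z (φ i)) (N (φ i)) hi).symm
  have h2 : ρ = (μ : Measure X) := ext_of_forall_integral_eq_of_IsFiniteMeasure fun g => h1 g.toContinuousMap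
  rw [← h2]
  exact r2

/-- **all points, uniformly**; the hypotheses are on the power `R^r` -/
theorem erg_all (hRc : Continuous R) {r : ℕ} (hPw : ∀ a : Measure X, IsProbabilityMeasure a → Ergodic R^[r] a →
      ∀ n, 0 < n → Ergodic (R^[r])^[n] a) (f : C(X, ℂ))
    (hPt : ∀ ε : ℝ, 0 < ε → ∀ a : Measure X, IsProbabilityMeasure a → Ergodic R^[r] a → ∃ n, PtSet R^[r] f ε n a)
    {u : ℕ → ℂ} (hu : HD.BMult u) (ε : ℝ) (hε : 0 < ε) :
    ∃ N0 : ℕ, ∀ N ≥ N0, ∀ x, ‖∑ n ∈ Icc 1 N, u n * f (R^[n] x)‖ ≤ ε * N := by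
  by_contra hcon
  push Not at hcon
  choose N hN x hx using hcon
  have hNt : Tendsto N atTop atTop := tendsto_atTop_mono hN tendsto_id
  obtain ⟨φ, hφ, μ, hμ1, hμ2, hQ⟩ := exists_qgen hRc x hNt
  have hNφ : Tendsto (N ∘ φ) atTop atTop := hNt.comp hφ.tendsto_atTop
  obtain ⟨i, hi⟩ := (erg_qg hRc hPw f hPt hμ2 hNφ hQ hu ε hε).exists
  exact absurd hi (not_le.2 (hx (φ i)))

end Erg

end Pool.Agent.Lib.MP_9fe581_an.AP
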