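import Pool.Agent.Lib.MP_9fe581_an.AP.Mod
import Pool.Agent.Lib.MP_9fe581_an.AH.Joins
import Pool.Agent.Lib.MP_9fe581_an.AH.UE

/-! # AP, SM: the strong MOMO property (orthogonality on moving orbits) -/

set_option autoImplicit false
set_option linter.unusedSectionVars false

open Finset MeasureTheory Filter Topology
open scoped ComplexConjugate ENNReal

namespace Pool.Agent.Lib.MP_9fe581_an.AP

open HT (TX mX)

/-- **strong MOMO**, for all bounded multiplicative functions: along every increasing sequence `b` of times with gaps tending to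
infinity and every choice `z k` of starting points of the blocks, the blocks are orthogonal to `u` on average, in absolute value -/
def SMomo {Z : Type} (R : Z → Z) (F : Z → ℂ) : Prop :=
  ∀ u : ℕ → ℂ, HD.BMult u → ∀ b : ℕ → ℕ, StrictMono b → Tendsto (fun k => b (k + 1) - b k) atTop atTop →
    ∀ z : ℕ → Z, Tendsto (fun K : ℕ =>
      (∑ k ∈ range K, ‖∑ n ∈ Ico (b k) (b (k + 1)), u n * F (R^[n - b k] (z k))‖) / (b K : ℝ)) atTop (𝓝 0)

theorem SMomo.smul {Z : Type} {R : Z → Z} {F : Z → ℂ} (h : SMomo R F) (c : ℂ) : SMomo R fun z => c * F z := by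
  intro u hu b hb hg z
  have h1 := (h u hu b hb hg z).const_mul ‖c‖
  rw [mul_zero] at h1
  refine h1.congr fun K => ?_
  rw [← mul_div_assoc, Finset.mul_sum]
  congr 1
  refine Finset.sum_congr rfl fun k _ => ?_
  rw [← norm_mul, Finset.mul_sum]
  congr 1
  exact Finset.sum_congr rfl fun n _ => by ring

/-- counting block starts -/
private theorem sm_cnt {b : ℕ → ℕ} (hb : StrictMono b) (hg : Tendsto (fun k => b (k + 1) - b k) atTop atTop) {ε : ℝ}
    (hε : 0 < ε) : ∃ Y0 : ℕ, ∀ Y ≥ Y0, ∀ s : Finset ℕ, (∀ k ∈ s, b k ≤ Y) → (s.card : ℝ) ≤ ε * Y := by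
  obtain ⟨D, hD⟩ := exists_nat_ge (2 / ε)
  obtain ⟨k0, hk0⟩ := eventually_atTop.1 (hg.eventually_ge_atTop (D + 1))
  have h1 : ∀ j, (D + 1) * j ≤ b (k0 + j) := by
    intro j
    induction j with
    | zero => simp
    | succ j ih =>
      have h2 := hk0 (k0 + j) (by omega)
      have h3 : b (k0 + j) ≤ b (k0 + j + 1) := hb.monotone (by omega)
      have h4 : (D + 1) * (j + 1) = (D + 1) * j + (D + 1) := by ring
      have h5 : k0 + (j + 1) = k0 + j + 1 := by ring
      rw [h4, h5]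
      omega
  obtain ⟨Y0, hY0⟩ := exists_nat_ge (2 * ((k0 : ℝ) + 1) / ε)
  refine ⟨Y0, fun Y hY s hs => ?_⟩
  have h2 : s ⊆ range (k0 + Y / (D + 1) + 1) := by
    intro k hk
    rw [mem_range]
    by_contra hcon
    push Not at hcon
    have h3 := h1 (k - k0)
    have hk1 : k0 ≤ k := (Nat.le_add_right k0 _).trans ((Nat.le_add_right _ 1).trans hcon)
    have h4 : k0 + (k - k0) = k := by omega
    rw [h4] at h3
    have h5 := h3.trans (hs k hk)
    have h6 : k - k0 ≤ Y / (D + 1) := by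
      rw [Nat.le_div_iff_mul_le (by omega), mul_comm]
      exact h5
    omega
  have h3 : (s.card : ℝ) ≤ k0 + Y / (D + 1) + 1 := by
    have h4 := Finset.card_le_card h2
    rw [card_range] at h4
    calc (s.card : ℝ) ≤ ((k0 + Y / (D + 1) + 1 : ℕ) : ℝ) := by exact_mod_cast h4
      _ = k0 + ((Y / (D + 1) : ℕ) : ℝ) + 1 := by push_cast; ring
      _ ≤ k0 + Y / (D + 1) + 1 := by
        have := @Nat.cast_div_le ℝ _ _ _ Y (D + 1)
        push_cast at this
        linarith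
  have hYr : 2 * ((k0 : ℝ) + 1) / ε ≤ Y := hY0.trans (by exact_mod_cast hY)
  have h5 : (k0 : ℝ) + 1 ≤ ε / 2 * Y := by
    rw [div_le_iff₀ hε] at hYr
    linarith
  have h6 : (Y : ℝ) / (D + 1) ≤ ε / 2 * Y := by
    rw [div_le_iff₀ (by positivity)]
    have h7 : 1 ≤ ε / 2 * (D + 1) := by
      rw [div_le_iff₀ hε] at hD
      nlinarith
    nlinarith [(Nat.cast_nonneg Y : (0 : ℝ) ≤ Y)]
  linarith

private theorem sm_icc {E : Type} [AddCommMonoid E] (g : ℕ → E) (n : ℕ) :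
    ∑ m ∈ Icc 1 n, g m = ∑ m ∈ range n, g (m + 1) := by
  have h : Icc 1 n = Ico 1 (n + 1) := by ext x; simp only [mem_Icc, mem_Ico]; omega
  rw [h, sum_Ico_eq_sum_range]
  simp [add_comm]

private theorem sm_split {E : Type} [AddCommMonoid E] (g : ℕ → E) (L Q r : ℕ) :
    ∑ m ∈ Icc 1 (Q * L + r), g m = ∑ i ∈ range Q, ∑ m ∈ Icc 1 L, g (i * L + m) + ∑ m ∈ Icc 1 r, g (Q * L + m) := by
  have h0 : ∀ Q, ∑ m ∈ range (Q * L), g (m + 1) = ∑ i ∈ range Q, ∑ m ∈ Icc 1 L, g (i * L + m) := by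
    intro Q
    induction Q with
    | zero => simp
    | succ Q ih =>
      have e : (Q + 1) * L = Q * L + L := by ring
      rw [e, sum_range_add, ih, sum_range_succ, sm_icc]
      rfl
  rw [sm_icc, sum_range_add, h0, sm_icc]
  rfl

variable {X : Type}

/-- correlations of a piecewise orbit -/
private theorem sm_corr {T : X → X} {f : X → ℂ} {b : ℕ → ℕ} (hb : StrictMono b)
    (hg : Tendsto (fun k => b (k + 1) - b k) atTop atTop) {a : ℕ → ℂ} (ha : ∀ n, ‖a n‖ ≤ 1)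
    (hbl : ∀ A B : ℕ, A ≤ B → (∀ k, ¬ (A < b k ∧ b k ≤ B)) → ∃ (c : ℂ) (w : X), ‖c‖ ≤ 1 ∧
      ∀ n, A ≤ n → n ≤ B → a n = c * f (T^[n - A] w)) {p q L : ℕ} (hp : 0 < p) (hq : 0 < q) (hL : 0 < L) {δ : ℝ}
    (hδ : 0 < δ)
    (h : ∀ w₁ w₂ : X, ‖∑ m ∈ Icc 1 L, f (T^[p * m] w₁) * conj (f (T^[q * m] w₂))‖ ≤ δ / 2 * L) :
    ∃ M0 : ℕ, ∀ M ≥ M0, ‖∑ m ∈ Icc 1 M, a (p * m) * conj (a (q * m))‖ ≤ δ * M := by
  classical
  have hLr : (0 : ℝ) < L := by exact_mod_cast hL
  have hpr : (0 : ℝ) < p := by exact_mod_cast hp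
  have hqr : (0 : ℝ) < q := by exact_mod_cast hq
  set ε : ℝ := δ / (8 * L * (p + q)) with hε
  have hε0 : 0 < ε := by positivity
  obtain ⟨Y0, hY0⟩ := sm_cnt hb hg hε0
  set bad : ℕ → ℕ → Prop := fun r i => ∃ k, r * (i * L) < b k ∧ b k ≤ r * (i * L + L) with hbad
  have hcard : ∀ r Q : ℕ, 0 < r → Y0 ≤ Q → (((range Q).filter (bad r)).card : ℝ) ≤ ε * (r * (Q * L)) := by
    intro r Q hr hQ
    set kf : ℕ → ℕ := fun i => if h : bad r i then h.choose else 0 with hkf
    have hk : ∀ i, bad r i → r * (i * L) < b (kf i) ∧ b (kf i) ≤ r * (i * L + L) := fun i hi => by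
      simp only [hkf, dif_pos hi]
      exact hi.choose_spec
    have hinj : Set.InjOn kf ((range Q).filter (bad r) : Finset ℕ) := by
      intro i hi j hj hij
      have h1 := hk i (mem_filter.1 (mem_coe.1 hi)).2
      have h2 := hk j (mem_filter.1 (mem_coe.1 hj)).2
      rw [hij] at h1
      have h3 : r * (i * L) < r * (j * L + L) := h1.1.trans_le h2.2
      have h4 : r * (j * L) < r * (i * L + L) := h2.1.trans_le h1.2
      have h5 : i * L < (j + 1) * L := by
        have := Nat.lt_of_mul_lt_mul_left h3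
        rw [add_mul, one_mul]
        exact this
      have h6 : j * L < (i + 1) * L := by
        have := Nat.lt_of_mul_lt_mul_left h4
        rw [add_mul, one_mul]
        exact this
      have h7 := Nat.lt_of_mul_lt_mul_right h5
      have h8 := Nat.lt_of_mul_lt_mul_right h6
      omega
    have h1 := card_image_of_injOn hinj
    have hQ2 : Y0 ≤ r * (Q * L) := hQ.trans ((Nat.le_mul_of_pos_right Q hL).trans (Nat.le_mul_of_pos_left _ hr))
    have h2 := hY0 (r * (Q * L)) hQ2 (((range Q).filter (bad r)).image kf) (by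
      intro k hk'
      obtain ⟨i, hi, rfl⟩ := mem_image.1 hk'
      rw [mem_filter, mem_range] at hi
      refine (hk i hi.2).2.trans (Nat.mul_le_mul_left r ?_)
      have e : i * L + L = (i + 1) * L := by ring
      rw [e]
      exact Nat.mul_le_mul_right L hi.1)
    rw [h1] at h2
    push_cast at h2
    exact h2
  have hwin : ∀ i, ‖∑ m ∈ Icc 1 L, a (p * (i * L + m)) * conj (a (q * (i * L + m)))‖ ≤
      δ / 2 * L + (if bad p i then (L : ℝ) else 0) + (if bad q i then (L : ℝ) else 0) := by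
    intro i
    have htriv : ‖∑ m ∈ Icc 1 L, a (p * (i * L + m)) * conj (a (q * (i * L + m)))‖ ≤ L := by
      refine (norm_sum_le _ _).trans ?_
      refine (sum_le_sum (g := fun _ => (1 : ℝ)) fun m _ => ?_).trans ?_
      · rw [norm_mul, RCLike.norm_conj]
        exact mul_le_one₀ (ha _) (norm_nonneg _) (ha _)
      · simp
    have h0 : 0 ≤ δ / 2 * L := by positivity
    by_cases h1 : bad p i
    · rw [if_pos h1]
      split_ifs <;> linarith
    by_cases h2 : bad q i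
    · rw [if_neg h1, if_pos h2]
      linarith
    rw [if_neg h1, if_neg h2, add_zero, add_zero]
    obtain ⟨c₁, w₁, hc₁, e₁⟩ := hbl (p * (i * L)) (p * (i * L + L)) (Nat.mul_le_mul_left _ (by omega))
      (fun k hk => h1 ⟨k, hk⟩)
    obtain ⟨c₂, w₂, hc₂, e₂⟩ := hbl (q * (i * L)) (q * (i * L + L)) (Nat.mul_le_mul_left _ (by omega))
      (fun k hk => h2 ⟨k, hk⟩)
    have h3 : ∀ m ∈ Icc 1 L, a (p * (i * L + m)) * conj (a (q * (i * L + m))) =
        (c₁ * conj c₂) * (f (T^[p * m] w₁) * conj (f (T^[q * m] w₂))) := by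
      intro m hm
      rw [mem_Icc] at hm
      rw [e₁ _ (Nat.mul_le_mul_left _ (by omega)) (Nat.mul_le_mul_left _ (by omega)),
        e₂ _ (Nat.mul_le_mul_left _ (by omega)) (Nat.mul_le_mul_left _ (by omega)), map_mul]
      have h4 : ∀ r, r * (i * L + m) - r * (i * L) = r * m := fun r => by
        rw [Nat.mul_add, Nat.add_sub_cancel_left]
      rw [h4, h4]
      ring
    rw [sum_congr rfl h3, ← mul_sum, norm_mul]
    have h5 : ‖c₁ * conj c₂‖ ≤ 1 := by
      rw [norm_mul, RCLike.norm_conj]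
      exact mul_le_one₀ hc₁ (norm_nonneg _) hc₂
    calc _ ≤ 1 * ‖∑ m ∈ Icc 1 L, f (T^[p * m] w₁) * conj (f (T^[q * m] w₂))‖ :=
          mul_le_mul_of_nonneg_right h5 (norm_nonneg _)
      _ ≤ _ := by rw [one_mul]; exact h w₁ w₂
  obtain ⟨M1, hM1⟩ := exists_nat_ge (8 * (L : ℝ) / δ)
  refine ⟨max M1 (Y0 * L), fun M hM => ?_⟩
  have hM1' : 8 * (L : ℝ) / δ ≤ M := hM1.trans (by exact_mod_cast (le_max_left _ _).trans hM)
  have hM2 : Y0 * L ≤ M := (le_max_right _ _).trans hM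
  set Q := M / L with hQ
  have hQL : Q * L ≤ M := Nat.div_mul_le_self M L
  obtain ⟨r, hr⟩ : ∃ r, M = Q * L + r := ⟨M - Q * L, by omega⟩
  have hrL : r ≤ L := by
    have h1 := Nat.lt_div_mul_add hL (a := M)
    rw [← hQ] at h1
    omega
  have hQY : Y0 ≤ Q := by
    rw [hQ, Nat.le_div_iff_mul_le hL]
    exact hM2
  have hMr : (0 : ℝ) ≤ M := Nat.cast_nonneg M
  have hQLr : (Q : ℝ) * L ≤ M := by exact_mod_cast hQL
  have k1 : ‖∑ i ∈ range Q, ∑ m ∈ Icc 1 L, a (p * (i * L + m)) * conj (a (q * (i * L + m)))‖ ≤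
      Q * (δ / 2 * L) + ε * (p * (Q * L)) * L + ε * (q * (Q * L)) * L := by
    refine (norm_sum_le _ _).trans ((sum_le_sum fun i _ => hwin i).trans ?_)
    rw [sum_add_distrib, sum_add_distrib, sum_const, card_range, nsmul_eq_mul]
    have e : ∀ r, 0 < r → ∑ i ∈ range Q, (if bad r i then (L : ℝ) else 0) ≤ ε * (r * (Q * L)) * L := by
      intro r hr
      rw [← Finset.sum_filter, sum_const, nsmul_eq_mul]
      exact mul_le_mul_of_nonneg_right (hcard r Q hr hQY) hLr.le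
    have e1 := e p hp
    have e2 := e q hq
    linarith
  have k2 : ‖∑ m ∈ Icc 1 r, a (p * (Q * L + m)) * conj (a (q * (Q * L + m)))‖ ≤ L := by
    refine (norm_sum_le _ _).trans ?_
    refine (sum_le_sum (g := fun _ => (1 : ℝ)) fun m _ => ?_).trans ?_
    · rw [norm_mul, RCLike.norm_conj]
      exact mul_le_one₀ (ha _) (norm_nonneg _) (ha _)
    · simp only [sum_const, Nat.card_Icc, add_tsub_cancel_right, nsmul_eq_mul, mul_one]
      exact_mod_cast hrL
  have k3 : ε * (p * (Q * L)) * L + ε * (q * (Q * L)) * L = δ / 8 * (Q * L) := by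
    rw [hε]
    field_simp
  have k4 : (L : ℝ) ≤ δ / 8 * M := by
    rw [div_le_iff₀ hδ] at hM1'
    linarith
  have k5 : δ / 8 * ((Q : ℝ) * L) ≤ δ / 8 * M := mul_le_mul_of_nonneg_left hQLr (by positivity)
  have k6 : (Q : ℝ) * (δ / 2 * L) ≤ δ / 2 * M := by
    have : δ / 2 * ((Q : ℝ) * L) ≤ δ / 2 * M := mul_le_mul_of_nonneg_left hQLr (by positivity)
    linarith
  have k7 : 0 ≤ δ * M := by positivity
  have k8 : ∑ m ∈ Icc 1 M, a (p * m) * conj (a (q * m)) =
      ∑ i ∈ range Q, ∑ m ∈ Icc 1 L, a (p * (i * L + m)) * conj (a (q * (i * L + m))) +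
        ∑ m ∈ Icc 1 r, a (p * (Q * L + m)) * conj (a (q * (Q * L + m))) := by
    rw [hr]
    exact sm_split (fun m => a (p * m) * conj (a (q * m))) L Q r
  rw [k8]
  refine (norm_add_le _ _).trans ?_
  linarith

/-- the criterion for one sequence: correlations asymptotically small for large primes -/
theorem sm_kb {u : ℕ → ℂ} (hu : HD.BMult u) {a : ℕ → ℂ} (ha : ∀ n, ‖a n‖ ≤ 1)
    (h : ∀ η : ℝ, 0 < η → ∃ P0 : ℕ, ∀ p q : ℕ, p.Prime → q.Prime → P0 ≤ p → P0 ≤ q → p ≠ q →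
      ∃ M0 : ℕ, ∀ M ≥ M0, ‖∑ m ∈ Icc 1 M, a (p * m) * conj (a (q * m))‖ ≤ η * M) (ε : ℝ) (hε : 0 < ε) :
    ∃ N0 : ℕ, ∀ N ≥ N0, ‖∑ n ∈ Icc 1 N, u n * a n‖ ≤ ε * N := by
  suffices hh : ∃ N0 : ℕ, ∀ N ≥ N0, ∀ _i : Unit, ‖∑ n ∈ Icc 1 N, u n * a n‖ ≤ ε * N by
    obtain ⟨N0, hN0⟩ := hh
    exact ⟨N0, fun N hN => hN0 N hN ()⟩
  refine HD.kbsz_avg hu (fun (_ : Unit) n => a n) (fun _ n => ha n) ?_ ε hε
  intro η hη
  obtain ⟨P0, hP0⟩ := h (η / 2) (by positivity)
  obtain ⟨K, hK⟩ := exists_nat_ge (4 / η)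
  have hcard : ∃ J1 : ℕ, ∀ j ≥ J1, (K : ℝ) ≤ ((HD.Qb j).card : ℝ) := by
    obtain ⟨c, hc, j0, hj0⟩ := HD.Qb_card
    have h1 : Tendsto (fun j : ℕ => (2 : ℝ) ^ j / (j : ℝ) ^ 1) atTop atTop := by
      have := tendsto_pow_const_div_const_pow_of_one_lt 1 (by norm_num : (1 : ℝ) < 2)
      have h2 : Tendsto (fun n : ℕ => ((n : ℝ) ^ 1 / 2 ^ n)⁻¹) atTop atTop := by
        refine Tendsto.inv_tendsto_nhdsGT_zero ?_
        rw [tendsto_nhdsWithin_iff]
        refine ⟨this, ?_⟩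
        filter_upwards [eventually_gt_atTop 0] with n hn
        have : (0 : ℝ) < n := by exact_mod_cast hn
        exact Set.mem_Ioi.2 (by positivity)
      simpa using h2
    have h3 := (h1.const_mul_atTop hc).eventually (eventually_ge_atTop (K : ℝ))
    obtain ⟨J2, hJ2⟩ := eventually_atTop.1 h3
    refine ⟨max j0 J2, fun j hj => ?_⟩
    have h4 := hJ2 j ((le_max_right _ _).trans hj)
    have h5 := hj0 j ((le_max_left _ _).trans hj)
    rw [pow_one, ← mul_div_assoc] at h4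
    exact h4.trans h5
  obtain ⟨J1, hJ1⟩ := hcard
  refine ⟨max P0 J1, fun j hj => ?_⟩
  have hjP : P0 ≤ j := (le_max_left _ _).trans hj
  have hjJ : J1 ≤ j := (le_max_right _ _).trans hj
  have hmem : ∀ p ∈ HD.Qb j, p.Prime ∧ P0 ≤ p := by
    intro p hp
    unfold HD.Qb at hp
    rw [mem_filter, mem_Ico] at hp
    exact ⟨hp.2, hjP.trans ((Nat.lt_two_pow_self).le.trans hp.1.1)⟩
  have hc : ∀ p q : ℕ, ∃ M0 : ℕ, p ∈ HD.Qb j → q ∈ HD.Qb j → p ≠ q → ∀ M ≥ M0,
      ‖∑ m ∈ Icc 1 M, a (p * m) * conj (a (q * m))‖ ≤ η / 2 * M := by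
    intro p q
    by_cases hpq : p ∈ HD.Qb j ∧ q ∈ HD.Qb j ∧ p ≠ q
    swap
    · exact ⟨0, fun a b c => absurd ⟨a, b, c⟩ hpq⟩
    obtain ⟨hp, hq, hne⟩ := hpq
    obtain ⟨M0, hM0⟩ := hP0 p q (hmem p hp).1 (hmem q hq).1 (hmem p hp).2 (hmem q hq).2 hne
    exact ⟨M0, fun _ _ _ => hM0⟩
  choose M0 hM0 using hc
  refine ⟨(HD.Qb j ×ˢ HD.Qb j).sup fun x => M0 x.1 x.2, fun _ => ?_⟩
  refine ⟨fun p q => if p = q then 1 else η / 2, ?_, ?_, ?_⟩
  · intro p _ q _
    dsimp only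
    split_ifs
    · norm_num
    · positivity
  · intro p hp q hq hne M hM
    dsimp only
    rw [if_neg hne]
    exact hM0 p q hp hq hne M
      ((Finset.le_sup (f := fun x : ℕ × ℕ => M0 x.1 x.2) (mem_product.2 ⟨hp, hq⟩ : (p, q) ∈ HD.Qb j ×ˢ HD.Qb j)).trans hM)
  · have hKc := hJ1 j hjJ
    set C : ℝ := ((HD.Qb j).card : ℝ) with hC
    have hC0 : 0 ≤ C := Nat.cast_nonneg _
    have e1 : ∑ p ∈ HD.Qb j, ∑ q ∈ HD.Qb j, (if p = q then (1 : ℝ) else η / 2) ≤
        ∑ p ∈ HD.Qb j, ∑ q ∈ HD.Qb j, ((if p = q then (1 : ℝ) else 0) + η / 2) := by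
      refine Finset.sum_le_sum fun p _ => Finset.sum_le_sum fun q _ => ?_
      split_ifs
      · linarith
      · linarith
    have e2 : ∑ p ∈ HD.Qb j, ∑ q ∈ HD.Qb j, ((if p = q then (1 : ℝ) else 0) + η / 2) = C + η / 2 * C ^ 2 := by
      simp only [Finset.sum_add_distrib, Finset.sum_ite_eq, Finset.sum_const, nsmul_eq_mul]
      rw [Finset.sum_congr rfl (fun p hp => if_pos hp)]
      rw [Finset.sum_const, nsmul_eq_mul, ← hC]
      ring
    refine (e1.trans e2.le).trans ?_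
    have h6 : 4 / η ≤ C := hK.trans hKc
    rw [div_le_iff₀ hη] at h6
    nlinarith [mul_nonneg hC0 hC0]

/-- **strong MOMO from small correlations** -/
theorem smomo_core [Nonempty X] {T : X → X} {f : X → ℂ} (hf : ∀ x, ‖f x‖ ≤ 1)
    (h : ∀ η : ℝ, 0 < η → ∃ P0 : ℕ, ∀ p q : ℕ, p.Prime → q.Prime → P0 ≤ p → P0 ≤ q → p ≠ q →
      ∃ L : ℕ, 0 < L ∧ ∀ w₁ w₂ : X, ‖∑ m ∈ Icc 1 L, f (T^[p * m] w₁) * conj (f (T^[q * m] w₂))‖ ≤ η * L) : SMomo T f := by
  intro u hu b hb hg z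
  set S : ℕ → ℂ := fun k => ∑ n ∈ Ico (b k) (b (k + 1)), u n * f (T^[n - b k] (z k)) with hS
  set e : ℕ → ℂ := fun k => if S k = 0 then 0 else conj (S k) / (‖S k‖ : ℂ) with he
  have he1 : ∀ k, ‖e k‖ ≤ 1 := by
    intro k
    simp only [he]
    split_ifs with h0
    · simp
    · rw [norm_div, RCLike.norm_conj, Complex.norm_real, norm_norm, div_self (norm_ne_zero_iff.2 h0)]
  have he2 : ∀ k, e k * S k = (‖S k‖ : ℂ) := by
    intro k
    simp only [he]
    split_ifs with h0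
    · simp [h0]
    · have h1 : (‖S k‖ : ℂ) ≠ 0 := by exact_mod_cast norm_ne_zero_iff.2 h0
      rw [div_mul_eq_mul_div, mul_comm (conj (S k)), Complex.mul_conj, Complex.normSq_eq_norm_sq, div_eq_iff h1]
      push_cast
      ring
  set kk : ℕ → ℕ := fun n => Nat.findGreatest (fun k => b k ≤ n) n with hkk
  have hid : ∀ k, k ≤ b k := fun k => hb.le_apply
  have hkk1 : ∀ k n, b k ≤ n → n < b (k + 1) → kk n = k := by
    intro k n h1 h2
    simp only [hkk]
    rw [Nat.findGreatest_eq_iff]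
    refine ⟨(hid k).trans h1, fun _ => h1, fun j hj _ hc => ?_⟩
    exact absurd hc (not_le.2 (h2.trans_le (hb.monotone hj)))
  set a : ℕ → ℂ := fun n => if b 0 ≤ n then e (kk n) * f (T^[n - b (kk n)] (z (kk n))) else 0 with ha
  have ha1 : ∀ n, ‖a n‖ ≤ 1 := by
    intro n
    simp only [ha]
    split_ifs
    · rw [norm_mul]
      exact mul_le_one₀ (he1 _) (norm_nonneg _) (hf _)
    · simp
  have hblk : ∀ n, b 0 ≤ n → ∃ k, b k ≤ n ∧ n < b (k + 1) := by
    intro n hn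
    refine ⟨kk n, ?_, ?_⟩
    · exact Nat.findGreatest_spec (P := fun k => b k ≤ n) (Nat.zero_le n) hn
    · by_contra hc
      push Not at hc
      have h2 : kk n + 1 ≤ kk n := Nat.le_findGreatest (P := fun k => b k ≤ n) ((hid _).trans hc) hc
      omega
  have hbl : ∀ A B : ℕ, A ≤ B → (∀ k, ¬ (A < b k ∧ b k ≤ B)) → ∃ (c : ℂ) (w : X), ‖c‖ ≤ 1 ∧
      ∀ n, A ≤ n → n ≤ B → a n = c * f (T^[n - A] w) := by
    intro A B _ hno
    by_cases h0 : b 0 ≤ A
    · obtain ⟨k, h1, h2⟩ := hblk A h0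
      have h3 : B < b (k + 1) := by
        by_contra hc
        push Not at hc
        exact hno (k + 1) ⟨h2, hc⟩
      refine ⟨e k, T^[A - b k] (z k), he1 k, fun n hn1 hn2 => ?_⟩
      have h4 := hkk1 k n (h1.trans hn1) (hn2.trans_lt h3)
      simp only [ha]
      rw [if_pos (h0.trans hn1), h4, ← Function.iterate_add_apply]
      have h5 : n - A + (A - b k) = n - b k := by omega
      rw [h5]
    · have hB : B < b 0 := by
        by_contra hc
        push Not at hc h0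
        exact hno 0 ⟨h0, hc⟩
      refine ⟨0, Classical.arbitrary X, by simp, fun n hn1 hn2 => ?_⟩
      simp only [ha]
      rw [if_neg (not_le.2 (hn2.trans_lt hB)), zero_mul]
  have hsum : ∀ K, ∑ n ∈ range (b K), u n * a n = ((∑ k ∈ range K, ‖S k‖ : ℝ) : ℂ) := by
    intro K
    induction K with
    | zero =>
      simp only [range_zero, sum_empty, Complex.ofReal_zero]
      refine sum_eq_zero fun n hn => ?_
      rw [mem_range] at hn
      simp only [ha]
      rw [if_neg (not_le.2 hn), mul_zero]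
    | succ K ih =>
      have h1 : b K ≤ b (K + 1) := hb.monotone (by omega)
      rw [← Finset.sum_range_add_sum_Ico _ h1, ih, sum_range_succ, Complex.ofReal_add, ← he2 K]
      congr 1
      simp only [hS]
      rw [mul_sum]
      refine sum_congr rfl fun n hn => ?_
      rw [mem_Ico] at hn
      simp only [ha]
      rw [if_pos ((hb.monotone (Nat.zero_le K)).trans hn.1), hkk1 K n hn.1 hn.2]
      ring
  have hmain := sm_kb hu ha1 (fun η hη => by
    obtain ⟨P0, hP0⟩ := h (η / 2) (by positivity)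
    refine ⟨P0, fun p q pp qp hp hq hne => ?_⟩
    obtain ⟨L, hL, hw⟩ := hP0 p q pp qp hp hq hne
    exact sm_corr hb hg ha1 hbl pp.pos qp.pos hL hη hw)
  rw [Metric.tendsto_atTop]
  intro ε hε
  obtain ⟨N0, hN0⟩ := hmain (ε / 4) (by positivity)
  obtain ⟨K1, hK1⟩ := exists_nat_ge (4 / ε)
  refine ⟨max (N0 + 1) (K1 + 1), fun K hK => ?_⟩
  have hbK : K ≤ b K := hid K
  have hK2 : N0 + 1 ≤ K := (le_max_left _ _).trans hK
  have hK3 : K1 + 1 ≤ K := (le_max_right _ _).trans hK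
  have h2 := hN0 (b K - 1) (by omega)
  have h3 : ∑ n ∈ range (b K), u n * a n = ∑ n ∈ Icc 1 (b K - 1), u n * a n + u 0 * a 0 := by
    obtain ⟨m, hm⟩ : ∃ m, b K = m + 1 := ⟨b K - 1, by omega⟩
    rw [hm, Nat.add_sub_cancel, sum_range_succ', sm_icc]
  have hs0 : (0 : ℝ) ≤ ∑ k ∈ range K, ‖S k‖ := sum_nonneg fun _ _ => norm_nonneg _
  have h4 : ∑ k ∈ range K, ‖S k‖ ≤ ε / 4 * b K + 1 := by
    have h5 : ‖((∑ k ∈ range K, ‖S k‖ : ℝ) : ℂ)‖ = ∑ k ∈ range K, ‖S k‖ := by
      rw [Complex.norm_real, Real.norm_of_nonneg hs0]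
    rw [← h5, ← hsum K, h3]
    refine (norm_add_le _ _).trans ?_
    have h6 : ‖u 0 * a 0‖ ≤ 1 := by
      rw [norm_mul]
      exact mul_le_one₀ (hu.le_one 0) (norm_nonneg _) (ha1 0)
    have h7 : ((b K - 1 : ℕ) : ℝ) ≤ b K := by exact_mod_cast Nat.sub_le _ _
    have h8 := mul_le_mul_of_nonneg_left h7 (by positivity : (0 : ℝ) ≤ ε / 4)
    linarith
  have hb1 : (K1 : ℝ) ≤ b K := by exact_mod_cast (by omega : K1 ≤ b K)
  have hbpos : (0 : ℝ) < b K := by exact_mod_cast (by omega : 0 < b K)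
  rw [Real.dist_eq, sub_zero, abs_of_nonneg (div_nonneg hs0 hbpos.le), div_lt_iff₀ hbpos]
  have h9 : 1 ≤ ε / 4 * b K := by
    have h10 : 4 / ε ≤ b K := hK1.trans hb1
    rw [div_le_iff₀ hε] at h10
    linarith
  have h11 : 0 < ε * b K := by positivity
  linarith

/-- **strong MOMO from ergodic joinings** -/
theorem smomo_of_joinings [TopologicalSpace X] [CompactSpace X] [TopologicalSpace.MetrizableSpace X] [MeasurableSpace X]
    [BorelSpace X] [Nonempty X] (T : X → X) (hT : Continuous T) (f : C(X, ℂ)) (hf : ∀ x, ‖f x‖ ≤ 1)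
    (h : ∀ ε : ℝ, 0 < ε → ∃ P0 : ℕ, ∀ p q : ℕ, p.Prime → q.Prime → P0 ≤ p → P0 ≤ q → p ≠ q →
      ∀ lam : Measure (X × X), IsProbabilityMeasure lam → Ergodic (Prod.map T^[p] T^[q]) lam →
        ‖∫ z, f z.1 * conj (f z.2) ∂lam‖ ≤ ε) : SMomo T f := by
  refine smomo_core hf fun η hη => ?_
  obtain ⟨P0, hP0⟩ := h (η / 4) (by positivity)
  refine ⟨P0, fun p q pp qp hp hq hne => ?_⟩
  obtain ⟨M0, hM0⟩ := AH.avg_of_erg (Z := X × X) (Prod.map T^[p] T^[q]) ((hT.iterate p).prodMap (hT.iterate q))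
    ⟨fun z => f z.1 * conj (f z.2), by fun_prop⟩ (η / 4) (fun lam h1 h2 => hP0 p q pp qp hp hq hne lam h1 h2)
    (η / 2) (by positivity)
  refine ⟨M0 + 1, by omega, fun w₁ w₂ => ?_⟩
  have h3 := hM0 (M0 + 1) (by omega) (w₁, w₂)
  have e : (2 * (η / 4) + η / 2) = η := by ring
  rw [e] at h3
  refine le_trans (le_of_eq ?_) h3
  congr 1
  refine Finset.sum_congr rfl fun m _ => ?_
  have e2 : (Prod.map T^[p] T^[q])^[m] (w₁, w₂) = (T^[p * m] w₁, T^[q * m] w₂) := by
    rw [Prod.map_iterate, Prod.map_apply, Function.iterate_mul, Function.iterate_mul]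
  rw [e2]
  rfl

/-! ### uniquely ergodic models -/

section Mod

variable {Z : Type} [MeasurableSpace X] [MeasurableSpace Z] {ν : Measure Z} {μ : Measure X} {R : Z → Z} {T : X → X}
  {φ : Z → X} {π : X → Z} [TopologicalSpace Z] [CompactSpace Z] [TopologicalSpace.MetrizableSpace Z] [BorelSpace Z]

/-- the joinings of the powers of a uniquely ergodic model -/
theorem mod_joins [IsProbabilityMeasure ν] (hTm : Measurable T) (hTe : ∀ n, 0 < n → Ergodic T^[n] μ)
    (hTs : ∀ F : X → ℂ, Measurable F → (∃ C, ∀ x, ‖F x‖ ≤ C) → ∫ x, F x ∂μ = 0 → SJ μ T F)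
    (hR : MeasurePreserving R ν ν)
    (hu : ∀ ν' : Measure Z, IsProbabilityMeasure ν' → MeasurePreserving R ν' ν' → ν' = ν)
    (hφ : MeasurePreserving φ ν μ) (hπ : Measurable π) (h : ∀ᵐ z ∂ν, φ (R z) = T (φ z))
    (hπφ : ∀ᵐ z ∂ν, π (φ z) = z) (f : C(Z, ℂ)) : ∃ (k : C(Z, ℂ)) (c : ℂ), (∀ z, ‖k z‖ ≤ 1) ∧
      (∀ z, c * k z = f z - ∫ y, f y ∂ν) ∧
      ∀ ε : ℝ, 0 < ε → ∃ P0 : ℕ, ∀ p q : ℕ, p.Prime → q.Prime → P0 ≤ p → P0 ≤ q → p ≠ q →
        ∀ lam : Measure (Z × Z), IsProbabilityMeasure lam → Ergodic (Prod.map R^[p] R^[q]) lam →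
          ‖∫ z, k z.1 * conj (k z.2) ∂lam‖ ≤ ε := by
  have hfi : Integrable f ν := Integrable.of_bound f.continuous.measurable.aestronglyMeasurable ‖f‖
    (Eventually.of_forall fun x => f.norm_coe_le_norm x)
  set C : ℝ := ‖f‖ + ‖∫ y, f y ∂ν‖ + 1 with hC
  have hC0 : 0 < C := by positivity
  set c : ℂ := ((1 / C : ℝ) : ℂ) with hc
  have hc0 : c ≠ 0 := by
    rw [hc]
    exact_mod_cast (by positivity : (0 : ℝ) < 1 / C).ne'
  set k : C(Z, ℂ) := ⟨fun z => c * (f z - ∫ y, f y ∂ν), by fun_prop⟩ with hk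
  have hkv : ∀ z, k z = c * (f z - ∫ y, f y ∂ν) := fun _ => rfl
  have hk1 : ∀ z, ‖k z‖ ≤ 1 := by
    intro z
    rw [hkv, norm_mul, hc, Complex.norm_real, Real.norm_of_nonneg (by positivity), one_div, inv_mul_le_iff₀ hC0, mul_one]
    refine (norm_sub_le _ _).trans ?_
    have := f.norm_coe_le_norm z
    rw [hC]
    linarith
  have hk0 : ∫ z, k z ∂ν = 0 := by
    simp only [hkv]
    rw [integral_const_mul, integral_sub hfi (integrable_const _)]
    simp
  -- the function on the tower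
  have hF : Measurable fun x => k (π x) := k.continuous.measurable.comp hπ
  have hF0 : ∫ x, k (π x) ∂μ = 0 := by
    rw [← hφ.map_eq, integral_map hφ.measurable.aemeasurable hF.aestronglyMeasurable, ← hk0]
    refine integral_congr_ae ?_
    filter_upwards [hπφ] with z hz
    rw [hz]
  have hs : SJ ν R k := SJ.factor hR hTm hφ h hF (by filter_upwards [hπφ] with z hz; rw [hz])
    (hTs _ hF ⟨1, fun x => hk1 _⟩ hF0)
  refine ⟨k, c⁻¹, hk1, fun z => by rw [hkv, ← mul_assoc, inv_mul_cancel₀ hc0, one_mul], fun ε hε => ?_⟩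
  obtain ⟨q0, hq0⟩ := hs ε hε
  refine ⟨q0, fun p q pp qp hp hq hne lam h1 h2 => ?_⟩
  have hpp : MeasurePreserving R^[p] (lam.map Prod.fst) (lam.map Prod.fst) := by
    refine ⟨hR.measurable.iterate p, ?_⟩
    rw [Measure.map_map (hR.measurable.iterate p) measurable_fst]
    have e : R^[p] ∘ Prod.fst = Prod.fst ∘ Prod.map R^[p] R^[q] := rfl
    rw [e, ← Measure.map_map measurable_fst h2.measurable, h2.map_eq]
  have hqq : MeasurePreserving R^[q] (lam.map Prod.snd) (lam.map Prod.snd) := by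
    refine ⟨hR.measurable.iterate q, ?_⟩
    rw [Measure.map_map (hR.measurable.iterate q) measurable_snd]
    have e : R^[q] ∘ Prod.snd = Prod.snd ∘ Prod.map R^[p] R^[q] := rfl
    rw [e, ← Measure.map_map measurable_snd h2.measurable, h2.map_eq]
  have u1 : IsProbabilityMeasure (lam.map Prod.fst) := Measure.isProbabilityMeasure_map measurable_fst.aemeasurable
  have u2 : IsProbabilityMeasure (lam.map Prod.snd) := Measure.isProbabilityMeasure_map measurable_snd.aemeasurable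
  exact hq0 p q pp qp hne hp hq lam h1 h2
    (m1_ue hR hu pp.pos (mod_erg hR hφ hπ h hπφ (hTe p pp.pos)) u1 hpp)
    (m1_ue hR hu qp.pos (mod_erg hR hφ hπ h hπφ (hTe q qp.pos)) u2 hqq)

/-- **strong MOMO for uniquely ergodic models** -/
theorem mod_momo [IsProbabilityMeasure ν] (hTm : Measurable T) (hTe : ∀ n, 0 < n → Ergodic T^[n] μ)
    (hTs : ∀ F : X → ℂ, Measurable F → (∃ C, ∀ x, ‖F x‖ ≤ C) → ∫ x, F x ∂μ = 0 → SJ μ T F)
    (hRc : Continuous R) (hR : MeasurePreserving R ν ν)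
    (hu : ∀ ν' : Measure Z, IsProbabilityMeasure ν' → MeasurePreserving R ν' ν' → ν' = ν)
    (hφ : MeasurePreserving φ ν μ) (hπ : Measurable π) (h : ∀ᵐ z ∂ν, φ (R z) = T (φ z))
    (hπφ : ∀ᵐ z ∂ν, π (φ z) = z) (f : C(Z, ℂ)) : SMomo R fun z => f z - ∫ y, f y ∂ν := by
  have hne : Nonempty Z := by
    by_contra hcon
    rw [not_nonempty_iff] at hcon
    have h1 : ν Set.univ = 1 := measure_univ
    rw [Set.eq_empty_of_isEmpty (Set.univ : Set Z), measure_empty] at h1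
    exact zero_ne_one h1
  obtain ⟨k, c, hk1, hkc, hj⟩ := mod_joins hTm hTe hTs hR hu hφ hπ h hπφ f
  have h9 := (smomo_of_joinings R hRc k hk1 hj).smul c
  have e2 : (fun z => c * k z) = fun z => f z - ∫ y, f y ∂ν := funext hkc
  rw [e2] at h9
  exact h9

/-- **strong MOMO for the uniquely ergodic models of towers** -/
theorem ITow.momo {κ : Type} {lev : κ → ℕ} {ψ : κ → TX κ → UnitAddCircle} {μ : Measure (TX κ)} {T : TX κ → TX κ}
    (hT : ITow lev ψ μ T) {φ : Z → TX κ} {π : TX κ → Z} [IsProbabilityMeasure ν] (hRc : Continuous R)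
    (hR : MeasurePreserving R ν ν)
    (hu : ∀ ν' : Measure Z, IsProbabilityMeasure ν' → MeasurePreserving R ν' ν' → ν' = ν)
    (hφ : MeasurePreserving φ ν μ) (hπ : Measurable π) (h : ∀ᵐ z ∂ν, φ (R z) = T (φ z))
    (hπφ : ∀ᵐ z ∂ν, π (φ z) = z) (f : C(Z, ℂ)) : SMomo R fun z => f z - ∫ y, f y ∂ν :=
  mod_momo hT.Tmeas (fun _ hn => (hT.erg hn).2) (fun _ hF hb h0 => hT.sj hF hb h0) hRc hR hu hφ hπ h hπφ f

end Mod

/-! ### the tower itself -/

section Self

variable {κ : Type} {lev : κ → ℕ} {ψ : κ → TX κ → UnitAddCircle} {ν : Measure (TX κ)} {T : TX κ → TX κ}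

/-- **unique ergodicity of the powers of a nondegenerate tower** -/
theorem ITow.uniq (h : ITow lev ψ ν T) {n : ℕ} (hn : 0 < n) (ν' : Measure (TX κ)) (hp : IsProbabilityMeasure ν')
    (hν' : MeasurePreserving T^[n] ν' ν') : ν' = ν := by
  classical
  have := h.count
  have := h.prob
  have hJ : ∀ J x, cutR lev J (T x) = (cut lev J ψ h.meas h.dep).T (cutR lev J x) := fun J x =>
    cut_T (J := J) h.meas h.dep h.map x
  refine cyl_ext (lev := lev) fun J => ?_
  have : Fintype (cutI lev J) := (h.fin J).fintype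
  rw [(cut_meas (lev := lev) (J := J) h.haar).map_eq]
  have hm := cutR_meas lev J
  have p1 : IsProbabilityMeasure (ν'.map (cutR lev J)) := Measure.isProbabilityMeasure_map hm.aemeasurable
  have h1 : MeasurePreserving ((cut lev J ψ h.meas h.dep).T^[n]) (ν'.map (cutR lev J)) (ν'.map (cutR lev J)) := by
    refine ⟨(Tow.T_meas _).iterate n, ?_⟩
    rw [Measure.map_map ((Tow.T_meas _).iterate n) hm]
    have e : (cut lev J ψ h.meas h.dep).T^[n] ∘ cutR lev J = cutR lev J ∘ T^[n] :=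
      funext fun x => (cyl_iter hJ J n x).symm
    rw [e, ← Measure.map_map hm (h.Tmeas.iterate n), hν'.map_eq]
  exact AH.uniq (cut lev J ψ h.meas h.dep).ah (Tow.nd_ah (h.cutND J)) hn _ h1

theorem ITow.Tcont (h : ITow lev ψ ν T) (hc : ∀ i, Continuous (ψ i)) : Continuous T := by
  refine continuous_pi fun i => ?_
  simp only [h.map]
  exact (continuous_apply i).add (hc i)

/-- **strong MOMO for the tower itself, continuous cocycles** -/
theorem ITow.momo_self (h : ITow lev ψ ν T) (hc : ∀ i, Continuous (ψ i)) (f : C(TX κ, ℂ)) :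
    SMomo T fun x => f x - ∫ y, f y ∂ν := by
  have := h.count
  have := h.prob
  exact h.momo (φ := id) (π := id) (h.Tcont hc) (h.erg one_pos).1 (fun ν' h1 h2 => h.uniq one_pos ν' h1 h2)
    (MeasurePreserving.id ν) measurable_id (Eventually.of_forall fun _ => rfl) (Eventually.of_forall fun _ => rfl) f

/-- **uniform orthogonality for the tower itself, continuous cocycles** -/
theorem ITow.orth_self (h : ITow lev ψ ν T) (hc : ∀ i, Continuous (ψ i)) (f : C(TX κ, ℂ)) :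
    HD.UnifOrth T fun x => f x - ∫ y, f y ∂ν := by
  have := h.count
  have := h.prob
  exact h.model (φ := id) (π := id) (h.Tcont hc) (h.erg one_pos).1 (fun ν' h1 h2 => h.uniq one_pos ν' h1 h2)
    (MeasurePreserving.id ν) measurable_id (Eventually.of_forall fun _ => rfl) (Eventually.of_forall fun _ => rfl) f

end Self

end Pool.Agent.Lib.MP_9fe581_an.AP
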